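import Pool.Agent.MG.Defs0

/-!
# Stable pointed curves, covectors, and regular functions on `T^*M̄_{g,n}`
-/

open CategoryTheory AlgebraicGeometry

namespace Pool.Agent.MG.Std

/-- The ring of functions on an open subset of a scheme. -/
def Fn (X : Scheme.{0}) (U : X.Opens) : CommRingCat.{0} := Γ(X, U)

/-- Restriction of functions. -/
noncomputable def res {X : Scheme.{0}} {U V : X.Opens} (h : U ≤ V) : Fn X V →+* Fn X U :=
  (X.presheaf.map (homOfLE h).op).hom

/-- Pull back of functions. -/
noncomputable def pull {X Y : Scheme.{0}} (f : X ⟶ Y) (U : Y.Opens) : Fn Y U →+* Fn X (f ⁻¹ᵁ U) :=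
  (f.app U).hom

/-- The elements of `A` as functions on a scheme over `Spec A`. -/
noncomputable def scal {A : Type} [CommRing A] {X : Scheme.{0}} (π : X ⟶ Sp A) (U : X.Opens) :
    A →+* Fn X U :=
  coef π U

/-- For homomorphisms `i : k → R`, `f : R₁ → R`, `f' : R₂ → R` of rings: `L` is a `k`-linear
surjection of `R` to `k^g` with kernel `f(R₁) + f'(R₂)`. -/
structure IsH1 {k R R₁ R₂ : Type} [CommRing k] [CommRing R] [CommRing R₁] [CommRing R₂]
    (i : k →+* R) (f : R₁ →+* R) (f' : R₂ →+* R) {g : ℕ} (L : R → (Fin g → k)) : Prop where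
  surj : Function.Surjective L
  add : ∀ s t, L (s + t) = L s + L t
  smul : ∀ c s, L (i c * s) = c • L s
  ker : ∀ s, L s = 0 ↔ ∃ a b, s = f a + f' b

/-- For a homomorphism `i : k → R` of rings: `D` is a derivation of `R` over `k`. -/
structure IsDer {k R : Type} [CommRing k] [CommRing R] (i : k →+* R) (D : R → R) : Prop where
  add : ∀ a b, D (a + b) = D a + D b
  mul : ∀ a b, D (a * b) = a * D b + b * D a
  const : ∀ c, D (i c) = 0

section Curves

variable {n : ℕ} {k : Type} [Field k]

/-- The arithmetic genus of a (separated, connected) curve over `k`: the dimension of `H¹(X, O)` is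
`g`, where `H¹(X, O) = Γ(U ∩ V)/(Γ(U) + Γ(V))` for affine open `U`, `V` which cover `X`. -/
def HasGenus {X : Scheme.{0}} (π : X ⟶ Sp k) (g : ℕ) : Prop :=
  ∃ U V : X.Opens, IsAffineOpen U ∧ IsAffineOpen V ∧ U ⊔ V = ⊤ ∧
    ∃ L : Fn X (U ⊓ V) → (Fin g → k), IsH1 (scal π (U ⊓ V)) (res inf_le_left) (res inf_le_right) L

/-- A vector field on a pointed curve over `k` which vanishes at the marked points (an
infinitesimal automorphism). -/
structure VField (z : Fam n k) where
  /-- the derivation of the functions on `U` -/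
  D : ∀ U : z.X.Opens, Fn z.X U → Fn z.X U
  der : ∀ U : z.X.Opens, IsDer (scal z.π U) (D U)
  res : ∀ (U V : z.X.Opens) (h : U ≤ V) (a : Fn z.X V), D U (res h a) = res h (D V a)
  sec : ∀ (U : z.X.Opens) (i : Fin n) (a : Fn z.X U), pull (z.σ i) U (D U a) = 0

/-- The conditions on the fibres of a stable `n`-pointed curve of genus `g`, over an algebraically
closed field: connected nodal curve of arithmetic genus `g`, distinct marked points in the smooth
locus, no infinitesimal automorphisms. -/
structure StableCurve (g : ℕ) (z : Fam n k) : Prop where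
  connected : ConnectedSpace z.X
  nodal : Nodal z.π
  genus : HasGenus z.π g
  distinct : ∀ i j, i ≠ j → z.σ i ≠ z.σ j
  smooth : ∀ (i : Fin n) (s : Sp k), ∃ U : z.X.Opens, z.σ i s ∈ U ∧ Smooth (U.ι ≫ z.π)
  rigid : ∀ (v : VField z) (U : z.X.Opens) (a : Fn z.X U), v.D U a = 0

end Curves

section Families

variable {n : ℕ} {A B : Type} [CommRing A] [CommRing B]

/-- Stable `n`-pointed curves of genus `g` over `Spec A`: proper, flat, of finite presentation,
with stable geometric fibres. -/
structure IsStable (g : ℕ) (x : Fam n A) : Prop where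
  proper : IsProper x.π
  flat : Flat x.π
  fp : LocallyOfFinitePresentation x.π
  fib : ∀ (k : Type) [Field k] [IsAlgClosed k] (s : A →+* k) (z : Fam n k),
    Nonempty (Arrow s z x) → StableCurve g z

/-- A first order deformation of a stable pointed curve `x` over `A`: a stable pointed curve over
`A[ε]` with restriction `x`. -/
structure Defo (g : ℕ) (x : Fam n A) where
  /-- the curve over `A[ε]` -/
  y : Fam n (Eps A)
  stable : IsStable g y
  /-- the identification of `x` with the restriction to `ε = 0` -/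
  r : Arrow (eps0 A) x y

/-- A covector at `x`: an `A`-linear functional on the isomorphism classes of first order
deformations. The sum of two deformations is the restriction to the diagonal `ε₁ = ε₂ = ε` of a
deformation over `A[ε₁, ε₂]` which restricts to the two given ones on the axes. -/
structure Cov (g : ℕ) (x : Fam n A) where
  /-- the functional -/
  l : Defo g x → A
  iso : ∀ (d d' : Defo g x) (f : Arrow (RingHom.id (Eps A)) d.y d'.y), d.r.f ≫ f.f = d'.r.f →
    l d = l d'
  scale : ∀ (a : A) (d d' : Defo g x) (f : Arrow (epsScale a) d'.y d.y), d'.r.f ≫ f.f = d.r.f →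
    l d' = a * l d
  add : ∀ (z : Fam n (Eps2 A)), IsStable g z → ∀ (r : Arrow (eps20 A) x z) (d₁ d₂ d : Defo g x)
    (f₁ : Arrow (epsPair 1 0) d₁.y z) (f₂ : Arrow (epsPair 0 1) d₂.y z)
    (f : Arrow (epsPair 1 1) d.y z), d₁.r.f ≫ f₁.f = r.f → d₂.r.f ≫ f₂.f = r.f →
    d.r.f ≫ f.f = r.f → l d = l d₁ + l d₂

/-- The zero covector. -/
instance (g : ℕ) (x : Fam n A) : Zero (Cov g x) :=
  ⟨{ l := fun _ => 0
     iso := fun _ _ _ _ => rfl
     scale := fun _ _ _ _ _ => (mul_zero _).symm
     add := fun _ _ _ _ _ _ _ _ _ _ _ _ => (add_zero _).symm }⟩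

/-- For an arrow `y → x` over `φ : A → B`: the covector `l'` at `y` is the pull back of the
covector `l` at `x`. -/
def Compat {g : ℕ} {φ : A →+* B} {y : Fam n B} {x : Fam n A} (a : Arrow φ y x) (l' : Cov g y)
    (l : Cov g x) : Prop :=
  ∀ (d' : Defo g y) (d : Defo g x) (f : Arrow (epsMap φ) d'.y d.y), d'.r.f ≫ f.f = a.f ≫ d.r.f →
    l'.l d' = φ (l.l d)

end Families

/-- A regular function on the cotangent bundle of `M̄_{g,n}`. -/
structure Reg (g n : ℕ) where
  /-- the value at `(x, l)` -/
  F : ∀ (A : Type) [CommRing A] [Algebra ℂ A] (x : Fam n A), IsStable g x → Cov g x → A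
  nat : ∀ (A B : Type) [CommRing A] [Algebra ℂ A] [CommRing B] [Algebra ℂ B] (φ : A →ₐ[ℂ] B)
    (x : Fam n A) (y : Fam n B) (hx : IsStable g x) (hy : IsStable g y)
    (a : Arrow (φ : A →+* B) y x) (l : Cov g x) (l' : Cov g y), Compat a l' l →
    F B y hy l' = φ (F A x hx l)

end Pool.Agent.MG.Std
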