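import Mathlib

/-!
# Regular functions on the cotangent bundle of the moduli stack of stable pointed curves

All test rings are commutative `ℂ`-algebras. The stack `M̄_{g,n}` is given by its groupoids of
stable `n`-pointed curves of genus `g` over `Spec A`; an arrow over `A → B` is a cartesian square.
For a smooth Deligne–Mumford stack `M` and an object `x` of `M(A)`, the `A`-module of first order
deformations of `x` (objects over `A[ε]` with restriction `x`, up to isomorphism) is the module of
sections of the pull back of the tangent bundle, so the objects of the cotangent bundle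
`T^*M` over `A` are the pairs `(x, l)`, `l` a linear functional on the first order deformations of
`x`; and a regular function on `T^*M` assigns to every pair `(x, l)` over every `A` an element of
`A`, compatibly with base change.
-/

open CategoryTheory AlgebraicGeometry

namespace Pool.Agent.MG

/-- The spectrum of a commutative ring. -/
noncomputable abbrev Sp (A : Type) [CommRing A] : Scheme.{0} := Spec (CommRingCat.of A)

/-- The morphism of spectra of a ring homomorphism. -/
noncomputable abbrev spMap {A B : Type} [CommRing A] [CommRing B] (φ : A →+* B) : Sp B ⟶ Sp A :=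
  Spec.map (CommRingCat.ofHom φ)

/-- A scheme over `Spec A` with `n` sections. -/
structure Fam (n : ℕ) (A : Type) [CommRing A] where
  /-- the total space -/
  X : Scheme.{0}
  /-- the projection -/
  π : X ⟶ Sp A
  /-- the sections -/
  σ : Fin n → (Sp A ⟶ X)
  sec : ∀ i, σ i ≫ π = 𝟙 (Sp A)

/-- An arrow over `φ : A → B` from a family over `B` to a family over `A`: a cartesian square which
respects the sections. -/
structure Arrow {n : ℕ} {A B : Type} [CommRing A] [CommRing B] (φ : A →+* B) (y : Fam n B)
    (x : Fam n A) where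
  /-- the morphism of total spaces -/
  f : y.X ⟶ x.X
  cart : IsPullback f y.π x.π (spMap φ)
  sec : ∀ i, y.σ i ≫ f = spMap φ ≫ x.σ i

section Curves

variable {n : ℕ} {k : Type} [Field k]

/-- The structure map `A → Γ(X, U)` of a scheme over `Spec A`. -/
noncomputable def coef {A : Type} [CommRing A] {X : Scheme.{0}} (π : X ⟶ Sp A) (U : X.Opens) :
    A →+* Γ(X, U) :=
  ((Scheme.ΓSpecIso (CommRingCat.of A)).inv ≫ π.appTop ≫ X.presheaf.map (homOfLE le_top).op).hom

/-- The ring `k[u, v]/(u v)`. -/
abbrev NodeRing (k : Type) [Field k] : Type :=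
  MvPolynomial (Fin 2) k ⧸ Ideal.span {(MvPolynomial.X 0 * MvPolynomial.X 1 :
    MvPolynomial (Fin 2) k)}

/-- `X` is a nodal curve: every point has an étale neighbourhood which is étale over
`Spec k[u, v]/(u v)`. -/
def Nodal {X : Scheme.{0}} (π : X ⟶ Sp k) : Prop :=
  ∀ x : X, ∃ (U : Scheme.{0}) (f : U ⟶ X) (h : U ⟶ Sp (NodeRing k)),
    Etale f ∧ Etale h ∧ f ≫ π = h ≫ spMap (algebraMap k (NodeRing k)) ∧ x ∈ Set.range f

end Curves

section Families

variable {n : ℕ} {A B : Type} [CommRing A] [CommRing B]

/-- `A[ε]`, `ε² = 0`. -/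
abbrev Eps (A : Type) [CommRing A] : Type := TrivSqZeroExt A A

/-- `A[ε₁, ε₂]/(ε₁, ε₂)²`. -/
abbrev Eps2 (A : Type) [CommRing A] : Type := TrivSqZeroExt A (A × A)

/-- `ε ↦ 0`. -/
abbrev eps0 (A : Type) [CommRing A] : Eps A →+* A := (TrivSqZeroExt.fstHom A A A).toRingHom

/-- `ε₁, ε₂ ↦ 0`. -/
abbrev eps20 (A : Type) [CommRing A] : Eps2 A →+* A := (TrivSqZeroExt.fstHom A A (A × A)).toRingHom

/-- `ε ↦ a ε`. -/
noncomputable abbrev epsScale (a : A) : Eps A →+* Eps A :=
  (TrivSqZeroExt.map (a • (LinearMap.id : A →ₗ[A] A))).toRingHom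

/-- `ε₁ ↦ a ε`, `ε₂ ↦ b ε`. -/
noncomputable abbrev epsPair (a b : A) : Eps2 A →+* Eps A :=
  (TrivSqZeroExt.map (a • LinearMap.fst A A A + b • LinearMap.snd A A A)).toRingHom

/-- `φ[ε] : A[ε] → B[ε]`. -/
def epsMap (φ : A →+* B) : Eps A →+* Eps B where
  toFun z := TrivSqZeroExt.inl (φ z.fst) + TrivSqZeroExt.inr (φ z.snd)
  map_one' := by ext <;> simp
  map_mul' x y := by ext <;> simp [mul_comm, add_comm]
  map_zero' := by ext <;> simp
  map_add' x y := by ext <;> simp

end Families

end Pool.Agent.MG
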