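import Pool.Agent.MG.AI

/-!
# AC: change of the chart of a section
-/

open CategoryTheory CategoryTheory.Limits AlgebraicGeometry TensorProduct

namespace Pool.Agent.MG

namespace AC

variable {n : ℕ} {k : Type} [Field k] {T : TC k} {B : Type} [CommRing B] [Algebra k B]
  {E J : Type} [CommRing E] [Fintype J] {S : SqE B E J}

theorem dlt_congr (D : RData T S) (u1 : D.G1) (u2 : D.G2) (d : J → B) :
    ∀ (s s' : Pt T B) (_ : s = s') (γ : D.Sec s) (γ' : D.Sec s'), HEq γ γ' →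
      D.Dlt u1 u2 s γ d → D.Dlt u1 u2 s' γ' d := by
  intro s s' h γ γ' hγ hd
  subst h
  obtain rfl := eq_of_heq hγ
  exact hd

theorem dlt_one (D : RData T S) (u1 : D.G1) (u2 : D.G2) (d : J → B) (s : Pt T B) (γ : D.Sec s)
    (φ : T.R1 →ₐ[k] B) (h : s = .one φ) (hd : D.Dlt u1 u2 s γ d) :
    RData.Sec1.g (h ▸ γ : D.Sec (.one φ)) u1 = S.i (φ T.x) + ∑ j, S.ε j * S.i (d j) := by
  subst h
  exact hd

theorem dlt_two (D : RData T S) (u1 : D.G1) (u2 : D.G2) (d : J → B) (s : Pt T B) (γ : D.Sec s)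
    (ψ : T.R2 →ₐ[k] B) (h : s = .two ψ)
    (hd : RData.Sec2.g (h ▸ γ : D.Sec (.two ψ)) u2 = S.i (ψ T.y) + ∑ j, S.ε j * S.i (d j)) :
    D.Dlt u1 u2 s γ d := by
  subst h
  exact hd

/-- The kernel of the projection. -/
theorem un' (S : SqE B E J) (w : J → E) (h : ∑ j, S.ε j * w j = 0) (j : J) : S.p (w j) = 0 := by
  have h1 : ∑ j, S.ε j * S.i (S.p (w j)) = 0 := by
    rw [← h]
    exact Finset.sum_congr rfl fun j _ => (AI.eps_mul S j (w j)).symm
  exact congrFun (S.un _ h1) j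

/-- The value of a section on the intersection of the charts. -/
theorem val (D : RData T S) (χ : T.R12 →ₐ[k] B) (t : T.R12 →+* E)
    (ht : ∀ a, S.p (t a) = χ a) (hc : ∀ c : k, t (algebraMap k T.R12 c) = S.i (algebraMap k B c))
    (d : J → B) (hx : t (T.j1 T.x) = S.i (χ (T.j1 T.x)) + ∑ j, S.ε j * S.i (d j)) (a : T.R12) :
    t a = S.i (χ a) + ∑ j, S.ε j * S.i (d j * χ (T.dd a)) := by
  obtain ⟨W, hW, hW'⟩ := AI.dif S.p (RingHom.id E) S.ε
    (fun v hv => by
      obtain ⟨b, hb⟩ := S.ex v hv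
      exact ⟨fun j => S.i (b j), hb⟩) (fun w hw => un' S w hw)
    (χ : T.R12 →+* B) t (S.i.comp (χ : T.R12 →+* B)) (fun r => ht r) (fun r => S.pi _)
  have key : ∀ (j : J) (a : T.R12), S.p (W a j) - d j * χ (T.dd a) = 0 := by
    intro j
    obtain ⟨a1, a2, a3⟩ := hW' j
    refine AI.zero_of_coord T.j1 T.et1 T.x T.etx (χ : T.R12 →+* B)
      (fun a => S.p (W a j) - d j * χ (T.dd a)) (fun a b => ?_) (fun a b => ?_) (fun c => ?_) ?_
    · show S.p (W (a + b) j) - d j * χ (T.dd (a + b)) = _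
      rw [a1, map_add, map_add]
      ring
    · show S.p (W (a * b) j) - d j * χ (T.dd (a * b)) = _
      rw [a2, Derivation.leibniz, smul_eq_mul, smul_eq_mul, map_add, map_mul, map_mul]
      show χ a * _ + χ b * _ - _ = χ a * _ + χ b * _
      ring
    · show S.p (W (algebraMap k T.R12 c) j) - d j * χ (T.dd (algebraMap k T.R12 c)) = 0
      rw [Derivation.map_algebraMap, map_zero, mul_zero, sub_zero]
      refine a3 _ ?_
      rw [hc]
      show _ = S.i (χ (algebraMap k T.R12 c))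
      rw [AlgHom.commutes]
    · show S.p (W (T.j1 T.x) j) - d j * χ (T.dd (T.j1 T.x)) = 0
      rw [T.ddx, map_one, mul_one]
      have h1 : ∑ l, S.ε l * (W (T.j1 T.x) l - S.i (d l)) = 0 := by
        have h2 := hW (T.j1 T.x)
        rw [hx] at h2
        have h3 : ∑ l, S.ε l * (W (T.j1 T.x) l - S.i (d l)) =
            ∑ l, S.ε l * W (T.j1 T.x) l - ∑ l, S.ε l * S.i (d l) := by
          rw [← Finset.sum_sub_distrib]
          exact Finset.sum_congr rfl fun l _ => by ring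
        rw [h3]
        have h4 : S.i (χ (T.j1 T.x)) + ∑ l, S.ε l * S.i (d l) =
          S.i (χ (T.j1 T.x)) + ∑ l, S.ε l * W (T.j1 T.x) l := h2
        linear_combination -h4
      have h5 := un' S _ h1 j
      rw [map_sub, S.pi] at h5
      exact h5
  have h1 : t a = S.i (χ a) + ∑ j, S.ε j * W a j := hW a
  rw [h1]
  congr 1
  refine Finset.sum_congr rfl fun j _ => ?_
  rw [AI.eps_mul, sub_eq_zero.1 (key j a)]

theorem ext_add {R : Type} [CommRing R] [Algebra k R] (μ μ' : R →ₗ[k] B) (χ : R →ₐ[k] B) (c : B)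
    (h : ∀ r, μ' r = μ r + c * χ r) (v : B ⊗[k] R) : ext μ' v = ext μ v + c * extA χ v := by
  induction v using TensorProduct.induction_on with
  | zero => simp
  | tmul b r =>
    rw [AI.extA_eq, AI.ext_tmul, AI.ext_tmul, AI.ext_tmul, h]
    show _ = b * μ r + c * (b * χ r)
    ring
  | add x y hx hy =>
    rw [map_add, map_add, map_add, hx, hy]
    ring

end AC

open AC in
theorem t_AC : Stmt_AC := by
  intro n k _ T B _ _ E J _ _ S D s s' γ γ' i₀ χ g12 hg hs hs' h1 h2 h3 h4 C C' hμ hν hν' h δ hK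
  classical
  obtain ⟨K⟩ := hK
  -- the section is linear
  have ga : ∀ z, g12 (D.a12 z) = z := by
    intro z
    rw [← D.fa1, ← h1, RData.Sec1.ga]
  -- the value at the coordinate of the first chart
  have hx : g12 (K.t1 (T.j1 T.x)) = S.i (χ (T.j1 T.x)) + ∑ j, S.ε j * S.i (δ j i₀) := by
    have := dlt_one D _ _ _ _ _ _ hs (K.dl i₀)
    rw [h1, ← K.e1] at this
    exact this
  have hv := AC.val D χ (g12.comp K.t1) (fun a => by
      show S.p (g12 (K.t1 a)) = χ a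
      rw [hg, K.lt1, AI.extA_eq, AI.ext_tmul, one_mul]
      rfl) (fun c => by
      show g12 (K.t1 (algebraMap k T.R12 c)) = _
      rw [← T.j1.commutes, K.e1, K.k1, D.fa1, ga]) (fun j => δ j i₀) hx (T.j2 T.y)
  obtain ⟨v, hv1, hv2⟩ := K.diff (T.j2 T.y)
  have hv3 : g12 (K.t1 (T.j2 T.y)) = S.i (χ (T.j2 T.y)) +
    ∑ j, S.ε j * S.i (δ j i₀ * χ (T.dd (T.j2 T.y))) := hv
  have hy : g12 (K.t2 (T.j2 T.y)) = S.i (χ (T.j2 T.y)) +
      ∑ j, S.ε j * S.i (χ (T.dd (T.j2 T.y)) * (δ j i₀ - extA χ (h j))) := by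
    have e1 : ∑ j, S.ε j * S.i (χ (T.dd (T.j2 T.y)) * (δ j i₀ - extA χ (h j))) =
        ∑ j, S.ε j * S.i (δ j i₀ * χ (T.dd (T.j2 T.y))) - ∑ j, S.ε j * g12 (v j) := by
      rw [← Finset.sum_sub_distrib]
      refine Finset.sum_congr rfl fun j _ => ?_
      have e0 : extA χ (h j * (1 ⊗ₜ T.dd (T.j2 T.y))) = extA χ (h j) * χ (T.dd (T.j2 T.y)) := by
        rw [map_mul, AI.extA_eq χ ((1 : B) ⊗ₜ[k] T.dd (T.j2 T.y)), AI.ext_tmul, one_mul]
        rfl
      rw [AI.eps_mul S j (g12 (v j)), hg, hv1, e0, ← mul_sub, ← map_sub]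
      congr 2
      ring
    have e2 : g12 (∑ j, D.a12 (S.ε j) * v j) = ∑ j, S.ε j * g12 (v j) := by
      rw [map_sum]
      exact Finset.sum_congr rfl fun j _ => by rw [map_mul, ga]
    rw [hv2, map_add, e2] at hv3
    rw [e1]
    linear_combination hv3
  refine ⟨fun j i => if i = i₀ then χ (T.dd (T.j2 T.y)) * (δ j i₀ - extA χ (h j)) else δ j i,
    ⟨{ θ1 := K.θ1, θ2 := K.θ2, k1 := K.k1, k2 := K.k2, l1 := K.l1, l2 := K.l2, t1 := K.t1,
       t2 := K.t2, e1 := K.e1, e2 := K.e2, lt1 := K.lt1, lt2 := K.lt2, diff := K.diff,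
       dl := fun i => ?_ }⟩, fun j => ?_⟩
  · by_cases hi : i = i₀
    · subst hi
      refine dlt_two D _ _ _ _ _ _ hs' ?_
      rw [h2, ← K.e2, hy]
      simp
    · have := dlt_congr D _ _ _ _ _ (h3 i hi) _ _ (h4 i hi) (K.dl i)
      simp only [hi, if_false]
      exact this
  · have e1 : ∑ i, C.ν i * δ j i = C.ν i₀ * δ j i₀ + ∑ i ∈ Finset.univ.erase i₀, C.ν i * δ j i :=
      (Finset.add_sum_erase _ _ (Finset.mem_univ i₀)).symm
    have e2 : ∑ i, C'.ν i * (if i = i₀ then χ (T.dd (T.j2 T.y)) * (δ j i₀ - extA χ (h j))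
        else δ j i) = C'.ν i₀ * (χ (T.dd (T.j2 T.y)) * (δ j i₀ - extA χ (h j))) +
          ∑ i ∈ Finset.univ.erase i₀, C.ν i * δ j i := by
      rw [← Finset.add_sum_erase _ _ (Finset.mem_univ i₀), if_pos rfl]
      congr 1
      refine Finset.sum_congr rfl fun i hi => ?_
      have hi' := Finset.ne_of_mem_erase hi
      rw [if_neg hi', hν' i hi']
    have e3 : χ T.e * χ (T.dd (T.j2 T.y)) = 1 := by rw [← map_mul, T.ey, map_one]
    rw [e1, e2, ext_add C.μ C'.μ χ (C.ν i₀) hμ, hν]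
    linear_combination (-(C.ν i₀) * (δ j i₀ - extA χ (h j))) * e3

end Pool.Agent.MG
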