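import Pool.Agent.MG.Geo

/-!
# Affine opens of a thickening
-/

open CategoryTheory CategoryTheory.Limits AlgebraicGeometry TensorProduct

namespace Pool.Agent.MG

namespace AffLem

section

variable {n : ℕ} {B E J : Type} [CommRing B] [CommRing E] [Fintype J] {S : SqE B E J}
  {x : Fam n B} (t : Thk S x)

/-- Reduction of functions is surjective over affine opens. -/
theorem sur (U : x.X.Opens) (h : IsAffineOpen (t.op U)) : Function.Surjective (t.q U) := by
  intro b
  have h1 := t.r.f.app_surjective (t.op U) h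
  obtain ⟨a, ha⟩ := h1 (x.X.presheaf.map (homOfLE (t.pre U).le).op b)
  refine ⟨a, ?_⟩
  have h2 : t.q U a = (x.X.presheaf.map (homOfLE (t.pre U).ge).op).hom (t.r.f.app (t.op U) a) := by
    rfl
  rw [h2, ha]
  change (x.X.presheaf.map (homOfLE (t.pre U).le).op ≫
    x.X.presheaf.map (homOfLE (t.pre U).ge).op) b = b
  rw [← Functor.map_comp, ← op_comp]
  have : homOfLE (t.pre U).ge ≫ homOfLE (t.pre U).le = 𝟙 U := rfl
  rw [this, op_id, CategoryTheory.Functor.map_id]
  rfl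

theorem isPushout (U : x.X.Opens) (h : IsAffineOpen (t.op U)) :
    IsPushout (t.y.π.appLE ⊤ (t.op U) le_top) ((spMap S.p).appLE ⊤ ⊤ le_top)
      (t.r.f.appLE (t.op U) U (t.pre U).ge) (x.π.appLE ⊤ U le_top) := by
  have hU : U = t.r.f ⁻¹ᵁ (t.op U) ⊓ x.π ⁻¹ᵁ ⊤ := by rw [t.pre]; simp
  exact (isIso_pushoutSection_iff t.r.cart (US := ⊤) (UT := ⊤) (UX := t.op U) le_top le_top
    hU).1 (isIso_pushoutSection_of_isAffineOpen _ _ _ _ (isAffineOpen_top _)
      (isAffineOpen_top _) h)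

/-- The ideal generated by the kernel of `p`. -/
theorem ker_span (U : x.X.Opens) (h : IsAffineOpen (t.op U)) (v : Γ(t.y.X, t.op U))
    (hv : t.q U v = 0) : v ∈ Ideal.map (coef t.y.π (t.op U)) (RingHom.ker S.p) := by
  set I := Ideal.map (coef t.y.π (t.op U)) (RingHom.ker S.p) with hI
  have H := isPushout t U h
  let a : Γ(t.y.X, t.op U) ⟶ CommRingCat.of (Γ(t.y.X, t.op U) ⧸ I) :=
    CommRingCat.ofHom (Ideal.Quotient.mk I)
  let b : Γ(Sp B, ⊤) ⟶ CommRingCat.of (Γ(t.y.X, t.op U) ⧸ I) :=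
    (Scheme.ΓSpecIso (CommRingCat.of B)).hom ≫
      CommRingCat.ofHom ((Ideal.Quotient.mk I).comp ((coef t.y.π (t.op U)).comp S.i))
  have hab : t.y.π.appLE ⊤ (t.op U) le_top ≫ a = (spMap S.p).appLE ⊤ ⊤ le_top ≫ b := by
    rw [← Iso.cancel_iso_inv_left (Scheme.ΓSpecIso (CommRingCat.of E))]
    ext e
    have h1 : ((Scheme.ΓSpecIso (CommRingCat.of E)).inv ≫ t.y.π.appLE ⊤ (t.op U) le_top ≫ a) e =
        Ideal.Quotient.mk I (coef t.y.π (t.op U) e) := rfl
    have h2 : ((Scheme.ΓSpecIso (CommRingCat.of E)).inv ≫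
        (spMap S.p).appLE ⊤ ⊤ le_top ≫ b) e =
        Ideal.Quotient.mk I (coef t.y.π (t.op U) (S.i (S.p e))) := by
      have h3 : (Scheme.ΓSpecIso (CommRingCat.of E)).inv ≫ (spMap S.p).appTop =
        CommRingCat.ofHom S.p ≫ (Scheme.ΓSpecIso (CommRingCat.of B)).inv :=
        (Scheme.ΓSpecIso_inv_naturality (CommRingCat.ofHom S.p)).symm
      have h4 : (spMap S.p).appLE ⊤ ⊤ le_top = (spMap S.p).appTop :=
        Scheme.Hom.appLE_eq_app _
      rw [h4, reassoc_of% h3]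
      change ((CommRingCat.ofHom S.p ≫ (Scheme.ΓSpecIso (CommRingCat.of B)).inv ≫
        (Scheme.ΓSpecIso (CommRingCat.of B)).hom ≫ _) : _ ⟶ _) e = _
      rw [Iso.inv_hom_id_assoc]
      rfl
    refine h1.trans (Eq.trans ?_ h2.symm)
    rw [Ideal.Quotient.eq, ← map_sub]
    refine Ideal.mem_map_of_mem _ ?_
    rw [RingHom.mem_ker, map_sub, S.pi, sub_self]
  have h1 : Ideal.Quotient.mk I v = 0 := by
    have h2 : a v = H.desc a b hab (t.r.f.appLE (t.op U) U (t.pre U).ge v) := by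
      have := H.inl_desc a b hab
      exact (ConcreteCategory.congr_hom this v).symm
    have h3 : t.r.f.appLE (t.op U) U (t.pre U).ge v = 0 := hv
    rw [h3, map_zero] at h2
    exact h2
  exact Ideal.Quotient.eq_zero_iff_mem.1 h1

theorem ker (U : x.X.Opens) (h : IsAffineOpen (t.op U)) (v : Γ(t.y.X, t.op U))
    (hv : t.q U v = 0) : ∃ w : J → Γ(t.y.X, t.op U),
      v = ∑ j, coef t.y.π (t.op U) (S.ε j) * w j := by
  have h1 := ker_span t U h v hv
  unfold Ideal.map at h1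
  refine Submodule.span_induction (p := fun v _ => ∃ w : J → Γ(t.y.X, t.op U),
      v = ∑ j, coef t.y.π (t.op U) (S.ε j) * w j) ?_ ?_ ?_ ?_ h1
  · rintro _ ⟨a, ha, rfl⟩
    obtain ⟨b, rfl⟩ := S.ex a ha
    refine ⟨fun j => coef t.y.π (t.op U) (S.i (b j)), ?_⟩
    rw [map_sum]
    exact Finset.sum_congr rfl fun j _ => map_mul _ _ _
  · exact ⟨0, by simp⟩
  · rintro _ _ _ _ ⟨w, rfl⟩ ⟨w', rfl⟩
    exact ⟨w + w', by simp [mul_add, Finset.sum_add_distrib]⟩
  · rintro a _ _ ⟨w, rfl⟩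
    refine ⟨fun j => a * w j, ?_⟩
    rw [smul_eq_mul, Finset.mul_sum]
    exact Finset.sum_congr rfl fun j _ => by ring

theorem flat (W : t.y.X.Opens) (h : IsAffineOpen W) : (coef t.y.π W).Flat := by
  have := t.flat
  have h1 : (t.y.π.appLE ⊤ W le_top).hom.Flat := t.y.π.flat_appLE (isAffineOpen_top _) h le_top
  have h2 : (Scheme.ΓSpecIso (CommRingCat.of E)).inv.hom.Flat :=
    RingHom.Flat.of_bijective (ConcreteCategory.bijective_of_isIso _)
  have h3 : coef t.y.π W = (t.y.π.appLE ⊤ W le_top).hom.comp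
    (Scheme.ΓSpecIso (CommRingCat.of E)).inv.hom := rfl
  rw [h3]
  exact RingHom.Flat.comp h2 h1

theorem un (U : x.X.Opens) (h : IsAffineOpen (t.op U)) (w : J → Γ(t.y.X, t.op U))
    (hw : ∑ j, coef t.y.π (t.op U) (S.ε j) * w j = 0) (j : J) : t.q U (w j) = 0 := by
  algebraize [coef t.y.π (t.op U)]
  have hfl : Module.Flat E Γ(t.y.X, t.op U) := flat t (t.op U) h
  have h1 : ∑ j, S.ε j • w j = 0 := by
    rw [← hw]
    exact Finset.sum_congr rfl fun j _ => Algebra.smul_def _ _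
  obtain ⟨k, a, y, ha, hb⟩ := Module.Flat.isTrivialRelation_of_sum_smul_eq_zero
    (R := E) (M := Γ(t.y.X, t.op U)) (f := S.ε) (x := w) h1
  have h2 : ∀ i j, S.p (a j i) = 0 := by
    intro i j
    have h3 : ∑ j, S.ε j * S.i (S.p (a j i)) = 0 := by
      rw [← hb i]
      refine Finset.sum_congr rfl fun j _ => ?_
      rw [← sub_eq_zero, ← mul_sub]
      exact S.mul_of_p_eq_zero (S.pe j) (by rw [map_sub, S.pi, sub_self])
    exact congrFun (S.un _ h3) j
  rw [ha j, map_sum]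
  refine Finset.sum_eq_zero fun i _ => ?_
  rw [Algebra.smul_def, map_mul]
  have h4 : t.q U (algebraMap E Γ(t.y.X, t.op U) (a j i)) = coef x.π U (S.p (a j i)) :=
    t.q_coef U (a j i)
  rw [h4, h2, map_zero, zero_mul]

end

end AffLem

section

variable {n : ℕ} {B E J : Type} [CommRing B] [CommRing E] [Fintype J] {S : SqE B E J}
  {x : Fam n B} (t : Thk S x)

/-- Opens with affine thickening are good. -/
theorem goodAff (U : x.X.Opens) (h : IsAffineOpen (t.op U)) : Good t U where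
  sur := AffLem.sur t U h
  ker := AffLem.ker t U h
  un := AffLem.un t U h

end

end Pool.Agent.MG
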