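import Pool.Agent.MG.StmtsA
import Pool.Agent.MG.AffLem

/-!
# A flat thickening of an affine open is affine
-/

open CategoryTheory CategoryTheory.Limits AlgebraicGeometry TensorProduct

namespace Pool.Agent.MG

namespace AFF

theorem rs_rs {X : Scheme.{0}} {U V W : X.Opens} (h : U ≤ V) (h' : V ≤ W) (a : Γ(X, W)) :
    rs X h (rs X h' a) = rs X (h.trans h') a := by
  change (X.presheaf.map (homOfLE h').op ≫ X.presheaf.map (homOfLE h).op) a = _
  rw [← Functor.map_comp, ← op_comp]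
  rfl

/-- Gluing of two functions. -/
theorem glue {X : Scheme.{0}} {U V W I : X.Opens} (h1 : U ≤ W) (h2 : V ≤ W) (hc : W ≤ U ⊔ V)
    (i1 : I ≤ U) (i2 : I ≤ V) (hI : U ⊓ V ≤ I)
    (a : Γ(X, U)) (b : Γ(X, V)) (hab : rs X i1 a = rs X i2 b) :
    ∃ c : Γ(X, W), rs X h1 c = a ∧ rs X h2 c = b := by
  have hle : ∀ i : Bool, (Bool.rec V U i : X.Opens) ≤ W := by
    intro i
    cases i
    · exact h2
    · exact h1
  have key : ∀ (Z : X.Opens) (z1 : Z ≤ U) (z2 : Z ≤ V), rs X z1 a = rs X z2 b := by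
    intro Z z1 z2
    have hZ : Z ≤ I := (le_inf z1 z2).trans hI
    have e1 : rs X z1 a = rs X hZ (rs X i1 a) := (rs_rs _ _ _).symm
    have e2 : rs X z2 b = rs X hZ (rs X i2 b) := (rs_rs _ _ _).symm
    rw [e1, e2, hab]
  obtain ⟨c, hc1, -⟩ := X.sheaf.existsUnique_gluing' (fun i : Bool => (Bool.rec V U i : X.Opens)) W
    (fun i => homOfLE (hle i))
    (by
      refine hc.trans (sup_le ?_ ?_)
      · exact le_iSup (fun i : Bool => (Bool.rec V U i : X.Opens)) true
      · exact le_iSup (fun i : Bool => (Bool.rec V U i : X.Opens)) false)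
    (fun i => match i with
      | true => a
      | false => b)
    (by
      intro i j
      rcases i with _ | _ <;> rcases j with _ | _
      · rfl
      · exact (key _ _ _).symm
      · exact key _ _ _
      · rfl)
  exact ⟨c, hc1 true, hc1 false⟩

section

variable {n : ℕ} {B E J : Type} [CommRing B] [CommRing E] [Fintype J] {S : SqE B E J}
  {x : Fam n B} (t : Thk S x)

theorem op_basicOpen (V : x.X.Opens) (G : Γ(t.y.X, t.op V)) :
    t.op (x.X.basicOpen (t.q V G)) = t.y.X.basicOpen G := by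
  have h : x.X.basicOpen (t.q V G) = t.r.f ⁻¹ᵁ (t.y.X.basicOpen G) := by
    have h1 := Scheme.basicOpen_appLE t.r.f V (t.op V) (t.pre V).ge G
    refine Eq.trans h1 (inf_eq_right.2 ?_)
    have h2 : t.r.f ⁻¹ᵁ (t.y.X.basicOpen G) ≤ t.r.f ⁻¹ᵁ (t.op V) :=
      fun a ha => t.y.X.basicOpen_le G ha
    exact h2.trans (t.pre V).le
  rw [h, t.op_pre]

theorem aff_basicOpen (V : x.X.Opens) (h : IsAffineOpen (t.op V)) (g : Γ(x.X, V)) :
    IsAffineOpen (t.op (x.X.basicOpen g)) := by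
  obtain ⟨G, rfl⟩ := AffLem.sur t V h g
  rw [op_basicOpen]
  exact h.basicOpen G

theorem eps_mul (V : x.X.Opens) (h : IsAffineOpen (t.op V)) (j : J) (v : Γ(t.y.X, t.op V))
    (hv : t.q V v = 0) : coef t.y.π (t.op V) (S.ε j) * v = 0 := by
  obtain ⟨w, rfl⟩ := AffLem.ker t V h v hv
  rw [Finset.mul_sum]
  refine Finset.sum_eq_zero fun l _ => ?_
  rw [← mul_assoc, ← map_mul, S.mul, map_zero, zero_mul]

/-- Functions on `D(h) ∩ D(1 - h)`. -/
theorem split {X : Scheme.{0}} {U : X.Opens} (hU : IsAffineOpen U) (h : Γ(X, U))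
    (u : Γ(X, X.basicOpen h ⊓ X.basicOpen (1 - h))) :
    ∃ (a : Γ(X, X.basicOpen h)) (b : Γ(X, X.basicOpen (1 - h))),
      u = rs X inf_le_left a - rs X inf_le_right b := by
  have hV1 : X.basicOpen h ≤ U := X.basicOpen_le _
  have hV2 : X.basicOpen (1 - h) ≤ U := X.basicOpen_le _
  have hV : X.basicOpen h ⊓ X.basicOpen (1 - h) ≤ U := inf_le_left.trans hV1
  have hloc := hU.isLocalization_of_eq_basicOpen (f := h * (1 - h)) (homOfLE hV)
    (X.basicOpen_mul h (1 - h)).symm
  let _ : Algebra Γ(X, U) Γ(X, X.basicOpen h ⊓ X.basicOpen (1 - h)) := (rs X hV).toAlgebra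
  have hloc' : IsLocalization.Away (h * (1 - h)) Γ(X, X.basicOpen h ⊓ X.basicOpen (1 - h)) := hloc
  obtain ⟨N, r, hr⟩ := IsLocalization.Away.surj (h * (1 - h)) u
  have hr' : u * rs X hV (h * (1 - h)) ^ N = rs X hV r := hr
  have hu1 : IsUnit (rs X hV1 h) := X.toRingedSpace.isUnit_res_basicOpen h
  have hu2 : IsUnit (rs X hV2 (1 - h)) := X.toRingedSpace.isUnit_res_basicOpen (1 - h)
  obtain ⟨i1, hi1⟩ := hu1.exists_right_inv
  obtain ⟨i2, hi2⟩ := hu2.exists_right_inv
  have hcop : IsCoprime (h ^ N) ((1 - h) ^ N) := IsCoprime.pow ⟨1, 1, by ring⟩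
  obtain ⟨α, β, hαβ⟩ := hcop
  have e1 : rs X (inf_le_left : X.basicOpen h ⊓ X.basicOpen (1 - h) ≤ _) i1 * rs X hV h = 1 := by
    have := congrArg (rs X (inf_le_left : X.basicOpen h ⊓ X.basicOpen (1 - h) ≤ _)) hi1
    rw [map_mul, rs_rs, map_one] at this
    rw [mul_comm]
    exact this
  have e2 : rs X (inf_le_right : X.basicOpen h ⊓ X.basicOpen (1 - h) ≤ _) i2 *
      rs X hV (1 - h) = 1 := by
    have := congrArg (rs X (inf_le_right : X.basicOpen h ⊓ X.basicOpen (1 - h) ≤ _)) hi2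
    rw [map_mul, rs_rs, map_one] at this
    rw [mul_comm]
    exact this
  refine ⟨rs X hV1 (β * r) * i1 ^ N, - (rs X hV2 (α * r) * i2 ^ N), ?_⟩
  simp only [map_mul, map_neg, map_pow, rs_rs]
  rw [map_mul] at hr'
  rw [← hr']
  set H := rs X hV h with hH
  set K := rs X hV (1 - h) with hK
  set I1 := rs X (inf_le_left : X.basicOpen h ⊓ X.basicOpen (1 - h) ≤ _) i1
  set I2 := rs X (inf_le_right : X.basicOpen h ⊓ X.basicOpen (1 - h) ≤ _) i2
  have h3 : rs X hV α * H ^ N + rs X hV β * K ^ N = 1 := by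
    have := congrArg (rs X hV) hαβ
    rw [map_add, map_mul, map_mul, map_pow, map_pow, map_one] at this
    exact this
  have h4 : I1 ^ N * H ^ N = 1 := by rw [← mul_pow, e1, one_pow]
  have h5 : I2 ^ N * K ^ N = 1 := by rw [← mul_pow, e2, one_pow]
  calc u = u * (rs X hV α * H ^ N + rs X hV β * K ^ N) := by rw [h3, mul_one]
    _ = rs X hV β * (u * (H * K) ^ N) * I1 ^ N - -(rs X hV α * (u * (H * K) ^ N) * I2 ^ N) := by
      rw [mul_pow]
      have e4 : rs X hV β * (u * (H ^ N * K ^ N)) * I1 ^ N =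
        rs X hV β * u * K ^ N * (I1 ^ N * H ^ N) := by ring
      have e5 : rs X hV α * (u * (H ^ N * K ^ N)) * I2 ^ N =
        rs X hV α * u * H ^ N * (I2 ^ N * K ^ N) := by ring
      rw [e4, e5, h4, h5]
      ring

/-- The main step. -/
theorem two (U : x.X.Opens) (hU : IsAffineOpen U) (h : Γ(x.X, U))
    (h1 : IsAffineOpen (t.op (x.X.basicOpen h)))
    (h2 : IsAffineOpen (t.op (x.X.basicOpen (1 - h)))) : IsAffineOpen (t.op U) := by
  have hV1 : x.X.basicOpen h ≤ U := x.X.basicOpen_le _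
  have hV2 : x.X.basicOpen (1 - h) ≤ U := x.X.basicOpen_le _
  set V1 := x.X.basicOpen h with hV1d
  set V2 := x.X.basicOpen (1 - h) with hV2d
  have h12 : IsAffineOpen (t.op (V1 ⊓ V2)) := by
    have := aff_basicOpen t V1 h1 (rs x.X hV1 (1 - h))
    rwa [show x.X.basicOpen (rs x.X hV1 (1 - h)) = V1 ⊓ V2 from
      x.X.basicOpen_res (1 - h) (homOfLE hV1).op] at this
  have hcov : U ≤ V1 ⊔ V2 := by
    have := x.X.basicOpen_add_le h (1 - h)
    rwa [add_sub_cancel, x.X.basicOpen_one] at this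
  obtain ⟨A1, hA1⟩ := AffLem.sur t V1 h1 (rs x.X hV1 h)
  obtain ⟨A2, hA2⟩ := AffLem.sur t V2 h2 (rs x.X hV2 h)
  have l12 : V1 ⊓ V2 ≤ V1 := inf_le_left
  have r12 : V1 ⊓ V2 ≤ V2 := inf_le_right
  have hd : t.q (V1 ⊓ V2) (rs t.y.X (t.op_mono l12) A1 - rs t.y.X (t.op_mono r12) A2) = 0 := by
    rw [map_sub, t.q_rs l12, t.q_rs r12, hA1, hA2, rs_rs, rs_rs, sub_self]
  obtain ⟨v, hv⟩ := AffLem.ker t _ h12 _ hd
  have hs := fun j => split hU h (t.q (V1 ⊓ V2) (v j))
  choose c1 c2 hc using hs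
  have hs1 := fun j => AffLem.sur t V1 h1 (c1 j)
  have hs2 := fun j => AffLem.sur t V2 h2 (c2 j)
  choose C1 hC1 using hs1
  choose C2 hC2 using hs2
  obtain ⟨H, hH1, hH2⟩ := glue (t.op_mono hV1) (t.op_mono hV2)
    (show t.op U ≤ t.op V1 ⊔ t.op V2 by rw [← t.op_sup]; exact t.op_mono hcov)
    (t.op_mono l12) (t.op_mono r12) (t.op_inf V1 V2).ge
    (A1 - ∑ j, coef t.y.π (t.op V1) (S.ε j) * C1 j)
    (A2 - ∑ j, coef t.y.π (t.op V2) (S.ε j) * C2 j) (by
      rw [← sub_eq_zero, map_sub, map_sub, map_sum, map_sum]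
      have e0 : ∀ (a b c d : Γ(t.y.X, t.op (V1 ⊓ V2))), a - b - (c - d) = (a - c) - (b - d) := by
        intro a b c d
        ring
      rw [e0, hv, ← Finset.sum_sub_distrib, ← Finset.sum_sub_distrib]
      refine Finset.sum_eq_zero fun j _ => ?_
      rw [map_mul, map_mul, coef_rs, coef_rs, ← mul_sub, ← mul_sub]
      apply eps_mul t _ h12
      rw [map_sub, map_sub, t.q_rs l12, t.q_rs r12, hC1, hC2, ← hc, sub_self])
  have hq : t.q U H = h := by
    refine x.X.sheaf.eq_of_locally_eq₂ (homOfLE hV1) (homOfLE hV2) hcov _ _ ?_ ?_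
    · change rs x.X hV1 (t.q U H) = rs x.X hV1 h
      rw [← t.q_rs, hH1, map_sub, hA1, map_sum, Finset.sum_eq_zero, sub_zero]
      intro j _
      rw [map_mul, t.q_coef, S.pe, map_zero, zero_mul]
    · change rs x.X hV2 (t.q U H) = rs x.X hV2 h
      rw [← t.q_rs, hH2, map_sub, hA2, map_sum, Finset.sum_eq_zero, sub_zero]
      intro j _
      rw [map_mul, t.q_coef, S.pe, map_zero, zero_mul]
  refine isAffineOpen_of_isAffineOpen_basicOpen (t.op U) {H, 1 - H} ?_ ?_
  · rw [Ideal.eq_top_iff_one]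
    have : (1 : Γ(t.y.X, t.op U)) = H + (1 - H) := by ring
    rw [this]
    exact Ideal.add_mem _ (Ideal.subset_span (by simp)) (Ideal.subset_span (by simp))
  · intro i hi
    rcases hi with rfl | hi
    · rw [← op_basicOpen, hq]
      exact h1
    · rw [Set.mem_singleton_iff] at hi
      subst hi
      rw [← op_basicOpen, map_sub, hq, map_one]
      exact h2

/-- The functions `f` such that the thickening of `D(f)` is affine. -/
def idl (U : x.X.Opens) (hU : IsAffineOpen U) : Ideal Γ(x.X, U) where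
  carrier := {f | IsAffineOpen (t.op (x.X.basicOpen f))}
  zero_mem' := by
    change IsAffineOpen (t.op (x.X.basicOpen 0))
    rw [x.X.basicOpen_zero]
    have : t.op ⊥ = ⊥ := t.pre_inj (by rw [t.pre]; rfl)
    rw [this]
    exact isAffineOpen_bot _
  add_mem' := by
    intro f g hf hg
    change IsAffineOpen (t.op (x.X.basicOpen f)) at hf
    change IsAffineOpen (t.op (x.X.basicOpen g)) at hg
    change IsAffineOpen (t.op (x.X.basicOpen (f + g)))
    have hle : x.X.basicOpen (f + g) ≤ U := x.X.basicOpen_le _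
    have hu : IsUnit (rs x.X hle (f + g)) := x.X.toRingedSpace.isUnit_res_basicOpen (f + g)
    obtain ⟨i, hi⟩ := hu.exists_right_inv
    have hiu : IsUnit i := IsUnit.of_mul_eq_one _ (by rw [mul_comm]; exact hi)
    have e1 : x.X.basicOpen (rs x.X hle f * i) = x.X.basicOpen (f + g) ⊓ x.X.basicOpen f := by
      rw [x.X.basicOpen_mul, x.X.basicOpen_of_isUnit hiu]
      rw [show x.X.basicOpen (rs x.X hle f) = x.X.basicOpen (f + g) ⊓ x.X.basicOpen f from
        x.X.basicOpen_res f (homOfLE hle).op]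
      exact inf_eq_left.2 inf_le_left
    have e2 : x.X.basicOpen (rs x.X hle g * i) = x.X.basicOpen (f + g) ⊓ x.X.basicOpen g := by
      rw [x.X.basicOpen_mul, x.X.basicOpen_of_isUnit hiu]
      rw [show x.X.basicOpen (rs x.X hle g) = x.X.basicOpen (f + g) ⊓ x.X.basicOpen g from
        x.X.basicOpen_res g (homOfLE hle).op]
      exact inf_eq_left.2 inf_le_left
    have e3 : 1 - rs x.X hle f * i = rs x.X hle g * i := by
      rw [map_add, add_mul] at hi
      rw [← hi]
      ring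
    refine two t _ (hU.basicOpen _) (rs x.X hle f * i) ?_ ?_
    · rw [e1]
      have h3 : x.X.basicOpen (f + g) ⊓ x.X.basicOpen f =
        x.X.basicOpen (rs x.X (x.X.basicOpen_le f) (f + g)) := by
        rw [inf_comm]
        exact (x.X.basicOpen_res (f + g) (homOfLE (x.X.basicOpen_le f)).op).symm
      rw [h3]
      exact aff_basicOpen t _ hf _
    · rw [e3, e2]
      have h3 : x.X.basicOpen (f + g) ⊓ x.X.basicOpen g =
        x.X.basicOpen (rs x.X (x.X.basicOpen_le g) (f + g)) := by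
        rw [inf_comm]
        exact (x.X.basicOpen_res (f + g) (homOfLE (x.X.basicOpen_le g)).op).symm
      rw [h3]
      exact aff_basicOpen t _ hg _
  smul_mem' := by
    intro c f hf
    change IsAffineOpen (t.op (x.X.basicOpen f)) at hf
    change IsAffineOpen (t.op (x.X.basicOpen (c * f)))
    have h3 : x.X.basicOpen (c * f) = x.X.basicOpen (rs x.X (x.X.basicOpen_le f) c) := by
      rw [x.X.basicOpen_mul, inf_comm]
      exact (x.X.basicOpen_res c (homOfLE (x.X.basicOpen_le f)).op).symm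
    rw [h3]
    exact aff_basicOpen t _ hf _

theorem main (U : x.X.Opens) (hU : IsAffineOpen U) : IsAffineOpen (t.op U) := by
  refine of_affine_open_cover (P := fun V => IsAffineOpen (t.op V.1))
    (fun W : t.y.X.affineOpens => ⟨t.r.f ⁻¹ᵁ W.1, W.2.preimage t.r.f⟩) ?_ ⟨U, hU⟩ ?_ ?_ ?_
  · have h := iSup_affineOpens_eq_top t.y.X
    ext a
    simp only [TopologicalSpace.Opens.coe_iSup, Set.mem_iUnion, SetLike.mem_coe,
      TopologicalSpace.Opens.coe_top, Set.mem_univ, iff_true]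
    have h2 : t.r.f a ∈ (⨆ i : t.y.X.affineOpens, (i : t.y.X.Opens)) := by
      rw [h]
      trivial
    rw [TopologicalSpace.Opens.mem_iSup] at h2
    exact h2
  · intro V f hV
    exact aff_basicOpen t V.1 hV f
  · intro V s hs hsV
    have h1 : (⊤ : Ideal Γ(x.X, V.1)) ≤ idl t V.1 V.2 := by
      rw [← hs, Ideal.span_le]
      intro f hf
      exact hsV ⟨f, hf⟩
    have h2 : (1 : Γ(x.X, V.1)) ∈ idl t V.1 V.2 := h1 trivial
    have h3 : IsAffineOpen (t.op (x.X.basicOpen (1 : Γ(x.X, V.1)))) := h2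
    rw [x.X.basicOpen_one] at h3
    exact h3
  · intro W
    change IsAffineOpen (t.op (t.r.f ⁻¹ᵁ W.1))
    rw [t.op_pre]
    exact W.2

end

end AFF

theorem t_AFF : Stmt_AFF := by
  intro n B E J _ _ _ S x t U hU
  exact AFF.main t U hU

end Pool.Agent.MG
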