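import Pool.Agent.MG.StmtsA

/-!
# AI: the value of a covector on a Kodaira-Spencer class does not depend on the choices
-/

open CategoryTheory CategoryTheory.Limits AlgebraicGeometry TensorProduct

namespace Pool.Agent.MG

namespace AI

/-- Derivations are determined by their restriction along an etale homomorphism. -/
theorem uniq {P R Q : Type} [CommRing P] [CommRing R] [CommRing Q] (f : P →+* R) (hf : f.Etale)
    (α : R →+* Q) (F : R → Q) (hadd : ∀ a b, F (a + b) = F a + F b)
    (hmul : ∀ a b, F (a * b) = α a * F b + α b * F a) (h0 : ∀ p, F (f p) = 0) :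
    ∀ r, F r = 0 := by
  let _ : Algebra P R := f.toAlgebra
  let _ : Algebra R Q := α.toAlgebra
  let _ : Algebra P Q := (α.comp f).toAlgebra
  have ht : IsScalarTower P R Q := IsScalarTower.of_algebraMap_eq' rfl
  have he : Algebra.Etale P R := hf
  have hsub : Subsingleton (Derivation P R Q) :=
    (KaehlerDifferential.linearMapEquivDerivation P R).toEquiv.symm.injective.subsingleton
  let E : Derivation P R Q :=
    { toFun := F
      map_add' := hadd
      map_smul' := fun p r => by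
        show F (p • r) = p • F r
        rw [Algebra.smul_def, hmul, Algebra.smul_def]
        show α (f p) * F r + α r * F (f p) = α (f p) * F r
        rw [h0, mul_zero, add_zero]
      map_one_eq_zero' := by
        show F 1 = 0
        rw [← map_one f, h0]
      leibniz' := fun a b => by
        show F (a * b) = a • F b + b • F a
        rw [hmul]
        rfl }
  intro r
  have h := congrArg (fun D : Derivation P R Q => D r) (Subsingleton.elim E 0)
  exact h

/-- Derivations are determined by their value at an etale coordinate. -/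
theorem zero_of_coord {k R R' Q : Type} [Field k] [CommRing R] [CommRing R'] [CommRing Q]
    [Algebra k R] [Algebra k R'] (j : R →ₐ[k] R') (hj : j.toRingHom.Etale) (x : R)
    (hx : (Polynomial.aeval x : Polynomial k →ₐ[k] R).toRingHom.Etale) (α : R' →+* Q)
    (F : R' → Q) (hadd : ∀ a b, F (a + b) = F a + F b)
    (hmul : ∀ a b, F (a * b) = α a * F b + α b * F a) (hc : ∀ c, F (algebraMap k R' c) = 0)
    (h0 : F (j x) = 0) : ∀ a, F a = 0 := by
  refine uniq j.toRingHom hj α F hadd hmul ?_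
  refine uniq (Polynomial.aeval x : Polynomial k →ₐ[k] R).toRingHom hx
    (α.comp j.toRingHom) (fun r => F (j r)) (fun a b => ?_) (fun a b => ?_) ?_
  · show F (j (a + b)) = _
    rw [map_add, hadd]
  · show F (j (a * b)) = _
    rw [map_mul, hmul]
    rfl
  · intro p
    show F (j (Polynomial.aeval x p)) = 0
    induction p using Polynomial.induction_on with
    | C c => rw [Polynomial.aeval_C, AlgHom.commutes, hc]
    | add p q hp hq => rw [map_add, map_add, hadd, hp, hq, add_zero]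
    | monomial n c ih =>
      rw [pow_succ, ← mul_assoc, map_mul, map_mul, hmul, ih, Polynomial.aeval_X, h0, mul_zero,
        mul_zero, add_zero]

/-- The difference of two lifts. -/
theorem dif {R G Q E J : Type} [CommRing R] [CommRing G] [CommRing Q] [CommRing E] [Fintype J]
    (q : G →+* Q) (a : E →+* G) (ε : J → E)
    (ker : ∀ v, q v = 0 → ∃ w : J → G, v = ∑ j, a (ε j) * w j)
    (un : ∀ w : J → G, ∑ j, a (ε j) * w j = 0 → ∀ j, q (w j) = 0) (α : R →+* Q)
    (θ θ' : R →+* G) (h : ∀ r, q (θ r) = α r) (h' : ∀ r, q (θ' r) = α r) :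
    ∃ w : R → J → G, (∀ r, θ r = θ' r + ∑ j, a (ε j) * w r j) ∧
      ∀ j, (∀ r r', q (w (r + r') j) = q (w r j) + q (w r' j)) ∧
        (∀ r r', q (w (r * r') j) = α r * q (w r' j) + α r' * q (w r j)) ∧
        ∀ r, θ r = θ' r → q (w r j) = 0 := by
  have hw : ∀ r, ∃ w : J → G, θ r - θ' r = ∑ j, a (ε j) * w j := fun r =>
    ker _ (by rw [map_sub, h, h', sub_self])
  choose w hw using hw
  refine ⟨w, fun r => by rw [← hw r, add_sub_cancel], fun j => ⟨fun r r' => ?_, fun r r' => ?_,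
    fun r hr => ?_⟩⟩
  · have h1 : ∑ j, a (ε j) * (w (r + r') j - w r j - w r' j) = 0 := by
      have h2 : ∑ j, a (ε j) * (w (r + r') j - w r j - w r' j) =
          ∑ j, a (ε j) * w (r + r') j - ∑ j, a (ε j) * w r j - ∑ j, a (ε j) * w r' j := by
        rw [← Finset.sum_sub_distrib, ← Finset.sum_sub_distrib]
        exact Finset.sum_congr rfl fun j _ => by ring
      rw [h2, ← hw, ← hw, ← hw, map_add, map_add]
      ring
    have h3 := un _ h1 j
    rw [map_sub, map_sub] at h3
    linear_combination h3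
  · have h1 : ∑ j, a (ε j) * (w (r * r') j - θ r * w r' j - θ' r' * w r j) = 0 := by
      have h2 : ∑ j, a (ε j) * (w (r * r') j - θ r * w r' j - θ' r' * w r j) =
          ∑ j, a (ε j) * w (r * r') j - θ r * (∑ j, a (ε j) * w r' j) -
            θ' r' * ∑ j, a (ε j) * w r j := by
        rw [Finset.mul_sum, Finset.mul_sum, ← Finset.sum_sub_distrib, ← Finset.sum_sub_distrib]
        exact Finset.sum_congr rfl fun j _ => by ring
      rw [h2, ← hw, ← hw, ← hw, map_mul, map_mul]
      ring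
    have h3 := un _ h1 j
    rw [map_sub, map_sub, map_mul, map_mul, h, h'] at h3
    linear_combination h3
  · refine un (w r) ?_ j
    rw [← hw r, hr, sub_self]

section

variable {n : ℕ} {k : Type} [Field k] {T : TC k} {B : Type} [CommRing B] [Algebra k B]

theorem ext_tmul {R : Type} [CommRing R] [Algebra k R] (μ : R →ₗ[k] B) (b : B) (r : R) :
    ext μ (b ⊗ₜ r) = b * μ r := by
  simp [ext]

theorem extA_eq {R : Type} [CommRing R] [Algebra k R] (φ : R →ₐ[k] B) (v : B ⊗[k] R) :
    extA φ v = ext φ.toLinearMap v := by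
  induction v using TensorProduct.induction_on with
  | zero => rw [map_zero, map_zero]
  | tmul b r => simp [extA, ext]
  | add x y hx hy => rw [map_add, map_add, hx, hy]

theorem ext_zero {R : Type} [CommRing R] [Algebra k R] (v : B ⊗[k] R) :
    ext (0 : R →ₗ[k] B) v = 0 := by
  induction v using TensorProduct.induction_on with
  | zero => rw [map_zero]
  | tmul b r => simp [ext]
  | add x y hx hy => rw [map_add, hx, hy, add_zero]

theorem m1x {s : Fin n → Pt T B} (C : CovData s) (v : B ⊗[k] T.R1) :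
    ext C.μ (Algebra.TensorProduct.map (AlgHom.id k B) T.j1 v) +
      ∑ i, C.ν i * ext ((s i).l1) v = 0 := by
  induction v using TensorProduct.induction_on with
  | zero => simp
  | tmul b r =>
    rw [Algebra.TensorProduct.map_tmul, ext_tmul, AlgHom.id_apply]
    have h := C.m1 r
    have e : ∑ i, C.ν i * ext ((s i).l1) (b ⊗ₜ r) = b * ∑ i, C.ν i * (s i).l1 r := by
      rw [Finset.mul_sum]
      exact Finset.sum_congr rfl fun i _ => by rw [ext_tmul]; ring
    rw [e, ← mul_add, h, mul_zero]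
  | add x y hx hy =>
    have e : ∑ i, C.ν i * ext ((s i).l1) (x + y) =
        ∑ i, C.ν i * ext ((s i).l1) x + ∑ i, C.ν i * ext ((s i).l1) y := by
      rw [← Finset.sum_add_distrib]
      exact Finset.sum_congr rfl fun i _ => by rw [map_add]; ring
    rw [map_add, map_add, e]
    linear_combination hx + hy

theorem m2x {s : Fin n → Pt T B} (C : CovData s) (v : B ⊗[k] T.R2) :
    ext C.μ ((1 ⊗ₜ T.e) * Algebra.TensorProduct.map (AlgHom.id k B) T.j2 v) =
      ∑ i, C.ν i * ext ((s i).l2) v := by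
  induction v using TensorProduct.induction_on with
  | zero => simp
  | tmul b r =>
    rw [Algebra.TensorProduct.map_tmul, Algebra.TensorProduct.tmul_mul_tmul, ext_tmul,
      AlgHom.id_apply, one_mul, C.m2 r, Finset.mul_sum]
    exact Finset.sum_congr rfl fun i _ => by rw [ext_tmul]; ring
  | add x y hx hy =>
    rw [map_add, mul_add, map_add, hx, hy, ← Finset.sum_add_distrib]
    exact Finset.sum_congr rfl fun i _ => by rw [map_add]; ring

variable {E J : Type} [CommRing E] [Fintype J] {S : SqE B E J}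

theorem eps_mul (S : SqE B E J) (j : J) (u : E) : S.ε j * u = S.ε j * S.i (S.p u) := by
  obtain ⟨b, hb⟩ := S.ex (u - S.i (S.p u)) (by rw [map_sub, S.pi, sub_self])
  have h : S.ε j * (u - S.i (S.p u)) = 0 := by
    rw [hb, Finset.mul_sum]
    refine Finset.sum_eq_zero fun l _ => ?_
    rw [← mul_assoc, S.mul, zero_mul]
  rw [mul_sub, sub_eq_zero] at h
  exact h

/-- The difference of the values of a section at the coordinate. -/
theorem sec_dif {G : Type} [CommRing G] (S : SqE B E J) (g : G →+* E) (a : E →+* G)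
    (ga : ∀ z, g (a z) = z) (u u' : G) (w : J → G) (hw : u = u' + ∑ j, a (S.ε j) * w j) (c : E)
    (d d' : J → B) (hd : g u = c + ∑ j, S.ε j * S.i (d j))
    (hd' : g u' = c + ∑ j, S.ε j * S.i (d' j)) (j : J) : d j - d' j = S.p (g (w j)) := by
  have h1 : g u - g u' = ∑ j, S.ε j * S.i (S.p (g (w j))) := by
    rw [hw, map_add, add_sub_cancel_left, map_sum]
    exact Finset.sum_congr rfl fun j _ => by rw [map_mul, ga, eps_mul]
  have h2 : ∑ j, S.ε j * S.i ((d j - d' j) - S.p (g (w j))) = 0 := by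
    have h3 : ∑ j, S.ε j * S.i ((d j - d' j) - S.p (g (w j))) =
        ∑ j, S.ε j * S.i (d j) - ∑ j, S.ε j * S.i (d' j) -
          ∑ j, S.ε j * S.i (S.p (g (w j))) := by
      rw [← Finset.sum_sub_distrib, ← Finset.sum_sub_distrib]
      exact Finset.sum_congr rfl fun j _ => by rw [map_sub, map_sub]; ring
    rw [h3, ← h1, hd, hd']
    ring
  have h4 := congrFun (S.un _ h2) j
  exact sub_eq_zero.1 h4

theorem dlt_dif (D : RData T S) (x1 x1' : D.G1) (x2 x2' : D.G2) (w1 : J → D.G1) (w2 : J → D.G2)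
    (h1 : x1 = x1' + ∑ j, D.a1 (S.ε j) * w1 j) (h2 : x2 = x2' + ∑ j, D.a2 (S.ε j) * w2 j) :
    ∀ (s : Pt T B) (γ : D.Sec s) (d d' : J → B), D.Dlt x1 x2 s γ d → D.Dlt x1' x2' s γ d' →
      ∀ j, d j - d' j = ext s.l1 (D.q1 (w1 j)) + ext s.l2 (D.q2 (w2 j))
  | .one φ, γ, d, d', hd, hd', j => by
    have h := sec_dif S (RData.Sec1.g γ) D.a1 (RData.Sec1.ga γ) x1 x1' w1 h1 (S.i (φ T.x)) d d'
      hd hd' j
    rw [h, RData.Sec1.gq γ, extA_eq]
    show _ = ext φ.toLinearMap _ + ext 0 _
    rw [ext_zero, add_zero]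
  | .two ψ, γ, d, d', hd, hd', j => by
    have h := sec_dif S (RData.Sec2.g γ) D.a2 (RData.Sec2.ga γ) x2 x2' w2 h2 (S.i (ψ T.y)) d d'
      hd hd' j
    rw [h, RData.Sec2.gq γ, extA_eq]
    show _ = ext 0 _ + ext ψ.toLinearMap _
    rw [ext_zero, zero_add]

/-- The change of the class. -/
theorem change (D : RData T S) (s : Fin n → Pt T B) (γ : ∀ i, D.Sec (s i))
    (h h' : J → B ⊗[k] T.R12) (δ δ' : J → Fin n → B) (K : RKS D s γ h δ)
    (K' : RKS D s γ h' δ') : ∃ (r : J → B ⊗[k] T.R1) (t : J → B ⊗[k] T.R2),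
      (∀ j, h j - h' j = Algebra.TensorProduct.map (AlgHom.id k B) T.j1 (r j) -
        (1 ⊗ₜ T.e) * Algebra.TensorProduct.map (AlgHom.id k B) T.j2 (t j)) ∧
      ∀ j i, δ j i - δ' j i = ext ((s i).l1) (r j) + ext ((s i).l2) (t j) := by
  obtain ⟨w1, hw1⟩ : ∃ w : J → D.G1, K.θ1 T.x = K'.θ1 T.x + ∑ j, D.a1 (S.ε j) * w j := by
    obtain ⟨w, hw⟩ := D.ker1 (K.θ1 T.x - K'.θ1 T.x) (by rw [map_sub, K.l1, K'.l1, sub_self])
    exact ⟨w, by rw [← hw]; ring⟩
  obtain ⟨w2, hw2⟩ : ∃ w : J → D.G2, K.θ2 T.y = K'.θ2 T.y + ∑ j, D.a2 (S.ε j) * w j := by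
    obtain ⟨w, hw⟩ := D.ker2 (K.θ2 T.y - K'.θ2 T.y) (by rw [map_sub, K.l2, K'.l2, sub_self])
    exact ⟨w, by rw [← hw]; ring⟩
  refine ⟨fun j => D.q1 (w1 j), fun j => D.q2 (w2 j), fun j => ?_, fun j i => ?_⟩
  · -- the derivations on the intersection
    have hι : ∀ a : T.R12, (Algebra.TensorProduct.includeRight : T.R12 →ₐ[k] B ⊗[k] T.R12) a =
        1 ⊗ₜ a := fun _ => rfl
    obtain ⟨W2, hW2, hW2'⟩ := dif D.q12 D.a12 S.ε D.ker12 D.un12
      (Algebra.TensorProduct.includeRight : T.R12 →ₐ[k] B ⊗[k] T.R12).toRingHom K.t2 K'.t2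
      (fun r => K.lt2 r) (fun r => K'.lt2 r)
    obtain ⟨a1, a2, a3⟩ := hW2' j
    have key : ∀ a : T.R12, D.q12 (W2 a j) - Algebra.TensorProduct.map (AlgHom.id k B) T.j2
        (D.q2 (w2 j)) * (1 ⊗ₜ (T.e * T.dd a)) = 0 := by
      refine zero_of_coord T.j2 T.et2 T.y T.ety
        (Algebra.TensorProduct.includeRight : T.R12 →ₐ[k] B ⊗[k] T.R12).toRingHom _
        (fun a b => ?_) (fun a b => ?_) (fun c => ?_) ?_
      · rw [a1, map_add, mul_add, TensorProduct.tmul_add]
        ring
      · rw [a2]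
        show (1 ⊗ₜ a) * _ + (1 ⊗ₜ b) * _ - _ = (1 ⊗ₜ a) * _ + (1 ⊗ₜ b) * _
        have e : (1 : B) ⊗ₜ[k] (T.e * T.dd (a * b)) = (1 ⊗ₜ a) * (1 ⊗ₜ (T.e * T.dd b)) +
            (1 ⊗ₜ b) * (1 ⊗ₜ (T.e * T.dd a)) := by
          rw [Algebra.TensorProduct.tmul_mul_tmul, Algebra.TensorProduct.tmul_mul_tmul, one_mul,
            ← TensorProduct.tmul_add, Derivation.leibniz]
          congr 1
          simp only [smul_eq_mul]
          ring
        rw [e]
        ring
      · have h1 : K.t2 (algebraMap k T.R12 c) = K'.t2 (algebraMap k T.R12 c) := by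
          rw [← T.j2.commutes, K.e2, K'.e2, K.k2, K'.k2]
        rw [a3 _ h1, Derivation.map_algebraMap, mul_zero, TensorProduct.tmul_zero, mul_zero,
          sub_zero]
      · rw [T.ey]
        have h1 : ∑ l, D.a12 (S.ε l) * (W2 (T.j2 T.y) l - D.f2 (w2 l)) = 0 := by
          have h2 := hW2 (T.j2 T.y)
          rw [K.e2, K'.e2, hw2, map_add, map_sum] at h2
          have h3 : ∑ l, D.a12 (S.ε l) * (W2 (T.j2 T.y) l - D.f2 (w2 l)) =
              ∑ l, D.a12 (S.ε l) * W2 (T.j2 T.y) l - ∑ l, D.f2 (D.a2 (S.ε l) * w2 l) := by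
            rw [← Finset.sum_sub_distrib]
            exact Finset.sum_congr rfl fun l _ => by rw [map_mul, D.fa2]; ring
          rw [h3]
          linear_combination -h2
        have h4 := D.un12 _ h1 j
        rw [map_sub, D.qf2] at h4
        have e : (1 : B) ⊗ₜ[k] (1 : T.R12) = 1 := rfl
        rw [e, mul_one]
        exact h4
    obtain ⟨v, hv, hv1⟩ := K.diff (T.j1 T.x)
    obtain ⟨v', hv', hv1'⟩ := K'.diff (T.j1 T.x)
    have h1 : ∑ l, D.a12 (S.ε l) * (D.f1 (w1 l) - W2 (T.j1 T.x) l - v l + v' l) = 0 := by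
      have h2 : ∑ l, D.a12 (S.ε l) * (D.f1 (w1 l) - W2 (T.j1 T.x) l - v l + v' l) =
          ∑ l, D.f1 (D.a1 (S.ε l) * w1 l) - ∑ l, D.a12 (S.ε l) * W2 (T.j1 T.x) l -
            ∑ l, D.a12 (S.ε l) * v l + ∑ l, D.a12 (S.ε l) * v' l := by
        rw [← Finset.sum_sub_distrib, ← Finset.sum_sub_distrib, ← Finset.sum_add_distrib]
        exact Finset.sum_congr rfl fun l _ => by rw [map_mul, D.fa1]; ring
      rw [h2]
      have h3 := hW2 (T.j1 T.x)
      rw [K.e1, hw1, map_add, map_sum] at hv1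
      rw [K'.e1] at hv1'
      linear_combination hv1 - hv1' + h3
    have h4 := D.un12 _ h1 j
    rw [map_add, map_sub, map_sub, D.qf1, hv, hv', T.ddx] at h4
    have h5 := key (T.j1 T.x)
    rw [T.ddx, mul_one] at h5
    have e : (1 : B) ⊗ₜ[k] (1 : T.R12) = 1 := rfl
    rw [e, mul_one, mul_one] at h4
    linear_combination -h4 - h5
  · exact dlt_dif D _ _ _ _ w1 w2 hw1 hw2 (s i) (γ i) (fun j => δ j i) (fun j => δ' j i)
      (K.dl i) (K'.dl i) j

end

end AI

theorem t_AI : Stmt_AI := by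
  intro n k _ T B _ _ E J _ _ S D s γ C h h' δ δ' hK hK' j
  obtain ⟨K⟩ := hK
  obtain ⟨K'⟩ := hK'
  obtain ⟨r, t, h1, h2⟩ := AI.change D s γ h h' δ δ' K K'
  have e1 : ext C.μ (h j) - ext C.μ (h' j) =
      ext C.μ (Algebra.TensorProduct.map (AlgHom.id k B) T.j1 (r j)) -
        ext C.μ ((1 ⊗ₜ T.e) * Algebra.TensorProduct.map (AlgHom.id k B) T.j2 (t j)) := by
    rw [← map_sub, h1, map_sub]
  have e2 : ∑ i, C.ν i * δ j i - ∑ i, C.ν i * δ' j i =
      ∑ i, C.ν i * ext ((s i).l1) (r j) + ∑ i, C.ν i * ext ((s i).l2) (t j) := by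
    rw [← Finset.sum_sub_distrib, ← Finset.sum_add_distrib]
    exact Finset.sum_congr rfl fun i _ => by rw [← mul_sub, h2]; ring
  have e3 := AI.m1x C (r j)
  have e4 := AI.m2x C (t j)
  linear_combination e1 + e2 + e3 - e4

end Pool.Agent.MG
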