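import Mathlib

/-!
# The algebraic lemma (MP_cc45c1_ag)

`f ∈ R1[c, ν, w]`, `g ∈ R2[c, ν, w]`, `f(c, ν, w) = g(e c, ν, w + c D)` in `R12[c, ν, w]`
implies `f ∈ k[ν]`.
-/

namespace MG.Alg

open MvPolynomial

variable {k R1 R2 R12 : Type*} [Field k] [CommRing R1] [CommRing R2] [CommRing R12]
  [Algebra k R1] [Algebra k R2] [Algebra k R12] (i1 : R1 →ₐ[k] R12) (i2 : R2 →ₐ[k] R12)
  {J I : Type*} (e : R12) (D : I → R12)

/-- The values of the variables `ν`, `w` in the other chart. -/
noncomputable def val : J ⊕ I → Polynomial (MvPolynomial (J ⊕ I) R12)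
  | Sum.inl j => Polynomial.C (X (Sum.inl j))
  | Sum.inr i => Polynomial.C (X (Sum.inr i)) + Polynomial.C (C (D i)) * Polynomial.X

/-- The substitution on polynomials without `c`. -/
noncomputable def Phi0 : MvPolynomial (J ⊕ I) R2 →+* Polynomial (MvPolynomial (J ⊕ I) R12) :=
  eval₂Hom (Polynomial.C.comp (C.comp (i2 : R2 →+* R12))) (val D)

/-- The substitution `g ↦ g(e c, ν, w + c D)`. -/
noncomputable def Phi : Polynomial (MvPolynomial (J ⊕ I) R2) →+*
    Polynomial (MvPolynomial (J ⊕ I) R12) :=
  Polynomial.eval₂RingHom (Phi0 i2 D) (Polynomial.C (C e) * Polynomial.X)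

theorem Phi_C (p : MvPolynomial (J ⊕ I) R2) : Phi i2 e D (Polynomial.C p) = Phi0 i2 D p := by
  simp [Phi]

theorem Phi_X : Phi i2 e D (Polynomial.X : Polynomial (MvPolynomial (J ⊕ I) R2)) =
    Polynomial.C (C e) * Polynomial.X := by
  simp [Phi]

theorem Phi0_coeff_zero (p : MvPolynomial (J ⊕ I) R2) :
    (Phi0 i2 D p).coeff 0 = map (i2 : R2 →+* R12) p := by
  have h : ((Polynomial.constantCoeff).comp (Phi0 i2 D) :
      MvPolynomial (J ⊕ I) R2 →+* MvPolynomial (J ⊕ I) R12) = map (i2 : R2 →+* R12) := by
    apply MvPolynomial.ringHom_ext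
    · intro r
      simp [Phi0]
    · rintro (j | i)
      · simp [Phi0, val]
      · simp [Phi0, val]
  exact RingHom.congr_fun h p

theorem Phi_coeff_zero (g : Polynomial (MvPolynomial (J ⊕ I) R2)) :
    (Phi i2 e D g).coeff 0 = map (i2 : R2 →+* R12) (g.coeff 0) := by
  have h : ((Polynomial.constantCoeff).comp (Phi i2 e D) :
      Polynomial (MvPolynomial (J ⊕ I) R2) →+* MvPolynomial (J ⊕ I) R12) =
      (map (i2 : R2 →+* R12)).comp Polynomial.constantCoeff := by
    apply Polynomial.ringHom_ext
    · intro p
      simp [Phi_C, Phi0_coeff_zero]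
    · simp [Phi_X]
  exact RingHom.congr_fun h g

/-- The first order term of the substitution on a polynomial with constant coefficients. -/
theorem lam_coeff_one [DecidableEq I] (lam : R12 →ₗ[k] k) (i : I)
    (hlam : ∀ j, lam (D j) = if j = i then 1 else 0) (q : MvPolynomial (J ⊕ I) k) :
    ∀ m, lam (coeff m ((Phi0 i2 D (map (algebraMap k R2) q)).coeff 1)) =
      coeff m (pderiv (Sum.inr i) q) := by
  classical
  induction q using MvPolynomial.induction_on with
  | C a =>
    intro m
    simp [Phi0]
  | add p q hp hq =>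
    intro m
    rw [map_add, map_add, Polynomial.coeff_add, coeff_add, map_add, hp m, hq m, map_add, coeff_add]
  | mul_X p v hp =>
    intro m
    have h0 : (Phi0 i2 D (map (algebraMap k R2) p)).coeff 0 = map (algebraMap k R12) p := by
      rw [Phi0_coeff_zero, map_map, AlgHom.comp_algebraMap]
    have hv : Phi0 i2 D (X v : MvPolynomial (J ⊕ I) R2) = val D v := by simp [Phi0]
    rw [map_mul, map_mul, map_X, hv, Polynomial.mul_coeff_one, h0, Derivation.leibniz, coeff_add,
      coeff_add, map_add, smul_eq_mul, smul_eq_mul]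
    have hX0 : (val D v).coeff 0 = X v := by
      rcases v with j | i' <;> simp [val]
    rw [hX0]
    have e1 : lam (coeff m ((Phi0 i2 D (map (algebraMap k R2) p)).coeff 1 * X v)) =
        coeff m (X v * pderiv (Sum.inr i) p) := by
      rw [mul_comm (X v), coeff_mul_X', coeff_mul_X']
      split_ifs with h
      · exact hp _
      · exact map_zero _
    have e2 : lam (coeff m (map (algebraMap k R12) p * (val D v).coeff 1)) =
        coeff m (p * pderiv (Sum.inr i) (X v)) := by
      rcases v with j | i'
      · have : (val D (Sum.inl j : J ⊕ I)).coeff 1 = 0 := by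
          simp [val, Polynomial.coeff_C]
        rw [this, pderiv_X]
        simp
      · have : (val D (Sum.inr i' : J ⊕ I)).coeff 1 = C (D i') := by
          simp [val, Polynomial.coeff_C]
        rw [this, mul_comm (map (algebraMap k R12) p), coeff_C_mul, coeff_map, mul_comm (D i'),
          ← Algebra.smul_def, map_smul, hlam, pderiv_X]
        by_cases hi : i' = i
        · subst hi
          simp
        · simp [hi]
    rw [e1, e2, add_comm]

theorem coeff_pderiv' {σ : Type*} (v : σ) (q : MvPolynomial σ k) :
    ∀ m, coeff m (pderiv v q) = (m v + 1) * coeff (m + Finsupp.single v 1) q := by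
  classical
  induction q using MvPolynomial.induction_on' with
  | monomial s a =>
    intro m
    rw [pderiv_monomial, coeff_monomial, coeff_monomial]
    by_cases h : s = m + Finsupp.single v 1
    · subst h
      simp
      ring
    · rw [if_neg h, mul_zero]
      split_ifs with h'
      · by_cases hs : s v = 0
        · rw [hs]; simp
        · exfalso
          apply h
          rw [← h']
          ext w
          by_cases hw : v = w
          · subst hw
            simp
            omega
          · simp [hw]
      · rfl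
  | add p q hp hq =>
    intro m
    rw [map_add, coeff_add, coeff_add, hp, hq]
    ring

/-- A polynomial with vanishing derivatives with respect to `w`. -/
theorem exists_of_pderiv_zero [CharZero k] (q : MvPolynomial (J ⊕ I) k)
    (h : ∀ i : I, pderiv (Sum.inr i) q = 0) :
    ∃ r : MvPolynomial J k, q = rename Sum.inl r := by
  have h1 : ∀ m ∈ q.support, ∀ i : I, m (Sum.inr i) = 0 := by
    intro m hm i
    by_contra hne
    have h2 := coeff_pderiv' (Sum.inr i) q (m - Finsupp.single (Sum.inr i) 1)
    rw [h i, coeff_zero] at h2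
    have h3 : m - Finsupp.single (Sum.inr i) 1 + Finsupp.single (Sum.inr i) 1 = m := by
      apply tsub_add_cancel_of_le
      rw [Finsupp.single_le_iff]
      omega
    rw [h3] at h2
    have h4 := (mul_eq_zero.mp h2.symm).resolve_right (mem_support_iff.mp hm)
    exact Nat.cast_add_one_ne_zero _ h4
  obtain ⟨r, hr⟩ := exists_rename_eq_of_vars_subset_range q (Sum.inl : J → J ⊕ I)
    Sum.inl_injective (by
      intro v hv
      rcases v with j | i
      · exact ⟨j, rfl⟩
      · exfalso
        obtain ⟨m, hm, hvm⟩ := (MvPolynomial.mem_vars_iff_mem_support _).mp hv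
        exact (Finsupp.mem_support_iff.mp hvm) (h1 m hm i))
  exact ⟨r, hr.symm⟩

theorem exists_map_of_coeff {σ R : Type*} [CommRing R] [Algebra k R] (f : MvPolynomial σ R)
    (h : ∀ m, coeff m f ∈ Set.range (algebraMap k R)) :
    ∃ q : MvPolynomial σ k, f = map (algebraMap k R) q := by
  have : f ∈ Set.range (map (algebraMap k R)) := by
    rw [mem_range_map_iff_coeffs_subset]
    intro c hc
    obtain ⟨m, _, rfl⟩ := (mem_coeffs_iff).mp hc
    exact h m
  obtain ⟨q, hq⟩ := this
  exact ⟨q, hq.symm⟩

variable {i1 i2 e D} in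
/-- **The algebraic lemma.** -/
theorem alg_poly [CharZero k] (hinj2 : Function.Injective i2)
    (he : ∀ a, e * a = 0 → a = 0)
    (h0 : ∀ a b, i1 a = i2 b → a ∈ Set.range (algebraMap k R1))
    (hj : ∀ j : ℕ, j ≠ 0 → ∀ a b, i1 a = e ^ j * i2 b → a = 0)
    (hD : ∀ (a : I →₀ k) (r : R1) (s : R2), (a.sum fun i c => c • D i) = i1 r + e * i2 s → a = 0)
    (f : Polynomial (MvPolynomial (J ⊕ I) R1)) (g : Polynomial (MvPolynomial (J ⊕ I) R2))
    (h : Polynomial.map (map (i1 : R1 →+* R12)) f = Phi i2 e D g) :
    ∃ q : MvPolynomial J k, f = Polynomial.C (rename Sum.inl (map (algebraMap k R1) q)) := by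
  classical
  have hc0 : map (i1 : R1 →+* R12) (f.coeff 0) = map (i2 : R2 →+* R12) (g.coeff 0) := by
    rw [← Phi_coeff_zero i2 e D, ← h, Polynomial.coeff_map]
  have hen : ∀ (n : ℕ) (x : R12), e ^ n * x = 0 → x = 0 := by
    intro n
    induction n with
    | zero => intro x hx; rwa [pow_zero, one_mul] at hx
    | succ n ih =>
      intro x hx
      rw [pow_succ, mul_assoc] at hx
      exact he _ (ih _ hx)
  have hcm : ∀ m, i1 (coeff m (f.coeff 0)) = i2 (coeff m (g.coeff 0)) := by
    intro m
    have := congrArg (coeff m) hc0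
    rwa [coeff_map, coeff_map] at this
  obtain ⟨q0, hq0⟩ := exists_map_of_coeff (f.coeff 0) (fun m => h0 _ _ (hcm m))
  have hq0' : g.coeff 0 = map (algebraMap k R2) q0 := by
    ext m
    apply hinj2
    rw [← hcm m, hq0, coeff_map, coeff_map, AlgHom.commutes, AlgHom.commutes]
  -- the functionals
  have hpd : ∀ i : I, pderiv (Sum.inr i) q0 = 0 := by
    intro i
    obtain ⟨lam, hl1, hl2, hl3⟩ : ∃ lam : R12 →ₗ[k] k, (∀ r, lam (i1 r) = 0) ∧
        (∀ s, lam (e * i2 s) = 0) ∧ ∀ j, lam (D j) = if j = i then 1 else 0 := by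
      let W : Submodule k R12 := (LinearMap.range i1.toLinearMap ⊔
        LinearMap.range ((LinearMap.mulLeft k e).comp i2.toLinearMap)) ⊔
          Submodule.span k (D '' {i}ᶜ)
      have hW : D i ∉ W := by
        intro hi
        obtain ⟨x, hx, y, hy, e1⟩ := Submodule.mem_sup.mp hi
        obtain ⟨x1, ⟨r, rfl⟩, x2, ⟨s, rfl⟩, e2⟩ := Submodule.mem_sup.mp hx
        obtain ⟨a, ha, rfl⟩ := (Finsupp.mem_span_image_iff_linearCombination k).mp hy
        have h3 := hD (Finsupp.single i 1 - a) r s (by
          have e3 : ((Finsupp.single i 1 - a).sum fun i c => c • D i) =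
            Finsupp.linearCombination k D (Finsupp.single i 1 - a) := rfl
          rw [e3, map_sub, Finsupp.linearCombination_single, one_smul, ← e1, ← e2,
            add_sub_cancel_right]
          rfl)
        have h4 : a i = 0 := by
          by_contra hne
          have := ha (Finsupp.mem_support_iff.mpr hne)
          simp at this
        have h5 := DFunLike.congr_fun h3 i
        rw [Finsupp.sub_apply, Finsupp.single_eq_same, h4] at h5
        simp at h5
      obtain ⟨lam, hlam, hle⟩ := Submodule.exists_le_ker_of_notMem hW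
      refine ⟨(lam (D i))⁻¹ • lam, ?_, ?_, ?_⟩
      · intro r
        have : lam (i1 r) = 0 := hle (Submodule.mem_sup_left (Submodule.mem_sup_left ⟨r, rfl⟩))
        rw [LinearMap.smul_apply, this, smul_zero]
      · intro s
        have : lam (e * i2 s) = 0 :=
          hle (Submodule.mem_sup_left (Submodule.mem_sup_right ⟨s, rfl⟩))
        rw [LinearMap.smul_apply, this, smul_zero]
      · intro j
        by_cases hji : j = i
        · subst hji
          rw [if_pos rfl, LinearMap.smul_apply, smul_eq_mul, inv_mul_cancel₀ hlam]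
        · have : lam (D j) = 0 :=
            hle (Submodule.mem_sup_right (Submodule.subset_span ⟨j, hji, rfl⟩))
          rw [if_neg hji, LinearMap.smul_apply, this, smul_zero]
    ext m
    rw [← lam_coeff_one i2 D lam i hl3 q0 m, coeff_zero]
    have e1 := Polynomial.divX_mul_X_add g
    have e2 := congrArg (fun F => Polynomial.coeff F 1) h
    simp only [Polynomial.coeff_map] at e2
    rw [← e1, map_add, map_mul, Phi_X, Phi_C, Polynomial.coeff_add, ← mul_assoc,
      Polynomial.coeff_mul_X, Polynomial.coeff_mul_C, Phi_coeff_zero, Polynomial.coeff_divX, hq0',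
      zero_add] at e2
    have e3 := congrArg (fun F => lam (coeff m F)) e2
    simp only [coeff_add, coeff_map, map_add] at e3
    have e4 : lam ((i1 : R1 →+* R12) (coeff m (f.coeff 1))) = 0 := hl1 _
    have e5 : lam (coeff m (map (i2 : R2 →+* R12) (g.coeff 1) * C e)) = 0 := by
      rw [mul_comm, coeff_C_mul, coeff_map]
      exact hl2 _
    rw [e4, e5, zero_add] at e3
    exact e3.symm
  obtain ⟨r, hr⟩ := exists_of_pderiv_zero q0 hpd
  have hPhi0 : Phi0 i2 D (g.coeff 0) = Polynomial.C (map (i1 : R1 →+* R12) (f.coeff 0)) := by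
    have h1 : ((Phi0 i2 D).comp ((map (algebraMap k R2)).comp (rename Sum.inl).toRingHom) :
        MvPolynomial J k →+* Polynomial (MvPolynomial (J ⊕ I) R12)) =
        (Polynomial.C).comp ((map (i1 : R1 →+* R12)).comp
          ((map (algebraMap k R1)).comp (rename Sum.inl).toRingHom)) := by
      apply MvPolynomial.ringHom_ext
      · intro c
        simp [Phi0]
      · intro j
        simp [Phi0, val]
    have h2 := RingHom.congr_fun h1 r
    rw [hq0', hq0, hr]
    exact h2
  have key : ∀ n, n ≠ 0 → g.coeff n = 0 ∧ f.coeff n = 0 := by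
    intro n
    induction n using Nat.strong_induction_on with
    | _ n ih =>
      intro hn
      have h1 : (Polynomial.X : Polynomial (MvPolynomial (J ⊕ I) R2)) ^ n ∣
          g - Polynomial.C (g.coeff 0) := by
        rw [Polynomial.X_pow_dvd_iff]
        intro d hd
        rw [Polynomial.coeff_sub, Polynomial.coeff_C]
        by_cases hd0 : d = 0
        · subst hd0; simp
        · rw [if_neg hd0, sub_zero]
          exact (ih d hd hd0).1
      obtain ⟨G, hG⟩ := h1
      have h2 : G.coeff 0 = g.coeff n := by
        have := congrArg (fun F => Polynomial.coeff F n) hG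
        simp only [Polynomial.coeff_sub, Polynomial.coeff_C, if_neg hn, sub_zero] at this
        rw [this, Polynomial.coeff_X_pow_mul', if_pos le_rfl, Nat.sub_self]
      have h3 : Polynomial.map (map (i1 : R1 →+* R12)) f -
          Polynomial.C (map (i1 : R1 →+* R12) (f.coeff 0)) =
          (Polynomial.C (C e) * Polynomial.X) ^ n * Phi i2 e D G := by
        rw [h, ← hPhi0, ← Phi_C i2 e D, ← map_sub, hG, map_mul, map_pow, Phi_X]
      have h4 := congrArg (fun F => Polynomial.coeff F n) h3
      simp only [Polynomial.coeff_sub, Polynomial.coeff_C, if_neg hn, sub_zero,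
        Polynomial.coeff_map] at h4
      rw [mul_pow, ← Polynomial.C_pow, mul_assoc, Polynomial.coeff_C_mul,
        Polynomial.coeff_X_pow_mul', if_pos le_rfl, Nat.sub_self, Phi_coeff_zero, h2,
        ← map_pow] at h4
      have h5 : ∀ m, i1 (coeff m (f.coeff n)) = e ^ n * i2 (coeff m (g.coeff n)) := by
        intro m
        have := congrArg (coeff m) h4
        rwa [coeff_map, coeff_C_mul, coeff_map] at this
      have h6 : ∀ m, coeff m (f.coeff n) = 0 := fun m => hj n hn _ _ (h5 m)
      constructor
      · ext m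
        rw [coeff_zero]
        apply hinj2
        rw [map_zero]
        have h7 : e ^ n * i2 (coeff m (g.coeff n)) = 0 := by
          rw [← h5 m, h6 m, map_zero]
        exact hen n _ h7
      · ext m
        rw [coeff_zero]
        exact h6 m
  refine ⟨r, ?_⟩
  ext1 n
  rw [Polynomial.coeff_C]
  by_cases hn : n = 0
  · subst hn
    rw [if_pos rfl, hq0, hr, map_rename]
  · rw [if_neg hn]
    exact (key n hn).2

/-- The substitution `g ↦ g(e c, ν, w + c D)`; `c = none`, `ν_j = some (inl j)`,
`w_i = some (inr i)`. -/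
noncomputable def subst : MvPolynomial (Option (J ⊕ I)) R2 →+*
    MvPolynomial (Option (J ⊕ I)) R12 :=
  eval₂Hom (C.comp (i2 : R2 →+* R12)) fun v => match v with
    | none => C e * X none
    | some (Sum.inl j) => X (some (Sum.inl j))
    | some (Sum.inr i) => X (some (Sum.inr i)) + C (D i) * X none

variable {i1 i2 e D} in
/-- **The algebraic lemma.** -/
theorem alg [CharZero k] (hinj2 : Function.Injective i2)
    (he : ∀ a, e * a = 0 → a = 0)
    (h0 : ∀ a b, i1 a = i2 b → a ∈ Set.range (algebraMap k R1))
    (hj : ∀ j : ℕ, j ≠ 0 → ∀ a b, i1 a = e ^ j * i2 b → a = 0)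
    (hD : ∀ (a : I →₀ k) (r : R1) (s : R2), (a.sum fun i c => c • D i) = i1 r + e * i2 s → a = 0)
    (f : MvPolynomial (Option (J ⊕ I)) R1) (g : MvPolynomial (Option (J ⊕ I)) R2)
    (h : map (i1 : R1 →+* R12) f = subst i2 e D g) :
    ∃ q : MvPolynomial J k,
      f = rename (fun j => some (Sum.inl j)) (map (algebraMap k R1) q) := by
  have e1 : ((optionEquivLeft R12 (J ⊕ I)).toRingEquiv.toRingHom).comp (map (i1 : R1 →+* R12)) =
      (Polynomial.mapRingHom (map (i1 : R1 →+* R12))).comp
        (optionEquivLeft R1 (J ⊕ I)).toRingEquiv.toRingHom := by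
    apply MvPolynomial.ringHom_ext
    · intro r
      simp [optionEquivLeft_C]
    · rintro (_ | v)
      · simp [optionEquivLeft_X_none]
      · simp [optionEquivLeft_X_some]
  have e2 : ((optionEquivLeft R12 (J ⊕ I)).toRingEquiv.toRingHom).comp (subst i2 e D) =
      (Phi i2 e D).comp (optionEquivLeft R2 (J ⊕ I)).toRingEquiv.toRingHom := by
    apply MvPolynomial.ringHom_ext
    · intro r
      simp [subst, optionEquivLeft_C, Phi_C, Phi0]
    · rintro (_ | j | i)
      · simp [subst, optionEquivLeft_X_none, optionEquivLeft_C, Phi_X]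
      · simp [subst, optionEquivLeft_X_some, Phi_C, Phi0, val]
      · simp [subst, optionEquivLeft_X_none, optionEquivLeft_X_some, optionEquivLeft_C, Phi_C,
          Phi0, val]
  obtain ⟨q, hq⟩ := alg_poly hinj2 he h0 hj hD (optionEquivLeft R1 (J ⊕ I) f)
    (optionEquivLeft R2 (J ⊕ I) g) (by
      have h1 := RingHom.congr_fun e1 f
      have h2 := RingHom.congr_fun e2 g
      have h3 := congrArg (optionEquivLeft R12 (J ⊕ I)) h
      exact h1.symm.trans (h3.trans h2))
  refine ⟨q, (optionEquivLeft R1 (J ⊕ I)).injective ?_⟩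
  rw [hq]
  have e3 : ((optionEquivLeft R1 (J ⊕ I)).toRingEquiv.toRingHom).comp
      (rename (fun j => some (Sum.inl j)) : MvPolynomial J R1 →ₐ[R1] _).toRingHom =
      (Polynomial.C).comp (rename Sum.inl : MvPolynomial J R1 →ₐ[R1] _).toRingHom := by
    apply MvPolynomial.ringHom_ext
    · intro r
      simp [optionEquivLeft_C]
    · intro j
      simp [optionEquivLeft_X_some]
  exact (RingHom.congr_fun e3 (map (algebraMap k R1) q)).symm

end MG.Alg
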