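import Pool.Agent.MG.StmtsC

/-!
# ALG1: functions which extend over both charts of the moving section do not depend on it

Induction on the degree by means of the derivatives with respect to the variables `w`, which
commute with the change of charts.
-/

namespace Pool.Agent.MG.ALG1

open MvPolynomial

variable {k R1 R2 R12 : Type*} [Field k] [CommRing R1] [CommRing R2] [CommRing R12]
  [Algebra k R1] [Algebra k R2] [Algebra k R12]
  {J I : Type*}

/-- coefficient of a derivative -/
theorem coeff_pd {R σ : Type*} [CommRing R] (v : σ) (q : MvPolynomial σ R) :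
    ∀ m, coeff m (pderiv v q) = (m v + 1) * coeff (m + Finsupp.single v 1) q := by
  classical
  induction q using MvPolynomial.induction_on' with
  | monomial s a =>
    intro m
    rw [pderiv_monomial, coeff_monomial, coeff_monomial]
    by_cases h : s = m + Finsupp.single v 1
    · subst h
      simp
      ring
    · rw [if_neg h, mul_zero]
      split_ifs with h'
      · by_cases hs : s v = 0
        · rw [hs]; simp
        · exfalso
          apply h
          rw [← h']
          ext w
          by_cases hw : v = w
          · subst hw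
            simp
            omega
          · simp [hw]
      · rfl
  | add p q hp hq =>
    intro m
    rw [map_add, coeff_add, coeff_add, hp, hq]
    ring

/-- A polynomial with vanishing derivatives with respect to `w`. -/
theorem of_pd_zero {R : Type*} [CommRing R] [IsDomain R] [CharZero R]
    (q : MvPolynomial (J ⊕ I) R) (h : ∀ i : I, pderiv (Sum.inr i) q = 0) :
    ∃ r : MvPolynomial J R, q = rename Sum.inl r := by
  have h1 : ∀ m ∈ q.support, ∀ i : I, m (Sum.inr i) = 0 := by
    intro m hm i
    by_contra hne
    have h2 := coeff_pd (Sum.inr i) q (m - Finsupp.single (Sum.inr i) 1)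
    rw [h i, coeff_zero] at h2
    have h3 : m - Finsupp.single (Sum.inr i) 1 + Finsupp.single (Sum.inr i) 1 = m := by
      apply tsub_add_cancel_of_le
      rw [Finsupp.single_le_iff]
      omega
    rw [h3] at h2
    have h4 := (mul_eq_zero.mp h2.symm).resolve_right (mem_support_iff.mp hm)
    exact Nat.cast_add_one_ne_zero _ h4
  obtain ⟨r, hr⟩ := exists_rename_eq_of_vars_subset_range q (Sum.inl : J → J ⊕ I)
    Sum.inl_injective (by
      intro v hv
      rcases v with j | i
      · exact ⟨j, rfl⟩
      · exfalso
        obtain ⟨m, hm, hvm⟩ := (MvPolynomial.mem_vars_iff_mem_support _).mp hv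
        exact (Finsupp.mem_support_iff.mp hvm) (h1 m hm i))
  exact ⟨r, hr.symm⟩

theorem pd_ren {R : Type*} [CommRing R] (q : MvPolynomial J R) (i : I) :
    pderiv (Sum.inr i) (rename Sum.inl q : MvPolynomial (J ⊕ I) R) = 0 := by
  classical
  apply pderiv_eq_zero_of_notMem_vars
  intro h
  have := vars_rename (Sum.inl : J → J ⊕ I) q h
  simp at this

/-- linear in `w` -/
theorem lin {R : Type*} [CommRing R] [IsDomain R] [CharZero R]
    (q : MvPolynomial (J ⊕ I) R) (p : I → MvPolynomial J R)
    (h : ∀ i : I, pderiv (Sum.inr i) q = rename Sum.inl (p i)) (S : Finset I)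
    (hS : ∀ i, i ∉ S → p i = 0) :
    ∃ r : MvPolynomial J R, q = rename Sum.inl r +
      ∑ i ∈ S, rename Sum.inl (p i) * X (Sum.inr i) := by
  classical
  obtain ⟨r, hr⟩ := of_pd_zero (q - ∑ i ∈ S, rename Sum.inl (p i) * X (Sum.inr i)) (by
    intro i
    rw [map_sub, h i, map_sum]
    have : ∀ j ∈ S, pderiv (Sum.inr i : J ⊕ I)
        (rename Sum.inl (p j) * X (Sum.inr j)) = if j = i then rename Sum.inl (p i) else 0 := by
      intro j _
      rw [Derivation.leibniz, pd_ren, smul_zero, add_zero, pderiv_X]
      by_cases hji : j = i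
      · subst hji
        simp
      · rw [if_neg hji, Pi.single_apply, if_neg (by simpa using hji), smul_zero]
    rw [Finset.sum_congr rfl this, Finset.sum_ite_eq' S i]
    split_ifs with hi
    · rw [sub_self]
    · rw [hS i hi, map_zero, sub_zero])
  exact ⟨r, by rw [← hr, sub_add_cancel]⟩

/-- the change of charts -/
noncomputable def chg (D : I → R12) (nu : MvPolynomial J R12) :
    J ⊕ I → MvPolynomial (J ⊕ I) R12
  | .inl j => X (.inl j)
  | .inr a => X (.inr a) + C (D a) * rename Sum.inl nu

theorem pd_chg (D : I → R12) (nu : MvPolynomial J R12) (i : I) (G : MvPolynomial (J ⊕ I) R12) :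
    pderiv (Sum.inr i) (aeval (chg D nu) G) = aeval (chg D nu) (pderiv (Sum.inr i) G) := by
  classical
  have hv : ∀ v : J ⊕ I, pderiv (Sum.inr i) (chg D nu v) =
      aeval (chg D nu) (pderiv (Sum.inr i) (X v : MvPolynomial (J ⊕ I) R12)) := by
    rintro (j | a)
    · simp only [chg]
      rw [pderiv_X_of_ne (by simp), map_zero]
    · simp only [chg]
      rw [map_add, pderiv_C_mul, pd_ren, mul_zero, add_zero, pderiv_X]
      by_cases h : a = i
      · subst h
        simp
      · rw [Pi.single_apply, if_neg (by simpa using h), map_zero]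
  induction G using MvPolynomial.induction_on with
  | C a => rw [aeval_C, pderiv_C, map_zero, algebraMap_eq, pderiv_C]
  | add p q hp hq => rw [map_add, map_add, map_add, map_add, hp, hq]
  | mul_X p v hp =>
    rw [map_mul, aeval_X, Derivation.leibniz, Derivation.leibniz, hp, hv, map_add, smul_eq_mul,
      smul_eq_mul, smul_eq_mul, smul_eq_mul, map_mul, map_mul, aeval_X]

theorem tdeg_pd {R σ : Type*} [CommRing R] (v : σ) (q : MvPolynomial σ R) (h : pderiv v q ≠ 0) :
    (pderiv v q).totalDegree < q.totalDegree := by
  classical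
  have h1 : ∀ m ∈ (pderiv v q).support, m.degree + 1 ≤ q.totalDegree := by
    intro m hm
    have h2 : m + Finsupp.single v 1 ∈ q.support := by
      rw [mem_support_iff] at hm ⊢
      intro h3
      rw [coeff_pd, h3, mul_zero] at hm
      exact hm rfl
    have h3 := le_totalDegree h2
    have h4 : ((m + Finsupp.single v 1).sum fun _ e => e) = m.degree + 1 := by
      have : ((m + Finsupp.single v 1).sum fun _ e => e) = (m + Finsupp.single v 1).degree := rfl
      rw [this, map_add, Finsupp.degree_single]
    omega
  obtain ⟨m, hm⟩ := support_nonempty.mpr h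
  have hpos : 0 < q.totalDegree := by
    have := h1 m hm
    omega
  rw [totalDegree, Finset.sup_lt_iff hpos]
  intro m hm
  have := h1 m hm
  have h5 : (m.sum fun _ e => e) = m.degree := rfl
  rw [h5]
  omega

variable (i1 : R1 →ₐ[k] R12) (i2 : R2 →ₐ[k] R12) in
theorem main_alg [CharZero k] [IsDomain R12] (h1 : Function.Injective i1)
    (h2 : Function.Injective i2) (e : R12) (D : I → R12) (r0 ri : R1) (s0 si : R2)
    (hr : r0 * ri = 1) (hs : s0 * si = 1) (h : i1 r0 = e * i2 s0)
    (ind : ∀ (a : R1) (b : R2) (c : I →₀ k),
      i1 a + e * i2 b + (c.sum fun i t => t • D i) = 0 →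
        c = 0 ∧ ∃ t : k, a = t • r0 ∧ b = -(t • s0))
    (lam : MvPolynomial J k) (hlam : lam ≠ 0) (nu : MvPolynomial J R12)
    (hnu : C (i1 r0) * nu = - map (algebraMap k R12) lam) :
    ∀ (N : ℕ) (f : MvPolynomial (J ⊕ I) R1) (g : MvPolynomial (J ⊕ I) R2), g.totalDegree < N →
      map (i1 : R1 →+* R12) f = aeval (chg D nu) (map (i2 : R2 →+* R12) g) →
      ∃ q : MvPolynomial J k, f = rename Sum.inl (map (algebraMap k R1) q) ∧
        g = rename Sum.inl (map (algebraMap k R2) q) := by
  classical
  have : IsDomain R1 := h1.isDomain (i1 : R1 →+* R12)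
  have : IsDomain R2 := h2.isDomain (i2 : R2 →+* R12)
  have ik1 : Function.Injective (algebraMap k R1) := (algebraMap k R1).injective
  have ik2 : Function.Injective (algebraMap k R2) := (algebraMap k R2).injective
  have : CharZero R1 := charZero_of_injective_algebraMap ik1
  have : CharZero R2 := charZero_of_injective_algebraMap ik2
  intro N
  induction N with
  | zero => intro f g hg; omega
  | succ N ih =>
    intro f g hg hfg
    -- the derivatives
    have hp : ∀ i : I, ∃ q : MvPolynomial J k,
        pderiv (Sum.inr i) f = rename Sum.inl (map (algebraMap k R1) q) ∧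
        pderiv (Sum.inr i) g = rename Sum.inl (map (algebraMap k R2) q) := by
      intro i
      have h3 : map (i1 : R1 →+* R12) (pderiv (Sum.inr i) f) =
          aeval (chg D nu) (map (i2 : R2 →+* R12) (pderiv (Sum.inr i) g)) := by
        rw [← pderiv_map, ← pderiv_map, hfg, pd_chg]
      by_cases h4 : pderiv (Sum.inr i) g = 0
      · refine ⟨0, ?_, ?_⟩
        · rw [h4, map_zero, map_zero] at h3
          have h5 : pderiv (Sum.inr i) f = 0 := map_injective (i1 : R1 →+* R12) h1 (by
            rw [h3, map_zero])
          rw [h5, map_zero, map_zero]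
        · rw [h4, map_zero, map_zero]
      · exact ih _ _ (lt_of_lt_of_le (tdeg_pd _ _ h4) (Nat.lt_succ_iff.mp hg)) h3
    choose p hp1 hp2 using hp
    let S : Finset I := g.vars.toRight
    have hS : ∀ i, i ∉ S → p i = 0 := by
      intro i hi
      have h3 : pderiv (Sum.inr i) g = 0 := by
        apply pderiv_eq_zero_of_notMem_vars
        intro h4
        exact hi (by simpa [S] using h4)
      have h5 := hp2 i
      rw [h3] at h5
      have h6 : map (algebraMap k R2) (p i) = 0 := rename_injective _ Sum.inl_injective (by
        rw [← h5, map_zero])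
      exact map_injective _ ik2 (by rw [h6, map_zero])
    obtain ⟨f0, hf0⟩ := lin f (fun i => map (algebraMap k R1) (p i)) hp1 S (fun i hi => by
      simp only [hS i hi, map_zero])
    obtain ⟨g0, hg0⟩ := lin g (fun i => map (algebraMap k R2) (p i)) hp2 S (fun i hi => by
      simp only [hS i hi, map_zero])
    -- the equation
    have hcm : ∀ (q : MvPolynomial J R12), aeval (chg D nu) (rename Sum.inl q) =
        rename (Sum.inl : J → J ⊕ I) q := by
      intro q
      rw [aeval_rename]
      induction q using MvPolynomial.induction_on with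
      | C a => simp
      | add p q hp hq => rw [map_add, map_add, hp, hq]
      | mul_X p v hp => rw [map_mul, map_mul, hp, aeval_X, rename_X]; rfl
    have e1 : map (i1 : R1 →+* R12) f0 = map (i2 : R2 →+* R12) g0 +
        ∑ i ∈ S, map (algebraMap k R12) (p i) * (C (D i) * nu) := by
      apply rename_injective (Sum.inl : J → J ⊕ I) Sum.inl_injective
      have e2 := hfg
      rw [hf0, hg0] at e2
      simp only [map_add, map_sum, map_mul, map_rename, hcm, map_X, aeval_X, chg, map_map,
        AlgHom.comp_algebraMap] at e2 ⊢
      simp only [mul_add, Finset.sum_add_distrib] at e2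
      simp only [rename_C]
      linear_combination e2
    have e3 : ∀ m : J →₀ ℕ, (∀ i ∈ S, coeff m (p i * lam) = 0) ∧ ∃ t : k,
        coeff m f0 = algebraMap k R1 t ∧ coeff m g0 = algebraMap k R2 t := by
      intro m
      let c : I →₀ k := ∑ i ∈ S, Finsupp.single i (coeff m (p i * lam))
      have hc : (c.sum fun i t => t • D i) = ∑ i ∈ S, coeff m (p i * lam) • D i := by
        have : (c.sum fun i t => t • D i) = Finsupp.linearCombination k D c := rfl
        rw [this, map_sum]
        apply Finset.sum_congr rfl
        intro i _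
        rw [Finsupp.linearCombination_single]
      have h3 := congrArg (fun F => C (i1 r0) * F) e1
      rw [mul_add, Finset.mul_sum] at h3
      have h4 : ∀ i ∈ S, C (i1 r0) * (map (algebraMap k R12) (p i) * (C (D i) * nu)) =
          - (C (D i) * map (algebraMap k R12) (p i * lam)) := by
        intro i _
        rw [map_mul]
        linear_combination (map (algebraMap k R12) (p i) * C (D i)) * hnu
      rw [Finset.sum_congr rfl h4] at h3
      have h5 := congrArg (coeff m) h3
      rw [coeff_C_mul, coeff_map, coeff_add, coeff_C_mul, coeff_map, coeff_sum] at h5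
      simp only [coeff_neg, coeff_C_mul, coeff_map] at h5
      have h6 : i1 (r0 * coeff m f0) + e * i2 (-(s0 * coeff m g0)) +
          (c.sum fun i t => t • D i) = 0 := by
        rw [hc, map_mul, map_neg, map_mul]
        have h7 : ∀ i ∈ S, coeff m (p i * lam) • D i =
            D i * algebraMap k R12 (coeff m (p i * lam)) := by
          intro i _
          rw [Algebra.smul_def, mul_comm]
        rw [Finset.sum_congr rfl h7]
        rw [Finset.sum_neg_distrib] at h5
        have h8 : ∀ x : R1, (i1 : R1 →+* R12) x = i1 x := fun _ => rfl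
        have h9 : ∀ x : R2, (i2 : R2 →+* R12) x = i2 x := fun _ => rfl
        rw [h8, h9] at h5
        linear_combination h5 + i2 (coeff m g0) * h
      obtain ⟨hc0, t, ht1, ht2⟩ := ind _ _ _ h6
      refine ⟨fun i hi => ?_, t, ?_, ?_⟩
      · have h8 := DFunLike.congr_fun hc0 i
        simp only [c, Finsupp.coe_finsetSum, Finset.sum_apply, Finsupp.coe_zero,
          Pi.zero_apply] at h8
        rw [Finset.sum_eq_single i] at h8
        · simpa using h8
        · intro j _ hji
          rw [Finsupp.single_apply, if_neg hji]
        · intro h9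
          exact absurd hi h9
      · rw [Algebra.smul_def] at ht1
        linear_combination ri * ht1 + (algebraMap k R1 t - coeff m f0) * hr
      · rw [Algebra.smul_def] at ht2
        linear_combination (-si) * ht2 + (algebraMap k R2 t - coeff m g0) * hs
    have hp0 : ∀ i, p i = 0 := by
      intro i
      by_cases hi : i ∈ S
      · have h3 : p i * lam = 0 := by
          ext m
          rw [(e3 m).1 i hi, coeff_zero]
        exact (mul_eq_zero.mp h3).resolve_right hlam
      · exact hS i hi
    have h3 : f0 ∈ Set.range (map (algebraMap k R1)) := by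
      rw [mem_range_map_iff_coeffs_subset]
      intro x hx
      obtain ⟨m, _, rfl⟩ := (mem_coeffs_iff).mp hx
      obtain ⟨t, ht, _⟩ := (e3 m).2
      exact ⟨t, ht.symm⟩
    obtain ⟨q, hq⟩ := h3
    have hg : g0 = map (algebraMap k R2) q := by
      ext m
      obtain ⟨t, ht1, ht2⟩ := (e3 m).2
      rw [ht2, coeff_map]
      rw [← hq, coeff_map] at ht1
      rw [ik1 ht1]
    refine ⟨q, ?_, ?_⟩
    · rw [hf0, hq]
      simp [hp0]
    · rw [hg0, hg]
      simp [hp0]

end Pool.Agent.MG.ALG1

open CategoryTheory CategoryTheory.Limits AlgebraicGeometry TensorProduct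

namespace Pool.Agent.MG

open MvPolynomial in
theorem t_ALG1 : Stmt_ALG1 := by
  classical
  intro k _ _ T E hdom h1 h2 _ ι D hD n i₀ c hc f g hfg
  let J := {i : Fin n // i ≠ i₀}
  let lam : MvPolynomial J k := ∑ i : J, C (c i.1) * X i
  have hlam : lam ≠ 0 := by
    obtain ⟨i, hi, hci⟩ := hc
    intro h0
    have h3 := congrArg (coeff (Finsupp.single (⟨i, hi⟩ : J) 1)) h0
    simp only [lam] at h3
    rw [coeff_sum, Finset.sum_eq_single (⟨i, hi⟩ : J), coeff_C_mul, coeff_X, coeff_zero] at h3
    · simp at h3
      exact hci h3
    · intro b _ hb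
      rw [coeff_C_mul, coeff_X', if_neg, mul_zero]
      intro h4
      exact hb (Finsupp.single_left_injective one_ne_zero h4)
    · intro h4
      exact absurd (Finset.mem_univ _) h4
  let nu : MvPolynomial J T.R12 := -∑ i : J, C (algebraMap k T.R12 (c i.1) * T.j1 E.ri) * X i
  have hnu : C (T.j1 E.r0) * nu = - map (algebraMap k T.R12) lam := by
    have h3 : T.j1 E.r0 * T.j1 E.ri = 1 := by rw [← map_mul, E.hr, map_one]
    simp only [nu, lam]
    rw [mul_neg, Finset.mul_sum, map_sum]
    congr 1
    apply Finset.sum_congr rfl
    intro i _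
    have h4 : MvPolynomial.map (algebraMap k T.R12) (C (c i.1) * X i : MvPolynomial J k) =
        C (algebraMap k T.R12 (c i.1)) * X i := by
      rw [_root_.map_mul, MvPolynomial.map_C, MvPolynomial.map_X]
    have h5 : (C (T.j1 E.r0) : MvPolynomial J T.R12) * C (T.j1 E.ri) = 1 := by
      rw [← MvPolynomial.C_mul, h3, MvPolynomial.C_1]
    rw [h4, MvPolynomial.C_mul]
    linear_combination (C (algebraMap k T.R12 (c i.1)) * X i) * h5
  have hchg : chgW E D i₀ c = ALG1.chg D nu := by
    funext v
    rcases v with j | a
    · rfl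
    · simp only [chgW, ALG1.chg, nuv, nu]
      rw [map_neg, map_sum]
      simp only [map_mul, rename_C, rename_X, C_mul]
      rfl
  rw [hchg] at hfg
  obtain ⟨q, hq, _⟩ := ALG1.main_alg T.j1 T.j2 h1 h2 T.e D E.r0 E.ri E.s0 E.si E.hr E.hs E.h
    hD.ind lam hlam nu hnu (g.totalDegree + 1) f g (Nat.lt_succ_self _) hfg
  exact ⟨q, hq⟩

end Pool.Agent.MG
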