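import Pool.Agent.MG.ALG

/-!
# Covector data: linear maps on `R12 = R1 ⊕ e R2 ⊕ ⟨D_i⟩` (MP_cc45c1_ag)
-/

namespace MG.Uni

open MvPolynomial

universe u

variable {k R1 R2 : Type*} {R12 : Type u} [Field k] [CommRing R1] [CommRing R2] [CommRing R12]
  [Algebra k R1] [Algebra k R2] [Algebra k R12]

/-- `R12 = R1 ⊕ e R2 ⊕ ⟨D_i⟩`. -/
structure Split (i1 : R1 →ₐ[k] R12) (i2 : R2 →ₐ[k] R12) (e : R12) {I : Type*} (D : I → R12) :
    Prop where
  inj1 : Function.Injective i1
  inj2 : Function.Injective i2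
  he : ∀ a, e * a = 0 → a = 0
  h12 : ∀ a b, i1 a = e * i2 b → a = 0
  ind : ∀ (a : I →₀ k) (r : R1) (s : R2), (a.sum fun i c => c • D i) = i1 r + e * i2 s → a = 0
  span : ∀ x : R12, ∃ (r : R1) (s : R2) (a : I →₀ k), x = i1 r + e * i2 s + a.sum fun i c => c • D i

section

variable {i1 : R1 →ₐ[k] R12} {i2 : R2 →ₐ[k] R12} {e : R12}

/-- Existence of `(D_i)`. -/
theorem exists_split (inj1 : Function.Injective i1) (inj2 : Function.Injective i2)
    (he : ∀ a, e * a = 0 → a = 0) (h12 : ∀ a b, i1 a = e * i2 b → a = 0) :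
    ∃ (I : Type u) (D : I → R12), Split i1 i2 e D := by
  let W : Submodule k R12 := LinearMap.range i1.toLinearMap ⊔
    LinearMap.range ((LinearMap.mulLeft k e).comp i2.toLinearMap)
  obtain ⟨W', hW'⟩ := Submodule.exists_isCompl W
  let b := Module.Basis.ofVectorSpace k W'
  refine ⟨_, fun i => (b i : R12), inj1, inj2, he, h12, ?_, ?_⟩
  · intro a r s h
    have h1 : (a.sum fun i c => c • (b i : R12)) = ((Finsupp.linearCombination k b a : W') : R12) := by
      rw [Finsupp.linearCombination_apply, Finsupp.sum, Finsupp.sum]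
      simp
    have h2 : ((Finsupp.linearCombination k b a : W') : R12) ∈ W := by
      rw [← h1, h]
      exact Submodule.add_mem_sup ⟨r, rfl⟩ ⟨s, rfl⟩
    have h3 : ((Finsupp.linearCombination k b a : W') : R12) = 0 :=
      Submodule.disjoint_def.mp hW'.disjoint _ h2 (Subtype.mem _)
    exact linearIndependent_iff.mp b.linearIndependent a (Subtype.ext h3)
  · intro x
    have hx : x ∈ W ⊔ W' := by rw [hW'.sup_eq_top]; trivial
    obtain ⟨y, hy, z, hz, e1⟩ := Submodule.mem_sup.mp hx
    obtain ⟨y1, ⟨r, rfl⟩, y2, ⟨s, rfl⟩, e2⟩ := Submodule.mem_sup.mp hy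
    refine ⟨r, s, b.repr ⟨z, hz⟩, ?_⟩
    rw [← e1, ← e2]
    have h1 : z = ((Finsupp.linearCombination k b (b.repr ⟨z, hz⟩) : W') : R12) := by
      rw [b.linearCombination_repr]
    conv_lhs => rw [h1, Finsupp.linearCombination_apply, Finsupp.sum]
    rw [Finsupp.sum]
    simp

variable {I : Type*} {D : I → R12}

/-- Linear maps on `R12` are determined by their values on the three parts. -/
theorem Split.ext (h : Split i1 i2 e D) {B : Type*} [AddCommGroup B] [Module k B]
    {mu mu' : R12 →ₗ[k] B} (h1 : ∀ r, mu (i1 r) = mu' (i1 r))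
    (h2 : ∀ s, mu (e * i2 s) = mu' (e * i2 s)) (h3 : ∀ i, mu (D i) = mu' (D i)) : mu = mu' := by
  ext x
  obtain ⟨r, s, a, rfl⟩ := h.span x
  rw [map_add, map_add, map_add, map_add, h1, h2, Finsupp.sum, map_sum, map_sum]
  congr 1
  apply Finset.sum_congr rfl
  intro i _
  rw [map_smul, map_smul, h3]

/-- The splitting as a linear equivalence. -/
noncomputable def Split.equiv (h : Split i1 i2 e D) : ((R1 × R2) × (I →₀ k)) ≃ₗ[k] R12 :=
  LinearEquiv.ofBijective
    (((i1.toLinearMap.coprod ((LinearMap.mulLeft k e).comp i2.toLinearMap))).coprod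
      (Finsupp.linearCombination k D)) (by
    constructor
    · rw [injective_iff_map_eq_zero]
      rintro ⟨⟨r, s⟩, a⟩ hx
      have hx' : i1 r + e * i2 s + (a.sum fun i c => c • D i) = 0 := hx
      have h1 : (a.sum fun i c => c • D i) = i1 (-r) + e * i2 (-s) := by
        rw [map_neg, map_neg]
        linear_combination hx'
      have ha := h.ind a _ _ h1
      subst ha
      have h2 : i1 r = e * i2 (-s) := by
        rw [Finsupp.sum_zero_index, add_zero] at hx'
        rw [map_neg]
        linear_combination hx'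
      have hr := h.h12 _ _ h2
      subst hr
      rw [map_zero] at h2
      have hs : i2 (-s) = i2 0 := by rw [h.he _ h2.symm, map_zero]
      have hs' := h.inj2 hs
      rw [neg_eq_zero] at hs'
      rw [hs']
      rfl
    · intro x
      obtain ⟨r, s, a, rfl⟩ := h.span x
      exact ⟨((r, s), a), rfl⟩)

theorem Split.equiv_apply (h : Split i1 i2 e D) (r : R1) (s : R2) (a : I →₀ k) :
    h.equiv ((r, s), a) = i1 r + e * i2 s + Finsupp.linearCombination k D a := rfl

/-- The linear map with given values on the three parts. -/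
noncomputable def Split.lift (h : Split i1 i2 e D) {B : Type*} [AddCommGroup B] [Module k B]
    (F1 : R1 →ₗ[k] B) (F2 : R2 →ₗ[k] B) (w : I → B) : R12 →ₗ[k] B :=
  ((F1.coprod F2).coprod (Finsupp.linearCombination k w)).comp h.equiv.symm.toLinearMap

section

variable (h : Split i1 i2 e D) {B : Type*} [AddCommGroup B] [Module k B]
    (F1 : R1 →ₗ[k] B) (F2 : R2 →ₗ[k] B) (w : I → B)

theorem Split.lift_one (r : R1) : h.lift F1 F2 w (i1 r) = F1 r := by
  have h1 : h.equiv ((r, 0), 0) = i1 r := by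
    rw [h.equiv_apply, map_zero, map_zero, mul_zero, add_zero, add_zero]
  rw [Split.lift, ← h1]
  simp

theorem Split.lift_two (s : R2) : h.lift F1 F2 w (e * i2 s) = F2 s := by
  have h1 : h.equiv ((0, s), 0) = e * i2 s := by
    rw [h.equiv_apply, map_zero, map_zero, zero_add, add_zero]
  rw [Split.lift, ← h1]
  simp

theorem Split.lift_D (i : I) : h.lift F1 F2 w (D i) = w i := by
  have h1 : h.equiv ((0, 0), Finsupp.single i 1) = D i := by
    rw [h.equiv_apply, map_zero, map_zero, mul_zero, add_zero, zero_add,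
      Finsupp.linearCombination_single, one_smul]
  rw [Split.lift, ← h1]
  simp

theorem Split.comp_lift {B' : Type*} [AddCommGroup B'] [Module k B'] (f : B →ₗ[k] B') :
    f.comp (h.lift F1 F2 w) = h.lift (f.comp F1) (f.comp F2) (fun i => f (w i)) := by
  apply h.ext
  · intro r
    rw [LinearMap.comp_apply, h.lift_one, h.lift_one, LinearMap.comp_apply]
  · intro r
    rw [LinearMap.comp_apply, h.lift_two, h.lift_two, LinearMap.comp_apply]
  · intro r
    rw [LinearMap.comp_apply, h.lift_D, h.lift_D]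

end

section Data

variable (h : Split i1 i2 e D) {J : Type*} [Fintype J] (p : J → R1 →ₐ[k] k)
  {B : Type*} [CommRing B] [Algebra k B]

/-- The part of the constant points. -/
noncomputable def cst (nu : J → B) : R1 →ₗ[k] B :=
  -∑ j, (LinearMap.mulLeft k (nu j)).comp ((Algebra.linearMap k B).comp (p j).toLinearMap)

theorem cst_apply (nu : J → B) (r : R1) :
    cst p nu r = -∑ j, nu j * algebraMap k B (p j r) := by
  simp [cst]

/-- The covector with weight `c` at the moving point `φ : R1 → B`, weights `ν_j` at `p_j`, and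
`μ(D_i) = w_i`. -/
noncomputable def mu1 (c : B) (φ : R1 →ₐ[k] B) (nu : J → B) (w : I → B) : R12 →ₗ[k] B :=
  h.lift (cst p nu - (LinearMap.mulLeft k c).comp φ.toLinearMap) 0 w

/-- The covector with weight `c` at the moving point `ψ : R2 → B`, weights `ν_j` at `p_j`, and
`μ(D_i) = w_i`. -/
noncomputable def mu2 (c : B) (ψ : R2 →ₐ[k] B) (nu : J → B) (w : I → B) : R12 →ₗ[k] B :=
  h.lift (cst p nu) ((LinearMap.mulLeft k c).comp ψ.toLinearMap) w

theorem mu1_one (c : B) (φ : R1 →ₐ[k] B) (nu : J → B) (w : I → B) (r : R1) :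
    mu1 h p c φ nu w (i1 r) + (c * φ r + ∑ j, nu j * algebraMap k B (p j r)) = 0 := by
  rw [mu1, h.lift_one, LinearMap.sub_apply, cst_apply, LinearMap.comp_apply,
    LinearMap.mulLeft_apply, AlgHom.toLinearMap_apply]
  ring

theorem mu1_two (c : B) (φ : R1 →ₐ[k] B) (nu : J → B) (w : I → B) (s : R2) :
    mu1 h p c φ nu w (e * i2 s) = 0 := by
  rw [mu1, h.lift_two, LinearMap.zero_apply]

theorem mu1_D (c : B) (φ : R1 →ₐ[k] B) (nu : J → B) (w : I → B) (i : I) :
    mu1 h p c φ nu w (D i) = w i := by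
  rw [mu1, h.lift_D]

theorem mu2_one (c : B) (ψ : R2 →ₐ[k] B) (nu : J → B) (w : I → B) (r : R1) :
    mu2 h p c ψ nu w (i1 r) + ∑ j, nu j * algebraMap k B (p j r) = 0 := by
  rw [mu2, h.lift_one, cst_apply]
  ring

theorem mu2_two (c : B) (ψ : R2 →ₐ[k] B) (nu : J → B) (w : I → B) (s : R2) :
    mu2 h p c ψ nu w (e * i2 s) = c * ψ s := by
  rw [mu2, h.lift_two]
  rfl

theorem mu2_D (c : B) (ψ : R2 →ₐ[k] B) (nu : J → B) (w : I → B) (i : I) :
    mu2 h p c ψ nu w (D i) = w i := by
  rw [mu2, h.lift_D]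

/-- Every covector in the chart `1` has this form. -/
theorem eq_mu1 (c : B) (φ : R1 →ₐ[k] B) (nu : J → B) (mu : R12 →ₗ[k] B)
    (h1 : ∀ r, mu (i1 r) + (c * φ r + ∑ j, nu j * algebraMap k B (p j r)) = 0)
    (h2 : ∀ s, mu (e * i2 s) = 0) : mu = mu1 h p c φ nu (fun i => mu (D i)) := by
  apply h.ext
  · intro r
    rw [eq_neg_of_add_eq_zero_left (h1 r),
      eq_neg_of_add_eq_zero_left (mu1_one h p c φ nu (fun i => mu (D i)) r)]
  · intro s
    rw [h2, mu1_two]
  · intro i
    rw [mu1_D]

/-- Every covector in the chart `2` has this form. -/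
theorem eq_mu2 (c : B) (ψ : R2 →ₐ[k] B) (nu : J → B) (mu : R12 →ₗ[k] B)
    (h1 : ∀ r, mu (i1 r) + ∑ j, nu j * algebraMap k B (p j r) = 0)
    (h2 : ∀ s, mu (e * i2 s) = c * ψ s) : mu = mu2 h p c ψ nu (fun i => mu (D i)) := by
  apply h.ext
  · intro r
    rw [eq_neg_of_add_eq_zero_left (h1 r),
      eq_neg_of_add_eq_zero_left (mu2_one h p c ψ nu (fun i => mu (D i)) r)]
  · intro s
    rw [h2, mu2_two]
  · intro i
    rw [mu2_D]

section

variable {B' : Type*} [CommRing B'] [Algebra k B'] (f : B →ₐ[k] B')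

theorem comp_mu1 (c : B) (φ : R1 →ₐ[k] B) (nu : J → B) (w : I → B) :
    f.toLinearMap.comp (mu1 h p c φ nu w) =
      mu1 h p (f c) (f.comp φ) (fun j => f (nu j)) (fun i => f (w i)) := by
  apply h.ext
  · intro r
    have h1 := mu1_one h p c φ nu w r
    have h2 := mu1_one h p (f c) (f.comp φ) (fun j => f (nu j)) (fun i => f (w i)) r
    rw [LinearMap.comp_apply, AlgHom.toLinearMap_apply, eq_neg_of_add_eq_zero_left h1,
      eq_neg_of_add_eq_zero_left h2]
    simp
  · intro s
    rw [LinearMap.comp_apply, mu1_two, mu1_two, map_zero]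
  · intro i
    rw [LinearMap.comp_apply, mu1_D, mu1_D, AlgHom.toLinearMap_apply]

theorem comp_mu2 (c : B) (ψ : R2 →ₐ[k] B) (nu : J → B) (w : I → B) :
    f.toLinearMap.comp (mu2 h p c ψ nu w) =
      mu2 h p (f c) (f.comp ψ) (fun j => f (nu j)) (fun i => f (w i)) := by
  apply h.ext
  · intro r
    have h1 := mu2_one h p c ψ nu w r
    have h2 := mu2_one h p (f c) (f.comp ψ) (fun j => f (nu j)) (fun i => f (w i)) r
    rw [LinearMap.comp_apply, AlgHom.toLinearMap_apply, eq_neg_of_add_eq_zero_left h1,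
      eq_neg_of_add_eq_zero_left h2]
    simp
  · intro s
    rw [LinearMap.comp_apply, mu2_two, mu2_two, AlgHom.toLinearMap_apply, map_mul]
    rfl
  · intro i
    rw [LinearMap.comp_apply, mu2_D, mu2_D, AlgHom.toLinearMap_apply]

end

/-- Change of the chart of the moving point. -/
theorem change (χ : R12 →ₐ[k] B) (c : B) (nu : J → B) (w : I → B) :
    mu2 h p (χ e * c) (χ.comp i2) nu (fun i => w i + χ (D i) * c) =
      mu1 h p c (χ.comp i1) nu w + (LinearMap.mulLeft k c).comp χ.toLinearMap := by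
  apply h.ext
  · intro r
    have h1 := mu1_one h p c (χ.comp i1) nu w r
    have h2 := mu2_one h p (χ e * c) (χ.comp i2) nu (fun i => w i + χ (D i) * c) r
    rw [LinearMap.add_apply, eq_neg_of_add_eq_zero_left h1, eq_neg_of_add_eq_zero_left h2]
    simp
  · intro s
    rw [LinearMap.add_apply, mu1_two, mu2_two]
    simp
    ring
  · intro i
    rw [LinearMap.add_apply, mu1_D, mu2_D]
    simp
    ring

end Data

section Universal

variable (h : Split i1 i2 e D) {J : Type*} [Fintype J] (p : J → R1 →ₐ[k] k)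

/-- The universal ring with variables `c`, `ν_j`, `w_i`. -/
abbrev U (J I R : Type*) [CommRing R] : Type _ := MvPolynomial (Option (J ⊕ I)) R

/-- The map `R[c, ν, w] → B` given by `φ : R → B` and values of the variables. -/
noncomputable def ev {R B : Type*} [CommRing R] [Algebra k R] [CommRing B] [Algebra k B]
    {J I : Type*} (φ : R →ₐ[k] B) (c : B) (nu : J → B) (w : I → B) : U J I R →ₐ[k] B :=
  { eval₂Hom (φ : R →+* B) (fun v => match v with
      | none => c
      | some (Sum.inl j) => nu j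
      | some (Sum.inr i) => w i) with
    commutes' := fun a => by
      have : algebraMap k (U J I R) a = C (algebraMap k R a) := rfl
      simp [this] }

section

variable {R B : Type*} [CommRing R] [Algebra k R] [CommRing B] [Algebra k B] {J I : Type*}
  (φ : R →ₐ[k] B) (c : B) (nu : J → B) (w : I → B)

theorem ev_C (r : R) : ev φ c nu w (C r) = φ r := by
  simp [ev]

theorem ev_c : ev φ c nu w (X none) = c := by
  simp [ev]

theorem ev_nu (j : J) : ev φ c nu w (X (some (Sum.inl j))) = nu j := by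
  simp [ev]

theorem ev_w (i : I) : ev φ c nu w (X (some (Sum.inr i))) = w i := by
  simp [ev]

/-- Constants. -/
noncomputable def CC (k : Type*) (R J I : Type*) [Field k] [CommRing R] [Algebra k R] :
    R →ₐ[k] U J I R :=
  { (C : R →+* U J I R) with commutes' := fun _ => rfl }

theorem CC_apply (r : R) : CC k R J I r = C r := rfl

theorem ev_CC : (ev φ c nu w).comp (CC k R J I) = φ := by
  ext r
  rw [AlgHom.comp_apply, CC_apply, ev_C]

end

/-- The universal covector over `R1[c, ν, w]`. -/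
noncomputable def uni1 : R12 →ₗ[k] U J I R1 :=
  mu1 h p (X none) (CC k R1 J I) (fun j => X (some (Sum.inl j))) (fun i => X (some (Sum.inr i)))

/-- The universal covector over `R2[c, ν, w]`. -/
noncomputable def uni2 : R12 →ₗ[k] U J I R2 :=
  mu2 h p (X none) (CC k R2 J I) (fun j => X (some (Sum.inl j))) (fun i => X (some (Sum.inr i)))

theorem ev_uni1 {B : Type*} [CommRing B] [Algebra k B] (φ : R1 →ₐ[k] B) (c : B) (nu : J → B)
    (w : I → B) : (ev φ c nu w).toLinearMap.comp (uni1 h p) = mu1 h p c φ nu w := by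
  rw [uni1, comp_mu1, ev_c, ev_CC]
  congr 1
  · funext j; rw [ev_nu]
  · funext i; rw [ev_w]

theorem ev_uni2 {B : Type*} [CommRing B] [Algebra k B] (ψ : R2 →ₐ[k] B) (c : B) (nu : J → B)
    (w : I → B) : (ev ψ c nu w).toLinearMap.comp (uni2 h p) = mu2 h p c ψ nu w := by
  rw [uni2, comp_mu2, ev_c, ev_CC]
  congr 1
  · funext j; rw [ev_nu]
  · funext i; rw [ev_w]

variable (i1 i2 e D) in
/-- `R1[c, ν, w] → R12[c, ν, w]`. -/
noncomputable def inc1 (J : Type*) : U J I R1 →ₐ[k] U J I R12 :=
  ev ((CC k R12 J I).comp i1) (X none) (fun j => X (some (Sum.inl j)))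
    (fun i => X (some (Sum.inr i)))

variable (i1 i2 e D) in
/-- `R2[c, ν, w] → R12[c, ν, w]`, `c ↦ e c`, `w ↦ w + c D`. -/
noncomputable def inc2 (J : Type*) : U J I R2 →ₐ[k] U J I R12 :=
  ev ((CC k R12 J I).comp i2) (C e * X none) (fun j => X (some (Sum.inl j)))
    (fun i => X (some (Sum.inr i)) + C (D i) * X none)

theorem inc1_eq (f : U J I R1) : inc1 (I := I) i1 J f = map (i1 : R1 →+* R12) f := by
  have : ((inc1 (I := I) i1 J : U J I R1 →ₐ[k] U J I R12) : U J I R1 →+* U J I R12) =
      map (i1 : R1 →+* R12) := by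
    apply MvPolynomial.ringHom_ext
    · intro r
      simp [inc1, ev, CC] <;> rfl
    · rintro (_ | j | i) <;> simp [inc1, ev]
  exact RingHom.congr_fun this f

theorem inc2_eq (g : U J I R2) : inc2 i2 e D J g = MG.Alg.subst i2 e D g := by
  have : ((inc2 i2 e D J : U J I R2 →ₐ[k] U J I R12) : U J I R2 →+* U J I R12) =
      MG.Alg.subst i2 e D := by
    apply MvPolynomial.ringHom_ext
    · intro r
      simp [inc2, ev, CC, MG.Alg.subst] <;> rfl
    · rintro (_ | j | i) <;> simp [inc2, ev, MG.Alg.subst]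
  exact RingHom.congr_fun this g

/-- The two universal covectors over `R12[c, ν, w]` are related by the change of charts. -/
theorem inc_change :
    (inc2 i2 e D J).toLinearMap.comp (uni2 h p) =
      (inc1 (I := I) i1 J).toLinearMap.comp (uni1 h p) +
        (LinearMap.mulLeft k (X none)).comp (CC k R12 J I).toLinearMap := by
  rw [inc1, inc2, ev_uni1, ev_uni2]
  exact change h p (CC k R12 J I) (X none) _ _

/-- **The universal polynomial is constant.** -/
theorem uni_alg [CharZero k] (h0 : ∀ a b, i1 a = i2 b → a ∈ Set.range (algebraMap k R1))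
    (hj : ∀ j : ℕ, j ≠ 0 → ∀ a b, i1 a = e ^ j * i2 b → a = 0)
    (h : Split i1 i2 e D) (f : U J I R1) (g : U J I R2)
    (hfg : inc1 (I := I) i1 J f = inc2 i2 e D J g) :
    ∃ q : MvPolynomial J k, ∀ {B : Type*} [CommRing B] [Algebra k B] (φ : R1 →ₐ[k] B) (c : B)
      (nu : J → B) (w : I → B), ev φ c nu w f = aeval nu q := by
  rw [inc1_eq, inc2_eq] at hfg
  obtain ⟨q, hq⟩ := MG.Alg.alg h.inj2 h.he h0 hj h.ind f g hfg
  refine ⟨q, ?_⟩
  intro B _ _ φ c nu w
  rw [hq]
  have : ((ev φ c nu w : U J I R1 →ₐ[k] B) : U J I R1 →+* B).comp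
      ((rename (fun j => some (Sum.inl j)) : MvPolynomial J R1 →ₐ[R1] U J I R1).toRingHom.comp
        (map (algebraMap k R1))) = (aeval nu : MvPolynomial J k →ₐ[k] B) := by
    apply MvPolynomial.ringHom_ext
    · intro r
      simp [ev]
    · intro j
      simp [ev]
  exact RingHom.congr_fun this q

end Universal

end

end MG.Uni
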