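import Pool.Agent.MG.StmtsB
import Pool.Agent.MG.UNI

/-!
# Proof of ALG
-/

open CategoryTheory CategoryTheory.Limits AlgebraicGeometry TensorProduct

namespace Pool.Agent.MG

open MvPolynomial

/-- The variables: `c = ν i₀`. -/
noncomputable def vEquiv {n : ℕ} (i₀ : Fin n) (ι : Type) :
    Fin n ⊕ ι → Option ({i : Fin n // i ≠ i₀} ⊕ ι)
  | .inl i => if h : i = i₀ then none else some (.inl ⟨i, h⟩)
  | .inr a => some (.inr a)

/-- The inverse. -/
def vBack {n : ℕ} (i₀ : Fin n) (ι : Type) : Option ({i : Fin n // i ≠ i₀} ⊕ ι) → Fin n ⊕ ι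
  | none => .inl i₀
  | some (.inl i) => .inl i.1
  | some (.inr a) => .inr a

theorem vBack_vEquiv {n : ℕ} (i₀ : Fin n) (ι : Type) (v : Fin n ⊕ ι) :
    vBack i₀ ι (vEquiv i₀ ι v) = v := by
  rcases v with i | a
  · by_cases h : i = i₀
    · subst h
      simp [vEquiv, vBack]
    · simp [vEquiv, vBack, h]
  · rfl

theorem stmt_ALG : Stmt_ALG := by
  intro k _ _ T hdom h1 h2 h0 hj ι D hD n i₀ f g hfg
  have he : T.e ≠ 0 := by
    intro h
    have := T.ey
    rw [h, zero_mul] at this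
    exact zero_ne_one this
  obtain ⟨q, hq⟩ := _root_.MG.Alg.alg (i1 := T.j1) (i2 := T.j2) (e := T.e) (D := D) h2
    (fun a ha => (mul_eq_zero.mp ha).resolve_left he)
    (fun a b hab => by
      obtain ⟨c, hc⟩ := h0 a b hab
      exact ⟨c, hc.symm⟩)
    (fun j hj0 a b hab => hj j (Nat.one_le_iff_ne_zero.mpr hj0) a b hab)
    (fun a r s h => by
      have := (hD.ind (-r) (-s) a (by rw [map_neg, map_neg, h]; ring)).2.2
      exact this)
    (rename (vEquiv i₀ ι) f) (rename (vEquiv i₀ ι) g) (by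
      have e1 : map (T.j1 : T.R1 →+* T.R12) (rename (vEquiv i₀ ι) f) =
          rename (vEquiv i₀ ι) (map (T.j1 : T.R1 →+* T.R12) f) := (map_rename _ _ _)
      rw [e1, hfg]
      have e2 : (rename (vEquiv i₀ ι) : MvPolynomial (Fin n ⊕ ι) T.R12 →ₐ[T.R12]
            MvPolynomial (Option ({i : Fin n // i ≠ i₀} ⊕ ι)) T.R12).toRingHom.comp
          ((aeval (chgV T D i₀) : MvPolynomial (Fin n ⊕ ι) T.R12 →ₐ[T.R12]
            MvPolynomial (Fin n ⊕ ι) T.R12).toRingHom.comp (map (T.j2 : T.R2 →+* T.R12))) =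
          (_root_.MG.Alg.subst T.j2 T.e D).comp
            (rename (vEquiv i₀ ι) : MvPolynomial (Fin n ⊕ ι) T.R2 →ₐ[T.R2]
              MvPolynomial (Option ({i : Fin n // i ≠ i₀} ⊕ ι)) T.R2).toRingHom := by
        apply MvPolynomial.ringHom_ext
        · intro r
          simp [_root_.MG.Alg.subst]
        · rintro (i | a)
          · by_cases h : i = i₀
            · subst h
              simp [chgV, vEquiv, _root_.MG.Alg.subst]
            · simp [chgV, vEquiv, h, _root_.MG.Alg.subst]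
          · simp [chgV, vEquiv, _root_.MG.Alg.subst]
      exact RingHom.congr_fun e2 g)
  refine ⟨q, ?_⟩
  have e3 := congrArg (rename (vBack i₀ ι)) hq
  rw [rename_rename, rename_rename] at e3
  have e4 : vBack i₀ ι ∘ vEquiv i₀ ι = id := by
    funext v
    exact vBack_vEquiv i₀ ι v
  rw [e4, rename_id_apply] at e3
  exact e3

end Pool.Agent.MG
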