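import Pool.Agent.MG.StmtsA

/-!
# RIG: no vector fields on constant families
-/

open CategoryTheory CategoryTheory.Limits AlgebraicGeometry TensorProduct

namespace Pool.Agent.MG

namespace RIG

/-- A derivation over an étale algebra is zero. -/
theorem der0 {P R S : Type} [CommRing P] [CommRing R] [CommRing S] (p : P →+* R) (hp : p.Etale)
    (φ : R →+* S) (d : R →+ S) (hd : ∀ a b, d (a * b) = φ a * d b + φ b * d a)
    (h0 : ∀ q, d (p q) = 0) (a : R) : d a = 0 := by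
  let _ : Algebra P R := p.toAlgebra
  let _ : Algebra R S := φ.toAlgebra
  let _ : Algebra P S := (φ.comp p).toAlgebra
  have : IsScalarTower P R S := IsScalarTower.of_algebraMap_eq' rfl
  have : Algebra.Etale P R := hp
  have h1 : d 1 = 0 := by
    have := h0 1
    rwa [map_one] at this
  let D : Derivation P R S :=
    { toFun := d
      map_add' := map_add d
      map_smul' := fun q r => by
        change d (p q * r) = (φ (p q)) * d r
        rw [hd, h0, mul_zero, add_zero]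
      map_one_eq_zero' := h1
      leibniz' := fun a b => hd a b }
  have : Subsingleton (Ω[R⁄P]) := inferInstance
  have h2 : D.liftKaehlerDifferential (KaehlerDifferential.D P R a) = D a :=
    D.liftKaehlerDifferential_comp_D a
  rw [Subsingleton.elim (KaehlerDifferential.D P R a) 0, map_zero] at h2
  exact h2.symm

/-- A derivation of an algebra which is étale over `k[x]` is determined by its value at `x`. -/
theorem der1 {k R S : Type} [Field k] [CommRing R] [Algebra k R] [CommRing S] (x : R)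
    (hp : (Polynomial.aeval x : Polynomial k →ₐ[k] R).toRingHom.Etale)
    (φ : R →+* S) (d : R →+ S) (hd : ∀ a b, d (a * b) = φ a * d b + φ b * d a)
    (hk : ∀ c : k, d (algebraMap k R c) = 0) (hx : d x = 0) (a : R) : d a = 0 := by
  refine der0 _ hp φ d hd ?_ a
  intro q
  change d (Polynomial.aeval x q) = 0
  induction q using Polynomial.induction_on with
  | C c => rw [Polynomial.aeval_C, hk]
  | add p q hp hq => rw [map_add, map_add, hp, hq, add_zero]
  | monomial n c h =>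
    rw [pow_succ, ← mul_assoc, map_mul, hd, h, Polynomial.aeval_X, hx, mul_zero, mul_zero, add_zero]

section

variable {k : Type} [Field k] {T : TC k} {K : Type} [Field K] [Algebra k K]

/-- `K ⊗ (R₁ ∩ e R₂) = 0`. -/
theorem flat0 (h2 : Function.Injective T.j2)
    (hyp : ∀ (a : T.R1) (b : T.R2), T.j1 a = T.e * T.j2 b → a = 0) (A : K ⊗[k] T.R1)
    (B : K ⊗[k] T.R2)
    (h : Algebra.TensorProduct.map (AlgHom.id k K) T.j1 A =
      (1 ⊗ₜ T.e) * Algebra.TensorProduct.map (AlgHom.id k K) T.j2 B) : A = 0 ∧ B = 0 := by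
  let L2 : T.R2 →ₗ[k] T.R12 := (LinearMap.mulLeft k T.e) ∘ₗ T.j2.toLinearMap
  let L : T.R1 × T.R2 →ₗ[k] T.R12 := T.j1.toLinearMap ∘ₗ LinearMap.fst k T.R1 T.R2 -
    L2 ∘ₗ LinearMap.snd k T.R1 T.R2
  have hL : Function.Injective L := by
    rw [injective_iff_map_eq_zero]
    rintro ⟨a, b⟩ hab
    have h3 : T.j1 a - T.e * T.j2 b = 0 := hab
    have h4 : a = 0 := hyp a b (sub_eq_zero.1 h3)
    have h5 : T.e * T.j2 b = 0 := by
      rw [h4, map_zero, zero_sub, neg_eq_zero] at h3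
      exact h3
    have h6 : T.j2 b = 0 := by
      have := congrArg (fun t => T.dd (T.j2 T.y) * t) h5
      simp only [mul_zero] at this
      rw [← mul_assoc, mul_comm (T.dd _) T.e, T.ey, one_mul] at this
      exact this
    have h7 : b = 0 := h2 (by rw [h6, map_zero])
    rw [h4, h7]
    rfl
  have hK : Function.Injective (LinearMap.lTensor K L) :=
    Module.Flat.lTensor_preserves_injective_linearMap L hL
  let z : K ⊗[k] (T.R1 × T.R2) := LinearMap.lTensor K (LinearMap.inl k T.R1 T.R2) A +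
    LinearMap.lTensor K (LinearMap.inr k T.R1 T.R2) B
  have e1 : ∀ A, Algebra.TensorProduct.map (AlgHom.id k K) T.j1 A =
      LinearMap.lTensor K T.j1.toLinearMap A := by
    intro A
    induction A with
    | zero => simp
    | tmul a b => simp
    | add a b ha hb => rw [map_add, map_add, ha, hb]
  have e2 : ∀ B, (1 ⊗ₜ T.e) * Algebra.TensorProduct.map (AlgHom.id k K) T.j2 B =
      LinearMap.lTensor K L2 B := by
    intro B
    induction B with
    | zero => simp
    | tmul a b => simp [L2]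
    | add a b ha hb => rw [map_add, map_add, mul_add, ha, hb]
  have hz : LinearMap.lTensor K L z = 0 := by
    have i1 : L ∘ₗ LinearMap.inl k T.R1 T.R2 = T.j1.toLinearMap := by
      ext a
      simp [L]
    have i2 : L ∘ₗ LinearMap.inr k T.R1 T.R2 = -L2 := by
      ext a
      simp [L]
    change LinearMap.lTensor K L (LinearMap.lTensor K (LinearMap.inl k T.R1 T.R2) A +
      LinearMap.lTensor K (LinearMap.inr k T.R1 T.R2) B) = 0
    rw [map_add, ← LinearMap.comp_apply, ← LinearMap.comp_apply, ← LinearMap.lTensor_comp,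
      ← LinearMap.lTensor_comp, i1, i2, LinearMap.lTensor_neg, LinearMap.neg_apply, ← e1, ← e2, h,
      add_neg_cancel]
  have hz0 : z = 0 := hK (by rw [hz, map_zero])
  have f1 : LinearMap.lTensor K (LinearMap.fst k T.R1 T.R2) z = A := by
    change LinearMap.lTensor K (LinearMap.fst k T.R1 T.R2) (LinearMap.lTensor K
      (LinearMap.inl k T.R1 T.R2) A + LinearMap.lTensor K (LinearMap.inr k T.R1 T.R2) B) = A
    rw [map_add, ← LinearMap.comp_apply, ← LinearMap.comp_apply, ← LinearMap.lTensor_comp,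
      ← LinearMap.lTensor_comp, LinearMap.fst_comp_inl, LinearMap.fst_comp_inr]
    simp
  have f2 : LinearMap.lTensor K (LinearMap.snd k T.R1 T.R2) z = B := by
    change LinearMap.lTensor K (LinearMap.snd k T.R1 T.R2) (LinearMap.lTensor K
      (LinearMap.inl k T.R1 T.R2) A + LinearMap.lTensor K (LinearMap.inr k T.R1 T.R2) B) = B
    rw [map_add, ← LinearMap.comp_apply, ← LinearMap.comp_apply, ← LinearMap.lTensor_comp,
      ← LinearMap.lTensor_comp, LinearMap.snd_comp_inl, LinearMap.snd_comp_inr]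
    simp
  rw [hz0, map_zero] at f1 f2
  exact ⟨f1.symm, f2.symm⟩

/-- The composite `a ↦ D (1 ⊗ a)`. -/
noncomputable def one {R : Type} [CommRing R] [Algebra k R] {M : Type} [AddCommGroup M]
    (D : K ⊗[k] R →+ M) : R →+ M where
  toFun a := D (1 ⊗ₜ a)
  map_zero' := by rw [TensorProduct.tmul_zero, map_zero]
  map_add' a b := by rw [TensorProduct.tmul_add, map_add]

/-- A `K`-linear derivation of `K ⊗ R` which vanishes at the coordinate is zero. -/
theorem der2 {R : Type} [CommRing R] [Algebra k R] (x : R)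
    (hp : (Polynomial.aeval x : Polynomial k →ₐ[k] R).toRingHom.Etale)
    (D : K ⊗[k] R →+ K ⊗[k] R) (hD : ∀ a b, D (a * b) = a * D b + b * D a)
    (hc : ∀ c : K, D (c ⊗ₜ 1) = 0) (hx : D (1 ⊗ₜ x) = 0) : D = 0 := by
  have h := der1 x hp
    (Algebra.TensorProduct.includeRight : R →ₐ[k] K ⊗[k] R).toRingHom (one D) ?_ ?_ hx
  · ext v
    induction v with
    | zero => simp
    | tmul b r =>
      have : b ⊗ₜ[k] r = (b ⊗ₜ 1) * (1 ⊗ₜ r) := by simp
      rw [this, hD, hc, mul_zero, add_zero]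
      have h3 : D (1 ⊗ₜ r) = 0 := h r
      rw [h3, mul_zero]
      rfl
    | add u v hu hv => rw [map_add, map_add, hu, hv]
  · intro a b
    change D (1 ⊗ₜ (a * b)) = (1 ⊗ₜ a) * D (1 ⊗ₜ b) + (1 ⊗ₜ b) * D (1 ⊗ₜ a)
    rw [← hD, Algebra.TensorProduct.tmul_mul_tmul, one_mul]
  · intro c
    change D (1 ⊗ₜ algebraMap k R c) = 0
    have : (1 : K) ⊗ₜ[k] algebraMap k R c = (algebraMap k K c) ⊗ₜ 1 := by
      rw [Algebra.algebraMap_eq_smul_one, Algebra.algebraMap_eq_smul_one, TensorProduct.smul_tmul]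
    rw [this, hc]

/-- Compatible derivations of `K ⊗ R₁`, `K ⊗ R₂`, `K ⊗ R₁₂` vanish. -/
theorem alg (h2 : Function.Injective T.j2)
    (hyp : ∀ (a : T.R1) (b : T.R2), T.j1 a = T.e * T.j2 b → a = 0)
    (D1 : K ⊗[k] T.R1 →+ K ⊗[k] T.R1) (D2 : K ⊗[k] T.R2 →+ K ⊗[k] T.R2)
    (D12 : K ⊗[k] T.R12 →+ K ⊗[k] T.R12)
    (l1 : ∀ a b, D1 (a * b) = a * D1 b + b * D1 a) (c1 : ∀ c : K, D1 (c ⊗ₜ 1) = 0)
    (l2 : ∀ a b, D2 (a * b) = a * D2 b + b * D2 a) (c2 : ∀ c : K, D2 (c ⊗ₜ 1) = 0)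
    (l12 : ∀ a b, D12 (a * b) = a * D12 b + b * D12 a) (c12 : ∀ c : K, D12 (c ⊗ₜ 1) = 0)
    (r1 : ∀ a, D12 (Algebra.TensorProduct.map (AlgHom.id k K) T.j1 a) =
      Algebra.TensorProduct.map (AlgHom.id k K) T.j1 (D1 a))
    (r2 : ∀ a, D12 (Algebra.TensorProduct.map (AlgHom.id k K) T.j2 a) =
      Algebra.TensorProduct.map (AlgHom.id k K) T.j2 (D2 a)) : D1 = 0 ∧ D2 = 0 := by
  set r := D12 (1 ⊗ₜ T.j1 T.x) with hr
  have hc : ∀ c : k, D12 (1 ⊗ₜ algebraMap k T.R12 c) = 0 := by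
    intro c
    have : (1 : K) ⊗ₜ[k] algebraMap k T.R12 c = (algebraMap k K c) ⊗ₜ 1 := by
      rw [Algebra.algebraMap_eq_smul_one, Algebra.algebraMap_eq_smul_one, TensorProduct.smul_tmul]
    rw [this, c12]
  have key : ∀ a : T.R12, D12 (1 ⊗ₜ a) - r * (1 ⊗ₜ T.dd a) = 0 := by
    let d : T.R12 →+ K ⊗[k] T.R12 :=
      { toFun := fun a => D12 (1 ⊗ₜ a) - r * (1 ⊗ₜ T.dd a)
        map_zero' := by simp
        map_add' := fun a b => by
          rw [TensorProduct.tmul_add, map_add, map_add, TensorProduct.tmul_add]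
          ring }
    have het : (Polynomial.aeval (T.j1 T.x) : Polynomial k →ₐ[k] T.R12).toRingHom.Etale := by
      have h := RingHom.Etale.stableUnderComposition _ _ T.etx T.et1
      have h3 : (Polynomial.aeval (T.j1 T.x) : Polynomial k →ₐ[k] T.R12) =
          T.j1.comp (Polynomial.aeval T.x) := by
        ext
        simp
      rw [h3]
      exact h
    refine der1 (T.j1 T.x) het
      (Algebra.TensorProduct.includeRight : T.R12 →ₐ[k] K ⊗[k] T.R12).toRingHom d ?_ ?_ ?_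
    · intro a b
      change D12 (1 ⊗ₜ (a * b)) - r * (1 ⊗ₜ T.dd (a * b)) =
        (1 ⊗ₜ a) * (D12 (1 ⊗ₜ b) - r * (1 ⊗ₜ T.dd b)) +
        (1 ⊗ₜ b) * (D12 (1 ⊗ₜ a) - r * (1 ⊗ₜ T.dd a))
      have e1 : (1 : K) ⊗ₜ[k] (a * b) = (1 ⊗ₜ a) * (1 ⊗ₜ b) := by
        rw [Algebra.TensorProduct.tmul_mul_tmul, one_mul]
      have e2 : (1 : K) ⊗ₜ[k] (T.dd (a * b)) = (1 ⊗ₜ a) * (1 ⊗ₜ T.dd b) +
          (1 ⊗ₜ b) * (1 ⊗ₜ T.dd a) := by
        rw [Derivation.leibniz, smul_eq_mul, smul_eq_mul, TensorProduct.tmul_add,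
          Algebra.TensorProduct.tmul_mul_tmul, Algebra.TensorProduct.tmul_mul_tmul, one_mul]
      rw [e1, l12, e2]
      ring
    · intro c
      change D12 (1 ⊗ₜ algebraMap k T.R12 c) - r * (1 ⊗ₜ T.dd (algebraMap k T.R12 c)) = 0
      rw [hc, Derivation.map_algebraMap, TensorProduct.tmul_zero, mul_zero, sub_zero]
    · change D12 (1 ⊗ₜ T.j1 T.x) - r * (1 ⊗ₜ T.dd (T.j1 T.x)) = 0
      rw [T.ddx, ← hr, ← Algebra.TensorProduct.one_def, mul_one, sub_self]
  have hy : (1 ⊗ₜ T.e) * D12 (1 ⊗ₜ T.j2 T.y) = r := by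
    have h := sub_eq_zero.1 (key (T.j2 T.y))
    rw [h, mul_left_comm, Algebra.TensorProduct.tmul_mul_tmul, one_mul, T.ey,
      ← Algebra.TensorProduct.one_def, mul_one]
  have e1 : Algebra.TensorProduct.map (AlgHom.id k K) T.j1 (1 ⊗ₜ T.x) = 1 ⊗ₜ T.j1 T.x := by simp
  have e2 : Algebra.TensorProduct.map (AlgHom.id k K) T.j2 (1 ⊗ₜ T.y) = 1 ⊗ₜ T.j2 T.y := by simp
  have hAB := flat0 h2 hyp (D1 (1 ⊗ₜ T.x)) (D2 (1 ⊗ₜ T.y)) (by
    rw [← r1, ← r2, e1, e2, hy])
  exact ⟨der2 T.x T.etx D1 l1 c1 hAB.1, der2 T.y T.ety D2 l2 c2 hAB.2⟩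

end

section geo

variable {n : ℕ} {K : Type} [Field K] {x : Fam n K} (v : VField x)

theorem dres {U V : x.X.Opens} (h : U ≤ V) (a : Γ(x.X, V)) :
    v.D U (rs x.X h a) = rs x.X h (v.D V a) := v.res U V h a

/-- A derivation which vanishes on the functions on an affine open vanishes on the functions on its
basic opens. -/
theorem basic0 {W : x.X.Opens} (hW : IsAffineOpen W) (h0 : v.D W = 0) (f : Γ(x.X, W)) :
    v.D (x.X.basicOpen f) = 0 := by
  have := hW.isLocalization_basicOpen f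
  ext s
  obtain ⟨⟨a, ⟨_, m, rfl⟩⟩, hs⟩ := IsLocalization.surj (Submonoid.powers f) s
  have hle : x.X.basicOpen f ≤ W := x.X.basicOpen_le f
  have e : ∀ b : Γ(x.X, W), algebraMap Γ(x.X, W) Γ(x.X, x.X.basicOpen f) b = rs x.X hle b :=
    fun _ => rfl
  have hz : ∀ b : Γ(x.X, W), v.D (x.X.basicOpen f)
      (algebraMap Γ(x.X, W) Γ(x.X, x.X.basicOpen f) b) = 0 := by
    intro b
    rw [e, dres, h0]
    exact map_zero _
  have h1 := congrArg (v.D (x.X.basicOpen f)) hs
  rw [hz, v.mul, hz, mul_zero, zero_add] at h1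
  have hu : IsUnit (algebraMap Γ(x.X, W) Γ(x.X, x.X.basicOpen f) (f ^ m)) :=
    IsLocalization.map_units (M := Submonoid.powers f) _ ⟨f ^ m, m, rfl⟩
  exact (hu.mul_right_eq_zero).1 h1

theorem all0 {U1 U2 : x.X.Opens} (hc : U1 ⊔ U2 = ⊤) (a1 : IsAffineOpen U1) (a2 : IsAffineOpen U2)
    (h1 : v.D U1 = 0) (h2 : v.D U2 = 0) (U : x.X.Opens) : v.D U = 0 := by
  have hloc : ∀ p : U, ∃ (V : x.X.Opens) (_ : V ≤ U), p.1 ∈ V ∧ v.D V = 0 := by
    intro p
    have hp : p.1 ∈ U1 ⊔ U2 := by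
      rw [hc]
      trivial
    rcases hp with hp | hp
    · obtain ⟨f, hf, hpf⟩ := a1.exists_basicOpen_le p hp
      exact ⟨_, hf, hpf, basic0 v a1 h1 f⟩
    · obtain ⟨f, hf, hpf⟩ := a2.exists_basicOpen_le p hp
      exact ⟨_, hf, hpf, basic0 v a2 h2 f⟩
  choose V hV hpV hDV using hloc
  ext s
  refine x.X.sheaf.eq_of_locally_eq' V U (fun p => homOfLE (hV p)) ?_ _ _ ?_
  · intro p hp
    rw [TopologicalSpace.Opens.mem_iSup]
    exact ⟨⟨p, hp⟩, hpV ⟨p, hp⟩⟩
  · intro p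
    change rs x.X (hV p) (v.D U s) = rs x.X (hV p) 0
    rw [← dres, hDV, map_zero]
    rfl

end geo

end RIG

open RIG in
theorem t_RIG (hCHB : Stmt_CHB) : Stmt_RIG := by
  intro n k _ C T ch hyp K _ _ τ hτ v U
  obtain ⟨c, hc⟩ := hCHB ch.ct ch.aff K τ hτ
  have haff : IsAffineHom (pullback.fst C.π (spMap (algebraMap k K))) :=
    MorphismProperty.pullback_fst _ _ inferInstance
  have a1 : IsAffineOpen c.U1 := by
    rw [← hc.h1]
    exact ch.aff.aff1.preimage (pullback.fst C.π (spMap (algebraMap k K)))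
  have a2 : IsAffineOpen c.U2 := by
    rw [← hc.h2]
    exact ch.aff.aff2.preimage (pullback.fst C.π (spMap (algebraMap k K)))
  let D1 : K ⊗[k] T.R1 →+ K ⊗[k] T.R1 :=
    (c.eq1.symm : _ →+ _).comp ((v.D c.U1).comp (c.eq1 : _ →+ _))
  let D2 : K ⊗[k] T.R2 →+ K ⊗[k] T.R2 :=
    (c.eq2.symm : _ →+ _).comp ((v.D c.U2).comp (c.eq2 : _ →+ _))
  let D12 : K ⊗[k] T.R12 →+ K ⊗[k] T.R12 :=
    (c.eq12.symm : _ →+ _).comp ((v.D (c.U1 ⊓ c.U2)).comp (c.eq12 : _ →+ _))
  have d1 : ∀ a, D1 a = c.eq1.symm (v.D c.U1 (c.eq1 a)) := fun _ => rfl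
  have d2 : ∀ a, D2 a = c.eq2.symm (v.D c.U2 (c.eq2 a)) := fun _ => rfl
  have d12 : ∀ a, D12 a = c.eq12.symm (v.D (c.U1 ⊓ c.U2) (c.eq12 a)) := fun _ => rfl
  have R1 : ∀ a, rs (constFam C K τ hτ).X inf_le_left (c.eq1 a) =
    c.eq12 (Algebra.TensorProduct.map (AlgHom.id k K) T.j1 a) := fun a => c.rs1 a
  have R2 : ∀ a, rs (constFam C K τ hτ).X inf_le_right (c.eq2 a) =
    c.eq12 (Algebra.TensorProduct.map (AlgHom.id k K) T.j2 a) := fun a => c.rs2 a
  have key := alg ch.inj2 hyp D1 D2 D12 ?_ ?_ ?_ ?_ ?_ ?_ ?_ ?_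
  · refine all0 v c.cover a1 a2 ?_ ?_ U
    · ext s
      have h := DFunLike.congr_fun key.1 (c.eq1.symm s)
      rw [d1, c.eq1.apply_symm_apply] at h
      exact (map_eq_zero_iff _ c.eq1.symm.injective).1 h
    · ext s
      have h := DFunLike.congr_fun key.2 (c.eq2.symm s)
      rw [d2, c.eq2.apply_symm_apply] at h
      exact (map_eq_zero_iff _ c.eq2.symm.injective).1 h
  · intro a b
    rw [d1, d1, d1, RingEquiv.symm_apply_eq, map_mul, v.mul, map_add, map_mul, map_mul,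
      c.eq1.apply_symm_apply, c.eq1.apply_symm_apply]
  · intro b
    rw [d1, RingEquiv.symm_apply_eq, map_zero]
    exact (congrArg (v.D c.U1) (c.c1 b)).trans (v.const _ _)
  · intro a b
    rw [d2, d2, d2, RingEquiv.symm_apply_eq, map_mul, v.mul, map_add, map_mul, map_mul,
      c.eq2.apply_symm_apply, c.eq2.apply_symm_apply]
  · intro b
    rw [d2, RingEquiv.symm_apply_eq, map_zero]
    exact (congrArg (v.D c.U2) (c.c2 b)).trans (v.const _ _)
  · intro a b
    rw [d12, d12, d12, RingEquiv.symm_apply_eq, map_mul, v.mul, map_add, map_mul, map_mul,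
      c.eq12.apply_symm_apply, c.eq12.apply_symm_apply]
  · intro b
    rw [d12, RingEquiv.symm_apply_eq, map_zero]
    exact (congrArg (v.D (c.U1 ⊓ c.U2)) (c.c12 b)).trans (v.const _ _)
  · intro a
    rw [d12, d1, RingEquiv.symm_apply_eq, ← R1, ← R1, c.eq1.apply_symm_apply, dres]
  · intro a
    rw [d12, d2, RingEquiv.symm_apply_eq, ← R2, ← R2, c.eq2.apply_symm_apply, dres]

end Pool.Agent.MG
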