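import Pool.Agent.MG.StmtsBub
import Pool.Agent.MG.RIG

/-!
# ALGW: rigidity of the constant family under the weaker hypothesis
-/

open CategoryTheory CategoryTheory.Limits AlgebraicGeometry TensorProduct

namespace Pool.Agent.MG

namespace ALGW

section

variable {k : Type} [Field k] {T : TC k} {K : Type} [Field K] [Algebra k K]

/-- `K ⊗ {a ∈ R₁ ∩ e R₂ : a(p) = 0} = 0`. -/
theorem flat0 (h2 : Function.Injective T.j2) (pt : T.R1 →ₐ[k] k)
    (hyp : ∀ (a : T.R1) (b : T.R2), T.j1 a = T.e * T.j2 b → pt a = 0 → a = 0) (A : K ⊗[k] T.R1)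
    (B : K ⊗[k] T.R2)
    (h : Algebra.TensorProduct.map (AlgHom.id k K) T.j1 A =
      (1 ⊗ₜ T.e) * Algebra.TensorProduct.map (AlgHom.id k K) T.j2 B)
    (hA : LinearMap.lTensor K pt.toLinearMap A = 0) : A = 0 ∧ B = 0 := by
  let L2 : T.R2 →ₗ[k] T.R12 := (LinearMap.mulLeft k T.e) ∘ₗ T.j2.toLinearMap
  let L0 : T.R1 × T.R2 →ₗ[k] T.R12 := T.j1.toLinearMap ∘ₗ LinearMap.fst k T.R1 T.R2 -
    L2 ∘ₗ LinearMap.snd k T.R1 T.R2
  let L : T.R1 × T.R2 →ₗ[k] T.R12 × k :=
    LinearMap.prod L0 (pt.toLinearMap ∘ₗ LinearMap.fst k T.R1 T.R2)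
  have hL : Function.Injective L := by
    rw [injective_iff_map_eq_zero]
    rintro ⟨a, b⟩ hab
    have h3 : T.j1 a - T.e * T.j2 b = 0 := congrArg Prod.fst hab
    have h3' : pt a = 0 := congrArg Prod.snd hab
    have h4 : a = 0 := hyp a b (sub_eq_zero.1 h3) h3'
    have h5 : T.e * T.j2 b = 0 := by
      rw [h4, map_zero, zero_sub, neg_eq_zero] at h3
      exact h3
    have h6 : T.j2 b = 0 := by
      have := congrArg (fun t => T.dd (T.j2 T.y) * t) h5
      simp only [mul_zero] at this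
      rw [← mul_assoc, mul_comm (T.dd _) T.e, T.ey, one_mul] at this
      exact this
    have h7 : b = 0 := h2 (by rw [h6, map_zero])
    rw [h4, h7]
    rfl
  have hK : Function.Injective (LinearMap.lTensor K L) :=
    Module.Flat.lTensor_preserves_injective_linearMap L hL
  let z : K ⊗[k] (T.R1 × T.R2) := LinearMap.lTensor K (LinearMap.inl k T.R1 T.R2) A +
    LinearMap.lTensor K (LinearMap.inr k T.R1 T.R2) B
  have e1 : ∀ A, Algebra.TensorProduct.map (AlgHom.id k K) T.j1 A =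
      LinearMap.lTensor K T.j1.toLinearMap A := by
    intro A
    induction A with
    | zero => simp
    | tmul a b => simp
    | add a b ha hb => rw [map_add, map_add, ha, hb]
  have e2 : ∀ B, (1 ⊗ₜ T.e) * Algebra.TensorProduct.map (AlgHom.id k K) T.j2 B =
      LinearMap.lTensor K L2 B := by
    intro B
    induction B with
    | zero => simp
    | tmul a b => simp [L2]
    | add a b ha hb => rw [map_add, map_add, mul_add, ha, hb]
  have hz0' : LinearMap.lTensor K L0 z = 0 := by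
    have i1 : L0 ∘ₗ LinearMap.inl k T.R1 T.R2 = T.j1.toLinearMap := by
      ext a
      simp [L0]
    have i2 : L0 ∘ₗ LinearMap.inr k T.R1 T.R2 = -L2 := by
      ext a
      simp [L0]
    change LinearMap.lTensor K L0 (LinearMap.lTensor K (LinearMap.inl k T.R1 T.R2) A +
      LinearMap.lTensor K (LinearMap.inr k T.R1 T.R2) B) = 0
    rw [map_add, ← LinearMap.comp_apply, ← LinearMap.comp_apply, ← LinearMap.lTensor_comp,
      ← LinearMap.lTensor_comp, i1, i2, LinearMap.lTensor_neg, LinearMap.neg_apply, ← e1, ← e2, h,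
      add_neg_cancel]
  have f1 : LinearMap.lTensor K (LinearMap.fst k T.R1 T.R2) z = A := by
    change LinearMap.lTensor K (LinearMap.fst k T.R1 T.R2) (LinearMap.lTensor K
      (LinearMap.inl k T.R1 T.R2) A + LinearMap.lTensor K (LinearMap.inr k T.R1 T.R2) B) = A
    rw [map_add, ← LinearMap.comp_apply, ← LinearMap.comp_apply, ← LinearMap.lTensor_comp,
      ← LinearMap.lTensor_comp, LinearMap.fst_comp_inl, LinearMap.fst_comp_inr]
    simp
  have f2 : LinearMap.lTensor K (LinearMap.snd k T.R1 T.R2) z = B := by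
    change LinearMap.lTensor K (LinearMap.snd k T.R1 T.R2) (LinearMap.lTensor K
      (LinearMap.inl k T.R1 T.R2) A + LinearMap.lTensor K (LinearMap.inr k T.R1 T.R2) B) = B
    rw [map_add, ← LinearMap.comp_apply, ← LinearMap.comp_apply, ← LinearMap.lTensor_comp,
      ← LinearMap.lTensor_comp, LinearMap.snd_comp_inl, LinearMap.snd_comp_inr]
    simp
  have g1 : LinearMap.lTensor K (LinearMap.fst k T.R12 k) (LinearMap.lTensor K L z) = 0 := by
    rw [← LinearMap.comp_apply, ← LinearMap.lTensor_comp]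
    exact hz0'
  have g2 : LinearMap.lTensor K (LinearMap.snd k T.R12 k) (LinearMap.lTensor K L z) = 0 := by
    rw [← LinearMap.comp_apply, ← LinearMap.lTensor_comp]
    change LinearMap.lTensor K (pt.toLinearMap ∘ₗ LinearMap.fst k T.R1 T.R2) z = 0
    rw [LinearMap.lTensor_comp, LinearMap.comp_apply, f1, hA]
  have hsplit : ∀ w : K ⊗[k] (T.R12 × k), w =
      LinearMap.lTensor K (LinearMap.inl k T.R12 k)
        (LinearMap.lTensor K (LinearMap.fst k T.R12 k) w) +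
      LinearMap.lTensor K (LinearMap.inr k T.R12 k)
        (LinearMap.lTensor K (LinearMap.snd k T.R12 k) w) := by
    intro w
    induction w with
    | zero => simp
    | tmul a b =>
      simp only [LinearMap.lTensor_tmul, LinearMap.fst_apply, LinearMap.snd_apply,
        LinearMap.inl_apply, LinearMap.inr_apply]
      rw [← TensorProduct.tmul_add]
      simp
    | add a b ha hb =>
      simp only [map_add]
      calc a + b = _ + _ := congrArg₂ (· + ·) ha hb
        _ = _ := by abel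
  have hz : LinearMap.lTensor K L z = 0 := by
    rw [hsplit (LinearMap.lTensor K L z), g1, g2, map_zero, map_zero, add_zero]
  have hz0 : z = 0 := hK (by rw [hz, map_zero])
  rw [hz0, map_zero] at f1 f2
  exact ⟨f1.symm, f2.symm⟩

/-- Compatible derivations of `K ⊗ R₁`, `K ⊗ R₂`, `K ⊗ R₁₂` vanish. -/
theorem alg (h2 : Function.Injective T.j2) (pt : T.R1 →ₐ[k] k)
    (hyp : ∀ (a : T.R1) (b : T.R2), T.j1 a = T.e * T.j2 b → pt a = 0 → a = 0)
    (D1 : K ⊗[k] T.R1 →+ K ⊗[k] T.R1) (D2 : K ⊗[k] T.R2 →+ K ⊗[k] T.R2)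
    (D12 : K ⊗[k] T.R12 →+ K ⊗[k] T.R12)
    (l1 : ∀ a b, D1 (a * b) = a * D1 b + b * D1 a) (c1 : ∀ c : K, D1 (c ⊗ₜ 1) = 0)
    (l2 : ∀ a b, D2 (a * b) = a * D2 b + b * D2 a) (c2 : ∀ c : K, D2 (c ⊗ₜ 1) = 0)
    (l12 : ∀ a b, D12 (a * b) = a * D12 b + b * D12 a) (c12 : ∀ c : K, D12 (c ⊗ₜ 1) = 0)
    (r1 : ∀ a, D12 (Algebra.TensorProduct.map (AlgHom.id k K) T.j1 a) =
      Algebra.TensorProduct.map (AlgHom.id k K) T.j1 (D1 a))
    (r2 : ∀ a, D12 (Algebra.TensorProduct.map (AlgHom.id k K) T.j2 a) =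
      Algebra.TensorProduct.map (AlgHom.id k K) T.j2 (D2 a))
    (hpt : ∀ a, LinearMap.lTensor K pt.toLinearMap (D1 a) = 0) : D1 = 0 ∧ D2 = 0 := by
  set r := D12 (1 ⊗ₜ T.j1 T.x) with hr
  have hc : ∀ c : k, D12 (1 ⊗ₜ algebraMap k T.R12 c) = 0 := by
    intro c
    have : (1 : K) ⊗ₜ[k] algebraMap k T.R12 c = (algebraMap k K c) ⊗ₜ 1 := by
      rw [Algebra.algebraMap_eq_smul_one, Algebra.algebraMap_eq_smul_one, TensorProduct.smul_tmul]
    rw [this, c12]
  have key : ∀ a : T.R12, D12 (1 ⊗ₜ a) - r * (1 ⊗ₜ T.dd a) = 0 := by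
    let d : T.R12 →+ K ⊗[k] T.R12 :=
      { toFun := fun a => D12 (1 ⊗ₜ a) - r * (1 ⊗ₜ T.dd a)
        map_zero' := by simp
        map_add' := fun a b => by
          rw [TensorProduct.tmul_add, map_add, map_add, TensorProduct.tmul_add]
          ring }
    have het : (Polynomial.aeval (T.j1 T.x) : Polynomial k →ₐ[k] T.R12).toRingHom.Etale := by
      have h := RingHom.Etale.stableUnderComposition _ _ T.etx T.et1
      have h3 : (Polynomial.aeval (T.j1 T.x) : Polynomial k →ₐ[k] T.R12) =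
          T.j1.comp (Polynomial.aeval T.x) := by
        ext
        simp
      rw [h3]
      exact h
    refine RIG.der1 (T.j1 T.x) het
      (Algebra.TensorProduct.includeRight : T.R12 →ₐ[k] K ⊗[k] T.R12).toRingHom d ?_ ?_ ?_
    · intro a b
      change D12 (1 ⊗ₜ (a * b)) - r * (1 ⊗ₜ T.dd (a * b)) =
        (1 ⊗ₜ a) * (D12 (1 ⊗ₜ b) - r * (1 ⊗ₜ T.dd b)) +
        (1 ⊗ₜ b) * (D12 (1 ⊗ₜ a) - r * (1 ⊗ₜ T.dd a))
      have e1 : (1 : K) ⊗ₜ[k] (a * b) = (1 ⊗ₜ a) * (1 ⊗ₜ b) := by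
        rw [Algebra.TensorProduct.tmul_mul_tmul, one_mul]
      have e2 : (1 : K) ⊗ₜ[k] (T.dd (a * b)) = (1 ⊗ₜ a) * (1 ⊗ₜ T.dd b) +
          (1 ⊗ₜ b) * (1 ⊗ₜ T.dd a) := by
        rw [Derivation.leibniz, smul_eq_mul, smul_eq_mul, TensorProduct.tmul_add,
          Algebra.TensorProduct.tmul_mul_tmul, Algebra.TensorProduct.tmul_mul_tmul, one_mul]
      rw [e1, l12, e2]
      ring
    · intro c
      change D12 (1 ⊗ₜ algebraMap k T.R12 c) - r * (1 ⊗ₜ T.dd (algebraMap k T.R12 c)) = 0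
      rw [hc, Derivation.map_algebraMap, TensorProduct.tmul_zero, mul_zero, sub_zero]
    · change D12 (1 ⊗ₜ T.j1 T.x) - r * (1 ⊗ₜ T.dd (T.j1 T.x)) = 0
      rw [T.ddx, ← hr, ← Algebra.TensorProduct.one_def, mul_one, sub_self]
  have hy : (1 ⊗ₜ T.e) * D12 (1 ⊗ₜ T.j2 T.y) = r := by
    have h := sub_eq_zero.1 (key (T.j2 T.y))
    rw [h, mul_left_comm, Algebra.TensorProduct.tmul_mul_tmul, one_mul, T.ey,
      ← Algebra.TensorProduct.one_def, mul_one]
  have e1 : Algebra.TensorProduct.map (AlgHom.id k K) T.j1 (1 ⊗ₜ T.x) = 1 ⊗ₜ T.j1 T.x := by simp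
  have e2 : Algebra.TensorProduct.map (AlgHom.id k K) T.j2 (1 ⊗ₜ T.y) = 1 ⊗ₜ T.j2 T.y := by simp
  have hAB := flat0 h2 pt hyp (D1 (1 ⊗ₜ T.x)) (D2 (1 ⊗ₜ T.y)) (by
    rw [← r1, ← r2, e1, e2, hy]) (hpt _)
  exact ⟨RIG.der2 T.x T.etx D1 l1 c1 hAB.1, RIG.der2 T.y T.ety D2 l2 c2 hAB.2⟩

end

end ALGW

theorem t_ALGW : Stmt_ALGW := by
  intro n k _ C T ch j hyp K _ _ D1 D2 D12 h1 h2 h12 r1 r2 hev
  refine ALGW.alg ch.inj2 (ch.pt j) hyp D1 D2 D12 h1.mul h1.const h2.mul h2.const h12.mul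
    h12.const r1 r2 ?_
  intro a
  have hrid : ∀ A : K ⊗[k] T.R1, TensorProduct.rid k K
      (LinearMap.lTensor K (ch.pt j).toLinearMap A) = evB ch j K A := by
    intro A
    induction A with
    | zero => simp
    | tmul b r =>
      rw [evB_tmul, LinearMap.lTensor_tmul, TensorProduct.rid_tmul, Algebra.smul_def, mul_comm]
      rfl
    | add u v hu hv => rw [map_add, map_add, map_add, hu, hv]
  have h := hrid (D1 a)
  rw [hev] at h
  exact (LinearEquiv.map_eq_zero_iff _).1 h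

end Pool.Agent.MG
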