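import Pool.Agent.MG.StmtsA

/-!
# Classes and morphisms of ring data
-/

open CategoryTheory CategoryTheory.Limits AlgebraicGeometry TensorProduct

namespace Pool.Agent.MG

namespace AN

variable {k : Type} [Field k] {T : TC k} {B : Type} [CommRing B] [Algebra k B]
  {E J : Type} [CommRing E] [Fintype J] {S : SqE B E J}
  {B' : Type} [CommRing B'] [Algebra k B'] {E' J' : Type} [CommRing E'] [Fintype J']
  {S' : SqE B' E' J'} {φ : B →ₐ[k] B'} {m : J → J' → B'}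

theorem sum_swap (Φ : SqHom S S' (φ : B →+* B') m) {G : Type} [CommRing G] (a : E' →+* G)
    (w : J → G) : ∑ j, a (Φ.Φ (S.ε j)) * w j =
      ∑ l, a (S'.ε l) * ∑ j, a (S'.i (m j l)) * w j := by
  simp_rw [Φ.he, map_sum, map_mul, Finset.mul_sum, Finset.sum_mul]
  rw [Finset.sum_comm]
  refine Finset.sum_congr rfl fun l _ => Finset.sum_congr rfl fun j _ => ?_
  ring

theorem val_push (Φ : SqHom S S' (φ : B →+* B') m) (b : B) (δ : J → B) :
    Φ.Φ (S.i b + ∑ j, S.ε j * S.i (δ j)) =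
      S'.i (φ b) + ∑ l, S'.ε l * S'.i (∑ j, m j l * φ (δ j)) := by
  rw [map_add, Φ.hi, map_sum]
  have h := sum_swap Φ (RingHom.id E') (fun j => S'.i (φ (δ j)))
  simp only [RingHom.id_apply] at h
  have h2 : ∑ j, Φ.Φ (S.ε j * S.i (δ j)) = ∑ j, Φ.Φ (S.ε j) * S'.i (φ (δ j)) := by
    refine Finset.sum_congr rfl fun j _ => ?_
    rw [map_mul, Φ.hi]
    rfl
  rw [h2, h]
  congr 1
  refine Finset.sum_congr rfl fun l _ => ?_
  rw [map_sum]
  congr 1
  refine Finset.sum_congr rfl fun j _ => ?_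
  rw [map_mul]

theorem dlt_push {Φ : SqHom S S' (φ : B →+* B') m} {D : RData T S} {D' : RData T S'}
    (u : RHom Φ D D') (s : Pt T B) (γ : D.Sec s) (γ' : D'.Sec (s.map φ)) (hγ : u.Sec s γ γ')
    (v1 : D.G1) (v2 : D.G2) (δ : J → B) (hd : D.Dlt v1 v2 s γ δ) :
    D'.Dlt (u.u1 v1) (u.u2 v2) (s.map φ) γ' (fun l => ∑ j, m j l * φ (δ j)) := by
  cases s with
  | one ψ =>
    have h1 : RData.Sec1.g γ' (u.u1 v1) = Φ.Φ (RData.Sec1.g γ v1) := hγ v1
    have h2 : RData.Sec1.g γ v1 = S.i (ψ T.x) + ∑ j, S.ε j * S.i (δ j) := hd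
    show RData.Sec1.g γ' (u.u1 v1) = S'.i (φ (ψ T.x)) + ∑ l, S'.ε l * S'.i (∑ j, m j l * φ (δ j))
    rw [h1, h2, val_push]
  | two ψ =>
    have h1 : RData.Sec2.g γ' (u.u2 v2) = Φ.Φ (RData.Sec2.g γ v2) := hγ v2
    have h2 : RData.Sec2.g γ v2 = S.i (ψ T.y) + ∑ j, S.ε j * S.i (δ j) := hd
    show RData.Sec2.g γ' (u.u2 v2) = S'.i (φ (ψ T.y)) + ∑ l, S'.ε l * S'.i (∑ j, m j l * φ (δ j))
    rw [h1, h2, val_push]

end AN

theorem t_AN : Stmt_AN := by
  intro n k _ T B _ _ E J _ _ S B' _ _ E' J' _ _ S' φ m Φ D D' u s γ γ' hγ h δ ⟨R⟩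
  refine ⟨{
    θ1 := u.u1.comp R.θ1
    θ2 := u.u2.comp R.θ2
    k1 := fun c => ?_
    k2 := fun c => ?_
    l1 := fun a => ?_
    l2 := fun a => ?_
    t1 := u.u12.comp R.t1
    t2 := u.u12.comp R.t2
    e1 := fun a => ?_
    e2 := fun a => ?_
    lt1 := fun a => ?_
    lt2 := fun a => ?_
    diff := fun a => ?_
    dl := fun i => ?_ }⟩
  · show u.u1 (R.θ1 _) = _
    rw [R.k1, u.ua1, Φ.hi]
    congr 2
    exact φ.commutes c
  · show u.u2 (R.θ2 _) = _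
    rw [R.k2, u.ua2, Φ.hi]
    congr 2
    exact φ.commutes c
  · show D'.q1 (u.u1 (R.θ1 a)) = _
    rw [u.uq1, R.l1, Algebra.TensorProduct.map_tmul, map_one]
    rfl
  · show D'.q2 (u.u2 (R.θ2 a)) = _
    rw [u.uq2, R.l2, Algebra.TensorProduct.map_tmul, map_one]
    rfl
  · show u.u12 (R.t1 _) = D'.f1 (u.u1 (R.θ1 a))
    rw [R.e1, u.uf1]
  · show u.u12 (R.t2 _) = D'.f2 (u.u2 (R.θ2 a))
    rw [R.e2, u.uf2]
  · show D'.q12 (u.u12 (R.t1 a)) = _
    rw [u.uq12, R.lt1, Algebra.TensorProduct.map_tmul, map_one]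
    rfl
  · show D'.q12 (u.u12 (R.t2 a)) = _
    rw [u.uq12, R.lt2, Algebra.TensorProduct.map_tmul, map_one]
    rfl
  · obtain ⟨v, hv, hd⟩ := R.diff a
    refine ⟨fun l => ∑ j, D'.a12 (S'.i (m j l)) * u.u12 (v j), fun l => ?_, ?_⟩
    · rw [map_sum]
      unfold pushh
      rw [Finset.sum_mul]
      refine Finset.sum_congr rfl fun j _ => ?_
      rw [map_mul, D'.qa12, S'.pi, u.uq12, hv, map_mul, Algebra.TensorProduct.map_tmul, map_one,
        ← mul_assoc]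
      congr 1
      rw [Algebra.smul_def]
      rfl
    · show u.u12 (R.t1 a) = u.u12 (R.t2 a) + _
      rw [hd, map_add, map_sum]
      congr 1
      rw [← AN.sum_swap Φ D'.a12 (fun j => u.u12 (v j))]
      refine Finset.sum_congr rfl fun j _ => ?_
      rw [map_mul, u.ua12]
  · exact AN.dlt_push u (s i) (γ i) (γ' i) (hγ i) _ _ (fun j => δ j i) (R.dl i)

end Pool.Agent.MG
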