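import Pool.Agent.MG.Lift

/-!
# Every ring datum has a Kodaira-Spencer class
-/

open CategoryTheory CategoryTheory.Limits AlgebraicGeometry TensorProduct

namespace Pool.Agent.MG

namespace AX

section

variable {k : Type} [Field k] {T : TC k} {B : Type} [CommRing B] [Algebra k B] {E J : Type}
  [CommRing E] [Fintype J] {S : SqE B E J}

lemma sq_aux {G : Type} [CommRing G] (S : SqE B E J) (a : E →+* G) (w w' : J → G) :
    (∑ j, a (S.ε j) * w j) * (∑ j, a (S.ε j) * w' j) = 0 := by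
  rw [Finset.sum_mul_sum]
  refine Finset.sum_eq_zero fun i _ => Finset.sum_eq_zero fun j _ => ?_
  have : a (S.ε i) * a (S.ε j) = 0 := by rw [← map_mul, S.mul, map_zero]
  calc a (S.ε i) * w i * (a (S.ε j) * w' j) = a (S.ε i) * a (S.ε j) * (w i * w' j) := by ring
    _ = 0 := by rw [this, zero_mul]

lemma sq1 (D : RData T S) (v w : D.G1) (hv : D.q1 v = 0) (hw : D.q1 w = 0) : v * w = 0 := by
  obtain ⟨a, rfl⟩ := D.ker1 v hv
  obtain ⟨b, rfl⟩ := D.ker1 w hw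
  exact sq_aux S D.a1 a b

lemma sq2 (D : RData T S) (v w : D.G2) (hv : D.q2 v = 0) (hw : D.q2 w = 0) : v * w = 0 := by
  obtain ⟨a, rfl⟩ := D.ker2 v hv
  obtain ⟨b, rfl⟩ := D.ker2 w hw
  exact sq_aux S D.a2 a b

lemma sq12 (D : RData T S) (v w : D.G12) (hv : D.q12 v = 0) (hw : D.q12 w = 0) : v * w = 0 := by
  obtain ⟨a, rfl⟩ := D.ker12 v hv
  obtain ⟨b, rfl⟩ := D.ker12 w hw
  exact sq_aux S D.a12 a b

/-- Constants of a square zero extension. -/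
def kap (k : Type) [Field k] [Algebra k B] (S : SqE B E J) : k →+* E := S.i.comp (algebraMap k B)

lemma p_kap (c : k) : S.p (kap k S c) = algebraMap k B c := S.pi _

lemma tmul_alg {R : Type} [CommRing R] [Algebra k R] (c : k) :
    (1 : B) ⊗ₜ[k] (algebraMap k R c) = (algebraMap k B c) ⊗ₜ[k] (1 : R) := by
  rw [Algebra.algebraMap_eq_smul_one, Algebra.algebraMap_eq_smul_one, TensorProduct.tmul_smul,
    TensorProduct.smul_tmul']

/-- `ε j` times a function on the intersection. -/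
noncomputable def mm (D : RData T S) (j : J) (z : B ⊗[k] T.R12) : D.G12 :=
  D.a12 (S.ε j) * Function.surjInv D.sur12 z

lemma eps_mul (D : RData T S) (j : J) (v w : D.G12) (h : D.q12 v = D.q12 w) :
    D.a12 (S.ε j) * v = D.a12 (S.ε j) * w := by
  rw [← sub_eq_zero, ← mul_sub]
  refine sq12 D _ _ ?_ ?_
  · rw [D.qa12, S.pe, TensorProduct.zero_tmul]
  · rw [map_sub, h, sub_self]

lemma mm_q (D : RData T S) (j : J) (v : D.G12) : mm D j (D.q12 v) = D.a12 (S.ε j) * v :=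
  eps_mul D j _ _ (Function.surjInv_eq D.sur12 _)

lemma mm_add (D : RData T S) (j : J) (z z' : B ⊗[k] T.R12) :
    mm D j (z + z') = mm D j z + mm D j z' := by
  obtain ⟨v, rfl⟩ := D.sur12 z
  obtain ⟨v', rfl⟩ := D.sur12 z'
  rw [← map_add, mm_q, mm_q, mm_q, mul_add]

lemma mm_mul (D : RData T S) (j : J) (v : D.G12) (z : B ⊗[k] T.R12) :
    mm D j (D.q12 v * z) = v * mm D j z := by
  obtain ⟨w, rfl⟩ := D.sur12 z
  rw [← map_mul, mm_q, mm_q]
  ring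

lemma mm_zero (D : RData T S) (j : J) : mm D j 0 = 0 := by
  have := mm_q D j 0
  rwa [map_zero, mul_zero] at this

lemma q_mm (D : RData T S) (j : J) (z : B ⊗[k] T.R12) : D.q12 (mm D j z) = 0 := by
  rw [mm, map_mul, D.qa12, S.pe, TensorProduct.zero_tmul, zero_mul]

/-- The homomorphism `t₂ + ∑ ε j h j dd`. -/
noncomputable def tw (D : RData T S) (t2 : T.R12 →+* D.G12)
    (lt2 : ∀ a, D.q12 (t2 a) = 1 ⊗ₜ a) (h : J → B ⊗[k] T.R12) : T.R12 →+* D.G12 where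
  toFun a := t2 a + ∑ j, mm D j (h j * (1 ⊗ₜ T.dd a))
  map_one' := by
    rw [map_one, Derivation.map_one_eq_zero]
    simp [mm_zero]
  map_zero' := by
    rw [map_zero, map_zero]
    simp [mm_zero]
  map_add' a b := by
    rw [map_add, map_add, TensorProduct.tmul_add]
    simp only [mul_add, mm_add, Finset.sum_add_distrib]
    ring
  map_mul' a b := by
    have hsq : (∑ j, mm D j (h j * (1 ⊗ₜ T.dd a))) * (∑ j, mm D j (h j * (1 ⊗ₜ T.dd b))) = 0 := by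
      refine sq12 D _ _ ?_ ?_
      · rw [map_sum]
        exact Finset.sum_eq_zero fun j _ => q_mm D j _
      · rw [map_sum]
        exact Finset.sum_eq_zero fun j _ => q_mm D j _
    have h1 : ∀ (a b : T.R12), (∑ j, mm D j (h j * ((1 : B) ⊗ₜ[k] (a * T.dd b)))) =
        t2 a * ∑ j, mm D j (h j * (1 ⊗ₜ T.dd b)) := by
      intro a b
      rw [Finset.mul_sum]
      refine Finset.sum_congr rfl fun j _ => ?_
      rw [← mm_mul, lt2]
      congr 1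
      have : (1 : B) ⊗ₜ[k] (a * T.dd b) = ((1 : B) ⊗ₜ[k] a) * ((1 : B) ⊗ₜ[k] T.dd b) := by
        rw [Algebra.TensorProduct.tmul_mul_tmul, one_mul]
      rw [this]
      ring
    have h2 : (∑ j, mm D j (h j * ((1 : B) ⊗ₜ[k] (T.dd (a * b))))) =
        t2 a * (∑ j, mm D j (h j * (1 ⊗ₜ T.dd b))) +
          t2 b * (∑ j, mm D j (h j * (1 ⊗ₜ T.dd a))) := by
      rw [← h1, ← h1, ← Finset.sum_add_distrib]
      refine Finset.sum_congr rfl fun j _ => ?_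
      rw [← mm_add, ← mul_add, ← TensorProduct.tmul_add, Derivation.leibniz, smul_eq_mul,
        smul_eq_mul]
    change t2 (a * b) + _ = (t2 a + _) * (t2 b + _)
    rw [h2, map_mul]
    linear_combination -hsq

lemma tw_apply (D : RData T S) (t2 : T.R12 →+* D.G12)
    (lt2 : ∀ a, D.q12 (t2 a) = 1 ⊗ₜ a) (h : J → B ⊗[k] T.R12) (a : T.R12) :
    tw D t2 lt2 h a = t2 a + ∑ j, mm D j (h j * (1 ⊗ₜ T.dd a)) := rfl

/-- Two lifts `t₁`, `t₂` on the intersection differ by a vector field. -/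
theorem diff_aux (D : RData T S) (t1 t2 : T.R12 →+* D.G12)
    (lt1 : ∀ a, D.q12 (t1 a) = 1 ⊗ₜ a) (lt2 : ∀ a, D.q12 (t2 a) = 1 ⊗ₜ a)
    (hk1 : ∀ c : k, t1 (algebraMap k T.R12 c) = D.a12 (S.i (algebraMap k B c)))
    (hk2 : ∀ c : k, t2 (algebraMap k T.R12 c) = D.a12 (S.i (algebraMap k B c))) :
    ∃ h : J → B ⊗[k] T.R12, ∀ a : T.R12, ∃ v : J → D.G12,
      (∀ j, D.q12 (v j) = h j * (1 ⊗ₜ T.dd a)) ∧ t1 a = t2 a + ∑ j, D.a12 (S.ε j) * v j := by
  obtain ⟨w, hw⟩ := D.ker12 (t1 (T.j1 T.x) - t2 (T.j1 T.x)) (by rw [map_sub, lt1, lt2, sub_self])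
  refine ⟨fun j => D.q12 (w j), ?_⟩
  have key : t1 = tw D t2 lt2 (fun j => D.q12 (w j)) := by
    refine Lift.unique_co (Lift.etjx T) D.q12 (sq12 D) _ _ ?_ ?_ ?_
    · rw [tw_apply, T.ddx]
      have : ∑ j, mm D j (D.q12 (w j) * ((1 : B) ⊗ₜ[k] (1 : T.R12))) =
          t1 (T.j1 T.x) - t2 (T.j1 T.x) := by
        rw [hw]
        refine Finset.sum_congr rfl fun j _ => ?_
        rw [← Algebra.TensorProduct.one_def, mul_one, mm_q]
      rw [this]
      ring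
    · intro c
      rw [tw_apply, hk1, hk2, Derivation.map_algebraMap]
      simp [mm_zero]
    · intro a
      rw [tw_apply, lt1, map_add, lt2, map_sum, Finset.sum_eq_zero (fun j _ => q_mm D j _),
        add_zero]
  intro a
  refine ⟨fun j => Function.surjInv D.sur12 (D.q12 (w j) * (1 ⊗ₜ T.dd a)), fun j => ?_, ?_⟩
  · exact Function.surjInv_eq D.sur12 _
  · conv_lhs => rw [key]
    rfl

/-- The values of the sections. -/
theorem dlt_aux (D : RData T S) (u1 : D.G1) (u2 : D.G2) (h1 : D.q1 u1 = 1 ⊗ₜ T.x)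
    (h2 : D.q2 u2 = 1 ⊗ₜ T.y) : ∀ (s : Pt T B) (γ : D.Sec s), ∃ δ : J → B, D.Dlt u1 u2 s γ δ
  | .one φ, γ => by
    have h : S.p (RData.Sec1.g γ u1 - S.i (φ T.x)) = 0 := by
      rw [map_sub, RData.Sec1.gq γ, h1, S.pi]
      simp [extA]
    obtain ⟨b, hb⟩ := S.ex _ h
    exact ⟨b, sub_eq_iff_eq_add'.mp hb⟩
  | .two ψ, γ => by
    have h : S.p (RData.Sec2.g γ u2 - S.i (ψ T.y)) = 0 := by
      rw [map_sub, RData.Sec2.gq γ, h2, S.pi]
      simp [extA]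
    obtain ⟨b, hb⟩ := S.ex _ h
    exact ⟨b, sub_eq_iff_eq_add'.mp hb⟩

end

end AX

/-- AX: every ring datum has a Kodaira-Spencer class. -/
theorem t_AX : Stmt_AX := by
  intro n k _ T B _ _ E J _ _ S D s γ
  -- lifts of the charts
  obtain ⟨x', hx'⟩ := D.sur1 (1 ⊗ₜ T.x)
  obtain ⟨y', hy'⟩ := D.sur2 (1 ⊗ₜ T.y)
  obtain ⟨θ1, -, k1, l1⟩ := Lift.exists_lift_co (Lift.etx T) (D.a1.comp (AX.kap k S)) D.q1 D.sur1
    (AX.sq1 D) (Algebra.TensorProduct.includeRight : T.R1 →ₐ[k] B ⊗[k] T.R1).toRingHom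
    (fun c => by
      change (1 : B) ⊗ₜ[k] (algebraMap k T.R1 c) = D.q1 (D.a1 (AX.kap k S c))
      rw [D.qa1, AX.p_kap, AX.tmul_alg]) x' hx'
  obtain ⟨θ2, -, k2, l2⟩ := Lift.exists_lift_co (Lift.ety T) (D.a2.comp (AX.kap k S)) D.q2 D.sur2
    (AX.sq2 D) (Algebra.TensorProduct.includeRight : T.R2 →ₐ[k] B ⊗[k] T.R2).toRingHom
    (fun c => by
      change (1 : B) ⊗ₜ[k] (algebraMap k T.R2 c) = D.q2 (D.a2 (AX.kap k S c))
      rw [D.qa2, AX.p_kap, AX.tmul_alg]) y' hy'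
  have l1' : ∀ a, D.q1 (θ1 a) = 1 ⊗ₜ a := l1
  have l2' : ∀ a, D.q2 (θ2 a) = 1 ⊗ₜ a := l2
  -- extensions to the intersection
  obtain ⟨t1, e1, lt1⟩ := Lift.exists_lift T.j1.toRingHom T.et1 (D.f1.comp θ1) D.q12 D.sur12
    (AX.sq12 D) (Algebra.TensorProduct.includeRight : T.R12 →ₐ[k] B ⊗[k] T.R12).toRingHom
    (fun a => by
      change (1 : B) ⊗ₜ[k] (T.j1 a) = D.q12 (D.f1 (θ1 a))
      rw [D.qf1, l1']
      simp)
  obtain ⟨t2, e2, lt2⟩ := Lift.exists_lift T.j2.toRingHom T.et2 (D.f2.comp θ2) D.q12 D.sur12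
    (AX.sq12 D) (Algebra.TensorProduct.includeRight : T.R12 →ₐ[k] B ⊗[k] T.R12).toRingHom
    (fun a => by
      change (1 : B) ⊗ₜ[k] (T.j2 a) = D.q12 (D.f2 (θ2 a))
      rw [D.qf2, l2']
      simp)
  have lt1' : ∀ a, D.q12 (t1 a) = 1 ⊗ₜ a := lt1
  have lt2' : ∀ a, D.q12 (t2 a) = 1 ⊗ₜ a := lt2
  have e1' : ∀ a, t1 (T.j1 a) = D.f1 (θ1 a) := e1
  have e2' : ∀ a, t2 (T.j2 a) = D.f2 (θ2 a) := e2
  have k1' : ∀ c : k, θ1 (algebraMap k T.R1 c) = D.a1 (S.i (algebraMap k B c)) := k1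
  have k2' : ∀ c : k, θ2 (algebraMap k T.R2 c) = D.a2 (S.i (algebraMap k B c)) := k2
  have hk1 : ∀ c : k, t1 (algebraMap k T.R12 c) = D.a12 (S.i (algebraMap k B c)) := by
    intro c
    rw [← T.j1.commutes c, e1', k1', D.fa1]
  have hk2 : ∀ c : k, t2 (algebraMap k T.R12 c) = D.a12 (S.i (algebraMap k B c)) := by
    intro c
    rw [← T.j2.commutes c, e2', k2', D.fa2]
  obtain ⟨h, hh⟩ := AX.diff_aux D t1 t2 lt1' lt2' hk1 hk2
  choose δ hδ using fun i => AX.dlt_aux D (θ1 T.x) (θ2 T.y) (l1' T.x) (l2' T.y) (s i) (γ i)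
  exact ⟨h, fun j i => δ i j, ⟨{
    θ1 := θ1
    θ2 := θ2
    k1 := k1'
    k2 := k2'
    l1 := l1'
    l2 := l2'
    t1 := t1
    t2 := t2
    e1 := e1'
    e2 := e2'
    lt1 := lt1'
    lt2 := lt2'
    diff := hh
    dl := hδ }⟩⟩

end Pool.Agent.MG
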