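import Pool.Agent.MG.StmtsBub
import Pool.Agent.MG.Bub.Open

/-!
# BGEN: the genus of the nodal curve
-/

set_option linter.unusedSectionVars false

open CategoryTheory CategoryTheory.Limits AlgebraicGeometry TensorProduct

namespace Pool.Agent.MG

namespace BGEN

theorem evO_eq {A : Type} [CommRing A] {X : Scheme.{0}} {i i' : Sp A ⟶ X} (e : i = i')
    {U : X.Opens} (h : ⊤ ≤ i ⁻¹ᵁ U) (h' : ⊤ ≤ i' ⁻¹ᵁ U) (a : Γ(X, U)) :
    evO i U h a = evO i' U h' a := by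
  subst e
  rfl

section Three

variable {K A1 A2 A3 M N : Type} [Field K] [CommRing A1] [CommRing A2] [CommRing A3]
  [CommRing M] [CommRing N] {X : Scheme.{0}} (π : X ⟶ Sp K)
  (i1 : Sp A1 ⟶ X) (i2 : Sp A2 ⟶ X) (i3 : Sp A3 ⟶ X)
  [IsOpenImmersion i1] [IsOpenImmersion i2] [IsOpenImmersion i3]
  (φ1 : A1 →+* M) (φ2 : A2 →+* M) (ψ1 : A1 →+* N) (ψ3 : A3 →+* N)

/-- The genus of a curve with three affine charts, the second and the third one disjoint. -/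
theorem genus_three (hM : spMap φ1 ≫ i1 = spMap φ2 ≫ i2) (hN : spMap ψ1 ≫ i1 = spMap ψ3 ≫ i3)
    (oM : IsOpenImmersion (spMap φ1 ≫ i1)) (oN : IsOpenImmersion (spMap ψ1 ≫ i1))
    (h12 : ∀ x y, i1 x = i2 y → i1 x ∈ Set.range (spMap φ1 ≫ i1))
    (h13 : ∀ x y, i1 x = i3 y → i1 x ∈ Set.range (spMap ψ1 ≫ i1))
    (h23 : ∀ x y, i2 x ≠ i3 y)
    (cov : ∀ x : X, x ∈ Set.range i1 ∨ x ∈ Set.range i2 ∨ x ∈ Set.range i3)
    (κ : K →+* N) (hκ : (spMap ψ1 ≫ i1) ≫ π = spMap κ)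
    (g : ℕ) (L : N →+ (Fin g → K)) (hs : Function.Surjective L)
    (hl : ∀ c t, L (κ c * t) = c • L t) (hk : ∀ t, L t = 0 ↔ ∃ p q, t = ψ1 p + ψ3 q)
    (hH : ∀ (m : M) (u : A1), ∃ (f : A1) (g : A2), ψ1 f = ψ1 u ∧ m = φ1 f + φ2 g) :
    HasGenus π g := by
  obtain ⟨U, hU⟩ : ∃ U, U = i2.opensRange ⊔ i3.opensRange := ⟨_, rfl⟩
  obtain ⟨V, hV⟩ : ∃ V, V = i1.opensRange := ⟨_, rfl⟩
  have mU : ∀ x, x ∈ U ↔ x ∈ Set.range i2 ∨ x ∈ Set.range i3 := by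
    intro x
    rw [hU]
    exact Iff.rfl
  have mV : ∀ x, x ∈ V ↔ x ∈ Set.range i1 := by
    intro x
    rw [hV]
    exact Iff.rfl
  have aU : IsAffineOpen U := by
    rw [hU]
    refine (isAffineOpen_opensRange i2).sup_of_disjoint (isAffineOpen_opensRange i3) ?_
    rw [disjoint_iff_inf_le]
    rintro x ⟨⟨p, hp⟩, ⟨q, hq⟩⟩
    exact (h23 p q (hp.trans hq.symm)).elim
  have aV : IsAffineOpen V := by
    rw [hV]
    exact isAffineOpen_opensRange i1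
  have eM : ∀ p, (spMap φ1 ≫ i1) p = i2 (spMap φ2 p) := by
    intro p
    rw [hM, Scheme.Hom.comp_apply]
  have eN : ∀ p, (spMap ψ1 ≫ i1) p = i3 (spMap ψ3 p) := by
    intro p
    rw [hN, Scheme.Hom.comp_apply]
  have hMU : ⊤ ≤ (spMap φ1 ≫ i1) ⁻¹ᵁ U := le_of_range _ fun p => (mU _).2 (Or.inl ⟨_, (eM p).symm⟩)
  have hMV : ⊤ ≤ (spMap φ1 ≫ i1) ⁻¹ᵁ V := le_of_range _ fun p => (mV _).2
    ⟨spMap φ1 p, (Scheme.Hom.comp_apply _ _ _).symm⟩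
  have hNU : ⊤ ≤ (spMap ψ1 ≫ i1) ⁻¹ᵁ U := le_of_range _ fun p => (mU _).2 (Or.inr ⟨_, (eN p).symm⟩)
  have hNV : ⊤ ≤ (spMap ψ1 ≫ i1) ⁻¹ᵁ V := le_of_range _ fun p => (mV _).2
    ⟨spMap ψ1 p, (Scheme.Hom.comp_apply _ _ _).symm⟩
  have hMUV : ⊤ ≤ (spMap φ1 ≫ i1) ⁻¹ᵁ (U ⊓ V) := fun p hp => ⟨hMU hp, hMV hp⟩
  have hNUV : ⊤ ≤ (spMap ψ1 ≫ i1) ⁻¹ᵁ (U ⊓ V) := fun p hp => ⟨hNU hp, hNV hp⟩
  have h1V : ⊤ ≤ i1 ⁻¹ᵁ V := le_of_range _ fun p => (mV _).2 ⟨p, rfl⟩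
  have h2U : ⊤ ≤ i2 ⁻¹ᵁ U := le_of_range _ fun p => (mU _).2 (Or.inl ⟨p, rfl⟩)
  have h3U : ⊤ ≤ i3 ⁻¹ᵁ U := le_of_range _ fun p => (mU _).2 (Or.inr ⟨p, rfl⟩)
  have hUV : ∀ x ∈ U ⊓ V, x ∈ Set.range (spMap φ1 ≫ i1) ∨ x ∈ Set.range (spMap ψ1 ≫ i1) := by
    rintro x ⟨hx1, hx2⟩
    obtain ⟨p, rfl⟩ := (mV x).1 hx2
    rcases (mU _).1 hx1 with ⟨q, hq⟩ | ⟨q, hq⟩
    · exact Or.inl (h12 p q hq.symm)
    · exact Or.inr (h13 p q hq.symm)
  have hd : ∀ x y, (spMap φ1 ≫ i1) x ≠ (spMap ψ1 ≫ i1) y := by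
    intro x y
    rw [eM, eN]
    exact h23 _ _
  -- evaluation of restrictions
  have r1M : ∀ b : Γ(X, V), evO (spMap φ1 ≫ i1) (U ⊓ V) hMUV (rs X inf_le_right b) =
      φ1 (evO i1 V h1V b) := by
    intro b
    rw [evO_rs _ inf_le_right hMUV hMV, evO_spMap i1 φ1 h1V hMV]
  have r1N : ∀ b : Γ(X, V), evO (spMap ψ1 ≫ i1) (U ⊓ V) hNUV (rs X inf_le_right b) =
      ψ1 (evO i1 V h1V b) := by
    intro b
    rw [evO_rs _ inf_le_right hNUV hNV, evO_spMap i1 ψ1 h1V hNV]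
  have r2M : ∀ a : Γ(X, U), evO (spMap φ1 ≫ i1) (U ⊓ V) hMUV (rs X inf_le_left a) =
      φ2 (evO i2 U h2U a) := by
    intro a
    have h' : ⊤ ≤ (spMap φ2 ≫ i2) ⁻¹ᵁ U := hM ▸ hMU
    rw [evO_rs _ inf_le_left hMUV hMU, evO_eq hM hMU h', evO_spMap i2 φ2 h2U h']
  have r3N : ∀ a : Γ(X, U), evO (spMap ψ1 ≫ i1) (U ⊓ V) hNUV (rs X inf_le_left a) =
      ψ3 (evO i3 U h3U a) := by
    intro a
    have h' : ⊤ ≤ (spMap ψ3 ≫ i3) ⁻¹ᵁ U := hN ▸ hNU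
    rw [evO_rs _ inf_le_left hNUV hNU, evO_eq hN hNU h', evO_spMap i3 ψ3 h3U h']
  refine ⟨U, V, aU, aV, ?_, L.comp (evO (spMap ψ1 ≫ i1) (U ⊓ V) hNUV).toAddMonoidHom,
    ?_, ?_, ?_⟩
  · ext x
    simp only [TopologicalSpace.Opens.coe_sup, Set.mem_union, TopologicalSpace.Opens.coe_top,
      Set.mem_univ, iff_true, SetLike.mem_coe]
    rw [mU, mV]
    have := cov x
    tauto
  · intro v
    obtain ⟨t, ht⟩ := hs v
    obtain ⟨s, -, hs2⟩ := evO_ex (spMap φ1 ≫ i1) (spMap ψ1 ≫ i1) hMUV hNUV hUV hd 0 t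
    refine ⟨s, ?_⟩
    change L (evO (spMap ψ1 ≫ i1) (U ⊓ V) hNUV s) = v
    rw [hs2, ht]
  · intro c s
    change L (evO (spMap ψ1 ≫ i1) (U ⊓ V) hNUV (coef π (U ⊓ V) c * s)) =
      c • L (evO (spMap ψ1 ≫ i1) (U ⊓ V) hNUV s)
    rw [map_mul, evO_coef _ π κ hκ, hl]
  · intro s
    change L (evO (spMap ψ1 ≫ i1) (U ⊓ V) hNUV s) = 0 ↔ ∃ (a : Γ(X, U)) (b : Γ(X, V)),
      s = rs X inf_le_left a + rs X inf_le_right b
    constructor
    · intro h0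
      obtain ⟨p, q, hpq⟩ := (hk _).1 h0
      obtain ⟨f, r, hf, hm⟩ := hH (evO (spMap φ1 ≫ i1) (U ⊓ V) hMUV s) p
      obtain ⟨b, hb⟩ := (evO_bij i1 h1V (fun x hx => (mV x).1 hx)).2 f
      obtain ⟨a, ha1, ha2⟩ := evO_ex i2 i3 h2U h3U (fun x hx => (mU x).1 hx) h23 r q
      refine ⟨a, b, ?_⟩
      rw [← sub_eq_zero]
      apply evO_un (spMap φ1 ≫ i1) (spMap ψ1 ≫ i1) hMUV hNUV hUV
      · rw [map_sub, map_add, r2M, r1M, ha1, hb, hm]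
        ring
      · rw [map_sub, map_add, r3N, r1N, ha2, hb, hpq, hf]
        ring
    · rintro ⟨a, b, rfl⟩
      rw [hk]
      refine ⟨evO i1 V h1V b, evO i3 U h3U a, ?_⟩
      rw [map_add, r3N, r1N, add_comm]

end Three

section Const

variable {n : ℕ} {k : Type} [Field k] {C : Fam n k} {T : TC k} {ct : Charted T C}
  (ha : ct.Aff) (K : Type) [Field K] [Algebra k K]

include ha in
/-- The genus of the constant family, in terms of the chart rings. -/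
theorem const_L (hCOVI : Stmt_COVI) (hC : IsProper C.π) (g : ℕ)
    (hg : HasGenus (pullback.snd C.π (spMap (algebraMap k K))) g) :
    ∃ L : K ⊗[k] T.R12 →+ (Fin g → K), Function.Surjective L ∧
      (∀ c t, L (inL k K T.R12 c * t) = c • L t) ∧
      ∀ t, L t = 0 ↔ ∃ (p : K ⊗[k] T.R1) (q : K ⊗[k] T.R2),
        t = bmap K T.j1 p + bmap K T.j2 q := by
  obtain ⟨U, hU⟩ : ∃ U, U = (ka1 ha K).opensRange := ⟨_, rfl⟩
  obtain ⟨V, hV⟩ : ∃ V, V = (ka2 ha K).opensRange := ⟨_, rfl⟩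
  have mU : ∀ x, x ∈ U ↔ x ∈ Set.range (ka1 ha K) := by
    intro x
    rw [hU]
    exact Iff.rfl
  have mV : ∀ x, x ∈ V ↔ x ∈ Set.range (ka2 ha K) := by
    intro x
    rw [hV]
    exact Iff.rfl
  have aU : IsAffineOpen U := by
    rw [hU]
    exact isAffineOpen_opensRange _
  have aV : IsAffineOpen V := by
    rw [hV]
    exact isAffineOpen_opensRange _
  have hUV : U ⊔ V = ⊤ := by
    ext x
    simp only [TopologicalSpace.Opens.coe_sup, Set.mem_union, TopologicalSpace.Opens.coe_top,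
      Set.mem_univ, iff_true, SetLike.mem_coe]
    rw [mU, mV]
    exact ka_cover ha K x
  obtain ⟨L, hs, hl, hk⟩ := hCOVI (pullback.snd C.π (spMap (algebraMap k K))) g hg U V aU aV hUV
  have e1 := ka12_eq1 ha K
  have e2 := ka12_eq2 ha K
  have h1U : ⊤ ≤ (ka1 ha K) ⁻¹ᵁ U := le_of_range _ fun p => (mU _).2 ⟨p, rfl⟩
  have h2V : ⊤ ≤ (ka2 ha K) ⁻¹ᵁ V := le_of_range _ fun p => (mV _).2 ⟨p, rfl⟩
  have hxU : ⊤ ≤ (ka12 ha K) ⁻¹ᵁ U := le_of_range _ fun p => (mU _).2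
    ⟨spMap (bmap K T.j1) p, by rw [← Scheme.Hom.comp_apply, e1]⟩
  have hxV : ⊤ ≤ (ka12 ha K) ⁻¹ᵁ V := le_of_range _ fun p => (mV _).2
    ⟨spMap (bmap K T.j2) p, by rw [← Scheme.Hom.comp_apply, e2]⟩
  have hx : ⊤ ≤ (ka12 ha K) ⁻¹ᵁ (U ⊓ V) := fun p hp => ⟨hxU hp, hxV hp⟩
  have hr : ∀ x ∈ U ⊓ V, x ∈ Set.range (ka12 ha K) := by
    rintro x ⟨hx1, hx2⟩
    obtain ⟨p, rfl⟩ := (mU x).1 hx1
    obtain ⟨q, hq⟩ := (mV _).1 hx2
    obtain ⟨w, hw, -⟩ := Scheme.exists_preimage_of_isPullback (ka_isPullback ha K) p q hq.symm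
    exact ⟨w, by rw [← e1, Scheme.Hom.comp_apply, hw]⟩
  have hbij := evO_bij (ka12 ha K) hx hr
  have r1 : ∀ a, evO (ka12 ha K) (U ⊓ V) hx (rs _ inf_le_left a) =
      bmap K T.j1 (evO (ka1 ha K) U h1U a) := by
    intro a
    have h' : ⊤ ≤ (spMap (bmap K T.j1) ≫ ka1 ha K) ⁻¹ᵁ U := e1.symm ▸ hxU
    rw [evO_rs _ inf_le_left hx hxU, evO_eq e1.symm hxU h', evO_spMap (ka1 ha K) _ h1U h']
  have r2 : ∀ a, evO (ka12 ha K) (U ⊓ V) hx (rs _ inf_le_right a) =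
      bmap K T.j2 (evO (ka2 ha K) V h2V a) := by
    intro a
    have h' : ⊤ ≤ (spMap (bmap K T.j2) ≫ ka2 ha K) ⁻¹ᵁ V := e2.symm ▸ hxV
    rw [evO_rs _ inf_le_right hx hxV, evO_eq e2.symm hxV h', evO_spMap (ka2 ha K) _ h2V h']
  obtain ⟨e, he⟩ : ∃ e : Γ(pullback C.π (spMap (algebraMap k K)), U ⊓ V) ≃+* K ⊗[k] T.R12,
      ∀ s, e s = evO (ka12 ha K) (U ⊓ V) hx s := ⟨RingEquiv.ofBijective _ hbij, fun _ => rfl⟩
  refine ⟨L.comp (e.symm : K ⊗[k] T.R12 →+* _).toAddMonoidHom, ?_, ?_, ?_⟩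
  · intro v
    obtain ⟨s, hs'⟩ := hs v
    refine ⟨e s, ?_⟩
    change L (e.symm (e s)) = v
    rw [e.symm_apply_apply, hs']
  · intro c t
    change L (e.symm (inL k K T.R12 c * t)) = c • L (e.symm t)
    have h1 : e.symm (inL k K T.R12 c) =
        coef (pullback.snd C.π (spMap (algebraMap k K))) (U ⊓ V) c := by
      rw [RingEquiv.symm_apply_eq, he]
      exact (evO_coef (ka12 ha K) _ (inL k K T.R12) (kap_snd K _ _) hx c).symm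
    rw [map_mul, h1, hl]
  · intro t
    change L (e.symm t) = 0 ↔ _
    rw [hk]
    constructor
    · rintro ⟨a, b, hab⟩
      refine ⟨evO (ka1 ha K) U h1U a, evO (ka2 ha K) V h2V b, ?_⟩
      rw [← r1, ← r2, ← he, ← he, ← map_add]
      rw [RingEquiv.symm_apply_eq] at hab
      exact hab
    · rintro ⟨p, q, rfl⟩
      obtain ⟨a, rfl⟩ := (evO_bij (ka1 ha K) h1U (fun x hx => (mU x).1 hx)).2 p
      obtain ⟨b, rfl⟩ := (evO_bij (ka2 ha K) h2V (fun x hx => (mV x).1 hx)).2 q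
      refine ⟨a, b, ?_⟩
      rw [RingEquiv.symm_apply_eq, map_add, he]
      refine congrArg₂ (· + ·) (r1 a).symm ?_
      exact ((he _).trans (r2 b)).symm

end Const

section Main

variable {n : ℕ} {k : Type} [Field k] {C : Fam n k} {T : TC k} (ch : Cht C T) (j : Fin n)
  (K : Type) [Field K] [Algebra k K] (b : K) (hb : b = 0)

/-- The restriction to the intersection of the first chart with the chart at infinity. -/
noncomputable def ps : N1 ch j K b →+* K ⊗[k] T.R12 := (bmap K T.j1).comp (toA ch j K b hb)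

theorem ps_bl1 : spMap (ps ch j K b hb) ≫ bl1 (zB ch j K) (b ⊗ₜ[k] (1 : T.R1)) =
    bJ (zz ch j) (zz_unit ch j) K b := by
  have hp := bJ_isPullback ch.aff (zz ch j) (zz_unit ch j) K b
  have h1 : (spMap (ps ch j K b hb) ≫ bl1 (zB ch j K) (b ⊗ₜ[k] (1 : T.R1))) ≫ blπ _ _ =
      𝟙 _ ≫ spMap (bmap K T.j1) := by
    rw [Category.assoc, bl1_π, ← spMap_comp, Category.id_comp]
    congr 1
    refine RingHom.ext fun a => ?_
    unfold ps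
    rw [RingHom.comp_apply, RingHom.comp_apply, toA_of]
  have h2 := hp.lift_fst _ _ h1
  have h3 := hp.lift_snd _ _ h1
  rw [Category.comp_id] at h3
  rw [← h2, h3, Category.id_comp]

theorem ps_w : ps ch j K b hb (nw _ _) = 0 := by
  unfold ps
  rw [RingHom.comp_apply, toA_w, map_zero]

/-- Decomposition of the functions on the intersection of the two charts of the blow up. -/
theorem split (m : MR (zB ch j K) (b ⊗ₜ[k] (1 : T.R1))) (u : N1 ch j K b) :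
    ∃ (f : N1 ch j K b) (g : N2 ch j K b), ps ch j K b hb f = ps ch j K b hb u ∧
      m = algebraMap (N1 ch j K b) _ f + swapN _ _ g := by
  obtain ⟨f0, g0, h0⟩ := bub_H1 (zB ch j K) (b ⊗ₜ[k] (1 : T.R1))
    (m - algebraMap (N1 ch j K b) _ u)
  refine ⟨u + f0 - algebraMap _ (N1 ch j K b) (toA ch j K b hb f0),
    g0 + algebraMap _ (N2 ch j K b) (toA ch j K b hb f0), ?_, ?_⟩
  · unfold ps
    rw [RingHom.comp_apply, RingHom.comp_apply, map_sub, map_add, toA_of, add_sub_cancel_right]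
  · have h1 : swapN (zB ch j K) (b ⊗ₜ[k] (1 : T.R1))
        (algebraMap _ (N2 ch j K b) (toA ch j K b hb f0)) =
        algebraMap (N1 ch j K b) (MR (zB ch j K) (b ⊗ₜ[k] (1 : T.R1)))
          (algebraMap _ (N1 ch j K b) (toA ch j K b hb f0)) :=
      (swapN_of _ _ _).trans (algebraMap_MR _ _ _)
    rw [map_sub, map_add, map_add, h1]
    linear_combination h0

end Main

end BGEN

theorem t_BGEN (hCOVI : Stmt_COVI) : Stmt_BGEN := by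
  intro n k _ C T ch j hC K _ _ b hb g hg
  obtain ⟨L, hs, hl, hk⟩ := BGEN.const_L ch.aff K hCOVI hC g hg
  have hJ := bJ_open ch.aff (zz ch j) (zz_unit ch j) K b
  have eJ := BGEN.ps_bl1 ch j K b hb
  have eM : spMap (algebraMap (N1 ch j K b) (MR (zB ch j K) (b ⊗ₜ[k] (1 : T.R1)))) ≫
      bl1 (zB ch j K) (b ⊗ₜ[k] (1 : T.R1)) ≫ bL ch.aff (zz ch j) (zz_unit ch j) K b =
      (blf (zB ch j K) (b ⊗ₜ[k] (1 : T.R1)) ≫ bl1 (zB ch j K) (b ⊗ₜ[k] (1 : T.R1))) ≫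
        bL ch.aff (zz ch j) (zz_unit ch j) K b := (Category.assoc _ _ _).symm
  have eN : spMap (BGEN.ps ch j K b hb) ≫
      bl1 (zB ch j K) (b ⊗ₜ[k] (1 : T.R1)) ≫ bL ch.aff (zz ch j) (zz_unit ch j) K b =
      bJ (zz ch j) (zz_unit ch j) K b ≫ bL ch.aff (zz ch j) (zz_unit ch j) K b := by
    rw [← Category.assoc, eJ]
  refine BGEN.genus_three (bπ ch.aff (zz ch j) (zz_unit ch j) K b)
    (bl1 (zB ch j K) (b ⊗ₜ[k] (1 : T.R1)) ≫ bL ch.aff (zz ch j) (zz_unit ch j) K b)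
    (bl2 (zB ch j K) (b ⊗ₜ[k] (1 : T.R1)) ≫ bL ch.aff (zz ch j) (zz_unit ch j) K b)
    (bR ch.aff (zz ch j) (zz_unit ch j) K b)
    (algebraMap (N1 ch j K b) (MR (zB ch j K) (b ⊗ₜ[k] (1 : T.R1))))
    (swapN (zB ch j K) (b ⊗ₜ[k] (1 : T.R1))) (BGEN.ps ch j K b hb) (bmap K T.j2)
    ?_ ?_ ?_ ?_ ?_ ?_ ?_ ?_ (inL k K T.R12) ?_ g L hs hl ?_ ?_
  · rw [eM, bl_cond, Category.assoc]
    rfl
  · rw [eN, b_cond]
  · rw [eM]
    infer_instance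
  · rw [eN]
    infer_instance
  · intro x y h
    rw [eM]
    have h1 : bl1 (zB ch j K) (b ⊗ₜ[k] (1 : T.R1)) x = bl2 _ _ y := by
      apply (bL ch.aff (zz ch j) (zz_unit ch j) K b).isOpenEmbedding.injective
      rw [← Scheme.Hom.comp_apply, ← Scheme.Hom.comp_apply]
      exact h
    have h2 : bl1 (zB ch j K) (b ⊗ₜ[k] (1 : T.R1)) x ∈
        Set.range (blf (zB ch j K) (b ⊗ₜ[k] (1 : T.R1)) ≫ bl1 _ _) := by
      rw [← bl_inter_range]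
      exact ⟨⟨x, rfl⟩, ⟨y, h1.symm⟩⟩
    obtain ⟨w, hw⟩ := h2
    exact ⟨w, by rw [Scheme.Hom.comp_apply, hw, Scheme.Hom.comp_apply]⟩
  · intro x y h
    rw [eN]
    rw [Scheme.Hom.comp_apply] at h
    obtain ⟨w, hw, -⟩ := Scheme.exists_preimage_of_isPullback
      (b_isPullback ch.aff (zz ch j) (zz_unit ch j) K b) _ y h
    exact ⟨w, by rw [Scheme.Hom.comp_apply, hw, Scheme.Hom.comp_apply]⟩
  · intro x y h
    rw [Scheme.Hom.comp_apply] at h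
    obtain ⟨w, hw, -⟩ := Scheme.exists_preimage_of_isPullback
      (b_isPullback ch.aff (zz ch j) (zz_unit ch j) K b) _ y h
    have h1 : bl1 (zB ch j K) (b ⊗ₜ[k] (1 : T.R1)) (spMap (BGEN.ps ch j K b hb) w) =
        bl2 _ _ x := by
      rw [← Scheme.Hom.comp_apply, eJ]
      exact hw
    have h2 := (bl1_mem_range_bl2 (zB ch j K) (b ⊗ₜ[k] (1 : T.R1)) _).1 ⟨x, h1.symm⟩
    apply h2
    change BGEN.ps ch j K b hb (nw _ _) ∈ w.asIdeal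
    rw [BGEN.ps_w]
    exact Ideal.zero_mem _
  · intro x
    rcases b_cover ch.aff (zz ch j) (zz_unit ch j) K b x with ⟨y, rfl⟩ | h
    · rcases bl_cover _ _ y with ⟨w, rfl⟩ | ⟨w, rfl⟩
      · exact Or.inl ⟨w, Scheme.Hom.comp_apply _ _ _⟩
      · exact Or.inr (Or.inl ⟨w, Scheme.Hom.comp_apply _ _ _⟩)
    · exact Or.inr (Or.inr h)
  · rw [eN, Category.assoc, bL_π, ← Category.assoc, bJ_π ch.aff, ← spMap_comp, bmap_inL]
  · intro t
    rw [hk]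
    constructor
    · rintro ⟨p, q, rfl⟩
      refine ⟨algebraMap _ (N1 ch j K b) p, q, ?_⟩
      unfold BGEN.ps
      rw [RingHom.comp_apply, toA_of]
    · rintro ⟨p, q, rfl⟩
      exact ⟨toA ch j K b hb p, q, rfl⟩
  · intro m u
    exact BGEN.split ch j K b hb m u

end Pool.Agent.MG
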