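import Pool.Agent.MG.StmtsA

/-!
# NOD: constant families of smooth curves are nodal
-/

open CategoryTheory CategoryTheory.Limits AlgebraicGeometry TensorProduct
open scoped Polynomial

namespace Pool.Agent.MG

namespace NOD

/-! ### Base change of the coordinate -/

section bc

attribute [local instance] Polynomial.algebra Algebra.TensorProduct.rightAlgebra

theorem et_bc {k K R : Type} [Field k] [Field K] [Algebra k K] [CommRing R] [Algebra k R] (x : R)
    (h : (Polynomial.aeval x : k[X] →ₐ[k] R).toRingHom.Etale) :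
    (Polynomial.aeval ((1 : K) ⊗ₜ[k] x) : K[X] →ₐ[K] K ⊗[k] R).toRingHom.Etale := by
  let i1 : Algebra k[X] R := (Polynomial.aeval x : k[X] →ₐ[k] R).toRingHom.toAlgebra
  have t1 : IsScalarTower k k[X] R := .of_algebraMap_eq' (by
    ext c
    exact ((Polynomial.aeval x : k[X] →ₐ[k] R).commutes c).symm)
  let i2 : Algebra K[X] (K ⊗[k] R) :=
    (Polynomial.aeval ((1 : K) ⊗ₜ[k] x) : K[X] →ₐ[K] K ⊗[k] R).toRingHom.toAlgebra
  have t2 : IsScalarTower K K[X] (K ⊗[k] R) := .of_algebraMap_eq' (by
    ext c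
    exact ((Polynomial.aeval ((1 : K) ⊗ₜ[k] x) : K[X] →ₐ[K] K ⊗[k] R).commutes c).symm)
  let i3 : Algebra k[X] (K ⊗[k] R) :=
    ((algebraMap R (K ⊗[k] R)).comp (algebraMap k[X] R)).toAlgebra
  have t3 : IsScalarTower k[X] R (K ⊗[k] R) := .of_algebraMap_eq' rfl
  have t4 : IsScalarTower k[X] K[X] (K ⊗[k] R) := .of_algebraMap_eq' (by
    apply Polynomial.ringHom_ext
    · intro c
      show (1 : K) ⊗ₜ[k] (Polynomial.aeval x (Polynomial.C c)) =
        Polynomial.aeval ((1 : K) ⊗ₜ[k] x) (Polynomial.mapRingHom (algebraMap k K)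
          (Polynomial.C c))
      rw [Polynomial.aeval_C, Polynomial.coe_mapRingHom, Polynomial.map_C, Polynomial.aeval_C,
        Algebra.TensorProduct.algebraMap_apply, Algebra.algebraMap_eq_smul_one,
        Algebra.algebraMap_self, RingHom.id_apply, Algebra.algebraMap_eq_smul_one,
        TensorProduct.smul_tmul]
    · show (1 : K) ⊗ₜ[k] (Polynomial.aeval x Polynomial.X) =
        Polynomial.aeval ((1 : K) ⊗ₜ[k] x) (Polynomial.mapRingHom (algebraMap k K)
          Polynomial.X)
      rw [Polynomial.aeval_X, Polynomial.coe_mapRingHom, Polynomial.map_X, Polynomial.aeval_X])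
  have t5 : IsScalarTower k K[X] (K ⊗[k] R) := .to₁₃₄ k K K[X] _
  have p1 : Algebra.IsPushout k R K (K ⊗[k] R) := inferInstance
  have p2 : Algebra.IsPushout k[X] R K[X] (K ⊗[k] R) :=
    (Algebra.IsPushout.comp_iff k k[X] K K[X]).1 p1
  exact RingHom.Etale.isStableUnderBaseChange k[X] R K[X] (K ⊗[k] R) h

end bc

/-! ### The node ring away from one branch -/

section node

variable (K : Type) [Field K]

/-- The function `u`. -/
noncomputable def uu : NodeRing K := Ideal.Quotient.mk _ (MvPolynomial.X 0)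

/-- The function `v`. -/
noncomputable def vv : NodeRing K := Ideal.Quotient.mk _ (MvPolynomial.X 1)

theorem uu_vv : uu K * vv K = 0 := by
  unfold uu vv
  rw [← map_mul, Ideal.Quotient.eq_zero_iff_mem]
  exact Ideal.subset_span rfl

/-- `u ↦ x + a`, `v ↦ 0`. -/
noncomputable def nu (a : K) : NodeRing K →ₐ[K] K[X] :=
  Ideal.Quotient.liftₐ _ (MvPolynomial.aeval ![Polynomial.X + Polynomial.C a, 0]) (by
    intro p hp
    have h : Ideal.span {(MvPolynomial.X 0 * MvPolynomial.X 1 : MvPolynomial (Fin 2) K)} ≤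
        RingHom.ker (MvPolynomial.aeval ![Polynomial.X + Polynomial.C a, 0] :
          MvPolynomial (Fin 2) K →ₐ[K] K[X]) := by
      rw [Ideal.span_le, Set.singleton_subset_iff]
      show (MvPolynomial.aeval ![Polynomial.X + Polynomial.C a, 0] :
          MvPolynomial (Fin 2) K →ₐ[K] K[X]) (MvPolynomial.X 0 * MvPolynomial.X 1) = 0
      rw [map_mul, MvPolynomial.aeval_X, MvPolynomial.aeval_X]
      simp
    exact h hp)

theorem nu_mk (a : K) (p : MvPolynomial (Fin 2) K) :
    nu K a (Ideal.Quotient.mk _ p) =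
      MvPolynomial.aeval ![Polynomial.X + Polynomial.C a, 0] p := rfl

theorem nu_uu (a : K) : nu K a (uu K) = Polynomial.X + Polynomial.C a := by
  unfold uu
  rw [nu_mk, MvPolynomial.aeval_X]
  rfl

theorem nu_vv (a : K) : nu K a (vv K) = 0 := by
  unfold vv
  rw [nu_mk, MvPolynomial.aeval_X]
  rfl

/-- `x ↦ u - a`. -/
noncomputable def mu (a : K) : K[X] →ₐ[K] NodeRing K :=
  Polynomial.aeval (uu K - algebraMap K (NodeRing K) a)

theorem nu_mu (a : K) (P : K[X]) : nu K a (mu K a P) = P := by
  have h : (nu K a).comp (mu K a) = AlgHom.id K K[X] := by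
    apply Polynomial.algHom_ext
    show nu K a (mu K a Polynomial.X) = Polynomial.X
    unfold mu
    rw [Polynomial.aeval_X, map_sub, nu_uu, AlgHom.commutes]
    show Polynomial.X + Polynomial.C a - Polynomial.C a = Polynomial.X
    ring
  exact DFunLike.congr_fun h P

theorem mu_nu_uu (a : K) : mu K a (nu K a (uu K)) = uu K := by
  rw [nu_uu]
  unfold mu
  rw [map_add, Polynomial.aeval_X, Polynomial.aeval_C]
  ring

theorem uu_mul (a : K) (z : NodeRing K) : uu K * z = uu K * mu K a (nu K a z) := by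
  obtain ⟨p, rfl⟩ := Ideal.Quotient.mk_surjective z
  induction p using MvPolynomial.induction_on with
  | C c =>
    have h : (Ideal.Quotient.mk (Ideal.span {(MvPolynomial.X 0 * MvPolynomial.X 1 :
        MvPolynomial (Fin 2) K)})) (MvPolynomial.C c) = algebraMap K (NodeRing K) c := rfl
    rw [h, AlgHom.commutes, AlgHom.commutes]
  | add p q hp hq =>
    rw [map_add, map_add, map_add, mul_add, mul_add, hp, hq]
  | mul_X p i hp =>
    rw [map_mul, map_mul, map_mul, ← mul_assoc, ← mul_assoc, hp]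
    fin_cases i
    · show uu K * _ * uu K = uu K * _ * mu K a (nu K a (uu K))
      rw [mu_nu_uu]
    · show uu K * _ * vv K = uu K * _ * mu K a (nu K a (vv K))
      rw [nu_vv, map_zero, mul_zero, mul_right_comm, uu_vv, zero_mul]

/-- The localisation of the line at `x + a`. -/
abbrev Lo (a : K) : Type := Localization.Away (Polynomial.X + Polynomial.C a : K[X])

theorem et_node (a : K) :
    ((algebraMap K[X] (Lo K a)).comp (nu K a).toRingHom).Etale := by
  let i1 : Algebra (NodeRing K) (Lo K a) :=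
    ((algebraMap K[X] (Lo K a)).comp (nu K a).toRingHom).toAlgebra
  have hs : (Polynomial.X + Polynomial.C a : K[X]) ≠ 0 := (Polynomial.monic_X_add_C a).ne_zero
  have hal : ∀ z : NodeRing K, algebraMap (NodeRing K) (Lo K a) z =
      algebraMap K[X] (Lo K a) (nu K a z) := fun _ => rfl
  have hloc : IsLocalization.Away (uu K) (Lo K a) := by
    refine (isLocalization_iff _ _).2 ⟨?_, ?_, ?_⟩
    · rintro ⟨_, m, rfl⟩
      show IsUnit (algebraMap (NodeRing K) (Lo K a) (uu K ^ m))
      rw [hal, map_pow, map_pow, nu_uu]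
      exact (IsLocalization.Away.algebraMap_isUnit (S := Lo K a)
        (Polynomial.X + Polynomial.C a : K[X])).pow m
    · intro z
      obtain ⟨m, P, hP⟩ := IsLocalization.Away.surj (Polynomial.X + Polynomial.C a : K[X]) z
      refine ⟨(mu K a P, ⟨uu K ^ m, m, rfl⟩), ?_⟩
      show z * algebraMap (NodeRing K) (Lo K a) (uu K ^ m) =
        algebraMap (NodeRing K) (Lo K a) (mu K a P)
      rw [hal, hal, nu_mu, map_pow, map_pow, nu_uu, hP]
    · intro z z' h
      rw [hal, hal] at h
      have hinj : Function.Injective (algebraMap K[X] (Lo K a)) :=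
        IsLocalization.injective (Lo K a) (powers_le_nonZeroDivisors_of_noZeroDivisors hs)
      have h1 := hinj h
      refine ⟨⟨uu K, 1, pow_one _⟩, ?_⟩
      show uu K * z = uu K * z'
      rw [uu_mul K a z, uu_mul K a z', h1]
  exact RingHom.etale_algebraMap.2 (Algebra.Etale.of_isLocalizationAway (uu K))

end node

/-! ### A chart with an étale coordinate is nodal -/

section chart

theorem etale_spMap {A B : Type} [CommRing A] [CommRing B] {φ : A →+* B} (h : φ.Etale) :
    Etale (spMap φ) :=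
  (HasRingHomProperty.Spec_iff (P := @Etale)).2 h

theorem fromSpec_coef {A : Type} [CommRing A] {X : Scheme.{0}} (π : X ⟶ Sp A) {U : X.Opens}
    (hU : IsAffineOpen U) : hU.fromSpec ≫ π = spMap (coef π U) := by
  have h := IsAffineOpen.SpecMap_appLE_fromSpec π (isAffineOpen_top (Sp A)) hU
    (show U ≤ π ⁻¹ᵁ ⊤ from le_top)
  rw [← h, IsAffineOpen.fromSpec_top, Scheme.isoSpec_Spec_inv, ← Spec.map_comp, coef_eq]
  rfl

variable {K : Type} [Field K]

theorem nodal_chart {X : Scheme.{0}} (π : X ⟶ Sp K) {U : X.Opens} (hU : IsAffineOpen U)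
    (κ : K[X] →+* Γ(X, U)) (hκ : κ.Etale) (hc : ∀ c : K, κ (Polynomial.C c) = coef π U c)
    {x : X} (hx : x ∈ U) :
    ∃ (V : Scheme.{0}) (f : V ⟶ X) (h : V ⟶ Sp (NodeRing K)),
      Etale f ∧ Etale h ∧ f ≫ π = h ≫ spMap (algebraMap K (NodeRing K)) ∧ x ∈ Set.range f := by
  -- the point of the spectrum
  obtain ⟨p, hp⟩ : x ∈ Set.range hU.fromSpec := by
    rw [hU.range_fromSpec]
    exact hx
  -- the choice of the constant
  obtain ⟨a, ha⟩ : ∃ a : K, κ (Polynomial.X + Polynomial.C a) ∉ p.asIdeal := by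
    by_cases h : κ Polynomial.X ∈ p.asIdeal
    · refine ⟨1, fun h1 => ?_⟩
      rw [map_add, Polynomial.C_1, map_one] at h1
      have h2 : (1 : Γ(X, U)) ∈ p.asIdeal := by
        have := p.asIdeal.sub_mem h1 h
        rwa [add_sub_cancel_left] at this
      exact p.isPrime.ne_top ((Ideal.eq_top_iff_one _).2 h2)
    · refine ⟨0, ?_⟩
      rwa [Polynomial.C_0, add_zero]
  set s : Γ(X, U) := κ (Polynomial.X + Polynomial.C a) with hs
  let G : Type := Localization.Away s
  let ell : Lo K a →+* G := IsLocalization.Away.map (Lo K a) G κ (Polynomial.X + Polynomial.C a)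
  have hell : ell.Etale := RingHom.Etale.propertyIsLocal.localizationAwayPreserves κ
    (Polynomial.X + Polynomial.C a) (Lo K a) G hκ
  let χ : NodeRing K →+* G := ell.comp ((algebraMap K[X] (Lo K a)).comp (nu K a).toRingHom)
  have hχ : χ.Etale := RingHom.Etale.stableUnderComposition _ _ (et_node K a) hell
  have hχc : ∀ c : K, χ (algebraMap K (NodeRing K) c) =
      algebraMap Γ(X, U) G (coef π U c) := by
    intro c
    show ell (algebraMap K[X] (Lo K a) (nu K a (algebraMap K (NodeRing K) c))) = _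
    rw [AlgHom.commutes, ← hc]
    exact IsLocalization.map_eq _ _
  have hloc : (algebraMap Γ(X, U) G).Etale :=
    RingHom.etale_algebraMap.2 (Algebra.Etale.of_isLocalizationAway s)
  refine ⟨Sp G, spMap (algebraMap Γ(X, U) G) ≫ hU.fromSpec, spMap χ, ?_, etale_spMap hχ, ?_, ?_⟩
  · have := etale_spMap hloc
    infer_instance
  · rw [Category.assoc, fromSpec_coef, ← Spec.map_comp, ← Spec.map_comp]
    congr 1
    ext c
    exact (hχc c).symm
  · have h1 : p ∈ Set.range (PrimeSpectrum.comap (algebraMap Γ(X, U) G)) := by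
      rw [PrimeSpectrum.localization_away_comap_range G s]
      exact ha
    obtain ⟨q, hq⟩ := h1
    refine ⟨q, ?_⟩
    rw [← hp, ← hq]
    rfl

end chart

end NOD

open NOD in
/-- NOD: constant families over algebraically closed fields are nodal. -/
theorem t_NOD (hCHB : Stmt_CHB) : Stmt_NOD := by
  intro n k _ C T ch K _ _ _ τ hτ x
  have haff : IsAffineHom (spMap (algebraMap k K)) := inferInstance
  have haf : IsAffineHom (pullback.fst C.π (spMap (algebraMap k K))) :=
    MorphismProperty.pullback_fst (P := @IsAffineHom) _ _ haff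
  obtain ⟨c, hc⟩ := hCHB ch.ct ch.aff K τ hτ
  have hx : x ∈ c.U1 ⊔ c.U2 := by
    rw [c.cover]
    trivial
  rcases hx with hx | hx
  · have hU : IsAffineOpen c.U1 := by
      rw [← hc.h1]
      exact @IsAffineOpen.preimage _ _ _ ch.aff.aff1 _ haf
    refine nodal_chart (constFam C K τ hτ).π hU
      (c.t1.comp (Polynomial.aeval ((1 : K) ⊗ₜ[k] T.x) : K[X] →ₐ[K] K ⊗[k] T.R1).toRingHom)
      ?_ ?_ hx
    · exact RingHom.Etale.stableUnderComposition _ _ (et_bc T.x T.etx)
        (RingHom.Etale.of_bijective c.b1)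
    · intro a
      show c.t1 (Polynomial.aeval ((1 : K) ⊗ₜ[k] T.x) (Polynomial.C a)) = _
      rw [Polynomial.aeval_C, ← c.c1]
      rfl
  · have hU : IsAffineOpen c.U2 := by
      rw [← hc.h2]
      exact @IsAffineOpen.preimage _ _ _ ch.aff.aff2 _ haf
    refine nodal_chart (constFam C K τ hτ).π hU
      (c.t2.comp (Polynomial.aeval ((1 : K) ⊗ₜ[k] T.y) : K[X] →ₐ[K] K ⊗[k] T.R2).toRingHom)
      ?_ ?_ hx
    · exact RingHom.Etale.stableUnderComposition _ _ (et_bc T.y T.ety)
        (RingHom.Etale.of_bijective c.b2)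
    · intro a
      show c.t2 (Polynomial.aeval ((1 : K) ⊗ₜ[k] T.y) (Polynomial.C a)) = _
      rw [Polynomial.aeval_C, ← c.c2]
      rfl

end Pool.Agent.MG
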