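import Pool.Agent.MG.StmtsBub
import Pool.Agent.MG.NOD

/-!
# BNOD: the nodal fibre of the bubble family is nodal
-/

open CategoryTheory CategoryTheory.Limits AlgebraicGeometry TensorProduct
open scoped Polynomial

namespace Pool.Agent.MG

namespace BNOD

open NOD

/-! ### Charts with an étale coordinate -/

theorem chart_pt {K : Type} [Field K] {X : Scheme.{0}} (π : X ⟶ Sp K) {A : Type} [CommRing A]
    (i : Sp A ⟶ X) [IsOpenImmersion i] (ψ : K →+* A) (hi : i ≫ π = spMap ψ)
    (κ : K[X] →+* A) (hκ : κ.Etale) (hc : ∀ c : K, κ (Polynomial.C c) = ψ c) (p : Sp A) :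
    ∃ (V : Scheme.{0}) (f : V ⟶ X) (h : V ⟶ Sp (NodeRing K)),
      Etale f ∧ Etale h ∧ f ≫ π = h ≫ spMap (algebraMap K (NodeRing K)) ∧
        i p ∈ Set.range f := by
  -- the choice of the constant
  obtain ⟨a, ha⟩ : ∃ a : K, κ (Polynomial.X + Polynomial.C a) ∉ p.asIdeal := by
    by_cases h : κ Polynomial.X ∈ p.asIdeal
    · refine ⟨1, fun h1 => ?_⟩
      rw [map_add, Polynomial.C_1, map_one] at h1
      have h2 : (1 : A) ∈ p.asIdeal := by
        have := p.asIdeal.sub_mem h1 h
        rwa [add_sub_cancel_left] at this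
      exact p.isPrime.ne_top ((Ideal.eq_top_iff_one _).2 h2)
    · refine ⟨0, ?_⟩
      rwa [Polynomial.C_0, add_zero]
  set s : A := κ (Polynomial.X + Polynomial.C a) with hs
  let G : Type := Localization.Away s
  let ell : Lo K a →+* G := IsLocalization.Away.map (Lo K a) G κ (Polynomial.X + Polynomial.C a)
  have hell : ell.Etale := RingHom.Etale.propertyIsLocal.localizationAwayPreserves κ
    (Polynomial.X + Polynomial.C a) (Lo K a) G hκ
  let χ : NodeRing K →+* G := ell.comp ((algebraMap K[X] (Lo K a)).comp (nu K a).toRingHom)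
  have hχ : χ.Etale := RingHom.Etale.stableUnderComposition _ _ (et_node K a) hell
  have hχc : ∀ c : K, χ (algebraMap K (NodeRing K) c) = algebraMap A G (ψ c) := by
    intro c
    show ell (algebraMap K[X] (Lo K a) (nu K a (algebraMap K (NodeRing K) c))) = _
    rw [AlgHom.commutes, ← hc]
    exact IsLocalization.map_eq _ _
  have hloc : (algebraMap A G).Etale :=
    RingHom.etale_algebraMap.2 (Algebra.Etale.of_isLocalizationAway s)
  refine ⟨Sp G, spMap (algebraMap A G) ≫ i, spMap χ, ?_, etale_spMap hχ, ?_, ?_⟩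
  · have := etale_spMap hloc
    infer_instance
  · rw [Category.assoc, hi, ← Spec.map_comp, ← Spec.map_comp]
    congr 1
    ext c
    exact (hχc c).symm
  · have h1 : p ∈ Set.range (PrimeSpectrum.comap (algebraMap A G)) := by
      rw [PrimeSpectrum.localization_away_comap_range G s]
      exact ha
    obtain ⟨q, hq⟩ := h1
    refine ⟨q, ?_⟩
    rw [← hq]
    rfl

/-! ### The coordinate at a point -/

theorem et_shift {k R : Type} [Field k] [CommRing R] [Algebra k R] (x : R)
    (h : (Polynomial.aeval x : k[X] →ₐ[k] R).toRingHom.Etale) (c : k) :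
    (Polynomial.aeval (x - algebraMap k R c) : k[X] →ₐ[k] R).toRingHom.Etale := by
  let u : k[X] →ₐ[k] k[X] := Polynomial.aeval (Polynomial.X - Polynomial.C c)
  let v : k[X] →ₐ[k] k[X] := Polynomial.aeval (Polynomial.X + Polynomial.C c)
  have huX : u Polynomial.X = Polynomial.X - Polynomial.C c := Polynomial.aeval_X _
  have hvX : v Polynomial.X = Polynomial.X + Polynomial.C c := Polynomial.aeval_X _
  have huC : ∀ a, u (Polynomial.C a) = Polynomial.C a := fun a => u.commutes a
  have hvC : ∀ a, v (Polynomial.C a) = Polynomial.C a := fun a => v.commutes a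
  have h1 : u.comp v = AlgHom.id k k[X] := by
    apply Polynomial.algHom_ext
    rw [AlgHom.comp_apply, hvX, map_add, huX, huC]
    show Polynomial.X - Polynomial.C c + Polynomial.C c = Polynomial.X
    ring
  have h2 : v.comp u = AlgHom.id k k[X] := by
    apply Polynomial.algHom_ext
    rw [AlgHom.comp_apply, huX, map_sub, hvX, hvC]
    show Polynomial.X + Polynomial.C c - Polynomial.C c = Polynomial.X
    ring
  have hb : Function.Bijective (u : k[X] →+* k[X]) := by
    constructor
    · intro p q hpq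
      have h3 : v (u p) = v (u q) := congrArg v hpq
      have h4 : ∀ r, v (u r) = r := fun r => DFunLike.congr_fun h2 r
      rwa [h4, h4] at h3
    · intro p
      exact ⟨v p, DFunLike.congr_fun h1 p⟩
  have he : (Polynomial.aeval (x - algebraMap k R c) : k[X] →ₐ[k] R).toRingHom =
      (Polynomial.aeval x : k[X] →ₐ[k] R).toRingHom.comp (u : k[X] →+* k[X]) := by
    have h5 : (Polynomial.aeval (x - algebraMap k R c) : k[X] →ₐ[k] R) =
        (Polynomial.aeval x : k[X] →ₐ[k] R).comp u := by
      apply Polynomial.algHom_ext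
      rw [AlgHom.comp_apply, huX, map_sub, Polynomial.aeval_X, Polynomial.aeval_X,
        Polynomial.aeval_C]
    rw [h5]
    rfl
  rw [he]
  exact RingHom.Etale.stableUnderComposition _ _ (RingHom.Etale.of_bijective hb) h

theorem etale_of_spMap {A B : Type} [CommRing A] [CommRing B] {φ : A →+* B}
    (h : Etale (spMap φ)) : φ.Etale :=
  (HasRingHomProperty.Spec_iff (P := @Etale)).1 h

/-! ### The base change square of chart rings -/

theorem nrE_isPullback {R R' : Type} [CommRing R] [CommRing R'] (χ : R →+* R') (z s : R)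
    (z' s' : R') (hz : z' = χ z) (hs : s' = χ s) :
    IsPullback (spMap (nrE χ z s z' s' hz hs)) (spMap (algebraMap R' (NR z' s')))
      (spMap (algebraMap R (NR z s))) (spMap χ) := by
  subst hz hs
  exact nrMap_isPullback χ z s

/-! ### The node -/

section node

variable (K : Type) [Field K]

/-- The ring `K[X][w]/(X w)`. -/
abbrev W : Type := NR (Polynomial.X : K[X]) (0 : K[X])

/-- The isomorphism `K[X][w]/(X w) → K[u, v]/(u v)`. -/
noncomputable def toNode : W K →+* NodeRing K :=
  nrLift ((Polynomial.aeval (uu K) : K[X] →ₐ[K] NodeRing K) : K[X] →+* NodeRing K) (vv K) (by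
    rw [RingHom.coe_coe, Polynomial.aeval_X, map_zero]
    exact uu_vv K)

theorem toNode_of (p : K[X]) : toNode K (algebraMap K[X] (W K) p) = Polynomial.aeval (uu K) p :=
  nrLift_of _ _ _ _

theorem toNode_w : toNode K (nw _ _) = vv K := nrLift_w _ _ _

/-- The constants. -/
noncomputable def cW : K →+* W K := (algebraMap K[X] (W K)).comp Polynomial.C

theorem w_rel : algebraMap K[X] (W K) Polynomial.X * nw _ _ = 0 := by
  rw [nw_rel, map_zero]

/-- The inverse. -/
noncomputable def ofNode : NodeRing K →+* W K :=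
  Ideal.Quotient.lift _ (MvPolynomial.eval₂Hom (cW K)
    ![algebraMap K[X] (W K) Polynomial.X, nw _ _]) (by
    intro p hp
    have h : Ideal.span {(MvPolynomial.X 0 * MvPolynomial.X 1 : MvPolynomial (Fin 2) K)} ≤
        RingHom.ker (MvPolynomial.eval₂Hom (cW K)
          ![algebraMap K[X] (W K) Polynomial.X, nw _ _]) := by
      rw [Ideal.span_le, Set.singleton_subset_iff]
      show MvPolynomial.eval₂Hom (cW K) ![algebraMap K[X] (W K) Polynomial.X, nw _ _]
        (MvPolynomial.X 0 * MvPolynomial.X 1) = 0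
      rw [map_mul, MvPolynomial.eval₂Hom_X', MvPolynomial.eval₂Hom_X']
      exact w_rel K
    exact h hp)

theorem ofNode_mk (p : MvPolynomial (Fin 2) K) : ofNode K (Ideal.Quotient.mk _ p) =
    MvPolynomial.eval₂Hom (cW K) ![algebraMap K[X] (W K) Polynomial.X, nw _ _] p := rfl

theorem ofNode_uu : ofNode K (uu K) = algebraMap K[X] (W K) Polynomial.X := by
  unfold uu
  rw [ofNode_mk, MvPolynomial.eval₂Hom_X']
  rfl

theorem ofNode_vv : ofNode K (vv K) = nw _ _ := by
  unfold vv
  rw [ofNode_mk, MvPolynomial.eval₂Hom_X']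
  rfl

theorem ofNode_C (c : K) : ofNode K (algebraMap K (NodeRing K) c) = cW K c := by
  have h : algebraMap K (NodeRing K) c =
    (Ideal.Quotient.mk (Ideal.span {(MvPolynomial.X 0 * MvPolynomial.X 1 :
        MvPolynomial (Fin 2) K)})) (MvPolynomial.C c) := rfl
  rw [h, ofNode_mk]
  exact MvPolynomial.eval₂Hom_C _ _ _

theorem ofNode_bijective : Function.Bijective (ofNode K) := by
  have h1 : (ofNode K).comp (toNode K) = RingHom.id (W K) := by
    apply nr_hom_ext
    · intro p
      show ((ofNode K).comp ((toNode K).comp (algebraMap K[X] (W K)))) p =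
        (algebraMap K[X] (W K)) p
      congr 1
      apply Polynomial.ringHom_ext
      · intro c
        simp only [RingHom.comp_apply]
        rw [toNode_of, Polynomial.aeval_C, ofNode_C]
        rfl
      · simp only [RingHom.comp_apply]
        rw [toNode_of, Polynomial.aeval_X, ofNode_uu]
    · rw [RingHom.comp_apply, toNode_w, ofNode_vv]
      rfl
  have h2 : (toNode K).comp (ofNode K) = RingHom.id (NodeRing K) := by
    apply Ideal.Quotient.ringHom_ext
    apply MvPolynomial.ringHom_ext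
    · intro c
      show toNode K (ofNode K (algebraMap K (NodeRing K) c)) = algebraMap K (NodeRing K) c
      rw [ofNode_C]
      show toNode K (algebraMap K[X] (W K) (Polynomial.C c)) = _
      rw [toNode_of, Polynomial.aeval_C]
    · intro i
      fin_cases i
      · show toNode K (ofNode K (uu K)) = uu K
        rw [ofNode_uu, toNode_of, Polynomial.aeval_X]
      · show toNode K (ofNode K (vv K)) = vv K
        rw [ofNode_vv, toNode_w]
  constructor
  · intro a b hab
    have h3 : toNode K (ofNode K a) = toNode K (ofNode K b) := congrArg _ hab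
    have h4 : ∀ r, toNode K (ofNode K r) = r := fun r => DFunLike.congr_fun h2 r
    rwa [h4, h4] at h3
  · intro b
    exact ⟨toNode K b, DFunLike.congr_fun h1 b⟩

end node

/-! ### The chart with the node -/

/-- A chart `A[w]/(z w)` with `z` an étale coordinate on `A`. -/
theorem node_chart {K : Type} [Field K] {X : Scheme.{0}} (π : X ⟶ Sp K) {A : Type} [CommRing A]
    (ψ : K →+* A) (z s : A) (hs : s = 0) (i : Sp (NR z s) ⟶ X) [IsOpenImmersion i]
    (hi : i ≫ π = spMap ((algebraMap A (NR z s)).comp ψ))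
    (κ : K[X] →+* A) (hκ : κ.Etale) (hκX : κ Polynomial.X = z)
    (hc : ∀ c : K, κ (Polynomial.C c) = ψ c) (p : Sp (NR z s)) :
    ∃ (V : Scheme.{0}) (f : V ⟶ X) (h : V ⟶ Sp (NodeRing K)),
      Etale f ∧ Etale h ∧ f ≫ π = h ≫ spMap (algebraMap K (NodeRing K)) ∧
        i p ∈ Set.range f := by
  let χ : W K →+* NR z s :=
    nrE κ (Polynomial.X : K[X]) 0 z s hκX.symm (hs.trans (map_zero κ).symm)
  have hχ : Etale (spMap χ) := MorphismProperty.of_isPullback
    (nrE_isPullback κ (Polynomial.X : K[X]) 0 z s hκX.symm (hs.trans (map_zero κ).symm)).flip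
    (etale_spMap hκ)
  have hn : Etale (spMap (ofNode K)) := by
    have := isIso_spMap _ (ofNode_bijective K)
    infer_instance
  refine ⟨Sp (NR z s), i, spMap χ ≫ spMap (ofNode K), inferInstance, inferInstance, ?_,
    ⟨p, rfl⟩⟩
  rw [hi, Category.assoc, ← spMap_comp, ← spMap_comp]
  congr 1
  ext c
  simp only [RingHom.comp_apply]
  rw [ofNode_C]
  show _ = χ (algebraMap K[X] (W K) (Polynomial.C c))
  have h1 : χ (algebraMap K[X] (W K) (Polynomial.C c)) =
      algebraMap A (NR z s) (κ (Polynomial.C c)) := nrE_of _ _ _ _ _ _ _ _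
  rw [h1, hc]

end BNOD

open NOD BNOD in
/-- BNOD: the nodal curve is nodal. -/
theorem t_BNOD : Stmt_BNOD := by
  intro n k _ C T ch j K _ _ _ b hb x
  have hz : (Polynomial.aeval (zz ch j) : k[X] →ₐ[k] T.R1).toRingHom.Etale :=
    et_shift T.x T.etx (ch.pt j T.x)
  rcases b_cover ch.aff (zz ch j) (zz_unit ch j) K b x with ⟨y, rfl⟩ | ⟨y, rfl⟩
  · rcases bl_cover ((1 : K) ⊗ₜ[k] (zz ch j)) (b ⊗ₜ[k] (1 : T.R1)) y with ⟨p, rfl⟩ | ⟨p, rfl⟩
    · have hi : (bl1 ((1 : K) ⊗ₜ[k] (zz ch j)) (b ⊗ₜ[k] (1 : T.R1)) ≫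
          bL ch.aff (zz ch j) (zz_unit ch j) K b) ≫ bπ ch.aff (zz ch j) (zz_unit ch j) K b =
          spMap ((algebraMap (K ⊗[k] T.R1) (NR ((1 : K) ⊗ₜ[k] (zz ch j))
            (b ⊗ₜ[k] (1 : T.R1)))).comp (inL k K T.R1)) := by
        rw [Category.assoc, bL_π, bl1_π_assoc, ← spMap_comp]
      have h1 := node_chart (bπ ch.aff (zz ch j) (zz_unit ch j) K b) (inL k K T.R1)
        ((1 : K) ⊗ₜ[k] (zz ch j)) (b ⊗ₜ[k] (1 : T.R1)) (by rw [hb, TensorProduct.zero_tmul])
        (bl1 _ _ ≫ bL ch.aff (zz ch j) (zz_unit ch j) K b) hi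
        (Polynomial.aeval ((1 : K) ⊗ₜ[k] (zz ch j)) : K[X] →ₐ[K] K ⊗[k] T.R1).toRingHom
        (et_bc _ hz) (Polynomial.aeval_X _) (fun c => Polynomial.aeval_C _ _) p
      rw [Scheme.Hom.comp_apply] at h1
      exact h1
    · have hi : (bl2 ((1 : K) ⊗ₜ[k] (zz ch j)) (b ⊗ₜ[k] (1 : T.R1)) ≫
          bL ch.aff (zz ch j) (zz_unit ch j) K b) ≫ bπ ch.aff (zz ch j) (zz_unit ch j) K b =
          spMap ((algebraMap (K ⊗[k] T.R1) (NR (b ⊗ₜ[k] (1 : T.R1))
            ((1 : K) ⊗ₜ[k] (zz ch j)))).comp (inL k K T.R1)) := by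
        rw [Category.assoc, bL_π, bl2_π_assoc, ← spMap_comp]
      have h1 := chart_pt (bπ ch.aff (zz ch j) (zz_unit ch j) K b)
        (bl2 _ _ ≫ bL ch.aff (zz ch j) (zz_unit ch j) K b) _ hi
        (yM (k := k) (zz ch j) b) (etale_of_spMap (yM_etale (zz ch j) b (etale_spMap hz)))
        (fun c => yM_C _ _ _) p
      rw [Scheme.Hom.comp_apply] at h1
      exact h1
  · exact chart_pt (bπ ch.aff (zz ch j) (zz_unit ch j) K b)
      (bR ch.aff (zz ch j) (zz_unit ch j) K b) (inL k K T.R2) (bR_π _ _ _ _ _)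
      (Polynomial.aeval ((1 : K) ⊗ₜ[k] T.y) : K[X] →ₐ[K] K ⊗[k] T.R2).toRingHom
      (et_bc _ T.ety) (fun c => Polynomial.aeval_C _ _) y

end Pool.Agent.MG
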