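import Pool.Agent.MG.StmtsBub
import Pool.Agent.MG.RIG

/-!
# BRA: rigidity of the nodal curve, algebra
-/

set_option linter.unusedSectionVars false

open CategoryTheory CategoryTheory.Limits AlgebraicGeometry TensorProduct

namespace Pool.Agent.MG

namespace BRA

open Polynomial

section

variable {K : Type} [Field K]

/-- A vector field on the line which extends to the other end and vanishes at two points. -/
theorem poly (r p : K[X]) (h0 : r.eval 0 = 0) (h1 : r.eval 1 = 0)
    (h : LaurentPolynomial.invert (toLaurent r) =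
      - (LaurentPolynomial.T (-1) * toLaurent p)) : r = 0 ∧ p = 0 := by
  have e1 : X * r.reverse = - (X ^ r.natDegree * p) := by
    apply Polynomial.toLaurent_injective
    rw [map_mul, map_neg, map_mul, map_pow, Polynomial.toLaurent_X,
      LaurentPolynomial.toLaurent_reverse, h, LaurentPolynomial.T_pow, mul_one]
    have h2 : LaurentPolynomial.T (R := K) 1 * LaurentPolynomial.T (-1) = 1 := by
      rw [← LaurentPolynomial.T_add]
      simp
    calc LaurentPolynomial.T 1 * (-(LaurentPolynomial.T (-1) * toLaurent p) *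
          LaurentPolynomial.T (r.natDegree : ℤ)) =
        - ((LaurentPolynomial.T 1 * LaurentPolynomial.T (-1)) *
          (LaurentPolynomial.T (r.natDegree : ℤ) * toLaurent p)) := by ring
      _ = _ := by rw [h2, one_mul]
  have hr : r = 0 := by
    by_contra hne
    have h3 := congrArg (fun f => f.coeff 1) e1
    simp only [coeff_X_mul, coeff_neg] at h3
    have h4 : r.reverse.coeff 0 = r.leadingCoeff := Polynomial.coeff_zero_reverse r
    rw [h4, coeff_X_pow_mul'] at h3
    have h5 : r.natDegree ≤ 1 := by
      by_contra h6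
      rw [if_neg h6, neg_zero] at h3
      exact hne (leadingCoeff_eq_zero.1 h3)
    have h6 := Polynomial.eq_X_add_C_of_natDegree_le_one h5
    rw [h6] at h0 h1
    simp only [eval_add, eval_mul, eval_C, eval_X, mul_zero, zero_add, mul_one] at h0 h1
    rw [h0, add_zero] at h1
    rw [h0, h1] at h6
    apply hne
    rw [h6]
    simp
  refine ⟨hr, ?_⟩
  rw [hr] at e1
  simp at e1
  exact e1

end


section

variable {K A : Type} [CommRing K] [CommRing A] {i : K →+* A} {D : A →+ A}

theorem der_one (hD : IsDer i D) : D 1 = 0 := by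
  have := hD.const 1
  rwa [map_one] at this

end

section

variable {n : ℕ} {k : Type} [Field k] {Cv : Fam n k} {T : TC k} (ch : Cht Cv T) (j : Fin n)
  (K : Type) [Field K] [Algebra k K] (b : K) (hb : b = 0)

/-- Induction for the first chart ring. -/
theorem N1_ind {P : N1 ch j K b → Prop}
    (h1 : ∀ a : K ⊗[k] T.R1, P (algebraMap (K ⊗[k] T.R1) (N1 ch j K b) a))
    (h2 : P (nw _ _)) (h3 : ∀ u v, P u → P v → P (u + v)) (h4 : ∀ u v, P u → P v → P (u * v))
    (u : N1 ch j K b) : P u := by
  obtain ⟨F, rfl⟩ := AdjoinRoot.mk_surjective u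
  induction F using Polynomial.induction_on with
  | C a => exact h1 a
  | add p q hp hq => rw [map_add]; exact h3 _ _ hp hq
  | monomial m a h =>
    rw [pow_succ, ← mul_assoc, map_mul]
    exact h4 _ _ h h2

/-- The map of the ring of the intersection to the Laurent polynomials. -/
noncomputable def toL : MR (zB ch j K) (b ⊗ₜ[k] (1 : T.R1)) →+* LaurentPolynomial K :=
  IsLocalization.Away.lift (nw (zB ch j K) (b ⊗ₜ[k] (1 : T.R1)))
    (g := (toLaurent (R := K)).comp (toW ch j K b hb)) (by
      rw [RingHom.comp_apply, toW_w, toLaurent_X]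
      exact LaurentPolynomial.isUnit_T 1)

theorem toL_of (u : N1 ch j K b) :
    toL ch j K b hb (algebraMap (N1 ch j K b) _ u) = toLaurent (toW ch j K b hb u) :=
  IsLocalization.Away.lift_eq _ _ _

theorem toL_inv : toL ch j K b hb (mInv _ _) = LaurentPolynomial.T (-1) := by
  have h := congrArg (toL ch j K b hb) (mInv_rel (zB ch j K) (b ⊗ₜ[k] (1 : T.R1)))
  rw [map_mul, toL_of, toW_w, toLaurent_X, map_one] at h
  have h2 : LaurentPolynomial.T (R := K) (-1) * LaurentPolynomial.T 1 = 1 := by
    rw [← LaurentPolynomial.T_add]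
    simp
  calc toL ch j K b hb (mInv _ _) = (LaurentPolynomial.T (R := K) (-1) * LaurentPolynomial.T 1) *
        toL ch j K b hb (mInv _ _) := by rw [h2, one_mul]
    _ = LaurentPolynomial.T (R := K) (-1) *
        (LaurentPolynomial.T 1 * toL ch j K b hb (mInv _ _)) := by ring
    _ = _ := by rw [h, mul_one]

theorem toL_swap (u : N2 ch j K b) :
    toL ch j K b hb (swapN _ _ u) = LaurentPolynomial.invert (toLaurent (toY ch j K b hb u)) := by
  have h : (toL ch j K b hb).comp (swapN _ _) =
      ((LaurentPolynomial.invert (R := K) : _ →+* _).comp (toLaurent (R := K))).comp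
        (toY ch j K b hb) := by
    apply nr_hom_ext
    · intro a
      simp only [RingHom.comp_apply]
      rw [swapN_of, algebraMap_MR, toL_of, toW_of, toY_of]
      simp
    · simp only [RingHom.comp_apply]
      rw [swapN_w, toL_inv, toY_w]
      simp
  exact congrArg (fun f => f u) h

end

end BRA

open BRA in
theorem t_BRA : Stmt_BRA := by
  intro n k _ C T ch hyp j K _ _ b hb D1 D2 D3 D12 DM d1 d2 d3 d12 dM e1 e2 e3 e4 v0 v1
  -- step 1
  have hZw := N1_zw ch j K b hb
  have hD := d1.mul (algebraMap _ (N1 ch j K b) (zB ch j K)) (nw _ _)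
  rw [hZw, map_zero] at hD
  have hA : toA ch j K b hb (D1 (nw _ _)) = 0 := by
    have h := congrArg (toA ch j K b hb) hD
    rw [map_zero, map_add, map_mul, map_mul, toA_of, toA_w, zero_mul, add_zero] at h
    exact zB_reg ch j K _ h.symm
  have hWz : toW ch j K b hb (algebraMap _ (N1 ch j K b) (zB ch j K)) = 0 := by
    rw [toW_of, evB_z, map_zero]
  have hW : toW ch j K b hb (D1 (algebraMap _ (N1 ch j K b) (zB ch j K))) = 0 := by
    have h := congrArg (toW ch j K b hb) hD
    rw [map_zero, map_add, map_mul, map_mul, hWz, toW_w, zero_mul, zero_add] at h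
    exact (mul_eq_zero.1 h.symm).resolve_left Polynomial.X_ne_zero
  obtain ⟨v, hv⟩ := toA_ker ch j K b hb _ hA
  -- step 3
  have hinv : DM (mInv _ _) = - (mInv _ _ * mInv _ _ * algebraMap (N1 ch j K b) _ (D1 (nw _ _))) := by
    have h1 := dM.mul (algebraMap (N1 ch j K b) _ (nw _ _)) (mInv _ _)
    rw [mInv_rel, der_one dM, e1] at h1
    have h2 : DM (mInv _ _) = (algebraMap (N1 ch j K b) _ (nw _ _) * mInv _ _) * DM (mInv _ _) := by
      rw [mInv_rel, one_mul]
    calc DM (mInv _ _) = mInv _ _ * (algebraMap (N1 ch j K b) _ (nw _ _) * DM (mInv _ _)) := by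
          conv_lhs => rw [h2]
          ring
      _ = mInv _ _ * (0 - mInv _ _ * algebraMap (N1 ch j K b) _ (D1 (nw _ _))) := by
          rw [h1]; ring
      _ = _ := by ring
  have hL := congrArg (toL ch j K b hb) ((e2 (nw _ _)).symm.trans (by rw [swapN_w, hinv]))
  rw [toL_swap, map_neg, map_mul, map_mul, toL_inv, toL_of, hv, map_mul, toW_w, map_mul,
    Polynomial.toLaurent_X] at hL
  have hT : LaurentPolynomial.T (R := K) (-1) * LaurentPolynomial.T 1 = 1 := by
    rw [← LaurentPolynomial.T_add]
    simp
  obtain ⟨hr, hp⟩ := poly _ _ (v0 (nw _ _)) (v1 (nw _ _)) (hL.trans (by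
    rw [show LaurentPolynomial.T (R := K) (-1) * LaurentPolynomial.T (-1) *
      (LaurentPolynomial.T 1 * Polynomial.toLaurent (toW ch j K b hb v)) =
      (LaurentPolynomial.T (R := K) (-1) * LaurentPolynomial.T 1) *
      (LaurentPolynomial.T (-1) * Polynomial.toLaurent (toW ch j K b hb v)) by ring, hT, one_mul]))
  have hD2w : D2 (nw _ _) = 0 := by
    apply (toY_bijective ch j K b hb).1
    rw [hr, map_zero]
  have hWw : toW ch j K b hb (D1 (nw _ _)) = 0 := by
    rw [hv, map_mul, hp, mul_zero]
  -- D2 = 0
  have hD2 : D2 = 0 := by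
    ext u
    have key : ∀ (P : Polynomial K) (u : N2 ch j K b), toY ch j K b hb u = P → D2 u = 0 := by
      intro P
      induction P using Polynomial.induction_on with
      | C c =>
        intro u hu
        have : u = algebraMap (K ⊗[k] T.R1) (N2 ch j K b) (inL k K T.R1 c) := by
          apply (toY_bijective ch j K b hb).1
          rw [hu, toY_of, inL_apply, evB_tmul, map_one, map_one, mul_one]
        rw [this]
        exact d2.const c
      | add p q hp hq =>
        intro u hu
        obtain ⟨x, hx⟩ := (toY_bijective ch j K b hb).2 p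
        obtain ⟨y, hy⟩ := (toY_bijective ch j K b hb).2 q
        have : u = x + y := by
          apply (toY_bijective ch j K b hb).1
          rw [hu, map_add, hx, hy]
        rw [this, map_add, hp x hx, hq y hy, add_zero]
      | monomial m c h =>
        intro u hu
        obtain ⟨x, hx⟩ := (toY_bijective ch j K b hb).2 (Polynomial.C c * Polynomial.X ^ m)
        have : u = x * nw _ _ := by
          apply (toY_bijective ch j K b hb).1
          rw [hu, map_mul, hx, toY_w, pow_succ, mul_assoc]
        rw [this, d2.mul, hD2w, h x hx, mul_zero, mul_zero, add_zero]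
    exact key _ u rfl
  -- the exceptional line
  have hWall : ∀ u, toW ch j K b hb (D1 u) = 0 := by
    refine N1_ind (P := fun u => toW ch j K b hb (D1 u) = 0) ch j K b ?_ ?_ ?_ ?_
    · intro a
      obtain ⟨c, hc⟩ := evB_gen ch j K a
      have h1 : algebraMap (K ⊗[k] T.R1) (N1 ch j K b) a =
          algebraMap (K ⊗[k] T.R1) (N1 ch j K b) (inL k K T.R1 (evB ch j K a)) +
          algebraMap (K ⊗[k] T.R1) (N1 ch j K b) (zB ch j K) *
            algebraMap (K ⊗[k] T.R1) (N1 ch j K b) c := by
        rw [← map_mul, ← map_add, inL_apply, ← hc]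
      rw [h1, map_add, d1.mul]
      have h2 : D1 (algebraMap (K ⊗[k] T.R1) (N1 ch j K b) (inL k K T.R1 (evB ch j K a))) = 0 :=
        d1.const _
      rw [h2, zero_add, map_add, map_mul, map_mul, hWz, hW, zero_mul, mul_zero, add_zero]
    · exact hWw
    · intro u v hu hv
      rw [map_add, map_add, hu, hv, add_zero]
    · intro u v hu hv
      rw [d1.mul, map_add, map_mul, map_mul, hu, hv, mul_zero, mul_zero, add_zero]
  -- the proper transform
  let E : K ⊗[k] T.R1 →+ K ⊗[k] T.R1 :=
    { toFun := fun a => toA ch j K b hb (D1 (algebraMap _ (N1 ch j K b) a))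
      map_zero' := by simp
      map_add' := fun x y => by simp }
  have hE : ∀ a, E a = toA ch j K b hb (D1 (algebraMap _ (N1 ch j K b) a)) := fun _ => rfl
  obtain ⟨hE0, hD3⟩ := RIG.alg ch.inj2 hyp E D3 D12 (by
      intro x y
      rw [hE, hE, hE, map_mul, d1.mul, map_add, map_mul, map_mul, toA_of, toA_of]) (by
      intro c
      rw [hE]
      have h2 : D1 (algebraMap (K ⊗[k] T.R1) (N1 ch j K b) (inL k K T.R1 c)) = 0 := d1.const _
      rw [inL_apply] at h2
      rw [h2, map_zero]) d3.mul d3.const d12.mul d12.const (by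
      intro a
      have h := e3 (algebraMap _ (N1 ch j K b) a)
      rw [toA_of] at h
      exact h) (fun a => e4 a)
  have hAall : ∀ u, toA ch j K b hb (D1 u) = 0 := by
    refine N1_ind (P := fun u => toA ch j K b hb (D1 u) = 0) ch j K b ?_ ?_ ?_ ?_
    · intro a
      have := DFunLike.congr_fun hE0 a
      exact this
    · exact hA
    · intro u v hu hv
      rw [map_add, map_add, hu, hv, add_zero]
    · intro u v hu hv
      rw [d1.mul, map_add, map_mul, map_mul, hu, hv, mul_zero, mul_zero, add_zero]
  refine ⟨?_, hD2, hD3⟩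
  ext u
  exact toAW_injective ch j K b hb _ (hAall u) (hWall u)

end Pool.Agent.MG
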