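import Pool.Agent.MG.BRA

/-!
# BRAW: rigidity of the nodal curve, algebra, weak form
-/

set_option linter.unusedSectionVars false

open CategoryTheory CategoryTheory.Limits AlgebraicGeometry TensorProduct

namespace Pool.Agent.MG

namespace BRAW

section

variable {n : ℕ} {k : Type} [Field k] {Cv : Fam n k} {T : TC k} (ch : Cht Cv T) (j : Fin n)
  (K : Type) [Field K] [Algebra k K] (b : K) (hb : b = 0)

/-- The value at the node, computed on both components. -/
theorem evB_toA (u : N1 ch j K b) :
    evB ch j K (toA ch j K b hb u) = (toW ch j K b hb u).coeff 0 := by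
  have h : (evB ch j K).comp (toA ch j K b hb) =
      (Polynomial.constantCoeff (R := K)).comp (toW ch j K b hb) := by
    apply nr_hom_ext
    · intro a
      rw [RingHom.comp_apply, RingHom.comp_apply, toA_of, toW_of, Polynomial.constantCoeff_apply,
        Polynomial.coeff_C_zero]
    · rw [RingHom.comp_apply, RingHom.comp_apply, toA_w, toW_w, map_zero,
        Polynomial.constantCoeff_apply, Polynomial.coeff_X_zero]
  exact congrArg (fun f => f u) h

end

end BRAW

open BRA BRAW in
theorem t_BRAW (hALGW : Stmt_ALGW) : Stmt_BRAW := by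
  intro n k _ C T ch j hyp K _ _ b hb D1 D2 D3 D12 DM d1 d2 d3 d12 dM e1 e2 e3 e4 v0 v1
  -- step 1
  have hZw := N1_zw ch j K b hb
  have hD := d1.mul (algebraMap _ (N1 ch j K b) (zB ch j K)) (nw _ _)
  rw [hZw, map_zero] at hD
  have hA : toA ch j K b hb (D1 (nw _ _)) = 0 := by
    have h := congrArg (toA ch j K b hb) hD
    rw [map_zero, map_add, map_mul, map_mul, toA_of, toA_w, zero_mul, add_zero] at h
    exact zB_reg ch j K _ h.symm
  have hWz : toW ch j K b hb (algebraMap _ (N1 ch j K b) (zB ch j K)) = 0 := by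
    rw [toW_of, evB_z, map_zero]
  have hW : toW ch j K b hb (D1 (algebraMap _ (N1 ch j K b) (zB ch j K))) = 0 := by
    have h := congrArg (toW ch j K b hb) hD
    rw [map_zero, map_add, map_mul, map_mul, hWz, toW_w, zero_mul, zero_add] at h
    exact (mul_eq_zero.1 h.symm).resolve_left Polynomial.X_ne_zero
  obtain ⟨v, hv⟩ := toA_ker ch j K b hb _ hA
  -- step 3
  have hinv : DM (mInv _ _) = - (mInv _ _ * mInv _ _ * algebraMap (N1 ch j K b) _ (D1 (nw _ _))) := by
    have h1 := dM.mul (algebraMap (N1 ch j K b) _ (nw _ _)) (mInv _ _)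
    rw [mInv_rel, der_one dM, e1] at h1
    have h2 : DM (mInv _ _) = (algebraMap (N1 ch j K b) _ (nw _ _) * mInv _ _) * DM (mInv _ _) := by
      rw [mInv_rel, one_mul]
    calc DM (mInv _ _) = mInv _ _ * (algebraMap (N1 ch j K b) _ (nw _ _) * DM (mInv _ _)) := by
          conv_lhs => rw [h2]
          ring
      _ = mInv _ _ * (0 - mInv _ _ * algebraMap (N1 ch j K b) _ (D1 (nw _ _))) := by
          rw [h1]; ring
      _ = _ := by ring
  have hL := congrArg (toL ch j K b hb) ((e2 (nw _ _)).symm.trans (by rw [swapN_w, hinv]))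
  rw [toL_swap, map_neg, map_mul, map_mul, toL_inv, toL_of, hv, map_mul, toW_w, map_mul,
    Polynomial.toLaurent_X] at hL
  have hT : LaurentPolynomial.T (R := K) (-1) * LaurentPolynomial.T 1 = 1 := by
    rw [← LaurentPolynomial.T_add]
    simp
  obtain ⟨hr, hp⟩ := poly _ _ (v0 (nw _ _)) (v1 (nw _ _)) (hL.trans (by
    rw [show LaurentPolynomial.T (R := K) (-1) * LaurentPolynomial.T (-1) *
      (LaurentPolynomial.T 1 * Polynomial.toLaurent (toW ch j K b hb v)) =
      (LaurentPolynomial.T (R := K) (-1) * LaurentPolynomial.T 1) *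
      (LaurentPolynomial.T (-1) * Polynomial.toLaurent (toW ch j K b hb v)) by ring, hT, one_mul]))
  have hD2w : D2 (nw _ _) = 0 := by
    apply (toY_bijective ch j K b hb).1
    rw [hr, map_zero]
  have hWw : toW ch j K b hb (D1 (nw _ _)) = 0 := by
    rw [hv, map_mul, hp, mul_zero]
  -- D2 = 0
  have hD2 : D2 = 0 := by
    ext u
    have key : ∀ (P : Polynomial K) (u : N2 ch j K b), toY ch j K b hb u = P → D2 u = 0 := by
      intro P
      induction P using Polynomial.induction_on with
      | C c =>
        intro u hu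
        have : u = algebraMap (K ⊗[k] T.R1) (N2 ch j K b) (inL k K T.R1 c) := by
          apply (toY_bijective ch j K b hb).1
          rw [hu, toY_of, inL_apply, evB_tmul, map_one, map_one, mul_one]
        rw [this]
        exact d2.const c
      | add p q hp hq =>
        intro u hu
        obtain ⟨x, hx⟩ := (toY_bijective ch j K b hb).2 p
        obtain ⟨y, hy⟩ := (toY_bijective ch j K b hb).2 q
        have : u = x + y := by
          apply (toY_bijective ch j K b hb).1
          rw [hu, map_add, hx, hy]
        rw [this, map_add, hp x hx, hq y hy, add_zero]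
      | monomial m c h =>
        intro u hu
        obtain ⟨x, hx⟩ := (toY_bijective ch j K b hb).2 (Polynomial.C c * Polynomial.X ^ m)
        have : u = x * nw _ _ := by
          apply (toY_bijective ch j K b hb).1
          rw [hu, map_mul, hx, toY_w, pow_succ, mul_assoc]
        rw [this, d2.mul, hD2w, h x hx, mul_zero, mul_zero, add_zero]
    exact key _ u rfl
  -- the exceptional line
  have hWall : ∀ u, toW ch j K b hb (D1 u) = 0 := by
    refine N1_ind (P := fun u => toW ch j K b hb (D1 u) = 0) ch j K b ?_ ?_ ?_ ?_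
    · intro a
      obtain ⟨c, hc⟩ := evB_gen ch j K a
      have h1 : algebraMap (K ⊗[k] T.R1) (N1 ch j K b) a =
          algebraMap (K ⊗[k] T.R1) (N1 ch j K b) (inL k K T.R1 (evB ch j K a)) +
          algebraMap (K ⊗[k] T.R1) (N1 ch j K b) (zB ch j K) *
            algebraMap (K ⊗[k] T.R1) (N1 ch j K b) c := by
        rw [← map_mul, ← map_add, inL_apply, ← hc]
      rw [h1, map_add, d1.mul]
      have h2 : D1 (algebraMap (K ⊗[k] T.R1) (N1 ch j K b) (inL k K T.R1 (evB ch j K a))) = 0 :=
        d1.const _
      rw [h2, zero_add, map_add, map_mul, map_mul, hWz, hW, zero_mul, mul_zero, add_zero]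
    · exact hWw
    · intro u v hu hv
      rw [map_add, map_add, hu, hv, add_zero]
    · intro u v hu hv
      rw [d1.mul, map_add, map_mul, map_mul, hu, hv, mul_zero, mul_zero, add_zero]
  -- the proper transform
  let E : K ⊗[k] T.R1 →+ K ⊗[k] T.R1 :=
    { toFun := fun a => toA ch j K b hb (D1 (algebraMap _ (N1 ch j K b) a))
      map_zero' := by simp
      map_add' := fun x y => by simp }
  have hE : ∀ a, E a = toA ch j K b hb (D1 (algebraMap _ (N1 ch j K b) a)) := fun _ => rfl
  obtain ⟨hE0, hD3⟩ := hALGW ch j hyp K E D3 D12 ⟨by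
      intro x y
      rw [hE, hE, hE, map_mul, d1.mul, map_add, map_mul, map_mul, toA_of, toA_of], by
      intro c
      rw [hE]
      have h2 : D1 (algebraMap (K ⊗[k] T.R1) (N1 ch j K b) (inL k K T.R1 c)) = 0 := d1.const _
      rw [h2, map_zero]⟩ d3 d12 (by
      intro a
      have h := e3 (algebraMap _ (N1 ch j K b) a)
      rw [toA_of] at h
      exact h) (fun a => e4 a) (by
      intro a
      rw [hE, evB_toA, hWall, Polynomial.coeff_zero])
  have hAall : ∀ u, toA ch j K b hb (D1 u) = 0 := by
    refine N1_ind (P := fun u => toA ch j K b hb (D1 u) = 0) ch j K b ?_ ?_ ?_ ?_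
    · intro a
      have := DFunLike.congr_fun hE0 a
      exact this
    · exact hA
    · intro u v hu hv
      rw [map_add, map_add, hu, hv, add_zero]
    · intro u v hu hv
      rw [d1.mul, map_add, map_mul, map_mul, hu, hv, mul_zero, mul_zero, add_zero]
  refine ⟨?_, hD2, hD3⟩
  ext u
  exact toAW_injective ch j K b hb _ (hAall u) (hWall u)

end Pool.Agent.MG
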