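import Pool.Agent.MG.StmtsBub
import Pool.Agent.MG.Bub.Open

/-!
# BRIG: rigidity of the nodal curve
-/

set_option linter.unusedSectionVars false

open CategoryTheory CategoryTheory.Limits AlgebraicGeometry TensorProduct

namespace Pool.Agent.MG

namespace BRIG

section gen

variable {n : ℕ} {K : Type} [Field K] {x : Fam n K} (v : VField x)

theorem dres {U V : x.X.Opens} (h : U ≤ V) (a : Γ(x.X, V)) :
    v.D U (rs x.X h a) = rs x.X h (v.D V a) := v.res U V h a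

/-- A derivation which vanishes on the functions on an affine open vanishes on the functions on its
basic opens. -/
theorem basic0 {W : x.X.Opens} (hW : IsAffineOpen W) (h0 : v.D W = 0) (f : Γ(x.X, W)) :
    v.D (x.X.basicOpen f) = 0 := by
  have := hW.isLocalization_basicOpen f
  ext s
  obtain ⟨⟨a, ⟨_, m, rfl⟩⟩, hs⟩ := IsLocalization.surj (Submonoid.powers f) s
  have hle : x.X.basicOpen f ≤ W := x.X.basicOpen_le f
  have e : ∀ b : Γ(x.X, W), algebraMap Γ(x.X, W) Γ(x.X, x.X.basicOpen f) b = rs x.X hle b :=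
    fun _ => rfl
  have hz : ∀ b : Γ(x.X, W), v.D (x.X.basicOpen f)
      (algebraMap Γ(x.X, W) Γ(x.X, x.X.basicOpen f) b) = 0 := by
    intro b
    rw [e, dres, h0]
    exact map_zero _
  have h1 := congrArg (v.D (x.X.basicOpen f)) hs
  rw [hz, v.mul, hz, mul_zero, zero_add] at h1
  have hu : IsUnit (algebraMap Γ(x.X, W) Γ(x.X, x.X.basicOpen f) (f ^ m)) :=
    IsLocalization.map_units (M := Submonoid.powers f) _ ⟨f ^ m, m, rfl⟩
  exact (hu.mul_right_eq_zero).1 h1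

theorem all0 {ι : Type} (W : ι → x.X.Opens) (hc : ∀ p : x.X, ∃ i, p ∈ W i)
    (a : ∀ i, IsAffineOpen (W i)) (h : ∀ i, v.D (W i) = 0) (U : x.X.Opens) : v.D U = 0 := by
  have hloc : ∀ p : U, ∃ (V : x.X.Opens) (_ : V ≤ U), p.1 ∈ V ∧ v.D V = 0 := by
    intro p
    obtain ⟨i, hp⟩ := hc p.1
    obtain ⟨f, hf, hpf⟩ := (a i).exists_basicOpen_le p hp
    exact ⟨_, hf, hpf, basic0 v (a i) (h i) f⟩
  choose V hV hpV hDV using hloc
  ext s
  refine x.X.sheaf.eq_of_locally_eq' V U (fun p => homOfLE (hV p)) ?_ _ _ ?_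
  · intro p hp
    rw [TopologicalSpace.Opens.mem_iSup]
    exact ⟨⟨p, hp⟩, hpV ⟨p, hp⟩⟩
  · intro p
    change rs x.X (hV p) (v.D U s) = rs x.X (hV p) 0
    rw [← dres, hDV, map_zero]
    rfl

variable {A : Type} [CommRing A] (i : Sp A ⟶ x.X) [IsOpenImmersion i]

/-- Functions on the image of an open immersion. -/
noncomputable def fe : Γ(x.X, i.opensRange) ≃+* A :=
  RingEquiv.ofBijective (evO i i.opensRange (range_pre i)) (evO_bij i (range_pre i) (fun _ h => h))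

theorem fe_apply (a : Γ(x.X, i.opensRange)) :
    fe i a = evO i i.opensRange (range_pre i) a := rfl

/-- The derivation on a chart. -/
noncomputable def DI : A →+ A :=
  (fe i : Γ(x.X, i.opensRange) →+ A).comp ((v.D i.opensRange).comp
    ((fe i).symm : A →+ Γ(x.X, i.opensRange)))

theorem DI_fe (f : Γ(x.X, i.opensRange)) : DI v i (fe i f) = fe i (v.D _ f) := by
  change fe i (v.D _ ((fe i).symm (fe i f))) = _
  rw [RingEquiv.symm_apply_apply]

theorem DI_der (ψ : K →+* A) (hψ : i ≫ x.π = spMap ψ) : IsDer ψ (DI v i) where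
  mul a b := by
    obtain ⟨f, rfl⟩ := (fe i).surjective a
    obtain ⟨g, rfl⟩ := (fe i).surjective b
    rw [← map_mul, DI_fe, DI_fe, DI_fe, v.mul, map_add, map_mul, map_mul]
  const c := by
    have h1 : ψ c = fe i (coef x.π i.opensRange c) :=
      (evO_coef i x.π ψ hψ (range_pre i) c).symm
    rw [h1, DI_fe, v.const, map_zero]

theorem DI_comp {A' : Type} [CommRing A'] (i' : Sp A' ⟶ x.X) [IsOpenImmersion i']
    (ψ : A →+* A') (h : i' = spMap ψ ≫ i) (u : A) : DI v i' (ψ u) = ψ (DI v i u) := by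
  subst h
  obtain ⟨f, rfl⟩ := (fe i).surjective u
  have hle : (spMap ψ ≫ i).opensRange ≤ i.opensRange := by
    rintro _ ⟨p, rfl⟩
    exact ⟨spMap ψ p, (Scheme.Hom.comp_apply _ _ _).symm⟩
  have hpre : ⊤ ≤ (spMap ψ ≫ i) ⁻¹ᵁ i.opensRange := fun p _ => hle ⟨p, rfl⟩
  have key : ∀ g : Γ(x.X, i.opensRange), ψ (fe i g) = fe (spMap ψ ≫ i) (rs x.X hle g) := by
    intro g
    rw [fe_apply, fe_apply, evO_rs (spMap ψ ≫ i) hle (range_pre _) hpre,
      evO_spMap i ψ (range_pre i) hpre]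
  rw [DI_fe, key, key, DI_fe, dres]

theorem DI_sec (l : Fin n) (β : A →+* K) (h : x.σ l = spMap β ≫ i) (u : A) :
    β (DI v i u) = 0 := by
  obtain ⟨f, rfl⟩ := (fe i).surjective u
  rw [DI_fe, fe_apply]
  have hpre : ⊤ ≤ (spMap β ≫ i) ⁻¹ᵁ i.opensRange := by
    intro p _
    exact ⟨spMap β p, (Scheme.Hom.comp_apply _ _ _).symm⟩
  rw [← evO_spMap i β (range_pre i) hpre]
  have h1 := v.sec i.opensRange l f
  have key : ∀ (τ : Sp K ⟶ x.X) (g : Γ(x.X, i.opensRange)) (hp : ⊤ ≤ τ ⁻¹ᵁ i.opensRange),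
      τ.app i.opensRange g = 0 → evO τ i.opensRange hp g = 0 := by
    intro τ g hp hg
    unfold evO
    rw [RingHom.comp_apply]
    have h2 : (τ.appLE i.opensRange ⊤ hp).hom g =
        ((Sp K).presheaf.map (homOfLE hp).op).hom ((τ.app i.opensRange).hom g) := rfl
    rw [h2]
    have h3 : (τ.app i.opensRange).hom g = 0 := hg
    rw [h3, map_zero, map_zero]
  apply key
  rw [h] at h1
  exact h1

theorem D_zero (h : DI v i = 0) : v.D i.opensRange = 0 := by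
  ext f
  apply (fe i).injective
  rw [← DI_fe, h]
  exact (map_zero _).symm

end gen

section main

variable {n : ℕ} {k : Type} [Field k] {C : Fam n k} {T : TC k} (ch : Cht C T) (i₀ j : Fin n)
  (hji : j ≠ i₀) {K : Type} [Field K] [Algebra k K] (φ : T.R1 →ₐ[k] K)

/-- The first chart. -/
noncomputable def i1 : Sp (N1 ch j K (φ (zz ch j))) ⟶ (bubFam ch i₀ j φ hji).X :=
  bl1 (zB ch j K) (φ (zz ch j) ⊗ₜ[k] (1 : T.R1)) ≫
    bL ch.aff (zz ch j) (zz_unit ch j) K (φ (zz ch j))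

/-- The second chart. -/
noncomputable def i2 : Sp (N2 ch j K (φ (zz ch j))) ⟶ (bubFam ch i₀ j φ hji).X :=
  bl2 (zB ch j K) (φ (zz ch j) ⊗ₜ[k] (1 : T.R1)) ≫
    bL ch.aff (zz ch j) (zz_unit ch j) K (φ (zz ch j))

/-- The third chart. -/
noncomputable def iR : Sp (K ⊗[k] T.R2) ⟶ (bubFam ch i₀ j φ hji).X :=
  bR ch.aff (zz ch j) (zz_unit ch j) K (φ (zz ch j))

/-- The intersection of the first two charts. -/
noncomputable def iM : Sp (MR (zB ch j K) (φ (zz ch j) ⊗ₜ[k] (1 : T.R1))) ⟶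
    (bubFam ch i₀ j φ hji).X :=
  (blf (zB ch j K) (φ (zz ch j) ⊗ₜ[k] (1 : T.R1)) ≫
    bl1 (zB ch j K) (φ (zz ch j) ⊗ₜ[k] (1 : T.R1))) ≫
    bL ch.aff (zz ch j) (zz_unit ch j) K (φ (zz ch j))

/-- The intersection with the third chart. -/
noncomputable def iJ : Sp (K ⊗[k] T.R12) ⟶ (bubFam ch i₀ j φ hji).X :=
  bJ (zz ch j) (zz_unit ch j) K (φ (zz ch j)) ≫
    bL ch.aff (zz ch j) (zz_unit ch j) K (φ (zz ch j))

instance : IsOpenImmersion (i1 ch i₀ j hji φ) := by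
  unfold i1
  exact inferInstanceAs (IsOpenImmersion (bl1 (zB ch j K) (φ (zz ch j) ⊗ₜ[k] (1 : T.R1)) ≫
    bL ch.aff (zz ch j) (zz_unit ch j) K (φ (zz ch j))))

instance : IsOpenImmersion (i2 ch i₀ j hji φ) := by
  unfold i2
  exact inferInstanceAs (IsOpenImmersion (bl2 (zB ch j K) (φ (zz ch j) ⊗ₜ[k] (1 : T.R1)) ≫
    bL ch.aff (zz ch j) (zz_unit ch j) K (φ (zz ch j))))

instance : IsOpenImmersion (iR ch i₀ j hji φ) := by
  unfold iR
  exact inferInstanceAs (IsOpenImmersion (bR ch.aff (zz ch j) (zz_unit ch j) K (φ (zz ch j))))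

instance : IsOpenImmersion (iM ch i₀ j hji φ) := by
  unfold iM
  exact inferInstanceAs (IsOpenImmersion ((blf (zB ch j K) (φ (zz ch j) ⊗ₜ[k] (1 : T.R1)) ≫
    bl1 (zB ch j K) (φ (zz ch j) ⊗ₜ[k] (1 : T.R1))) ≫
    bL ch.aff (zz ch j) (zz_unit ch j) K (φ (zz ch j))))

instance : IsOpenImmersion (iJ ch i₀ j hji φ) := by
  have := bJ_open ch.aff (zz ch j) (zz_unit ch j) K (φ (zz ch j))
  unfold iJ
  exact inferInstanceAs (IsOpenImmersion (bJ (zz ch j) (zz_unit ch j) K (φ (zz ch j)) ≫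
    bL ch.aff (zz ch j) (zz_unit ch j) K (φ (zz ch j))))

theorem i1_π : i1 ch i₀ j hji φ ≫ (bubFam ch i₀ j φ hji).π =
    spMap ((algebraMap (K ⊗[k] T.R1) (N1 ch j K (φ (zz ch j)))).comp (inL k K T.R1)) := by
  have h : bl1 (zB ch j K) (φ (zz ch j) ⊗ₜ[k] (1 : T.R1)) ≫
      bL ch.aff (zz ch j) (zz_unit ch j) K (φ (zz ch j)) ≫
      bπ ch.aff (zz ch j) (zz_unit ch j) K (φ (zz ch j)) =
      spMap ((algebraMap (K ⊗[k] T.R1) (N1 ch j K (φ (zz ch j)))).comp (inL k K T.R1)) := by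
    rw [bL_π, ← Category.assoc, bl1_π, ← spMap_comp]
  exact (Category.assoc _ _ _).trans h

theorem i2_π : i2 ch i₀ j hji φ ≫ (bubFam ch i₀ j φ hji).π =
    spMap ((algebraMap (K ⊗[k] T.R1) (N2 ch j K (φ (zz ch j)))).comp (inL k K T.R1)) := by
  have h : bl2 (zB ch j K) (φ (zz ch j) ⊗ₜ[k] (1 : T.R1)) ≫
      bL ch.aff (zz ch j) (zz_unit ch j) K (φ (zz ch j)) ≫
      bπ ch.aff (zz ch j) (zz_unit ch j) K (φ (zz ch j)) =
      spMap ((algebraMap (K ⊗[k] T.R1) (N2 ch j K (φ (zz ch j)))).comp (inL k K T.R1)) := by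
    rw [bL_π, ← Category.assoc, bl2_π, ← spMap_comp]
  exact (Category.assoc _ _ _).trans h

theorem iR_π : iR ch i₀ j hji φ ≫ (bubFam ch i₀ j φ hji).π = spMap (inL k K T.R2) :=
  bR_π ch.aff (zz ch j) (zz_unit ch j) K (φ (zz ch j))

theorem iM_eq1 : iM ch i₀ j hji φ = spMap (algebraMap (N1 ch j K (φ (zz ch j)))
    (MR (zB ch j K) (φ (zz ch j) ⊗ₜ[k] (1 : T.R1)))) ≫ i1 ch i₀ j hji φ :=
  Category.assoc _ _ _

theorem iM_eq2 : iM ch i₀ j hji φ = spMap (swapN (zB ch j K)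
    (φ (zz ch j) ⊗ₜ[k] (1 : T.R1))) ≫ i2 ch i₀ j hji φ := by
  unfold iM
  rw [bl_cond]
  exact Category.assoc _ _ _

theorem iM_π : iM ch i₀ j hji φ ≫ (bubFam ch i₀ j φ hji).π =
    spMap ((algebraMap (K ⊗[k] T.R1) (MR (zB ch j K) (φ (zz ch j) ⊗ₜ[k] (1 : T.R1)))).comp
      (inL k K T.R1)) := by
  rw [iM_eq1, Category.assoc, i1_π, ← spMap_comp]

theorem iJ_eq2 : iJ ch i₀ j hji φ = spMap (bmap K T.j2) ≫ iR ch i₀ j hji φ :=
  b_cond ch.aff (zz ch j) (zz_unit ch j) K (φ (zz ch j))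

theorem iJ_π : iJ ch i₀ j hji φ ≫ (bubFam ch i₀ j φ hji).π = spMap (inL k K T.R12) := by
  rw [iJ_eq2, Category.assoc, iR_π, ← spMap_comp, bmap_inL]

theorem bJ_eq (hb : φ (zz ch j) = 0) : bJ (zz ch j) (zz_unit ch j) K (φ (zz ch j)) =
    spMap ((bmap K T.j1).comp (toA ch j K (φ (zz ch j)) hb)) ≫
      bl1 (zB ch j K) (φ (zz ch j) ⊗ₜ[k] (1 : T.R1)) := by
  have h1 : (spMap ((bmap K T.j1).comp (toA ch j K (φ (zz ch j)) hb)) ≫
      bl1 (zB ch j K) (φ (zz ch j) ⊗ₜ[k] (1 : T.R1))) ≫ blπ _ _ =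
      𝟙 _ ≫ spMap (bmap K T.j1) := by
    rw [Category.assoc, bl1_π, ← spMap_comp, Category.id_comp]
    congr 1
    exact RingHom.ext fun a => congrArg (bmap K T.j1) (toA_of ch j K (φ (zz ch j)) hb a)
  have h2 := (bJ_isPullback ch.aff (zz ch j) (zz_unit ch j) K (φ (zz ch j))).lift_fst _ _ h1
  have h3 := (bJ_isPullback ch.aff (zz ch j) (zz_unit ch j) K (φ (zz ch j))).lift_snd _ _ h1
  rw [Category.comp_id] at h3
  rw [h3, Category.id_comp] at h2
  exact h2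

theorem iJ_eq1 (hb : φ (zz ch j) = 0) : iJ ch i₀ j hji φ =
    spMap ((bmap K T.j1).comp (toA ch j K (φ (zz ch j)) hb)) ≫ i1 ch i₀ j hji φ := by
  unfold iJ
  rw [bJ_eq ch j φ hb]
  exact Category.assoc _ _ _

theorem sec_i0 (hb : φ (zz ch j) = 0) : (bubFam ch i₀ j φ hji).σ i₀ =
    spMap ((Polynomial.evalRingHom 1).comp (toY ch j K (φ (zz ch j)) hb)) ≫
      i2 ch i₀ j hji φ := by
  have h1 : secT ch i₀ j φ hji i₀ =
      spMap ((Polynomial.evalRingHom 1).comp (toY ch j K (φ (zz ch j)) hb)) ≫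
        bl2 (zB ch j K) (φ (zz ch j) ⊗ₜ[k] (1 : T.R1)) := by
    unfold secT
    rw [dif_pos rfl]
    congr 2
    apply nr_hom_ext
    · intro r
      rw [nrLift_of, RingHom.comp_apply, toY_of]
      change extA φ r = Polynomial.eval 1 (Polynomial.C (evB ch j K r))
      rw [Polynomial.eval_C]
      obtain ⟨c, hc⟩ := evB_gen ch j K r
      conv_lhs => rw [hc]
      rw [map_add, map_mul, extA_tmul, extA_tmul, map_one, mul_one, hb, mul_zero, zero_mul,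
        add_zero]
    · rw [nrLift_w, RingHom.comp_apply, toY_w]
      exact (Polynomial.eval_X).symm
  change secT ch i₀ j φ hji i₀ ≫ _ = _
  rw [h1]
  exact Category.assoc _ _ _

theorem sec_j (hb : φ (zz ch j) = 0) : (bubFam ch i₀ j φ hji).σ j =
    spMap ((Polynomial.evalRingHom 0).comp (toY ch j K (φ (zz ch j)) hb)) ≫
      i2 ch i₀ j hji φ := by
  have h1 : secT ch i₀ j φ hji j =
      spMap ((Polynomial.evalRingHom 0).comp (toY ch j K (φ (zz ch j)) hb)) ≫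
        bl2 (zB ch j K) (φ (zz ch j) ⊗ₜ[k] (1 : T.R1)) := by
    unfold secT
    rw [dif_neg hji, dif_pos rfl]
    congr 2
    apply nr_hom_ext
    · intro r
      rw [nrLift_of, RingHom.comp_apply, toY_of]
      change _ = Polynomial.eval 0 (Polynomial.C (evB ch j K r))
      rw [Polynomial.eval_C]
      rfl
    · rw [nrLift_w, RingHom.comp_apply, toY_w]
      exact (Polynomial.eval_X).symm
  change secT ch i₀ j φ hji j ≫ _ = _
  rw [h1]
  exact Category.assoc _ _ _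

theorem cover (p : (bubFam ch i₀ j φ hji).X) : p ∈ Set.range (i1 ch i₀ j hji φ) ∨
    p ∈ Set.range (i2 ch i₀ j hji φ) ∨ p ∈ Set.range (iR ch i₀ j hji φ) := by
  rcases b_cover ch.aff (zz ch j) (zz_unit ch j) K (φ (zz ch j)) p with ⟨y, rfl⟩ | h
  · rcases bl_cover _ _ y with ⟨w, rfl⟩ | ⟨w, rfl⟩
    · exact Or.inl ⟨w, Scheme.Hom.comp_apply _ _ _⟩
    · exact Or.inr (Or.inl ⟨w, Scheme.Hom.comp_apply _ _ _⟩)
  · exact Or.inr (Or.inr h)

variable {ch i₀ j hji φ} in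
theorem fin (v : VField (bubFam ch i₀ j φ hji)) (key : DI v (i1 ch i₀ j hji φ) = 0 ∧
    DI v (i2 ch i₀ j hji φ) = 0 ∧ DI v (iR ch i₀ j hji φ) = 0)
    (U : (bubFam ch i₀ j φ hji).X.Opens) : v.D U = 0 := by
  refine all0 v (fun t : Fin 3 => if t = 0 then (i1 ch i₀ j hji φ).opensRange else
    if t = 1 then (i2 ch i₀ j hji φ).opensRange else (iR ch i₀ j hji φ).opensRange) ?_ ?_ ?_ U
  · intro p
    rcases cover ch i₀ j hji φ p with h | h | h
    · exact ⟨0, h⟩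
    · exact ⟨1, h⟩
    · exact ⟨2, h⟩
  · intro t
    fin_cases t
    · exact isAffineOpen_opensRange _
    · exact isAffineOpen_opensRange _
    · exact isAffineOpen_opensRange _
  · intro t
    fin_cases t
    · exact D_zero v _ key.1
    · exact D_zero v _ key.2.1
    · exact D_zero v _ key.2.2

end main

end BRIG

open BRIG in
/-- BRIG. -/
theorem t_BRIG (hBRA : Stmt_BRA) : Stmt_BRIG := by
  intro n k _ C T ch hyp i₀ j hji K _ _ φ hb v U
  exact fin v (hBRA ch hyp j K (φ (zz ch j)) hb (DI v (i1 ch i₀ j hji φ))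
    (DI v (i2 ch i₀ j hji φ)) (DI v (iR ch i₀ j hji φ)) (DI v (iJ ch i₀ j hji φ))
    (DI v (iM ch i₀ j hji φ)) (DI_der v _ _ (i1_π ch i₀ j hji φ))
    (DI_der v _ _ (i2_π ch i₀ j hji φ)) (DI_der v _ _ (iR_π ch i₀ j hji φ))
    (DI_der v _ _ (iJ_π ch i₀ j hji φ)) (DI_der v _ _ (iM_π ch i₀ j hji φ))
    (fun u => DI_comp v _ _ _ (iM_eq1 ch i₀ j hji φ) u)
    (fun u => DI_comp v _ _ _ (iM_eq2 ch i₀ j hji φ) u)
    (fun u => DI_comp v _ _ _ (iJ_eq1 ch i₀ j hji φ hb) u)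
    (fun u => DI_comp v _ _ _ (iJ_eq2 ch i₀ j hji φ) u)
    (fun u => DI_sec v _ _ _ (sec_j ch i₀ j hji φ hb) u)
    (fun u => DI_sec v _ _ _ (sec_i0 ch i₀ j hji φ hb) u)) U

open BRIG in
/-- BRIGW. -/
theorem t_BRIGW (hBRAW : Stmt_BRAW) : Stmt_BRIGW := by
  intro n k _ C T ch j hyp i₀ hji K _ _ φ hb v U
  exact fin v (hBRAW ch j hyp K (φ (zz ch j)) hb (DI v (i1 ch i₀ j hji φ))
    (DI v (i2 ch i₀ j hji φ)) (DI v (iR ch i₀ j hji φ)) (DI v (iJ ch i₀ j hji φ))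
    (DI v (iM ch i₀ j hji φ)) (DI_der v _ _ (i1_π ch i₀ j hji φ))
    (DI_der v _ _ (i2_π ch i₀ j hji φ)) (DI_der v _ _ (iR_π ch i₀ j hji φ))
    (DI_der v _ _ (iJ_π ch i₀ j hji φ)) (DI_der v _ _ (iM_π ch i₀ j hji φ))
    (fun u => DI_comp v _ _ _ (iM_eq1 ch i₀ j hji φ) u)
    (fun u => DI_comp v _ _ _ (iM_eq2 ch i₀ j hji φ) u)
    (fun u => DI_comp v _ _ _ (iJ_eq1 ch i₀ j hji φ hb) u)
    (fun u => DI_comp v _ _ _ (iJ_eq2 ch i₀ j hji φ) u)
    (fun u => DI_sec v _ _ _ (sec_j ch i₀ j hji φ hb) u)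
    (fun u => DI_sec v _ _ _ (sec_i0 ch i₀ j hji φ hb) u)) U

end Pool.Agent.MG
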