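import Pool.Agent.MG.StmtsBub

/-!
# The marked points of the nodal curve are distinct and smooth
-/

set_option linter.unusedSectionVars false

open CategoryTheory CategoryTheory.Limits AlgebraicGeometry TensorProduct

namespace Pool.Agent.MG

namespace BSEC

/-- Translates of an étale coordinate. -/
theorem et_sub {k : Type} [Field k] {R : Type} [CommRing R] [Algebra k R] (x : R)
    (h : (Polynomial.aeval x : Polynomial k →ₐ[k] R).toRingHom.Etale) (c : k) :
    Etale (spMap ((Polynomial.aeval (x - algebraMap k R c) : Polynomial k →ₐ[k] R) :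
      Polynomial k →+* R)) := by
  have h1 : ((Polynomial.aeval (x - algebraMap k R c) : Polynomial k →ₐ[k] R) :
      Polynomial k →+* R) = (Polynomial.aeval x : Polynomial k →ₐ[k] R).toRingHom.comp
        ((Polynomial.algEquivAevalXAddC (-c)).toRingEquiv : Polynomial k →+* Polynomial k) := by
    apply Polynomial.ringHom_ext
    · intro a
      simp
    · simp [sub_eq_add_neg]
  rw [h1, spMap_comp]
  have h2 := et_spMap h
  have h3 := isIso_spMap_equiv
    (Polynomial.algEquivAevalXAddC (-c) : Polynomial k ≃ₐ[k] Polynomial k).toRingEquiv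
  infer_instance

/-- The first chart of the blow up away from the centre. -/
theorem chart1 {A : Type} [CommRing A] (z s : A) {B : Type} [CommRing B] (χ : A →+* B)
    (hz : IsUnit (χ z)) (w : B) (h : χ z * w = χ s) {S : Scheme.{0}} (p : Sp A ⟶ S)
    (hp : Smooth p) :
    ∃ (W : Scheme.{0}) (i : W ⟶ Sp (NR z s)) (g : Sp B ⟶ W), IsOpenImmersion i ∧
      spMap (nrLift χ w h) = g ≫ i ∧ Smooth (i ≫ spMap (algebraMap A (NR z s)) ≫ p) := by
  let L := Localization.Away z
  let ψ : A →+* L := algebraMap A L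
  have h1 : IsOpenImmersion (spMap ψ) :=
    inferInstanceAs (IsOpenImmersion (Spec.map (CommRingCat.ofHom (algebraMap A
      (Localization.Away z)))))
  have h2 : IsOpenImmersion (spMap (nrMap ψ z s)) :=
    MorphismProperty.of_isPullback (nrMap_isPullback ψ z s).flip h1
  have hL : ∀ a, (IsLocalization.Away.lift z hz : L →+* B) (ψ a) = χ a := fun a =>
    IsLocalization.Away.lift_eq z hz a
  refine ⟨Sp (NR (ψ z) (ψ s)), spMap (nrMap ψ z s),
    spMap (nrLift (IsLocalization.Away.lift z hz : L →+* B) w (by rw [hL, hL, h])), h2, ?_, ?_⟩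
  · rw [← spMap_comp]
    congr 1
    apply nr_hom_ext
    · intro r
      simp only [RingHom.comp_apply]
      rw [nrMap_of, nrLift_of, nrLift_of, hL]
    · simp only [RingHom.comp_apply]
      rw [nrMap_w, nrLift_w, nrLift_w]
  · rw [← Category.assoc, (nrMap_isPullback ψ z s).w, Category.assoc]
    have h3 : IsUnit (ψ z) := IsLocalization.Away.algebraMap_isUnit z
    have h4 := isIso_spMap _ (nr_bijective (ψ z) (ψ s) h3)
    infer_instance

/-- An open immersion with smooth composite around a point. -/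
theorem smooth_of {X W S : Scheme.{0}} (j : W ⟶ X) [IsOpenImmersion j] (p : X ⟶ S)
    (h : Smooth (j ≫ p)) (x : X) (hx : x ∈ Set.range j) :
    ∃ U : X.Opens, x ∈ U ∧ Smooth (U.ι ≫ p) := by
  refine ⟨j.opensRange, hx, ?_⟩
  rw [← Scheme.Hom.isoOpensRange_inv_comp j, Category.assoc]
  infer_instance

section

variable {n : ℕ} {k : Type} [Field k] {C : Fam n k} {T : TC k} (ch : Cht C T) (i₀ j : Fin n)
    (hji : j ≠ i₀) (K : Type) [Field K] [Algebra k K] (φ : T.R1 →ₐ[k] K)

/-- Different points of the contraction. -/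
theorem ne_of_pt {i i' : Fin n} (h : secT ch i₀ j φ hji i = secT ch i₀ j φ hji i')
    (a : T.R1) : spt ch i₀ φ i a = spt ch i₀ φ i' a := by
  have h1 := congrArg (fun f => f ≫ blπ _ _) h
  simp only [secT_π] at h1
  have h2 := congrArg (fun f => f ((1 : K) ⊗ₜ[k] a)) (spMap_inj h1)
  simpa using h2

theorem ne_i₀_j : secT ch i₀ j φ hji i₀ ≠ secT ch i₀ j φ hji j := by
  intro h
  unfold secT at h
  rw [dif_pos rfl, dif_neg hji, dif_pos rfl, cancel_mono] at h
  have h2 := congrArg (fun f => f (nw _ _)) (spMap_inj h)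
  simp only [nrLift_w] at h2
  exact one_ne_zero h2

end

end BSEC

open BSEC in
theorem t_BSEC : Stmt_BSEC := by
  intro n k _ C T ch i₀ j hji K _ _ φ hφ
  have hinj : Function.Injective (algebraMap k K) := (algebraMap k K).injective
  refine ⟨?_, ?_⟩
  · intro i i' hii h
    have h0 : secT ch i₀ j φ hji i ≫ bL ch.aff (zz ch j) (zz_unit ch j) K (φ (zz ch j)) =
      secT ch i₀ j φ hji i' ≫ bL ch.aff (zz ch j) (zz_unit ch j) K (φ (zz ch j)) := h
    rw [cancel_mono] at h0
    have key : ∀ a : Fin n, a ≠ i₀ → a ≠ j → secT ch i₀ j φ hji i₀ ≠ secT ch i₀ j φ hji a := by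
      intro a ha haj he
      have h1 := ne_of_pt ch i₀ j hji K φ he (zz ch j)
      rw [spt_self, hφ, spt_ne ch i₀ φ ha, AlgHom.comp_apply] at h1
      have h2 : algebraMap k K (ch.pt a (zz ch j)) = 0 := h1.symm
      exact pt_zz_ne ch j haj (hinj (h2.trans (map_zero _).symm))
    by_cases hi : i = i₀
    · subst hi
      by_cases hj : i' = j
      · subst hj
        exact ne_i₀_j ch i i' hji K φ h0
      · exact key i' (Ne.symm hii) hj h0
    · by_cases hi' : i' = i₀
      · subst hi'
        by_cases hj : i = j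
        · subst hj
          exact ne_i₀_j ch i' i hji K φ h0.symm
        · exact key i hi hj h0.symm
      · have h1 := ne_of_pt ch i₀ j hji K φ h0 T.x
        rw [spt_ne ch i₀ φ hi, spt_ne ch i₀ φ hi', AlgHom.comp_apply, AlgHom.comp_apply] at h1
        have h2 : algebraMap k K (ch.pt i T.x) = algebraMap k K (ch.pt i' T.x) := h1
        exact ch.ne i i' hii (hinj h2)
  · intro i s
    have hbL := bL_π ch.aff (zz ch j) (zz_unit ch j) K (φ (zz ch j))
    -- the second chart
    have second : ∀ α : NR (φ (zz ch j) ⊗ₜ[k] (1 : T.R1)) ((1 : K) ⊗ₜ[k] (zz ch j)) →+* K,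
        secT ch i₀ j φ hji i = spMap α ≫ bl2 _ _ →
        ∃ U : (bubFam ch i₀ j φ hji).X.Opens,
          (bubFam ch i₀ j φ hji).σ i s ∈ U ∧ Smooth (U.ι ≫ (bubFam ch i₀ j φ hji).π) := by
      intro α hα
      have hsm : Smooth ((bl2 ((1 : K) ⊗ₜ[k] (zz ch j)) (φ (zz ch j) ⊗ₜ[k] (1 : T.R1)) ≫
          bL ch.aff (zz ch j) (zz_unit ch j) K (φ (zz ch j))) ≫
          bπ ch.aff (zz ch j) (zz_unit ch j) K (φ (zz ch j))) := by
        rw [Category.assoc, hbL, ← Category.assoc, bl2_π, ← spMap_comp]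
        exact ychart_smooth (zz ch j) (φ (zz ch j)) (et_sub T.x T.etx (ch.pt j T.x))
      have hx : (secT ch i₀ j φ hji i ≫
          bL ch.aff (zz ch j) (zz_unit ch j) K (φ (zz ch j))) s ∈
          Set.range (bl2 ((1 : K) ⊗ₜ[k] (zz ch j)) (φ (zz ch j) ⊗ₜ[k] (1 : T.R1)) ≫
            bL ch.aff (zz ch j) (zz_unit ch j) K (φ (zz ch j))) := by
        rw [hα, Category.assoc, Scheme.Hom.comp_apply]
        exact ⟨_, rfl⟩
      exact smooth_of (bl2 _ _ ≫ bL ch.aff (zz ch j) (zz_unit ch j) K (φ (zz ch j))) _ hsm _ hx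
    by_cases hi : i = i₀
    · have hE : ∃ α, secT ch i₀ j φ hji i = spMap α ≫ bl2 _ _ := by
        unfold secT
        rw [dif_pos hi]
        exact ⟨_, rfl⟩
      obtain ⟨α, hα⟩ := hE
      exact second α hα
    · by_cases hij : i = j
      · have hE : ∃ α, secT ch i₀ j φ hji i = spMap α ≫ bl2 _ _ := by
          unfold secT
          rw [dif_neg hi, dif_pos hij]
          exact ⟨_, rfl⟩
        obtain ⟨α, hα⟩ := hE
        exact second α hα
      · have hsm := inL_smooth K T.x T.etx
        have hu : IsUnit ((extA ((Algebra.ofId k K).comp (ch.pt i)) : K ⊗[k] T.R1 →+* K)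
            ((1 : K) ⊗ₜ[k] (zz ch j))) := by
          rw [isUnit_iff_ne_zero, RingHom.coe_coe, extA_tmul, one_mul, AlgHom.comp_apply]
          intro h0
          exact pt_zz_ne ch j hij (hinj (h0.trans (map_zero _).symm))
        have hs : secT ch i₀ j φ hji i = spMap (nrLift (extA ((Algebra.ofId k K).comp (ch.pt i)) :
            K ⊗[k] T.R1 →+* K) (φ (zz ch j) * algebraMap k K (ch.pt i (zz ch j))⁻¹) (by
              simp only [RingHom.coe_coe, extA_tmul, AlgHom.comp_apply, one_mul, map_one, mul_one]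
              change algebraMap k K _ * _ = _
              rw [mul_comm, mul_assoc, ← map_mul, inv_mul_cancel₀ (pt_zz_ne ch j hij), map_one,
                mul_one])) ≫ bl1 ((1 : K) ⊗ₜ[k] (zz ch j)) (φ (zz ch j) ⊗ₜ[k] (1 : T.R1)) := by
          unfold secT
          rw [dif_neg hi, dif_neg hij]
        obtain ⟨W, i1, g, hi1, hg, hW⟩ := chart1 ((1 : K) ⊗ₜ[k] (zz ch j))
          (φ (zz ch j) ⊗ₜ[k] (1 : T.R1)) _ hu _ _ _ hsm
        rw [hg] at hs
        have hsm2 : Smooth ((i1 ≫ bl1 ((1 : K) ⊗ₜ[k] (zz ch j)) (φ (zz ch j) ⊗ₜ[k] (1 : T.R1)) ≫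
            bL ch.aff (zz ch j) (zz_unit ch j) K (φ (zz ch j))) ≫
            bπ ch.aff (zz ch j) (zz_unit ch j) K (φ (zz ch j))) := by
          rw [Category.assoc, Category.assoc, hbL, ← Category.assoc (bl1 _ _), bl1_π]
          exact hW
        have hx : (secT ch i₀ j φ hji i ≫
            bL ch.aff (zz ch j) (zz_unit ch j) K (φ (zz ch j))) s ∈
            Set.range (i1 ≫ bl1 ((1 : K) ⊗ₜ[k] (zz ch j)) (φ (zz ch j) ⊗ₜ[k] (1 : T.R1)) ≫
              bL ch.aff (zz ch j) (zz_unit ch j) K (φ (zz ch j))) := by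
          rw [hs, Category.assoc, Category.assoc, Scheme.Hom.comp_apply]
          exact ⟨_, rfl⟩
        exact smooth_of (i1 ≫ bl1 _ _ ≫ bL ch.aff (zz ch j) (zz_unit ch j) K (φ (zz ch j))) _
          hsm2 _ hx

end Pool.Agent.MG
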