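import Pool.Agent.MG.StmtsA

/-!
# Module CHB: the charts of a constant family
-/

open CategoryTheory CategoryTheory.Limits AlgebraicGeometry TensorProduct

namespace Pool.Agent.MG

namespace CHB

/-- Affine opens are acyclic. -/
theorem acyc_of_affine {X : Scheme.{0}} {U : X.Opens} (hU : IsAffineOpen U) : Acyc U := by
  refine ⟨U, U, hU, hU, ?_, sup_idem U, ?_⟩
  · rw [inf_idem]; exact hU
  · intro s
    refine ⟨rs X (le_inf le_rfl le_rfl) s, 0, ?_⟩
    rw [map_zero, add_zero]
    change s = (X.presheaf.map (homOfLE _).op ≫ X.presheaf.map (homOfLE _).op) s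
    rw [← Functor.map_comp, ← op_comp]
    have : (homOfLE inf_le_left ≫ homOfLE (le_inf le_rfl le_rfl) : U ⊓ U ⟶ U ⊓ U) = 𝟙 _ :=
      Subsingleton.elim _ _
    rw [this, op_id, CategoryTheory.Functor.map_id]
    rfl

variable {n : ℕ} {k : Type} [Field k] (C : Fam n k)

/-- Functions on the pull back of an affine open. -/
theorem key (B : Type) [CommRing B] [Algebra k B] {U : C.X.Opens} (hU : IsAffineOpen U)
    {R : Type} [CommRing R] [Algebra k R] (t : k ⊗[k] R →+* Γ(C.X, U))
    (hb : Function.Bijective t) (hc : ∀ c : k, t (c ⊗ₜ 1) = coef C.π U c)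
    (V : (pullback C.π (spMap (algebraMap k B))).Opens)
    (hV : V = (pullback.fst C.π (spMap (algebraMap k B))) ⁻¹ᵁ U) :
    ∃ T : B ⊗[k] R →+* Γ(pullback C.π (spMap (algebraMap k B)), V), Function.Bijective T ∧
      (∀ b : B, T (b ⊗ₜ 1) = coef (pullback.snd C.π (spMap (algebraMap k B))) V b) ∧
      ∀ r : R, T (1 ⊗ₜ r) =
        ((pullback.fst C.π (spMap (algebraMap k B))).appLE U V hV.le).hom (t (1 ⊗ₜ r)) := by
  have H : IsPullback (pullback.fst C.π (spMap (algebraMap k B)))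
      (pullback.snd C.π (spMap (algebraMap k B))) C.π (spMap (algebraMap k B)) :=
    IsPullback.of_hasPullback _ _
  have hST : (⊤ : (Sp B).Opens) ≤ (spMap (algebraMap k B)) ⁻¹ᵁ (⊤ : (Sp k).Opens) := le_top
  have hSX : U ≤ C.π ⁻¹ᵁ (⊤ : (Sp k).Opens) := le_top
  have hY : V = (pullback.fst C.π (spMap (algebraMap k B))) ⁻¹ᵁ U ⊓
      (pullback.snd C.π (spMap (algebraMap k B))) ⁻¹ᵁ (⊤ : (Sp B).Opens) := by
    rw [hV]
    exact (inf_top_eq _).symm
  have h0 := (isIso_pushoutSection_iff H hST hSX hY).1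
    (isIso_pushoutSection_of_isAffineOpen H hST hSX hY (isAffineOpen_top _) (isAffineOpen_top _) hU)
  let eR : R ≃+* Γ(C.X, U) :=
    ((Algebra.TensorProduct.lid k R).symm.toRingEquiv).trans (RingEquiv.ofBijective t hb)
  have heR : ∀ r : R, eR r = t (1 ⊗ₜ r) := fun r => rfl
  have h1 : IsPushout (CommRingCat.ofHom (algebraMap k R)) (CommRingCat.ofHom (algebraMap k B))
      (eR.toCommRingCatIso.hom ≫
        (pullback.fst C.π (spMap (algebraMap k B))).appLE U V hV.le)
      ((Scheme.ΓSpecIso (CommRingCat.of B)).inv ≫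
        (pullback.snd C.π (spMap (algebraMap k B))).appLE ⊤ V le_top) := by
    refine h0.of_iso' (Scheme.ΓSpecIso (CommRingCat.of k)).symm eR.toCommRingCatIso
      (Scheme.ΓSpecIso (CommRingCat.of B)).symm (Iso.refl _) ?_ ?_ ?_ ?_
    · ext c
      change coef C.π U c = eR (algebraMap k R c)
      rw [heR, ← hc]
      congr 1
      rw [Algebra.algebraMap_eq_smul_one, TensorProduct.tmul_smul, TensorProduct.smul_tmul',
        smul_eq_mul, mul_one]
    · have h2 := Scheme.ΓSpecIso_inv_naturality (CommRingCat.ofHom (algebraMap k B))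
      rw [Iso.symm_hom, Iso.symm_hom, h2]
      rfl
    · rw [Iso.refl_hom, Category.comp_id]
    · rw [Iso.refl_hom, Category.comp_id, Iso.symm_hom]
  have h2 := (CommRingCat.isPushout_tensorProduct k B R).flip
  let e := IsColimit.coconePointUniqueUpToIso h2.isColimit h1.isColimit
  have e1 : CommRingCat.ofHom (Algebra.TensorProduct.includeRight (R := k) (A := B)
      (B := R)).toRingHom ≫ e.hom = eR.toCommRingCatIso.hom ≫
        (pullback.fst C.π (spMap (algebraMap k B))).appLE U V hV.le :=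
    IsColimit.comp_coconePointUniqueUpToIso_hom h2.isColimit h1.isColimit WalkingSpan.left
  have e2 : CommRingCat.ofHom (Algebra.TensorProduct.includeLeftRingHom (R := k) (A := B)
      (B := R)) ≫ e.hom = (Scheme.ΓSpecIso (CommRingCat.of B)).inv ≫
        (pullback.snd C.π (spMap (algebraMap k B))).appLE ⊤ V le_top :=
    IsColimit.comp_coconePointUniqueUpToIso_hom h2.isColimit h1.isColimit WalkingSpan.right
  refine ⟨e.hom.hom, ?_, ?_, ?_⟩
  · exact (ConcreteCategory.bijective_of_isIso e.hom)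
  · intro b
    exact ConcreteCategory.congr_hom e2 b
  · intro r
    exact ConcreteCategory.congr_hom e1 r

end CHB

theorem t_CHB : Stmt_CHB := by
  intro n k _ T C ct ha B _ _ τ hτ
  obtain ⟨T1, hb1, hc1, hr1⟩ := CHB.key C B ha.aff1 ct.t1 ct.b1 ct.c1
    ((pullback.fst C.π (spMap (algebraMap k B))) ⁻¹ᵁ ct.U1) rfl
  obtain ⟨T2, hb2, hc2, hr2⟩ := CHB.key C B ha.aff2 ct.t2 ct.b2 ct.c2
    ((pullback.fst C.π (spMap (algebraMap k B))) ⁻¹ᵁ ct.U2) rfl
  obtain ⟨T12, hb12, hc12, hr12⟩ := CHB.key C B ha.aff12 ct.t12 ct.b12 ct.c12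
    ((pullback.fst C.π (spMap (algebraMap k B))) ⁻¹ᵁ ct.U1 ⊓
      (pullback.fst C.π (spMap (algebraMap k B))) ⁻¹ᵁ ct.U2) rfl
  have haf : IsAffineHom (pullback.fst C.π (spMap (algebraMap k B))) :=
    MorphismProperty.pullback_fst _ _ inferInstance
  have q1 : ∀ a : T.R1, rs (pullback C.π (spMap (algebraMap k B))) inf_le_left (T1 (1 ⊗ₜ a)) =
      T12 (1 ⊗ₜ T.j1 a) := by
    intro a
    rw [hr1, hr12, ← ct.r1]
    change ((pullback.fst C.π (spMap (algebraMap k B))).appLE _ _ _ ≫
      (pullback C.π (spMap (algebraMap k B))).presheaf.map (homOfLE _).op) _ =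
      (C.X.presheaf.map (homOfLE _).op ≫
        (pullback.fst C.π (spMap (algebraMap k B))).appLE _ _ _) _
    rw [Scheme.Hom.map_appLE, Scheme.Hom.appLE_map]
  have q2 : ∀ a : T.R2, rs (pullback C.π (spMap (algebraMap k B))) inf_le_right (T2 (1 ⊗ₜ a)) =
      T12 (1 ⊗ₜ T.j2 a) := by
    intro a
    rw [hr2, hr12, ← ct.r2]
    change ((pullback.fst C.π (spMap (algebraMap k B))).appLE _ _ _ ≫
      (pullback C.π (spMap (algebraMap k B))).presheaf.map (homOfLE _).op) _ =
      (C.X.presheaf.map (homOfLE _).op ≫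
        (pullback.fst C.π (spMap (algebraMap k B))).appLE _ _ _) _
    rw [Scheme.Hom.map_appLE, Scheme.Hom.appLE_map]
  have a1 : Acyc ((pullback.fst C.π (spMap (algebraMap k B))) ⁻¹ᵁ ct.U1) :=
    CHB.acyc_of_affine (ha.aff1.preimage _)
  have a2 : Acyc ((pullback.fst C.π (spMap (algebraMap k B))) ⁻¹ᵁ ct.U2) :=
    CHB.acyc_of_affine (ha.aff2.preimage _)
  have a12 : Acyc ((pullback.fst C.π (spMap (algebraMap k B))) ⁻¹ᵁ (ct.U1 ⊓ ct.U2)) :=
    CHB.acyc_of_affine (ha.aff12.preimage _)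
  let c : Charted T (constFam C B τ hτ) :=
    { U1 := (pullback.fst C.π (spMap (algebraMap k B))) ⁻¹ᵁ ct.U1
      U2 := (pullback.fst C.π (spMap (algebraMap k B))) ⁻¹ᵁ ct.U2
      cover := by
        have h := congrArg (fun W => (pullback.fst C.π (spMap (algebraMap k B))) ⁻¹ᵁ W) ct.cover
        exact h
      ac1 := a1
      ac2 := a2
      ac12 := a12
      t1 := T1
      t2 := T2
      t12 := T12
      b1 := hb1
      b2 := hb2
      b12 := hb12
      c1 := hc1
      c2 := hc2
      c12 := hc12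
      r1 := q1
      r2 := q2 }
  refine ⟨c, ?_⟩
  exact
    { h1 := rfl
      h2 := rfl
      f1 := fun r => (hr1 r).symm
      f2 := fun r => (hr2 r).symm
      f12 := fun h r => (hr12 r).symm }

end Pool.Agent.MG
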