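import Pool.Agent.MG.StmtsA

/-!
# The sections of a constant family
-/

open CategoryTheory CategoryTheory.Limits AlgebraicGeometry TensorProduct

namespace Pool.Agent.MG

namespace CHI

section

variable {X : Scheme.{0}} {U : X.Opens} (hU : IsAffineOpen U) {A : Type} [CommRing A]

/-- The point of an affine open given by a homomorphism. -/
noncomputable def pt (f : Γ(X, U) →+* A) : Sp A ⟶ X := spMap f ≫ hU.fromSpec

theorem top_le (f : Γ(X, U) →+* A) : ⊤ ≤ (pt hU f) ⁻¹ᵁ U := by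
  have h : (pt hU f) ⁻¹ᵁ U = (spMap f) ⁻¹ᵁ (hU.fromSpec ⁻¹ᵁ U) := rfl
  rw [h, hU.fromSpec_preimage_self]
  exact le_top

theorem spMap_appLE {R : Type} [CommRing R] (f : R →+* A) :
    (Scheme.ΓSpecIso (CommRingCat.of R)).inv ≫ (spMap f).appLE ⊤ ⊤ le_top =
      CommRingCat.ofHom f ≫ (Scheme.ΓSpecIso (CommRingCat.of A)).inv := by
  have h := (Scheme.ΓSpecIso_inv_naturality (CommRingCat.ofHom f)).symm
  rw [← h]
  congr 1

theorem pt_val (f : Γ(X, U) →+* A) (h : ⊤ ≤ (pt hU f) ⁻¹ᵁ U) (v : Γ(X, U)) :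
    ((pt hU f).appLE U ⊤ h).hom v = gl A (f v) := by
  have h1 : (pt hU f).appLE U ⊤ h = CommRingCat.ofHom f ≫
      (Scheme.ΓSpecIso (CommRingCat.of A)).inv := by
    unfold pt
    rw [Scheme.Hom.comp_appLE, hU.fromSpec_app_self, Category.assoc, Scheme.Hom.map_appLE]
    exact spMap_appLE f
  rw [h1]
  rfl

theorem eq_pt (f : Γ(X, U) →+* A) (σ : Sp A ⟶ X) (h : ⊤ ≤ σ ⁻¹ᵁ U)
    (hv : ∀ v, (σ.appLE U ⊤ h).hom v = gl A (f v)) : σ = pt hU f := by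
  have h1 := hU.SpecMap_appLE_fromSpec σ (isAffineOpen_top (Sp A)) h
  rw [IsAffineOpen.fromSpec_top] at h1
  have h2 : σ.appLE U ⊤ h = CommRingCat.ofHom f ≫ (Scheme.ΓSpecIso (CommRingCat.of A)).inv := by
    ext v
    exact hv v
  rw [h2, Spec.map_comp, Category.assoc, ← Scheme.isoSpec_Spec_inv] at h1
  exact ((cancel_epi _).1 h1).symm

theorem pt_comp {R : Type} [CommRing R] (f : Γ(X, U) →+* A) (π : X ⟶ Sp R) :
    pt hU f ≫ π = spMap (f.comp (coef π U)) := by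
  have h1 := (isAffineOpen_top (Sp R)).SpecMap_appLE_fromSpec π hU (show U ≤ π ⁻¹ᵁ ⊤ from le_top)
  rw [IsAffineOpen.fromSpec_top, Scheme.isoSpec_Spec_inv, ← Spec.map_comp] at h1
  unfold pt
  rw [Category.assoc, ← h1, ← Spec.map_comp]
  rfl

theorem pt_map {B : Type} [CommRing B] (f : Γ(X, U) →+* A) (ψ : A →+* B) :
    pt hU (ψ.comp f) = spMap ψ ≫ pt hU f := by
  unfold pt
  rw [← Category.assoc, ← Spec.map_comp]
  rfl

theorem pt_rs {V : X.Opens} (hV : IsAffineOpen V) (h : V ≤ U) (f : Γ(X, V) →+* A) :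
    pt hV f = pt hU (f.comp (rs X h)) := by
  unfold pt
  rw [← hU.map_fromSpec hV (homOfLE h).op, ← Category.assoc, ← Spec.map_comp]
  rfl

end

section

variable {n : ℕ} {k : Type} [Field k] {T : TC k} {C : Fam n k} {ct : Charted T C}

/-- `Γ(U₁) → B`. -/
noncomputable def F1 (ct : Charted T C) {B : Type} [CommRing B] [Algebra k B]
    (φ : T.R1 →ₐ[k] B) : Γ(C.X, ct.U1) →+* B :=
  (φ : T.R1 →+* B).comp ((Algebra.TensorProduct.lid k T.R1 :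
      k ⊗[k] T.R1 →+* T.R1).comp (ct.eq1.symm : Γ(C.X, ct.U1) →+* k ⊗[k] T.R1))

/-- `Γ(U₂) → B`. -/
noncomputable def F2 (ct : Charted T C) {B : Type} [CommRing B] [Algebra k B]
    (φ : T.R2 →ₐ[k] B) : Γ(C.X, ct.U2) →+* B :=
  (φ : T.R2 →+* B).comp ((Algebra.TensorProduct.lid k T.R2 :
      k ⊗[k] T.R2 →+* T.R2).comp (ct.eq2.symm : Γ(C.X, ct.U2) →+* k ⊗[k] T.R2))

/-- `Γ(U₁ ∩ U₂) → B`. -/
noncomputable def F12 (ct : Charted T C) {B : Type} [CommRing B] [Algebra k B]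
    (χ : T.R12 →ₐ[k] B) : Γ(C.X, ct.U1 ⊓ ct.U2) →+* B :=
  (χ : T.R12 →+* B).comp ((Algebra.TensorProduct.lid k T.R12 :
      k ⊗[k] T.R12 →+* T.R12).comp (ct.eq12.symm : Γ(C.X, ct.U1 ⊓ ct.U2) →+* k ⊗[k] T.R12))

variable {B : Type} [CommRing B] [Algebra k B]

theorem F1_t (φ : T.R1 →ₐ[k] B) (w : k ⊗[k] T.R1) :
    F1 ct φ (ct.t1 w) = φ (Algebra.TensorProduct.lid k T.R1 w) := by
  have h : ct.eq1.symm (ct.t1 w) = w := ct.eq1.symm_apply_apply w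
  change φ (Algebra.TensorProduct.lid k T.R1 (ct.eq1.symm (ct.t1 w))) = _
  rw [h]

theorem F2_t (φ : T.R2 →ₐ[k] B) (w : k ⊗[k] T.R2) :
    F2 ct φ (ct.t2 w) = φ (Algebra.TensorProduct.lid k T.R2 w) := by
  have h : ct.eq2.symm (ct.t2 w) = w := ct.eq2.symm_apply_apply w
  change φ (Algebra.TensorProduct.lid k T.R2 (ct.eq2.symm (ct.t2 w))) = _
  rw [h]

theorem F12_t (χ : T.R12 →ₐ[k] B) (w : k ⊗[k] T.R12) :
    F12 ct χ (ct.t12 w) = χ (Algebra.TensorProduct.lid k T.R12 w) := by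
  have h : ct.eq12.symm (ct.t12 w) = w := ct.eq12.symm_apply_apply w
  change χ (Algebra.TensorProduct.lid k T.R12 (ct.eq12.symm (ct.t12 w))) = _
  rw [h]

theorem F1_coef (φ : T.R1 →ₐ[k] B) : (F1 ct φ).comp (coef C.π ct.U1) = algebraMap k B := by
  ext c
  rw [RingHom.comp_apply, ← ct.c1, F1_t]
  simp [Algebra.algebraMap_eq_smul_one]

theorem F2_coef (φ : T.R2 →ₐ[k] B) : (F2 ct φ).comp (coef C.π ct.U2) = algebraMap k B := by
  ext c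
  rw [RingHom.comp_apply, ← ct.c2, F2_t]
  simp [Algebra.algebraMap_eq_smul_one]

theorem lid_map {R R' : Type} [CommRing R] [CommRing R'] [Algebra k R] [Algebra k R']
    (j : R →ₐ[k] R') (w : k ⊗[k] R) : Algebra.TensorProduct.lid k R'
      (Algebra.TensorProduct.map (AlgHom.id k k) j w) = j (Algebra.TensorProduct.lid k R w) := by
  induction w with
  | zero => simp
  | tmul a b => simp
  | add u v hu hv => simp only [map_add, hu, hv]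

theorem F12_rs1 (χ : T.R12 →ₐ[k] B) :
    (F12 ct χ).comp (rs C.X inf_le_left) = F1 ct (χ.comp T.j1) := by
  ext v
  obtain ⟨w, rfl⟩ := ct.b1.2 v
  rw [RingHom.comp_apply, ct.rs1, F12_t, F1_t, lid_map]
  rfl

theorem F12_rs2 (χ : T.R12 →ₐ[k] B) :
    (F12 ct χ).comp (rs C.X inf_le_right) = F2 ct (χ.comp T.j2) := by
  ext v
  obtain ⟨w, rfl⟩ := ct.b2.2 v
  rw [RingHom.comp_apply, ct.rs2, F12_t, F2_t, lid_map]
  rfl

variable (ha : ct.Aff)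

theorem tau_one (φ : T.R1 →ₐ[k] B) : tau ha (.one φ) = pt ha.aff1 (F1 ct φ) := rfl

theorem tau_two (φ : T.R2 →ₐ[k] B) : tau ha (.two φ) = pt ha.aff2 (F2 ct φ) := rfl

theorem tau_chi1 (χ : T.R12 →ₐ[k] B) :
    tau ha (.one (χ.comp T.j1)) = pt ha.aff12 (F12 ct χ) := by
  rw [tau_one, pt_rs ha.aff1 ha.aff12 inf_le_left, F12_rs1]

theorem tau_chi2 (χ : T.R12 →ₐ[k] B) :
    tau ha (.two (χ.comp T.j2)) = pt ha.aff12 (F12 ct χ) := by
  rw [tau_two, pt_rs ha.aff2 ha.aff12 inf_le_right, F12_rs2]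

theorem tau_pi (s : Pt T B) : tau ha s ≫ C.π = spMap (algebraMap k B) := by
  cases s with
  | one φ => rw [tau_one, pt_comp, F1_coef]
  | two φ => rw [tau_two, pt_comp, F2_coef]

theorem tau_map {B' : Type} [CommRing B'] [Algebra k B'] (ψ : B →ₐ[k] B') (s : Pt T B) :
    tau ha (s.map ψ) = spMap (ψ : B →+* B') ≫ tau ha s := by
  cases s with
  | one φ =>
    rw [tau_one, ← pt_map]
    rfl
  | two φ =>
    rw [tau_two, ← pt_map]
    rfl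

theorem tau_is (σ : Sp k ⟶ C.X) (s : Pt T k) (hσ : σ ≫ C.π = 𝟙 _) (hs : ct.Is σ s) :
    σ = tau ha s := by
  cases s with
  | one φ =>
    rw [tau_one]
    obtain ⟨h, hv⟩ : ct.Is1 σ φ := hs
    refine eq_pt ha.aff1 _ σ h fun v => ?_
    obtain ⟨w, rfl⟩ := ct.b1.2 v
    rw [F1_t]
    refine tensor_ind (f := (σ.appLE ct.U1 ⊤ h).hom.comp ct.t1)
      (g := (gl k).comp ((φ : T.R1 →+* k).comp (Algebra.TensorProduct.lid k T.R1 :
      k ⊗[k] T.R1 →+* T.R1))) ?_ ?_ w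
    · intro b
      change (σ.appLE ct.U1 ⊤ h).hom (ct.t1 (b ⊗ₜ 1)) =
        gl k (φ (Algebra.TensorProduct.lid k T.R1 (b ⊗ₜ 1)))
      rw [ct.c1, coef_comp, hσ, coef_id]
      simp
    · intro r
      change (σ.appLE ct.U1 ⊤ h).hom (ct.t1 (1 ⊗ₜ r)) =
        gl k (φ (Algebra.TensorProduct.lid k T.R1 (1 ⊗ₜ r)))
      rw [hv]
      simp
  | two φ =>
    rw [tau_two]
    obtain ⟨h, hv⟩ : ct.Is2 σ φ := hs
    refine eq_pt ha.aff2 _ σ h fun v => ?_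
    obtain ⟨w, rfl⟩ := ct.b2.2 v
    rw [F2_t]
    refine tensor_ind (f := (σ.appLE ct.U2 ⊤ h).hom.comp ct.t2)
      (g := (gl k).comp ((φ : T.R2 →+* k).comp (Algebra.TensorProduct.lid k T.R2 :
      k ⊗[k] T.R2 →+* T.R2))) ?_ ?_ w
    · intro b
      change (σ.appLE ct.U2 ⊤ h).hom (ct.t2 (b ⊗ₜ 1)) =
        gl k (φ (Algebra.TensorProduct.lid k T.R2 (b ⊗ₜ 1)))
      rw [ct.c2, coef_comp, hσ, coef_id]
      simp
    · intro r
      change (σ.appLE ct.U2 ⊤ h).hom (ct.t2 (1 ⊗ₜ r)) =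
        gl k (φ (Algebra.TensorProduct.lid k T.R2 (1 ⊗ₜ r)))
      rw [hv]
      simp

end

theorem lift_val {X Y : Scheme.{0}} {B : Type} [CommRing B] (p : Y ⟶ X) (σ : Sp B ⟶ Y)
    (τ : Sp B ⟶ X) (hτ : σ ≫ p = τ) {U : X.Opens} {V : Y.Opens} (hV : V ≤ p ⁻¹ᵁ U)
    (h : ⊤ ≤ σ ⁻¹ᵁ V) (h' : ⊤ ≤ τ ⁻¹ᵁ U) (v : Γ(X, U)) :
    (σ.appLE V ⊤ h).hom ((p.appLE U V hV).hom v) = (τ.appLE U ⊤ h').hom v := by
  subst hτ
  exact ConcreteCategory.congr_hom (Scheme.Hom.appLE_comp_appLE σ p U V ⊤ hV h) v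

end CHI

theorem t_TAU : Stmt_TAU := by
  intro n k _ T C ct ha
  refine ⟨fun B _ _ s => CHI.tau_pi ha s, fun B _ _ B' _ _ ψ s => CHI.tau_map ha ψ s,
    fun B _ _ χ => ?_, fun σ s hσ hs => CHI.tau_is ha σ s hσ hs⟩
  rw [CHI.tau_chi1, CHI.tau_chi2]

theorem t_CHI0 : Stmt_CHI := by
  intro n k _ T C ct ha B _ _ τ hτ c hc i
  have hfst : (constFam C B τ hτ).σ i ≫ pullback.fst C.π (spMap (algebraMap k B)) = τ i :=
    pullback.lift_fst _ _ _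
  constructor
  · intro s hs
    cases s with
    | one φ =>
      have h' : ⊤ ≤ (τ i) ⁻¹ᵁ ct.U1 := by
        rw [hs, CHI.tau_one]
        exact CHI.top_le ha.aff1 _
      have h : ⊤ ≤ (constFam C B τ hτ).σ i ⁻¹ᵁ c.U1 := by
        rw [← hc.h1]
        have h2 : ((constFam C B τ hτ).σ i ≫ pullback.fst C.π (spMap (algebraMap k B))) ⁻¹ᵁ
          ct.U1 = (τ i) ⁻¹ᵁ ct.U1 := by rw [hfst]
        exact (h2 ▸ h' :)
      refine ⟨h, fun a => ?_⟩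
      rw [← hc.f1 a]
      refine (CHI.lift_val _ _ _ hfst hc.h1.ge h h' _).trans ?_
      have h3 : ∀ (σ' : Sp B ⟶ C.X) (_ : σ' = tau ha (.one φ)) (h'' : ⊤ ≤ σ' ⁻¹ᵁ ct.U1),
          (σ'.appLE ct.U1 ⊤ h'').hom (ct.t1 (1 ⊗ₜ a)) = gl B (φ a) := by
        intro σ' hσ' h''
        subst hσ'
        refine (CHI.pt_val ha.aff1 (CHI.F1 ct φ) h'' _).trans ?_
        rw [CHI.F1_t]
        simp
      exact h3 _ hs h'
    | two φ =>
      have h' : ⊤ ≤ (τ i) ⁻¹ᵁ ct.U2 := by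
        rw [hs, CHI.tau_two]
        exact CHI.top_le ha.aff2 _
      have h : ⊤ ≤ (constFam C B τ hτ).σ i ⁻¹ᵁ c.U2 := by
        rw [← hc.h2]
        have h2 : ((constFam C B τ hτ).σ i ≫ pullback.fst C.π (spMap (algebraMap k B))) ⁻¹ᵁ
          ct.U2 = (τ i) ⁻¹ᵁ ct.U2 := by rw [hfst]
        exact (h2 ▸ h' :)
      refine ⟨h, fun a => ?_⟩
      rw [← hc.f2 a]
      refine (CHI.lift_val _ _ _ hfst hc.h2.ge h h' _).trans ?_
      have h3 : ∀ (σ' : Sp B ⟶ C.X) (_ : σ' = tau ha (.two φ)) (h'' : ⊤ ≤ σ' ⁻¹ᵁ ct.U2),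
          (σ'.appLE ct.U2 ⊤ h'').hom (ct.t2 (1 ⊗ₜ a)) = gl B (φ a) := by
        intro σ' hσ' h''
        subst hσ'
        refine (CHI.pt_val ha.aff2 (CHI.F2 ct φ) h'' _).trans ?_
        rw [CHI.F2_t]
        simp
      exact h3 _ hs h'
  · intro χ hs
    rw [CHI.tau_chi1] at hs
    have h' : ⊤ ≤ (τ i) ⁻¹ᵁ (ct.U1 ⊓ ct.U2) := by
      rw [hs]
      exact CHI.top_le ha.aff12 _
    have h0 : (pullback.fst C.π (spMap (algebraMap k B))) ⁻¹ᵁ (ct.U1 ⊓ ct.U2) =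
        c.U1 ⊓ c.U2 := by
      rw [← hc.h1, ← hc.h2]
      rfl
    have h : ⊤ ≤ (constFam C B τ hτ).σ i ⁻¹ᵁ (c.U1 ⊓ c.U2) := by
      rw [← h0]
      have h2 : ((constFam C B τ hτ).σ i ≫ pullback.fst C.π (spMap (algebraMap k B))) ⁻¹ᵁ
        (ct.U1 ⊓ ct.U2) = (τ i) ⁻¹ᵁ (ct.U1 ⊓ ct.U2) := by rw [hfst]
      exact (h2 ▸ h' :)
    refine ⟨h, fun a => ?_⟩
    rw [← hc.f12 h0.ge a]
    refine (CHI.lift_val _ _ _ hfst h0.ge h h' _).trans ?_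
    have h3 : ∀ (σ' : Sp B ⟶ C.X) (_ : σ' = CHI.pt ha.aff12 (CHI.F12 ct χ))
        (h'' : ⊤ ≤ σ' ⁻¹ᵁ (ct.U1 ⊓ ct.U2)),
        (σ'.appLE (ct.U1 ⊓ ct.U2) ⊤ h'').hom (ct.t12 (1 ⊗ₜ a)) = gl B (χ a) := by
      intro σ' hσ' h''
      subst hσ'
      refine (CHI.pt_val ha.aff12 _ h'' _).trans ?_
      rw [CHI.F12_t]
      simp
    exact h3 _ hs h'

theorem t_CHI : Stmt_CHI ∧ Stmt_TAU := ⟨t_CHI0, t_TAU⟩

end Pool.Agent.MG
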