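import Pool.Agent.MG.StmtsA

/-!
# CON: constant families over fields are connected
-/

open CategoryTheory CategoryTheory.Limits AlgebraicGeometry TensorProduct

namespace Pool.Agent.MG

namespace CON

open Classical in
/-- Functions on both charts with coefficients in `K` are constant. -/
theorem const_of_eq {k : Type} [Field k] {R1 R2 R12 : Type} [CommRing R1] [CommRing R2]
    [CommRing R12] [Algebra k R1] [Algebra k R2] [Algebra k R12] (j1 : R1 →ₐ[k] R12)
    (j2 : R2 →ₐ[k] R12) (hi : Function.Injective j2)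
    (h0 : ∀ a b, j1 a = j2 b → ∃ c : k, a = algebraMap k R1 c)
    (K : Type) [Field K] [Algebra k K] (u : K ⊗[k] R1) (v : K ⊗[k] R2)
    (h : Algebra.TensorProduct.map (AlgHom.id k K) j1 u =
      Algebra.TensorProduct.map (AlgHom.id k K) j2 v) :
    ∃ c : K, u = c ⊗ₜ 1 ∧ v = c ⊗ₜ 1 := by
  let b := Module.Basis.ofVectorSpace k K
  have key : ∀ (R R' : Type) [CommRing R] [CommRing R'] [Algebra k R] [Algebra k R']
      (j : R →ₐ[k] R') (w : K ⊗[k] R) (i : _),
      TensorProduct.equivFinsuppOfBasisLeft b (Algebra.TensorProduct.map (AlgHom.id k K) j w) i =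
        j (TensorProduct.equivFinsuppOfBasisLeft b w i) := by
    intro R R' _ _ _ _ j w i
    induction w with
    | zero => simp
    | tmul a r => simp
    | add x y hx hy => rw [map_add, map_add, map_add, Finsupp.add_apply, Finsupp.add_apply, hx, hy,
        map_add]
  have h1 : ∀ i, ∃ c : k, TensorProduct.equivFinsuppOfBasisLeft b u i = algebraMap k R1 c := by
    intro i
    refine h0 _ (TensorProduct.equivFinsuppOfBasisLeft b v i) ?_
    rw [← key, ← key, h]
  choose c hc using h1
  have h2 : u = (∑ i ∈ (TensorProduct.equivFinsuppOfBasisLeft b u).support, c i • b i) ⊗ₜ 1 := by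
    have h3 : u = (TensorProduct.equivFinsuppOfBasisLeft b).symm
        (TensorProduct.equivFinsuppOfBasisLeft b u) := by simp
    conv_lhs => rw [h3]
    rw [TensorProduct.equivFinsuppOfBasisLeft_symm_apply, Finsupp.sum, TensorProduct.sum_tmul]
    refine Finset.sum_congr rfl fun i _ => ?_
    rw [hc, TensorProduct.smul_tmul, Algebra.algebraMap_eq_smul_one]
  have hinj : Function.Injective (Algebra.TensorProduct.map (AlgHom.id k K) j2) :=
    Module.Flat.lTensor_preserves_injective_linearMap (M := K) j2.toLinearMap hi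
  generalize (∑ i ∈ (TensorProduct.equivFinsuppOfBasisLeft b u).support, c i • b i) = w at h2
  refine ⟨w, h2, ?_⟩
  apply hinj
  rw [← h, h2]
  simp

/-- A clopen set gives an idempotent function. -/
theorem exists_fun (X : Scheme.{0}) (A B : X.Opens) (h1 : A ⊔ B = ⊤) (h2 : A ⊓ B = ⊥) :
    ∃ e : Γ(X, ⊤), rs X (le_top : A ≤ ⊤) e = 1 ∧ rs X (le_top : B ≤ ⊤) e = 0 := by
  have hsub : Subsingleton Γ(X, A ⊓ B) := by
    rw [h2]
    infer_instance
  let F : TopCat.Sheaf CommRingCat X := X.sheaf
  let e : Γ(X, A ⊔ B) := (F.objSupIsoProdEqLocus A B).inv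
    (⟨((1 : Γ(X, A)), (0 : Γ(X, B))), hsub.elim _ _⟩ : RingHom.eqLocus _ _)
  have e1 : X.presheaf.map (homOfLE (le_sup_left : A ≤ A ⊔ B)).op e = 1 :=
    TopCat.Sheaf.objSupIsoProdEqLocus_inv_fst F A B _
  have e2 : X.presheaf.map (homOfLE (le_sup_right : B ≤ A ⊔ B)).op e = 0 :=
    TopCat.Sheaf.objSupIsoProdEqLocus_inv_snd F A B _
  refine ⟨rs X h1.ge e, ?_, ?_⟩
  · change (X.presheaf.map (homOfLE _).op ≫ X.presheaf.map (homOfLE _).op) e = 1
    rw [← Functor.map_comp, ← op_comp]
    exact e1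
  · change (X.presheaf.map (homOfLE _).op ≫ X.presheaf.map (homOfLE _).op) e = 0
    rw [← Functor.map_comp, ← op_comp]
    exact e2

theorem germ_rs (X : Scheme.{0}) (U : X.Opens) (x : X) (hx : x ∈ U) (e : Γ(X, ⊤)) :
    X.presheaf.germ ⊤ x trivial e = X.presheaf.germ U x hx (rs X le_top e) :=
  (X.presheaf.germ_res_apply (homOfLE le_top) x hx e).symm

theorem rs_rs (X : Scheme.{0}) {U V W : X.Opens} (h : U ≤ V) (h' : V ≤ W) (h'' : U ≤ W)
    (e : Γ(X, W)) : rs X h (rs X h' e) = rs X h'' e := by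
  change (X.presheaf.map (homOfLE _).op ≫ X.presheaf.map (homOfLE _).op) e = _
  rw [← Functor.map_comp, ← op_comp]
  rfl

end CON

open CON in
theorem t_CON (hCHB : Stmt_CHB) : Stmt_CON := by
  intro n k _ C T ch hne K _ _ τ hτ
  obtain ⟨c, hc⟩ := hCHB ch.ct ch.aff K τ hτ
  have hdom := ch.dom
  have hnt12 : Nontrivial T.R12 := inferInstance
  have hnt1 : Nontrivial T.R1 := (T.j1 : T.R1 →+* T.R12).domain_nontrivial
  have hn1 : Nontrivial (K ⊗[k] T.R1) := inferInstance
  have hG : Nontrivial Γ((constFam C K τ hτ).X, c.U1) := c.b1.1.nontrivial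
  have hX : Nonempty (constFam C K τ hτ).X := by
    by_contra hemp
    rw [not_nonempty_iff] at hemp
    have h0 : c.U1 = ⊥ := by
      ext x
      exact hemp.elim x
    rw [h0] at hG
    exact not_subsingleton Γ((constFam C K τ hτ).X, ⊥) inferInstance
  have hpre : PreconnectedSpace (constFam C K τ hτ).X := by
    rw [preconnectedSpace_iff_clopen]
    intro s hs
    obtain ⟨e, he1, he2⟩ := exists_fun (constFam C K τ hτ).X ⟨s, hs.isOpen⟩ ⟨sᶜ, hs.compl.isOpen⟩
      (by ext x; simp) (by ext x; simp)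
    have hee : e * e = e := by
      refine (constFam C K τ hτ).X.sheaf.eq_of_locally_eq₂
        (homOfLE (le_top : (⟨s, hs.isOpen⟩ : (constFam C K τ hτ).X.Opens) ≤ ⊤))
        (homOfLE (le_top : (⟨sᶜ, hs.compl.isOpen⟩ : (constFam C K τ hτ).X.Opens) ≤ ⊤))
        ?_ _ _ ?_ ?_
      · intro x _
        by_cases hx : x ∈ s
        · exact Or.inl hx
        · exact Or.inr hx
      · change rs _ _ (e * e) = rs _ _ e
        rw [map_mul, he1, one_mul]
      · change rs _ _ (e * e) = rs _ _ e
        rw [map_mul, he2, zero_mul]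
    have hu : c.t1 (c.eq1.symm (rs _ le_top e)) = rs (constFam C K τ hτ).X le_top e :=
      c.eq1.apply_symm_apply _
    have hv : c.t2 (c.eq2.symm (rs _ le_top e)) = rs (constFam C K τ hτ).X le_top e :=
      c.eq2.apply_symm_apply _
    have hj : Algebra.TensorProduct.map (AlgHom.id k K) T.j1 (c.eq1.symm (rs _ le_top e)) =
        Algebra.TensorProduct.map (AlgHom.id k K) T.j2 (c.eq2.symm (rs _ le_top e)) := by
      apply c.b12.1
      rw [← c.rs1, ← c.rs2, hu, hv, rs_rs _ _ _ le_top, rs_rs _ _ _ le_top]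
    obtain ⟨a, ha1, ha2⟩ := const_of_eq T.j1 T.j2 ch.inj2 ch.h0 K _ _ hj
    rw [ha1] at hu
    rw [ha2] at hv
    have haa : a * a = a := by
      have h3 : c.t1 ((a * a) ⊗ₜ 1) = c.t1 (a ⊗ₜ 1) := by
        have h4 : ((a * a) ⊗ₜ[k] (1 : T.R1)) = (a ⊗ₜ 1) * (a ⊗ₜ 1) := by simp
        rw [h4, map_mul, hu, ← map_mul, hee]
      have h5 := c.b1.1 h3
      exact Algebra.TensorProduct.includeLeft_injective (S := k)
        (FaithfulSMul.algebraMap_injective k T.R1) h5
    have hcase : a = 0 ∨ a = 1 := by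
      rcases eq_or_ne a 0 with h | h
      · exact Or.inl h
      · exact Or.inr (mul_left_cancel₀ h (by rw [haa, mul_one]))
    have hcov : ∀ x : (constFam C K τ hτ).X, x ∈ c.U1 ∨ x ∈ c.U2 := by
      intro x
      have : x ∈ c.U1 ⊔ c.U2 := by rw [c.cover]; trivial
      exact this
    rcases hcase with rfl | rfl
    · left
      rw [Set.eq_empty_iff_forall_notMem]
      intro x hx
      have g1 := germ_rs (constFam C K τ hτ).X ⟨s, hs.isOpen⟩ x hx e
      rw [he1, map_one] at g1
      rcases hcov x with h | h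
      · have g2 := germ_rs (constFam C K τ hτ).X c.U1 x h e
        rw [← hu, TensorProduct.zero_tmul, map_zero, map_zero] at g2
        exact zero_ne_one (g2.symm.trans g1)
      · have g2 := germ_rs (constFam C K τ hτ).X c.U2 x h e
        rw [← hv, TensorProduct.zero_tmul, map_zero, map_zero] at g2
        exact zero_ne_one (g2.symm.trans g1)
    · right
      rw [Set.eq_univ_iff_forall]
      intro x
      by_contra hx
      have g1 := germ_rs (constFam C K τ hτ).X ⟨sᶜ, hs.compl.isOpen⟩ x hx e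
      rw [he2, map_zero] at g1
      rcases hcov x with h | h
      · have g2 := germ_rs (constFam C K τ hτ).X c.U1 x h e
        have h6 : ((1 : K) ⊗ₜ[k] (1 : T.R1)) = 1 := rfl
        rw [← hu, h6, map_one, map_one] at g2
        exact zero_ne_one (g1.symm.trans g2)
      · have g2 := germ_rs (constFam C K τ hτ).X c.U2 x h e
        have h6 : ((1 : K) ⊗ₜ[k] (1 : T.R2)) = 1 := rfl
        rw [← hv, h6, map_one, map_one] at g2
        exact zero_ne_one (g1.symm.trans g2)
  exact { toPreconnectedSpace := hpre, toNonempty := hX }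

end Pool.Agent.MG
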