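import Pool.Agent.MG.StmtsBub

/-!
# Module COVI: the genus can be computed with every affine cover with two elements
-/

open CategoryTheory CategoryTheory.Limits AlgebraicGeometry TensorProduct

namespace Pool.Agent.MG

namespace COVI

variable {X : Scheme.{0}}

theorem rs_rs {U V W : X.Opens} (h : U ≤ V) (h' : V ≤ W) (a : Γ(X, W)) :
    rs X h (rs X h' a) = rs X (h.trans h') a := by
  change (X.presheaf.map (homOfLE h').op ≫ X.presheaf.map (homOfLE h).op) a = _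
  rw [← Functor.map_comp, ← op_comp]
  rfl

theorem rs_self {U : X.Opens} (a : Γ(X, U)) : rs X (le_refl U) a = a := by
  change X.presheaf.map (𝟙 _) a = a
  rw [CategoryTheory.Functor.map_id]
  rfl

/-- Gluing of two functions. -/
theorem glue {U V W I : X.Opens} (h1 : U ≤ W) (h2 : V ≤ W) (hc : W ≤ U ⊔ V)
    (i1 : I ≤ U) (i2 : I ≤ V) (hI : U ⊓ V ≤ I)
    (a : Γ(X, U)) (b : Γ(X, V)) (hab : rs X i1 a = rs X i2 b) :
    ∃ c : Γ(X, W), rs X h1 c = a ∧ rs X h2 c = b := by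
  have hle : ∀ i : Bool, (Bool.rec V U i : X.Opens) ≤ W := by
    intro i
    cases i
    · exact h2
    · exact h1
  have key : ∀ (Z : X.Opens) (z1 : Z ≤ U) (z2 : Z ≤ V), rs X z1 a = rs X z2 b := by
    intro Z z1 z2
    have hZ : Z ≤ I := (le_inf z1 z2).trans hI
    have e1 : rs X z1 a = rs X hZ (rs X i1 a) := (rs_rs _ _ _).symm
    have e2 : rs X z2 b = rs X hZ (rs X i2 b) := (rs_rs _ _ _).symm
    rw [e1, e2, hab]
  obtain ⟨c, hc1, -⟩ := X.sheaf.existsUnique_gluing' (fun i : Bool => (Bool.rec V U i : X.Opens)) W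
    (fun i => homOfLE (hle i))
    (by
      refine hc.trans (sup_le ?_ ?_)
      · exact le_iSup (fun i : Bool => (Bool.rec V U i : X.Opens)) true
      · exact le_iSup (fun i : Bool => (Bool.rec V U i : X.Opens)) false)
    (fun i => match i with
      | true => a
      | false => b)
    (by
      intro i j
      rcases i with _ | _ <;> rcases j with _ | _
      · rfl
      · exact (key _ _ _).symm
      · exact key _ _ _
      · rfl)
  exact ⟨c, hc1 true, hc1 false⟩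

/-- Two functions which agree on the members of a cover. -/
theorem eq_of {U V W : X.Opens} (h1 : U ≤ W) (h2 : V ≤ W) (hc : W ≤ U ⊔ V) (a b : Γ(X, W))
    (e1 : rs X h1 a = rs X h1 b) (e2 : rs X h2 a = rs X h2 b) : a = b :=
  X.sheaf.eq_of_locally_eq₂ (homOfLE h1) (homOfLE h2) hc a b e1 e2

/-! ### Acyclicity of affine schemes -/

theorem pow_mul_eq {W V1 V2 V12 : X.Opens} (l2 : V2 ≤ W) (_ : V12 ≤ V1) (i2 : V12 ≤ V2)
    (hI : V1 ⊓ V2 ≤ V12) (h2 : IsAffineOpen V2) (h12 : IsAffineOpen V12) (f : Γ(X, W))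
    (hf : X.basicOpen f ≤ V1) (m : Γ(X, V12)) :
    ∃ (n : ℕ) (b : Γ(X, V2)), rs X (i2.trans l2) f ^ n * m = rs X i2 b := by
  let D : X.Opens := V2 ⊓ X.basicOpen f
  have d2 : D ≤ V2 := inf_le_left
  have d12 : D ≤ V12 := (le_inf (inf_le_right.trans hf) inf_le_left).trans hI
  have e2 : D = X.basicOpen (rs X l2 f) := (X.basicOpen_res f (homOfLE l2).op).symm
  have e12 : D = X.basicOpen (rs X (i2.trans l2) f) := by
    have h := X.basicOpen_res f (homOfLE (i2.trans l2)).op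
    refine Eq.trans ?_ h.symm
    exact le_antisymm (le_inf d12 inf_le_right) (le_inf (inf_le_left.trans i2) inf_le_right)
  have hl2 := h2.isLocalization_of_eq_basicOpen (f := rs X l2 f) (homOfLE d2) e2
  have hl12 := h12.isLocalization_of_eq_basicOpen (f := rs X (i2.trans l2) f) (homOfLE d12) e12
  have s1 : ∃ (N : ℕ) (b : Γ(X, V2)),
      rs X d12 m * rs X d2 (rs X l2 f) ^ N = rs X d2 b := by
    let _ : Algebra Γ(X, V2) Γ(X, D) := (rs X d2).toAlgebra
    have hl : IsLocalization.Away (rs X l2 f) Γ(X, D) := hl2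
    exact IsLocalization.Away.surj (rs X l2 f) (rs X d12 m)
  obtain ⟨N, b, hb⟩ := s1
  have s2 : ∃ n : ℕ, rs X (i2.trans l2) f ^ n * (m * rs X (i2.trans l2) f ^ N) =
      rs X (i2.trans l2) f ^ n * rs X i2 b := by
    let _ : Algebra Γ(X, V12) Γ(X, D) := (rs X d12).toAlgebra
    have hl : IsLocalization.Away (rs X (i2.trans l2) f) Γ(X, D) := hl12
    refine IsLocalization.Away.exists_of_eq (S := Γ(X, D)) (rs X (i2.trans l2) f) ?_
    change rs X d12 (m * rs X (i2.trans l2) f ^ N) = rs X d12 (rs X i2 b)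
    rw [map_mul, map_pow, rs_rs, rs_rs]
    rw [rs_rs] at hb
    exact hb
  obtain ⟨n, hn⟩ := s2
  refine ⟨n + N, rs X l2 f ^ n * b, ?_⟩
  rw [map_mul, map_pow, rs_rs, ← hn, pow_add]
  ring

/-- The functions `f` such that `f m` is the sum of two functions. -/
def idl {W V1 V2 V12 : X.Opens} (l1 : V1 ≤ W) (l2 : V2 ≤ W) (i1 : V12 ≤ V1) (i2 : V12 ≤ V2)
    (m : Γ(X, V12)) : Ideal Γ(X, W) where
  carrier := {f | ∃ (a : Γ(X, V1)) (b : Γ(X, V2)),
    rs X (i2.trans l2) f * m = rs X i1 a + rs X i2 b}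
  add_mem' := by
    rintro f f' ⟨a, b, h⟩ ⟨a', b', h'⟩
    refine ⟨a + a', b + b', ?_⟩
    rw [map_add, add_mul, h, h', map_add, map_add]
    ring
  zero_mem' := ⟨0, 0, by rw [map_zero, zero_mul, map_zero, map_zero, add_zero]⟩
  smul_mem' := by
    rintro c f ⟨a, b, h⟩
    refine ⟨rs X l1 c * a, rs X l2 c * b, ?_⟩
    rw [smul_eq_mul, map_mul, mul_assoc, h, map_mul, map_mul, rs_rs, rs_rs, mul_add]

theorem acyc {W V1 V2 V12 : X.Opens} (hW : IsAffineOpen W) (l1 : V1 ≤ W) (l2 : V2 ≤ W)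
    (hc : W ≤ V1 ⊔ V2) (i1 : V12 ≤ V1) (i2 : V12 ≤ V2) (hI : V1 ⊓ V2 ≤ V12)
    (h1 : IsAffineOpen V1) (h2 : IsAffineOpen V2) (h12 : IsAffineOpen V12) (m : Γ(X, V12)) :
    ∃ (a : Γ(X, V1)) (b : Γ(X, V2)), m = rs X i1 a - rs X i2 b := by
  have htop : (idl l1 l2 i1 i2 m).radical = ⊤ := by
    rw [← Ideal.span_eq (idl l1 l2 i1 i2 m).radical, ← hW.iSup_basicOpen_eq_self_iff]
    apply le_antisymm
    · exact iSup_le fun f => X.basicOpen_le _
    · intro p hp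
      have hp' : p ∈ V1 ∨ p ∈ V2 := hc hp
      rcases hp' with hp1 | hp2
      · obtain ⟨f, hf1, hf2⟩ := hW.exists_basicOpen_le ⟨p, hp1⟩ hp
        obtain ⟨n, b, hb⟩ := pow_mul_eq l2 i1 i2 hI h2 h12 f hf1 m
        have hf : f ∈ (idl l1 l2 i1 i2 m).radical := by
          refine ⟨n, 0, b, ?_⟩
          rw [map_pow, hb, map_zero, zero_add]
        exact (le_iSup (fun f : ((idl l1 l2 i1 i2 m).radical : Set Γ(X, W)) =>
          X.basicOpen (f : Γ(X, W))) ⟨f, hf⟩) hf2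
      · obtain ⟨f, hf1, hf2⟩ := hW.exists_basicOpen_le ⟨p, hp2⟩ hp
        obtain ⟨n, b, hb⟩ := pow_mul_eq l1 i2 i1 (by rw [inf_comm]; exact hI) h1 h12 f hf1 m
        have hf : f ∈ (idl l1 l2 i1 i2 m).radical := by
          refine ⟨n, b, 0, ?_⟩
          rw [map_pow, hb, map_zero, add_zero]
        exact (le_iSup (fun f : ((idl l1 l2 i1 i2 m).radical : Set Γ(X, W)) =>
          X.basicOpen (f : Γ(X, W))) ⟨f, hf⟩) hf2
  have h1 : (1 : Γ(X, W)) ∈ idl l1 l2 i1 i2 m := by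
    rw [Ideal.radical_eq_top.1 htop]
    trivial
  obtain ⟨a, b, hab⟩ := h1
  refine ⟨a, -b, ?_⟩
  rw [map_one, one_mul] at hab
  rw [hab, map_neg, sub_neg_eq_add]

/-! ### The relation between the functions on the two intersections -/

/-- `s` on `P ∩ Q` and `t` on `U ∩ V` represent the same class. -/
def Rel (P Q U V : X.Opens) (s : Γ(X, P ⊓ Q)) (t : Γ(X, U ⊓ V)) : Prop :=
  ∃ (a1 : Γ(X, P ⊓ U)) (b1 : Γ(X, Q ⊓ U)) (a2 : Γ(X, P ⊓ V)) (b2 : Γ(X, Q ⊓ V)),
    (∀ (Z : X.Opens) (hP : Z ≤ P) (hQ : Z ≤ Q) (hU : Z ≤ U),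
      rs X (le_inf hP hQ) s = rs X (le_inf hP hU) a1 - rs X (le_inf hQ hU) b1) ∧
    (∀ (Z : X.Opens) (hP : Z ≤ P) (hQ : Z ≤ Q) (hV : Z ≤ V),
      rs X (le_inf hP hQ) s = rs X (le_inf hP hV) a2 - rs X (le_inf hQ hV) b2) ∧
    (∀ (Z : X.Opens) (hP : Z ≤ P) (hU : Z ≤ U) (hV : Z ≤ V),
      rs X (le_inf hU hV) t = rs X (le_inf hP hU) a1 - rs X (le_inf hP hV) a2) ∧
    ∀ (Z : X.Opens) (hQ : Z ≤ Q) (hU : Z ≤ U) (hV : Z ≤ V),
      rs X (le_inf hU hV) t = rs X (le_inf hQ hU) b1 - rs X (le_inf hQ hV) b2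

theorem Rel.symm {P Q U V : X.Opens} {s : Γ(X, P ⊓ Q)} {t : Γ(X, U ⊓ V)} (h : Rel P Q U V s t) :
    Rel U V P Q t s := by
  obtain ⟨a1, b1, a2, b2, h1, h2, h3, h4⟩ := h
  refine ⟨rs X (le_inf inf_le_right inf_le_left) a1, rs X (le_inf inf_le_right inf_le_left) a2,
    rs X (le_inf inf_le_right inf_le_left) b1, rs X (le_inf inf_le_right inf_le_left) b2,
    ?_, ?_, ?_, ?_⟩
  · intro Z hU hV hP
    rw [rs_rs, rs_rs]
    exact h3 Z hP hU hV
  · intro Z hU hV hQ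
    rw [rs_rs, rs_rs]
    exact h4 Z hQ hU hV
  · intro Z hU hP hQ
    rw [rs_rs, rs_rs]
    exact h1 Z hP hQ hU
  · intro Z hV hP hQ
    rw [rs_rs, rs_rs]
    exact h2 Z hP hQ hV

theorem Rel.sub {P Q U V : X.Opens} {s s' : Γ(X, P ⊓ Q)} {t t' : Γ(X, U ⊓ V)}
    (h : Rel P Q U V s t) (h' : Rel P Q U V s' t') : Rel P Q U V (s - s') (t - t') := by
  obtain ⟨a1, b1, a2, b2, h1, h2, h3, h4⟩ := h
  obtain ⟨a1', b1', a2', b2', h1', h2', h3', h4'⟩ := h'
  refine ⟨a1 - a1', b1 - b1', a2 - a2', b2 - b2', ?_, ?_, ?_, ?_⟩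
  · intro Z hP hQ hU
    rw [map_sub, map_sub, map_sub, h1 Z hP hQ hU, h1' Z hP hQ hU]
    ring
  · intro Z hP hQ hU
    rw [map_sub, map_sub, map_sub, h2 Z hP hQ hU, h2' Z hP hQ hU]
    ring
  · intro Z hP hQ hU
    rw [map_sub, map_sub, map_sub, h3 Z hP hQ hU, h3' Z hP hQ hU]
    ring
  · intro Z hP hQ hU
    rw [map_sub, map_sub, map_sub, h4 Z hP hQ hU, h4' Z hP hQ hU]
    ring

theorem Rel.zero (P Q U V : X.Opens) : Rel P Q U V 0 0 :=
  ⟨0, 0, 0, 0, fun _ _ _ _ => by simp, fun _ _ _ _ => by simp, fun _ _ _ _ => by simp,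
    fun _ _ _ _ => by simp⟩

theorem Rel.add {P Q U V : X.Opens} {s s' : Γ(X, P ⊓ Q)} {t t' : Γ(X, U ⊓ V)}
    (h : Rel P Q U V s t) (h' : Rel P Q U V s' t') : Rel P Q U V (s + s') (t + t') := by
  have h2 := h.sub ((Rel.zero P Q U V).sub h')
  rwa [zero_sub, zero_sub, sub_neg_eq_add, sub_neg_eq_add] at h2

theorem Rel.coef {k : Type} [Field k] (π : X ⟶ Sp k) {P Q U V : X.Opens} {s : Γ(X, P ⊓ Q)}
    {t : Γ(X, U ⊓ V)} (h : Rel P Q U V s t) (c : k) :
    Rel P Q U V (MG.coef π (P ⊓ Q) c * s) (MG.coef π (U ⊓ V) c * t) := by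
  obtain ⟨a1, b1, a2, b2, h1, h2, h3, h4⟩ := h
  refine ⟨MG.coef π _ c * a1, MG.coef π _ c * b1, MG.coef π _ c * a2, MG.coef π _ c * b2,
    ?_, ?_, ?_, ?_⟩
  · intro Z hP hQ hU
    rw [map_mul, map_mul, map_mul, coef_rs, coef_rs, coef_rs, h1 Z hP hQ hU, mul_sub]
  · intro Z hP hQ hU
    rw [map_mul, map_mul, map_mul, coef_rs, coef_rs, coef_rs, h2 Z hP hQ hU, mul_sub]
  · intro Z hP hQ hU
    rw [map_mul, map_mul, map_mul, coef_rs, coef_rs, coef_rs, h3 Z hP hQ hU, mul_sub]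
  · intro Z hP hQ hU
    rw [map_mul, map_mul, map_mul, coef_rs, coef_rs, coef_rs, h4 Z hP hQ hU, mul_sub]

theorem rel_zero_of {P Q U V : X.Opens} {t : Γ(X, U ⊓ V)} {a : Γ(X, U)} {b : Γ(X, V)}
    (h : t = rs X inf_le_left a + rs X inf_le_right b) : Rel P Q U V 0 t := by
  refine ⟨rs X inf_le_right a, rs X inf_le_right a, -rs X inf_le_right b, -rs X inf_le_right b,
    ?_, ?_, ?_, ?_⟩
  · intro Z hP hQ hU
    rw [map_zero, rs_rs, rs_rs, sub_self]
  · intro Z hP hQ hV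
    rw [map_zero, map_neg, map_neg, rs_rs, rs_rs, sub_self]
  · intro Z hP hU hV
    rw [h, map_add, map_neg, rs_rs, rs_rs, rs_rs, rs_rs, sub_neg_eq_add]
  · intro Z hP hU hV
    rw [h, map_add, map_neg, rs_rs, rs_rs, rs_rs, rs_rs, sub_neg_eq_add]

theorem of_rel_zero {P Q U V : X.Opens} (hPQ : P ⊔ Q = ⊤) {t : Γ(X, U ⊓ V)}
    (h : Rel P Q U V 0 t) :
    ∃ (a : Γ(X, U)) (b : Γ(X, V)), t = rs X inf_le_left a + rs X inf_le_right b := by
  obtain ⟨a1, b1, a2, b2, h1, h2, h3, h4⟩ := h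
  have cov : ∀ W : X.Opens, W ≤ P ⊓ W ⊔ Q ⊓ W := by
    intro W
    rw [← inf_sup_right, hPQ, top_inf_eq]
  have g1 := glue (X := X) (U := P ⊓ U) (V := Q ⊓ U) (W := U) (I := P ⊓ Q ⊓ U)
    inf_le_right inf_le_right (cov U)
    (le_inf (inf_le_left.trans inf_le_left) inf_le_right)
    (le_inf (inf_le_left.trans inf_le_right) inf_le_right)
    (le_inf (le_inf (inf_le_left.trans inf_le_left) (inf_le_right.trans inf_le_left))
      (inf_le_left.trans inf_le_right)) a1 b1 (by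
      have := h1 (P ⊓ Q ⊓ U) (inf_le_left.trans inf_le_left) (inf_le_left.trans inf_le_right)
        inf_le_right
      rw [map_zero] at this
      exact sub_eq_zero.1 this.symm)
  have g2 := glue (X := X) (U := P ⊓ V) (V := Q ⊓ V) (W := V) (I := P ⊓ Q ⊓ V)
    inf_le_right inf_le_right (cov V)
    (le_inf (inf_le_left.trans inf_le_left) inf_le_right)
    (le_inf (inf_le_left.trans inf_le_right) inf_le_right)
    (le_inf (le_inf (inf_le_left.trans inf_le_left) (inf_le_right.trans inf_le_left))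
      (inf_le_left.trans inf_le_right)) a2 b2 (by
      have := h2 (P ⊓ Q ⊓ V) (inf_le_left.trans inf_le_left) (inf_le_left.trans inf_le_right)
        inf_le_right
      rw [map_zero] at this
      exact sub_eq_zero.1 this.symm)
  obtain ⟨α, hα1, hα2⟩ := g1
  obtain ⟨β, hβ1, hβ2⟩ := g2
  refine ⟨α, -β, ?_⟩
  refine eq_of (U := P ⊓ (U ⊓ V)) (V := Q ⊓ (U ⊓ V)) inf_le_right inf_le_right (cov _) _ _ ?_ ?_
  · have e := h3 (P ⊓ (U ⊓ V)) inf_le_left (inf_le_right.trans inf_le_left)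
      (inf_le_right.trans inf_le_right)
    rw [← hα1, ← hβ1, rs_rs, rs_rs] at e
    rw [map_add, map_neg, map_neg, rs_rs, rs_rs, ← sub_eq_add_neg]
    exact e
  · have e := h4 (Q ⊓ (U ⊓ V)) inf_le_left (inf_le_right.trans inf_le_left)
      (inf_le_right.trans inf_le_right)
    rw [← hα2, ← hβ2, rs_rs, rs_rs] at e
    rw [map_add, map_neg, map_neg, rs_rs, rs_rs, ← sub_eq_add_neg]
    exact e

theorem exists_rel (hsep : ∀ W W' : X.Opens, IsAffineOpen W → IsAffineOpen W' →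
    IsAffineOpen (W ⊓ W')) {P Q U V : X.Opens} (hP : IsAffineOpen P) (hQ : IsAffineOpen Q)
    (hU : IsAffineOpen U) (hV : IsAffineOpen V) (hPQ : P ⊔ Q = ⊤) (s : Γ(X, P ⊓ Q)) :
    ∃ t, Rel P Q U V s t := by
  have cov : ∀ W : X.Opens, W ≤ P ⊓ W ⊔ Q ⊓ W := by
    intro W
    rw [← inf_sup_right, hPQ, top_inf_eq]
  have step : ∀ W : X.Opens, IsAffineOpen W → ∃ (a : Γ(X, P ⊓ W)) (b : Γ(X, Q ⊓ W)),
      ∀ (Z : X.Opens) (hP : Z ≤ P) (hQ : Z ≤ Q) (hU : Z ≤ W),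
      rs X (le_inf hP hQ) s = rs X (le_inf hP hU) a - rs X (le_inf hQ hU) b := by
    intro W hW
    obtain ⟨a, b, hab⟩ := acyc (X := X) (W := W) (V1 := P ⊓ W) (V2 := Q ⊓ W) (V12 := P ⊓ Q ⊓ W)
      hW inf_le_right inf_le_right (cov W)
      (le_inf (inf_le_left.trans inf_le_left) inf_le_right)
      (le_inf (inf_le_left.trans inf_le_right) inf_le_right)
      (le_inf (le_inf (inf_le_left.trans inf_le_left) (inf_le_right.trans inf_le_left))
        (inf_le_left.trans inf_le_right)) (hsep _ _ hP hW) (hsep _ _ hQ hW)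
      (hsep _ _ (hsep _ _ hP hQ) hW) (rs X inf_le_left s)
    refine ⟨a, b, ?_⟩
    intro Z hZP hZQ hZW
    have e := congrArg (rs X (le_inf (le_inf hZP hZQ) hZW)) hab
    rw [map_sub, rs_rs, rs_rs, rs_rs] at e
    exact e
  obtain ⟨a1, b1, h1⟩ := step U hU
  obtain ⟨a2, b2, h2⟩ := step V hV
  have g := glue (X := X) (U := P ⊓ (U ⊓ V)) (V := Q ⊓ (U ⊓ V)) (W := U ⊓ V)
    (I := P ⊓ Q ⊓ (U ⊓ V)) inf_le_right inf_le_right (cov _)
    (le_inf (inf_le_left.trans inf_le_left) inf_le_right)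
    (le_inf (inf_le_left.trans inf_le_right) inf_le_right)
    (le_inf (le_inf (inf_le_left.trans inf_le_left) (inf_le_right.trans inf_le_left))
      (inf_le_left.trans inf_le_right))
    (rs X (le_inf inf_le_left (inf_le_right.trans inf_le_left)) a1 -
      rs X (le_inf inf_le_left (inf_le_right.trans inf_le_right)) a2)
    (rs X (le_inf inf_le_left (inf_le_right.trans inf_le_left)) b1 -
      rs X (le_inf inf_le_left (inf_le_right.trans inf_le_right)) b2) (by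
      rw [map_sub, map_sub, rs_rs, rs_rs, rs_rs, rs_rs]
      have e1 := h1 (P ⊓ Q ⊓ (U ⊓ V)) (inf_le_left.trans inf_le_left)
        (inf_le_left.trans inf_le_right) (inf_le_right.trans inf_le_left)
      have e2 := h2 (P ⊓ Q ⊓ (U ⊓ V)) (inf_le_left.trans inf_le_left)
        (inf_le_left.trans inf_le_right) (inf_le_right.trans inf_le_right)
      have e3 := e1.symm.trans e2
      rw [sub_eq_sub_iff_add_eq_add] at e3 ⊢
      rw [e3, add_comm])
  obtain ⟨t, ht1, ht2⟩ := g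
  refine ⟨t, a1, b1, a2, b2, h1, h2, ?_, ?_⟩
  · intro Z zP zU zV
    have e := congrArg (rs X (le_inf zP (le_inf zU zV))) ht1
    rw [map_sub, rs_rs, rs_rs, rs_rs] at e
    exact e
  · intro Z zP zU zV
    have e := congrArg (rs X (le_inf zP (le_inf zU zV))) ht2
    rw [map_sub, rs_rs, rs_rs, rs_rs] at e
    exact e

end COVI

open COVI in
theorem t_COVI : Stmt_COVI := by
  intro X k _ π _ g hg U V hU hV hUV
  obtain ⟨P, Q, hP, hQ, hPQ, L, hLs, hLk, hL0⟩ := hg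
  have hsep : ∀ W W' : X.Opens, IsAffineOpen W → IsAffineOpen W' → IsAffineOpen (W ⊓ W') := by
    have h1 : X.IsSeparated := by
      constructor
      rw [← Limits.terminal.comp_from π]
      infer_instance
    intro W W' hW hW'
    exact hW.inf hW'
  have ex : ∀ t : Γ(X, U ⊓ V), ∃ s : Γ(X, P ⊓ Q), Rel P Q U V s t := by
    intro t
    obtain ⟨s, hs⟩ := exists_rel hsep hU hV hP hQ hUV t
    exact ⟨s, hs.symm⟩
  have ker : ∀ s : Γ(X, P ⊓ Q), Rel P Q U V s 0 → L s = 0 := by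
    intro s hs
    obtain ⟨a, b, hab⟩ := of_rel_zero hUV hs.symm
    exact (hL0 s).2 ⟨a, b, hab⟩
  choose σ hσ using ex
  have wd : ∀ (s : Γ(X, P ⊓ Q)) (t : Γ(X, U ⊓ V)), Rel P Q U V s t → L (σ t) = L s := by
    intro s t hst
    have h1 := (hσ t).sub hst
    rw [sub_self] at h1
    have h2 := ker _ h1
    rw [map_sub] at h2
    exact sub_eq_zero.1 h2
  refine ⟨{ toFun := fun t => L (σ t), map_zero' := ?_, map_add' := ?_ }, ?_, ?_, ?_⟩
  · rw [wd 0 0 (Rel.zero P Q U V), map_zero]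
  · intro t t'
    rw [wd _ _ ((hσ t).add (hσ t')), map_add]
  · intro y
    obtain ⟨s, rfl⟩ := hLs y
    obtain ⟨t, ht⟩ := exists_rel hsep hP hQ hU hV hPQ s
    exact ⟨t, wd s t ht⟩
  · intro c t
    change L (σ (coef π (U ⊓ V) c * t)) = c • L (σ t)
    rw [wd _ _ ((hσ t).coef π c), hLk]
  · intro t
    change L (σ t) = 0 ↔ _
    constructor
    · intro h
      obtain ⟨a, b, hab⟩ := (hL0 _).1 h
      have h1 : Rel U V P Q 0 (σ t) := rel_zero_of hab
      have h2 := (hσ t).sub h1.symm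
      rw [sub_self, sub_zero] at h2
      exact of_rel_zero hPQ h2
    · rintro ⟨a, b, hab⟩
      rw [wd 0 t (rel_zero_of hab), map_zero]

end Pool.Agent.MG
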