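import Pool.Agent.MG.StmtsA

/-!
# Fibres of a constant family; stability is invariant under isomorphism
-/

set_option autoImplicit false

open CategoryTheory CategoryTheory.Limits AlgebraicGeometry TensorProduct

namespace Pool.Agent.MG.FIS

lemma spMap_id (K : Type) [CommRing K] : spMap (RingHom.id K) = 𝟙 (Sp K) := by
  show Spec.map (CommRingCat.ofHom (RingHom.id K)) = _
  rw [CommRingCat.ofHom_id, Spec.map_id]

lemma spMap_comp {A B C : Type} [CommRing A] [CommRing B] [CommRing C] (φ : A →+* B)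
    (ψ : B →+* C) : spMap (ψ.comp φ) = spMap ψ ≫ spMap φ := by
  show Spec.map (CommRingCat.ofHom (ψ.comp φ)) = _
  rw [CommRingCat.ofHom_comp, Spec.map_comp]

section one

/-- The pull back diagram, without families. -/
lemma core {Z X S B K : Scheme.{0}} (π : X ⟶ S) (sB : B ⟶ S) (sK : K ⟶ S) (u : K ⟶ B)
    (hu : u ≫ sB = sK) (p : Z ⟶ K) (g : Z ⟶ pullback π sB)
    (h : IsPullback g p (pullback.snd π sB) u) :
    ∃ e : Z ≅ pullback π sK, e.hom ≫ pullback.fst π sK = g ≫ pullback.fst π sB ∧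
      e.hom ≫ pullback.snd π sK = p := by
  have h2 := h.flip.paste_vert (IsPullback.of_hasPullback π sB).flip
  rw [hu] at h2
  have h4 := h2.flip
  exact ⟨h4.isoPullback, h4.isoPullback_hom_fst, h4.isoPullback_hom_snd⟩

variable {n : ℕ} {k : Type} [Field k] (C : Fam n k) (B : Type) [CommRing B] [Algebra k B]
    (K : Type) [Field K] [Algebra k K] (ψ : B →ₐ[k] K) (τ : Fin n → (Sp B ⟶ C.X))
    (hτ : ∀ i, τ i ≫ C.π = spMap (algebraMap k B)) (τ' : Fin n → (Sp K ⟶ C.X))
    (hτ' : ∀ i, τ' i ≫ C.π = spMap (algebraMap k K)) (hc : ∀ i, τ' i = spMap (ψ : B →+* K) ≫ τ i)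
    (z : Fam n K)

include hc in
lemma fibre (h : Nonempty (Arrow (ψ : B →+* K) z (constFam C B τ hτ))) :
    ∃ (f : Arrow (RingHom.id K) z (constFam C K τ' hτ')), IsIso f.f := by
  obtain ⟨a⟩ := h
  let g : z.X ⟶ pullback C.π (spMap (algebraMap k B)) := a.f
  have hg : ∀ i, z.σ i ≫ g = spMap (ψ : B →+* K) ≫ pullback.lift (τ i) (𝟙 _)
    (by rw [hτ, Category.id_comp]) := a.sec
  have h3 : spMap (ψ : B →+* K) ≫ spMap (algebraMap k B) = spMap (algebraMap k K) := by
    rw [← spMap_comp]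
    congr 1
    ext x
    exact ψ.commutes x
  obtain ⟨e, e1, e2⟩ := core C.π (spMap (algebraMap k B)) (spMap (algebraMap k K))
    (spMap (ψ : B →+* K)) h3 z.π g a.cart
  let ee : z.X ⟶ (constFam C K τ' hτ').X := e.hom
  have hee : IsIso ee := by
    show IsIso e.hom
    infer_instance
  have e2' : ee ≫ (constFam C K τ' hτ').π = z.π := e2
  refine ⟨⟨ee, ?_, ?_⟩, hee⟩
  · have : IsIso (spMap (RingHom.id K)) := by
      rw [spMap_id]
      infer_instance
    refine IsPullback.of_horiz_isIso ⟨?_⟩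
    rw [e2', spMap_id, Category.comp_id]
  · intro i
    rw [spMap_id, Category.id_comp]
    show z.σ i ≫ e.hom = pullback.lift (τ' i) (𝟙 _) (by rw [hτ', Category.id_comp])
    refine pullback.hom_ext ?_ ?_
    · rw [pullback.lift_fst, Category.assoc, e1, ← Category.assoc, hg i, Category.assoc,
        pullback.lift_fst, hc]
    · rw [pullback.lift_snd, Category.assoc, e2, z.sec]

end one

section two

variable {n : ℕ} {K : Type} [Field K] {z z' : Fam n K} (f : Arrow (RingHom.id K) z z') [IsIso f.f]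

omit [IsIso f.f] in
lemma ov : f.f ≫ z'.π = z.π := by
  have h := f.cart.w
  rwa [spMap_id, Category.comp_id] at h

omit [IsIso f.f] in
lemma sec (i : Fin n) : z.σ i ≫ f.f = z'.σ i := by
  rw [f.sec i, spMap_id, Category.id_comp]

lemma ov' : inv f.f ≫ z.π = z'.π := by
  rw [IsIso.inv_comp_eq, ov]

omit [IsIso f.f] in
lemma coef_app (U : z'.X.Opens) (c : K) :
    (f.f.app U).hom (coef z'.π U c) = coef z.π (f.f ⁻¹ᵁ U) c := by
  have h : (z'.π.appTop ≫ z'.X.presheaf.map (homOfLE le_top).op) ≫ f.f.app U =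
      z.π.appTop ≫ z.X.presheaf.map (homOfLE (le_top : f.f ⁻¹ᵁ U ≤ ⊤)).op := by
    rw [Category.assoc, Scheme.Hom.naturality]
    rw [← ov f]
    simp
  have h2 := congrArg (fun w => ((Scheme.ΓSpecIso (CommRingCat.of K)).inv ≫ w).hom c) h
  exact h2

lemma exists_pre (W : z.X.Opens) : ∃ U : z'.X.Opens, f.f ⁻¹ᵁ U = W := by
  refine ⟨inv f.f ⁻¹ᵁ W, ?_⟩
  rw [← Scheme.Hom.comp_preimage]
  simp

/-- The inverse of the ring isomorphism on functions. -/
noncomputable def ia (U : z'.X.Opens) : Γ(z.X, f.f ⁻¹ᵁ U) →+* Γ(z'.X, U) :=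
  (inv (f.f.app U)).hom

lemma ia_app (U : z'.X.Opens) (a : Γ(z'.X, U)) : ia f U ((f.f.app U).hom a) = a := by
  have h := congrArg (fun w => w.hom a) (IsIso.hom_inv_id (f.f.app U))
  exact h

lemma app_ia (U : z'.X.Opens) (a : Γ(z.X, f.f ⁻¹ᵁ U)) : (f.f.app U).hom (ia f U a) = a := by
  have h := congrArg (fun w => w.hom a) (IsIso.inv_hom_id (f.f.app U))
  exact h

omit [IsIso f.f] in
lemma app_res {U V : z'.X.Opens} (h : U ≤ V) (a : Γ(z'.X, V)) :
    (f.f.app U).hom (z'.X.presheaf.map (homOfLE h).op a) =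
      z.X.presheaf.map (homOfLE (show f.f ⁻¹ᵁ U ≤ f.f ⁻¹ᵁ V from fun _ hx => h hx)).op
        ((f.f.app V).hom a) := by
  have h1 := congrArg (fun w => w.hom a) (Scheme.Hom.naturality f.f (homOfLE h).op)
  exact h1

lemma app_inj (U : z'.X.Opens) {a b : Γ(z'.X, U)} (h : (f.f.app U).hom a = (f.f.app U).hom b) :
    a = b := by
  rw [← ia_app f U a, h, ia_app]

omit [IsIso f.f] in
lemma sec_app (i : Fin n) (U : z'.X.Opens) (b : Γ(z'.X, U)) :
    (z'.σ i).app U b = 0 ↔ (z.σ i).app (f.f ⁻¹ᵁ U) ((f.f.app U).hom b) = 0 := by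
  rw [← sec f i]
  exact Iff.rfl

/-- The derivation on `U`. -/
noncomputable def pD (v : VField z) (U : z'.X.Opens) : Γ(z'.X, U) →+ Γ(z'.X, U) where
  toFun a := ia f U (v.D (f.f ⁻¹ᵁ U) ((f.f.app U).hom a))
  map_zero' := by rw [map_zero, map_zero, map_zero]
  map_add' a b := by rw [map_add, map_add, map_add]

lemma app_pD (v : VField z) (U : z'.X.Opens) (a : Γ(z'.X, U)) :
    (f.f.app U).hom (pD f v U a) = v.D (f.f ⁻¹ᵁ U) ((f.f.app U).hom a) :=
  app_ia f U _

/-- Push forward of vector fields. -/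
noncomputable def push (v : VField z) : VField z' where
  D := pD f v
  mul U a b := by
    apply app_inj f
    have h1 : (f.f.app U).hom (a * b) = (f.f.app U).hom a * (f.f.app U).hom b := map_mul _ _ _
    have h2 : (f.f.app U).hom (a * pD f v U b + b * pD f v U a) =
        (f.f.app U).hom a * (f.f.app U).hom (pD f v U b) +
        (f.f.app U).hom b * (f.f.app U).hom (pD f v U a) := by
      rw [map_add, map_mul, map_mul]
    rw [app_pD, h1, h2, app_pD, app_pD]
    exact v.mul _ _ _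
  const U c := by
    apply app_inj f
    rw [app_pD, coef_app, v.const, map_zero]
  res U V h a := by
    apply app_inj f
    rw [app_pD]
    have h1 := app_res f h a
    have h2 := app_res f h (pD f v V a)
    rw [app_pD] at h2
    refine Eq.trans ?_ h2.symm
    refine Eq.trans (congrArg (v.D (f.f ⁻¹ᵁ U)) h1) ?_
    exact v.res _ _ _ _
  sec U i a := by
    rw [sec_app f, app_pD]
    exact v.sec _ _ _

include f
lemma rigid (h : ∀ v : VField z', ∀ U, v.D U = 0) (v : VField z) (W : z.X.Opens) :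
    v.D W = 0 := by
  obtain ⟨U, rfl⟩ := exists_pre f W
  ext a
  have h1 : pD f v U (ia f U a) = 0 := DFunLike.congr_fun (h (push f v) U) (ia f U a)
  have h3 := congrArg (f.f.app U).hom h1
  rw [app_pD, app_ia, map_zero] at h3
  exact h3

lemma genus (g : ℕ) (h : HasGenus z'.π g) : HasGenus z.π g := by
  obtain ⟨U, V, hU, hV, hUV, L, hL, hc, hk⟩ := h
  refine ⟨f.f ⁻¹ᵁ U, f.f ⁻¹ᵁ V, hU.preimage_of_isIso f.f, hV.preimage_of_isIso f.f, ?_,
    L.comp (ia f (U ⊓ V)).toAddMonoidHom, ?_, ?_, ?_⟩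
  · have := congrArg (fun W => f.f ⁻¹ᵁ W) hUV
    exact this
  · intro y
    obtain ⟨a, ha⟩ := hL y
    refine ⟨(f.f.app (U ⊓ V)).hom a, ?_⟩
    show L (ia f (U ⊓ V) ((f.f.app (U ⊓ V)).hom a)) = y
    rw [ia_app, ha]
  · intro c (s : Γ(z.X, f.f ⁻¹ᵁ (U ⊓ V)))
    show L (ia f (U ⊓ V) (coef z.π (f.f ⁻¹ᵁ (U ⊓ V)) c * s)) = c • L (ia f (U ⊓ V) s)
    rw [← coef_app, map_mul, ia_app, hc]
  · intro (s : Γ(z.X, f.f ⁻¹ᵁ (U ⊓ V)))
    show L (ia f (U ⊓ V) s) = 0 ↔ _
    rw [hk]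
    constructor
    · rintro ⟨a, b, hab⟩
      refine ⟨(f.f.app U).hom a, (f.f.app V).hom b, ?_⟩
      have h1 := congrArg (f.f.app (U ⊓ V)).hom hab
      rw [app_ia, map_add] at h1
      have h2 := app_res f (inf_le_left : U ⊓ V ≤ U) a
      have h3 := app_res f (inf_le_right : U ⊓ V ≤ V) b
      refine h1.trans ?_
      exact congrArg₂ (· + ·) h2 h3
    · rintro ⟨a, b, hab⟩
      refine ⟨ia f U a, ia f V b, ?_⟩
      apply app_inj f
      rw [app_ia, map_add]
      have h2 := app_res f (inf_le_left : U ⊓ V ≤ U) (ia f U a)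
      have h3 := app_res f (inf_le_right : U ⊓ V ≤ V) (ia f V b)
      rw [app_ia] at h2 h3
      refine hab.trans ?_
      exact (congrArg₂ (· + ·) h2 h3).symm

lemma nodal (h : Nodal z'.π) : Nodal z.π := by
  intro x
  obtain ⟨U, p, q, hp, hq, hpq, hx⟩ := h (f.f x)
  refine ⟨U, p ≫ inv f.f, q, ?_, hq, ?_, ?_⟩
  · infer_instance
  · rw [Category.assoc, ov', hpq]
  · obtain ⟨u, hu⟩ := hx
    refine ⟨u, ?_⟩
    rw [Scheme.Hom.comp_apply, hu, ← Scheme.Hom.comp_apply, IsIso.hom_inv_id]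
    rfl

lemma connected (h : ConnectedSpace z'.X) : ConnectedSpace z.X := by
  have e : z'.X ≃ₜ z.X := (inv f.f).homeomorph
  exact e.surjective.connectedSpace e.continuous

lemma smooth (i : Fin n) (s : Sp K) (h : ∃ U : z'.X.Opens, z'.σ i s ∈ U ∧
    Smooth (U.ι ≫ z'.π)) : ∃ U : z.X.Opens, z.σ i s ∈ U ∧ Smooth (U.ι ≫ z.π) := by
  obtain ⟨U, hU, hs⟩ := h
  refine ⟨f.f ⁻¹ᵁ U, ?_, ?_⟩
  · rw [← sec f i, Scheme.Hom.comp_apply] at hU
    exact hU
  · have h1 : (f.f ⁻¹ᵁ U).ι ≫ z.π = (f.f ∣_ U) ≫ U.ι ≫ z'.π := by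
      rw [← ov f, ← Category.assoc, ← Category.assoc, morphismRestrict_ι]
    rw [h1]
    infer_instance

lemma stable (g : ℕ) (h : StableCurve g z') : StableCurve g z where
  connected := connected f h.connected
  nodal := nodal f h.nodal
  genus := genus f g h.genus
  distinct i j hij he := h.distinct i j hij (by rw [← sec f i, ← sec f j, he])
  smooth i s := smooth f i s (h.smooth i s)
  rigid := rigid f h.rigid

end two

end Pool.Agent.MG.FIS

namespace Pool.Agent.MG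

theorem t_FIS : Stmt_FIS :=
  ⟨fun C B _ _ K _ _ ψ τ hτ τ' hτ' hc z h => FIS.fibre C B K ψ τ hτ τ' hτ' hc z h,
    fun g _ _ f _ h => FIS.stable f g h⟩

end Pool.Agent.MG
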