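import Pool.Agent.MG.StmtsA

/-!
# The arithmetic genus is invariant under extension of the field
-/

open CategoryTheory CategoryTheory.Limits AlgebraicGeometry TensorProduct

namespace Pool.Agent.MG

namespace GEN

variable {k K : Type} [Field k] [Field K] [Algebra k K]

/-- Linear algebra: the cokernel after extension of the field. -/
theorem lin {A1 A2 A12 : Type} [AddCommGroup A1] [AddCommGroup A2] [AddCommGroup A12]
    [Module k A1] [Module k A2] [Module k A12] (r1 : A1 →ₗ[k] A12) (r2 : A2 →ₗ[k] A12) {g : ℕ}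
    (L : A12 →ₗ[k] (Fin g → k)) (hL : Function.Surjective L)
    (hk : ∀ s, L s = 0 ↔ ∃ a b, s = r1 a + r2 b) :
    ∃ L' : K ⊗[k] A12 →ₗ[K] (Fin g → K), Function.Surjective L' ∧
      ∀ s, L' s = 0 ↔ ∃ a b, s = r1.lTensor K a + r2.lTensor K b := by
  classical
  let e := TensorProduct.piScalarRight k K K (Fin g)
  have hex : Function.Exact (r1.coprod r2) L := by
    intro s
    rw [hk]
    constructor
    · rintro ⟨a, b, rfl⟩
      exact ⟨(a, b), by simp⟩
    · rintro ⟨⟨a, b⟩, rfl⟩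
      exact ⟨a, b, by simp⟩
  have hex' : Function.Exact ((r1.coprod r2).lTensor K) (L.lTensor K) :=
    lTensor_exact K hex hL
  have key : ∀ s, (L.lTensor K) s = 0 ↔ ∃ a b, s = r1.lTensor K a + r2.lTensor K b := by
    intro s
    constructor
    · intro hs
      obtain ⟨x, rfl⟩ := (hex' s).1 hs
      refine ⟨(LinearMap.fst k A1 A2).lTensor K x, (LinearMap.snd k A1 A2).lTensor K x, ?_⟩
      have h1 : r1.coprod r2 = r1 ∘ₗ LinearMap.fst k A1 A2 + r2 ∘ₗ LinearMap.snd k A1 A2 := by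
        ext <;> simp
      rw [h1, LinearMap.lTensor_add, LinearMap.lTensor_comp, LinearMap.lTensor_comp]
      rfl
    · rintro ⟨a, b, rfl⟩
      have h1 : L ∘ₗ r1 = 0 := by
        ext1 x
        exact (hk (r1 x)).2 ⟨x, 0, by simp⟩
      have h2 : L ∘ₗ r2 = 0 := by
        ext1 x
        exact (hk (r2 x)).2 ⟨0, x, by simp⟩
      rw [map_add, ← LinearMap.comp_apply, ← LinearMap.comp_apply, ← LinearMap.lTensor_comp,
        ← LinearMap.lTensor_comp, h1, h2]
      simp
  refine ⟨e.toLinearMap ∘ₗ L.baseChange K, ?_, ?_⟩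
  · exact e.surjective.comp (LinearMap.lTensor_surjective K hL)
  · intro s
    rw [← key s]
    change e ((L.baseChange K) s) = 0 ↔ _
    rw [LinearEquiv.map_eq_zero_iff]
    rfl

variable {X : Scheme.{0}} (π : X ⟶ Sp k)

/-- The sections of the base change over an affine open subset. -/
theorem iso (W : X.Opens) (hW : IsAffineOpen W) [Algebra k Γ(X, W)]
    (hA : algebraMap k Γ(X, W) = coef π W) :
    ∃ e : K ⊗[k] Γ(X, W) ≃+* Γ(pullback π (spMap (algebraMap k K)),
        (pullback.fst π (spMap (algebraMap k K))) ⁻¹ᵁ W),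
      ∀ (c : K) (a : Γ(X, W)), e (c ⊗ₜ a) =
        coef (pullback.snd π (spMap (algebraMap k K)))
          ((pullback.fst π (spMap (algebraMap k K))) ⁻¹ᵁ W) c *
        ((pullback.fst π (spMap (algebraMap k K))).appLE W
          ((pullback.fst π (spMap (algebraMap k K))) ⁻¹ᵁ W) le_rfl).hom a := by
  set f := pullback.fst π (spMap (algebraMap k K)) with hf
  set p := pullback.snd π (spMap (algebraMap k K)) with hp
  have H : IsPullback f p π (spMap (algebraMap k K)) := IsPullback.of_hasPullback _ _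
  have hUY : f ⁻¹ᵁ W = f ⁻¹ᵁ W ⊓ p ⁻¹ᵁ ⊤ := by
    change _ = f ⁻¹ᵁ W ⊓ ⊤
    rw [inf_top_eq]
  have h1 := (isIso_pushoutSection_iff H (US := ⊤) (UT := ⊤) (UX := W) (UY := f ⁻¹ᵁ W)
    (show (⊤ : (Sp K).Opens) ≤ (spMap (algebraMap k K)) ⁻¹ᵁ ⊤ from le_top)
    (show W ≤ π ⁻¹ᵁ ⊤ from le_top) hUY).1
    (isIso_pushoutSection_of_isAffineOpen H _ _ hUY (isAffineOpen_top _) (isAffineOpen_top _) hW)
  have h2 : IsPushout (CommRingCat.ofHom (algebraMap k Γ(X, W)))
      (CommRingCat.ofHom (algebraMap k K)) (f.appLE W (f ⁻¹ᵁ W) le_rfl)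
      (CommRingCat.ofHom (coef p (f ⁻¹ᵁ W))) := by
    refine h1.of_iso (Scheme.ΓSpecIso (CommRingCat.of k)) (Iso.refl _)
      (Scheme.ΓSpecIso (CommRingCat.of K)) (Iso.refl _) ?_ ?_ ?_ ?_
    · rw [hA, coef_eq, CommRingCat.ofHom_hom, Iso.hom_inv_id_assoc]
      simp
    · exact Scheme.ΓSpecIso_naturality (CommRingCat.ofHom (algebraMap k K))
    · simp
    · rw [coef_eq, CommRingCat.ofHom_hom, Iso.hom_inv_id_assoc]
      simp
  have h3 := CommRingCat.isPushout_tensorProduct k K Γ(X, W)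
  let i := h3.isoIsPushout _ _ h2.flip
  refine ⟨i.commRingCatIsoToRingEquiv, ?_⟩
  intro c a
  have e1 : i.commRingCatIsoToRingEquiv (c ⊗ₜ 1) = coef p (f ⁻¹ᵁ W) c := by
    have := ConcreteCategory.congr_hom (IsPushout.inl_isoIsPushout_hom _ _ h3 h2.flip) c
    exact this
  have e2 : i.commRingCatIsoToRingEquiv (1 ⊗ₜ a) = (f.appLE W (f ⁻¹ᵁ W) le_rfl).hom a := by
    have := ConcreteCategory.congr_hom (IsPushout.inr_isoIsPushout_hom _ _ h3 h2.flip) a
    exact this
  have e3 : c ⊗ₜ[k] a = (c ⊗ₜ 1) * (1 ⊗ₜ a) := by simp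
  rw [e3, map_mul, e1, e2]


/-- The base change of a restriction map. -/
theorem nat {U V : X.Opens} (h : U ≤ V) [Algebra k Γ(X, U)] [Algebra k Γ(X, V)]
    (r : Γ(X, V) →ₗ[k] Γ(X, U)) (hr : ∀ a, r a = rs X h a)
    (eU : K ⊗[k] Γ(X, U) ≃+* Γ(pullback π (spMap (algebraMap k K)),
        (pullback.fst π (spMap (algebraMap k K))) ⁻¹ᵁ U))
    (eV : K ⊗[k] Γ(X, V) ≃+* Γ(pullback π (spMap (algebraMap k K)),
        (pullback.fst π (spMap (algebraMap k K))) ⁻¹ᵁ V))
    (hU : ∀ (c : K) (a : Γ(X, U)), eU (c ⊗ₜ a) =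
        coef (pullback.snd π (spMap (algebraMap k K)))
          ((pullback.fst π (spMap (algebraMap k K))) ⁻¹ᵁ U) c *
        ((pullback.fst π (spMap (algebraMap k K))).appLE U
          ((pullback.fst π (spMap (algebraMap k K))) ⁻¹ᵁ U) le_rfl).hom a)
    (hV : ∀ (c : K) (a : Γ(X, V)), eV (c ⊗ₜ a) =
        coef (pullback.snd π (spMap (algebraMap k K)))
          ((pullback.fst π (spMap (algebraMap k K))) ⁻¹ᵁ V) c *
        ((pullback.fst π (spMap (algebraMap k K))).appLE V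
          ((pullback.fst π (spMap (algebraMap k K))) ⁻¹ᵁ V) le_rfl).hom a)
    (h' : (pullback.fst π (spMap (algebraMap k K))) ⁻¹ᵁ U ≤
      (pullback.fst π (spMap (algebraMap k K))) ⁻¹ᵁ V) (x : K ⊗[k] Γ(X, V)) :
    rs _ h' (eV x) = eU (r.lTensor K x) := by
  induction x with
  | zero => simp
  | tmul c a =>
    rw [hV, LinearMap.lTensor_tmul, hU, map_mul, coef_rs, hr]
    congr 1
    change ((pullback.fst π (spMap (algebraMap k K))).appLE V _ le_rfl ≫
      (pullback π (spMap (algebraMap k K))).presheaf.map (homOfLE h').op) a =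
      (X.presheaf.map (homOfLE h).op ≫ (pullback.fst π (spMap (algebraMap k K))).appLE U _ le_rfl) a
    rw [Scheme.Hom.appLE_map, Scheme.Hom.map_appLE]
  | add u v hu hv => rw [map_add, map_add, map_add, map_add, hu, hv]

/-- Scalars. -/
theorem scal {U : X.Opens} [Algebra k Γ(X, U)]
    (eU : K ⊗[k] Γ(X, U) ≃+* Γ(pullback π (spMap (algebraMap k K)),
        (pullback.fst π (spMap (algebraMap k K))) ⁻¹ᵁ U))
    (hU : ∀ (c : K) (a : Γ(X, U)), eU (c ⊗ₜ a) =
        coef (pullback.snd π (spMap (algebraMap k K)))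
          ((pullback.fst π (spMap (algebraMap k K))) ⁻¹ᵁ U) c *
        ((pullback.fst π (spMap (algebraMap k K))).appLE U
          ((pullback.fst π (spMap (algebraMap k K))) ⁻¹ᵁ U) le_rfl).hom a)
    (c : K) (x : K ⊗[k] Γ(X, U)) :
    eU (c • x) = coef (pullback.snd π (spMap (algebraMap k K)))
          ((pullback.fst π (spMap (algebraMap k K))) ⁻¹ᵁ U) c * eU x := by
  have h1 : c • x = (c ⊗ₜ 1) * x := by
    rw [Algebra.smul_def]
    rfl
  rw [h1, map_mul, hU, map_one, mul_one]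

end GEN

open GEN in
theorem t_GEN : Stmt_GEN := by
  intro n k _ C g hC hg K _ _ τ hτ
  obtain ⟨U, V, hU, hV, hUV, L, hL, hlin, hker⟩ := hg
  have hsep : C.X.IsSeparated := by
    constructor
    rw [← terminal.comp_from C.π]
    infer_instance
  have hI : IsAffineOpen (U ⊓ V) := hU.inf hV
  let a1 : Algebra k Γ(C.X, U) := (coef C.π U).toAlgebra
  let a2 : Algebra k Γ(C.X, V) := (coef C.π V).toAlgebra
  let a12 : Algebra k Γ(C.X, U ⊓ V) := (coef C.π (U ⊓ V)).toAlgebra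
  let Ll : Γ(C.X, U ⊓ V) →ₗ[k] (Fin g → k) :=
    { toFun := L
      map_add' := L.map_add
      map_smul' := fun c s => hlin c s }
  let r1 : Γ(C.X, U) →ₗ[k] Γ(C.X, U ⊓ V) :=
    { toFun := rs C.X inf_le_left
      map_add' := map_add _
      map_smul' := fun c s => by
        change rs C.X inf_le_left (coef C.π U c * s) = coef C.π (U ⊓ V) c * rs C.X inf_le_left s
        rw [map_mul, coef_rs] }
  let r2 : Γ(C.X, V) →ₗ[k] Γ(C.X, U ⊓ V) :=
    { toFun := rs C.X inf_le_right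
      map_add' := map_add _
      map_smul' := fun c s => by
        change rs C.X inf_le_right (coef C.π V c * s) = coef C.π (U ⊓ V) c * rs C.X inf_le_right s
        rw [map_mul, coef_rs] }
  obtain ⟨L', hL', hk'⟩ := lin (K := K) r1 r2 Ll hL hker
  obtain ⟨e1, he1⟩ := GEN.iso (K := K) C.π U hU rfl
  obtain ⟨e2, he2⟩ := GEN.iso (K := K) C.π V hV rfl
  obtain ⟨e12, he12⟩ := GEN.iso (K := K) C.π (U ⊓ V) hI rfl
  change HasGenus (pullback.snd C.π (spMap (algebraMap k K))) g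
  let f := pullback.fst C.π (spMap (algebraMap k K))
  have hfa : IsAffineHom f :=
    MorphismProperty.pullback_fst (P := @IsAffineHom) C.π (spMap (algebraMap k K)) inferInstance
  have hi1 : f ⁻¹ᵁ (U ⊓ V) ≤ f ⁻¹ᵁ U := fun x hx => hx.1
  have hi2 : f ⁻¹ᵁ (U ⊓ V) ≤ f ⁻¹ᵁ V := fun x hx => hx.2
  refine ⟨f ⁻¹ᵁ U, f ⁻¹ᵁ V, hU.preimage f, hV.preimage f, ?_,
    L'.toAddMonoidHom.comp e12.symm.toAddMonoidHom, ?_, ?_, ?_⟩
  · rw [← Scheme.Hom.preimage_sup, hUV]
    rfl
  · exact hL'.comp e12.symm.surjective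
  · intro c (s : Γ(pullback C.π (spMap (algebraMap k K)), f ⁻¹ᵁ (U ⊓ V)))
    change L' (e12.symm (coef _ (f ⁻¹ᵁ (U ⊓ V)) c * s)) = c • L' (e12.symm s)
    rw [← map_smul]
    congr 1
    rw [RingEquiv.symm_apply_eq, scal C.π e12 he12, RingEquiv.apply_symm_apply]
  · intro (s : Γ(pullback C.π (spMap (algebraMap k K)), f ⁻¹ᵁ (U ⊓ V)))
    change L' (e12.symm s) = 0 ↔ _
    rw [hk']
    constructor
    · rintro ⟨a, b, hab⟩
      refine ⟨e1 a, e2 b, ?_⟩
      have h1 := GEN.nat (K := K) C.π inf_le_left r1 (fun _ => rfl) e12 e1 he12 he1 hi1 a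
      have h2 := GEN.nat (K := K) C.π inf_le_right r2 (fun _ => rfl) e12 e2 he12 he2 hi2 b
      rw [RingEquiv.symm_apply_eq, map_add, ← h1, ← h2] at hab
      exact hab
    · rintro ⟨a, b, hab⟩
      refine ⟨e1.symm a, e2.symm b, ?_⟩
      have h1 := GEN.nat (K := K) C.π inf_le_left r1 (fun _ => rfl) e12 e1 he12 he1 hi1
        (e1.symm a)
      have h2 := GEN.nat (K := K) C.π inf_le_right r2 (fun _ => rfl) e12 e2 he12 he2 hi2
        (e2.symm b)
      rw [RingEquiv.apply_symm_apply] at h1 h2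
      rw [RingEquiv.symm_apply_eq, map_add, ← h1, ← h2]
      exact hab

end Pool.Agent.MG
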