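import Pool.Agent.MG.StmtsBub
import Pool.Agent.MG.RIG
import Pool.Agent.MG.Bub.Open

/-!
# RIGW: no vector fields on the constant family which vanish at one marked point
-/

open CategoryTheory CategoryTheory.Limits AlgebraicGeometry TensorProduct

namespace Pool.Agent.MG

namespace RIGW

/-- A section in the first chart evaluates functions by `extA`. -/
theorem ev_sec {k : Type} [Field k] {T : TC k} {n : ℕ} {K : Type} [Field K] [Algebra k K]
    {x : Fam n K} (c : Charted T x) (i : Fin n) (φ : T.R1 →ₐ[k] K) (h : ⊤ ≤ x.σ i ⁻¹ᵁ c.U1)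
    (h1 : ∀ a : T.R1, ((x.σ i).appLE c.U1 ⊤ h).hom (c.t1 (1 ⊗ₜ a)) = gl K (φ a))
    (u : K ⊗[k] T.R1) : evO (x.σ i) c.U1 h (c.t1 u) = extA φ u := by
  refine tensor_ind (f := (evO (x.σ i) c.U1 h).comp c.t1) (g := (extA φ).toRingHom) ?_ ?_ u
  · intro b
    change evO (x.σ i) c.U1 h (c.t1 (b ⊗ₜ 1)) = extA φ (b ⊗ₜ 1)
    have hs : x.σ i ≫ x.π = spMap (RingHom.id K) := by
      rw [x.sec i]
      exact (spMap_id K).symm
    rw [c.c1, evO_coef (x.σ i) x.π (RingHom.id K) hs h b]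
    simp [extA]
  · intro a
    change evO (x.σ i) c.U1 h (c.t1 (1 ⊗ₜ a)) = extA φ (1 ⊗ₜ a)
    have h2 : evO (x.σ i) c.U1 h (c.t1 (1 ⊗ₜ a)) = φ a := by
      unfold evO
      rw [RingHom.comp_apply, h1]
      exact gl_inv (φ a)
    rw [h2]
    simp [extA]

end RIGW

open RIG RIGW in
/-- RIGW. -/
theorem t_RIGW (hCHB : Stmt_CHB) (hCHI : Stmt_CHI) (hTAU : Stmt_TAU) (hALGW : Stmt_ALGW) :
    Stmt_RIGW := by
  intro n k _ C T ch j hyp K _ _ τ hτ hj v U
  obtain ⟨c, hc⟩ := hCHB ch.ct ch.aff K τ hτ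
  have haff : IsAffineHom (pullback.fst C.π (spMap (algebraMap k K))) :=
    MorphismProperty.pullback_fst _ _ inferInstance
  have a1 : IsAffineOpen c.U1 := by
    rw [← hc.h1]
    exact ch.aff.aff1.preimage (pullback.fst C.π (spMap (algebraMap k K)))
  have a2 : IsAffineOpen c.U2 := by
    rw [← hc.h2]
    exact ch.aff.aff2.preimage (pullback.fst C.π (spMap (algebraMap k K)))
  have hjt : τ j = tau ch.aff (.one ((Algebra.ofId k K).comp (ch.pt j))) := by
    obtain ⟨-, h2, -, h4⟩ := hTAU ch.ct ch.aff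
    have e1 : C.σ j = tau ch.aff (.one (ch.pt j)) := h4 (C.σ j) (.one (ch.pt j)) (C.sec j) (ch.is j)
    have e2 := h2 k K (Algebra.ofId k K) (.one (ch.pt j))
    rw [hj, e1]
    exact e2.symm
  obtain ⟨hle, hev⟩ : c.Is1 ((constFam C K τ hτ).σ j) ((Algebra.ofId k K).comp (ch.pt j)) :=
    (hCHI ch.ct ch.aff K τ hτ c hc j).1 (.one ((Algebra.ofId k K).comp (ch.pt j))) hjt
  let D1 : K ⊗[k] T.R1 →+ K ⊗[k] T.R1 :=
    (c.eq1.symm : _ →+ _).comp ((v.D c.U1).comp (c.eq1 : _ →+ _))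
  let D2 : K ⊗[k] T.R2 →+ K ⊗[k] T.R2 :=
    (c.eq2.symm : _ →+ _).comp ((v.D c.U2).comp (c.eq2 : _ →+ _))
  let D12 : K ⊗[k] T.R12 →+ K ⊗[k] T.R12 :=
    (c.eq12.symm : _ →+ _).comp ((v.D (c.U1 ⊓ c.U2)).comp (c.eq12 : _ →+ _))
  have d1 : ∀ a, D1 a = c.eq1.symm (v.D c.U1 (c.eq1 a)) := fun _ => rfl
  have d2 : ∀ a, D2 a = c.eq2.symm (v.D c.U2 (c.eq2 a)) := fun _ => rfl
  have d12 : ∀ a, D12 a = c.eq12.symm (v.D (c.U1 ⊓ c.U2) (c.eq12 a)) := fun _ => rfl
  have R1 : ∀ a, rs (constFam C K τ hτ).X inf_le_left (c.eq1 a) =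
    c.eq12 (Algebra.TensorProduct.map (AlgHom.id k K) T.j1 a) := fun a => c.rs1 a
  have R2 : ∀ a, rs (constFam C K τ hτ).X inf_le_right (c.eq2 a) =
    c.eq12 (Algebra.TensorProduct.map (AlgHom.id k K) T.j2 a) := fun a => c.rs2 a
  have key := hALGW ch j hyp K D1 D2 D12 ⟨?_, ?_⟩ ⟨?_, ?_⟩ ⟨?_, ?_⟩ ?_ ?_ ?_
  · refine all0 v c.cover a1 a2 ?_ ?_ U
    · ext s
      have h := DFunLike.congr_fun key.1 (c.eq1.symm s)
      rw [d1, c.eq1.apply_symm_apply] at h
      exact (map_eq_zero_iff _ c.eq1.symm.injective).1 h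
    · ext s
      have h := DFunLike.congr_fun key.2 (c.eq2.symm s)
      rw [d2, c.eq2.apply_symm_apply] at h
      exact (map_eq_zero_iff _ c.eq2.symm.injective).1 h
  · intro a b
    rw [d1, d1, d1, RingEquiv.symm_apply_eq, map_mul, v.mul, map_add, map_mul, map_mul,
      c.eq1.apply_symm_apply, c.eq1.apply_symm_apply]
  · intro b
    rw [d1, RingEquiv.symm_apply_eq, map_zero]
    exact (congrArg (v.D c.U1) (c.c1 b)).trans (v.const _ _)
  · intro a b
    rw [d2, d2, d2, RingEquiv.symm_apply_eq, map_mul, v.mul, map_add, map_mul, map_mul,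
      c.eq2.apply_symm_apply, c.eq2.apply_symm_apply]
  · intro b
    rw [d2, RingEquiv.symm_apply_eq, map_zero]
    exact (congrArg (v.D c.U2) (c.c2 b)).trans (v.const _ _)
  · intro a b
    rw [d12, d12, d12, RingEquiv.symm_apply_eq, map_mul, v.mul, map_add, map_mul, map_mul,
      c.eq12.apply_symm_apply, c.eq12.apply_symm_apply]
  · intro b
    rw [d12, RingEquiv.symm_apply_eq, map_zero]
    exact (congrArg (v.D (c.U1 ⊓ c.U2)) (c.c12 b)).trans (v.const _ _)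
  · intro a
    change D12 (Algebra.TensorProduct.map (AlgHom.id k K) T.j1 a) =
      Algebra.TensorProduct.map (AlgHom.id k K) T.j1 (D1 a)
    rw [d12, d1, RingEquiv.symm_apply_eq, ← R1, ← R1, c.eq1.apply_symm_apply, dres]
  · intro a
    change D12 (Algebra.TensorProduct.map (AlgHom.id k K) T.j2 a) =
      Algebra.TensorProduct.map (AlgHom.id k K) T.j2 (D2 a)
    rw [d12, d2, RingEquiv.symm_apply_eq, ← R2, ← R2, c.eq2.apply_symm_apply, dres]
  · intro a
    have h1 : evO ((constFam C K τ hτ).σ j) c.U1 hle (c.t1 (D1 a)) =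
        extA ((Algebra.ofId k K).comp (ch.pt j)) (D1 a) := ev_sec c j _ hle hev (D1 a)
    have h2 : c.t1 (D1 a) = v.D c.U1 (c.eq1 a) := by
      rw [d1]
      exact c.eq1.apply_symm_apply _
    have h3 := v.sec c.U1 j (c.eq1 a)
    have h4 : evO ((constFam C K τ hτ).σ j) c.U1 hle (v.D c.U1 (c.eq1 a)) = 0 := by
      unfold evO
      rw [RingHom.comp_apply]
      have h5 : (((constFam C K τ hτ).σ j).appLE c.U1 ⊤ hle).hom (v.D c.U1 (c.eq1 a)) =
          ((Sp K).presheaf.map (homOfLE hle).op).hom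
            ((((constFam C K τ hτ).σ j).app c.U1).hom (v.D c.U1 (c.eq1 a))) := rfl
      have h6 : (((constFam C K τ hτ).σ j).app c.U1).hom (v.D c.U1 (c.eq1 a)) = 0 := h3
      rw [h5, h6, map_zero, map_zero]
    rw [h2, h4] at h1
    exact h1.symm

end Pool.Agent.MG
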