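import Pool.Agent.MG.Bub.Fib
import Pool.Agent.MG.ALGW
import Pool.Agent.MG.BRAW
import Pool.Agent.MG.BRIG
import Pool.Agent.MG.BSEC
import Pool.Agent.MG.BGEN
import Pool.Agent.MG.COVI
import Pool.Agent.MG.CHI
import Pool.Agent.MG.GEN
import Pool.Agent.MG.NOD
import Pool.Agent.MG.FIS
import Pool.Agent.MG.CONN
import Pool.Agent.MG.CHB
import Pool.Agent.MG.RIGW

/-!
# BUB: the bubble family
-/

namespace Pool.Agent.MG

theorem bubw_of (hRIGW : Stmt_RIGW) : Stmt_BUBW :=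
  t_BUBW t_FIS (t_CON t_CHB) (t_NOD t_CHB) t_GEN hRIGW t_TAU (t_BGEN t_COVI) t_BNOD t_BSEC
    (t_BRIGW (t_BRAW t_ALGW))

theorem bub_of (hRIGW : Stmt_RIGW) : Stmt_BUB := t_BUB (bubw_of hRIGW)

theorem t_RIGW' : Stmt_RIGW := t_RIGW t_CHB t_CHI0 t_TAU t_ALGW

/-- The bubble family, weak form of the hypothesis on vector fields. -/
theorem bubw : Stmt_BUBW := bubw_of t_RIGW'

/-- The bubble family. -/
theorem bub : Stmt_BUB := t_BUB bubw

end Pool.Agent.MG
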