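import Mathlib

/-!
# Gluing two schemes along an open subscheme

The push out of two open immersions.
-/

open CategoryTheory CategoryTheory.Limits AlgebraicGeometry

universe u

namespace Pool.Agent.MG

variable {W X Y : Scheme.{u}} (f : W ⟶ X) (g : W ⟶ Y) [IsOpenImmersion f] [IsOpenImmersion g]

instance glue2_map (i j : WalkingSpan) (h : i ⟶ j) : IsOpenImmersion ((span f g).map h) := by
  rcases h with _ | j
  · simp only [span_map_id]
    infer_instance
  · rcases j with _ | _
    · change IsOpenImmersion f
      infer_instance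
    · change IsOpenImmersion g
      infer_instance

instance glue2_loc : ((span f g) ⋙ Scheme.forget).IsLocallyDirected := by
  infer_instance

instance glue2_has : HasPushout f g := by
  unfold HasPushout
  infer_instance

instance glue2_inl : IsOpenImmersion (pushout.inl f g) :=
  inferInstanceAs (IsOpenImmersion (colimit.ι (span f g) WalkingSpan.left))

instance glue2_inr : IsOpenImmersion (pushout.inr f g) :=
  inferInstanceAs (IsOpenImmersion (colimit.ι (span f g) WalkingSpan.right))

theorem glue2_surj (x : (pushout f g : Scheme.{u})) :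
    x ∈ Set.range (pushout.inl f g) ∨ x ∈ Set.range (pushout.inr f g) := by
  obtain ⟨i, xi, h⟩ := Scheme.IsLocallyDirected.ι_jointly_surjective (span f g) x
  rcases i with _ | i
  · left
    have hc : f ≫ pushout.inl f g = colimit.ι (span f g) WalkingSpan.zero :=
      colimit.w (span f g) WalkingSpan.Hom.fst
    let xi' : W := xi
    refine ⟨f xi', ?_⟩
    have h1 : (f ≫ pushout.inl f g) xi' = (pushout.inl f g) (f xi') := by simp
    rw [← h1, ← h]
    exact congrArg (fun (φ : W ⟶ pushout f g) => φ xi') hc
  · rcases i with _ | _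
    · left
      exact ⟨xi, h⟩
    · right
      exact ⟨xi, h⟩

theorem glue2_eq (x : X) (y : Y) (h : pushout.inl f g x = pushout.inr f g y) :
    ∃ w : W, f w = x ∧ g w = y := by
  have h' := (Scheme.IsLocallyDirected.ι_eq_ι_iff (F := span f g) (i := WalkingSpan.left)
    (j := WalkingSpan.right) (xi := x) (xj := y)).1 h
  obtain ⟨k, fi, fj, w, h1, h2⟩ := h'
  rcases k with _ | k
  · refine ⟨w, ?_, ?_⟩
    · rw [← h1]
      have : fi = WalkingSpan.Hom.fst := Subsingleton.elim _ _
      subst this
      rfl
    · rw [← h2]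
      have : fj = WalkingSpan.Hom.snd := Subsingleton.elim _ _
      subst this
      rfl
  · rcases k with _ | _
    · nomatch fj
    · nomatch fi

theorem glue2_range :
    (pushout.inl f g).opensRange ⊔ (pushout.inr f g).opensRange = ⊤ := by
  ext x
  simp only [TopologicalSpace.Opens.coe_sup, Scheme.Hom.coe_opensRange, Set.mem_union,
    TopologicalSpace.Opens.coe_top, Set.mem_univ, iff_true]
  exact glue2_surj f g x

theorem glue2_inter :
    (pushout.inl f g).opensRange ⊓ (pushout.inr f g).opensRange =
      (f ≫ pushout.inl f g).opensRange := by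
  ext x
  simp only [TopologicalSpace.Opens.coe_inf, Scheme.Hom.coe_opensRange, Set.mem_inter_iff]
  constructor
  · rintro ⟨⟨a, rfl⟩, ⟨b, h⟩⟩
    obtain ⟨w, rfl, -⟩ := glue2_eq f g a b h.symm
    exact ⟨w, by simp⟩
  · rintro ⟨w, rfl⟩
    refine ⟨⟨f w, by simp⟩, ⟨g w, ?_⟩⟩
    rw [← Scheme.Hom.comp_apply, ← pushout.condition]

theorem glue2_isPullback : IsPullback f g (pushout.inl f g) (pushout.inr f g) := by
  refine (IsOpenImmersion.isPullback g f (pushout.inr f g) (pushout.inl f g)
    pushout.condition ?_).flip
  ext x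
  simp only [TopologicalSpace.Opens.map_coe, Scheme.Hom.coe_opensRange, Set.mem_preimage]
  constructor
  · rintro ⟨y, h⟩
    obtain ⟨w, hw, -⟩ := glue2_eq f g x y h.symm
    exact ⟨w, hw⟩
  · rintro ⟨w, rfl⟩
    refine ⟨g w, ?_⟩
    rw [← Scheme.Hom.comp_apply, ← pushout.condition]
    rfl

end Pool.Agent.MG
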