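import Mathlib

/-!
# Local properties of morphisms on a cover by two open subschemes
-/

open CategoryTheory CategoryTheory.Limits AlgebraicGeometry

universe u

namespace Pool.Agent.MG

/-- A property which is local on the source can be checked on two open subschemes. -/
theorem two_source (P : MorphismProperty Scheme.{u}) [IsZariskiLocalAtSource P]
    {X Y U V : Scheme.{u}} (i : U ⟶ X) (j : V ⟶ X) [IsOpenImmersion i] [IsOpenImmersion j]
    (h : ∀ x : X, x ∈ Set.range i ∨ x ∈ Set.range j) (f : X ⟶ Y) (h1 : P (i ≫ f))
    (h2 : P (j ≫ f)) : P f := by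
  refine IsZariskiLocalAtSource.of_iSup_eq_top (fun b : Bool => if b then i.opensRange else
    j.opensRange) ?_ ?_
  · rw [iSup_bool_eq]
    ext x
    simp only [if_true, Bool.false_eq_true, if_false, TopologicalSpace.Opens.coe_sup,
      Scheme.Hom.coe_opensRange, Set.mem_union, TopologicalSpace.Opens.coe_top, Set.mem_univ,
      iff_true]
    exact h x
  · rintro (_ | _)
    · change P (j.opensRange.ι ≫ f)
      rw [← IsOpenImmersion.isoOfRangeEq_inv_fac j (Scheme.Opens.ι _)
        (congr_arg TopologicalSpace.Opens.carrier j.opensRange.opensRange_ι.symm), Category.assoc,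
        P.cancel_left_of_respectsIso]
      exact h2
    · change P (i.opensRange.ι ≫ f)
      rw [← IsOpenImmersion.isoOfRangeEq_inv_fac i (Scheme.Opens.ι _)
        (congr_arg TopologicalSpace.Opens.carrier i.opensRange.opensRange_ι.symm), Category.assoc,
        P.cancel_left_of_respectsIso]
      exact h1

/-- A property which is local on the target can be checked on two open subschemes. -/
theorem two_target (P : MorphismProperty Scheme.{u}) [IsZariskiLocalAtTarget P]
    {X Y U V XU XV : Scheme.{u}} (f : X ⟶ Y) (i : U ⟶ Y) (j : V ⟶ Y) [IsOpenImmersion i]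
    [IsOpenImmersion j] (h : ∀ y : Y, y ∈ Set.range i ∨ y ∈ Set.range j)
    {i' : XU ⟶ X} {j' : XV ⟶ X} {fU : XU ⟶ U} {fV : XV ⟶ V} (hU : IsPullback i' fU f i)
    (hV : IsPullback j' fV f j) (h1 : P fU) (h2 : P fV) : P f := by
  refine IsZariskiLocalAtTarget.of_iSup_eq_top (fun b : Bool => if b then i.opensRange else
    j.opensRange) ?_ ?_
  · rw [iSup_bool_eq]
    ext x
    simp only [if_true, Bool.false_eq_true, if_false, TopologicalSpace.Opens.coe_sup,
      Scheme.Hom.coe_opensRange, Set.mem_union, TopologicalSpace.Opens.coe_top, Set.mem_univ,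
      iff_true]
    exact h x
  · rintro (_ | _)
    · change P (f ∣_ j.opensRange)
      refine (P.arrow_mk_iso_iff (morphismRestrictOpensRange f _)).mpr ?_
      have e := hV.isoPullback_hom_snd
      rw [← e, P.cancel_left_of_respectsIso] at h2
      exact h2
    · change P (f ∣_ i.opensRange)
      refine (P.arrow_mk_iso_iff (morphismRestrictOpensRange f _)).mpr ?_
      have e := hU.isoPullback_hom_snd
      rw [← e, P.cancel_left_of_respectsIso] at h1
      exact h1

end Pool.Agent.MG
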