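import Pool.Agent.MG.StmtsA

/-!
# CST: constant families with disjoint sections are stable
-/

open CategoryTheory CategoryTheory.Limits AlgebraicGeometry TensorProduct

namespace Pool.Agent.MG

namespace CST

/-- The identity arrow. -/
def idArrow {n : ℕ} {A : Type} [CommRing A] (x : Fam n A) : Arrow (RingHom.id A) x x where
  f := 𝟙 _
  cart := by
    have h : spMap (RingHom.id A) = 𝟙 (Sp A) := Spec.map_id _
    rw [h]
    exact IsPullback.of_horiz_isIso ⟨by simp⟩
  sec i := by
    have h : spMap (RingHom.id A) = 𝟙 (Sp A) := Spec.map_id _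
    rw [h, Category.comp_id, Category.id_comp]

/-- A stable curve over an algebraically closed field is a stable curve. -/
theorem stableCurve {n : ℕ} {k : Type} [Field k] [IsAlgClosed k] {g : ℕ} {C : Fam n k}
    (h : IsStable g C) : StableCurve g C :=
  h.fib k (RingHom.id k) C ⟨idArrow C⟩

theorem spMap_comp {A B D : Type} [CommRing A] [CommRing B] [CommRing D] (f : A →+* B)
    (g : B →+* D) : spMap (g.comp f) = spMap g ≫ spMap f := by
  change Spec.map (CommRingCat.ofHom (g.comp f)) = _
  rw [CommRingCat.ofHom_comp, Spec.map_comp]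

end CST

open CST in
theorem t_CST (hFIS : Stmt_FIS) (hCON : Stmt_CON) (hNOD : Stmt_NOD) (hGEN : Stmt_GEN)
    (hRIG : Stmt_RIG) : Stmt_CST := by
  intro n k _ _ g C hC hsm T ch hvf B _ _ τ hτ hdis
  have hSC := stableCurve hC
  have hprop := hC.proper
  have hflat := hC.flat
  have hfp := hC.fp
  refine ⟨?_, ?_, ?_, ?_⟩
  · change IsProper (pullback.snd C.π (spMap (algebraMap k B)))
    infer_instance
  · change Flat (pullback.snd C.π (spMap (algebraMap k B)))
    infer_instance
  · change LocallyOfFinitePresentation (pullback.snd C.π (spMap (algebraMap k B)))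
    infer_instance
  · intro K _ _ s z hz
    let _ : Algebra k K := (s.comp (algebraMap k B)).toAlgebra
    let ψ : B →ₐ[k] K := { s with commutes' := fun _ => rfl }
    have hτ' : ∀ i, (spMap s ≫ τ i) ≫ C.π = spMap (algebraMap k K) := by
      intro i
      rw [Category.assoc, hτ, ← spMap_comp]
    obtain ⟨f, hf⟩ := hFIS.1 C B K ψ τ hτ (fun i => spMap s ≫ τ i) hτ' (fun i => rfl) z hz
    refine hFIS.2 g z _ f hf ?_
    refine ⟨?_, ?_, ?_, ?_, ?_, ?_⟩
    · have : Nonempty C.X := hSC.connected.toNonempty
      exact hCON C T ch this K _ hτ'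
    · exact hNOD C T ch K _ hτ'
    · exact hGEN C g hprop hSC.genus K _ hτ'
    · intro i j hij h
      refine hdis K s i j hij ?_
      have h1 := congrArg (fun q => q ≫ pullback.fst C.π (spMap (algebraMap k K))) h
      have h2 : ∀ i, (constFam C K (fun i => spMap s ≫ τ i) hτ').σ i ≫
          pullback.fst C.π (spMap (algebraMap k K)) = spMap s ≫ τ i :=
        fun i => pullback.lift_fst _ _ _
      exact (h2 i).symm.trans (h1.trans (h2 j))
    · intro i p
      refine ⟨⊤, trivial, ?_⟩
      have h1 : Smooth C.π := SmoothOfRelativeDimension.smooth 1 C.π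
      have h2 : Smooth (pullback.snd C.π (spMap (algebraMap k K))) :=
        MorphismProperty.pullback_snd _ _ h1
      change Smooth ((⊤ : (pullback C.π (spMap (algebraMap k K))).Opens).ι ≫
        pullback.snd C.π (spMap (algebraMap k K)))
      infer_instance
    · intro v U
      exact hRIG C T ch hvf K _ hτ' v U

end Pool.Agent.MG
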