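import Pool.Agent.MG.Bub.Zero

/-!
# The market: the nodal fibre of the bubble family
-/

open CategoryTheory CategoryTheory.Limits AlgebraicGeometry TensorProduct

namespace Pool.Agent.MG

/-- COVI: the genus can be computed with every affine cover with two elements. -/
def Stmt_COVI : Prop :=
  ∀ {X : Scheme.{0}} {k : Type} [Field k] (π : X ⟶ Sp k) [IsSeparated π] (g : ℕ),
    HasGenus π g → ∀ (U V : X.Opens), IsAffineOpen U → IsAffineOpen V → U ⊔ V = ⊤ →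
    ∃ L : Γ(X, U ⊓ V) →+ (Fin g → k), Function.Surjective L ∧
      (∀ (c : k) (s : Γ(X, U ⊓ V)), L (coef π (U ⊓ V) c * s) = c • L s) ∧
      ∀ s : Γ(X, U ⊓ V), L s = 0 ↔ ∃ (a : Γ(X, U)) (b : Γ(X, V)),
        s = rs X inf_le_left a + rs X inf_le_right b

/-- BGEN: the genus of the nodal curve. -/
def Stmt_BGEN : Prop :=
  ∀ {n : ℕ} {k : Type} [Field k] {C : Fam n k} {T : TC k} (ch : Cht C T) (j : Fin n)
    (_ : IsProper C.π) (K : Type) [Field K] [Algebra k K] (b : K) (_ : b = 0) (g : ℕ),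
    HasGenus (pullback.snd C.π (spMap (algebraMap k K))) g →
    HasGenus (bπ ch.aff (zz ch j) (zz_unit ch j) K b) g

/-- BNOD: the nodal curve is nodal. -/
def Stmt_BNOD : Prop :=
  ∀ {n : ℕ} {k : Type} [Field k] {C : Fam n k} {T : TC k} (ch : Cht C T) (j : Fin n)
    (K : Type) [Field K] [IsAlgClosed K] [Algebra k K] (b : K) (_ : b = 0),
    Nodal (bπ ch.aff (zz ch j) (zz_unit ch j) K b)

/-- BSEC: the marked points of the nodal curve are distinct and smooth. -/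
def Stmt_BSEC : Prop :=
  ∀ {n : ℕ} {k : Type} [Field k] {C : Fam n k} {T : TC k} (ch : Cht C T) (i₀ j : Fin n)
    (hji : j ≠ i₀) (K : Type) [Field K] [Algebra k K] (φ : T.R1 →ₐ[k] K) (_ : φ (zz ch j) = 0),
    (∀ i i', i ≠ i' → (bubFam ch i₀ j φ hji).σ i ≠ (bubFam ch i₀ j φ hji).σ i') ∧
    ∀ (i : Fin n) (s : Sp K), ∃ U : (bubFam ch i₀ j φ hji).X.Opens,
      (bubFam ch i₀ j φ hji).σ i s ∈ U ∧ Smooth (U.ι ≫ (bubFam ch i₀ j φ hji).π)

/-- A derivation which kills the constants. -/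
structure IsDer {K A : Type} [CommRing K] [CommRing A] (i : K →+* A) (D : A →+ A) : Prop where
  mul : ∀ a b, D (a * b) = a * D b + b * D a
  const : ∀ c, D (i c) = 0

/-- BRA: rigidity of the nodal curve, algebra. `D1`, `D2`, `D3` are derivations of the functions on
the three charts, `DM`, `D12` on the intersections. -/
def Stmt_BRA : Prop :=
  ∀ {n : ℕ} {k : Type} [Field k] {C : Fam n k} {T : TC k} (ch : Cht C T),
    (∀ (a : T.R1) (b : T.R2), T.j1 a = T.e * T.j2 b → a = 0) →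
    ∀ (j : Fin n) (K : Type) [Field K] [Algebra k K] (b : K) (hb : b = 0)
      (D1 : N1 ch j K b →+ N1 ch j K b) (D2 : N2 ch j K b →+ N2 ch j K b)
      (D3 : K ⊗[k] T.R2 →+ K ⊗[k] T.R2) (D12 : K ⊗[k] T.R12 →+ K ⊗[k] T.R12)
      (DM : MR (zB ch j K) (b ⊗ₜ[k] (1 : T.R1)) →+ MR (zB ch j K) (b ⊗ₜ[k] (1 : T.R1))),
      IsDer ((algebraMap (K ⊗[k] T.R1) (N1 ch j K b)).comp (inL k K T.R1)) D1 →
      IsDer ((algebraMap (K ⊗[k] T.R1) (N2 ch j K b)).comp (inL k K T.R1)) D2 →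
      IsDer (inL k K T.R2) D3 → IsDer (inL k K T.R12) D12 →
      IsDer ((algebraMap (K ⊗[k] T.R1) (MR (zB ch j K) (b ⊗ₜ[k] (1 : T.R1)))).comp
        (inL k K T.R1)) DM →
      (∀ u, DM (algebraMap (N1 ch j K b) _ u) = algebraMap (N1 ch j K b) _ (D1 u)) →
      (∀ u, DM (swapN _ _ u) = swapN _ _ (D2 u)) →
      (∀ u, D12 (bmap K T.j1 (toA ch j K b hb u)) = bmap K T.j1 (toA ch j K b hb (D1 u))) →
      (∀ u, D12 (bmap K T.j2 u) = bmap K T.j2 (D3 u)) →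
      (∀ u, (toY ch j K b hb (D2 u)).eval 0 = 0) →
      (∀ u, (toY ch j K b hb (D2 u)).eval 1 = 0) →
      D1 = 0 ∧ D2 = 0 ∧ D3 = 0

/-- BRIG: rigidity of the nodal curve. -/
def Stmt_BRIG : Prop :=
  ∀ {n : ℕ} {k : Type} [Field k] {C : Fam n k} {T : TC k} (ch : Cht C T),
    (∀ (a : T.R1) (b : T.R2), T.j1 a = T.e * T.j2 b → a = 0) →
    ∀ (i₀ j : Fin n) (hji : j ≠ i₀) (K : Type) [Field K] [Algebra k K] (φ : T.R1 →ₐ[k] K)
      (_ : φ (zz ch j) = 0) (v : VField (bubFam ch i₀ j φ hji)) (U), v.D U = 0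

/-- ALGW: rigidity of the constant family under the weaker hypothesis that the vector fields which
vanish at `p_j` are `0` (compare `RIG.alg`). -/
def Stmt_ALGW : Prop :=
  ∀ {n : ℕ} {k : Type} [Field k] {C : Fam n k} {T : TC k} (ch : Cht C T) (j : Fin n),
    (∀ (a : T.R1) (b : T.R2), T.j1 a = T.e * T.j2 b → ch.pt j a = 0 → a = 0) →
    ∀ (K : Type) [Field K] [Algebra k K]
      (D1 : K ⊗[k] T.R1 →+ K ⊗[k] T.R1) (D2 : K ⊗[k] T.R2 →+ K ⊗[k] T.R2)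
      (D12 : K ⊗[k] T.R12 →+ K ⊗[k] T.R12),
      IsDer (inL k K T.R1) D1 → IsDer (inL k K T.R2) D2 → IsDer (inL k K T.R12) D12 →
      (∀ a, D12 (bmap K T.j1 a) = bmap K T.j1 (D1 a)) →
      (∀ a, D12 (bmap K T.j2 a) = bmap K T.j2 (D2 a)) →
      (∀ a, evB ch j K (D1 a) = 0) → D1 = 0 ∧ D2 = 0

/-- BRAW: BRA under the weaker hypothesis. -/
def Stmt_BRAW : Prop :=
  ∀ {n : ℕ} {k : Type} [Field k] {C : Fam n k} {T : TC k} (ch : Cht C T) (j : Fin n),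
    (∀ (a : T.R1) (b : T.R2), T.j1 a = T.e * T.j2 b → ch.pt j a = 0 → a = 0) →
    ∀ (K : Type) [Field K] [Algebra k K] (b : K) (hb : b = 0)
      (D1 : N1 ch j K b →+ N1 ch j K b) (D2 : N2 ch j K b →+ N2 ch j K b)
      (D3 : K ⊗[k] T.R2 →+ K ⊗[k] T.R2) (D12 : K ⊗[k] T.R12 →+ K ⊗[k] T.R12)
      (DM : MR (zB ch j K) (b ⊗ₜ[k] (1 : T.R1)) →+ MR (zB ch j K) (b ⊗ₜ[k] (1 : T.R1))),
      IsDer ((algebraMap (K ⊗[k] T.R1) (N1 ch j K b)).comp (inL k K T.R1)) D1 →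
      IsDer ((algebraMap (K ⊗[k] T.R1) (N2 ch j K b)).comp (inL k K T.R1)) D2 →
      IsDer (inL k K T.R2) D3 → IsDer (inL k K T.R12) D12 →
      IsDer ((algebraMap (K ⊗[k] T.R1) (MR (zB ch j K) (b ⊗ₜ[k] (1 : T.R1)))).comp
        (inL k K T.R1)) DM →
      (∀ u, DM (algebraMap (N1 ch j K b) _ u) = algebraMap (N1 ch j K b) _ (D1 u)) →
      (∀ u, DM (swapN _ _ u) = swapN _ _ (D2 u)) →
      (∀ u, D12 (bmap K T.j1 (toA ch j K b hb u)) = bmap K T.j1 (toA ch j K b hb (D1 u))) →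
      (∀ u, D12 (bmap K T.j2 u) = bmap K T.j2 (D3 u)) →
      (∀ u, (toY ch j K b hb (D2 u)).eval 0 = 0) →
      (∀ u, (toY ch j K b hb (D2 u)).eval 1 = 0) →
      D1 = 0 ∧ D2 = 0 ∧ D3 = 0

/-- BRIGW: rigidity of the nodal curve under the weaker hypothesis. -/
def Stmt_BRIGW : Prop :=
  ∀ {n : ℕ} {k : Type} [Field k] {C : Fam n k} {T : TC k} (ch : Cht C T) (j : Fin n),
    (∀ (a : T.R1) (b : T.R2), T.j1 a = T.e * T.j2 b → ch.pt j a = 0 → a = 0) →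
    ∀ (i₀ : Fin n) (hji : j ≠ i₀) (K : Type) [Field K] [Algebra k K] (φ : T.R1 →ₐ[k] K)
      (_ : φ (zz ch j) = 0) (v : VField (bubFam ch i₀ j φ hji)) (U), v.D U = 0

/-- RIGW: no vector fields on the constant family which vanish at `p_j`. -/
def Stmt_RIGW : Prop :=
  ∀ {n : ℕ} {k : Type} [Field k] {C : Fam n k} {T : TC k} (ch : Cht C T) (j : Fin n),
    (∀ (a : T.R1) (b : T.R2), T.j1 a = T.e * T.j2 b → ch.pt j a = 0 → a = 0) →
    ∀ (K : Type) [Field K] [Algebra k K] (τ : Fin n → (Sp K ⟶ C.X))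
      (hτ : ∀ i, τ i ≫ C.π = spMap (algebraMap k K)) (_ : τ j = spMap (algebraMap k K) ≫ C.σ j)
      (v : VField (constFam C K τ hτ)) (U), v.D U = 0

end Pool.Agent.MG
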