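import Pool.Agent.MG.StmtsA

/-!
# CHA, CHK: arrows to constant families
-/

open CategoryTheory CategoryTheory.Limits AlgebraicGeometry TensorProduct

namespace Pool.Agent.MG

namespace CHAK

theorem spMap_comp {k B B' : Type} [Field k] [CommRing B] [Algebra k B] [CommRing B']
    [Algebra k B'] (ψ : B →ₐ[k] B') :
    spMap (ψ : B →+* B') ≫ spMap (algebraMap k B) = spMap (algebraMap k B') := by
  rw [← ψ.comp_algebraMap]
  change Spec.map _ ≫ Spec.map _ = Spec.map _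
  rw [← Spec.map_comp]
  rfl

theorem appLE_eq {X Y Z : Scheme.{0}} (f : X ⟶ Y) (g : Y ⟶ Z) (h : X ⟶ Z) (e : f ≫ g = h)
    (U : Z.Opens) (V : Y.Opens) (W : X.Opens) (e1 : V ≤ g ⁻¹ᵁ U) (e2 : W ≤ f ⁻¹ᵁ V)
    (e3 : W ≤ h ⁻¹ᵁ U) (v : Γ(Z, U)) :
    (f.appLE V W e2).hom ((g.appLE U V e1).hom v) = (h.appLE U W e3).hom v := by
  subst e
  exact ConcreteCategory.congr_hom (Scheme.Hom.appLE_comp_appLE f g U V W e1 e2) v

theorem appLE_id {X : Scheme.{0}} (U : X.Opens) (h : U ≤ (𝟙 X : X ⟶ X) ⁻¹ᵁ U) (v : Γ(X, U)) :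
    ((𝟙 X : X ⟶ X).appLE U U h).hom v = v := by
  have : (𝟙 X : X ⟶ X).appLE U U h = 𝟙 _ := by
    have := Scheme.Hom.appLE_eq_app (𝟙 X : X ⟶ X) (U := U)
    rw [Scheme.Hom.id_app] at this
    exact this
  rw [this]
  rfl

theorem main {n : ℕ} {k : Type} [Field k] {T : TC k} {C : Fam n k} (ct : Charted T C)
    (B : Type) [CommRing B] [Algebra k B] (B' : Type) [CommRing B'] [Algebra k B']
    (ψ : B →ₐ[k] B') (τ : Fin n → (Sp B ⟶ C.X))
    (hτ : ∀ i, τ i ≫ C.π = spMap (algebraMap k B))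
    (c : Charted T (constFam C B τ hτ)) (hc : IsBC ct c) (y : Fam n B') (c' : Charted T y)
    (g : y.X ⟶ C.X) (hg : IsPullback g y.π C.π (spMap (ψ : B →+* B') ≫ spMap (algebraMap k B)))
    (hs : ∀ i, y.σ i ≫ g = spMap (ψ : B →+* B') ≫ τ i)
    (h1 : g ⁻¹ᵁ ct.U1 = c'.U1) (h2 : g ⁻¹ᵁ ct.U2 = c'.U2)
    (f1 : ∀ r : T.R1, (g.appLE ct.U1 c'.U1 h1.ge).hom (ct.t1 (1 ⊗ₜ r)) = c'.t1 (1 ⊗ₜ r))
    (f2 : ∀ r : T.R2, (g.appLE ct.U2 c'.U2 h2.ge).hom (ct.t2 (1 ⊗ₜ r)) = c'.t2 (1 ⊗ₜ r))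
    (f12 : ∀ (h : c'.U1 ⊓ c'.U2 ≤ g ⁻¹ᵁ (ct.U1 ⊓ ct.U2)) (r : T.R12),
      (g.appLE (ct.U1 ⊓ ct.U2) (c'.U1 ⊓ c'.U2) h).hom (ct.t12 (1 ⊗ₜ r)) = c'.t12 (1 ⊗ₜ r)) :
    ∃ a : Arrow (ψ : B →+* B') y (constFam C B τ hτ), ChArrow a c' c := by
  have hw : g ≫ C.π = (y.π ≫ spMap (ψ : B →+* B')) ≫ spMap (algebraMap k B) := by
    rw [hg.w, Category.assoc]
  have hfst : pullback.lift g (y.π ≫ spMap (ψ : B →+* B')) hw ≫
      pullback.fst C.π (spMap (algebraMap k B)) = g := pullback.lift_fst _ _ _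
  have hsnd : pullback.lift g (y.π ≫ spMap (ψ : B →+* B')) hw ≫
      pullback.snd C.π (spMap (algebraMap k B)) = y.π ≫ spMap (ψ : B →+* B') :=
    pullback.lift_snd _ _ _
  refine ⟨{ f := pullback.lift g (y.π ≫ spMap (ψ : B →+* B')) hw
            cart := ?_
            sec := ?_ }, ?_⟩
  · refine IsPullback.of_right (h₁₂ := pullback.fst C.π (spMap (algebraMap k B)))
      (v₁₃ := C.π) (h₂₂ := spMap (algebraMap k B)) ?_ hsnd (IsPullback.of_hasPullback _ _)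
    rw [hfst]
    exact hg
  · intro i
    have hsec : y.σ i ≫ pullback.lift g (y.π ≫ spMap (ψ : B →+* B')) hw =
        spMap (ψ : B →+* B') ≫ pullback.lift (f := C.π) (g := spMap (algebraMap k B)) (τ i)
          (𝟙 (Sp B)) (by rw [hτ, Category.id_comp]) := by
      apply pullback.hom_ext
      · rw [Category.assoc, hfst, hs, Category.assoc, pullback.lift_fst]
      · rw [Category.assoc, hsnd, ← Category.assoc, y.sec, Category.id_comp, Category.assoc,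
          pullback.lift_snd, Category.comp_id]
    exact hsec
  · have k1 : (pullback.lift g (y.π ≫ spMap (ψ : B →+* B')) hw) ⁻¹ᵁ c.U1 = c'.U1 := by
      rw [← hc.h1, ← h1, ← Scheme.Hom.comp_preimage, hfst]
    have k2 : (pullback.lift g (y.π ≫ spMap (ψ : B →+* B')) hw) ⁻¹ᵁ c.U2 = c'.U2 := by
      rw [← hc.h2, ← h2, ← Scheme.Hom.comp_preimage, hfst]
    refine ⟨k1, k2, ?_, ?_, ?_⟩
    · intro r
      rw [← hc.f1 r, ← f1 r]
      exact appLE_eq _ _ _ hfst _ _ _ _ _ _ _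
    · intro r
      rw [← hc.f2 r, ← f2 r]
      exact appLE_eq _ _ _ hfst _ _ _ _ _ _ _
    · intro h r
      have e1 : c.U1 ⊓ c.U2 ≤ (pullback.fst C.π (spMap (algebraMap k B))) ⁻¹ᵁ
          (ct.U1 ⊓ ct.U2) := by
        rw [← hc.h1, ← hc.h2]
        exact le_rfl
      have e2 : c'.U1 ⊓ c'.U2 ≤ g ⁻¹ᵁ (ct.U1 ⊓ ct.U2) := by
        rw [← h1, ← h2]
        exact le_rfl
      rw [← hc.f12 e1 r, ← f12 e2 r]
      exact appLE_eq _ _ _ hfst _ _ _ _ _ _ _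

end CHAK

theorem t_CHA : Stmt_CHA ∧ Stmt_CHK := by
  refine ⟨?_, ?_⟩
  · intro n k _ T C ct _ B _ _ B' _ _ ψ τ hτ τ' hτ' c c' hc hc' hh
    refine CHAK.main ct B B' ψ τ hτ c hc (constFam C B' τ' hτ') c'
      (pullback.fst C.π (spMap (algebraMap k B'))) ?_ ?_ hc'.h1 hc'.h2 hc'.f1 hc'.f2 hc'.f12
    · rw [CHAK.spMap_comp]
      exact IsPullback.of_hasPullback _ _
    · intro i
      rw [← hh i]
      exact pullback.lift_fst _ _ _
  · intro n k _ T C ct _ B _ _ ψ τ hτ c hc hh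
    have hid : spMap (ψ : B →+* k) ≫ spMap (algebraMap k B) = 𝟙 (Sp k) := by
      rw [CHAK.spMap_comp]
      exact Spec.map_id _
    refine CHAK.main ct B k ψ τ hτ c hc C ct (𝟙 C.X) ?_ ?_ rfl rfl ?_ ?_ ?_
    · rw [hid]
      exact IsPullback.of_id_fst
    · intro i
      rw [Category.comp_id]
      exact hh i
    · intro r
      exact CHAK.appLE_id _ _ _
    · intro r
      exact CHAK.appLE_id _ _ _
    · intro h r
      exact CHAK.appLE_id _ _ _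

end Pool.Agent.MG
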