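import Pool.Agent.MG.StmtsA

/-!
# Change of the chart of a section
-/

open CategoryTheory CategoryTheory.Limits AlgebraicGeometry TensorProduct

namespace Pool.Agent.MG

namespace CHG

section

variable {n : ℕ} {k : Type} [Field k] {T : TC k} {B : Type} [CommRing B] [Algebra k B]
  {x : Fam n B} (ct : Charted T x) {E J : Type} [CommRing E] [Fintype J] {S : SqE B E J}
  (t : Thk S x) (H : Good3 ct t)

/-- Evaluation at a section and restriction of functions. -/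
theorem ev_rs (i : Fin n) {U U' : x.X.Opens} (hU : U ≤ U') (h : ⊤ ≤ x.σ i ⁻¹ᵁ U)
    (h' : ⊤ ≤ x.σ i ⁻¹ᵁ U') (v : Γ(t.y.X, t.op U')) :
    t.ev i h (rs t.y.X (t.op_mono hU) v) = t.ev i h' v := by
  have h1 : t.y.X.presheaf.map (homOfLE (t.op_mono hU)).op ≫
      (t.y.σ i).appLE (t.op U) ⊤ (t.sec_le i h) = (t.y.σ i).appLE (t.op U') ⊤ (t.sec_le i h') :=
    Scheme.Hom.map_appLE _ _ _
  have h2 := ConcreteCategory.congr_hom h1 v
  change (Scheme.ΓSpecIso (CommRingCat.of E)).hom.hom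
    ((t.y.X.presheaf.map (homOfLE (t.op_mono hU)).op ≫
      (t.y.σ i).appLE (t.op U) ⊤ (t.sec_le i h)) v) =
    (Scheme.ΓSpecIso (CommRingCat.of E)).hom.hom ((t.y.σ i).appLE (t.op U') ⊤ (t.sec_le i h') v)
  rw [h2]

/-- Evaluation at a section in the intersection of the charts. -/
theorem p_ev12 (i : Fin n) (χ : T.R12 →ₐ[k] B) (h : ⊤ ≤ x.σ i ⁻¹ᵁ (ct.U1 ⊓ ct.U2))
    (hχ : ∀ a : T.R12,
      ((x.σ i).appLE (ct.U1 ⊓ ct.U2) ⊤ h).hom (ct.t12 (1 ⊗ₜ a)) = gl B (χ a))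
    (v : Γ(t.y.X, t.op (ct.U1 ⊓ ct.U2))) :
    S.p (t.ev i h v) = extA χ ((rd ct t H).q12 v) := by
  refine (t.p_ev i h v).trans ?_
  have hv : t.q (ct.U1 ⊓ ct.U2) v = ct.t12 ((rd ct t H).q12 v) :=
    (ct.eq12.apply_symm_apply (t.q (ct.U1 ⊓ ct.U2) v)).symm
  rw [hv]
  refine tensor_ind (f := (ev0 i h).comp ct.t12) (g := (extA χ).toRingHom) ?_ ?_ _
  · intro b
    change ev0 i h (ct.t12 (b ⊗ₜ 1)) = extA χ (b ⊗ₜ 1)
    rw [ct.c12, ev0_coef]
    simp [extA]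
  · intro a
    change (Scheme.ΓSpecIso (CommRingCat.of B)).hom.hom
      (((x.σ i).appLE (ct.U1 ⊓ ct.U2) ⊤ h).hom (ct.t12 (1 ⊗ₜ a))) = extA χ (1 ⊗ₜ a)
    rw [hχ, gl_inv]
    simp [extA]

theorem rsec_cast (i : Fin n) {p q : Pt T B} (e : p = q) (hp : ct.Is (x.σ i) p)
    (hq : ct.Is (x.σ i) q) : (e ▸ rsec ct t H i p hp : (rd ct t H).Sec q) =
      rsec ct t H i q hq := by
  subst e
  rfl

theorem rsec_heq (i : Fin n) {p q : Pt T B} (e : p = q) (hp : ct.Is (x.σ i) p)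
    (hq : ct.Is (x.σ i) q) : HEq (rsec ct t H i p hp) (rsec ct t H i q hq) := by
  subst e
  rfl

end

end CHG

set_option linter.unusedVariables false in
open CHG in
/-- Block CHG (the hypothesis `hAI` is not needed). -/
theorem t_CHG (hSQZ : Stmt_SQZ) (hAX : Stmt_AX) (hAC : Stmt_AC) (hAI : Stmt_AI) : Stmt_CHG := by
  intro n k _ T B _ _ x ct s s' hs hs' i₀ χ hsi hsi' hχ hne C C' hμ hν hνe g l l' hl hl'
  obtain ⟨h12, hχ⟩ := hχ
  have key : l.l = l'.l := by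
    funext d
    have H : Good3 ct d.thk := ⟨hSQZ _ _ ct.ac1, hSQZ _ _ ct.ac2, hSQZ _ _ ct.ac12⟩
    obtain ⟨h, δ, hR⟩ := hAX (rd ct d.thk H) s (fun i => rsec ct d.thk H i (s i) (hs i))
    have hi1 : ct.Is (x.σ i₀) (.one (χ.comp T.j1)) := hsi ▸ hs i₀
    have hi2 : ct.Is (x.σ i₀) (.two (χ.comp T.j2)) := hsi' ▸ hs' i₀
    obtain ⟨δ', hR', hval⟩ := hAC (rd ct d.thk H) s s'
      (fun i => rsec ct d.thk H i (s i) (hs i)) (fun i => rsec ct d.thk H i (s' i) (hs' i))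
      i₀ χ (d.thk.ev i₀ h12) (p_ev12 ct d.thk H i₀ χ h12 hχ) hsi hsi'
      (by
        intro v
        rw [rsec_cast ct d.thk H i₀ hsi (hs i₀) hi1]
        exact (ev_rs d.thk i₀ inf_le_left h12 hi1.1 v).symm)
      (by
        intro v
        rw [rsec_cast ct d.thk H i₀ hsi' (hs' i₀) hi2]
        exact (ev_rs d.thk i₀ inf_le_right h12 hi2.1 v).symm)
      hne (fun i hi => rsec_heq ct d.thk H i (hne i hi) (hs i) (hs' i))
      C C' hμ hν hνe h δ hR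
    have e1 := hl d (h ()) (δ ()) ⟨H, hR⟩
    have e2 := hl' d (h ()) (δ' ()) ⟨H, hR'⟩
    rw [e1, e2]
    exact hval ()
  cases l
  cases l'
  cases key
  rfl

end Pool.Agent.MG
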