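import Pool.Agent.MG.StmtsA

/-!
# CLS: over a field, every covector is given by covector data
-/

open CategoryTheory CategoryTheory.Limits AlgebraicGeometry TensorProduct

namespace Pool.Agent.MG

namespace CLS

section
variable {R S A A' : Type} [CommRing R] [CommRing S] [CommRing A] [CommRing A']

theorem ker_nil (q : A →+* A') (hk : ∀ a b, q a = 0 → q b = 0 → a * b = 0) :
    IsNilpotent (RingHom.ker q) := by
  refine ⟨2, ?_⟩
  rw [pow_two, Ideal.zero_eq_bot, eq_bot_iff, Ideal.mul_le]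
  intro a ha b hb
  rw [Ideal.mem_bot]
  exact hk a b ha hb

theorem et_uniq (f : R →+* S) (hf : f.Etale) (q : A →+* A')
    (hk : ∀ a b, q a = 0 → q b = 0 → a * b = 0) (w w' : S →+* A)
    (h1 : ∀ r, w (f r) = w' (f r)) (h2 : ∀ s, q (w s) = q (w' s)) : w = w' := by
  let : Algebra R S := f.toAlgebra
  have : Algebra.Etale R S := hf
  let : Algebra R A := (w.comp f).toAlgebra
  let g1 : S →ₐ[R] A := { w with commutes' := fun r => rfl }
  let g2 : S →ₐ[R] A := { w' with commutes' := fun r => (h1 r).symm }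
  have h3 : g1 = g2 := Algebra.FormallyUnramified.ext' q (ker_nil q hk) g1 g2 h2
  ext s
  exact congrArg (fun g : S →ₐ[R] A => g s) h3

theorem et_lift (f : R →+* S) (hf : f.Etale) (q : A →+* A') (hq : Function.Surjective q)
    (hk : ∀ a b, q a = 0 → q b = 0 → a * b = 0) (u : R →+* A) (v : S →+* A')
    (h : ∀ r, v (f r) = q (u r)) :
    ∃ w : S →+* A, (∀ r, w (f r) = u r) ∧ ∀ s, q (w s) = v s := by
  let : Algebra R S := f.toAlgebra
  have : Algebra.Etale R S := hf
  let : Algebra R A := u.toAlgebra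
  let : Algebra R A' := (q.comp u).toAlgebra
  let q' : A →ₐ[R] A' := { q with commutes' := fun r => rfl }
  let v' : S →ₐ[R] A' := { v with commutes' := h }
  have hn : IsNilpotent (RingHom.ker (q' : A →+* A')) := ker_nil q hk
  let w := Algebra.FormallySmooth.liftOfSurjective v' q' hq hn
  refine ⟨w.toRingHom, fun r => w.commutes r, fun s => ?_⟩
  exact Algebra.FormallySmooth.liftOfSurjective_apply v' q' hq hn s

end

/-- a ring homomorphism plus a square zero multiple of a derivation -/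
def addDer {k R G : Type} [Field k] [CommRing R] [Algebra k R] [CommRing G] (t : R →+* G)
    (d : Derivation k R R) (c : G) (hc : c * c = 0) : R →+* G where
  toFun a := t a + c * t (d a)
  map_one' := by simp
  map_mul' a b := by
    have : t (a * b) + c * t (d (a * b)) = t a * t b + c * (t a * t (d b) + t b * t (d a)) := by
      simp [Derivation.leibniz, mul_add]
    rw [this]
    linear_combination (-(t (d a) * t (d b))) * hc
  map_zero' := by simp
  map_add' a b := by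
    simp only [map_add]
    ring

theorem addDer_apply {k R G : Type} [Field k] [CommRing R] [Algebra k R] [CommRing G] (t : R →+* G)
    (d : Derivation k R R) (c : G) (hc : c * c = 0) (a : R) :
    addDer t d c hc a = t a + c * t (d a) := rfl


section

variable {n : ℕ} {k : Type} [Field k] {T : TC k} {B : Type} [CommRing B] [Algebra k B]
  {E J : Type} [CommRing E] [Fintype J] {S : SqE B E J}

section ring

variable {G R : Type} [CommRing G] [CommRing R]

/-- products of elements which reduce to zero vanish -/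
theorem sq_zero (S : SqE B E J) (a : E →+* G) (q : G →+* R)
    (hker : ∀ v, q v = 0 → ∃ w : J → G, v = ∑ j, a (S.ε j) * w j) (x y : G) (hx : q x = 0)
    (hy : q y = 0) : x * y = 0 := by
  obtain ⟨u, rfl⟩ := hker x hx
  obtain ⟨v, rfl⟩ := hker y hy
  rw [Finset.sum_mul_sum]
  refine Finset.sum_eq_zero fun i _ => Finset.sum_eq_zero fun j _ => ?_
  calc a (S.ε i) * u i * (a (S.ε j) * v j) = a (S.ε i * S.ε j) * (u i * v j) := by
        rw [map_mul]; ring
    _ = 0 := by rw [S.mul, map_zero, zero_mul]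

end ring

/-- `ε j` kills the kernel of `S.p`. -/
theorem eps_mul_eq (S : SqE B E J) {a b : E} (j : J) (h : S.p a = S.p b) :
    S.ε j * a = S.ε j * b := by
  have h1 : S.p (a - b) = 0 := by rw [map_sub, h, sub_self]
  have h2 := S.mul_of_p_eq_zero (S.pe j) h1
  rw [mul_sub, sub_eq_zero] at h2
  exact h2

theorem dlt1a (D : RData T S) (u1 : D.G1) (w : J → D.G1) (r : J → T.R1)
    (hw : ∀ j, D.q1 (w j) = 1 ⊗ₜ r j) (φ : T.R1 →ₐ[k] B) (γ : D.Sec1 φ) (δ : J → B)
    (h : γ.g u1 = S.i (φ T.x) + ∑ j, S.ε j * S.i (δ j)) :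
    γ.g (u1 + ∑ j, D.a1 (S.ε j) * w j) =
      S.i (φ T.x) + ∑ j, S.ε j * S.i (δ j + φ (r j)) := by
  rw [map_add, h, map_sum, add_assoc, ← Finset.sum_add_distrib]
  congr 1
  refine Finset.sum_congr rfl fun j _ => ?_
  rw [map_mul, γ.ga, map_add, mul_add]
  congr 1
  refine eps_mul_eq S j ?_
  rw [γ.gq, hw, S.pi]
  simp [extA]

theorem dlt2a (D : RData T S) (u2 : D.G2) (w : J → D.G2) (r : J → T.R2)
    (hw : ∀ j, D.q2 (w j) = 1 ⊗ₜ r j) (ψ : T.R2 →ₐ[k] B) (γ : D.Sec2 ψ) (δ : J → B)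
    (h : γ.g u2 = S.i (ψ T.y) + ∑ j, S.ε j * S.i (δ j)) :
    γ.g (u2 + ∑ j, D.a2 (S.ε j) * w j) =
      S.i (ψ T.y) + ∑ j, S.ε j * S.i (δ j + ψ (r j)) := by
  rw [map_add, h, map_sum, add_assoc, ← Finset.sum_add_distrib]
  congr 1
  refine Finset.sum_congr rfl fun j _ => ?_
  rw [map_mul, γ.ga, map_add, mul_add]
  congr 1
  refine eps_mul_eq S j ?_
  rw [γ.gq, hw, S.pi]
  simp [extA]

theorem dlt1 (D : RData T S) (u1 : D.G1) (u2 : D.G2) (w : J → D.G1) (r : J → T.R1)
    (hw : ∀ j, D.q1 (w j) = 1 ⊗ₜ r j) (p : Pt T B) (γ : D.Sec p) (δ : J → B)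
    (h : D.Dlt u1 u2 p γ δ) :
    D.Dlt (u1 + ∑ j, D.a1 (S.ε j) * w j) u2 p γ (fun j => δ j + p.l1 (r j)) := by
  cases p with
  | one φ => exact dlt1a D u1 w r hw φ γ δ h
  | two ψ =>
    have h' : RData.Sec2.g γ u2 = S.i (ψ T.y) + ∑ j, S.ε j * S.i (δ j) := h
    show RData.Sec2.g γ u2 = S.i (ψ T.y) + ∑ j, S.ε j * S.i (δ j + 0)
    simp only [add_zero]
    exact h'

theorem dlt2 (D : RData T S) (u1 : D.G1) (u2 : D.G2) (w : J → D.G2) (r : J → T.R2)
    (hw : ∀ j, D.q2 (w j) = 1 ⊗ₜ r j) (p : Pt T B) (γ : D.Sec p) (δ : J → B)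
    (h : D.Dlt u1 u2 p γ δ) :
    D.Dlt u1 (u2 + ∑ j, D.a2 (S.ε j) * w j) p γ (fun j => δ j + p.l2 (r j)) := by
  cases p with
  | one φ =>
    have h' : RData.Sec1.g γ u1 = S.i (φ T.x) + ∑ j, S.ε j * S.i (δ j) := h
    show RData.Sec1.g γ u1 = S.i (φ T.x) + ∑ j, S.ε j * S.i (δ j + 0)
    simp only [add_zero]
    exact h'
  | two ψ => exact dlt2a D u2 w r hw ψ γ δ h

/-- change of the lift on the first chart -/
theorem change1 {D : RData T S} {s : Fin n → Pt T B} {γ : ∀ i, D.Sec (s i)}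
    {h : J → B ⊗[k] T.R12} {δ : J → Fin n → B} (K : RKS D s γ h δ) (r : J → T.R1) :
    Nonempty (RKS D s γ (fun j => h j + 1 ⊗ₜ T.j1 (r j))
      (fun j i => δ j i + (s i).l1 (r j))) := by
  choose w hw using fun j => D.sur1 (1 ⊗ₜ r j)
  let c1 : D.G1 := ∑ j, D.a1 (S.ε j) * w j
  let c : D.G12 := ∑ j, D.a12 (S.ε j) * D.f1 (w j)
  have hqc1 : D.q1 c1 = 0 := by
    simp only [c1, map_sum, map_mul, D.qa1, S.pe, TensorProduct.zero_tmul, zero_mul,
      Finset.sum_const_zero]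
  have hqc : D.q12 c = 0 := by
    simp only [c, map_sum, map_mul, D.qa12, S.pe, TensorProduct.zero_tmul, zero_mul,
      Finset.sum_const_zero]
  have hfc : D.f1 c1 = c := by
    simp only [c1, c, map_sum, map_mul, D.fa1]
  have hk1 := sq_zero S D.a1 D.q1 D.ker1
  have hk12 := sq_zero S D.a12 D.q12 D.ker12
  have hcc : c * c = 0 := hk12 c c hqc hqc
  -- the new lift on the first chart
  let u : Polynomial k →+* D.G1 :=
    Polynomial.eval₂RingHom (K.θ1.comp (algebraMap k T.R1)) (K.θ1 T.x + c1)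
  let v : T.R1 →+* B ⊗[k] T.R1 :=
    (Algebra.TensorProduct.includeRight : T.R1 →ₐ[k] B ⊗[k] T.R1).toRingHom
  have hv : ∀ a, v a = 1 ⊗ₜ a := fun a => rfl
  let f : Polynomial k →+* T.R1 := (Polynomial.aeval T.x : Polynomial k →ₐ[k] T.R1).toRingHom
  have hfC : ∀ a, f (Polynomial.C a) = algebraMap k T.R1 a := fun a =>
    Polynomial.aeval_C (R := k) T.x a
  have hfX : f Polynomial.X = T.x := Polynomial.aeval_X (R := k) T.x
  have huC : ∀ a, u (Polynomial.C a) = K.θ1 (algebraMap k T.R1 a) := fun a => by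
    simp [u]
  have huX : u Polynomial.X = K.θ1 T.x + c1 := by simp [u]
  have hcomp : ∀ p, v (f p) = D.q1 (u p) := by
    intro p
    have : v.comp f = D.q1.comp u := by
      refine Polynomial.ringHom_ext (fun a => ?_) ?_
      · show v (f (Polynomial.C a)) = D.q1 (u (Polynomial.C a))
        rw [hfC, huC, hv, K.l1]
      · show v (f Polynomial.X) = D.q1 (u Polynomial.X)
        rw [hfX, huX, hv, map_add, K.l1, hqc1, add_zero]
    exact congrArg (fun g : Polynomial k →+* B ⊗[k] T.R1 => g p) this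
  obtain ⟨θ, hθ1, hθ2⟩ := et_lift f T.etx D.q1 D.sur1 hk1 u v hcomp
  have hθC : ∀ a, θ (algebraMap k T.R1 a) = K.θ1 (algebraMap k T.R1 a) := fun a => by
    rw [← hfC, hθ1, huC, hfC]
  have hθX : θ T.x = K.θ1 T.x + c1 := by
    rw [← hfX, hθ1, huX, hfX]
  let t : T.R12 →+* D.G12 := addDer K.t1 T.dd c hcc
  have ht : ∀ a, t a = K.t1 a + c * K.t1 (T.dd a) := fun a => rfl
  have hqt : ∀ a, D.q12 (t a) = 1 ⊗ₜ a := by
    intro a
    rw [ht, map_add, map_mul, hqc, zero_mul, add_zero, K.lt1]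
  have he : t.comp (T.j1 : T.R1 →+* T.R12) = D.f1.comp θ := by
    refine et_uniq f T.etx D.q12 hk12 _ _ ?_ ?_
    · intro p
      have : (t.comp (T.j1 : T.R1 →+* T.R12)).comp f = (D.f1.comp θ).comp f := by
        refine Polynomial.ringHom_ext (fun a => ?_) ?_
        · show t (T.j1 (f (Polynomial.C a))) = D.f1 (θ (f (Polynomial.C a)))
          rw [hfC, hθC, ht, K.e1, AlgHom.commutes, Derivation.map_algebraMap, map_zero, mul_zero,
            add_zero]
        · show t (T.j1 (f Polynomial.X)) = D.f1 (θ (f Polynomial.X))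
          rw [hfX, hθX, ht, K.e1, T.ddx, map_one, mul_one, map_add, hfc]
      exact congrArg (fun g : Polynomial k →+* D.G12 => g p) this
    · intro a
      show D.q12 (t (T.j1 a)) = D.q12 (D.f1 (θ a))
      rw [hqt, D.qf1, hθ2, hv]
      simp
  refine ⟨{
    θ1 := θ
    θ2 := K.θ2
    k1 := fun a => by rw [hθC, K.k1]
    k2 := K.k2
    l1 := fun a => by rw [hθ2, hv]
    l2 := K.l2
    t1 := t
    t2 := K.t2
    e1 := fun a => congrArg (fun g : T.R1 →+* D.G12 => g a) he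
    e2 := K.e2
    lt1 := hqt
    lt2 := K.lt2
    diff := fun a => ?_
    dl := fun i => ?_ }⟩
  · obtain ⟨v', hv', hva⟩ := K.diff a
    refine ⟨fun j => v' j + D.f1 (w j) * K.t1 (T.dd a), fun j => ?_, ?_⟩
    · rw [map_add, hv', map_mul, D.qf1, hw, K.lt1, add_mul]
      simp
    · rw [ht, hva, add_assoc]
      congr 1
      simp only [c, mul_add, Finset.sum_add_distrib, Finset.sum_mul, mul_assoc]
  · have h1 := dlt1 D (K.θ1 T.x) (K.θ2 T.y) w r hw (s i) (γ i) (fun j => δ j i) (K.dl i)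
    rw [hθX]
    exact h1

/-- change of the lift on the second chart -/
theorem change2 {D : RData T S} {s : Fin n → Pt T B} {γ : ∀ i, D.Sec (s i)}
    {h : J → B ⊗[k] T.R12} {δ : J → Fin n → B} (K : RKS D s γ h δ) (r : J → T.R2) :
    Nonempty (RKS D s γ (fun j => h j - 1 ⊗ₜ (T.e * T.j2 (r j)))
      (fun j i => δ j i + (s i).l2 (r j))) := by
  choose w hw using fun j => D.sur2 (1 ⊗ₜ r j)
  let c1 : D.G2 := ∑ j, D.a2 (S.ε j) * w j
  let c : D.G12 := ∑ j, D.a12 (S.ε j) * D.f2 (w j)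
  have hqc1 : D.q2 c1 = 0 := by
    simp only [c1, map_sum, map_mul, D.qa2, S.pe, TensorProduct.zero_tmul, zero_mul,
      Finset.sum_const_zero]
  have hqc : D.q12 c = 0 := by
    simp only [c, map_sum, map_mul, D.qa12, S.pe, TensorProduct.zero_tmul, zero_mul,
      Finset.sum_const_zero]
  have hfc : D.f2 c1 = c := by
    simp only [c1, c, map_sum, map_mul, D.fa2]
  have hk1 := sq_zero S D.a2 D.q2 D.ker2
  have hk12 := sq_zero S D.a12 D.q12 D.ker12
  have hcc : c * c = 0 := hk12 c c hqc hqc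
  -- the new lift on the second chart
  let u : Polynomial k →+* D.G2 :=
    Polynomial.eval₂RingHom (K.θ2.comp (algebraMap k T.R2)) (K.θ2 T.y + c1)
  let v : T.R2 →+* B ⊗[k] T.R2 :=
    (Algebra.TensorProduct.includeRight : T.R2 →ₐ[k] B ⊗[k] T.R2).toRingHom
  have hv : ∀ a, v a = 1 ⊗ₜ a := fun a => rfl
  let f : Polynomial k →+* T.R2 := (Polynomial.aeval T.y : Polynomial k →ₐ[k] T.R2).toRingHom
  have hfC : ∀ a, f (Polynomial.C a) = algebraMap k T.R2 a := fun a =>
    Polynomial.aeval_C (R := k) T.y a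
  have hfX : f Polynomial.X = T.y := Polynomial.aeval_X (R := k) T.y
  have huC : ∀ a, u (Polynomial.C a) = K.θ2 (algebraMap k T.R2 a) := fun a => by
    simp [u]
  have huX : u Polynomial.X = K.θ2 T.y + c1 := by simp [u]
  have hcomp : ∀ p, v (f p) = D.q2 (u p) := by
    intro p
    have : v.comp f = D.q2.comp u := by
      refine Polynomial.ringHom_ext (fun a => ?_) ?_
      · show v (f (Polynomial.C a)) = D.q2 (u (Polynomial.C a))
        rw [hfC, huC, hv, K.l2]
      · show v (f Polynomial.X) = D.q2 (u Polynomial.X)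
        rw [hfX, huX, hv, map_add, K.l2, hqc1, add_zero]
    exact congrArg (fun g : Polynomial k →+* B ⊗[k] T.R2 => g p) this
  obtain ⟨θ, hθ1, hθ2⟩ := et_lift f T.ety D.q2 D.sur2 hk1 u v hcomp
  have hθC : ∀ a, θ (algebraMap k T.R2 a) = K.θ2 (algebraMap k T.R2 a) := fun a => by
    rw [← hfC, hθ1, huC, hfC]
  have hθX : θ T.y = K.θ2 T.y + c1 := by
    rw [← hfX, hθ1, huX, hfX]
  let t : T.R12 →+* D.G12 := addDer K.t2 (T.e • T.dd) c hcc
  have ht : ∀ a, t a = K.t2 a + c * K.t2 (T.e * T.dd a) := fun a => rfl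
  have hqt : ∀ a, D.q12 (t a) = 1 ⊗ₜ a := by
    intro a
    rw [ht, map_add, map_mul, hqc, zero_mul, add_zero, K.lt2]
  have he : t.comp (T.j2 : T.R2 →+* T.R12) = D.f2.comp θ := by
    refine et_uniq f T.ety D.q12 hk12 _ _ ?_ ?_
    · intro p
      have : (t.comp (T.j2 : T.R2 →+* T.R12)).comp f = (D.f2.comp θ).comp f := by
        refine Polynomial.ringHom_ext (fun a => ?_) ?_
        · show t (T.j2 (f (Polynomial.C a))) = D.f2 (θ (f (Polynomial.C a)))
          rw [hfC, hθC, ht, K.e2, AlgHom.commutes, Derivation.map_algebraMap, mul_zero, map_zero,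
            mul_zero, add_zero]
        · show t (T.j2 (f Polynomial.X)) = D.f2 (θ (f Polynomial.X))
          rw [hfX, hθX, ht, K.e2, T.ey, map_one, mul_one, map_add, hfc]
      exact congrArg (fun g : Polynomial k →+* D.G12 => g p) this
    · intro a
      show D.q12 (t (T.j2 a)) = D.q12 (D.f2 (θ a))
      rw [hqt, D.qf2, hθ2, hv]
      simp
  refine ⟨{
    θ1 := K.θ1
    θ2 := θ
    k1 := K.k1
    k2 := fun a => by rw [hθC, K.k2]
    l1 := K.l1
    l2 := fun a => by rw [hθ2, hv]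
    t1 := K.t1
    t2 := t
    e1 := K.e1
    e2 := fun a => congrArg (fun g : T.R2 →+* D.G12 => g a) he
    lt1 := K.lt1
    lt2 := hqt
    diff := fun a => ?_
    dl := fun i => ?_ }⟩
  · obtain ⟨v', hv', hva⟩ := K.diff a
    refine ⟨fun j => v' j - D.f2 (w j) * K.t2 (T.e * T.dd a), fun j => ?_, ?_⟩
    · rw [map_sub, hv', map_mul, D.qf2, hw, K.lt2, sub_mul]
      congr 1
      simp only [Algebra.TensorProduct.map_tmul, map_one, Algebra.TensorProduct.tmul_mul_tmul,
        mul_one]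
      congr 1
      ring
    · rw [ht, hva, add_assoc]
      congr 1
      simp only [c, mul_sub, Finset.sum_sub_distrib, Finset.sum_mul, mul_assoc]
      ring
  · have h1 := dlt2 D (K.θ1 T.x) (K.θ2 T.y) w r hw (s i) (γ i) (fun j => δ j i) (K.dl i)
    rw [hθX]
    exact h1

end

/-! ### The identity arrow -/

section

variable {n : ℕ}

theorem spMap_id (B : Type) [CommRing B] : spMap (RingHom.id B) = 𝟙 (Sp B) := by
  simp [spMap]

/-- The identity arrow. -/
noncomputable def idArrow {B : Type} [CommRing B] (x : Fam n B) : Arrow (RingHom.id B) x x where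
  f := 𝟙 _
  cart := by
    have h : IsIso (spMap (RingHom.id B)) := by rw [spMap_id]; infer_instance
    exact IsPullback.of_horiz_isIso ⟨by rw [spMap_id, Category.comp_id, Category.id_comp]⟩
  sec i := by rw [spMap_id, Category.comp_id, Category.id_comp]

theorem id_appLE {X : Scheme.{0}} (U : X.Opens) (h : U ≤ (𝟙 X : X ⟶ X) ⁻¹ᵁ U) (v : Γ(X, U)) :
    ((𝟙 X : X ⟶ X).appLE U U h).hom v = v := by
  have : (𝟙 X : X ⟶ X).appLE U U h = 𝟙 _ := Scheme.Hom.appLE_eq_app _
  rw [this]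
  rfl

variable {k : Type} [Field k] {T : TC k} {C : Fam n k}

theorem idCh (ct : Charted T C) :
    ChArrow (φ := AlgHom.id k k) (idArrow C) ct ct where
  h1 := rfl
  h2 := rfl
  f1 _ := id_appLE _ _ _
  f2 _ := id_appLE _ _ _
  f12 _ _ := id_appLE _ _ _

theorem pt_map_id {B : Type} [CommRing B] [Algebra k B] (p : Pt T B) (f : B →ₐ[k] B)
    (hf : f = AlgHom.id k B) : p.map f = p := by
  subst hf
  cases p <;> rfl

theorem ks_congr {E J : Type} [CommRing E] [Fintype J] {S : SqE k E J} {ct : Charted T C}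
    {t : Thk S C} {s s' : Fin n → Pt T k} (e : s = s') {hs : ∀ i, ct.Is (C.σ i) (s i)}
    {hs' : ∀ i, ct.Is (C.σ i) (s' i)} {h h' : J → k ⊗[k] T.R12} (eh : h = h')
    {δ δ' : J → Fin n → k} (ed : δ = δ') (H : KS ct t s hs h δ) : KS ct t s' hs' h' δ' := by
  subst e; subst eh; subst ed
  exact H

theorem push (hPBS : Stmt_PBS) (hKSN : Stmt_KSN) {g : ℕ} (ct : Charted T C)
    (s : Fin n → Pt T k) (hs : ∀ i, ct.Is (C.σ i) (s i)) {E J E' J' : Type} [CommRing E]
    [Fintype J] [CommRing E'] [Fintype J'] {S : SqE k E J} {S' : SqE k E' J'} {m : J → J' → k}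
    (Φ : SqHom S S' (RingHom.id k) m) (h : J → k ⊗[k] T.R12) (δ : J → Fin n → k) (t : Thk S C)
    (hst : IsStable g t.y) (hK : KS ct t s hs h δ) :
    ∃ (t' : Thk S' C) (f : Arrow Φ.Φ t'.y t.y), IsStable g t'.y ∧ t'.r.f ≫ f.f = t.r.f ∧
      KS ct t' s hs (fun l => ∑ j, m j l • h j) (fun l i => ∑ j, m j l * δ j i) := by
  obtain ⟨t', f, h1, h2⟩ := hPBS Φ t g hst
  refine ⟨t', f, h1, h2, ?_⟩
  have hs' : ∀ i, ct.Is (C.σ i) ((s i).map (AlgHom.id k k)) := fun i => by
    rw [pt_map_id _ _ rfl]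
    exact hs i
  have h3 := hKSN (φ := AlgHom.id k k) Φ (idArrow C) (idCh ct) t t' f
    (by rw [h2]; exact (Category.id_comp _).symm) s hs hs' h δ hK
  refine ks_congr (funext fun i => pt_map_id _ _ rfl) ?_ rfl h3
  funext l
  simp [pushh]

/-- `ε ↦ a ε` -/
noncomputable def scaleHom (a : k) :
    SqHom (sqEps k) (sqEps k) (RingHom.id k) (fun _ _ => a) where
  Φ := epsScale a
  hi b := by
    show epsScale a (TrivSqZeroExt.inl b) = TrivSqZeroExt.inl b
    simp [epsScale]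
  he j := by
    show TrivSqZeroExt.map (a • (LinearMap.id : k →ₗ[k] k)) (TrivSqZeroExt.inr 1) =
      ∑ _l : Unit, TrivSqZeroExt.inr 1 * TrivSqZeroExt.inl a
    rw [Finset.univ_unique, Finset.sum_singleton, TrivSqZeroExt.map_inr,
      TrivSqZeroExt.inr_mul_inl]
    congr 1
    simp

/-- `ε₁ ↦ a ε`, `ε₂ ↦ b ε` -/
noncomputable def pairHom (a b : k) :
    SqHom (sqEps2 k) (sqEps k) (RingHom.id k) (fun j _ => if j then a else b) where
  Φ := epsPair a b
  hi c := by
    show epsPair a b (TrivSqZeroExt.inl c) = TrivSqZeroExt.inl c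
    simp [epsPair]
  he j := by
    show TrivSqZeroExt.map (a • LinearMap.fst k k k + b • LinearMap.snd k k k)
      (TrivSqZeroExt.inr (if j then (1, 0) else (0, 1))) =
      ∑ _l : Unit, TrivSqZeroExt.inr 1 * TrivSqZeroExt.inl (if j then a else b)
    rw [Finset.univ_unique, Finset.sum_singleton, TrivSqZeroExt.map_inr,
      TrivSqZeroExt.inr_mul_inl]
    congr 1
    cases j <;> simp

/-- The value of a covector on a class. -/
structure Val (ct : Charted T C) (s : Fin n → Pt T k) (hs : ∀ i, ct.Is (C.σ i) (s i)) {g : ℕ}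
    (l : Cov g C) (Λ : k ⊗[k] T.R12 → (Fin n → k) → k) : Prop where
  val : ∀ (d : Defo g C) (h : k ⊗[k] T.R12) (δ : Fin n → k),
    KS ct d.thk s hs (fun _ => h) (fun _ => δ) → l.l d = Λ h δ
  add : ∀ h h' δ δ', Λ (h + h') (δ + δ') = Λ h δ + Λ h' δ'
  smul : ∀ (a : k) h δ, Λ (a • h) (a • δ) = a * Λ h δ
  rel1 : ∀ a : T.R1, Λ (1 ⊗ₜ T.j1 a) (fun i => (s i).l1 a) = 0
  rel2 : ∀ a : T.R2, Λ (-(1 ⊗ₜ (T.e * T.j2 a))) (fun i => (s i).l2 a) = 0

theorem exists_val (hGLU : Stmt_GLU) (hKSU : Stmt_KSU) (hPBS : Stmt_PBS) (hKSN : Stmt_KSN)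
    {g : ℕ} (hC : IsStable g C) (ct : Charted T C) (ha : ct.Aff) (s : Fin n → Pt T k)
    (hs : ∀ i, ct.Is (C.σ i) (s i)) (l : Cov g C) : ∃ Λ, Val ct s hs l Λ := by
  choose t hst hK using fun (h : k ⊗[k] T.R12) (δ : Fin n → k) =>
    hGLU g hC ct ha s hs (sqEps k) (fun _ : Unit => h) (fun _ => δ)
  let df : k ⊗[k] T.R12 → (Fin n → k) → Defo g C := fun h δ => ⟨(t h δ).y, hst h δ, (t h δ).r⟩
  have val : ∀ (d : Defo g C) (h : k ⊗[k] T.R12) (δ : Fin n → k),
      KS ct d.thk s hs (fun _ => h) (fun _ => δ) → l.l d = l.l (df h δ) := by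
    intro d h δ hd
    obtain ⟨f, hf⟩ := hKSU ct ha s hs (sqEps k) (fun _ => h) (fun _ => δ) d.thk (t h δ) hd
      (hK h δ)
    exact l.iso d (df h δ) f hf
  have smul : ∀ (a : k) h δ, l.l (df (a • h) (a • δ)) = a * l.l (df h δ) := by
    intro a h δ
    obtain ⟨t', f, h1, h2, h3⟩ := push hPBS hKSN ct s hs (scaleHom a) _ _ (t h δ) (hst h δ)
      (hK h δ)
    rw [← l.scale a (df h δ) ⟨t'.y, h1, t'.r⟩ f h2]
    refine (val ⟨t'.y, h1, t'.r⟩ _ _ ?_).symm
    refine ks_congr rfl ?_ ?_ h3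
    · funext j
      simp
    · funext j i
      simp
  have zero : l.l (df 0 0) = 0 := by
    have := smul 0 0 0
    rwa [zero_smul, zero_smul, zero_mul] at this
  refine ⟨fun h δ => l.l (df h δ), val, ?_, smul, ?_, ?_⟩
  · intro h h' δ δ'
    obtain ⟨z, hz, hzK⟩ := hGLU g hC ct ha s hs (sqEps2 k) (fun j : Bool => if j then h else h')
      (fun j => if j then δ else δ')
    obtain ⟨t1, f1, h11, h12, h13⟩ := push hPBS hKSN ct s hs (pairHom (k := k) 1 0) _ _ z hz hzK
    obtain ⟨t2, f2, h21, h22, h23⟩ := push hPBS hKSN ct s hs (pairHom (k := k) 0 1) _ _ z hz hzK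
    obtain ⟨t3, f3, h31, h32, h33⟩ := push hPBS hKSN ct s hs (pairHom (k := k) 1 1) _ _ z hz hzK
    have h4 := l.add z.y hz z.r ⟨t1.y, h11, t1.r⟩ ⟨t2.y, h21, t2.r⟩ ⟨t3.y, h31, t3.r⟩ f1 f2 f3
      h12 h22 h32
    have e1 : l.l ⟨t1.y, h11, t1.r⟩ = l.l (df h δ) := by
      refine val ⟨t1.y, h11, t1.r⟩ _ _ (ks_congr rfl ?_ ?_ h13)
      · funext j
        simp
      · funext j i
        simp
    have e2 : l.l ⟨t2.y, h21, t2.r⟩ = l.l (df h' δ') := by
      refine val ⟨t2.y, h21, t2.r⟩ _ _ (ks_congr rfl ?_ ?_ h23)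
      · funext j
        simp
      · funext j i
        simp
    have e3 : l.l ⟨t3.y, h31, t3.r⟩ = l.l (df (h + h') (δ + δ')) := by
      refine val ⟨t3.y, h31, t3.r⟩ _ _ (ks_congr rfl ?_ ?_ h33)
      · funext j
        simp
      · funext j i
        simp
    rw [← e1, ← e2, ← e3]
    exact h4
  · intro a
    obtain ⟨H, ⟨K⟩⟩ := hK 0 0
    have h1 : KS ct (df 0 0).thk s hs (fun _ => (0 : k ⊗[k] T.R12) + 1 ⊗ₜ T.j1 a)
      (fun _ i => (0 : Fin n → k) i + (s i).l1 a) := ⟨H, change1 K fun _ => a⟩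
    have h2 := val (df 0 0) _ _ h1
    rw [zero] at h2
    rw [h2]
    congr 2
    simp
  · intro a
    obtain ⟨H, ⟨K⟩⟩ := hK 0 0
    have h1 : KS ct (df 0 0).thk s hs (fun _ => (0 : k ⊗[k] T.R12) - 1 ⊗ₜ (T.e * T.j2 a))
      (fun _ i => (0 : Fin n → k) i + (s i).l2 a) := ⟨H, change2 K fun _ => a⟩
    have h2 := val (df 0 0) _ _ h1
    rw [zero] at h2
    rw [h2]
    congr 2
    simp

end

end CLS

open CLS in
/-- over a field, every covector is given by covector data -/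
theorem t_CLS' (hGLU : Stmt_GLU) (hKSU : Stmt_KSU) (hPBS : Stmt_PBS) (hKSN : Stmt_KSN) :
    Stmt_CLS := by
  intro n k _ T C g hC ct ha s hs l
  obtain ⟨Λ, H⟩ := exists_val hGLU hKSU hPBS hKSN hC ct ha s hs l
  have hz : Λ 0 0 = 0 := by
    have := H.smul 0 0 0
    rwa [zero_smul, zero_smul, zero_mul] at this
  let μ : T.R12 →ₗ[k] k :=
    { toFun := fun r => Λ (1 ⊗ₜ r) 0
      map_add' := fun r r' => by
        rw [TensorProduct.tmul_add, ← H.add, add_zero]
      map_smul' := fun a r => by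
        rw [TensorProduct.tmul_smul, RingHom.id_apply, smul_eq_mul, ← H.smul, smul_zero] }
  let N : (Fin n → k) →ₗ[k] k :=
    { toFun := fun δ => Λ 0 δ
      map_add' := fun δ δ' => by
        rw [← H.add, add_zero]
      map_smul' := fun a δ => by
        rw [RingHom.id_apply, smul_eq_mul, ← H.smul, smul_zero] }
  have hμ : ∀ h, Λ h 0 = ext μ h := by
    intro h
    induction h using TensorProduct.induction_on with
    | zero => rw [hz, map_zero]
    | tmul c r =>
      have h1 : c ⊗ₜ[k] r = c • ((1 : k) ⊗ₜ[k] r) := by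
        rw [TensorProduct.smul_tmul', smul_eq_mul, mul_one]
      rw [h1]
      have h2 := H.smul c (1 ⊗ₜ r) 0
      rw [smul_zero] at h2
      rw [h2, map_smul, smul_eq_mul]
      congr 1
      show Λ (1 ⊗ₜ r) 0 = ext μ (1 ⊗ₜ r)
      simp [ext, μ]
    | add u v hu hv =>
      have h1 := H.add u v 0 0
      rw [add_zero] at h1
      rw [h1, hu, hv, map_add]
  let ν : Fin n → k := fun i => Λ 0 (fun j => if i = j then 1 else 0)
  have hN : ∀ δ, Λ 0 δ = ∑ i, ν i * δ i := by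
    intro δ
    have h1 := LinearMap.pi_apply_eq_sum_univ N δ
    show N δ = _
    rw [h1]
    refine Finset.sum_congr rfl fun i _ => ?_
    rw [smul_eq_mul, mul_comm]
    rfl
  have hall : ∀ h δ, Λ h δ = ext μ h + ∑ i, ν i * δ i := by
    intro h δ
    have h1 := H.add h 0 0 δ
    rw [add_zero, zero_add] at h1
    rw [h1, hμ, hN]
  have hμ1 : ∀ r, ext μ (1 ⊗ₜ r) = μ r := by
    intro r
    simp [ext]
  refine ⟨{
    μ := μ
    ν := ν
    m1 := fun a => ?_
    m2 := fun a => ?_ }, fun d h δ hd => ?_⟩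
  · have h1 := H.rel1 a
    rw [hall, hμ1] at h1
    exact h1
  · have h1 := H.rel2 a
    rw [hall, map_neg, hμ1] at h1
    exact (neg_add_eq_zero.1 h1)
  · rw [H.val d h δ hd, hall]

theorem t_CLS (hGLU : Stmt_GLU) (hKSU : Stmt_KSU) (hPBS : Stmt_PBS) (hKSN : Stmt_KSN)
    (_hSQZ : Stmt_SQZ) (_hAX : Stmt_AX) : Stmt_CLS :=
  t_CLS' hGLU hKSU hPBS hKSN

end Pool.Agent.MG
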