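import Pool.Agent.MG.StmtsA

/-!
# COV, COU, NAT: covector data give covectors
-/

open CategoryTheory CategoryTheory.Limits AlgebraicGeometry TensorProduct

namespace Pool.Agent.MG

namespace COV

section id

variable {n : ℕ} {k : Type} [Field k] {T : TC k} {B : Type} [CommRing B] [Algebra k B]

/-- The identity arrow. -/
noncomputable def idArr (k : Type) [Field k] [Algebra k B] (x : Fam n B) :
    Arrow ((AlgHom.id k B : B →ₐ[k] B) : B →+* B) x x where
  f := 𝟙 x.X
  cart := by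
    have h : spMap ((AlgHom.id k B : B →ₐ[k] B) : B →+* B) = 𝟙 (Sp B) := Spec.map_id _
    rw [h]
    exact IsPullback.of_horiz_isIso ⟨by simp⟩
  sec i := by
    have h : spMap ((AlgHom.id k B : B →ₐ[k] B) : B →+* B) = 𝟙 (Sp B) := Spec.map_id _
    rw [h, Category.comp_id, Category.id_comp]

theorem id_appLE {X : Scheme.{0}} (U : X.Opens) (h : U ≤ (𝟙 X : X ⟶ X) ⁻¹ᵁ U) (v : Γ(X, U)) :
    ((𝟙 X : X ⟶ X).appLE U U h).hom v = v := by
  have h1 : (𝟙 X : X ⟶ X).appLE U U h = 𝟙 _ := by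
    have h2 : (𝟙 X : X ⟶ X).appLE U U h = (𝟙 X : X ⟶ X).app U := Scheme.Hom.appLE_eq_app _
    rw [h2]
    rfl
  rw [h1]
  rfl

theorem idCh {x : Fam n B} (ct : Charted T x) : ChArrow (idArr k x) ct ct where
  h1 := rfl
  h2 := rfl
  f1 _ := id_appLE _ _ _
  f2 _ := id_appLE _ _ _
  f12 _ _ := id_appLE _ _ _

theorem map_id (s : Pt T B) : s.map (AlgHom.id k B) = s := by
  cases s <;> rfl

end id

section ext

variable {k : Type} [Field k] {B : Type} [CommRing B] [Algebra k B] {R : Type} [CommRing R]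
  [Algebra k R] (μ : R →ₗ[k] B)

theorem ext_tmul (b : B) (r : R) : ext μ (b ⊗ₜ r) = b * μ r := by
  simp [ext]

theorem ext_smul (b : B) (v : B ⊗[k] R) : ext μ (b • v) = b * ext μ v := by
  induction v with
  | zero => simp
  | tmul c r => rw [TensorProduct.smul_tmul', ext_tmul, ext_tmul, smul_eq_mul, mul_assoc]
  | add u v hu hv => rw [smul_add, map_add, map_add, hu, hv, mul_add]

theorem ext_map {B' : Type} [CommRing B'] [Algebra k B'] (φ : B →ₐ[k] B') (μ' : R →ₗ[k] B')
    (hμ : ∀ r, μ' r = φ (μ r)) (v : B ⊗[k] R) :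
    ext μ' (Algebra.TensorProduct.map φ (AlgHom.id k R) v) = φ (ext μ v) := by
  induction v with
  | zero => simp
  | tmul c r =>
    rw [Algebra.TensorProduct.map_tmul, ext_tmul, ext_tmul, AlgHom.id_apply, hμ, map_mul]
  | add u v hu hv => rw [map_add, map_add, map_add, hu, hv, map_add]

end ext

section KS

variable {n : ℕ} {k : Type} [Field k] {T : TC k} {B : Type} [CommRing B] [Algebra k B]
  {x : Fam n B} {ct : Charted T x} {E J : Type} [CommRing E] [Fintype J] {S : SqE B E J}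
  {t : Thk S x}

theorem KS_congr {s s' : Fin n → Pt T B} (e : s' = s) (hs : ∀ i, ct.Is (x.σ i) (s i))
    (hs' : ∀ i, ct.Is (x.σ i) (s' i)) {h h' : J → B ⊗[k] T.R12} (eh : h' = h)
    {δ δ' : J → Fin n → B} (ed : δ' = δ) :
    KS ct t s' hs' h' δ' → KS ct t s hs h δ := by
  subst e
  subst eh
  subst ed
  exact id

theorem exists_KS (hSQZ : Stmt_SQZ) (hAX : Stmt_AX) (t : Thk S x) (s : Fin n → Pt T B)
    (hs : ∀ i, ct.Is (x.σ i) (s i)) : ∃ h δ, KS ct t s hs h δ := by
  have H : Good3 ct t := ⟨hSQZ t _ ct.ac1, hSQZ t _ ct.ac2, hSQZ t _ ct.ac12⟩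
  obtain ⟨h, δ, hd⟩ := hAX (rd ct t H) s (fun i => rsec ct t H i (s i) (hs i))
  exact ⟨h, δ, H, hd⟩

theorem indep (hAI : Stmt_AI) (s : Fin n → Pt T B) (hs : ∀ i, ct.Is (x.σ i) (s i))
    (C : CovData s) {h h' : J → B ⊗[k] T.R12} {δ δ' : J → Fin n → B}
    (hd : KS ct t s hs h δ) (hd' : KS ct t s hs h' δ') (j : J) :
    ext C.μ (h j) + ∑ i, C.ν i * δ j i = ext C.μ (h' j) + ∑ i, C.ν i * δ' j i := by
  obtain ⟨H, a⟩ := hd
  obtain ⟨H', a'⟩ := hd'
  exact hAI (rd ct t H) s _ C h h' δ δ' a a' j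

end KS

theorem Cov_ext {n : ℕ} {A : Type} [CommRing A] {g : ℕ} {x : Fam n A} (l l' : Cov g x)
    (h : ∀ d, l.l d = l'.l d) : l = l' := by
  cases l
  cases l'
  congr
  exact funext h

/-- the identity of `B[ε]` -/
noncomputable def sqId (k : Type) [Field k] (B : Type) [CommRing B] [Algebra k B] :
    SqHom (sqEps B) (sqEps B) ((AlgHom.id k B : B →ₐ[k] B) : B →+* B) (fun _ _ => 1) where
  Φ := RingHom.id (Eps B)
  hi b := rfl
  he j := by simp

/-- `ε ↦ a ε` -/
noncomputable def sqScale (k : Type) [Field k] (B : Type) [CommRing B] [Algebra k B] (a : B) :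
    SqHom (sqEps B) (sqEps B) ((AlgHom.id k B : B →ₐ[k] B) : B →+* B) (fun _ _ => a) where
  Φ := epsScale a
  hi b := by
    ext <;> simp [sqEps]
  he j := by
    ext <;> simp [sqEps]

/-- `ε₁ ↦ a ε`, `ε₂ ↦ b ε` -/
noncomputable def sqPair (k : Type) [Field k] (B : Type) [CommRing B] [Algebra k B] (a b : B) :
    SqHom (sqEps2 B) (sqEps B) ((AlgHom.id k B : B →ₐ[k] B) : B →+* B)
      (fun j _ => if j then a else b) where
  Φ := epsPair a b
  hi b := by
    ext <;> simp [sqEps, sqEps2]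
  he j := by
    cases j <;> ext <;> simp [sqEps, sqEps2]

/-- `φ[ε]` -/
noncomputable def sqMap {k : Type} [Field k] {B : Type} [CommRing B] [Algebra k B] {B' : Type}
    [CommRing B'] [Algebra k B'] (φ : B →ₐ[k] B') :
    SqHom (sqEps B) (sqEps B') (φ : B →+* B') (fun _ _ => 1) where
  Φ := epsMap (φ : B →+* B')
  hi b := by
    ext <;> simp [sqEps, epsMap]
  he j := by
    ext <;> simp [sqEps, epsMap]

end COV

open COV

theorem t_COV (hSQZ : Stmt_SQZ) (hAX : Stmt_AX) (hAI : Stmt_AI) (hKSN : Stmt_KSN) :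
    Stmt_COV ∧ Stmt_COU ∧ Stmt_NAT := by
  refine ⟨?_, ?_, ?_⟩
  · intro n k _ T B _ _ x ct s hs C g
    have hex : ∀ d : Defo g x, ∃ (h : Unit → B ⊗[k] T.R12) (δ : Unit → Fin n → B),
        KS ct d.thk s hs h δ := fun d => exists_KS hSQZ hAX d.thk s hs
    choose hh dd hd using hex
    have hval : ∀ (d : Defo g x) (h : Unit → B ⊗[k] T.R12) (δ : Unit → Fin n → B),
        KS ct d.thk s hs h δ → ext C.μ (hh d ()) + ∑ i, C.ν i * dd d () i =
          ext C.μ (h ()) + ∑ i, C.ν i * δ () i :=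
      fun d h δ hk => indep hAI s hs C (hd d) hk ()
    -- push forward
    have hpush : ∀ {E J : Type} [CommRing E] [Fintype J] {S : SqE B E J} {m : J → Unit → B}
        (Φ : SqHom S (sqEps B) ((AlgHom.id k B : B →ₐ[k] B) : B →+* B) m) (t : Thk S x)
        (d : Defo g x) (f : Arrow Φ.Φ d.y t.y) (_ : d.r.f ≫ f.f = t.r.f)
        (h : J → B ⊗[k] T.R12) (δ : J → Fin n → B), KS ct t s hs h δ →
        ext C.μ (hh d ()) + ∑ i, C.ν i * dd d () i =
          ∑ j, m j () * (ext C.μ (h j) + ∑ i, C.ν i * δ j i) := by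
      intro E J _ _ S m Φ t d f hf h δ hk
      have hs' : ∀ i, ct.Is (x.σ i) ((s i).map (AlgHom.id k B)) := by
        intro i
        rw [COV.map_id]
        exact hs i
      have h1 := hKSN Φ (idArr k x) (idCh ct) t d.thk f
        (by
          show d.r.f ≫ f.f = 𝟙 x.X ≫ t.r.f
          rw [hf, Category.id_comp]) s hs hs' h δ hk
      have h2 : KS ct d.thk s hs (pushh (AlgHom.id k B) m h) (pushd (AlgHom.id k B) m δ) :=
        KS_congr (funext fun i => COV.map_id (s i)) hs hs' rfl rfl h1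
      rw [hval d _ _ h2]
      have h3 : pushh (AlgHom.id k B) m h () = ∑ j, m j () • h j := by
        unfold pushh
        refine Finset.sum_congr rfl fun j _ => ?_
        rw [Algebra.TensorProduct.map_id]
        rfl
      rw [h3, map_sum]
      have h4 : ∑ i, C.ν i * pushd (AlgHom.id k B) m δ () i =
          ∑ j, m j () * ∑ i, C.ν i * δ j i := by
        unfold pushd
        simp only [Finset.mul_sum]
        rw [Finset.sum_comm]
        refine Finset.sum_congr rfl fun j _ => Finset.sum_congr rfl fun i _ => ?_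
        rw [AlgHom.id_apply]
        ring
      rw [h4, ← Finset.sum_add_distrib]
      refine Finset.sum_congr rfl fun j _ => ?_
      rw [ext_smul, mul_add]
    refine ⟨{ l := fun d => ext C.μ (hh d ()) + ∑ i, C.ν i * dd d () i
              iso := ?_
              scale := ?_
              add := ?_ }, ?_⟩
    · intro d d' f hf
      have h1 := hpush (sqId k B) d'.thk d f hf _ _ (hd d')
      rw [h1]
      simp
    · intro a d d' f hf
      have h1 := hpush (sqScale k B a) d.thk d' f hf _ _ (hd d)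
      rw [h1]
      simp
    · intro z hz r d₁ d₂ d f₁ f₂ f hf₁ hf₂ hf
      let t : Thk (sqEps2 B) x := ⟨z, hz.flat, r⟩
      obtain ⟨h, δ, hk⟩ := exists_KS (ct := ct) hSQZ hAX t s hs
      have h1 := hpush (sqPair k B 1 0) t d₁ f₁ hf₁ _ _ hk
      have h2 := hpush (sqPair k B 0 1) t d₂ f₂ hf₂ _ _ hk
      have h3 := hpush (sqPair k B 1 1) t d f hf _ _ hk
      rw [h1, h2, h3]
      simp
    · intro d h δ hk
      exact hval d _ _ hk
  · intro n k _ T B _ _ x ct s hs C g l l' hl hl'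
    refine Cov_ext l l' fun d => ?_
    obtain ⟨h, δ, hk⟩ := exists_KS (ct := ct) hSQZ hAX d.thk s hs
    rw [hl d (h ()) (δ ()) hk, hl' d (h ()) (δ ()) hk]
  · intro n k _ T B _ _ B' _ _ φ x x' ct ct' a ha s hs s' hs' C C' hC g l l' hl hl' d' d f hf
    obtain ⟨h, δ, hk⟩ := exists_KS (ct := ct) hSQZ hAX d.thk s hs
    have hs'' : ∀ i, ct'.Is (x'.σ i) ((s i).map φ) := by
      intro i
      rw [← hC.hs i]
      exact hs' i
    have h1 := hKSN (sqMap φ) a ha d.thk d'.thk f hf s hs hs'' h δ hk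
    have h2 : KS ct' d'.thk s' hs' (pushh φ (fun _ _ => 1) h) (pushd φ (fun _ _ => 1) δ) :=
      KS_congr (funext fun i => (hC.hs i).symm) hs' hs'' rfl rfl h1
    rw [hl d (h ()) (δ ()) hk, hl' d' _ _ h2]
    have h3 : pushh φ (fun (_ : Unit) (_ : Unit) => (1 : B')) h () =
        Algebra.TensorProduct.map φ (AlgHom.id k T.R12) (h ()) := by
      simp [pushh]
    have h4 : ∀ i, pushd φ (fun (_ : Unit) (_ : Unit) => (1 : B')) δ () i = φ (δ () i) := by
      intro i
      simp [pushd]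
    show ext C'.μ (pushh φ (fun (_ : Unit) (_ : Unit) => (1 : B')) h ()) +
      ∑ i, C'.ν i * pushd φ (fun (_ : Unit) (_ : Unit) => (1 : B')) δ () i = _
    rw [h3, ext_map C.μ φ C'.μ hC.hμ, map_add, map_sum]
    congr 1
    refine Finset.sum_congr rfl fun i _ => ?_
    rw [h4, hC.hν, map_mul]
    rfl

end Pool.Agent.MG
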