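import Pool.Agent.MG.StmtsC
import Pool.Agent.MG.StmtsBub
import Pool.Agent.MG.CST
import Pool.Agent.MG.FIS
import Pool.Agent.MG.CONN
import Pool.Agent.MG.CHB
import Pool.Agent.MG.NOD
import Pool.Agent.MG.GEN

/-!
# CSTW: constant families with a constant section and disjoint sections are stable
-/

open CategoryTheory CategoryTheory.Limits AlgebraicGeometry TensorProduct

namespace Pool.Agent.MG

open CST in
theorem t_CSTW (hRIGW : Stmt_RIGW) : Stmt_CSTW := by
  intro n k _ _ g C hC hsm T ch j₀ hvf B _ _ τ hτ hj₀ hdis
  have hSC := stableCurve hC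
  have hprop := hC.proper
  have hflat := hC.flat
  have hfp := hC.fp
  refine ⟨?_, ?_, ?_, ?_⟩
  · change IsProper (pullback.snd C.π (spMap (algebraMap k B)))
    infer_instance
  · change Flat (pullback.snd C.π (spMap (algebraMap k B)))
    infer_instance
  · change LocallyOfFinitePresentation (pullback.snd C.π (spMap (algebraMap k B)))
    infer_instance
  · intro K _ _ s z hz
    let _ : Algebra k K := (s.comp (algebraMap k B)).toAlgebra
    let ψ : B →ₐ[k] K := { s with commutes' := fun _ => rfl }
    have hτ' : ∀ i, (spMap s ≫ τ i) ≫ C.π = spMap (algebraMap k K) := by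
      intro i
      rw [Category.assoc, hτ, ← spMap_comp]
    obtain ⟨f, hf⟩ := t_FIS.1 C B K ψ τ hτ (fun i => spMap s ≫ τ i) hτ' (fun i => rfl) z hz
    refine t_FIS.2 g z _ f hf ?_
    refine ⟨?_, ?_, ?_, ?_, ?_, ?_⟩
    · have : Nonempty C.X := hSC.connected.toNonempty
      exact t_CON t_CHB C T ch this K _ hτ'
    · exact t_NOD t_CHB C T ch K _ hτ'
    · exact t_GEN C g hprop hSC.genus K _ hτ'
    · intro i j hij h
      refine hdis K s i j hij ?_
      have h1 := congrArg (fun q => q ≫ pullback.fst C.π (spMap (algebraMap k K))) h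
      have h2 : ∀ i, (constFam C K (fun i => spMap s ≫ τ i) hτ').σ i ≫
          pullback.fst C.π (spMap (algebraMap k K)) = spMap s ≫ τ i :=
        fun i => pullback.lift_fst _ _ _
      exact (h2 i).symm.trans (h1.trans (h2 j))
    · intro i p
      refine ⟨⊤, trivial, ?_⟩
      have h1 : Smooth C.π := SmoothOfRelativeDimension.smooth 1 C.π
      have h2 : Smooth (pullback.snd C.π (spMap (algebraMap k K))) :=
        MorphismProperty.pullback_snd _ _ h1
      change Smooth ((⊤ : (pullback C.π (spMap (algebraMap k K))).Opens).ι ≫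
        pullback.snd C.π (spMap (algebraMap k K)))
      infer_instance
    · intro v U
      refine hRIGW ch j₀ hvf K _ hτ' ?_ v U
      rw [hj₀, ← Category.assoc, ← spMap_comp]

end Pool.Agent.MG
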