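import Pool.Agent.MG.ET

/-!
# Derivations and étale coordinates (MP_cc45c1_ag)
-/

namespace MG

open TensorProduct nonZeroDivisors

section

variable {R S T M : Type*} [CommRing R] [CommRing S] [CommRing T] [Algebra R S] [Algebra R T]
  [Algebra S T] [IsScalarTower R S T] [AddCommGroup M] [Module R M] [Module S M] [Module T M]
  [IsScalarTower S T M] [IsScalarTower R S M] [IsScalarTower R T M]

theorem exists_derivation_of_formallyEtale [Algebra.FormallyEtale S T] (d : Derivation R S M) :
    ∃ D : Derivation R T M, ∀ s, D (algebraMap S T s) = d s := by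
  let l : KaehlerDifferential R S →ₗ[S] M := d.liftKaehlerDifferential
  let l' : KaehlerDifferential R T →ₗ[T] M := (LinearMap.liftBaseChange T l).comp
    (KaehlerDifferential.tensorKaehlerEquivOfFormallyEtale R S T).symm.toLinearMap
  refine ⟨l'.compDer (KaehlerDifferential.D R T), fun s => ?_⟩
  change l' (KaehlerDifferential.D R T (algebraMap S T s)) = d s
  simp only [l', LinearMap.comp_apply, LinearEquiv.coe_coe]
  rw [KaehlerDifferential.tensorKaehlerEquivOfFormallyEtale_symm_D_algebraMap,
    LinearMap.liftBaseChange_tmul, one_smul]
  exact d.liftKaehlerDifferential_comp_D s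

theorem derivation_eq_zero_of_formallyUnramified [Algebra.FormallyUnramified S T]
    (D : Derivation R T M) (h0 : ∀ s, D (algebraMap S T s) = 0) : D = 0 := by
  let E : Derivation S T M :=
    { toFun := D
      map_add' := map_add D
      map_smul' := fun c x => by
        rw [Algebra.smul_def, Derivation.leibniz, h0, smul_zero, add_zero, RingHom.id_apply,
          algebraMap_smul]
      map_one_eq_zero' := D.map_one_eq_zero
      leibniz' := D.leibniz }
  have hE : E = 0 := by
    have := E.liftKaehlerDifferential_comp
    rw [← this, Subsingleton.elim E.liftKaehlerDifferential 0]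
    rfl
  ext x
  exact congrArg (fun F : Derivation S T M => F x) hE

theorem derivation_ext_of_formallyUnramified [Algebra.FormallyUnramified S T]
    (D D' : Derivation R T M) (h : ∀ s, D (algebraMap S T s) = D' (algebraMap S T s)) :
    D = D' := by
  rw [← sub_eq_zero]
  apply derivation_eq_zero_of_formallyUnramified (S := S)
  intro s
  rw [Derivation.sub_apply, h s, sub_self]

end

section

variable {k A : Type*} [Field k] [CommRing A] [Algebra k A] (x : A)
  (hx : (Polynomial.aeval x : Polynomial k →ₐ[k] A).toRingHom.Etale)

include hx in
/-- Existence of the derivation `d/dx`. -/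
theorem exists_ddx (N : Type*) [AddCommGroup N] [Module k N] [Module A N] [IsScalarTower k A N]
    (m : N) : ∃ D : Derivation k A N, D x = m := by
  let _ : Algebra (Polynomial k) A := (Polynomial.aeval x : Polynomial k →ₐ[k] A).toRingHom.toAlgebra
  have _ : IsScalarTower k (Polynomial k) A := IsScalarTower.of_algebraMap_eq' (by
    ext c
    change algebraMap k A c = Polynomial.aeval x (Polynomial.C c)
    simp)
  have _ : Algebra.Etale (Polynomial k) A := hx
  let _ : Module (Polynomial k) N := Module.compHom N (algebraMap (Polynomial k) A)
  have _ : IsScalarTower (Polynomial k) A N := ⟨fun a b c => by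
    rw [Algebra.smul_def, mul_smul]
    rfl⟩
  have _ : IsScalarTower k (Polynomial k) N := ⟨fun a b c => by
    change algebraMap (Polynomial k) A (a • b) • c = a • (algebraMap (Polynomial k) A b • c)
    rw [← smul_assoc, Algebra.smul_def a b, map_mul, ← IsScalarTower.algebraMap_apply,
      ← Algebra.smul_def]⟩
  obtain ⟨D, hD⟩ := exists_derivation_of_formallyEtale (R := k) (S := Polynomial k) (T := A)
    (M := N) (Polynomial.mkDerivation k m)
  refine ⟨D, ?_⟩
  have h1 : algebraMap (Polynomial k) A Polynomial.X = x := by
    change Polynomial.aeval x Polynomial.X = x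
    simp
  rw [← h1, hD, Polynomial.mkDerivation_X]

include hx in
/-- Uniqueness. -/
theorem ddx_unique {N : Type*} [AddCommGroup N] [Module k N] [Module A N] [IsScalarTower k A N]
    (D D' : Derivation k A N) (h : D x = D' x) : D = D' := by
  let _ : Algebra (Polynomial k) A := (Polynomial.aeval x : Polynomial k →ₐ[k] A).toRingHom.toAlgebra
  have _ : IsScalarTower k (Polynomial k) A := IsScalarTower.of_algebraMap_eq' (by
    ext c
    change algebraMap k A c = Polynomial.aeval x (Polynomial.C c)
    simp)
  have _ : Algebra.Etale (Polynomial k) A := hx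
  let _ : Module (Polynomial k) N := Module.compHom N (algebraMap (Polynomial k) A)
  have _ : IsScalarTower (Polynomial k) A N := ⟨fun a b c => by
    rw [Algebra.smul_def, mul_smul]
    rfl⟩
  have _ : IsScalarTower k (Polynomial k) N := ⟨fun a b c => by
    change algebraMap (Polynomial k) A (a • b) • c = a • (algebraMap (Polynomial k) A b • c)
    rw [← smul_assoc, Algebra.smul_def a b, map_mul, ← IsScalarTower.algebraMap_apply,
      ← Algebra.smul_def]⟩
  apply derivation_ext_of_formallyUnramified (S := Polynomial k)
  intro s
  have h1 : (D.compAlgebraMap (Polynomial k)) = (D'.compAlgebraMap (Polynomial k)) := by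
    apply Polynomial.derivation_ext
    have h2 : algebraMap (Polynomial k) A Polynomial.X = x := by
      change Polynomial.aeval x Polynomial.X = x
      simp
    change D (algebraMap (Polynomial k) A Polynomial.X) =
      D' (algebraMap (Polynomial k) A Polynomial.X)
    rw [h2, h]
  exact congrArg (fun F : Derivation k (Polynomial k) N => F s) h1

end

section

variable {k A : Type} [Field k] [CommRing A] [Algebra k A] (x : A)
  (hx : (Polynomial.aeval x : Polynomial k →ₐ[k] A).toRingHom.Etale)

include hx in
theorem trdeg_of_etale [IsDomain A] (K : Type) [Field K] [Algebra A K] [IsFractionRing A K]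
    [Algebra k K] [IsScalarTower k A K] : Algebra.trdeg k K = 1 := by
  let _ : Algebra (Polynomial k) A := (Polynomial.aeval x : Polynomial k →ₐ[k] A).toRingHom.toAlgebra
  have _ : IsScalarTower k (Polynomial k) A := IsScalarTower.of_algebraMap_eq' (by
    ext c
    change algebraMap k A c = Polynomial.aeval x (Polynomial.C c)
    simp)
  have _ : Algebra.Etale (Polynomial k) A := hx
  let _ : Algebra (Polynomial k) K := ((algebraMap A K).comp (algebraMap (Polynomial k) A)).toAlgebra
  have _ : IsScalarTower (Polynomial k) A K := IsScalarTower.of_algebraMap_eq' rfl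
  have _ : IsScalarTower k (Polynomial k) K := IsScalarTower.of_algebraMap_eq' (by
    ext c
    rw [IsScalarTower.algebraMap_apply k A K, IsScalarTower.algebraMap_apply k (Polynomial k) A]
    rfl)
  have h1 : Algebra.IsAlgebraic (Polynomial k) A := isAlgebraic_of_etale _ _
  have h2 : FaithfulSMul (Polynomial k) A := faithful_of_etale _ _
  have h4 : FaithfulSMul (Polynomial k) K := by
    rw [faithfulSMul_iff_algebraMap_injective]
    exact (IsFractionRing.injective A K).comp
      ((faithfulSMul_iff_algebraMap_injective _ _).mp h2)
  have h5 : Module.IsTorsionFree (Polynomial k) K := inferInstance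
  have h3 : Algebra.IsAlgebraic (Polynomial k) K :=
    (IsFractionRing.isAlgebraic_iff' (Polynomial k) A K).mp h1
  rw [← trdeg_add_eq k (Polynomial k) (A := K), Polynomial.trdeg_of_isDomain,
    trdeg_eq_zero, add_zero]

include hx in
theorem integrallyClosed_of_etale_poly [IsDomain A] : IsIntegrallyClosed A := by
  let _ : Algebra (Polynomial k) A := (Polynomial.aeval x : Polynomial k →ₐ[k] A).toRingHom.toAlgebra
  have _ : Algebra.Etale (Polynomial k) A := hx
  exact isIntegrallyClosed_of_etale (Polynomial k) A

end

end MG
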