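import Pool.Agent.MG.StmtsA

/-!
# DIS: disjoint points of the charts
-/

open CategoryTheory CategoryTheory.Limits AlgebraicGeometry TensorProduct

namespace Pool.Agent.MG

namespace DIS

variable {n : ℕ} {k : Type} [Field k] {T : TC k} {C : Fam n k}

/-- The homomorphism `Γ(V₁) → B` given by `φ`. -/
noncomputable def h1 (ct : Charted T C) {B : Type} [CommRing B] [Algebra k B]
    (φ : T.R1 →ₐ[k] B) : Γ(C.X, ct.U1) →+* B :=
  (φ : T.R1 →+* B).comp ((Algebra.TensorProduct.lid k T.R1 :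
      k ⊗[k] T.R1 →+* T.R1).comp (ct.eq1.symm : Γ(C.X, ct.U1) →+* k ⊗[k] T.R1))

/-- The homomorphism `Γ(V₂) → B` given by `ψ`. -/
noncomputable def h2 (ct : Charted T C) {B : Type} [CommRing B] [Algebra k B]
    (ψ : T.R2 →ₐ[k] B) : Γ(C.X, ct.U2) →+* B :=
  (ψ : T.R2 →+* B).comp ((Algebra.TensorProduct.lid k T.R2 :
      k ⊗[k] T.R2 →+* T.R2).comp (ct.eq2.symm : Γ(C.X, ct.U2) →+* k ⊗[k] T.R2))

theorem tau_one {ct : Charted T C} (ha : ct.Aff) {B : Type} [CommRing B] [Algebra k B]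
    (φ : T.R1 →ₐ[k] B) : tau ha (.one φ) = spMap (h1 ct φ) ≫ ha.aff1.fromSpec := rfl

theorem tau_two {ct : Charted T C} (ha : ct.Aff) {B : Type} [CommRing B] [Algebra k B]
    (ψ : T.R2 →ₐ[k] B) : tau ha (.two ψ) = spMap (h2 ct ψ) ≫ ha.aff2.fromSpec := rfl

theorem spMap_comp {A B D : Type} [CommRing A] [CommRing B] [CommRing D] (f : A →+* B)
    (g : B →+* D) : spMap g ≫ spMap f = spMap (g.comp f) := by
  rw [← Spec.map_comp]
  rfl

theorem h1_t1 (ct : Charted T C) {B : Type} [CommRing B] [Algebra k B]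
    (φ : T.R1 →ₐ[k] B) (v : k ⊗[k] T.R1) :
    h1 ct φ (ct.t1 v) = φ (Algebra.TensorProduct.lid k T.R1 v) := by
  have h : ct.eq1.symm (ct.t1 v) = v := ct.eq1.symm_apply_apply v
  change φ (Algebra.TensorProduct.lid k T.R1 (ct.eq1.symm (ct.t1 v))) = _
  rw [h]

theorem spMap_injective {A B : Type} [CommRing A] [CommRing B] {f g : A →+* B}
    (h : spMap f = spMap g) : f = g := by
  have h1 := Spec.map_injective h
  exact congrArg CommRingCat.Hom.hom h1

/-- A section in the first chart is the point given by the chart. -/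
theorem sigma_eq (ct : Charted T C) (ha : ct.Aff) (σ : Sp k ⟶ C.X) (hσ : σ ≫ C.π = 𝟙 _)
    (φ : T.R1 →ₐ[k] k) (h : ct.Is1 σ φ) : σ = tau ha (.one φ) := by
  obtain ⟨hle, hφ⟩ := h
  have e1 := IsAffineOpen.SpecMap_appLE_fromSpec σ ha.aff1 (isAffineOpen_top (Sp k)) hle
  have e2 : (σ.appLE ct.U1 ⊤ hle).hom = (gl k).comp (h1 ct φ) := by
    apply RingHom.ext
    intro v
    obtain ⟨w, rfl⟩ := ct.b1.2 v
    have e3 : ((σ.appLE ct.U1 ⊤ hle).hom.comp ct.t1) w = (((gl k).comp (h1 ct φ)).comp ct.t1) w := by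
      refine tensor_ind (f := (σ.appLE ct.U1 ⊤ hle).hom.comp ct.t1)
        (g := ((gl k).comp (h1 ct φ)).comp ct.t1) ?_ ?_ w
      · intro b
        change (σ.appLE ct.U1 ⊤ hle).hom (ct.t1 (b ⊗ₜ 1)) = gl k (h1 ct φ (ct.t1 (b ⊗ₜ 1)))
        rw [h1_t1, ct.c1, coef_comp, hσ, coef_id]
        congr 1
        simp
      · intro r
        change (σ.appLE ct.U1 ⊤ hle).hom (ct.t1 (1 ⊗ₜ r)) = gl k (h1 ct φ (ct.t1 (1 ⊗ₜ r)))
        rw [h1_t1, hφ]
        congr 1
        simp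
    exact e3
  have e4 : σ.appLE ct.U1 ⊤ hle = CommRingCat.ofHom (h1 ct φ) ≫
      (Scheme.ΓSpecIso (CommRingCat.of k)).inv := by
    apply CommRingCat.hom_ext
    rw [e2]
    rfl
  rw [e4, Spec.map_comp, IsAffineOpen.fromSpec_top, Scheme.isoSpec_Spec_inv] at e1
  have e5 : Spec.map (Scheme.ΓSpecIso (CommRingCat.of k)).inv ≫ σ =
      Spec.map (Scheme.ΓSpecIso (CommRingCat.of k)).inv ≫ tau ha (.one φ) := by
    rw [← e1, Category.assoc]
    rfl
  exact (cancel_epi _).1 e5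

end DIS

open DIS in
theorem t_DIS : Stmt_DIS := by
  intro n k _ C T ch B _ _ i
  refine ⟨?_, ?_⟩
  · intro φ hφ K _ _ s heq
    rw [tau_one, tau_one, ← Category.assoc, ← Category.assoc] at heq
    have e1 := (cancel_mono _).1 heq
    rw [spMap_comp, spMap_comp] at e1
    have e2 := spMap_injective e1
    have e3 := RingHom.congr_fun e2
      (ch.ct.t1 (1 ⊗ₜ (T.x - algebraMap k T.R1 (ch.pt i T.x))))
    change s (h1 ch.ct φ _) = s (h1 ch.ct _ _) at e3
    rw [h1_t1, h1_t1] at e3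
    have e4 : Algebra.TensorProduct.lid k T.R1
        ((1 : k) ⊗ₜ (T.x - algebraMap k T.R1 (ch.pt i T.x))) =
        T.x - algebraMap k T.R1 (ch.pt i T.x) := by simp
    rw [e4] at e3
    have e5 : ((Algebra.ofId k B).comp (ch.pt i)) (T.x - algebraMap k T.R1 (ch.pt i T.x)) = 0 := by
      simp
    rw [e5, map_zero] at e3
    exact (hφ.map s).ne_zero e3
  · intro ψ K _ _ s heq
    have e1 : tau ch.aff (.one ((Algebra.ofId k B).comp (ch.pt i))) =
        spMap (algebraMap k B) ≫ C.σ i := by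
      rw [sigma_eq ch.ct ch.aff (C.σ i) (C.sec i) (ch.pt i) (ch.is i), tau_one, tau_one,
        ← Category.assoc, spMap_comp]
      rfl
    rw [e1, tau_two, ← Category.assoc, ← Category.assoc] at heq
    let p : Sp K := Classical.choice inferInstance
    have e2 : (((spMap s ≫ spMap (h2 ch.ct ψ)) ≫ ch.aff.aff2.fromSpec) p : C.X) ∈ ch.ct.U2 := by
      rw [Scheme.Hom.comp_apply]
      have := Set.mem_range_self (f := ch.aff.aff2.fromSpec) ((spMap s ≫ spMap (h2 ch.ct ψ)) p)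
      rw [ch.aff.aff2.range_fromSpec] at this
      exact this
    rw [heq, Scheme.Hom.comp_apply] at e2
    exact ch.off i _ e2

end Pool.Agent.MG
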