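import Pool.Agent.MG.Defs0

/-!
# Stable curves, covectors and regular functions, as used in the proofs

The statement uses the equivalent definitions of `Std.lean`, which print more briefly.
-/

open CategoryTheory AlgebraicGeometry

namespace Pool.Agent.MG

section Curves

variable {n : ℕ} {k : Type} [Field k]

/-- The arithmetic genus of a (separated, connected) curve over `k`: the dimension of `H¹(X, O)` is
`g`, where `H¹(X, O) = Γ(U ∩ V)/(Γ(U) + Γ(V))` for affine open `U`, `V` which cover `X`. -/
def HasGenus {X : Scheme.{0}} (π : X ⟶ Sp k) (g : ℕ) : Prop :=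
  ∃ U V : X.Opens, IsAffineOpen U ∧ IsAffineOpen V ∧ U ⊔ V = ⊤ ∧
    ∃ L : Γ(X, U ⊓ V) →+ (Fin g → k), Function.Surjective L ∧
      (∀ (c : k) (s : Γ(X, U ⊓ V)), L (coef π (U ⊓ V) c * s) = c • L s) ∧
      ∀ s : Γ(X, U ⊓ V), L s = 0 ↔ ∃ (a : Γ(X, U)) (b : Γ(X, V)),
        s = X.presheaf.map (homOfLE inf_le_left).op a + X.presheaf.map (homOfLE inf_le_right).op b

/-- A vector field on a pointed curve over `k` which vanishes at the marked points (an
infinitesimal automorphism). -/
structure VField (z : Fam n k) where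
  /-- the derivation of the functions on `U` -/
  D : ∀ U : z.X.Opens, Γ(z.X, U) →+ Γ(z.X, U)
  mul : ∀ (U : z.X.Opens) (a b : Γ(z.X, U)), D U (a * b) = a * D U b + b * D U a
  const : ∀ (U : z.X.Opens) (c : k), D U (coef z.π U c) = 0
  res : ∀ (U V : z.X.Opens) (h : U ≤ V) (a : Γ(z.X, V)),
    D U (z.X.presheaf.map (homOfLE h).op a) = z.X.presheaf.map (homOfLE h).op (D V a)
  sec : ∀ (U : z.X.Opens) (i : Fin n) (a : Γ(z.X, U)), (z.σ i).app U (D U a) = 0

/-- The conditions on the fibres of a stable `n`-pointed curve of genus `g`, over an algebraically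
closed field: connected nodal curve of arithmetic genus `g`, distinct marked points in the smooth
locus, no infinitesimal automorphisms. -/
structure StableCurve (g : ℕ) (z : Fam n k) : Prop where
  connected : ConnectedSpace z.X
  nodal : Nodal z.π
  genus : HasGenus z.π g
  distinct : ∀ i j, i ≠ j → z.σ i ≠ z.σ j
  smooth : ∀ (i : Fin n) (s : Sp k), ∃ U : z.X.Opens, z.σ i s ∈ U ∧ Smooth (U.ι ≫ z.π)
  rigid : ∀ v : VField z, ∀ U, v.D U = 0

end Curves

section Families

variable {n : ℕ} {A B : Type} [CommRing A] [CommRing B]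

/-- Stable `n`-pointed curves of genus `g` over `Spec A`: proper, flat, of finite presentation,
with stable geometric fibres. -/
structure IsStable (g : ℕ) (x : Fam n A) : Prop where
  proper : IsProper x.π
  flat : Flat x.π
  fp : LocallyOfFinitePresentation x.π
  fib : ∀ (k : Type) [Field k] [IsAlgClosed k] (s : A →+* k) (z : Fam n k),
    Nonempty (Arrow s z x) → StableCurve g z

/-- A first order deformation of a stable pointed curve `x` over `A`: a stable pointed curve over
`A[ε]` with restriction `x`. -/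
structure Defo (g : ℕ) (x : Fam n A) where
  /-- the curve over `A[ε]` -/
  y : Fam n (Eps A)
  stable : IsStable g y
  /-- the identification of `x` with the restriction to `ε = 0` -/
  r : Arrow (eps0 A) x y

/-- A covector at `x`: an `A`-linear functional on the isomorphism classes of first order
deformations. The sum of two deformations is the restriction to the diagonal `ε₁ = ε₂ = ε` of a
deformation over `A[ε₁, ε₂]` which restricts to the two given ones on the axes. -/
structure Cov (g : ℕ) (x : Fam n A) where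
  /-- the functional -/
  l : Defo g x → A
  iso : ∀ (d d' : Defo g x) (f : Arrow (RingHom.id (Eps A)) d.y d'.y), d.r.f ≫ f.f = d'.r.f →
    l d = l d'
  scale : ∀ (a : A) (d d' : Defo g x) (f : Arrow (epsScale a) d'.y d.y), d'.r.f ≫ f.f = d.r.f →
    l d' = a * l d
  add : ∀ (z : Fam n (Eps2 A)), IsStable g z → ∀ (r : Arrow (eps20 A) x z) (d₁ d₂ d : Defo g x)
    (f₁ : Arrow (epsPair 1 0) d₁.y z) (f₂ : Arrow (epsPair 0 1) d₂.y z)
    (f : Arrow (epsPair 1 1) d.y z), d₁.r.f ≫ f₁.f = r.f → d₂.r.f ≫ f₂.f = r.f →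
    d.r.f ≫ f.f = r.f → l d = l d₁ + l d₂

/-- The zero covector. -/
instance (g : ℕ) (x : Fam n A) : Zero (Cov g x) :=
  ⟨{ l := fun _ => 0
     iso := fun _ _ _ _ => rfl
     scale := fun _ _ _ _ _ => (mul_zero _).symm
     add := fun _ _ _ _ _ _ _ _ _ _ _ _ => (add_zero _).symm }⟩

/-- For an arrow `y → x` over `φ : A → B`: the covector `l'` at `y` is the pull back of the
covector `l` at `x`. -/
def Compat {g : ℕ} {φ : A →+* B} {y : Fam n B} {x : Fam n A} (a : Arrow φ y x) (l' : Cov g y)
    (l : Cov g x) : Prop :=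
  ∀ (d' : Defo g y) (d : Defo g x) (f : Arrow (epsMap φ) d'.y d.y), d'.r.f ≫ f.f = a.f ≫ d.r.f →
    l'.l d' = φ (l.l d)

end Families

/-- A regular function on the cotangent bundle of `M̄_{g,n}`. -/
structure Reg (g n : ℕ) where
  /-- the value at `(x, l)` -/
  F : ∀ (A : Type) [CommRing A] [Algebra ℂ A] (x : Fam n A), IsStable g x → Cov g x → A
  nat : ∀ (A B : Type) [CommRing A] [Algebra ℂ A] [CommRing B] [Algebra ℂ B] (φ : A →ₐ[ℂ] B)
    (x : Fam n A) (y : Fam n B) (hx : IsStable g x) (hy : IsStable g y)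
    (a : Arrow (φ : A →+* B) y x) (l : Cov g x) (l' : Cov g y), Compat a l' l →
    F B y hy l' = φ (F A x hx l)

end Pool.Agent.MG
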