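import Pool.Agent.MG.Defs

/-!
# Square zero thickenings, two-chart data, Kodaira–Spencer classes

Definitions used in the proofs (not in the statement) of the theorem on pointed curves.
-/

open CategoryTheory AlgebraicGeometry TensorProduct

namespace Pool.Agent.MG

/-! ## Square zero extensions of the base ring -/

/-- A square zero extension `E → B` of rings with a section, with kernel free on the `ε j`. -/
structure SqE (B E J : Type) [CommRing B] [CommRing E] [Fintype J] where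
  /-- the projection -/
  p : E →+* B
  /-- the section -/
  i : B →+* E
  pi : ∀ b, p (i b) = b
  /-- the generators of the kernel -/
  ε : J → E
  pe : ∀ j, p (ε j) = 0
  mul : ∀ a b, ε a * ε b = 0
  ex : ∀ a, p a = 0 → ∃ b : J → B, a = ∑ j, ε j * i (b j)
  un : ∀ b : J → B, ∑ j, ε j * i (b j) = 0 → b = 0

/-- `B[ε] → B`. -/
noncomputable def sqEps (B : Type) [CommRing B] : SqE B (Eps B) Unit where
  p := eps0 B
  i := (TrivSqZeroExt.inlHom B B)
  pi b := by simp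
  ε _ := TrivSqZeroExt.inr 1
  pe _ := by simp
  mul _ _ := by simp
  ex a ha := by
    refine ⟨fun _ => a.snd, ?_⟩
    have h : a.fst = 0 := by simpa using ha
    ext <;> simp [h]
  un b hb := by
    funext j
    have := congrArg TrivSqZeroExt.snd hb
    simpa using this

/-- `B[ε₁, ε₂]/(ε₁, ε₂)² → B`; `ε true = ε₁`, `ε false = ε₂`. -/
noncomputable def sqEps2 (B : Type) [CommRing B] : SqE B (Eps2 B) Bool where
  p := eps20 B
  i := (TrivSqZeroExt.inlHom B (B × B))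
  pi b := by simp
  ε j := TrivSqZeroExt.inr (if j then (1, 0) else (0, 1))
  pe _ := by simp
  mul _ _ := by simp
  ex a ha := by
    refine ⟨fun j => if j then a.snd.1 else a.snd.2, ?_⟩
    have h : a.fst = 0 := by simpa using ha
    ext <;> simp [h]
  un b hb := by
    have h := congrArg TrivSqZeroExt.snd hb
    have h1 := congrArg Prod.fst h
    have h2 := congrArg Prod.snd h
    funext j
    cases j
    · simpa using h2
    · simpa using h1

/-- A morphism of square zero extensions over `φ : B → B'`: `ε j ↦ ∑ l, m j l ε' l`. -/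
structure SqHom {B E J B' E' J' : Type} [CommRing B] [CommRing E] [Fintype J] [CommRing B']
    [CommRing E'] [Fintype J'] (S : SqE B E J) (S' : SqE B' E' J') (φ : B →+* B')
    (m : J → J' → B') where
  /-- the ring homomorphism -/
  Φ : E →+* E'
  hi : ∀ b, Φ (S.i b) = S'.i (φ b)
  he : ∀ j, Φ (S.ε j) = ∑ l, S'.ε l * S'.i (m j l)

/-! ## Flat thickenings of families -/

section Thk

variable {n : ℕ} {B E J : Type} [CommRing B] [CommRing E] [Fintype J]

/-- A flat thickening over `E` of a family over `B`. -/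
structure Thk (S : SqE B E J) (x : Fam n B) where
  /-- the family over `E` -/
  y : Fam n E
  flat : Flat y.π
  /-- the identification of `x` with the restriction to `B` -/
  r : Arrow S.p x y

/-- A first order deformation of a stable curve as a flat thickening. -/
noncomputable def Defo.thk {g : ℕ} {x : Fam n B} (d : Defo g x) : Thk (sqEps B) x :=
  ⟨d.y, d.stable.flat, d.r⟩

/-- The open subset of the thickening which corresponds to `U`. -/
noncomputable def Thk.op {S : SqE B E J} {x : Fam n B} (t : Thk S x) (U : x.X.Opens) :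
    t.y.X.Opens :=
  sSup {W | t.r.f ⁻¹ᵁ W ≤ U}

end Thk

/-- Restriction of functions. -/
noncomputable abbrev rs (X : Scheme.{0}) {U V : X.Opens} (h : U ≤ V) : Γ(X, V) →+* Γ(X, U) :=
  (X.presheaf.map (homOfLE h).op).hom

/-- `U` is the union of two affine opens with affine intersection, and `H¹(U, O) = 0`. -/
def Acyc {X : Scheme.{0}} (U : X.Opens) : Prop :=
  ∃ W W' : X.Opens, IsAffineOpen W ∧ IsAffineOpen W' ∧ IsAffineOpen (W ⊓ W') ∧ W ⊔ W' = U ∧
    ∀ s : Γ(X, W ⊓ W'), ∃ (a : Γ(X, W)) (b : Γ(X, W')),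
      s = rs X inf_le_left a + rs X inf_le_right b

/-- `A → Γ(Spec A, ⊤)`. -/
noncomputable def gl (A : Type) [CommRing A] : A →+* Γ(Sp A, ⊤) :=
  (Scheme.ΓSpecIso (CommRingCat.of A)).inv.hom

/-! ## Two-chart data -/

/-- Ring data of a curve `C = V₁ ∪ V₂` over `k` with étale coordinates `x` on `V₁`, `y` on `V₂`;
`dd = d/dx` on `V₁ ∩ V₂` and `e dd = d/dy`. -/
structure TC (k : Type) [Field k] where
  /-- `Γ(V₁)` -/
  R1 : Type
  /-- `Γ(V₂)` -/
  R2 : Type
  /-- `Γ(V₁ ∩ V₂)` -/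
  R12 : Type
  [cr1 : CommRing R1]
  [cr2 : CommRing R2]
  [cr12 : CommRing R12]
  [al1 : Algebra k R1]
  [al2 : Algebra k R2]
  [al12 : Algebra k R12]
  /-- restriction -/
  j1 : R1 →ₐ[k] R12
  /-- restriction -/
  j2 : R2 →ₐ[k] R12
  /-- the coordinate on `V₁` -/
  x : R1
  /-- the coordinate on `V₂` -/
  y : R2
  etx : (Polynomial.aeval x : Polynomial k →ₐ[k] R1).toRingHom.Etale
  ety : (Polynomial.aeval y : Polynomial k →ₐ[k] R2).toRingHom.Etale
  et1 : j1.toRingHom.Etale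
  et2 : j2.toRingHom.Etale
  /-- `d/dx` -/
  dd : Derivation k R12 R12
  ddx : dd (j1 x) = 1
  /-- `dx/dy` -/
  e : R12
  ey : e * dd (j2 y) = 1

attribute [instance] TC.cr1 TC.cr2 TC.cr12 TC.al1 TC.al2 TC.al12

section

variable {n : ℕ} {k : Type} [Field k] {T : TC k}

/-- A point of one of the charts with values in `B`. -/
inductive Pt (T : TC k) (B : Type) [CommRing B] [Algebra k B]
  | one (φ : T.R1 →ₐ[k] B)
  | two (ψ : T.R2 →ₐ[k] B)

section

variable {B : Type} [CommRing B] [Algebra k B]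

/-- Base change of points. -/
def Pt.map {B' : Type} [CommRing B'] [Algebra k B'] (f : B →ₐ[k] B') : Pt T B → Pt T B'
  | .one φ => .one (f.comp φ)
  | .two ψ => .two (f.comp ψ)

/-- Evaluation of functions on `V₁` at points in the first chart, `0` in the second. -/
def Pt.l1 : Pt T B → (T.R1 →ₗ[k] B)
  | .one φ => φ.toLinearMap
  | .two _ => 0

/-- Evaluation of functions on `V₂` at points in the second chart, `0` in the first. -/
def Pt.l2 : Pt T B → (T.R2 →ₗ[k] B)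
  | .one _ => 0
  | .two ψ => ψ.toLinearMap

/-- Covector data. -/
structure CovData (s : Fin n → Pt T B) where
  /-- the functional on vector fields on `V₁ ∩ V₂` -/
  μ : T.R12 →ₗ[k] B
  /-- the weights of the sections -/
  ν : Fin n → B
  m1 : ∀ a : T.R1, μ (T.j1 a) + ∑ i, ν i * (s i).l1 a = 0
  m2 : ∀ a : T.R2, μ (T.e * T.j2 a) = ∑ i, ν i * (s i).l2 a

/-- `B`-linear extension of a functional on `R₁₂`. -/
noncomputable def ext {R : Type} [CommRing R] [Algebra k R] (μ : R →ₗ[k] B) : B ⊗[k] R →ₗ[k] B :=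
  LinearMap.mul' k B ∘ₗ TensorProduct.map LinearMap.id μ

/-- `B`-linear extension of a homomorphism. -/
noncomputable def extA {R : Type} [CommRing R] [Algebra k R] (φ : R →ₐ[k] B) : B ⊗[k] R →ₐ[k] B :=
  Algebra.TensorProduct.lift (AlgHom.id k B) φ (fun _ _ => Commute.all _ _)

/-! ## Ring data of a thickening of a charted family -/

/-- Ring data of a flat thickening over `E` of a family with charts `B ⊗ R₁`, `B ⊗ R₂`. -/
structure RData (T : TC k) {E J : Type} [CommRing E] [Fintype J] (S : SqE B E J) where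
  /-- functions on the first chart of the thickening -/
  G1 : Type
  /-- functions on the second chart of the thickening -/
  G2 : Type
  /-- functions on the intersection -/
  G12 : Type
  [c1 : CommRing G1]
  [c2 : CommRing G2]
  [c12 : CommRing G12]
  /-- structure map -/
  a1 : E →+* G1
  /-- structure map -/
  a2 : E →+* G2
  /-- structure map -/
  a12 : E →+* G12
  /-- restriction -/
  f1 : G1 →+* G12
  /-- restriction -/
  f2 : G2 →+* G12
  fa1 : ∀ z, f1 (a1 z) = a12 z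
  fa2 : ∀ z, f2 (a2 z) = a12 z
  /-- reduction -/
  q1 : G1 →+* B ⊗[k] T.R1
  /-- reduction -/
  q2 : G2 →+* B ⊗[k] T.R2
  /-- reduction -/
  q12 : G12 →+* B ⊗[k] T.R12
  qa1 : ∀ z, q1 (a1 z) = S.p z ⊗ₜ 1
  qa2 : ∀ z, q2 (a2 z) = S.p z ⊗ₜ 1
  qa12 : ∀ z, q12 (a12 z) = S.p z ⊗ₜ 1
  qf1 : ∀ v, q12 (f1 v) = Algebra.TensorProduct.map (AlgHom.id k B) T.j1 (q1 v)
  qf2 : ∀ v, q12 (f2 v) = Algebra.TensorProduct.map (AlgHom.id k B) T.j2 (q2 v)
  sur1 : Function.Surjective q1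
  sur2 : Function.Surjective q2
  sur12 : Function.Surjective q12
  ker1 : ∀ v, q1 v = 0 → ∃ w : J → G1, v = ∑ j, a1 (S.ε j) * w j
  ker2 : ∀ v, q2 v = 0 → ∃ w : J → G2, v = ∑ j, a2 (S.ε j) * w j
  ker12 : ∀ v, q12 v = 0 → ∃ w : J → G12, v = ∑ j, a12 (S.ε j) * w j
  un1 : ∀ w : J → G1, ∑ j, a1 (S.ε j) * w j = 0 → ∀ j, q1 (w j) = 0
  un2 : ∀ w : J → G2, ∑ j, a2 (S.ε j) * w j = 0 → ∀ j, q2 (w j) = 0
  un12 : ∀ w : J → G12, ∑ j, a12 (S.ε j) * w j = 0 → ∀ j, q12 (w j) = 0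

attribute [instance] RData.c1 RData.c2 RData.c12

variable {E J : Type} [CommRing E] [Fintype J] {S : SqE B E J}

/-- A section of the thickening which lifts the point `φ` in the first chart. -/
structure RData.Sec1 (D : RData T S) (φ : T.R1 →ₐ[k] B) where
  /-- the section -/
  g : D.G1 →+* E
  ga : ∀ z, g (D.a1 z) = z
  gq : ∀ v, S.p (g v) = extA φ (D.q1 v)

/-- A section of the thickening which lifts the point `ψ` in the second chart. -/
structure RData.Sec2 (D : RData T S) (ψ : T.R2 →ₐ[k] B) where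
  /-- the section -/
  g : D.G2 →+* E
  ga : ∀ z, g (D.a2 z) = z
  gq : ∀ v, S.p (g v) = extA ψ (D.q2 v)

/-- A section of the thickening which lifts the point `s`. -/
def RData.Sec (D : RData T S) : Pt T B → Type
  | .one φ => D.Sec1 φ
  | .two ψ => D.Sec2 ψ

/-- The value at the coordinate of a section of the thickening: `x ↦ φ(x) + ∑ ε j δ j` in the first
chart, `y ↦ ψ(y) + ∑ ε j δ j` in the second. -/
def RData.Dlt (D : RData T S) (u1 : D.G1) (u2 : D.G2) :
    (s : Pt T B) → D.Sec s → (J → B) → Prop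
  | .one φ, γ, δ => RData.Sec1.g γ u1 = S.i (φ T.x) + ∑ j, S.ε j * S.i (δ j)
  | .two ψ, γ, δ => RData.Sec2.g γ u2 = S.i (ψ T.y) + ∑ j, S.ε j * S.i (δ j)

/-- `(h, δ)` is a Kodaira–Spencer class: there are lifts `θ₁ : R₁ → G₁`, `θ₂ : R₂ → G₂` of the
charts with extensions `t₁`, `t₂` to `R₁₂`, `t₁ = t₂ + ∑ ε j h j dd`, and the sections are
`x ↦ sᵢ(x) + ∑ ε j δ j i` (first chart), `y ↦ sᵢ(y) + ∑ ε j δ j i` (second chart). -/
structure RKS (D : RData T S) (s : Fin n → Pt T B) (γ : ∀ i, D.Sec (s i))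
    (h : J → B ⊗[k] T.R12) (δ : J → Fin n → B) where
  /-- the lift on the first chart -/
  θ1 : T.R1 →+* D.G1
  /-- the lift on the second chart -/
  θ2 : T.R2 →+* D.G2
  k1 : ∀ c : k, θ1 (algebraMap k T.R1 c) = D.a1 (S.i (algebraMap k B c))
  k2 : ∀ c : k, θ2 (algebraMap k T.R2 c) = D.a2 (S.i (algebraMap k B c))
  l1 : ∀ a, D.q1 (θ1 a) = 1 ⊗ₜ a
  l2 : ∀ a, D.q2 (θ2 a) = 1 ⊗ₜ a
  /-- the extension of `θ1` to the intersection -/
  t1 : T.R12 →+* D.G12
  /-- the extension of `θ2` to the intersection -/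
  t2 : T.R12 →+* D.G12
  e1 : ∀ a, t1 (T.j1 a) = D.f1 (θ1 a)
  e2 : ∀ a, t2 (T.j2 a) = D.f2 (θ2 a)
  lt1 : ∀ a, D.q12 (t1 a) = 1 ⊗ₜ a
  lt2 : ∀ a, D.q12 (t2 a) = 1 ⊗ₜ a
  diff : ∀ a : T.R12, ∃ v : J → D.G12, (∀ j, D.q12 (v j) = h j * (1 ⊗ₜ T.dd a)) ∧
    t1 a = t2 a + ∑ j, D.a12 (S.ε j) * v j
  dl : ∀ i, D.Dlt (θ1 T.x) (θ2 T.y) (s i) (γ i) (fun j => δ j i)

end

/-! ## Charted families -/

section

variable {B : Type} [CommRing B] [Algebra k B]

/-- Two charts of a family `x` over a `k`-algebra `B`: acyclic opens `U₁`, `U₂` with acyclic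
intersection, with functions `B ⊗ R₁`, `B ⊗ R₂`, `B ⊗ R₁₂`. -/
structure Charted (T : TC k) (x : Fam n B) where
  /-- the first chart -/
  U1 : x.X.Opens
  /-- the second chart -/
  U2 : x.X.Opens
  cover : U1 ⊔ U2 = ⊤
  ac1 : Acyc U1
  ac2 : Acyc U2
  ac12 : Acyc (U1 ⊓ U2)
  /-- functions on `U₁` -/
  t1 : B ⊗[k] T.R1 →+* Γ(x.X, U1)
  /-- functions on `U₂` -/
  t2 : B ⊗[k] T.R2 →+* Γ(x.X, U2)
  /-- functions on `U₁ ∩ U₂` -/
  t12 : B ⊗[k] T.R12 →+* Γ(x.X, U1 ⊓ U2)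
  b1 : Function.Bijective t1
  b2 : Function.Bijective t2
  b12 : Function.Bijective t12
  c1 : ∀ b : B, t1 (b ⊗ₜ 1) = coef x.π U1 b
  c2 : ∀ b : B, t2 (b ⊗ₜ 1) = coef x.π U2 b
  c12 : ∀ b : B, t12 (b ⊗ₜ 1) = coef x.π (U1 ⊓ U2) b
  r1 : ∀ a : T.R1, rs x.X inf_le_left (t1 (1 ⊗ₜ a)) = t12 (1 ⊗ₜ T.j1 a)
  r2 : ∀ a : T.R2, rs x.X inf_le_right (t2 (1 ⊗ₜ a)) = t12 (1 ⊗ₜ T.j2 a)

/-- The section `σ` lies in the first chart and is given there by `φ`. -/
def Charted.Is1 {x : Fam n B} (ct : Charted T x) (σ : Sp B ⟶ x.X) (φ : T.R1 →ₐ[k] B) : Prop :=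
  ∃ h : ⊤ ≤ σ ⁻¹ᵁ ct.U1, ∀ a : T.R1, (σ.appLE ct.U1 ⊤ h).hom (ct.t1 (1 ⊗ₜ a)) = gl B (φ a)

/-- The section `σ` lies in the second chart and is given there by `ψ`. -/
def Charted.Is2 {x : Fam n B} (ct : Charted T x) (σ : Sp B ⟶ x.X) (ψ : T.R2 →ₐ[k] B) : Prop :=
  ∃ h : ⊤ ≤ σ ⁻¹ᵁ ct.U2, ∀ a : T.R2, (σ.appLE ct.U2 ⊤ h).hom (ct.t2 (1 ⊗ₜ a)) = gl B (ψ a)

/-- The section `σ` lies in a chart and is given there by the point `s`. -/
def Charted.Is {x : Fam n B} (ct : Charted T x) (σ : Sp B ⟶ x.X) : Pt T B → Prop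
  | .one φ => ct.Is1 σ φ
  | .two ψ => ct.Is2 σ ψ

end

end

end Pool.Agent.MG
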