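import Mathlib

/-!
# Étale algebras over integrally closed domains (MP_cc45c1_ag)
-/

namespace MG

open TensorProduct nonZeroDivisors

section

variable (A B : Type*) [CommRing A] [IsDomain A] [CommRing B] [IsDomain B] [Algebra A B]
  [Algebra.Etale A B]

theorem faithful_of_etale : FaithfulSMul A B := by
  have : Module.Flat A B := inferInstance
  have : Module.IsTorsionFree A B := inferInstance
  infer_instance

attribute [local instance] Algebra.TensorProduct.rightAlgebra in
theorem isField_of_etale : IsField (FractionRing A ⊗[A] B) := by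
  have hf : FaithfulSMul A B := faithful_of_etale A B
  have hloc : IsLocalization (Algebra.algebraMapSubmonoid B A⁰) (FractionRing A ⊗[A] B) :=
    inferInstance
  have hle : Algebra.algebraMapSubmonoid B A⁰ ≤ B⁰ := by
    rintro _ ⟨a, ha, rfl⟩
    exact mem_nonZeroDivisors_of_ne_zero (by
      intro h
      exact nonZeroDivisors.ne_zero ha
        ((FaithfulSMul.algebraMap_injective A B) (by rw [h, map_zero])))
  have hdom : IsDomain (FractionRing A ⊗[A] B) :=
    IsLocalization.isDomain_of_le_nonZeroDivisors (FractionRing A ⊗[A] B) hle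
  have h1 : Algebra.FormallyUnramified (FractionRing A) (FractionRing A ⊗[A] B) := inferInstance
  have h2 : Algebra.EssFiniteType (FractionRing A) (FractionRing A ⊗[A] B) := inferInstance
  have h3 : Module.Finite (FractionRing A) (FractionRing A ⊗[A] B) :=
    Algebra.FormallyUnramified.finite_of_free _ _
  have h4 : Algebra.IsIntegral (FractionRing A) (FractionRing A ⊗[A] B) := inferInstance
  exact isField_of_isIntegral_of_isField' (Field.toIsField (FractionRing A))

attribute [local instance] Algebra.TensorProduct.rightAlgebra in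
theorem isAlgebraic_of_etale : Algebra.IsAlgebraic A B := by
  have hf : FaithfulSMul A B := faithful_of_etale A B
  have hle : Algebra.algebraMapSubmonoid B A⁰ ≤ B⁰ := by
    rintro _ ⟨a, ha, rfl⟩
    exact mem_nonZeroDivisors_of_ne_zero (by
      intro h
      exact nonZeroDivisors.ne_zero ha
        ((FaithfulSMul.algebraMap_injective A B) (by rw [h, map_zero])))
  have h1 : Algebra.FormallyUnramified (FractionRing A) (FractionRing A ⊗[A] B) := inferInstance
  have h2 : Algebra.EssFiniteType (FractionRing A) (FractionRing A ⊗[A] B) := inferInstance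
  have h3 : Module.Finite (FractionRing A) (FractionRing A ⊗[A] B) :=
    Algebra.FormallyUnramified.finite_of_free _ _
  have hinj : Function.Injective (algebraMap B (FractionRing A ⊗[A] B)) :=
    IsLocalization.injective _ hle
  constructor
  intro b
  have h5 : IsAlgebraic (FractionRing A) (algebraMap B (FractionRing A ⊗[A] B) b) :=
    (Algebra.IsIntegral.isIntegral _).isAlgebraic
  have h6 : IsAlgebraic A (algebraMap B (FractionRing A ⊗[A] B) b) :=
    (IsFractionRing.isAlgebraic_iff A (FractionRing A) (FractionRing A ⊗[A] B)).mpr h5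
  exact (isAlgebraic_algebraMap_iff hinj).mp h6

theorem isFractionRing_of_etale : IsFractionRing B (B ⊗[A] FractionRing A) := by
  have hf : FaithfulSMul A B := faithful_of_etale A B
  have hloc : IsLocalization (Algebra.algebraMapSubmonoid B A⁰) (B ⊗[A] FractionRing A) :=
    IsLocalization.tensor (FractionRing A) A⁰
  have hle : Algebra.algebraMapSubmonoid B A⁰ ≤ B⁰ := by
    rintro _ ⟨a, ha, rfl⟩
    exact mem_nonZeroDivisors_of_ne_zero (by
      intro h
      exact nonZeroDivisors.ne_zero ha
        ((FaithfulSMul.algebraMap_injective A B) (by rw [h, map_zero])))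
  have hF : IsField (B ⊗[A] FractionRing A) :=
    MulEquiv.isField (isField_of_etale A B)
      (Algebra.TensorProduct.comm A B (FractionRing A)).toMulEquiv
  have hinj : Function.Injective (algebraMap B (B ⊗[A] FractionRing A)) :=
    IsLocalization.injective _ hle
  refine ⟨?_, ?_, ?_⟩
  · rintro ⟨b, hb⟩
    obtain ⟨c, hc⟩ := hF.mul_inv_cancel (a := algebraMap B (B ⊗[A] FractionRing A) b) (by
      intro h
      exact nonZeroDivisors.ne_zero hb (hinj (by rw [h, map_zero])))
    exact IsUnit.of_mul_eq_one c hc
  · intro z
    obtain ⟨⟨x, y⟩, h⟩ := IsLocalization.surj (Algebra.algebraMapSubmonoid B A⁰) z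
    exact ⟨⟨x, ⟨y.1, hle y.2⟩⟩, h⟩
  · intro x y h
    exact ⟨1, by rw [hinj h]⟩

/-- Étale algebras over integrally closed domains are integrally closed. -/
theorem isIntegrallyClosed_of_etale [IsIntegrallyClosed A] : IsIntegrallyClosed B := by
  have hfr := isFractionRing_of_etale A B
  rw [isIntegrallyClosed_iff (B ⊗[A] FractionRing A)]
  intro x hx
  obtain ⟨y, hy⟩ := (TensorProduct.toIntegralClosure_bijective_of_smooth (R := A) (S := B)
    (B := FractionRing A)).2 ⟨x, hx⟩
  have hy' : (Algebra.TensorProduct.map (AlgHom.id B B)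
    (integralClosure A (FractionRing A)).val) y = x := congrArg Subtype.val hy
  rw [← hy']
  clear hy hy' hx
  induction y with
  | zero => exact ⟨0, by simp⟩
  | add u v hu hv =>
    obtain ⟨a, ha⟩ := hu
    obtain ⟨b, hb⟩ := hv
    exact ⟨a + b, by rw [map_add, map_add, ha, hb]⟩
  | tmul b c =>
    obtain ⟨a, ha⟩ := IsIntegrallyClosed.isIntegral_iff.mp c.2
    refine ⟨algebraMap A B a * b, ?_⟩
    rw [Algebra.TensorProduct.map_tmul]
    simp only [AlgHom.coe_id, id_eq, Subalgebra.coe_val]
    rw [← ha, Algebra.TensorProduct.algebraMap_apply, Algebra.algebraMap_self, RingHom.id_apply,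
      ← Algebra.smul_def, TensorProduct.smul_tmul, Algebra.smul_def, mul_one]

end

end MG
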