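import Pool.Agent.MG.StmtsC

/-!
# Vector fields in the two charts
-/

open CategoryTheory CategoryTheory.Limits AlgebraicGeometry TensorProduct

namespace Pool.Agent.MG

namespace Ell

variable {k : Type} [Field k] {T : TC k} (E : Ell T)


include E in
theorem one (h0 : ∀ a b, T.j1 a = T.j2 b → ∃ c : k, a = algebraMap k T.R1 c) (a : T.R1) (b : T.R2)
    (h : T.j1 a = T.e * T.j2 b) : ∃ c : k, a = algebraMap k T.R1 c * E.r0 := by
  have hr : T.j1 E.r0 * T.j1 E.ri = 1 := by rw [← map_mul, E.hr, map_one]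
  have hs : T.j2 E.s0 * T.j2 E.si = 1 := by rw [← map_mul, E.hs, map_one]
  have h1 : T.j1 (a * E.ri) = T.j2 (b * E.si) := by
    rw [map_mul, map_mul, h]
    have h2 := E.h
    calc T.e * T.j2 b * T.j1 E.ri = T.e * (T.j2 E.s0 * T.j2 E.si) * T.j2 b * T.j1 E.ri := by
          rw [hs, mul_one]
      _ = (T.e * T.j2 E.s0) * T.j1 E.ri * (T.j2 b * T.j2 E.si) := by ring
      _ = T.j2 b * T.j2 E.si := by rw [← h2, hr, one_mul]
  obtain ⟨c, hc⟩ := h0 _ _ h1
  refine ⟨c, ?_⟩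
  rw [← hc, mul_assoc, mul_comm E.ri, E.hr, mul_one]

include E in
theorem hv (h0 : ∀ a b, T.j1 a = T.j2 b → ∃ c : k, a = algebraMap k T.R1 c)
    (p : T.R1 →ₐ[k] k) (a : T.R1) (b : T.R2) (h : T.j1 a = T.e * T.j2 b) (hp : p a = 0) :
    a = 0 := by
  obtain ⟨c, rfl⟩ := one E h0 a b h
  rw [map_mul, AlgHom.commutes] at hp
  have h1 : p E.r0 * p E.ri = 1 := by rw [← map_mul, E.hr, map_one]
  have h2 : algebraMap k k c = 0 := by
    calc algebraMap k k c = algebraMap k k c * p E.r0 * p E.ri := by rw [mul_assoc, h1, mul_one]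
      _ = 0 := by rw [hp, zero_mul]
  have h3 : c = 0 := h2
  rw [h3, map_zero, zero_mul]

end Ell

end Pool.Agent.MG
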