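import Pool.Agent.MG.StmtsB

/-!
# The end of the proof
-/

open CategoryTheory CategoryTheory.Limits AlgebraicGeometry TensorProduct

namespace Pool.Agent.MG

/-- The statements used in the end of the proof. -/
structure Hyp : Prop where
  cov : Stmt_COV
  cou : Stmt_COU
  nat : Stmt_NAT
  chg : Stmt_CHG
  cls : Stmt_CLS
  chb : Stmt_CHB
  cha : Stmt_CHA
  chk : Stmt_CHK
  chi : Stmt_CHI
  tau : Stmt_TAU
  dis : Stmt_DIS
  cst : Stmt_CST
  bub : Stmt_BUB
  uni : Stmt_UNI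
  alg : Stmt_ALG
  loc : Stmt_LOC

section

variable {g n : ℕ} {k : Type} [Field k] [Algebra ℂ k]

/-- The value of a regular function over a `k`-algebra. -/
noncomputable def val (F : Reg g n) {B : Type} [CommRing B] [Algebra k B] (x : Fam n B)
    (hx : IsStable g x) (l : Cov g x) : B :=
  letI : Algebra ℂ B := ((algebraMap k B).comp (algebraMap ℂ k)).toAlgebra
  F.F B x hx l

theorem val_nat (F : Reg g n) {B B' : Type} [CommRing B] [Algebra k B] [CommRing B'] [Algebra k B']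
    (ψ : B →ₐ[k] B') {x : Fam n B} {x' : Fam n B'} (hx : IsStable g x) (hx' : IsStable g x')
    (a : Arrow (ψ : B →+* B') x' x) (l : Cov g x) (l' : Cov g x') (h : Compat a l' l) :
    val (k := k) F x' hx' l' = ψ (val (k := k) F x hx l) := by
  let _ : Algebra ℂ B := ((algebraMap k B).comp (algebraMap ℂ k)).toAlgebra
  let _ : Algebra ℂ B' := ((algebraMap k B').comp (algebraMap ℂ k)).toAlgebra
  let ψ' : B →ₐ[ℂ] B' :=
    { (ψ : B →+* B') with
      commutes' := fun r => by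
        change ψ (algebraMap k B (algebraMap ℂ k r)) = algebraMap k B' (algebraMap ℂ k r)
        exact ψ.commutes _ }
  exact F.nat B B' ψ' x x' hx hx' a l l' h

theorem val_nat' (F : Reg g n) {B : Type} [CommRing B] [Algebra k B]
    (ψ : B →ₐ[k] k) {x : Fam n B} {x' : Fam n k} (hx : IsStable g x) (hx' : IsStable g x')
    (a : Arrow (ψ : B →+* k) x' x) (l : Cov g x) (l' : Cov g x') (h : Compat a l' l) :
    F.F k x' hx' l' = ψ (val (k := k) F x hx l) := by
  let _ : Algebra ℂ B := ((algebraMap k B).comp (algebraMap ℂ k)).toAlgebra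
  let ψ' : B →ₐ[ℂ] k :=
    { (ψ : B →+* k) with
      commutes' := fun r => by
        change ψ (algebraMap k B (algebraMap ℂ k r)) = algebraMap ℂ k r
        exact ψ.commutes _ }
  exact F.nat B k ψ' x x' hx hx' a l l' h

end

section

variable {g n : ℕ} {k : Type} [Field k] {T : TC k}

/-- A stable family with charts and sections given by points. -/
structure Obj (g n : ℕ) (T : TC k) (B : Type) [CommRing B] [Algebra k B] where
  /-- the family -/
  x : Fam n B
  hx : IsStable g x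
  /-- its charts -/
  ct : Charted T x
  /-- its sections -/
  s : Fin n → Pt T B
  hs : ∀ i, ct.Is (x.σ i) (s i)

variable {B : Type} [CommRing B] [Algebra k B]

/-- The covector. -/
noncomputable def Obj.cov (hcov : Stmt_COV) (o : Obj g n T B) (D : CovData o.s) : Cov g o.x :=
  (hcov o.ct o.s o.hs D g).choose

theorem Obj.isCov (hcov : Stmt_COV) (o : Obj g n T B) (D : CovData o.s) :
    IsCov o.ct o.s o.hs D (o.cov hcov D) :=
  (hcov o.ct o.s o.hs D g).choose_spec

variable [Algebra ℂ k]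

/-- The value. -/
noncomputable def Obj.val (hcov : Stmt_COV) (F : Reg g n) (o : Obj g n T B) (D : CovData o.s) : B :=
  MG.val (k := k) F o.x o.hx (o.cov hcov D)

theorem Obj.val_eq (H : Hyp) (F : Reg g n) (o : Obj g n T B) (D : CovData o.s) (l : Cov g o.x)
    (hl : IsCov o.ct o.s o.hs D l) : MG.val (k := k) F o.x o.hx l = o.val H.cov F D := by
  unfold Obj.val
  rw [H.cou o.ct o.s o.hs D g l _ hl (o.isCov H.cov D)]

variable {B' : Type} [CommRing B'] [Algebra k B']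

theorem Obj.val_map (H : Hyp) (F : Reg g n) (o : Obj g n T B) (o' : Obj g n T B')
    (ψ : B →ₐ[k] B') (ha : ∃ a : Arrow (ψ : B →+* B') o'.x o.x, ChArrow a o'.ct o.ct)
    (D : CovData o.s) (D' : CovData o'.s) (hD : D.Map ψ D') :
    o'.val H.cov F D' = ψ (o.val H.cov F D) := by
  obtain ⟨a, ha⟩ := ha
  exact MG.val_nat F ψ o.hx o'.hx a _ _
    (H.nat a ha o.s o.hs o'.s o'.hs D D' hD g _ _ (o.isCov H.cov D) (o'.isCov H.cov D'))

end

section

variable {g n : ℕ} {k : Type} [Field k] {T : TC k} {C : Fam n k} (ch : Cht C T)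

/-- The sections given by `s` are disjoint. -/
def Dis {B : Type} [CommRing B] [Algebra k B] (s : Fin n → Pt T B) : Prop :=
  ∀ (K : Type) [Field K] [IsAlgClosed K] (f : B →+* K) (i j : Fin n), i ≠ j →
    spMap f ≫ tau ch.aff (s i) ≠ spMap f ≫ tau ch.aff (s j)

theorem dis_one (H : Hyp) (i₀ : Fin n) {B : Type} [CommRing B] [Algebra k B]
    (φ : T.R1 →ₐ[k] B)
    (hφ : ∀ i, i ≠ i₀ → IsUnit (φ (T.x - algebraMap k T.R1 (ch.pt i T.x)))) :
    Dis ch (mv ch i₀ (.one φ)) := by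
  intro K _ _ f i j hij
  have key : ∀ i, (∀ φ : T.R1 →ₐ[k] B, IsUnit (φ (T.x - algebraMap k T.R1 (ch.pt i T.x))) →
      spMap f ≫ tau ch.aff (.one φ) ≠
          spMap f ≫ tau ch.aff (.one ((Algebra.ofId k B).comp (ch.pt i)))) := by
    intro i φ h
    exact (H.dis ch B i).1 φ h K f
  unfold mv
  by_cases hi : i = i₀
  · have hj : j ≠ i₀ := fun h => hij (hi.trans h.symm)
    rw [if_pos hi, if_neg hj]
    exact key j φ (hφ j hj)
  · rw [if_neg hi]
    by_cases hj : j = i₀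
    · rw [if_pos hj]
      exact (key i φ (hφ i hi)).symm
    · rw [if_neg hj]
      refine key j _ ?_
      have h1 : ((Algebra.ofId k B).comp (ch.pt i)) (T.x - algebraMap k T.R1 (ch.pt j T.x)) =
          algebraMap k B (ch.pt i T.x - ch.pt j T.x) := by
        simp [Algebra.ofId_apply]
      rw [h1]
      have h2 : ch.pt i T.x - ch.pt j T.x ≠ 0 := sub_ne_zero.2 (ch.ne i j hij)
      exact (IsUnit.mk0 _ h2).map (algebraMap k B)

theorem dis_two (H : Hyp) (i₀ : Fin n) {B : Type} [CommRing B] [Algebra k B]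
    (ψ : T.R2 →ₐ[k] B) : Dis ch (mv ch i₀ (.two ψ)) := by
  intro K _ _ f i j hij
  unfold mv
  by_cases hi : i = i₀
  · have hj : j ≠ i₀ := fun h => hij (hi.trans h.symm)
    rw [if_pos hi, if_neg hj]
    exact (H.dis ch B j).2 ψ K f
  · rw [if_neg hi]
    by_cases hj : j = i₀
    · rw [if_pos hj]
      exact ((H.dis ch B i).2 ψ K f).symm
    · rw [if_neg hj]
      refine (H.dis ch B j).1 _ ?_ K f
      have h1 : ((Algebra.ofId k B).comp (ch.pt i)) (T.x - algebraMap k T.R1 (ch.pt j T.x)) =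
          algebraMap k B (ch.pt i T.x - ch.pt j T.x) := by
        simp [Algebra.ofId_apply]
      rw [h1]
      have h2 : ch.pt i T.x - ch.pt j T.x ≠ 0 := sub_ne_zero.2 (ch.ne i j hij)
      exact (IsUnit.mk0 _ h2).map (algebraMap k B)

variable [IsAlgClosed k]

/-- What is assumed of the curve. -/
structure Cur (g : ℕ) : Prop where
  hC : IsStable g C
  hs : SmoothOfRelativeDimension 1 C.π
  hnot : ∀ (j : ℕ), 1 ≤ j → ∀ (a : T.R1) (b : T.R2), T.j1 a = T.e ^ j * T.j2 b → a = 0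

variable (Q : Cur (T := T) (C := C) g)

theorem Cur.not1 {g : ℕ} (Q : Cur (T := T) (C := C) g) (a : T.R1) (b : T.R2) (h : T.j1 a = T.e * T.j2 b) : a = 0 :=
  Q.hnot 1 le_rfl a b (by rw [pow_one]; exact h)

/-- The constant family with sections `s`. -/
noncomputable def cobj (H : Hyp) {B : Type} [CommRing B] [Algebra k B] (s : Fin n → Pt T B)
    (hd : Dis ch s) : Obj g n T B where
  x := constFam C B (fun i => tau ch.aff (s i)) (fun i => (H.tau ch.ct ch.aff).1 B (s i))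
  hx := H.cst g C Q.hC Q.hs T ch Q.not1 B _ _ hd
  ct := (H.chb ch.ct ch.aff B (fun i => tau ch.aff (s i))
    (fun i => (H.tau ch.ct ch.aff).1 B (s i))).choose
  s := s
  hs i := (H.chi ch.ct ch.aff B _ _ _ (H.chb ch.ct ch.aff B (fun i => tau ch.aff (s i))
    (fun i => (H.tau ch.ct ch.aff).1 B (s i))).choose_spec i).1 (s i) rfl

theorem cobj_bc (H : Hyp) {B : Type} [CommRing B] [Algebra k B] (s : Fin n → Pt T B)
    (hd : Dis ch s) : IsBC (hτ := fun i => (H.tau ch.ct ch.aff).1 B (s i)) ch.ct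
      (cobj ch Q H s hd).ct :=
  (H.chb ch.ct ch.aff B (fun i => tau ch.aff (s i))
    (fun i => (H.tau ch.ct ch.aff).1 B (s i))).choose_spec

theorem cobj_arrow (H : Hyp) {B : Type} [CommRing B] [Algebra k B] {B' : Type} [CommRing B']
    [Algebra k B'] (ψ : B →ₐ[k] B') (s : Fin n → Pt T B) (hd : Dis ch s) (s' : Fin n → Pt T B')
    (hd' : Dis ch s') (hs : ∀ i, tau ch.aff (s' i) = spMap (ψ : B →+* B') ≫ tau ch.aff (s i)) :
    ∃ a : Arrow (ψ : B →+* B') (cobj ch Q H s' hd').x (cobj ch Q H s hd).x,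
      ChArrow a (cobj ch Q H s' hd').ct (cobj ch Q H s hd).ct :=
  H.cha ch.ct ch.aff B B' ψ _ _ _ _ _ _ (cobj_bc ch Q H s hd) (cobj_bc ch Q H s' hd') hs

/-- The coordinate which vanishes at `pᵢ`. -/
noncomputable def zE (i : Fin n) : T.R1 := T.x - algebraMap k T.R1 (ch.pt i T.x)

theorem zE_ne (i : Fin n) : ch.pt i (zE ch i) = 0 := by
  unfold zE
  simp

theorem map_mv {B : Type} [CommRing B] [Algebra k B] {B' : Type} [CommRing B']
    [Algebra k B'] (ψ : B →ₐ[k] B') (i₀ : Fin n) (s : Pt T B) (i : Fin n) :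
    (mv ch i₀ s i).map ψ = mv ch i₀ (s.map ψ) i := by
  unfold mv
  by_cases h : i = i₀
  · rw [if_pos h, if_pos h]
  · rw [if_neg h, if_neg h]
    simp only [Pt.map, Pt.one.injEq]
    ext a
    simp [Algebra.ofId_apply]

theorem cobj_arrow' (H : Hyp) {B : Type} [CommRing B] [Algebra k B] {B' : Type} [CommRing B']
    [Algebra k B'] (ψ : B →ₐ[k] B') (i₀ : Fin n) (s : Pt T B) (s' : Pt T B')
    (hd : Dis ch (mv ch i₀ s)) (hd' : Dis ch (mv ch i₀ s'))
    (hs : tau ch.aff s' = tau ch.aff (s.map ψ)) :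
    ∃ a : Arrow (ψ : B →+* B') (cobj ch Q H _ hd').x (cobj ch Q H _ hd).x,
      ChArrow a (cobj ch Q H _ hd').ct (cobj ch Q H _ hd).ct := by
  refine cobj_arrow ch Q H ψ _ hd _ hd' fun i => ?_
  rw [← (H.tau ch.ct ch.aff).2.1 B B' ψ, map_mv]
  unfold mv
  by_cases h : i = i₀
  · rw [if_pos h, if_pos h, hs]
  · rw [if_neg h, if_neg h]

/-- Constants of a polynomial ring. -/
noncomputable def cAlg (k R V : Type) [Field k] [CommRing R] [Algebra k R] :
    R →ₐ[k] MvPolynomial V R :=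
  IsScalarTower.toAlgHom k R (MvPolynomial V R)

@[simp]
theorem cAlg_apply (k R V : Type) [Field k] [CommRing R] [Algebra k R] (r : R) :
    cAlg k R V r = MvPolynomial.C r := rfl

/-- The product of the `z i`. -/
noncomputable def PP (s : Finset (Fin n)) : T.R1 := ∏ i ∈ s, zE ch i

/-- The universal ring with the moving point away from the `p i`, `i ∈ s`. -/
abbrev SS (ι : Type) (s : Finset (Fin n)) : Type :=
  Localization.Away (MvPolynomial.C (PP ch s) : MvPolynomial (Fin n ⊕ ι) T.R1)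

/-- The universal moving point. -/
noncomputable def ph (ι : Type) (s : Finset (Fin n)) : T.R1 →ₐ[k] SS ch ι s :=
  (IsScalarTower.toAlgHom k (MvPolynomial (Fin n ⊕ ι) T.R1) (SS ch ι s)).comp
    (cAlg k T.R1 (Fin n ⊕ ι))

theorem ph_apply (ι : Type) (s : Finset (Fin n)) (r : T.R1) :
    ph ch ι s r = algebraMap (MvPolynomial (Fin n ⊕ ι) T.R1) (SS ch ι s) (MvPolynomial.C r) := rfl

theorem ph_unit (ι : Type) (s : Finset (Fin n)) (i : Fin n) (hi : i ∈ s) :
    IsUnit (ph ch ι s (zE ch i)) := by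
  rw [ph_apply]
  have h1 : IsUnit (algebraMap (MvPolynomial (Fin n ⊕ ι) T.R1) (SS ch ι s)
      (MvPolynomial.C (PP ch s))) :=
    IsLocalization.Away.algebraMap_isUnit _
  have h2 : zE ch i ∣ PP ch s := Finset.dvd_prod_of_mem _ hi
  have h3 : algebraMap (MvPolynomial (Fin n ⊕ ι) T.R1) (SS ch ι s) (MvPolynomial.C (zE ch i)) ∣
      algebraMap (MvPolynomial (Fin n ⊕ ι) T.R1) (SS ch ι s) (MvPolynomial.C (PP ch s)) :=
    map_dvd _ (map_dvd _ h2)
  exact isUnit_of_dvd_unit h3 h1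

/-- Homomorphisms from the universal ring. -/
noncomputable def SSlift (ι : Type) (s : Finset (Fin n)) {B : Type} [CommRing B] [Algebra k B]
    (θ : MvPolynomial (Fin n ⊕ ι) T.R1 →ₐ[k] B) (h : IsUnit (θ (MvPolynomial.C (PP ch s)))) :
    SS ch ι s →ₐ[k] B :=
  IsLocalization.liftAlgHom (M := Submonoid.powers (MvPolynomial.C (PP ch s) :
    MvPolynomial (Fin n ⊕ ι) T.R1)) (f := θ) (by
      rintro ⟨y, m, rfl⟩
      change IsUnit (θ ((MvPolynomial.C (PP ch s)) ^ m))
      rw [map_pow]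
      exact h.pow m)

theorem SSlift_apply (ι : Type) (s : Finset (Fin n)) {B : Type} [CommRing B] [Algebra k B]
    (θ : MvPolynomial (Fin n ⊕ ι) T.R1 →ₐ[k] B) (h : IsUnit (θ (MvPolynomial.C (PP ch s))))
    (y : MvPolynomial (Fin n ⊕ ι) T.R1) :
    SSlift ch ι s θ h (algebraMap _ (SS ch ι s) y) = θ y := by
  unfold SSlift
  simp

theorem SSlift_ph (ι : Type) (s : Finset (Fin n)) {B : Type} [CommRing B] [Algebra k B]
    (θ : MvPolynomial (Fin n ⊕ ι) T.R1 →ₐ[k] B) (h : IsUnit (θ (MvPolynomial.C (PP ch s))))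
    (r : T.R1) : SSlift ch ι s θ h (ph ch ι s r) = θ (MvPolynomial.C r) := by
  rw [ph_apply, SSlift_apply]

section core

variable [Algebra ℂ k] (H : Hyp) (F : Reg g n) {ι : Type} {D : ι → T.R12}

/-- Universal covector data. -/
structure Uni (D : ι → T.R12) : Prop where
  ex : ∀ (n : ℕ) (B : Type) [CommRing B] [Algebra k B] (s : Fin n → Pt T B)
    (ν : Fin n → B) (w : ι → B), ∃ C : CovData s, C.ν = ν ∧ ∀ a, C.μ (D a) = w a
  un : ∀ (n : ℕ) (B : Type) [CommRing B] [Algebra k B] (s : Fin n → Pt T B)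
    (C C' : CovData s), C.ν = C'.ν → (∀ a, C.μ (D a) = C'.μ (D a)) → C = C'

variable (U : Uni D)

/-- The covector data with given weights. -/
noncomputable def Uni.cd {D : ι → T.R12} (U : Uni D) {n : ℕ} {B : Type} [CommRing B] [Algebra k B]
    (s : Fin n → Pt T B) (v : Fin n ⊕ ι → B) : CovData s :=
  (U.ex n B s (fun i => v (.inl i)) (fun a => v (.inr a))).choose

theorem Uni.cd_ν {D : ι → T.R12} (U : Uni D) {n : ℕ} {B : Type} [CommRing B] [Algebra k B]
    (s : Fin n → Pt T B) (v : Fin n ⊕ ι → B) (i : Fin n) : (U.cd s v).ν i = v (.inl i) :=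
  congrFun (U.ex n B s (fun i => v (.inl i)) (fun a => v (.inr a))).choose_spec.1 i

theorem Uni.cd_μ {D : ι → T.R12} (U : Uni D) {n : ℕ} {B : Type} [CommRing B] [Algebra k B]
    (s : Fin n → Pt T B) (v : Fin n ⊕ ι → B) (a : ι) : (U.cd s v).μ (D a) = v (.inr a) :=
  (U.ex n B s (fun i => v (.inl i)) (fun a => v (.inr a))).choose_spec.2 a

/-- The base change of covector data. -/
def CovData.bc {n : ℕ} {B : Type} [CommRing B] [Algebra k B] {B' : Type} [CommRing B']
    [Algebra k B'] (ψ : B →ₐ[k] B') {s : Fin n → Pt T B} (C : CovData s) {s' : Fin n → Pt T B'}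
    (hs : ∀ i, s' i = (s i).map ψ) : CovData s' where
  μ := ψ.toLinearMap ∘ₗ C.μ
  ν i := ψ (C.ν i)
  m1 a := by
    have h := congrArg ψ (C.m1 a)
    rw [map_add, map_sum, map_zero] at h
    refine Eq.trans ?_ h
    congr 1
    refine Finset.sum_congr rfl fun i _ => ?_
    rw [map_mul, hs i]
    congr 1
    cases s i <;> simp [Pt.map, Pt.l1]
  m2 a := by
    have h := congrArg ψ (C.m2 a)
    rw [map_sum] at h
    refine h.trans ?_
    refine Finset.sum_congr rfl fun i _ => ?_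
    rw [map_mul, hs i]
    congr 1
    cases s i <;> simp [Pt.map, Pt.l2]

theorem CovData.bc_map {n : ℕ} {B : Type} [CommRing B] [Algebra k B] {B' : Type} [CommRing B']
    [Algebra k B'] (ψ : B →ₐ[k] B') {s : Fin n → Pt T B} (C : CovData s) {s' : Fin n → Pt T B'}
    (hs : ∀ i, s' i = (s i).map ψ) : C.Map ψ (C.bc ψ hs) :=
  ⟨hs, fun _ => rfl, fun _ => rfl⟩

/-- Universal data map to universal data. -/
theorem Uni.map {D : ι → T.R12} (U : Uni D) {n : ℕ} {B : Type} [CommRing B] [Algebra k B]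
    {B' : Type} [CommRing B'] [Algebra k B'] (ψ : B →ₐ[k] B') {s : Fin n → Pt T B}
    {s' : Fin n → Pt T B'} (hs : ∀ i, s' i = (s i).map ψ) (v : Fin n ⊕ ι → B)
    (v' : Fin n ⊕ ι → B') (hv : ∀ j, v' j = ψ (v j)) : (U.cd s v).Map ψ (U.cd s' v') := by
  have : U.cd s' v' = (U.cd s v).bc ψ hs := by
    apply U.un
    · funext i
      rw [U.cd_ν, hv]
      change _ = ψ ((U.cd s v).ν i)
      rw [U.cd_ν]
    · intro a
      rw [U.cd_μ, hv]
      change _ = ψ ((U.cd s v).μ (D a))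
      rw [U.cd_μ]
  rw [this]
  exact CovData.bc_map ψ _ hs

/-- The universal object with moving section in the first chart. -/
noncomputable def o1 (ι : Type) (i₀ : Fin n) :
    Obj g n T (SS ch ι (Finset.univ.erase i₀)) :=
  cobj ch Q H (mv ch i₀ (.one (ph ch ι (Finset.univ.erase i₀))))
    (dis_one ch H i₀ _ fun i hi => ph_unit ch ι _ i (Finset.mem_erase.2 ⟨hi, Finset.mem_univ i⟩))

/-- The value on the universal object. -/
noncomputable def f1 (i₀ : Fin n) : SS ch ι (Finset.univ.erase i₀) :=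
  (o1 ch Q H ι i₀).val H.cov F (U.cd _ fun j =>
    algebraMap (MvPolynomial (Fin n ⊕ ι) T.R1) (SS ch ι (Finset.univ.erase i₀))
      (MvPolynomial.X j))

/-- The universal object with moving section in the second chart. -/
noncomputable def o2 (ι : Type) (i₀ : Fin n) :
    Obj g n T (MvPolynomial (Fin n ⊕ ι) T.R2) :=
  cobj ch Q H (mv ch i₀ (.two (cAlg k T.R2 (Fin n ⊕ ι)))) (dis_two ch H i₀ _)

/-- The value on the universal object. -/
noncomputable def f2 (i₀ : Fin n) : MvPolynomial (Fin n ⊕ ι) T.R2 :=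
  (o2 ch Q H ι i₀).val H.cov F (U.cd _ fun j => MvPolynomial.X j)

/-- The localisation map. -/
theorem PP_erase (s : Finset (Fin n)) (j : Fin n) (hj : j ∈ s) :
    PP ch s = PP ch (s.erase j) * zE ch j := by
  unfold PP
  rw [Finset.prod_erase_mul _ _ hj]

theorem PP_unit (ι : Type) (s : Finset (Fin n)) (j : Fin n) (hj : j ∈ s) :
    IsUnit (IsScalarTower.toAlgHom k (MvPolynomial (Fin n ⊕ ι) T.R1) (SS ch ι s)
      (MvPolynomial.C (PP ch (s.erase j)))) := by
  have h1 : IsUnit (algebraMap (MvPolynomial (Fin n ⊕ ι) T.R1) (SS ch ι s)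
      (MvPolynomial.C (PP ch s))) :=
    IsLocalization.Away.algebraMap_isUnit _
  have h2 : PP ch (s.erase j) ∣ PP ch s := ⟨zE ch j, PP_erase ch s j hj⟩
  have h3 : algebraMap (MvPolynomial (Fin n ⊕ ι) T.R1) (SS ch ι s)
      (MvPolynomial.C (PP ch (s.erase j))) ∣
      algebraMap (MvPolynomial (Fin n ⊕ ι) T.R1) (SS ch ι s) (MvPolynomial.C (PP ch s)) :=
    map_dvd _ (map_dvd _ h2)
  exact isUnit_of_dvd_unit h3 h1

/-- The restriction to the complement of `p j`. -/
noncomputable def SSres (ι : Type) (s : Finset (Fin n)) (j : Fin n) (hj : j ∈ s) :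
    SS ch ι (s.erase j) →ₐ[k] SS ch ι s :=
  SSlift ch ι (s.erase j) (IsScalarTower.toAlgHom k (MvPolynomial (Fin n ⊕ ι) T.R1) (SS ch ι s))
    (PP_unit ch ι s j hj)

theorem SSres_apply (ι : Type) (s : Finset (Fin n)) (j : Fin n) (hj : j ∈ s)
    (y : MvPolynomial (Fin n ⊕ ι) T.R1) :
    SSres ch ι s j hj (algebraMap _ (SS ch ι (s.erase j)) y) = algebraMap _ (SS ch ι s) y :=
  SSlift_apply ch ι (s.erase j) _ (PP_unit ch ι s j hj) y

theorem SSres_ph (ι : Type) (s : Finset (Fin n)) (j : Fin n) (hj : j ∈ s) :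
    (SSres ch ι s j hj).comp (ph ch ι (s.erase j)) = ph ch ι s := by
  ext r
  exact SSlift_ph ch ι (s.erase j) _ (PP_unit ch ι s j hj) r

/-- The value extends over `p j`. -/
theorem f1_bub (i₀ : Fin n) (j : Fin n) (hj : j ≠ i₀) :
    ∃ y : SS ch ι ((Finset.univ.erase i₀).erase j),
      SSres ch ι (Finset.univ.erase i₀) j (Finset.mem_erase.2 ⟨hj, Finset.mem_univ j⟩) y =
        f1 ch Q H F U i₀ := by
  obtain ⟨x, ct, hx, his, harr⟩ := H.bub g C Q.hC Q.hs T ch Q.not1 i₀ j hj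
    (SS ch ι ((Finset.univ.erase i₀).erase j)) (ph ch ι _) (fun i hi hij =>
      ph_unit ch ι _ i (Finset.mem_erase.2 ⟨hij, Finset.mem_erase.2 ⟨hi, Finset.mem_univ i⟩⟩))
  let o : Obj g n T (SS ch ι ((Finset.univ.erase i₀).erase j)) := ⟨x, hx, ct, _, his⟩
  have hj' : j ∈ Finset.univ.erase i₀ := Finset.mem_erase.2 ⟨hj, Finset.mem_univ j⟩
  refine ⟨o.val H.cov F (U.cd _ fun v => algebraMap (MvPolynomial (Fin n ⊕ ι) T.R1) _
    (MvPolynomial.X v)), ?_⟩
  have hs : ∀ i, mv ch i₀ (.one (ph ch ι (Finset.univ.erase i₀))) i =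
      (mv ch i₀ (.one (ph ch ι ((Finset.univ.erase i₀).erase j))) i).map
        (SSres ch ι (Finset.univ.erase i₀) j hj') := by
    intro i
    rw [map_mv]
    congr 1
    simp only [Pt.map]
    rw [SSres_ph]
  symm
  have hu : IsUnit (SSres ch ι (Finset.univ.erase i₀) j hj'
      (ph ch ι ((Finset.univ.erase i₀).erase j) (T.x - algebraMap k T.R1 (ch.pt j T.x)))) := by
    have h1 := ph_unit ch ι (Finset.univ.erase i₀) j hj'
    rw [← SSres_ph ch ι _ j hj'] at h1
    exact h1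
  have hτ' : (fun i => tau ch.aff (mv ch i₀ (.one (ph ch ι (Finset.univ.erase i₀))) i)) =
      fun i => tau ch.aff ((mv ch i₀ (.one (ph ch ι ((Finset.univ.erase i₀).erase j))) i).map
        (SSres ch ι (Finset.univ.erase i₀) j hj')) := by
    funext i
    rw [hs i]
  refine Obj.val_map H F o (o1 ch Q H ι i₀) (SSres ch ι (Finset.univ.erase i₀) j hj') ?_ _ _ ?_
  · have key := harr (SS ch ι (Finset.univ.erase i₀)) (SSres ch ι (Finset.univ.erase i₀) j hj') hu
    have gen : ∀ (τ : Fin n → (Sp (SS ch ι (Finset.univ.erase i₀)) ⟶ C.X))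
        (hτ : ∀ i, τ i ≫ C.π = spMap (algebraMap k (SS ch ι (Finset.univ.erase i₀))))
        (c : Charted T (constFam C (SS ch ι (Finset.univ.erase i₀)) τ hτ)), IsBC ch.ct c →
        (τ = fun i => tau ch.aff
          ((mv ch i₀ (.one (ph ch ι ((Finset.univ.erase i₀).erase j))) i).map
            (SSres ch ι (Finset.univ.erase i₀) j hj'))) →
        ∃ a : Arrow (SSres ch ι (Finset.univ.erase i₀) j hj' : _ →+* _)
          (constFam C (SS ch ι (Finset.univ.erase i₀)) τ hτ) x, ChArrow a c ct := by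
      intro τ hτ c hc e
      subst e
      exact key hτ c hc
    exact gen _ _ _ (cobj_bc ch Q H _ _) hτ'
  · exact U.map _ hs _ _ fun v => (SSres_apply ch ι _ j hj' _).symm

theorem zE_ne_zero [Nontrivial T.R12] (i : Fin n) : zE ch i ≠ 0 := by
  intro h
  have h1 := ch.unit i
  change IsUnit (T.j1 (zE ch i)) at h1
  rw [h, map_zero] at h1
  exact not_isUnit_zero h1

include ch in
theorem domR1 : IsDomain T.R1 := by
  have := ch.dom
  exact ch.inj1.isDomain (T.j1 : T.R1 →+* T.R12)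

theorem PP_ne_zero (s : Finset (Fin n)) : PP ch s ≠ 0 := by
  have := ch.dom
  have := domR1 ch
  unfold PP
  exact Finset.prod_ne_zero_iff.2 fun i _ => zE_ne_zero ch i

theorem SS_inj (ι : Type) (s : Finset (Fin n)) :
    Function.Injective (algebraMap (MvPolynomial (Fin n ⊕ ι) T.R1) (SS ch ι s)) := by
  have := domR1 ch
  refine IsLocalization.injective (SS ch ι s)
    (M := Submonoid.powers (MvPolynomial.C (PP ch s) : MvPolynomial (Fin n ⊕ ι) T.R1)) ?_
  refine powers_le_nonZeroDivisors_of_noZeroDivisors ?_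
  rw [Ne, MvPolynomial.C_eq_zero]
  exact PP_ne_zero ch s

/-- The universal value has no poles. -/
theorem f1_regular (i₀ : Fin n) :
    ∃ q : MvPolynomial (Fin n ⊕ ι) T.R1, f1 ch Q H F U i₀ =
      algebraMap _ (SS ch ι (Finset.univ.erase i₀)) q := by
  have := domR1 ch
  obtain ⟨N, f, hf⟩ := IsLocalization.Away.surj
    (MvPolynomial.C (PP ch (Finset.univ.erase i₀)) : MvPolynomial (Fin n ⊕ ι) T.R1)
    (f1 ch Q H F U i₀)
  have key := H.loc T ch ι (Finset.univ.erase i₀) N f ?_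
  · obtain ⟨q, hq⟩ := key
    refine ⟨q, ?_⟩
    have hu : IsUnit (algebraMap (MvPolynomial (Fin n ⊕ ι) T.R1)
        (SS ch ι (Finset.univ.erase i₀)) (MvPolynomial.C (PP ch (Finset.univ.erase i₀))) ^ N) :=
      (IsLocalization.Away.algebraMap_isUnit _).pow N
    apply hu.mul_right_cancel
    rw [hf, hq]
    have : (MvPolynomial.C ((∏ i ∈ Finset.univ.erase i₀,
        (T.x - algebraMap k T.R1 (ch.pt i T.x))) ^ N) : MvPolynomial (Fin n ⊕ ι) T.R1) =
        MvPolynomial.C (PP ch (Finset.univ.erase i₀)) ^ N := by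
      rw [map_pow]
      rfl
    rw [this, map_mul, map_pow, mul_comm]
  · intro j hj
    have hj' : j ≠ i₀ := (Finset.mem_erase.1 hj).1
    obtain ⟨y, hy⟩ := f1_bub ch Q H F U i₀ j hj'
    obtain ⟨M, q, hq⟩ := IsLocalization.Away.surj
      (MvPolynomial.C (PP ch ((Finset.univ.erase i₀).erase j)) :
        MvPolynomial (Fin n ⊕ ι) T.R1) y
    refine ⟨M, MvPolynomial.C (PP ch ((Finset.univ.erase i₀).erase j) ^ N) * q, ?_⟩
    apply SS_inj ch ι (Finset.univ.erase i₀)
    have h1 := congrArg (SSres ch ι (Finset.univ.erase i₀) j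
      (Finset.mem_erase.2 ⟨hj', Finset.mem_univ j⟩)) hq
    rw [map_mul, map_pow, hy, SSres_apply, SSres_apply] at h1
    have e1 : (MvPolynomial.C ((∏ i ∈ (Finset.univ.erase i₀).erase j,
        (T.x - algebraMap k T.R1 (ch.pt i T.x))) ^ M) : MvPolynomial (Fin n ⊕ ι) T.R1) =
        MvPolynomial.C (PP ch ((Finset.univ.erase i₀).erase j)) ^ M := by
      rw [map_pow]
      rfl
    have e2 : (MvPolynomial.C ((T.x - algebraMap k T.R1 (ch.pt j T.x)) ^ N) :
        MvPolynomial (Fin n ⊕ ι) T.R1) * (MvPolynomial.C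
          (PP ch ((Finset.univ.erase i₀).erase j) ^ N) * q) =
        MvPolynomial.C (PP ch (Finset.univ.erase i₀)) ^ N * q := by
      rw [PP_erase ch _ j hj, ← map_pow, mul_pow, map_mul]
      change MvPolynomial.C (zE ch j ^ N) * _ = _
      ring
    rw [e1, e2, map_mul, map_mul, map_pow, map_pow, ← hf, ← h1]
    ring

/-- The point of the intersection. -/
noncomputable def xi (T : TC k) (ι : Type) (n : ℕ) :
    T.R12 →ₐ[k] MvPolynomial (Fin n ⊕ ι) T.R12 := cAlg k T.R12 (Fin n ⊕ ι)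

theorem xi_unit (ι : Type) (i : Fin n) : IsUnit (((xi T ι n).comp T.j1)
    (T.x - algebraMap k T.R1 (ch.pt i T.x))) :=
  (ch.unit i).map (xi T ι n)

/-- The object over the intersection, section in the first chart. -/
noncomputable def o12 (ι : Type) (i₀ : Fin n) : Obj g n T (MvPolynomial (Fin n ⊕ ι) T.R12) :=
  cobj ch Q H (mv ch i₀ (.one ((xi T ι n).comp T.j1)))
    (dis_one ch H i₀ _ fun i _ => xi_unit ch ι i)

/-- The object over the intersection, section in the second chart. -/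
noncomputable def o12' (ι : Type) (i₀ : Fin n) : Obj g n T (MvPolynomial (Fin n ⊕ ι) T.R12) where
  x := (o12 ch Q H ι i₀).x
  hx := (o12 ch Q H ι i₀).hx
  ct := (o12 ch Q H ι i₀).ct
  s := mv ch i₀ (.two ((xi T ι n).comp T.j2))
  hs i := (H.chi ch.ct ch.aff _ _ _ _ (cobj_bc ch Q H (mv ch i₀ (.one ((xi T ι n).comp T.j1)))
    (dis_one ch H i₀ _ fun i _ => xi_unit ch ι i)) i).1 _ (by
      unfold mv
      by_cases h : i = i₀
      · rw [if_pos h, if_pos h]
        exact (H.tau ch.ct ch.aff).2.2.1 _ (xi T ι n)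
      · rw [if_neg h, if_neg h])

/-- `S₁ → S₁₂`. -/
noncomputable def th1 (T : TC k) (ι : Type) (n : ℕ) :
    MvPolynomial (Fin n ⊕ ι) T.R1 →ₐ[k] MvPolynomial (Fin n ⊕ ι) T.R12 :=
  MvPolynomial.mapAlgHom T.j1

theorem th1_unit (ι : Type) (s : Finset (Fin n)) :
    IsUnit (th1 T ι n (MvPolynomial.C (PP ch s))) := by
  have h : th1 T ι n (MvPolynomial.C (PP ch s)) = MvPolynomial.C (T.j1 (PP ch s)) := by
    simp [th1]
  rw [h]
  refine IsUnit.map MvPolynomial.C ?_
  unfold PP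
  rw [map_prod]
  exact (IsUnit.prod_iff).2 fun i _ => ch.unit i

/-- `S₂ → S₁₂`. -/
noncomputable def th2 (D : ι → T.R12) (i₀ : Fin n) :
    MvPolynomial (Fin n ⊕ ι) T.R2 →ₐ[k] MvPolynomial (Fin n ⊕ ι) T.R12 :=
  ((MvPolynomial.aeval (chgV T D i₀) : MvPolynomial (Fin n ⊕ ι) T.R12 →ₐ[T.R12]
    MvPolynomial (Fin n ⊕ ι) T.R12).restrictScalars k).comp (MvPolynomial.mapAlgHom T.j2)

theorem th2_C (D : ι → T.R12) (i₀ : Fin n) (r : T.R2) :
    th2 D i₀ (MvPolynomial.C r) = MvPolynomial.C (T.j2 r) := by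
  simp [th2]

theorem th2_X (D : ι → T.R12) (i₀ : Fin n) (v : Fin n ⊕ ι) :
    th2 D i₀ (MvPolynomial.X v) = chgV T D i₀ v := by
  simp [th2]

theorem ptmap1 (ι : Type) (s : Finset (Fin n)) :
    (Pt.one (ph ch ι s)).map (SSlift ch ι s (th1 T ι n) (th1_unit ch ι s)) =
      Pt.one ((xi T ι n).comp T.j1) := by
  simp only [Pt.map, Pt.one.injEq]
  refine AlgHom.ext fun r => ?_
  refine (SSlift_ph ch ι s (th1 T ι n) (th1_unit ch ι s) r).trans ?_
  simp [th1, xi]

theorem ptmap2 (D : ι → T.R12) (i₀ : Fin n) :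
    (Pt.two (cAlg k T.R2 (Fin n ⊕ ι))).map (th2 D i₀) = Pt.two ((xi T ι n).comp T.j2) := by
  simp only [Pt.map, Pt.two.injEq]
  refine AlgHom.ext fun r => ?_
  exact th2_C D i₀ r

theorem val12 (i₀ : Fin n) (q : MvPolynomial (Fin n ⊕ ι) T.R1)
    (hq : f1 ch Q H F U i₀ = algebraMap _ (SS ch ι (Finset.univ.erase i₀)) q) :
    (o12 ch Q H ι i₀).val H.cov F (U.cd _ fun v => MvPolynomial.X v) =
      MvPolynomial.map (T.j1 : T.R1 →+* T.R12) q := by
  have h1 := Obj.val_map H F (o1 ch Q H ι i₀) (o12 ch Q H ι i₀)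
    (SSlift ch ι (Finset.univ.erase i₀) (th1 T ι n) (th1_unit ch ι _))
    (cobj_arrow' ch Q H _ i₀ (.one (ph ch ι (Finset.univ.erase i₀)))
      (.one ((xi T ι n).comp T.j1)) _ _ (by rw [ptmap1]))
    (U.cd _ fun j => algebraMap (MvPolynomial (Fin n ⊕ ι) T.R1)
      (SS ch ι (Finset.univ.erase i₀)) (MvPolynomial.X j))
    (U.cd _ fun v => MvPolynomial.X v) ?_
  · rw [h1]
    change SSlift ch ι (Finset.univ.erase i₀) (th1 T ι n) (th1_unit ch ι _)
      (f1 ch Q H F U i₀) = _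
    rw [hq, SSlift_apply]
    rfl
  · refine U.map _ (fun i => ?_) _ _ fun v => ?_
    · change mv ch i₀ _ i = (mv ch i₀ _ i).map _
      rw [map_mv, ptmap1]
    · rw [SSlift_apply]
      simp [th1]

theorem val12' (i₀ : Fin n) :
    (o12' ch Q H ι i₀).val H.cov F (U.cd _ fun v => chgV T D i₀ v) =
      th2 D i₀ (f2 ch Q H F U i₀) := by
  refine Obj.val_map H F (o2 ch Q H ι i₀) (o12' ch Q H ι i₀) (th2 D i₀)
    (cobj_arrow' ch Q H (th2 D i₀) i₀ _ (.one ((xi T ι n).comp T.j1)) _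
      (dis_one ch H i₀ _ fun i _ => xi_unit ch ι i) ?_) _ _ ?_
  · rw [(H.tau ch.ct ch.aff).2.2.1 _ (xi T ι n), ptmap2]
  · refine U.map _ (fun i => ?_) _ _ fun v => ?_
    · change mv ch i₀ _ i = (mv ch i₀ _ i).map _
      rw [map_mv, ptmap2]
    · exact (th2_X D i₀ v).symm

/-- Change of the chart of the moving section. -/
theorem val_chg (i₀ : Fin n) :
    (o12 ch Q H ι i₀).val H.cov F (U.cd _ fun v => MvPolynomial.X v) =
      (o12' ch Q H ι i₀).val H.cov F (U.cd _ fun v => chgV T D i₀ v) := by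
  have e1 : (mv ch i₀ (.one ((xi T ι n).comp T.j1))) i₀ = .one ((xi T ι n).comp T.j1) := by
    unfold mv
    rw [if_pos rfl]
  have e2 : (mv ch i₀ (.two ((xi T ι n).comp T.j2))) i₀ = .two ((xi T ι n).comp T.j2) := by
    unfold mv
    rw [if_pos rfl]
  have e3 : ∀ i, i ≠ i₀ → (mv ch i₀ (.one ((xi T ι n).comp T.j1))) i =
      (mv ch i₀ (.two ((xi T ι n).comp T.j2))) i := by
    intro i hi
    unfold mv
    rw [if_neg hi, if_neg hi]
  set C1 : CovData (mv ch i₀ (.one ((xi T ι n).comp T.j1))) :=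
    U.cd _ fun v => MvPolynomial.X v with hC1
  set C2 : CovData (mv ch i₀ (.two ((xi T ι n).comp T.j2))) :=
    U.cd _ fun v => chgV T D i₀ v with hC2
  have hν0 : C2.ν i₀ = xi T ι n T.e * C1.ν i₀ := by
    rw [hC1, hC2, U.cd_ν, U.cd_ν]
    simp [chgV, xi]
  have hν : ∀ i, i ≠ i₀ → C2.ν i = C1.ν i := by
    intro i hi
    rw [hC1, hC2, U.cd_ν, U.cd_ν]
    simp [chgV, hi]
  -- the changed data
  have hC3 : ∃ C3 : CovData (mv ch i₀ (.two ((xi T ι n).comp T.j2))), C3.ν = C2.ν ∧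
      ∀ r, C3.μ r = C1.μ r + C1.ν i₀ * xi T ι n r := by
    refine ⟨⟨C1.μ + (C1.ν i₀) • (xi T ι n).toLinearMap, C2.ν, ?_, ?_⟩, rfl, fun r => rfl⟩
    · intro a
      have h := C1.m1 a
      rw [← Finset.add_sum_erase _ _ (Finset.mem_univ i₀)] at h ⊢
      rw [e1] at h
      rw [e2]
      have h2 : ∑ i ∈ Finset.univ.erase i₀, C2.ν i *
          ((mv ch i₀ (.two ((xi T ι n).comp T.j2))) i).l1 a =
          ∑ i ∈ Finset.univ.erase i₀, C1.ν i *
          ((mv ch i₀ (.one ((xi T ι n).comp T.j1))) i).l1 a := by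
        refine Finset.sum_congr rfl fun i hi => ?_
        rw [hν i (Finset.ne_of_mem_erase hi), e3 i (Finset.ne_of_mem_erase hi)]
      rw [h2]
      have h3 : (Pt.two ((xi T ι n).comp T.j2) : Pt T _).l1 a = 0 := rfl
      have h4 : (Pt.one ((xi T ι n).comp T.j1) : Pt T _).l1 a = xi T ι n (T.j1 a) := rfl
      rw [h3]
      rw [h4] at h
      change C1.μ (T.j1 a) + C1.ν i₀ * xi T ι n (T.j1 a) + _ = 0
      rw [mul_zero, zero_add, add_assoc]
      exact h
    · intro a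
      have h := C1.m2 a
      rw [← Finset.add_sum_erase _ _ (Finset.mem_univ i₀)] at h ⊢
      rw [e1] at h
      rw [e2]
      have h2 : ∑ i ∈ Finset.univ.erase i₀, C2.ν i *
          ((mv ch i₀ (.two ((xi T ι n).comp T.j2))) i).l2 a =
          ∑ i ∈ Finset.univ.erase i₀, C1.ν i *
          ((mv ch i₀ (.one ((xi T ι n).comp T.j1))) i).l2 a := by
        refine Finset.sum_congr rfl fun i hi => ?_
        rw [hν i (Finset.ne_of_mem_erase hi), e3 i (Finset.ne_of_mem_erase hi)]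
      rw [h2]
      have h3 : (Pt.two ((xi T ι n).comp T.j2) : Pt T _).l2 a = xi T ι n (T.j2 a) := rfl
      have h4 : (Pt.one ((xi T ι n).comp T.j1) : Pt T _).l2 a = 0 := rfl
      rw [h3]
      rw [h4, mul_zero, zero_add] at h
      change C1.μ (T.e * T.j2 a) + C1.ν i₀ * xi T ι n (T.e * T.j2 a) = _
      rw [h, hν0, map_mul]
      ring
  obtain ⟨C3, h3ν, h3μ⟩ := hC3
  have hC23 : C3 = C2 := by
    apply U.un _ _ _ _ _ h3ν
    intro a
    rw [h3μ, hC1, hC2, U.cd_μ, U.cd_μ, U.cd_ν]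
    simp only [chgV, xi, cAlg_apply]
    ring
  have hμ : ∀ r, C2.μ r = C1.μ r + C1.ν i₀ * xi T ι n r := by
    rw [← hC23]
    exact h3μ
  have hl := H.chg (o12 ch Q H ι i₀).ct _ _ (o12 ch Q H ι i₀).hs (o12' ch Q H ι i₀).hs i₀
    (xi T ι n) e1 e2 ?_ e3 C1 C2 hμ hν0 hν g
    ((o12 ch Q H ι i₀).cov H.cov C1) ((o12' ch Q H ι i₀).cov H.cov C2)
    ((o12 ch Q H ι i₀).isCov H.cov C1) ((o12' ch Q H ι i₀).isCov H.cov C2)
  · exact congrArg (fun l => MG.val (k := k) F (o12 ch Q H ι i₀).x (o12 ch Q H ι i₀).hx l) hl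
  · exact (H.chi ch.ct ch.aff _ _ _ _ (cobj_bc ch Q H (mv ch i₀ (.one ((xi T ι n).comp T.j1)))
      (dis_one ch H i₀ _ fun i _ => xi_unit ch ι i)) i₀).2 (xi T ι n) (by rw [e1])

/-- The universal value is a polynomial in the weights of the fixed sections. -/
theorem f1_poly [CharZero k] (hc : Cpl T D) (i₀ : Fin n) :
    ∃ p : MvPolynomial {i : Fin n // i ≠ i₀} k, f1 ch Q H F U i₀ =
      algebraMap _ (SS ch ι (Finset.univ.erase i₀))
        (MvPolynomial.rename (fun i => Sum.inl i.1) (MvPolynomial.map (algebraMap k T.R1) p) :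
          MvPolynomial (Fin n ⊕ ι) T.R1) := by
  obtain ⟨q, hq⟩ := f1_regular ch Q H F U i₀
  obtain ⟨p, hp⟩ := H.alg T ch.dom ch.inj1 ch.inj2 ch.h0 Q.hnot D hc i₀ q (f2 ch Q H F U i₀) (by
    rw [← val12 ch Q H F U i₀ q hq, val_chg, val12']
    rfl)
  exact ⟨p, by rw [hq, hp]⟩

/-- Evaluation at the marked points. -/
noncomputable def evk (i₀ : Fin n) (v : Fin n ⊕ ι → k) :
    MvPolynomial (Fin n ⊕ ι) T.R1 →ₐ[k] k :=
  (MvPolynomial.aeval v : MvPolynomial (Fin n ⊕ ι) k →ₐ[k] k).comp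
    (MvPolynomial.mapAlgHom (ch.pt i₀))

theorem evk_C (i₀ : Fin n) (v : Fin n ⊕ ι → k) (r : T.R1) :
    evk ch i₀ v (MvPolynomial.C r) = ch.pt i₀ r := by
  simp [evk]

theorem evk_X (i₀ : Fin n) (v : Fin n ⊕ ι → k) (j : Fin n ⊕ ι) :
    evk ch i₀ v (MvPolynomial.X j) = v j := by
  simp [evk]

theorem evk_unit (i₀ : Fin n) (v : Fin n ⊕ ι → k) :
    IsUnit (evk ch i₀ v (MvPolynomial.C (PP ch (Finset.univ.erase i₀)))) := by
  rw [evk_C]
  unfold PP
  rw [map_prod]
  refine (IsUnit.prod_iff).2 fun i hi => ?_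
  have h : ch.pt i₀ (zE ch i) = ch.pt i₀ T.x - ch.pt i T.x := by
    simp [zE]
  rw [h]
  exact IsUnit.mk0 _ (sub_ne_zero.2 (ch.ne _ _ (Finset.ne_of_mem_erase hi).symm))

/-- The marked points. -/
def kpt (i : Fin n) : Pt T k := .one (ch.pt i)

theorem kpt_is (i : Fin n) : ch.ct.Is (C.σ i) (kpt ch i) := ch.is i

/-- The value at the curve. -/
theorem valk (i₀ : Fin n) (E : CovData (kpt ch)) (l : Cov g C)
    (hl : IsCov ch.ct (kpt ch) (kpt_is ch) E l) :
    F.F k C Q.hC l = SSlift ch ι (Finset.univ.erase i₀)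
      (evk ch i₀ (Sum.elim E.ν (fun a => E.μ (D a)))) (evk_unit ch i₀ _)
        (f1 ch Q H F U i₀) := by
  set v : Fin n ⊕ ι → k := Sum.elim E.ν (fun a => E.μ (D a)) with hv
  set ψ := SSlift ch ι (Finset.univ.erase i₀) (evk ch i₀ v) (evk_unit ch i₀ v) with hψ
  have hs : ∀ i, kpt ch i =
      (mv ch i₀ (.one (ph ch ι (Finset.univ.erase i₀))) i).map ψ := by
    intro i
    rw [map_mv]
    unfold mv kpt
    by_cases h : i = i₀
    · rw [if_pos h]
      simp only [Pt.map, Pt.one.injEq]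
      refine AlgHom.ext fun r => ?_
      symm
      refine (SSlift_ph ch ι _ _ (evk_unit ch i₀ v) r).trans ?_
      rw [evk_C, h]
    · rw [if_neg h]
      simp only [Pt.one.injEq]
      refine AlgHom.ext fun r => ?_
      simp
  obtain ⟨a, ha⟩ := H.chk ch.ct ch.aff (SS ch ι (Finset.univ.erase i₀)) ψ _ _ _
    (cobj_bc ch Q H (mv ch i₀ (.one (ph ch ι (Finset.univ.erase i₀))))
      (dis_one ch H i₀ _ fun i hi => ph_unit ch ι _ i
        (Finset.mem_erase.2 ⟨hi, Finset.mem_univ i⟩))) (fun i => by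
      have h1 := (H.tau ch.ct ch.aff).2.2.2 (C.σ i) (kpt ch i) (C.sec i) (kpt_is ch i)
      rw [h1, hs i]
      exact (H.tau ch.ct ch.aff).2.1 _ _ ψ _)
  have hE : (U.cd (mv ch i₀ (.one (ph ch ι (Finset.univ.erase i₀)))) fun j =>
      algebraMap (MvPolynomial (Fin n ⊕ ι) T.R1) (SS ch ι (Finset.univ.erase i₀))
        (MvPolynomial.X j)).Map ψ E := by
    have h2 := U.map ψ hs (fun j => algebraMap (MvPolynomial (Fin n ⊕ ι) T.R1)
      (SS ch ι (Finset.univ.erase i₀)) (MvPolynomial.X j)) v (fun j => by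
        rw [hψ, SSlift_apply, evk_X])
    have h3 : U.cd (kpt ch) v = E := by
      apply U.un
      · funext i
        rw [U.cd_ν]
        rfl
      · intro a
        rw [U.cd_μ]
        rfl
    rw [h3] at h2
    exact h2
  exact val_nat' F ψ (o1 ch Q H ι i₀).hx Q.hC a ((o1 ch Q H ι i₀).cov H.cov _) l
    (H.nat a ha _ (o1 ch Q H ι i₀).hs _ (kpt_is ch) _ E hE g _ l
      ((o1 ch Q H ι i₀).isCov H.cov _) hl)

theorem evk_p (i₀ : Fin n) (p : MvPolynomial {i : Fin n // i ≠ i₀} k) (v : Fin n ⊕ ι → k) :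
    evk ch i₀ v (MvPolynomial.rename (fun i => Sum.inl i.1)
      (MvPolynomial.map (algebraMap k T.R1) p)) =
      MvPolynomial.aeval (fun i : {i : Fin n // i ≠ i₀} => v (.inl i.1)) p := by
  induction p using MvPolynomial.induction_on with
  | C a =>
    rw [MvPolynomial.map_C, MvPolynomial.rename_C, evk_C]
    simp
  | add p q hp hq => rw [map_add, map_add, map_add, map_add, hp, hq]
  | mul_X p i hp =>
    rw [map_mul, map_mul, map_mul, map_mul, hp, MvPolynomial.map_X, MvPolynomial.rename_X, evk_X,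
      MvPolynomial.aeval_X]

include H U in
/-- The value does not depend on the weight of the section `i₀`. -/
theorem valk_eq [CharZero k] (hc : Cpl T D) (i₀ : Fin n)
    (E E' : CovData (kpt ch)) (l l' : Cov g C)
    (hl : IsCov ch.ct (kpt ch) (kpt_is ch) E l) (hl' : IsCov ch.ct (kpt ch) (kpt_is ch) E' l')
    (h : ∀ i, i ≠ i₀ → E.ν i = E'.ν i) : F.F k C Q.hC l = F.F k C Q.hC l' := by
  rw [valk ch Q H F U i₀ E l hl, valk ch Q H F U i₀ E' l' hl']
  obtain ⟨p, hp⟩ := f1_poly ch Q H F U hc i₀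
  rw [hp, SSlift_apply, SSlift_apply]
  rw [evk_p, evk_p]
  congr 1
  congr 1
  funext i
  exact h i.1 i.2

include ch H U in
/-- Independence of the covector. -/
theorem indep [CharZero k] (hc : Cpl T D) (hn : 1 ≤ n) (l : Cov g C) :
    F.F k C Q.hC l = F.F k C Q.hC 0 := by
  -- the value as a function of the weights
  let G : (Fin n → k) → k := fun ν =>
    F.F k C Q.hC (H.cov ch.ct (kpt ch) (kpt_is ch) (U.cd (kpt ch) (Sum.elim ν 0)) g).choose
  have hG : ∀ (E : CovData (kpt ch)) (l : Cov g C), IsCov ch.ct (kpt ch) (kpt_is ch) E l →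
      F.F k C Q.hC l = G E.ν := by
    intro E l hl
    refine valk_eq ch Q H F U hc ⟨0, hn⟩ E _ l _ hl
      (H.cov ch.ct (kpt ch) (kpt_is ch) (U.cd (kpt ch) (Sum.elim E.ν 0)) g).choose_spec ?_
    intro i _
    rw [U.cd_ν]
    rfl
  have hG2 : ∀ (i₀ : Fin n) (ν ν' : Fin n → k), (∀ i, i ≠ i₀ → ν i = ν' i) → G ν = G ν' := by
    intro i₀ ν ν' h
    refine valk_eq ch Q H F U hc i₀ _ _ _ _
      (H.cov ch.ct (kpt ch) (kpt_is ch) (U.cd (kpt ch) (Sum.elim ν 0)) g).choose_spec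
      (H.cov ch.ct (kpt ch) (kpt_is ch) (U.cd (kpt ch) (Sum.elim ν' 0)) g).choose_spec ?_
    intro i hi
    rw [U.cd_ν, U.cd_ν]
    exact h i hi
  have hG3 : ∀ (s : Finset (Fin n)) (ν : Fin n → k), G ν = G (fun i => if i ∈ s then 0 else ν i) := by
    intro s ν
    induction s using Finset.induction_on with
    | empty => simp
    | insert a s ha ih =>
      rw [ih]
      apply hG2 a
      intro i hi
      simp [hi]
  have hG4 : ∀ ν, G ν = G 0 := by
    intro ν
    rw [hG3 Finset.univ ν]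
    congr 1
    funext i
    simp
  obtain ⟨E, hE⟩ := H.cls g Q.hC ch.ct ch.aff (kpt ch) (kpt_is ch) l
  rw [hG E l hE, hG4]
  let E0 : CovData (kpt ch) := ⟨0, 0, fun a => by simp, fun a => by simp⟩
  have h0 : IsCov ch.ct (kpt ch) (kpt_is ch) E0 (0 : Cov g C) := by
    intro d h δ _
    change (0 : k) = ext (0 : T.R12 →ₗ[k] k) h + ∑ i, (0 : Fin n → k) i * δ i
    simp [ext]
  rw [hG E0 0 h0]

end core

end

/-- The theorem for pointed curves, from the blocks. -/
theorem pointed (H : Hyp) (htwo : Stmt_TWO) (hnot : Stmt_NOT) (g n : ℕ) (hg : 2 ≤ g) (hn : 1 ≤ n)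
    (k : Type) [Field k] [IsAlgClosed k] [Algebra ℂ k] (F : Reg g n) (C : Fam n k)
    (hC : IsStable g C) (hs : SmoothOfRelativeDimension 1 C.π) (l : Cov g C) :
    F.F k C hC l = F.F k C hC 0 := by
  have : CharZero k := charZero_of_injective_algebraMap (algebraMap ℂ k).injective
  obtain ⟨T, ⟨ch⟩⟩ := htwo g C hC hs hn
  have Q : Cur (T := T) (C := C) g := ⟨hC, hs, fun j hj a b h => hnot g C hC hs hg T ch j hj a b h⟩
  obtain ⟨ι, D, hc, hu⟩ := H.uni T ch.inj1 ch.inj2 Q.not1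
  have U : Uni D := ⟨fun n B _ _ s => (hu B s).1, fun n B _ _ s => (hu B s).2⟩
  exact indep ch Q H F U hc hn l

end Pool.Agent.MG
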