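import Pool.Agent.MG.StmtsB

/-!
# Curves of genus one: the argument along the fibres, statements
-/

open CategoryTheory CategoryTheory.Limits AlgebraicGeometry TensorProduct

namespace Pool.Agent.MG

/-- A nowhere vanishing vector field on the curve with charts `T`: `r₀ d/dx = s₀ d/dy` with units
`r₀`, `s₀`; inverses `ri`, `si`. -/
structure Ell {k : Type} [Field k] (T : TC k) where
  /-- the field on the first chart -/
  r0 : T.R1
  /-- the inverse of `r0` -/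
  ri : T.R1
  /-- the field on the second chart -/
  s0 : T.R2
  /-- the inverse of `s0` -/
  si : T.R2
  hr : r0 * ri = 1
  hs : s0 * si = 1
  h : T.j1 r0 = T.e * T.j2 s0

/-- CSTW: constant families with disjoint sections are stable, if the section `j` is constant and
there are no vector fields which vanish at `p_j`. -/
def Stmt_CSTW : Prop :=
  ∀ {n : ℕ} {k : Type} [Field k] [IsAlgClosed k] (g : ℕ) (C : Fam n k), IsStable g C →
    SmoothOfRelativeDimension 1 C.π → ∀ (T : TC k) (ch : Cht C T) (j : Fin n),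
    (∀ (a : T.R1) (b : T.R2), T.j1 a = T.e * T.j2 b → ch.pt j a = 0 → a = 0) →
    ∀ (B : Type) [CommRing B] [Algebra k B] (τ : Fin n → (Sp B ⟶ C.X))
      (hτ : ∀ i, τ i ≫ C.π = spMap (algebraMap k B)), τ j = spMap (algebraMap k B) ≫ C.σ j →
      (∀ (K : Type) [Field K] [IsAlgClosed K] (s : B →+* K) (i j : Fin n), i ≠ j →
        spMap s ≫ τ i ≠ spMap s ≫ τ j) → IsStable g (constFam C B τ hτ)

/-- `D` is a basis of a complement of `R₁ + e R₂` in `R₁₂`, and `R₁ ∩ e R₂ = k r₀`. -/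
structure Cpl1 {k : Type} [Field k] {T : TC k} (E : Ell T) {ι : Type} (D : ι → T.R12) : Prop where
  gen : ∀ r : T.R12, ∃ (a : T.R1) (b : T.R2) (c : ι →₀ k),
    r = T.j1 a + T.e * T.j2 b + c.sum fun i t => t • D i
  ind : ∀ (a : T.R1) (b : T.R2) (c : ι →₀ k),
    T.j1 a + T.e * T.j2 b + (c.sum fun i t => t • D i) = 0 →
      c = 0 ∧ ∃ t : k, a = t • E.r0 ∧ b = -(t • E.s0)

/-- UNI1: universal covector data in genus one; the weight of the section `i₀` is determined by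
`∑ νᵢ r₀(pᵢ) = 0`. -/
def Stmt_UNI1 : Prop :=
  ∀ {k : Type} [Field k] (T : TC k) (E : Ell T), Function.Injective T.j1 →
    Function.Injective T.j2 → (∀ a b, T.j1 a = T.j2 b → ∃ c : k, a = algebraMap k T.R1 c) →
    ∃ (ι : Type) (D : ι → T.R12), Cpl1 E D ∧
      ∀ {n : ℕ} (B : Type) [CommRing B] [Algebra k B] (s : Fin n → Pt T B) (i₀ : Fin n),
        (∀ (ν : {i : Fin n // i ≠ i₀} → B) (w : ι → B),
          ∃ C : CovData s, (∀ i, C.ν i.1 = ν i) ∧ ∀ a, C.μ (D a) = w a) ∧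
        (∀ C C' : CovData s, (∀ i, i ≠ i₀ → C.ν i = C'.ν i) →
          (∀ a, C.μ (D a) = C'.μ (D a)) → C = C')

/-- The weight of the moving section in the first chart: `-(∑ c i ν i) / r₀`. -/
noncomputable def nuv {n : ℕ} {k : Type} [Field k] {T : TC k} (E : Ell T) (ι : Type) (i₀ : Fin n)
    (c : Fin n → k) : MvPolynomial ({i : Fin n // i ≠ i₀} ⊕ ι) T.R12 :=
  -∑ i : {i : Fin n // i ≠ i₀}, MvPolynomial.C (algebraMap k T.R12 (c i.1) * T.j1 E.ri) *
    MvPolynomial.X (.inl i)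

/-- The substitution `w a ↦ w a + D a ν i₀` (change of the chart of the moving section). -/
noncomputable def chgW {n : ℕ} {k : Type} [Field k] {T : TC k} (E : Ell T) {ι : Type}
    (D : ι → T.R12) (i₀ : Fin n) (c : Fin n → k) :
    {i : Fin n // i ≠ i₀} ⊕ ι → MvPolynomial ({i : Fin n // i ≠ i₀} ⊕ ι) T.R12
  | .inl i => MvPolynomial.X (.inl i)
  | .inr a => MvPolynomial.X (.inr a) + MvPolynomial.C (D a) * nuv E ι i₀ c

/-- ALG1: functions which extend over both charts of the moving section do not depend on it. -/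
def Stmt_ALG1 : Prop :=
  ∀ {k : Type} [Field k] [CharZero k] (T : TC k) (E : Ell T), IsDomain T.R12 →
    Function.Injective T.j1 → Function.Injective T.j2 →
    (∀ a b, T.j1 a = T.j2 b → ∃ c : k, a = algebraMap k T.R1 c) →
    ∀ {ι : Type} (D : ι → T.R12), Cpl1 E D → ∀ {n : ℕ} (i₀ : Fin n) (c : Fin n → k),
      (∃ i, i ≠ i₀ ∧ c i ≠ 0) →
      ∀ (f : MvPolynomial ({i : Fin n // i ≠ i₀} ⊕ ι) T.R1)
      (g : MvPolynomial ({i : Fin n // i ≠ i₀} ⊕ ι) T.R2),
      MvPolynomial.map (T.j1 : T.R1 →+* T.R12) f =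
        MvPolynomial.aeval (chgW E D i₀ c) (MvPolynomial.map (T.j2 : T.R2 →+* T.R12) g) →
      ∃ p : MvPolynomial {i : Fin n // i ≠ i₀} k,
        f = MvPolynomial.rename Sum.inl (MvPolynomial.map (algebraMap k T.R1) p)

/-! ## Replacing a marked point -/

section

variable {n : ℕ} {k : Type} [Field k]

/-- The curve with the marked point `i₀` replaced by `q`. -/
noncomputable def Fam.rep (C : Fam n k) (i₀ : Fin n) (q : Sp k ⟶ C.X) (hq : q ≫ C.π = 𝟙 _) :
    Fam n k where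
  X := C.X
  π := C.π
  σ := Function.update C.σ i₀ q
  sec i := by
    by_cases h : i = i₀
    · subst h
      rw [Function.update_self, hq]
    · rw [Function.update_of_ne h, C.sec]

/-- The charts of the curve with a marked point replaced. -/
def Charted.rep {T : TC k} {C : Fam n k} (ct : Charted T C) (i₀ : Fin n) (q : Sp k ⟶ C.X)
    (hq : q ≫ C.π = 𝟙 _) : Charted T (C.rep i₀ q hq) where
  U1 := ct.U1
  U2 := ct.U2
  cover := ct.cover
  ac1 := ct.ac1
  ac2 := ct.ac2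
  ac12 := ct.ac12
  t1 := ct.t1
  t2 := ct.t2
  t12 := ct.t12
  b1 := ct.b1
  b2 := ct.b2
  b12 := ct.b12
  c1 := ct.c1
  c2 := ct.c2
  c12 := ct.c12
  r1 := ct.r1
  r2 := ct.r2

/-- The constant thickening of `X` over `k[ε]`. -/
noncomputable abbrev XE {X : Scheme.{0}} (π : X ⟶ Sp k) : Scheme.{0} :=
  pullback π (spMap (algebraMap k (Eps k)))

/-- A vector field, as an automorphism of `X[ε]` composed with the projection to `X`. -/
structure Flow {X : Scheme.{0}} (π : X ⟶ Sp k) where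
  /-- the morphism `X[ε] → X` -/
  θ : XE π ⟶ X
  hπ : θ ≫ π = pullback.snd _ _ ≫ spMap (algebraMap k (Eps k))
  h0 : ∀ z : X ⟶ XE π, z ≫ pullback.fst _ _ = 𝟙 _ → z ≫ pullback.snd _ _ = π ≫ spMap (eps0 k) →
    z ≫ θ = 𝟙 _

/-- The point moved by the vector field. -/
noncomputable def Flow.mov {X : Scheme.{0}} {π : X ⟶ Sp k} (Φ : Flow π) (σ : Sp k ⟶ X)
    (hσ : σ ≫ π = 𝟙 _) : Sp (Eps k) ⟶ X :=
  pullback.lift (spMap (algebraMap k (Eps k)) ≫ σ) (𝟙 _) (by
    rw [Category.assoc, hσ, Category.comp_id, Category.id_comp]) ≫ Φ.θ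

/-- In the coordinates `s`, the vector field is `s ↦ w`: `θ* s = s + ε w`. -/
def Flow.Has {X : Scheme.{0}} {π : X ⟶ Sp k} (Φ : Flow π) (U : X.Opens) (s w : Γ(X, U)) : Prop :=
  ∃ h : pullback.fst π (spMap (algebraMap k (Eps k))) ⁻¹ᵁ U ≤ Φ.θ ⁻¹ᵁ U,
    (Φ.θ.appLE U _ h).hom s =
      ((pullback.fst π (spMap (algebraMap k (Eps k)))).appLE U _ le_rfl).hom s +
      coef (pullback.snd π (spMap (algebraMap k (Eps k)))) _ (TrivSqZeroExt.inr 1) *
      ((pullback.fst π (spMap (algebraMap k (Eps k)))).appLE U _ le_rfl).hom w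

/-- The vector field vanishes nowhere. -/
def Flow.NV {X : Scheme.{0}} {π : X ⟶ Sp k} (Φ : Flow π) : Prop :=
  ∀ p : X, ∃ (U : X.Opens) (s w : Γ(X, U)), p ∈ U ∧ IsUnit w ∧ Φ.Has U s w

/-- The deformation `d` of `C` moves the marked point `i` along the vector field and nothing
else. -/
def IsMv {g : ℕ} {C : Fam n k} (Φ : Flow C.π) (i : Fin n) (d : Defo g C) : Prop :=
  ∃ f : d.y.X ⟶ C.X, IsPullback f d.y.π C.π (spMap (algebraMap k (Eps k))) ∧
    d.r.f ≫ f = 𝟙 _ ∧ (∀ j, j ≠ i → d.y.σ j ≫ f = spMap (algebraMap k (Eps k)) ≫ C.σ j) ∧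
    d.y.σ i ≫ f = Φ.mov (C.σ i) (C.sec i)

end

/-- REP: stability of curves with a marked point replaced, if another one is kept. -/
def Stmt_REP : Prop :=
  ∀ {n : ℕ} {k : Type} [Field k] [IsAlgClosed k] (g : ℕ) (C : Fam n k), IsStable g C →
    SmoothOfRelativeDimension 1 C.π → ∀ (T : TC k) (_ : Cht C T) (_ : Ell T) (i₀ j : Fin n),
    j ≠ i₀ → ∀ (q : Sp k ⟶ C.X) (hq : q ≫ C.π = 𝟙 _), (∀ i, i ≠ i₀ → q ≠ C.σ i) →
    IsStable g (C.rep i₀ q hq)

/-- MVX: existence of the deformation which moves one marked point. -/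
def Stmt_MVX : Prop :=
  ∀ {n : ℕ} {k : Type} [Field k] [IsAlgClosed k] (g : ℕ) (C : Fam n k), IsStable g C →
    SmoothOfRelativeDimension 1 C.π → ∀ (T : TC k) (_ : Cht C T) (_ : Ell T) (i j : Fin n),
    j ≠ i → ∀ Φ : Flow C.π, ∃ d : Defo g C, IsMv Φ i d

/-- MVV: the value of a covector at the deformation which moves one marked point. -/
def Stmt_MVV : Prop :=
  ∀ {n : ℕ} {k : Type} [Field k] {T : TC k} {C : Fam n k} (ct : Charted T C) (_ : ct.Aff)
    (s : Fin n → (T.R1 →ₐ[k] k)) (hs : ∀ i, ct.Is (C.σ i) (.one (s i)))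
    (E : CovData (fun i => Pt.one (s i))) (g : ℕ) (l : Cov g C),
    IsCov ct (fun i => .one (s i)) hs E l → ∀ (Φ : Flow C.π) (r0 : T.R1),
    Φ.Has ct.U1 (ct.t1 (1 ⊗ₜ T.x)) (ct.t1 (1 ⊗ₜ r0)) → ∀ (i : Fin n) (d : Defo g C),
    IsMv Φ i d → l.l d = E.ν i * s i r0

/-- VFE: the charts of a nowhere vanishing vector field. -/
def Stmt_VFE : Prop :=
  ∀ {n : ℕ} {k : Type} [Field k] {T : TC k} {C : Fam n k} (_ : Cht C T) (ct : Charted T C)
    (_ : ct.Aff) (Φ : Flow C.π), Φ.NV →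
    ∃ E : Ell T, Φ.Has ct.U1 (ct.t1 (1 ⊗ₜ T.x)) (ct.t1 (1 ⊗ₜ E.r0))

/-- GQ: a point in general position with respect to two charts. -/
def Stmt_GQ : Prop :=
  ∀ {n : ℕ} {k : Type} [Field k] [IsAlgClosed k] (C : Fam n k) (_ : IsProper C.π)
    (_ : SmoothOfRelativeDimension 1 C.π) (_ : ConnectedSpace C.X) (T T' : TC k)
    (ch : Cht C T) (C' : Fam n k) (f : C.X ⟶ C'.X) (_ : IsIso f) (_ : f ≫ C'.π = C.π)
    (ch' : Cht C' T'),
    ∃ q : Sp k ⟶ C.X, q ≫ C.π = 𝟙 _ ∧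
      (∃ φ : T.R1 →ₐ[k] k, q = tau ch.aff (.one φ) ∧ ∀ i, φ T.x ≠ ch.pt i T.x) ∧
      ∃ φ' : T'.R1 →ₐ[k] k, q ≫ f = tau ch'.aff (.one φ') ∧ ∀ i, φ' T'.x ≠ ch'.pt i T'.x

end Pool.Agent.MG
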