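import Pool.Agent.MG.StmtsB
import Pool.Agent.MG.UNI

/-!
# Proof of UNI
-/

open CategoryTheory CategoryTheory.Limits AlgebraicGeometry TensorProduct

namespace Pool.Agent.MG

theorem TC.e_mul {k : Type} [Field k] (T : TC k) (a : T.R12) (h : T.e * a = 0) : a = 0 := by
  have h1 : a = T.dd (T.j2 T.y) * (T.e * a) := by
    rw [← mul_assoc, mul_comm (T.dd _), T.ey, one_mul]
  rw [h1, h, mul_zero]

theorem stmt_UNI : Stmt_UNI := by
  intro k _ T h1 h2 h12
  obtain ⟨ι, D, hs⟩ := _root_.MG.Uni.exists_split (i1 := T.j1) (i2 := T.j2) (e := T.e) h1 h2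
    T.e_mul h12
  refine ⟨ι, D, ⟨hs.span, ?_⟩, ?_⟩
  · intro a b c h
    have hc : c = 0 := hs.ind c (-a) (-b) (by rw [map_neg, map_neg]; linear_combination h)
    subst hc
    rw [Finsupp.sum_zero_index, add_zero] at h
    have ha : a = 0 := h12 a (-b) (by rw [map_neg]; linear_combination h)
    subst ha
    rw [map_zero, zero_add] at h
    exact ⟨map_zero _, h, rfl⟩
  · intro n B _ _ s
    constructor
    · intro ν w
      let F1 : T.R1 →ₗ[k] B := -∑ i, (LinearMap.mulLeft k (ν i)).comp (s i).l1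
      let F2 : T.R2 →ₗ[k] B := ∑ i, (LinearMap.mulLeft k (ν i)).comp (s i).l2
      refine ⟨⟨hs.lift F1 F2 w, ν, ?_, ?_⟩, rfl, ?_⟩
      · intro a
        rw [hs.lift_one]
        simp [F1]
      · intro a
        rw [hs.lift_two]
        simp [F2]
      · intro a
        exact hs.lift_D F1 F2 w a
    · intro C C' hν hμ
      have e1 : C.μ = C'.μ := by
        apply hs.ext
        · intro r
          rw [eq_neg_of_add_eq_zero_left (C.m1 r), eq_neg_of_add_eq_zero_left (C'.m1 r), hν]
        · intro r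
          rw [C.m2 r, C'.m2 r, hν]
        · exact hμ
      rcases C with ⟨μ, ν, _, _⟩
      rcases C' with ⟨μ', ν', _, _⟩
      simp only at e1 hν
      subst e1
      subst hν
      rfl

end Pool.Agent.MG
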