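import Pool.Agent.MG.EllLem
import Pool.Agent.MG.UNIS

/-!
# Proof of UNI1: universal covector data in genus one (MP_cc45c1_ag)
-/

open CategoryTheory CategoryTheory.Limits AlgebraicGeometry TensorProduct

namespace Pool.Agent.MG

namespace UNI1

section

variable {k : Type} [Field k] {T : TC k}

/-- The map `(a, b) ↦ a + e b`. -/
noncomputable def Phi (T : TC k) : T.R1 × T.R2 →ₗ[k] T.R12 :=
  T.j1.toLinearMap.coprod ((LinearMap.mulLeft k T.e).comp T.j2.toLinearMap)

theorem Phi_apply (a : T.R1) (b : T.R2) : Phi T (a, b) = T.j1 a + T.e * T.j2 b := rfl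

/-- Its kernel. -/
theorem ker (E : Ell T) (h2 : Function.Injective T.j2)
    (h0 : ∀ a b, T.j1 a = T.j2 b → ∃ c : k, a = algebraMap k T.R1 c) (a : T.R1) (b : T.R2)
    (h : T.j1 a + T.e * T.j2 b = 0) : ∃ t : k, a = t • E.r0 ∧ b = -(t • E.s0) := by
  have h3 : T.j1 a = T.e * T.j2 (-b) := by
    rw [map_neg]
    linear_combination h
  obtain ⟨c, hc⟩ := Ell.one E h0 a (-b) h3
  have hc' : a = c • E.r0 := by rw [hc, Algebra.smul_def]
  refine ⟨c, hc', ?_⟩
  have h4 : T.e * (T.j2 (b + c • E.s0)) = 0 := by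
    have h5 : T.e * T.j2 b = -(c • T.j1 E.r0) := by
      rw [hc', map_smul] at h
      linear_combination h
    rw [map_add, map_smul, mul_add, h5, E.h, mul_smul_comm]
    exact neg_add_cancel _
  have h6 := T.e_mul _ h4
  have h7 : b + c • E.s0 = 0 := h2 (by rw [h6, map_zero])
  exact eq_neg_of_add_eq_zero_left h7

/-- Existence of the complement. -/
theorem exists_cpl (E : Ell T) (h2 : Function.Injective T.j2)
    (h0 : ∀ a b, T.j1 a = T.j2 b → ∃ c : k, a = algebraMap k T.R1 c) :
    ∃ (ι : Type) (D : ι → T.R12), Cpl1 E D := by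
  obtain ⟨W', hW'⟩ := Submodule.exists_isCompl (LinearMap.range (Phi T))
  let b := Module.Basis.ofVectorSpace k W'
  have key : ∀ c : (Module.Basis.ofVectorSpaceIndex k W') →₀ k,
      (c.sum fun i t => t • (b i : T.R12)) = ((Finsupp.linearCombination k b c : W') : T.R12) := by
    intro c
    rw [Finsupp.linearCombination_apply, Finsupp.sum, Finsupp.sum]
    simp
  refine ⟨_, fun i => (b i : T.R12), ⟨?_, ?_⟩⟩
  · intro x
    have hx : x ∈ LinearMap.range (Phi T) ⊔ W' := by rw [hW'.sup_eq_top]; trivial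
    obtain ⟨y, ⟨⟨r, s⟩, rfl⟩, z, hz, e1⟩ := Submodule.mem_sup.mp hx
    refine ⟨r, s, b.repr ⟨z, hz⟩, ?_⟩
    rw [key, b.linearCombination_repr, ← e1, Phi_apply]
  · intro r s c h
    rw [key] at h
    have h1 : ((Finsupp.linearCombination k b c : W') : T.R12) ∈ LinearMap.range (Phi T) := by
      refine ⟨(-r, -s), ?_⟩
      rw [Phi_apply, map_neg, map_neg]
      linear_combination -h
    have h3 : ((Finsupp.linearCombination k b c : W') : T.R12) = 0 :=
      Submodule.disjoint_def.mp hW'.disjoint _ h1 (Subtype.mem _)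
    refine ⟨linearIndependent_iff.mp b.linearIndependent c (Subtype.ext h3), ?_⟩
    rw [h3, add_zero] at h
    exact ker E h2 h0 r s h

/-- Functionals on `R12` with given values on the three parts. -/
theorem lift {E : Ell T} {ι : Type} {D : ι → T.R12} (hD : Cpl1 E D) {B : Type} [CommRing B]
    [Algebra k B] (F1 : T.R1 →ₗ[k] B) (F2 : T.R2 →ₗ[k] B) (w : ι → B)
    (hF : F1 E.r0 = F2 E.s0) :
    ∃ μ : T.R12 →ₗ[k] B, (∀ a, μ (T.j1 a) = F1 a) ∧ (∀ b, μ (T.e * T.j2 b) = F2 b) ∧
      ∀ i, μ (D i) = w i := by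
  let Ψ : (T.R1 × T.R2) × (ι →₀ k) →ₗ[k] T.R12 := (Phi T).coprod (Finsupp.linearCombination k D)
  let G : (T.R1 × T.R2) × (ι →₀ k) →ₗ[k] B :=
    (F1.coprod F2).coprod (Finsupp.linearCombination k w)
  have hs : Function.Surjective Ψ := by
    intro r
    obtain ⟨a, b, c, h⟩ := hD.gen r
    exact ⟨((a, b), c), h.symm⟩
  have hk : LinearMap.ker Ψ ≤ LinearMap.ker G := by
    rintro ⟨⟨a, b⟩, c⟩ h
    obtain ⟨h1, t, h2, h3⟩ := hD.ind a b c h
    rw [LinearMap.mem_ker]
    change F1 a + F2 b + Finsupp.linearCombination k w c = 0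
    rw [h1, h2, h3, map_zero, add_zero, map_smul, map_neg, map_smul, hF]
    exact add_neg_cancel _
  have hμ : ∀ x, ((LinearMap.ker Ψ).liftQ G hk).comp
      (Ψ.quotKerEquivOfSurjective hs).symm.toLinearMap (Ψ x) = G x := by
    intro x
    have h1 : (Ψ.quotKerEquivOfSurjective hs).symm (Ψ x) = (LinearMap.ker Ψ).mkQ x := by
      rw [LinearEquiv.symm_apply_eq]
      rfl
    rw [LinearMap.comp_apply, LinearEquiv.coe_coe, h1]
    exact Submodule.liftQ_apply _ _ _
  refine ⟨((LinearMap.ker Ψ).liftQ G hk).comp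
    (Ψ.quotKerEquivOfSurjective hs).symm.toLinearMap, ?_, ?_, ?_⟩
  · intro a
    have h1 : Ψ ((a, 0), 0) = T.j1 a := by
      change T.j1 a + T.e * T.j2 0 + Finsupp.linearCombination k D 0 = _
      rw [map_zero, map_zero, mul_zero, add_zero, add_zero]
    rw [← h1, hμ]
    change F1 a + F2 0 + Finsupp.linearCombination k w 0 = _
    rw [map_zero, map_zero, add_zero, add_zero]
  · intro b
    have h1 : Ψ ((0, b), 0) = T.e * T.j2 b := by
      change T.j1 0 + T.e * T.j2 b + Finsupp.linearCombination k D 0 = _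
      rw [map_zero, map_zero, zero_add, add_zero]
    rw [← h1, hμ]
    change F1 0 + F2 b + Finsupp.linearCombination k w 0 = _
    rw [map_zero, map_zero, zero_add, add_zero]
  · intro i
    have h1 : Ψ ((0, 0), Finsupp.single i 1) = D i := by
      change T.j1 0 + T.e * T.j2 0 + Finsupp.linearCombination k D (Finsupp.single i 1) = _
      rw [map_zero, map_zero, mul_zero, add_zero, zero_add, Finsupp.linearCombination_single,
        one_smul]
    rw [← h1, hμ]
    change F1 0 + F2 0 + Finsupp.linearCombination k w (Finsupp.single i 1) = _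
    rw [map_zero, map_zero, add_zero, zero_add, Finsupp.linearCombination_single, one_smul]

/-- Functionals are determined by their values on the three parts. -/
theorem ext {E : Ell T} {ι : Type} {D : ι → T.R12} (hD : Cpl1 E D) {B : Type} [CommRing B]
    [Algebra k B] {μ μ' : T.R12 →ₗ[k] B} (h1 : ∀ a, μ (T.j1 a) = μ' (T.j1 a))
    (h2 : ∀ b, μ (T.e * T.j2 b) = μ' (T.e * T.j2 b)) (h3 : ∀ i, μ (D i) = μ' (D i)) :
    μ = μ' := by
  ext x
  obtain ⟨a, b, c, rfl⟩ := hD.gen x
  rw [map_add, map_add, map_add, map_add, h1, h2, Finsupp.sum, map_sum, map_sum]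
  congr 1
  apply Finset.sum_congr rfl
  intro i _
  rw [map_smul, map_smul, h3]

/-- The value of the vector field at a point. -/
noncomputable def val (E : Ell T) {B : Type} [CommRing B] [Algebra k B] (p : Pt T B) : B :=
  p.l1 E.r0 + p.l2 E.s0

theorem val_unit (E : Ell T) {B : Type} [CommRing B] [Algebra k B] (p : Pt T B) :
    IsUnit (val E p) := by
  cases p with
  | one φ =>
    have h : val E (Pt.one φ) = φ E.r0 := by
      change φ E.r0 + 0 = _
      rw [add_zero]
    rw [h]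
    exact IsUnit.of_mul_eq_one (φ E.ri) (by rw [← map_mul, E.hr, map_one])
  | two ψ =>
    have h : val E (Pt.two ψ) = ψ E.s0 := by
      change 0 + ψ E.s0 = _
      rw [zero_add]
    rw [h]
    exact IsUnit.of_mul_eq_one (ψ E.si) (by rw [← map_mul, E.hs, map_one])

/-- The residue relation. -/
theorem res (E : Ell T) {n : ℕ} {B : Type} [CommRing B] [Algebra k B] {s : Fin n → Pt T B}
    (C : CovData s) : ∑ i, C.ν i * val E (s i) = 0 := by
  have h1 := C.m1 E.r0
  have h2 := C.m2 E.s0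
  rw [E.h, h2] at h1
  rw [← h1, ← Finset.sum_add_distrib]
  apply Finset.sum_congr rfl
  intro i _
  rw [val]
  ring

theorem sum_split {n : ℕ} {B : Type} [CommRing B] (i₀ : Fin n) (f : Fin n → B) :
    ∑ i, f i = f i₀ + ∑ i : {i : Fin n // i ≠ i₀}, f i.1 := by
  rw [Fintype.sum_eq_add_sum_subtype_ne f i₀]

end

end UNI1

open UNI1 in
/-- **UNI1.** -/
theorem t_UNI1 : Stmt_UNI1 := by
  intro k _ T E _ h2 h0
  obtain ⟨ι, D, hD⟩ := exists_cpl E h2 h0
  refine ⟨ι, D, hD, ?_⟩
  intro n B _ _ s i₀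
  constructor
  · intro ν w
    obtain ⟨u, hu⟩ := val_unit E (s i₀)
    let S : B := ∑ i : {i : Fin n // i ≠ i₀}, ν i * val E (s i.1)
    let ν' : Fin n → B := fun i => if h : i = i₀ then -(S * (u⁻¹ : Bˣ)) else ν ⟨i, h⟩
    have hν0 : ν' i₀ = -(S * (u⁻¹ : Bˣ)) := dif_pos rfl
    have hν1 : ∀ i : {i : Fin n // i ≠ i₀}, ν' i.1 = ν i := fun i => dif_neg i.2
    have hres : ∑ i, ν' i * val E (s i) = 0 := by
      rw [sum_split i₀ (fun i => ν' i * val E (s i)), hν0, ← hu]
      have h3 : (∑ i : {i : Fin n // i ≠ i₀}, ν' i.1 * val E (s i.1)) = S :=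
        Finset.sum_congr rfl fun i _ => by rw [hν1]
      rw [h3]
      have h4 : ((u⁻¹ : Bˣ) : B) * (u : B) = 1 := Units.inv_mul u
      linear_combination -S * h4
    let F1 : T.R1 →ₗ[k] B := -∑ i, (LinearMap.mulLeft k (ν' i)).comp (s i).l1
    let F2 : T.R2 →ₗ[k] B := ∑ i, (LinearMap.mulLeft k (ν' i)).comp (s i).l2
    have hF1 : ∀ a, F1 a = -∑ i, ν' i * (s i).l1 a := by
      intro a
      simp [F1]
    have hF2 : ∀ a, F2 a = ∑ i, ν' i * (s i).l2 a := by
      intro a
      simp [F2]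
    have hF : F1 E.r0 = F2 E.s0 := by
      rw [hF1, hF2]
      have h5 : (∑ i, ν' i * (s i).l1 E.r0) + ∑ i, ν' i * (s i).l2 E.s0 = 0 := by
        rw [← hres, ← Finset.sum_add_distrib]
        apply Finset.sum_congr rfl
        intro i _
        rw [val]
        ring
      linear_combination -h5
    obtain ⟨μ, hμ1, hμ2, hμ3⟩ := UNI1.lift hD F1 F2 w hF
    refine ⟨⟨μ, ν', ?_, ?_⟩, ?_, hμ3⟩
    · intro a
      rw [hμ1, hF1]
      exact neg_add_cancel _
    · intro a
      rw [hμ2, hF2]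
    · exact hν1
  · intro C C' hν hμ
    have h0' : C.ν i₀ = C'.ν i₀ := by
      have r1 := res E C
      have r2 := res E C'
      rw [sum_split i₀ (fun i => C.ν i * val E (s i))] at r1
      rw [sum_split i₀ (fun i => C'.ν i * val E (s i))] at r2
      have h3 : (∑ i : {i : Fin n // i ≠ i₀}, C.ν i.1 * val E (s i.1)) =
          ∑ i : {i : Fin n // i ≠ i₀}, C'.ν i.1 * val E (s i.1) :=
        Finset.sum_congr rfl fun i _ => by rw [hν i.1 i.2]
      rw [h3] at r1
      have h4 : C.ν i₀ * val E (s i₀) = C'.ν i₀ * val E (s i₀) := by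
        linear_combination r1 - r2
      exact (val_unit E (s i₀)).mul_right_cancel h4
    have hν' : C.ν = C'.ν := by
      funext i
      by_cases h : i = i₀
      · rw [h, h0']
      · exact hν i h
    have e1 : C.μ = C'.μ := by
      apply UNI1.ext hD
      · intro r
        rw [eq_neg_of_add_eq_zero_left (C.m1 r), eq_neg_of_add_eq_zero_left (C'.m1 r), hν']
      · intro r
        rw [C.m2 r, C'.m2 r, hν']
      · exact hμ
    rcases C with ⟨μ, ν, _, _⟩
    rcases C' with ⟨μ', ν', _, _⟩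
    simp only at e1 hν'
    subst e1
    subst hν'
    rfl

end Pool.Agent.MG
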