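import Mathlib

universe u

namespace Pool.Agent.MG.Two

open Polynomial

section
variable {k A : Type u} [Field k] [IsAlgClosed k] [CommRing A] [IsDomain A] [Algebra k A]
  [Algebra.FiniteType k A]

omit [IsDomain A] in
lemma exists_sub_mem (M : Ideal A) [M.IsMaximal] (a : A) : ∃ c : k, a - algebraMap k A c ∈ M := by
  let _ : Field (A ⧸ M) := Ideal.Quotient.field M
  have : Algebra.FiniteType k (A ⧸ M) := inferInstance
  have hfin : Module.Finite k (A ⧸ M) := finite_of_finite_type_of_isJacobsonRing k (A ⧸ M)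
  obtain ⟨c, hc⟩ := (IsAlgClosed.algebraMap_bijective_of_isIntegral (k := k) (K := A ⧸ M)).2
    (Ideal.Quotient.mk M a)
  refine ⟨c, ?_⟩
  rw [← Ideal.Quotient.eq_zero_iff_mem, map_sub, sub_eq_zero]
  exact hc.symm

variable [Algebra k[X] A] [IsScalarTower k k[X] A]

omit [IsAlgClosed k] [Algebra k A] [Algebra.FiniteType k A] [IsScalarTower k k[X] A] in
lemma flat_of_injective (hinj : Function.Injective (algebraMap k[X] A)) :
    Module.Flat k[X] A := by
  have : FaithfulSMul k[X] A := (faithfulSMul_iff_algebraMap_injective _ _).mpr hinj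
  have : Module.IsTorsionFree k[X] A := inferInstance
  infer_instance

omit [IsAlgClosed k] [IsDomain A] [Algebra.FiniteType k A] in
lemma algebraMap_X_sub_C (c : k) : algebraMap k[X] A (X - C c) =
    algebraMap k[X] A X - algebraMap k A c := by
  rw [map_sub, IsScalarTower.algebraMap_apply k k[X] A]
  rfl

/-- If `x - c` generates the maximal ideal locally, then `k[x] → A` is étale at `M`. -/
lemma isEtaleAt (hinj : Function.Injective (algebraMap k[X] A)) (M : Ideal A) [hM : M.IsMaximal]
    (c : k) (hc : algebraMap k[X] A (X - C c) ∈ M)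
    (hgen : (Ideal.span {algebraMap k[X] A (X - C c)}).map
      (algebraMap A (Localization.AtPrime M)) = IsLocalRing.maximalIdeal _) :
    Algebra.IsEtaleAt k[X] M := by
  have hft : Algebra.FiniteType k[X] A := Algebra.FiniteType.of_restrictScalars_finiteType k _ _
  have hfp : Algebra.FinitePresentation k[X] A :=
    Algebra.FinitePresentation.of_finiteType.mp hft
  have := flat_of_injective (k := k) hinj
  set p : Ideal k[X] := M.under k[X] with hp
  have hpp : p.IsPrime := inferInstance
  have hmemp : X - C c ∈ p := hc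
  have hpe : p = Ideal.span {X - C c} := by
    have hmax : (Ideal.span {(X - C c : k[X])}).IsMaximal := by
      apply PrincipalIdealRing.isMaximal_of_irreducible
      exact irreducible_X_sub_C c
    symm
    apply hmax.eq_of_le hpp.ne_top
    rw [Ideal.span_singleton_le_iff_mem]
    exact hmemp
  let := Localization.AtPrime.algebraOfLiesOver p M
  have hur : Algebra.IsUnramifiedAt k[X] M := by
    rw [Algebra.isUnramifiedAt_iff_map_eq k[X] p M]
    constructor
    · have hsurj : Function.Surjective (algebraMap p.ResidueField M.ResidueField) := by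
        intro z
        obtain ⟨a, rfl⟩ := Ideal.algebraMap_residueField_surjective M z
        obtain ⟨d, hd⟩ := exists_sub_mem (k := k) M a
        refine ⟨algebraMap k[X] p.ResidueField (C d), ?_⟩
        rw [← IsScalarTower.algebraMap_apply k[X] p.ResidueField M.ResidueField,
          IsScalarTower.algebraMap_apply k[X] A M.ResidueField, ← sub_eq_zero, ← map_sub,
          Ideal.algebraMap_residueField_eq_zero]
        have : algebraMap k[X] A (C d) = algebraMap k A d := by
          rw [IsScalarTower.algebraMap_apply k k[X] A]; rfl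
        rw [this, ← neg_sub, neg_mem_iff]
        exact hd
      refine ⟨fun z => ?_⟩
      obtain ⟨w, rfl⟩ := hsurj z
      exact isSeparable_algebraMap w
    · rw [hpe, Ideal.map_span, Set.image_singleton, ← hgen, Ideal.map_span, Set.image_singleton,
        ← IsScalarTower.algebraMap_apply]
  exact Algebra.IsEtaleAt.of_isUnramifiedAt_of_flat M

end

section
variable {k A : Type u} [Field k] [IsAlgClosed k] [CommRing A] [Algebra k A]
  [Algebra.FiniteType k A]

omit [Algebra.FiniteType k A] in
lemma exists_algebraMap_eq_of_isAlgebraic [IsDomain A] (x : A) (hx : IsAlgebraic k x) :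
    ∃ d : k, algebraMap k A d = x := by
  have hxi : IsIntegral k x := hx.isIntegral
  obtain ⟨d, hd⟩ := (IsAlgClosed.algebraMap_bijective_of_isIntegral (k := k)
    (K := integralClosure k A)).2 ⟨x, hxi⟩
  exact ⟨d, congrArg Subtype.val hd⟩

omit [IsAlgClosed k] [Algebra.FiniteType k A] in
lemma eq_of_algebraMap_sub_mem (M : Ideal A) [hM : M.IsMaximal] {a b : k}
    (h : algebraMap k A (a - b) ∈ M) : a = b := by
  by_contra hne
  have hu : IsUnit (algebraMap k A (a - b)) := (sub_ne_zero.mpr hne).isUnit.map _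
  exact hM.ne_top (M.eq_top_of_isUnit_mem h hu)

lemma exists_mem_forall_notMem {A : Type u} [CommRing A] {ι κ : Type*} [Finite ι] [Nonempty ι]
    [Fintype κ] (M : ι → Ideal A) (hM : ∀ i, (M i).IsPrime) (I J : Ideal A) (K : κ → Ideal A)
    (hI : ∀ i, ¬ I ≤ M i) (hJ : ∀ i, ¬ J ≤ M i) (hK : ∀ j i, ¬ K j ≤ M i) :
    ∃ b ∈ I, b ∈ J ∧ (∀ j, b ∈ K j) ∧ ∀ i, b ∉ M i := by
  classical
  let _ := Fintype.ofFinite ι
  set N : Ideal A := I * (J * ∏ i, K i) with hN
  have hNI : N ≤ I := Ideal.mul_le_left
  have hN2 : N ≤ J * ∏ i, K i := Ideal.mul_le_right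
  have hNJ : N ≤ J := hN2.trans Ideal.mul_le_left
  have hNP : N ≤ ∏ i, K i := hN2.trans Ideal.mul_le_right
  have hNK : ∀ j, N ≤ K j := fun j =>
    (hNP.trans Ideal.prod_le_inf).trans (Finset.inf_le (Finset.mem_univ j))
  have hb : ∃ b ∈ N, ∀ i, b ∉ M i := by
    by_contra hcon
    push Not at hcon
    have h1 : (N : Set A) ⊆ ⋃ i ∈ ((Finset.univ : Finset ι) : Set ι), (M i : Set A) := by
      intro b hb
      obtain ⟨i, hi⟩ := hcon b hb
      simp only [Finset.coe_univ, Set.mem_univ, Set.iUnion_true, Set.mem_iUnion]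
      exact ⟨i, hi⟩
    obtain ⟨i0⟩ := ‹Nonempty ι›
    obtain ⟨i, -, hi⟩ := (Ideal.subset_union_prime (s := Finset.univ) (f := M) i0 i0
      (fun i _ _ _ => hM i)).mp h1
    have hpr := hM i
    rcases hpr.mul_le.mp hi with h2 | h2
    · exact hI i h2
    rcases hpr.mul_le.mp h2 with h3 | h3
    · exact hJ i h3
    obtain ⟨j, -, hj⟩ := hpr.prod_le.mp h3
    exact hK j i hj
  obtain ⟨b, hb, hbM⟩ := hb
  exact ⟨b, hNI hb, hNJ hb, fun j => hNK j hb, hbM⟩

theorem exists_etale_coord [IsDedekindDomain A] {ι : Type*} [Finite ι] [Nonempty ι]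
    (M : ι → Ideal A) (hM : ∀ i, (M i).IsMaximal) (hMinj : Function.Injective M)
    (hbot : ∀ i, M i ≠ ⊥) (I : Ideal A) (hI : ∀ i, ¬ I ≤ M i) :
    ∃ (x b : A) (c : ι → k), b ∈ I ∧ (∀ i, b ∉ M i) ∧ Function.Injective c ∧
      (∀ i, x - algebraMap k A (c i) ∈ M i) ∧
      (∀ i, ∀ r ∈ M i, ∃ s, b * r = (x - algebraMap k A (c i)) * s) ∧
      ((algebraMap A (Localization.Away b)).comp (aeval x : k[X] →ₐ[k] A).toRingHom).Etale := by
  classical
  have hinf : Infinite k := IsAlgClosed.instInfinite
  let _ := Fintype.ofFinite ι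
  obtain ⟨c, hc⟩ : ∃ c : ι → k, Function.Injective c := by
    refine ⟨fun i => Infinite.natEmbedding k (Finite.equivFin ι i), ?_⟩
    intro i j hij
    exact (Finite.equivFin ι).injective (Fin.val_injective ((Infinite.natEmbedding k).injective hij))
  have hpi : ∀ i, ∃ z ∈ M i, z ∉ (M i) ^ 2 := by
    intro i
    obtain ⟨z, hz, hz2⟩ := Ideal.exists_mem_pow_notMem_pow_succ (M i) (hbot i) (hM i).ne_top 1
    exact ⟨z, by simpa using hz, hz2⟩
  choose z hz hz2 using hpi
  obtain ⟨x, hx⟩ := IsDedekindDomain.exists_forall_sub_mem_ideal (s := Finset.univ) M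
    (fun _ => 2) (fun i _ => Ideal.prime_of_isPrime (hbot i) (hM i).isPrime)
    (fun i _ j _ hij h => hij (hMinj h)) (fun i => algebraMap k A (c i) + z i)
  have hx' : ∀ i, x - (algebraMap k A (c i) + z i) ∈ (M i) ^ 2 := fun i => hx i (Finset.mem_univ i)
  have hxM : ∀ i, x - algebraMap k A (c i) ∈ M i := by
    intro i
    have h1 := (M i).add_mem (Ideal.pow_le_self (two_ne_zero) (hx' i)) (hz i)
    rwa [show x - (algebraMap k A (c i) + z i) + z i = x - algebraMap k A (c i) by ring] at h1
  have hxM2 : ∀ i, x - algebraMap k A (c i) ∉ (M i) ^ 2 := by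
    intro i h
    apply hz2 i
    have h1 := ((M i) ^ 2).sub_mem h (hx' i)
    rwa [show x - algebraMap k A (c i) - (x - (algebraMap k A (c i) + z i)) = z i by ring] at h1
  let _ : Algebra k[X] A := (aeval x : k[X] →ₐ[k] A).toRingHom.toAlgebra
  have hst : IsScalarTower k k[X] A := IsScalarTower.of_algebraMap_eq' (by
    ext a
    change algebraMap k A a = aeval x (C a)
    simp)
  have hX : algebraMap k[X] A X = x := by
    change aeval x X = x
    simp
  have hinj : Function.Injective (algebraMap k[X] A) := by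
    rw [injective_iff_map_eq_zero]
    intro p hp
    by_contra hp0
    have halg : IsAlgebraic k x := ⟨p, hp0, hp⟩
    obtain ⟨d, hd⟩ := exists_algebraMap_eq_of_isAlgebraic x halg
    obtain ⟨i⟩ := ‹Nonempty ι›
    have h1 : algebraMap k A (d - c i) ∈ M i := by
      rw [map_sub, hd]; exact hxM i
    have := hM i
    have h2 := eq_of_algebraMap_sub_mem (M i) h1
    apply hxM2 i
    rw [← hd, h2, sub_self]
    exact zero_mem _
  have hK : ∀ i, ∃ K : Ideal A, Ideal.span {x - algebraMap k A (c i)} = M i * K := by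
    intro i
    have h1 : M i ∣ Ideal.span {x - algebraMap k A (c i)} := by
      rw [Ideal.dvd_iff_le, Ideal.span_singleton_le_iff_mem]
      exact hxM i
    obtain ⟨K, hK⟩ := h1
    exact ⟨K, hK⟩
  choose K hK using hK
  have hKi : ∀ i, ¬ K i ≤ M i := by
    intro i h
    apply hxM2 i
    rw [← Ideal.span_singleton_le_iff_mem, hK, pow_two]
    exact Ideal.mul_mono_right h
  have hKj : ∀ i j, ¬ K i ≤ M j := by
    intro i j h
    by_cases hij : i = j
    · subst hij; exact hKi i h
    · have h1 : x - algebraMap k A (c i) ∈ M j := by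
        apply h
        have h0 : M i * K i ≤ K i := Ideal.mul_le_right
        apply h0
        rw [← hK]
        exact Ideal.mem_span_singleton_self _
      have h2 := (M j).sub_mem h1 (hxM j)
      rw [show x - algebraMap k A (c i) - (x - algebraMap k A (c j)) =
        algebraMap k A (c j - c i) by rw [map_sub]; ring] at h2
      have := hM j
      exact hij (hc (eq_of_algebraMap_sub_mem (M j) h2).symm)
  have hgen : ∀ i, (Ideal.span {algebraMap k[X] A (X - C (c i))}).map
      (algebraMap A (Localization.AtPrime (M i))) = IsLocalRing.maximalIdeal _ := by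
    intro i
    rw [algebraMap_X_sub_C, hX, hK, Ideal.map_mul, Localization.AtPrime.map_eq_maximalIdeal]
    have h1 : (K i).map (algebraMap A (Localization.AtPrime (M i))) = ⊤ := by
      obtain ⟨a, haK, haM⟩ := Set.not_subset.mp (hKi i)
      apply Ideal.eq_top_of_isUnit_mem _ (Ideal.mem_map_of_mem _ haK)
      exact IsLocalization.map_units (Localization.AtPrime (M i)) (⟨a, haM⟩ : (M i).primeCompl)
    rw [h1, Ideal.mul_top]
  have hft : Algebra.FiniteType k[X] A := Algebra.FiniteType.of_restrictScalars_finiteType k _ _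
  have hfp : Algebra.FinitePresentation k[X] A :=
    Algebra.FinitePresentation.of_finiteType.mp hft
  have hloc : ∀ i, (⟨M i, (hM i).isPrime⟩ : PrimeSpectrum A) ∈ Algebra.etaleLocus k[X] A := by
    intro i
    have := hM i
    rw [Algebra.mem_etaleLocus_iff]
    refine isEtaleAt (k := k) hinj (M i) (c i) ?_ (hgen i)
    rw [algebraMap_X_sub_C, hX]
    exact hxM i
  set J : Ideal A := PrimeSpectrum.vanishingIdeal (Algebra.etaleLocus k[X] A)ᶜ with hJ
  have hJz : PrimeSpectrum.zeroLocus (J : Set A) = (Algebra.etaleLocus k[X] A)ᶜ := by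
    rw [hJ, PrimeSpectrum.zeroLocus_vanishingIdeal_eq_closure]
    exact (Algebra.isOpen_etaleLocus.isClosed_compl).closure_eq
  have hJi : ∀ i, ¬ J ≤ M i := by
    intro i h
    have h1 : (⟨M i, (hM i).isPrime⟩ : PrimeSpectrum A) ∈ PrimeSpectrum.zeroLocus (J : Set A) := h
    rw [hJz] at h1
    exact h1 (hloc i)
  obtain ⟨b, hbI, hbJ, hbK, hbM⟩ := exists_mem_forall_notMem M (fun i => (hM i).isPrime) I J K
    hI hJi hKj
  refine ⟨x, b, c, hbI, hbM, hc, hxM, ?_, ?_⟩
  · intro i r hr
    have h1 : b * r ∈ Ideal.span {x - algebraMap k A (c i)} := by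
      rw [hK, mul_comm b r]
      exact Ideal.mul_mem_mul hr (hbK i)
    obtain ⟨s, hs⟩ := Ideal.mem_span_singleton'.mp h1
    exact ⟨s, by rw [← hs, mul_comm]⟩
  · have h1 : ↑(PrimeSpectrum.basicOpen b) ⊆ Algebra.etaleLocus k[X] A := by
      intro q hq
      by_contra hq2
      have h2 : q ∈ PrimeSpectrum.zeroLocus (J : Set A) := by rw [hJz]; exact hq2
      exact hq (h2 hbJ)
    have h2 : Algebra.Etale k[X] (Localization.Away b) :=
      Algebra.basicOpen_subset_etaleLocus_iff_etale.mp h1
    rw [← RingHom.etale_algebraMap, IsScalarTower.algebraMap_eq k[X] A (Localization.Away b)] at h2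
    exact h2

end

end Pool.Agent.MG.Two
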