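import Pool.Agent.MG.TwoReg
import Pool.Agent.MG.TwoCoord

open AlgebraicGeometry CategoryTheory TopologicalSpace Opposite IsLocalRing

universe u

namespace Pool.Agent.MG.Two

open Polynomial

variable {X : Scheme.{u}} {k : Type u} [Field k] (π : X ⟶ Spec (.of k))

lemma mem_primeIdealOf_iff {V : X.Opens} (hV : IsAffineOpen V) (x : X) (hx : x ∈ V)
    (a : Γ(X, V)) : a ∈ (hV.primeIdealOf ⟨x, hx⟩).asIdeal ↔ x ∉ X.basicOpen a := by
  have h1 := hV.fromSpec_primeIdealOf ⟨x, hx⟩
  have h2 := hV.fromSpec_preimage_basicOpen a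
  rw [← not_iff_not, not_not]
  have h3 : (hV.primeIdealOf ⟨x, hx⟩) ∈ hV.fromSpec ⁻¹ᵁ X.basicOpen a ↔
      hV.fromSpec (hV.primeIdealOf ⟨x, hx⟩) ∈ X.basicOpen a := Iff.rfl
  rw [h1, h2] at h3
  exact h3

lemma primeIdealOf_injective {V : X.Opens} (hV : IsAffineOpen V) :
    Function.Injective hV.primeIdealOf := by
  intro x y h
  apply Subtype.ext
  rw [← hV.fromSpec_primeIdealOf x, ← hV.fromSpec_primeIdealOf y, h]

lemma primeIdealOf_ne_bot [IsIntegral X] {V : X.Opens} (hV : IsAffineOpen V) (x : X) (hx : x ∈ V)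
    (hgen : x ≠ genericPoint X) : (hV.primeIdealOf ⟨x, hx⟩).asIdeal ≠ ⊥ := by
  intro h
  have hne : Nonempty V := ⟨⟨x, hx⟩⟩
  have h1 : hV.primeIdealOf ⟨x, hx⟩ = (⊥ : PrimeSpectrum Γ(X, V)) := PrimeSpectrum.ext h
  have h2 := hV.primeIdealOf_genericPoint
  rw [genericPoint_eq_bot_of_affine] at h2
  rw [← h2] at h1
  have h3 := primeIdealOf_injective hV h1
  exact hgen (congrArg Subtype.val h3)

lemma isMaximal_primeIdealOf [IsIntegral X]
    (hpir : ∀ x : X, IsPrincipalIdealRing (X.presheaf.stalk x)) {V : X.Opens}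
    (hV : IsAffineOpen V) (x : X) (hx : x ∈ V)
    (hgen : x ≠ genericPoint X) : (hV.primeIdealOf ⟨x, hx⟩).asIdeal.IsMaximal := by
  have hne : Nonempty V := ⟨⟨x, hx⟩⟩
  have := dimensionLEOne_of_isAffineOpen hpir hV
  exact Ring.DimensionLEOne.maximalOfPrime (primeIdealOf_ne_bot hV x hx hgen)
    (hV.primeIdealOf ⟨x, hx⟩).isPrime

lemma noetherian_sections [LocallyOfFiniteType π] {V : X.Opens} (hV : IsAffineOpen V) :
    IsNoetherianRing Γ(X, V) := by
  have hln : IsLocallyNoetherian X := LocallyOfFiniteType.isLocallyNoetherian π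
  exact hln.component_noetherian ⟨V, hV⟩

lemma finite_inter_compl [IsIntegral X] [LocallyOfFiniteType π]
    (hpir : ∀ x : X, IsPrincipalIdealRing (X.presheaf.stalk x)) (V : X.Opens)
    [hne : Nonempty V] {U : X.Opens} (hU : IsAffineOpen U) :
    ((U : Set X) ∩ (V : Set X)ᶜ).Finite := by
  by_cases hUne : Nonempty U
  swap
  · have : (U : Set X) = ∅ := by
      rw [Set.eq_empty_iff_forall_notMem]
      intro x hx
      exact hUne ⟨⟨x, hx⟩⟩
    rw [this, Set.empty_inter]
    exact Set.finite_empty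
  have := dimensionLEOne_of_isAffineOpen hpir hU
  have := noetherian_sections π hU
  set Z : Set (PrimeSpectrum Γ(X, U)) := {Q | hU.fromSpec Q ∉ V} with hZ
  have hZc : IsClosed Z :=
    (V.isOpen.preimage hU.fromSpec.continuous).isClosed_compl
  obtain ⟨I, hI⟩ := (PrimeSpectrum.isClosed_iff_zeroLocus_ideal Z).mp hZc
  have hIne : I ≠ ⊥ := by
    rintro rfl
    have hgV : genericPoint X ∈ V := ((genericPoint_spec X).mem_open_set_iff V.isOpen).mpr
      (by simpa using hne)
    have hgU : genericPoint X ∈ U := ((genericPoint_spec X).mem_open_set_iff U.isOpen).mpr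
      (by simpa using hUne)
    have h1 : hU.primeIdealOf ⟨_, hgU⟩ ∈ Z := by
      rw [hI]
      intro a ha
      have : a = 0 := ha
      rw [this]
      exact zero_mem _
    apply h1
    have h2 := hU.fromSpec_primeIdealOf ⟨_, hgU⟩
    rw [h2]
    exact hgV
  obtain ⟨a, haI, ha⟩ := Submodule.exists_mem_ne_zero_of_ne_bot hIne
  have hfin := finite_primes_containing a ha
  refine (hfin.image (fun Q => hU.fromSpec Q)).subset ?_
  rintro x ⟨hxU, hxV⟩
  refine ⟨hU.primeIdealOf ⟨x, hxU⟩, ?_, hU.fromSpec_primeIdealOf ⟨x, hxU⟩⟩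
  have h1 : hU.primeIdealOf ⟨x, hxU⟩ ∈ Z := by
    intro h
    apply hxV
    have h2 : hU.fromSpec (hU.primeIdealOf ⟨x, hxU⟩) ∈ V := h
    rwa [hU.fromSpec_primeIdealOf] at h2
  rw [hI] at h1
  exact h1 haI

lemma finite_compl [IsIntegral X] [LocallyOfFiniteType π] [CompactSpace X]
    (hpir : ∀ x : X, IsPrincipalIdealRing (X.presheaf.stalk x)) (V : X.Opens)
    [hne : Nonempty V] : ((V : Set X)ᶜ).Finite := by
  obtain ⟨s, hs, he⟩ := isCompact_iff_finite_and_eq_biUnion_affineOpens.mp
    (show IsCompact ((⊤ : X.Opens) : Set X) from isCompact_univ)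
  have h1 : (V : Set X)ᶜ ⊆ ⋃ U ∈ s, ((U : X.Opens) : Set X) ∩ (V : Set X)ᶜ := by
    intro x hx
    have hxt : x ∈ (⊤ : X.Opens) := trivial
    rw [he] at hxt
    simp only [Opens.mem_iSup] at hxt
    obtain ⟨U, hU, hxU⟩ := hxt
    simp only [Set.mem_iUnion]
    exact ⟨U, hU, hxU, hx⟩
  exact (hs.biUnion fun U _ => finite_inter_compl π hpir V U.2).subset h1

lemma isDedekindDomain_sections [IsIntegral X] [LocallyOfFiniteType π]
    (hpir : ∀ x : X, IsPrincipalIdealRing (X.presheaf.stalk x)) {V : X.Opens}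
    (hV : IsAffineOpen V) [Nonempty V] : IsDedekindDomain Γ(X, V) := by
  have hn := noetherian_sections π hV
  have hd : IsDedekindDomainDvr Γ(X, V) :=
    { is_dvr_at_nonzero_prime := by
        intro P hP hPp
        have h1 := pir_localization hpir hV P
        refine { not_a_field' := ?_ }
        intro h
        apply hP
        have h2 : (IsLocalRing.maximalIdeal (Localization.AtPrime P)).comap
            (algebraMap Γ(X, V) (Localization.AtPrime P)) = P :=
          IsLocalization.AtPrime.under_maximalIdeal (Localization.AtPrime P) P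
        rw [← h2, h]
        exact (RingHom.injective_iff_ker_eq_bot _).mp
          (IsLocalization.injective _ P.primeCompl_le_nonZeroDivisors) }
  infer_instance

end Pool.Agent.MG.Two
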