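import Pool.Agent.MG.TwoSmB
import Pool.Agent.MG.TwoPts

open AlgebraicGeometry CategoryTheory TopologicalSpace Opposite IsLocalRing

universe u

namespace Pool.Agent.MG.Two

open Polynomial

section irred
variable {X : Scheme.{u}}

lemma exists_common_generization (x : X) [IsDomain (X.presheaf.stalk x)] :
    ∃ ξ : X, ∀ y : X, y ⤳ x → ξ ⤳ y := by
  refine ⟨X.fromSpecStalk x (⊥ : PrimeSpectrum (X.presheaf.stalk x)), fun y hy => ?_⟩
  have h1 : y ∈ Set.range (X.fromSpecStalk x) := by
    rw [Scheme.range_fromSpecStalk]; exact hy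
  obtain ⟨z, rfl⟩ := h1
  have h2 := (PrimeSpectrum.le_iff_specializes (⊥ : PrimeSpectrum (X.presheaf.stalk x)) z).mp bot_le
  exact h2.map (X.fromSpecStalk x).continuous

lemma irreducibleComponents_eq_of_mem [∀ x : X, IsDomain (X.presheaf.stalk x)] {Z Z' : Set X}
    (hZ : Z ∈ irreducibleComponents X) (hZ' : Z' ∈ irreducibleComponents X) {x : X}
    (hx : x ∈ Z) (hx' : x ∈ Z') : Z = Z' := by
  obtain ⟨ξ, hξ⟩ := exists_common_generization x
  have key : ∀ {W : Set X}, W ∈ irreducibleComponents X → x ∈ W → W = closure {ξ} := by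
    intro W hW hxW
    have hWi : IsIrreducible W := hW.1
    have hWc : IsClosed W := isClosed_of_mem_irreducibleComponents W hW
    obtain ⟨η, hη⟩ := QuasiSober.sober hWi hWc
    have h1 : η ⤳ x := by
      rw [specializes_iff_mem_closure, hη]
      exact hxW
    have h2 : ξ ⤳ η := hξ η h1
    have h3 : W ⊆ closure {ξ} := by
      rw [← hη]
      exact h2.closure_subset
    have h4 : IsIrreducible (closure {ξ} : Set X) := isIrreducible_singleton.closure
    exact Set.Subset.antisymm h3 (hW.2 h4 h3)
  rw [key hZ hx, key hZ' hx']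

theorem irreducibleSpace_of_stalks [∀ x : X, IsDomain (X.presheaf.stalk x)] [ConnectedSpace X]
    [NoetherianSpace X] : IrreducibleSpace X := by
  obtain ⟨x0⟩ : Nonempty X := inferInstance
  set Z := irreducibleComponent x0 with hZdef
  have hZ : Z ∈ irreducibleComponents X := irreducibleComponent_mem_irreducibleComponents x0
  have hfin : (irreducibleComponents X).Finite := NoetherianSpace.finite_irreducibleComponents
  have hcompl : Zᶜ = ⋃ W ∈ (irreducibleComponents X \ {Z}), W := by
    ext y
    simp only [Set.mem_compl_iff, Set.mem_iUnion]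
    constructor
    · intro hy
      refine ⟨irreducibleComponent y, ⟨irreducibleComponent_mem_irreducibleComponents y, ?_⟩,
        mem_irreducibleComponent⟩
      intro h
      apply hy
      have : irreducibleComponent y = Z := h
      rw [← this]
      exact mem_irreducibleComponent
    · rintro ⟨W, ⟨hW, hne⟩, hyW⟩ hyZ
      exact hne (irreducibleComponents_eq_of_mem hW hZ hyW hyZ)
  have hopen : IsOpen Z := by
    rw [← isClosed_compl_iff, hcompl]
    exact (hfin.subset Set.sdiff_subset).isClosed_biUnion
      (fun W hW => isClosed_of_mem_irreducibleComponents W hW.1)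
  have hclopen : IsClopen Z := ⟨isClosed_of_mem_irreducibleComponents Z hZ, hopen⟩
  have huniv : Z = Set.univ := hclopen.eq_univ ⟨x0, mem_irreducibleComponent⟩
  have hirr : IsIrreducible (Set.univ : Set X) := huniv ▸ hZ.1
  exact (irreducibleSpace_def X).mpr hirr

end irred

variable {X : Scheme.{u}} {k : Type u} [Field k] (π : X ⟶ Spec (.of k))

/-- Around every point of a smooth curve there is an étale coordinate. -/
theorem exists_local_coord [SmoothOfRelativeDimension 1 π] (x : X) :
    ∃ (V : X.Opens) (_ : x ∈ V) (_ : IsAffineOpen V) (t : Γ(X, V)),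
      (Polynomial.eval₂RingHom (kmap π V) t).Etale := by
  obtain ⟨U, hU, V, hV, hx, e, h⟩ :=
    SmoothOfRelativeDimension.exists_isStandardSmoothOfRelativeDimension (n := 1) (f := π) x
  have hUtop : U = ⊤ := by
    ext y
    simp only [SetLike.mem_coe, Opens.coe_top, Set.mem_univ, iff_true]
    have h1 : y = π x := Subsingleton.elim _ _
    rw [h1]
    exact e hx
  subst hUtop
  have h1 : (kmap π V).IsStandardSmoothOfRelativeDimension 1 := by
    have h2 := (RingHom.isStandardSmoothOfRelativeDimension_respectsIso (n := 1)).2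
      (π.appLE ⊤ V e).hom (Scheme.ΓSpecIso (.of k)).symm.commRingCatIsoToRingEquiv h
    exact h2
  let _ : Algebra k Γ(X, V) := (kmap π V).toAlgebra
  have h2 : Algebra.IsStandardSmoothOfRelativeDimension 1 k Γ(X, V) := h1
  have hne : Nonempty V := ⟨⟨x, hx⟩⟩
  have hnt : Nontrivial Γ(X, V) := inferInstance
  obtain ⟨t, ht⟩ := exists_etale_polynomial (k := k) (A := Γ(X, V))
  exact ⟨V, hx, hV, t, ht⟩

theorem stalk_of_local_coord {V : X.Opens} (hV : IsAffineOpen V) (t : Γ(X, V))
    (ht : (Polynomial.eval₂RingHom (kmap π V) t).Etale) (x : X) (hx : x ∈ V) :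
    IsDomain (X.presheaf.stalk x) ∧ IsPrincipalIdealRing (X.presheaf.stalk x) := by
  let _ : Algebra k[X] Γ(X, V) := (Polynomial.eval₂RingHom (kmap π V) t).toAlgebra
  have h1 : Algebra.Etale k[X] Γ(X, V) := ht
  let := TopCat.Presheaf.algebra_section_stalk X.presheaf ⟨x, hx⟩
  have hloc := hV.isLocalization_stalk ⟨x, hx⟩
  obtain ⟨h2, h3⟩ := localization_of_etale (k := k) (hV.primeIdealOf ⟨x, hx⟩).asIdeal
  let e := IsLocalization.algEquiv (hV.primeIdealOf ⟨x, hx⟩).asIdeal.primeCompl
    (Localization.AtPrime (hV.primeIdealOf ⟨x, hx⟩).asIdeal) (X.presheaf.stalk x)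
  constructor
  · exact e.symm.toRingEquiv.toMulEquiv.isDomain _
  · exact IsPrincipalIdealRing.of_surjective e.toRingEquiv.toRingHom e.surjective

theorem isDomain_stalk [SmoothOfRelativeDimension 1 π] (x : X) :
    IsDomain (X.presheaf.stalk x) := by
  obtain ⟨V, hx, hV, t, ht⟩ := exists_local_coord π x
  exact (stalk_of_local_coord π hV t ht x hx).1

theorem pir_stalk [SmoothOfRelativeDimension 1 π] (x : X) :
    IsPrincipalIdealRing (X.presheaf.stalk x) := by
  obtain ⟨V, hx, hV, t, ht⟩ := exists_local_coord π x
  exact (stalk_of_local_coord π hV t ht x hx).2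

/-- A smooth connected proper curve is integral. -/
theorem isIntegral_of_smooth [SmoothOfRelativeDimension 1 π] [ConnectedSpace X] [IsProper π] :
    IsIntegral X := by
  have hd : ∀ x : X, IsDomain (X.presheaf.stalk x) := isDomain_stalk π
  have hln : IsLocallyNoetherian X := LocallyOfFiniteType.isLocallyNoetherian π
  have hc : CompactSpace X := QuasiCompact.compactSpace_of_compactSpace π
  have hn : IsNoetherian X := { }
  have hns : NoetherianSpace X := inferInstance
  have hirr : IrreducibleSpace X := irreducibleSpace_of_stalks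
  have hred : IsReduced X := by
    have : ∀ x : X, _root_.IsReduced (X.presheaf.stalk x) := fun x => inferInstance
    exact isReduced_of_isReduced_stalk X
  exact isIntegral_of_irreducibleSpace_of_isReduced X

theorem exists_transc [SmoothOfRelativeDimension 1 π] [IsIntegral X] :
    ∃ f : X.functionField, Transc π f := by
  obtain ⟨V, hx, hV, t, ht⟩ := exists_local_coord π (genericPoint X)
  have hne : Nonempty V := ⟨⟨_, hx⟩⟩
  refine ⟨X.germToFunctionField V t, ?_⟩
  have h1 : Polynomial.eval₂RingHom (kfun π) (X.germToFunctionField V t) =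
      (X.germToFunctionField V).hom.comp (Polynomial.eval₂RingHom (kmap π V) t) := by
    apply Polynomial.ringHom_ext
    · intro a
      simp only [RingHom.comp_apply, Polynomial.coe_eval₂RingHom, Polynomial.eval₂_C]
      exact (germ_kmap π V a).symm
    · simp only [RingHom.comp_apply, Polynomial.coe_eval₂RingHom, Polynomial.eval₂_X]
  rw [Transc, h1]
  let _ : Algebra k[X] Γ(X, V) := (Polynomial.eval₂RingHom (kmap π V) t).toAlgebra
  have h2 : Algebra.Etale k[X] Γ(X, V) := ht
  have h3 : Module.Flat k[X] Γ(X, V) := inferInstance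
  have h4 : Module.IsTorsionFree k[X] Γ(X, V) := inferInstance
  refine (X.germToFunctionField_injective V).comp ?_
  rw [injective_iff_map_eq_zero]
  intro p hp
  have h5 : p • (1 : Γ(X, V)) = 0 := by
    rw [Algebra.smul_def, mul_one]; exact hp
  exact (smul_eq_zero.mp h5).resolve_right one_ne_zero

end Pool.Agent.MG.Two
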