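import Pool.Agent.MG.StmtsC
import Pool.Agent.MG.CHI
import Pool.Agent.MG.TwoSmC

/-!
# GQ: a point in general position with respect to two charts
-/

open CategoryTheory CategoryTheory.Limits AlgebraicGeometry TensorProduct

namespace Pool.Agent.MG

namespace GQ

theorem gl_hom {A : Type} [CommRing A] (v : Γ(Sp A, ⊤)) :
    gl A ((Scheme.ΓSpecIso (CommRingCat.of A)).hom.hom v) = v := by
  change ((Scheme.ΓSpecIso (CommRingCat.of A)).hom ≫ (Scheme.ΓSpecIso (CommRingCat.of A)).inv) v = v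
  rw [Iso.hom_inv_id]
  rfl

/-- A `k`-point of the intersection of the charts. -/
theorem chart_pt {n : ℕ} {k : Type} [Field k] {T : TC k} {C : Fam n k} (ct : Charted T C)
    (z : Sp k ⟶ C.X) (hz : z ≫ C.π = 𝟙 _) (hU : ⊤ ≤ z ⁻¹ᵁ (ct.U1 ⊓ ct.U2)) :
    ∃ χ : T.R12 →ₐ[k] k, ct.Is1 z (χ.comp T.j1) := by
  let χ0 : T.R12 →+* k :=
    ((Scheme.ΓSpecIso (CommRingCat.of k)).hom.hom.comp ((z.appLE (ct.U1 ⊓ ct.U2) ⊤ hU).hom)).comp
      (ct.t12.comp (Algebra.TensorProduct.includeRight : T.R12 →ₐ[k] k ⊗[k] T.R12).toRingHom)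
  have h0 : ∀ a, χ0 a = (Scheme.ΓSpecIso (CommRingCat.of k)).hom.hom
      ((z.appLE (ct.U1 ⊓ ct.U2) ⊤ hU).hom (ct.t12 (1 ⊗ₜ a))) := fun _ => rfl
  have hc : ∀ c : k, χ0 (algebraMap k T.R12 c) = c := by
    intro c
    have h1 : (1 : k) ⊗ₜ[k] (algebraMap k T.R12 c) = c ⊗ₜ[k] (1 : T.R12) := by
      rw [Algebra.algebraMap_eq_smul_one, TensorProduct.tmul_smul, TensorProduct.smul_tmul',
        smul_eq_mul, mul_one]
    rw [h0, h1, ct.c12, coef_comp, hz, coef_id, gl_inv]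
  refine ⟨{ χ0 with commutes' := hc }, le_trans hU (by
    intro x hx
    exact hx.1), fun a => ?_⟩
  change _ = gl k (χ0 (T.j1 a))
  rw [h0, gl_hom, ← ct.r1]
  have h2 := Scheme.Hom.map_appLE z hU (homOfLE (inf_le_left : ct.U1 ⊓ ct.U2 ≤ ct.U1)).op
  have h3 := ConcreteCategory.congr_hom h2 (ct.t1 (1 ⊗ₜ a))
  exact h3.symm

theorem nonempty_of_nontrivial {X : Scheme.{0}} (U : X.Opens) [Nontrivial Γ(X, U)] :
    (U : Set X).Nonempty := by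
  by_contra h
  rw [Set.not_nonempty_iff_eq_empty] at h
  have hU : U = ⊥ := TopologicalSpace.Opens.ext h
  subst hU
  have := CommRingCat.subsingleton_of_isTerminal X.sheaf.isTerminalOfEmpty
  exact not_subsingleton Γ(X, ⊥) this

theorem nonempty12 {n : ℕ} {k : Type} [Field k] {T : TC k} {C : Fam n k} (ch : Cht C T) :
    ((ch.ct.U1 ⊓ ch.ct.U2 : C.X.Opens) : Set C.X).Nonempty := by
  have hd := ch.dom
  have h1 : Nontrivial (k ⊗[k] T.R12) :=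
    (Algebra.TensorProduct.lid k T.R12).symm.injective.nontrivial
  have h2 : Nontrivial Γ(C.X, ch.ct.U1 ⊓ ch.ct.U2) := ch.ct.b12.1.nontrivial
  exact nonempty_of_nontrivial _

theorem ne_of_chart {n : ℕ} {k : Type} [Field k] {T : TC k} {C : Fam n k} (ch : Cht C T)
    (χ : T.R12 →ₐ[k] k) (i : Fin n) : (χ.comp T.j1) T.x ≠ ch.pt i T.x := by
  intro h
  have h1 := (ch.unit i).map χ
  rw [map_sub, map_sub, AlgHom.commutes, AlgHom.commutes] at h1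
  have h2 : χ (T.j1 T.x) = ch.pt i T.x := h
  rw [h2] at h1
  exact h1.ne_zero (sub_self _)

end GQ

theorem t_GQ : Stmt_GQ := by
  intro n k _ _ C hprop hsm hcon T T' ch C' f hf hfπ ch'
  have hint : IsIntegral C.X := Two.isIntegral_of_smooth C.π
  have hj : JacobsonSpace C.X := LocallyOfFiniteType.jacobsonSpace C.π
  have hf' : Function.Surjective f := f.surjective
  -- the open set
  let W : C.X.Opens := (ch.ct.U1 ⊓ ch.ct.U2) ⊓ f ⁻¹ᵁ (ch'.ct.U1 ⊓ ch'.ct.U2)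
  have hW : (W : Set C.X).Nonempty := by
    have h1 := GQ.nonempty12 ch
    obtain ⟨y, hy⟩ := GQ.nonempty12 ch'
    obtain ⟨x, rfl⟩ := hf' y
    exact nonempty_preirreducible_inter (ch.ct.U1 ⊓ ch.ct.U2).isOpen
      (f ⁻¹ᵁ (ch'.ct.U1 ⊓ ch'.ct.U2)).isOpen h1 ⟨x, hy⟩
  obtain ⟨x, hxW, hx⟩ := nonempty_inter_closedPoints hW W.isOpen.isLocallyClosed
  let q : Sp k ⟶ C.X := pointOfClosedPoint C.π x hx
  have hq : q ≫ C.π = 𝟙 _ := pointOfClosedPoint_comp C.π x hx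
  have hqx : ∀ a, q a = x := pointOfClosedPoint_apply C.π x hx
  have hU : ⊤ ≤ q ⁻¹ᵁ (ch.ct.U1 ⊓ ch.ct.U2) := by
    intro a _
    change q a ∈ (ch.ct.U1 ⊓ ch.ct.U2)
    rw [hqx]
    exact hxW.1
  have hU' : ⊤ ≤ (q ≫ f) ⁻¹ᵁ (ch'.ct.U1 ⊓ ch'.ct.U2) := by
    intro a _
    change (q ≫ f) a ∈ (ch'.ct.U1 ⊓ ch'.ct.U2)
    rw [Scheme.Hom.comp_apply, hqx]
    exact hxW.2
  have hqf : (q ≫ f) ≫ C'.π = 𝟙 _ := by rw [Category.assoc, hfπ, hq]
  obtain ⟨χ, hχ⟩ := GQ.chart_pt ch.ct q hq hU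
  obtain ⟨χ', hχ'⟩ := GQ.chart_pt ch'.ct (q ≫ f) hqf hU'
  refine ⟨q, hq, ⟨χ.comp T.j1, ?_, GQ.ne_of_chart ch χ⟩, χ'.comp T'.j1, ?_, GQ.ne_of_chart ch' χ'⟩
  · exact (t_TAU ch.ct ch.aff).2.2.2 q (.one (χ.comp T.j1)) hq hχ
  · exact (t_TAU ch'.ct ch'.aff).2.2.2 (q ≫ f) (.one (χ'.comp T'.j1)) hqf hχ'

end Pool.Agent.MG
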