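import Pool.Agent.MG.Geo

/-!
# Flat thickenings of a union of two good opens (module SQZ)
-/

open CategoryTheory AlgebraicGeometry TensorProduct

namespace Pool.Agent.MG

namespace SQZ

theorem rs_rs (X : Scheme.{0}) {U V W : X.Opens} (h : U ≤ V) (k : V ≤ W) (a : Γ(X, W)) :
    rs X h (rs X k a) = rs X (h.trans k) a := by
  change (X.presheaf.map (homOfLE k).op ≫ X.presheaf.map (homOfLE h).op) a =
    X.presheaf.map (homOfLE (h.trans k)).op a
  rw [← Functor.map_comp]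
  rfl

/-- Gluing of functions on two opens. -/
theorem glueO (X : Scheme.{0}) {V1 V2 V : X.Opens} (hV : V1 ⊔ V2 = V) (h1 : V1 ≤ V)
    (h2 : V2 ≤ V) {V12 : X.Opens} (h12 : V1 ⊓ V2 = V12) (k1 : V12 ≤ V1) (k2 : V12 ≤ V2)
    (a : Γ(X, V1)) (b : Γ(X, V2)) (e : rs X k1 a = rs X k2 b) :
    ∃ c : Γ(X, V), rs X h1 c = a ∧ rs X h2 c = b := by
  subst hV h12
  refine ⟨(X.sheaf.objSupIsoProdEqLocus V1 V2).inv ⟨(a, b), e⟩, ?_, ?_⟩
  · exact X.sheaf.objSupIsoProdEqLocus_inv_fst V1 V2 ⟨(a, b), e⟩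
  · exact X.sheaf.objSupIsoProdEqLocus_inv_snd V1 V2 ⟨(a, b), e⟩

/-- Separation for functions on two opens. -/
theorem sepO (X : Scheme.{0}) {V1 V2 V : X.Opens} (hV : V1 ⊔ V2 = V) (h1 : V1 ≤ V)
    (h2 : V2 ≤ V) (c c' : Γ(X, V)) (e1 : rs X h1 c = rs X h1 c')
    (e2 : rs X h2 c = rs X h2 c') : c = c' := by
  subst hV
  exact X.sheaf.eq_of_locally_eq₂ (homOfLE h1) (homOfLE h2) le_rfl c c' e1 e2

variable {n : ℕ} {B E J : Type} [CommRing B] [CommRing E] [Fintype J] {S : SqE B E J}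
  {x : Fam n B} {t : Thk S x}

theorem q_eps {U : x.X.Opens} (j : J) (w : Γ(t.y.X, t.op U)) :
    t.q U (coef t.y.π (t.op U) (S.ε j) * w) = 0 := by
  rw [map_mul, t.q_coef, S.pe, map_zero, zero_mul]

theorem q_sum {U : x.X.Opens} (w : J → Γ(t.y.X, t.op U)) :
    t.q U (∑ j, coef t.y.π (t.op U) (S.ε j) * w j) = 0 := by
  rw [map_sum]
  exact Finset.sum_eq_zero fun j _ => q_eps j (w j)

theorem eps_mul_ker {U : x.X.Opens} (g : Good t U) (j : J) {v : Γ(t.y.X, t.op U)}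
    (hv : t.q U v = 0) : coef t.y.π (t.op U) (S.ε j) * v = 0 := by
  obtain ⟨w, rfl⟩ := g.ker v hv
  rw [Finset.mul_sum]
  refine Finset.sum_eq_zero fun l _ => ?_
  rw [← mul_assoc, ← map_mul, S.mul, map_zero, zero_mul]

theorem rs_sum {U V : x.X.Opens} (h : U ≤ V) (w : J → Γ(t.y.X, t.op V)) :
    rs t.y.X (t.op_mono h) (∑ j, coef t.y.π (t.op V) (S.ε j) * w j) =
      ∑ j, coef t.y.π (t.op U) (S.ε j) * rs t.y.X (t.op_mono h) (w j) := by
  rw [map_sum]
  refine Finset.sum_congr rfl fun j _ => ?_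
  rw [map_mul, coef_rs]

/-- The union of two good opens with good intersection and `H¹ = 0` is good. -/
theorem goodSup {U W W' : x.X.Opens} (hU : W ⊔ W' = U) (g1 : Good t W) (g2 : Good t W')
    (g12 : Good t (W ⊓ W'))
    (hac : ∀ s : Γ(x.X, W ⊓ W'), ∃ (a : Γ(x.X, W)) (b : Γ(x.X, W')),
      s = rs x.X inf_le_left a + rs x.X inf_le_right b) : Good t U := by
  have hW : W ≤ U := by rw [← hU]; exact le_sup_left
  have hW' : W' ≤ U := by rw [← hU]; exact le_sup_right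
  have hO : t.op W ⊔ t.op W' = t.op U := by rw [← t.op_sup, hU]
  have hI : t.op W ⊓ t.op W' = t.op (W ⊓ W') := (t.op_inf W W').symm
  have m1 : t.op (W ⊓ W') ≤ t.op W := t.op_mono inf_le_left
  have m2 : t.op (W ⊓ W') ≤ t.op W' := t.op_mono inf_le_right
  have hsur : Function.Surjective (t.q U) := by
    intro s
    obtain ⟨s1, hs1⟩ := g1.sur (rs x.X hW s)
    obtain ⟨s2, hs2⟩ := g2.sur (rs x.X hW' s)
    have hd : t.q (W ⊓ W') (rs t.y.X m1 s1 - rs t.y.X m2 s2) = 0 := by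
      rw [map_sub, t.q_rs inf_le_left, t.q_rs inf_le_right, hs1, hs2, rs_rs, rs_rs, sub_self]
    obtain ⟨v, hv⟩ := g12.ker _ hd
    choose a b hab using fun j => hac (t.q (W ⊓ W') (v j))
    choose α hα using fun j => g1.sur (a j)
    choose β hβ using fun j => g2.sur (b j)
    have hz : ∀ j, coef t.y.π (t.op (W ⊓ W')) (S.ε j) *
        (v j - rs t.y.X m1 (α j) - rs t.y.X m2 (β j)) = 0 := by
      intro j
      apply eps_mul_ker g12
      rw [map_sub, map_sub, t.q_rs inf_le_left, t.q_rs inf_le_right, hα, hβ, hab j]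
      ring
    have hglue : rs t.y.X m1 (s1 - ∑ j, coef t.y.π (t.op W) (S.ε j) * α j) =
        rs t.y.X m2 (s2 + ∑ j, coef t.y.π (t.op W') (S.ε j) * β j) := by
      rw [map_sub, map_add, rs_sum inf_le_left, rs_sum inf_le_right, sub_eq_iff_eq_add]
      have h1 : rs t.y.X m1 s1 = rs t.y.X m2 s2 +
          ∑ j, coef t.y.π (t.op (W ⊓ W')) (S.ε j) * v j := by
        rw [← hv]
        ring
      rw [h1, add_assoc, ← Finset.sum_add_distrib]
      congr 1
      refine Finset.sum_congr rfl fun j _ => ?_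
      have := hz j
      rw [mul_sub, mul_sub, sub_sub, sub_eq_zero] at this
      rw [this, add_comm]
    obtain ⟨c, hc1, hc2⟩ := glueO t.y.X hO (t.op_mono hW) (t.op_mono hW') hI m1 m2 _ _ hglue
    refine ⟨c, sepO x.X hU hW hW' _ _ ?_ ?_⟩
    · rw [← t.q_rs hW, hc1, map_sub, hs1, q_sum, sub_zero]
    · rw [← t.q_rs hW', hc2, map_add, hs2, q_sum, add_zero]
  refine ⟨hsur, ?_, ?_⟩
  · intro v hv
    have hv1 : t.q W (rs t.y.X (t.op_mono hW) v) = 0 := by rw [t.q_rs hW, hv, map_zero]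
    have hv2 : t.q W' (rs t.y.X (t.op_mono hW') v) = 0 := by rw [t.q_rs hW', hv, map_zero]
    obtain ⟨w, hw⟩ := g1.ker _ hv1
    obtain ⟨w', hw'⟩ := g2.ker _ hv2
    have hun : ∀ j, t.q (W ⊓ W') (rs t.y.X m1 (w j) - rs t.y.X m2 (w' j)) = 0 := by
      refine g12.un (fun j => rs t.y.X m1 (w j) - rs t.y.X m2 (w' j)) ?_
      have h1 : rs t.y.X m1 (rs t.y.X (t.op_mono hW) v) =
          rs t.y.X m2 (rs t.y.X (t.op_mono hW') v) := by rw [rs_rs, rs_rs]
      rw [hw, hw', rs_sum inf_le_left, rs_sum inf_le_right] at h1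
      simp only [mul_sub, Finset.sum_sub_distrib]
      rw [h1, sub_self]
    have hr : ∀ j, ∃ r : Γ(x.X, U), rs x.X hW r = t.q W (w j) ∧ rs x.X hW' r = t.q W' (w' j) := by
      intro j
      refine glueO x.X hU hW hW' rfl inf_le_left inf_le_right _ _ ?_
      have := hun j
      rw [map_sub, t.q_rs inf_le_left, t.q_rs inf_le_right, sub_eq_zero] at this
      exact this
    choose r hr1 hr2 using hr
    choose ρ hρ using fun j => hsur (r j)
    refine ⟨ρ, sepO t.y.X hO (t.op_mono hW) (t.op_mono hW') _ _ ?_ ?_⟩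
    · rw [rs_sum hW, hw]
      refine Finset.sum_congr rfl fun j _ => ?_
      rw [← sub_eq_zero, ← mul_sub]
      apply eps_mul_ker g1
      rw [map_sub, t.q_rs hW, hρ, hr1, sub_self]
    · rw [rs_sum hW', hw']
      refine Finset.sum_congr rfl fun j _ => ?_
      rw [← sub_eq_zero, ← mul_sub]
      apply eps_mul_ker g2
      rw [map_sub, t.q_rs hW', hρ, hr2, sub_self]
  · intro w hw j
    have h1 := g1.un (fun j => rs t.y.X (t.op_mono hW) (w j)) (by
      rw [← rs_sum hW, hw, map_zero]) j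
    have h2 := g2.un (fun j => rs t.y.X (t.op_mono hW') (w j)) (by
      rw [← rs_sum hW', hw, map_zero]) j
    refine sepO x.X hU hW hW' _ _ ?_ ?_
    · rw [← t.q_rs hW, h1, map_zero]
    · rw [← t.q_rs hW', h2, map_zero]

end SQZ

end Pool.Agent.MG
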