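import Pool.Agent.MG.StmtsA
import Pool.Agent.MG.AffLem
import Pool.Agent.MG.SqzLem

/-!
# MG_SQZ: flat thickenings of acyclic opens
-/

open CategoryTheory CategoryTheory.Limits AlgebraicGeometry TensorProduct

namespace Pool.Agent.MG

/-- Flat thickenings of acyclic opens. -/
theorem t_SQZ (hAFF : Stmt_AFF) : Stmt_SQZ := by
  intro n B E J _ _ _ S x t U hac
  obtain ⟨W, W', hW, hW', hWW', hU, hac⟩ := hac
  exact SQZ.goodSup hU (goodAff t _ (hAFF t _ hW)) (goodAff t _ (hAFF t _ hW'))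
    (goodAff t _ (hAFF t _ hWW')) hac

end Pool.Agent.MG
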