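import Pool.Agent.MG.StmtsC
import Pool.Agent.MG.SQZ
import Pool.Agent.MG.AFF

/-!
# MVV: the value of a covector at the deformation which moves one marked point
-/

open CategoryTheory CategoryTheory.Limits AlgebraicGeometry TensorProduct

namespace Pool.Agent.MG

namespace MVV

section

variable {n : ℕ} {k : Type} [Field k] {C : Fam n k}

/-- functions on the base and a section -/
theorem lift_coef {A : Type} [CommRing A] {X : Scheme.{0}} (π : X ⟶ Sp A) (σ : Sp A ⟶ X)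
    (hσ : σ ≫ π = 𝟙 _) (U : X.Opens) (h : ⊤ ≤ σ ⁻¹ᵁ U) (a : A) :
    (Scheme.ΓSpecIso (CommRingCat.of A)).hom.hom ((σ.appLE U ⊤ h).hom (coef π U a)) = a := by
  rw [coef_comp, hσ, coef_id, gl_inv]

/-- a constant section -/
theorem const_sec (σ : Sp k ⟶ C.X) (τ : Sp (Eps k) ⟶ C.X)
    (hτ : τ = spMap (algebraMap k (Eps k)) ≫ σ) (U : C.X.Opens) (h : ⊤ ≤ σ ⁻¹ᵁ U)
    (h' : ⊤ ≤ τ ⁻¹ᵁ U) (v : Γ(C.X, U)) :
    (Scheme.ΓSpecIso (CommRingCat.of (Eps k))).hom.hom ((τ.appLE U ⊤ h').hom v) =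
      algebraMap k (Eps k)
        ((Scheme.ΓSpecIso (CommRingCat.of k)).hom.hom ((σ.appLE U ⊤ h).hom v)) := by
  subst hτ
  rw [← gs_spMap]
  have h1 := Scheme.Hom.appLE_comp_appLE (spMap (algebraMap k (Eps k))) σ U ⊤ ⊤ h le_top
  have h2 := ConcreteCategory.congr_hom h1 v
  have h3 : ((spMap (algebraMap k (Eps k)) ≫ σ).appLE U ⊤ h').hom v =
      ((spMap (algebraMap k (Eps k))).appLE ⊤ ⊤ le_top).hom ((σ.appLE U ⊤ h).hom v) := h2.symm
  have h4 : (spMap (algebraMap k (Eps k))).appLE ⊤ ⊤ le_top =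
      (spMap (algebraMap k (Eps k))).appTop := Scheme.Hom.appLE_eq_app _
  rw [h3, h4]

/-- the moved section -/
theorem mov_sec (Φ : Flow C.π) (σ : Sp k ⟶ C.X) (hσ : σ ≫ C.π = 𝟙 _) (U : C.X.Opens)
    (h : ⊤ ≤ σ ⁻¹ᵁ U) (s w : Γ(C.X, U)) (hs : Φ.Has U s w) (h' : ⊤ ≤ (Φ.mov σ hσ) ⁻¹ᵁ U) :
    (Scheme.ΓSpecIso (CommRingCat.of (Eps k))).hom.hom (((Φ.mov σ hσ).appLE U ⊤ h').hom s) =
      algebraMap k (Eps k)
        ((Scheme.ΓSpecIso (CommRingCat.of k)).hom.hom ((σ.appLE U ⊤ h).hom s)) +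
      TrivSqZeroExt.inr 1 * algebraMap k (Eps k)
        ((Scheme.ΓSpecIso (CommRingCat.of k)).hom.hom ((σ.appLE U ⊤ h).hom w)) := by
  obtain ⟨hU, hsw⟩ := hs
  set L : Sp (Eps k) ⟶ XE C.π := pullback.lift (spMap (algebraMap k (Eps k)) ≫ σ) (𝟙 _) (by
    rw [Category.assoc, hσ, Category.comp_id, Category.id_comp]) with hL
  have hL1 : L ≫ pullback.fst _ _ = spMap (algebraMap k (Eps k)) ≫ σ := pullback.lift_fst _ _ _
  have hL2 : L ≫ pullback.snd _ _ = 𝟙 _ := pullback.lift_snd _ _ _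
  set V := pullback.fst C.π (spMap (algebraMap k (Eps k))) ⁻¹ᵁ U with hV
  have hLV : ⊤ ≤ L ⁻¹ᵁ V := by
    have h1 : ⊤ ≤ (L ≫ pullback.fst _ _) ⁻¹ᵁ U := by
      rw [hL1]
      intro x _
      exact h (by trivial)
    exact h1
  have h1 : ((Φ.mov σ hσ).appLE U ⊤ h').hom s =
      (L.appLE V ⊤ hLV).hom ((Φ.θ.appLE U V hU).hom s) := by
    have h2 := Scheme.Hom.appLE_comp_appLE L Φ.θ U V ⊤ hU hLV
    exact (ConcreteCategory.congr_hom h2 s).symm
  have h3 : ∀ v : Γ(C.X, U), (L.appLE V ⊤ hLV).hom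
      (((pullback.fst C.π (spMap (algebraMap k (Eps k)))).appLE U V le_rfl).hom v) =
      ((L ≫ pullback.fst C.π (spMap (algebraMap k (Eps k)))).appLE U ⊤ hLV).hom v := fun v =>
    ConcreteCategory.congr_hom (Scheme.Hom.appLE_comp_appLE L
      (pullback.fst C.π (spMap (algebraMap k (Eps k)))) U V ⊤ le_rfl hLV) v
  rw [h1, hsw, map_add, map_mul, map_add, map_mul, h3, h3, lift_coef _ _ hL2,
    const_sec σ _ hL1 U h hLV, const_sec σ _ hL1 U h hLV]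

end

section

variable {n : ℕ} {k : Type} [Field k] {T : TC k} {C : Fam n k} (ct : Charted T C)
  (t : Thk (sqEps k) C) (f : t.y.X ⟶ C.X) (hf : f ≫ C.π = t.y.π ≫ spMap (algebraMap k (Eps k)))
  (hr : t.r.f ≫ f = 𝟙 _)

include hr in
theorem pre_eq (U : C.X.Opens) : f ⁻¹ᵁ U = t.op U := by
  apply t.pre_inj
  rw [t.pre]
  change (t.r.f ≫ f) ⁻¹ᵁ U = U
  rw [hr]
  rfl

/-- the lift of functions -/
noncomputable def up (U : C.X.Opens) : Γ(C.X, U) →+* Γ(t.y.X, t.op U) :=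
  (f.appLE U (t.op U) (pre_eq t f hr U).ge).hom

theorem up_q (U : C.X.Opens) (v : Γ(C.X, U)) : t.q U (up t f hr U v) = v := by
  have h1 := Scheme.Hom.appLE_comp_appLE t.r.f f U (t.op U) U (pre_eq t f hr U).ge (t.pre U).ge
  have h2 := ConcreteCategory.congr_hom h1 v
  refine Eq.trans h2 ?_
  have h3 : (t.r.f ≫ f).appLE U U ((t.pre U).ge.trans (by
      exact fun x hx => (pre_eq t f hr U).ge hx)) = 𝟙 _ := by
    have h4 : ∀ (g : C.X ⟶ C.X) (hg : g = 𝟙 _) (hU : U ≤ g ⁻¹ᵁ U), g.appLE U U hU = 𝟙 _ := by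
      rintro g rfl hU
      exact (Scheme.Hom.appLE_eq_app _).trans (Scheme.Hom.id_app _)
    exact h4 _ hr _
  exact ConcreteCategory.congr_hom h3 v

include hf in
theorem up_coef (U : C.X.Opens) (c : k) :
    up t f hr U (coef C.π U c) = coef t.y.π (t.op U) (algebraMap k (Eps k) c) :=
  coef_arrow hf _ _ _ c

theorem up_rs {U V : C.X.Opens} (h : U ≤ V) (v : Γ(C.X, V)) :
    rs t.y.X (t.op_mono h) (up t f hr V v) = up t f hr U (rs C.X h v) := by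
  change (f.appLE V (t.op V) (pre_eq t f hr V).ge ≫
    t.y.X.presheaf.map (homOfLE (t.op_mono h)).op) v =
    (C.X.presheaf.map (homOfLE h).op ≫ f.appLE U (t.op U) (pre_eq t f hr U).ge) v
  rw [Scheme.Hom.map_appLE, Scheme.Hom.appLE_map]

theorem up_ev (i : Fin n) {U : C.X.Opens} (h : ⊤ ≤ C.σ i ⁻¹ᵁ U) (h' : ⊤ ≤ (t.y.σ i ≫ f) ⁻¹ᵁ U)
    (v : Γ(C.X, U)) : t.ev i h (up t f hr U v) =
      (Scheme.ΓSpecIso (CommRingCat.of (Eps k))).hom.hom
        (((t.y.σ i ≫ f).appLE U ⊤ h').hom v) := by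
  have h1 := Scheme.Hom.appLE_comp_appLE (t.y.σ i) f U (t.op U) ⊤ (pre_eq t f hr U).ge
    (t.sec_le i h)
  have h2 := ConcreteCategory.congr_hom h1 v
  exact congrArg (Scheme.ΓSpecIso (CommRingCat.of (Eps k))).hom.hom h2

end

end MVV

theorem t_MVV : Stmt_MVV := by
  intro n k _ T C ct ha s hs E g l hl Φ r0 hΦ i d hd
  obtain ⟨f, hpb, hr, hσ, hi⟩ := hd
  have hf : f ≫ C.π = d.thk.y.π ≫ spMap (algebraMap k (Eps k)) := hpb.w
  have hr' : d.thk.r.f ≫ f = 𝟙 _ := hr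
  have H : Good3 ct d.thk := ⟨t_SQZ t_AFF _ _ ct.ac1, t_SQZ t_AFF _ _ ct.ac2,
    t_SQZ t_AFF _ _ ct.ac12⟩
  have hKS : KS ct d.thk (fun i => .one (s i)) hs (fun _ => 0)
      (fun _ j => if j = i then s i r0 else 0) := by
    refine ⟨H, ⟨?_⟩⟩
    refine
      { θ1 := (MVV.up d.thk f hr' ct.U1).comp
          (ct.t1.comp (Algebra.TensorProduct.includeRight : T.R1 →ₐ[k] k ⊗[k] T.R1).toRingHom)
        θ2 := (MVV.up d.thk f hr' ct.U2).comp
          (ct.t2.comp (Algebra.TensorProduct.includeRight : T.R2 →ₐ[k] k ⊗[k] T.R2).toRingHom)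
        k1 := ?_
        k2 := ?_
        l1 := ?_
        l2 := ?_
        t1 := (MVV.up d.thk f hr' (ct.U1 ⊓ ct.U2)).comp
          (ct.t12.comp (Algebra.TensorProduct.includeRight : T.R12 →ₐ[k] k ⊗[k] T.R12).toRingHom)
        t2 := (MVV.up d.thk f hr' (ct.U1 ⊓ ct.U2)).comp
          (ct.t12.comp (Algebra.TensorProduct.includeRight : T.R12 →ₐ[k] k ⊗[k] T.R12).toRingHom)
        e1 := ?_
        e2 := ?_
        lt1 := ?_
        lt2 := ?_
        diff := ?_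
        dl := ?_ }
    · intro c
      change MVV.up d.thk f hr' ct.U1 (ct.t1 (1 ⊗ₜ algebraMap k T.R1 c)) =
        coef d.thk.y.π (d.thk.op ct.U1) ((sqEps k).i (algebraMap k k c))
      have h1 : (1 : k) ⊗ₜ[k] algebraMap k T.R1 c = c ⊗ₜ 1 := by
        rw [Algebra.algebraMap_eq_smul_one, ← TensorProduct.smul_tmul, smul_eq_mul, mul_one]
      rw [h1, ct.c1, MVV.up_coef d.thk f hf hr']
      rfl
    · intro c
      change MVV.up d.thk f hr' ct.U2 (ct.t2 (1 ⊗ₜ algebraMap k T.R2 c)) =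
        coef d.thk.y.π (d.thk.op ct.U2) ((sqEps k).i (algebraMap k k c))
      have h1 : (1 : k) ⊗ₜ[k] algebraMap k T.R2 c = c ⊗ₜ 1 := by
        rw [Algebra.algebraMap_eq_smul_one, ← TensorProduct.smul_tmul, smul_eq_mul, mul_one]
      rw [h1, ct.c2, MVV.up_coef d.thk f hf hr']
      rfl
    · intro a
      change ct.eq1.symm (d.thk.q ct.U1 (MVV.up d.thk f hr' ct.U1 (ct.t1 (1 ⊗ₜ a)))) = _
      rw [MVV.up_q, RingEquiv.symm_apply_eq]
      rfl
    · intro a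
      change ct.eq2.symm (d.thk.q ct.U2 (MVV.up d.thk f hr' ct.U2 (ct.t2 (1 ⊗ₜ a)))) = _
      rw [MVV.up_q, RingEquiv.symm_apply_eq]
      rfl
    · intro a
      change MVV.up d.thk f hr' (ct.U1 ⊓ ct.U2) (ct.t12 (1 ⊗ₜ T.j1 a)) =
        rs d.thk.y.X (d.thk.op_mono inf_le_left) (MVV.up d.thk f hr' ct.U1 (ct.t1 (1 ⊗ₜ a)))
      rw [MVV.up_rs d.thk f hr' inf_le_left, ct.r1]
    · intro a
      change MVV.up d.thk f hr' (ct.U1 ⊓ ct.U2) (ct.t12 (1 ⊗ₜ T.j2 a)) =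
        rs d.thk.y.X (d.thk.op_mono inf_le_right) (MVV.up d.thk f hr' ct.U2 (ct.t2 (1 ⊗ₜ a)))
      rw [MVV.up_rs d.thk f hr' inf_le_right, ct.r2]
    · intro a
      change ct.eq12.symm (d.thk.q (ct.U1 ⊓ ct.U2)
        (MVV.up d.thk f hr' (ct.U1 ⊓ ct.U2) (ct.t12 (1 ⊗ₜ a)))) = _
      rw [MVV.up_q, RingEquiv.symm_apply_eq]
      rfl
    · intro a
      change ct.eq12.symm (d.thk.q (ct.U1 ⊓ ct.U2)
        (MVV.up d.thk f hr' (ct.U1 ⊓ ct.U2) (ct.t12 (1 ⊗ₜ a)))) = _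
      rw [MVV.up_q, RingEquiv.symm_apply_eq]
      rfl
    · intro a
      refine ⟨fun _ => 0, fun _ => ?_, ?_⟩
      · rw [map_zero, zero_mul]
      · simp
    · intro j
      change d.thk.ev j (hs j).1 (MVV.up d.thk f hr' ct.U1 (ct.t1 (1 ⊗ₜ T.x))) =
        (sqEps k).i (s j T.x) +
          ∑ m, (sqEps k).ε m * (sqEps k).i (if j = i then s i r0 else 0)
      have hle : ⊤ ≤ (d.thk.y.σ j ≫ f) ⁻¹ᵁ ct.U1 := by
        have h1 := d.thk.sec_le j (hs j).1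
        rw [← MVV.pre_eq d.thk f hr'] at h1
        exact h1
      rw [MVV.up_ev d.thk f hr' j (hs j).1 hle]
      have hval : ∀ a : T.R1, (Scheme.ΓSpecIso (CommRingCat.of k)).hom.hom
          (((C.σ j).appLE ct.U1 ⊤ (hs j).1).hom (ct.t1 (1 ⊗ₜ a))) = s j a := fun a => by
        rw [(hs j).2, gl_inv]
      by_cases hji : j = i
      · subst hji
        have h2 : ∀ (τ : Sp (Eps k) ⟶ C.X) (hτ : τ = Φ.mov (C.σ j) (C.sec j))
            (h' : ⊤ ≤ τ ⁻¹ᵁ ct.U1),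
            (Scheme.ΓSpecIso (CommRingCat.of (Eps k))).hom.hom
              ((τ.appLE ct.U1 ⊤ h').hom (ct.t1 (1 ⊗ₜ T.x))) =
            algebraMap k (Eps k) (s j T.x) + TrivSqZeroExt.inr 1 * algebraMap k (Eps k) (s j r0) := by
          rintro τ rfl h'
          rw [MVV.mov_sec Φ (C.σ j) (C.sec j) ct.U1 (hs j).1 _ _ hΦ h', hval, hval]
        refine Eq.trans (h2 _ hi hle) ?_
        rw [if_pos rfl]
        simp [sqEps]
        rfl
      · have h2 := MVV.const_sec (C.σ j) _ (hσ j hji) ct.U1 (hs j).1 hle (ct.t1 (1 ⊗ₜ T.x))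
        refine Eq.trans h2 ?_
        rw [hval, if_neg hji]
        simp [sqEps]
        rfl
  have h := hl d 0 (fun j => if j = i then s i r0 else 0) hKS
  rw [h, map_zero, zero_add]
  simp

end Pool.Agent.MG
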