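import Pool.Agent.MG.StmtsC
import Pool.Agent.MG.EllLem
import Pool.Agent.MG.DIS
import Pool.Agent.MG.CHI
import Pool.Agent.MG.CHAK

/-!
# MVX: existence of the deformation which moves one marked point
-/

open CategoryTheory CategoryTheory.Limits AlgebraicGeometry TensorProduct

namespace Pool.Agent.MG

namespace MVX

theorem spMap_comp' {A B C : Type} [CommRing A] [CommRing B] [CommRing C] (f : A →+* B)
    (g : B →+* C) : spMap g ≫ spMap f = spMap (g.comp f) := by
  change Spec.map _ ≫ Spec.map _ = Spec.map _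
  rw [← Spec.map_comp]
  rfl

theorem spMap_id (A : Type) [CommRing A] : spMap (RingHom.id A) = 𝟙 (Sp A) := Spec.map_id _

section

variable {n : ℕ} {k : Type} [Field k]

theorem eps0_alg : (eps0 k).comp (algebraMap k (Eps k)) = RingHom.id k := by
  ext x
  rfl

theorem eps0_alg' : spMap (eps0 k) ≫ spMap (algebraMap k (Eps k)) = 𝟙 (Sp k) := by
  rw [spMap_comp', eps0_alg, spMap_id]

theorem mov_pi {X : Scheme.{0}} {π : X ⟶ Sp k} (Φ : Flow π) (σ : Sp k ⟶ X) (hσ : σ ≫ π = 𝟙 _) :
    Φ.mov σ hσ ≫ π = spMap (algebraMap k (Eps k)) := by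
  unfold Flow.mov
  rw [Category.assoc, Φ.hπ, ← Category.assoc, pullback.lift_snd, Category.id_comp]

/-- the zero section of the constant thickening -/
noncomputable def zs {X : Scheme.{0}} (π : X ⟶ Sp k) : X ⟶ XE π :=
  pullback.lift (𝟙 X) (π ≫ spMap (eps0 k)) (by
    rw [Category.id_comp, Category.assoc, eps0_alg', Category.comp_id])

theorem zs_fst {X : Scheme.{0}} (π : X ⟶ Sp k) :
    zs π ≫ pullback.fst π (spMap (algebraMap k (Eps k))) = 𝟙 X := pullback.lift_fst _ _ _

theorem zs_snd {X : Scheme.{0}} (π : X ⟶ Sp k) :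
    zs π ≫ pullback.snd π (spMap (algebraMap k (Eps k))) = π ≫ spMap (eps0 k) :=
  pullback.lift_snd _ _ _

theorem eps0_mov {X : Scheme.{0}} {π : X ⟶ Sp k} (Φ : Flow π) (σ : Sp k ⟶ X)
    (hσ : σ ≫ π = 𝟙 _) : spMap (eps0 k) ≫ Φ.mov σ hσ = σ := by
  have h0 := Φ.h0 (zs π) (zs_fst π) (zs_snd π)
  have h1 : spMap (eps0 k) ≫ pullback.lift (f := π) (g := spMap (algebraMap k (Eps k)))
      (spMap (algebraMap k (Eps k)) ≫ σ) (𝟙 _) (by
        rw [Category.assoc, hσ, Category.comp_id, Category.id_comp]) = σ ≫ zs π := by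
    apply pullback.hom_ext
    · rw [Category.assoc, pullback.lift_fst, ← Category.assoc, eps0_alg', Category.id_comp,
        Category.assoc, zs_fst, Category.comp_id]
    · rw [Category.assoc, pullback.lift_snd, Category.comp_id, Category.assoc, zs_snd,
        ← Category.assoc, hσ, Category.id_comp]
  unfold Flow.mov
  rw [← Category.assoc, h1, Category.assoc, h0, Category.comp_id]

/-- A homomorphism from the dual numbers to a field kills `ε`. -/
theorem factor {K : Type} [Field K] (s : Eps k →+* K) :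
    (s.comp (algebraMap k (Eps k))).comp (eps0 k) = s := by
  have h0 : ∀ a : k, s (TrivSqZeroExt.inr a) = 0 := by
    intro a
    have h : s (TrivSqZeroExt.inr a) * s (TrivSqZeroExt.inr a) = 0 := by
      rw [← map_mul, TrivSqZeroExt.inr_mul_inr, map_zero]
    exact mul_self_eq_zero.1 h
  refine RingHom.ext fun z => ?_
  have hz : z = algebraMap k (Eps k) z.fst + TrivSqZeroExt.inr z.snd :=
    (TrivSqZeroExt.inl_fst_add_inr_snd_eq z).symm
  show s (algebraMap k (Eps k) z.fst) = s z
  conv_rhs => rw [hz]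
  rw [map_add, h0, add_zero]

/-- the marked points of the deformation -/
noncomputable def tau' (C : Fam n k) (Φ : Flow C.π) (i : Fin n) (l : Fin n) :
    Sp (Eps k) ⟶ C.X :=
  if l = i then Φ.mov (C.σ i) (C.sec i) else spMap (algebraMap k (Eps k)) ≫ C.σ l

theorem tau'_self (C : Fam n k) (Φ : Flow C.π) (i : Fin n) :
    tau' C Φ i i = Φ.mov (C.σ i) (C.sec i) := if_pos rfl

theorem tau'_ne (C : Fam n k) (Φ : Flow C.π) {i l : Fin n} (h : l ≠ i) :
    tau' C Φ i l = spMap (algebraMap k (Eps k)) ≫ C.σ l := if_neg h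

theorem tau'_pi (C : Fam n k) (Φ : Flow C.π) (i l : Fin n) :
    tau' C Φ i l ≫ C.π = spMap (algebraMap k (Eps k)) := by
  by_cases h : l = i
  · subst h
    rw [tau'_self, mov_pi]
  · rw [tau'_ne C Φ h, Category.assoc, C.sec, Category.comp_id]

theorem eps0_tau' (C : Fam n k) (Φ : Flow C.π) (i l : Fin n) :
    spMap (eps0 k) ≫ tau' C Φ i l = C.σ l := by
  by_cases h : l = i
  · subst h
    rw [tau'_self, eps0_mov]
  · rw [tau'_ne C Φ h, ← Category.assoc, eps0_alg', Category.id_comp]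

theorem sp_tau' (C : Fam n k) (Φ : Flow C.π) (i l : Fin n) {K : Type} [Field K]
    (s : Eps k →+* K) :
    spMap s ≫ tau' C Φ i l = spMap (s.comp (algebraMap k (Eps k))) ≫ C.σ l := by
  conv_lhs => rw [← factor s]
  rw [← spMap_comp', Category.assoc, eps0_tau']

/-- the marked points are distinct over every field -/
theorem ne_ext {T : TC k} {C : Fam n k} (ch : Cht C T) {K : Type} [Field K] [IsAlgClosed K]
    (t : k →+* K) {l m : Fin n} (h : l ≠ m) : spMap t ≫ C.σ l ≠ spMap t ≫ C.σ m := by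
  have h1 : ∀ l, C.σ l = tau ch.aff (.one (ch.pt l)) := fun l =>
    (t_TAU ch.ct ch.aff).2.2.2 (C.σ l) (.one (ch.pt l)) (C.sec l) (ch.is l)
  have h2 := (t_DIS ch k m).1 (ch.pt l) ?_ K t
  · have h3 : (Algebra.ofId k k).comp (ch.pt m) = ch.pt m := by
      ext a
      rfl
    rw [h3] at h2
    rw [h1 l, h1 m]
    exact h2
  · rw [map_sub, AlgHom.commutes]
    exact isUnit_iff_ne_zero.2 (sub_ne_zero.2 (ch.ne l m h))

/-- the curve as the fibre of the deformation at `ε = 0` -/
noncomputable def arr (C : Fam n k) (τ : Fin n → (Sp (Eps k) ⟶ C.X))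
    (hτ : ∀ i, τ i ≫ C.π = spMap (algebraMap k (Eps k)))
    (h : ∀ i, spMap (eps0 k) ≫ τ i = C.σ i) :
    Arrow (eps0 k) C (constFam C (Eps k) τ hτ) where
  f := zs C.π
  cart := by
    refine IsPullback.of_right (h₁₂ := pullback.fst C.π (spMap (algebraMap k (Eps k))))
      (v₁₃ := C.π) (h₂₂ := spMap (algebraMap k (Eps k))) ?_ (zs_snd C.π)
      (IsPullback.of_hasPullback _ _)
    rw [zs_fst, eps0_alg']
    exact IsPullback.of_id_fst
  sec i := by
    have hsec : C.σ i ≫ zs C.π = spMap (eps0 k) ≫ pullback.lift (f := C.π)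
        (g := spMap (algebraMap k (Eps k))) (τ i) (𝟙 _) (by rw [hτ, Category.id_comp]) := by
      apply pullback.hom_ext
      · rw [Category.assoc, zs_fst, Category.comp_id, Category.assoc, pullback.lift_fst, h]
      · rw [Category.assoc, zs_snd, ← Category.assoc, C.sec, Category.id_comp, Category.assoc,
          pullback.lift_snd, Category.comp_id]
    exact hsec

end

end MVX

theorem t_MVX (hCSTW : Stmt_CSTW) : Stmt_MVX := by
  intro n k _ _ g C hC hsm T ch E i j hj Φ
  have hst : IsStable g (constFam C (Eps k) (MVX.tau' C Φ i) (MVX.tau'_pi C Φ i)) := by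
    refine hCSTW g C hC hsm T ch j ?_ (Eps k) (MVX.tau' C Φ i) (MVX.tau'_pi C Φ i)
      (MVX.tau'_ne C Φ hj) ?_
    · intro a b h hp
      exact Ell.hv E ch.h0 (ch.pt j) a b h hp
    · intro K _ _ s l m hlm
      rw [MVX.sp_tau', MVX.sp_tau']
      exact MVX.ne_ext ch _ hlm
  refine ⟨⟨_, hst, MVX.arr C _ (MVX.tau'_pi C Φ i) (MVX.eps0_tau' C Φ i)⟩, ?_⟩
  refine ⟨pullback.fst C.π (spMap (algebraMap k (Eps k))), IsPullback.of_hasPullback _ _,
    MVX.zs_fst C.π, ?_, ?_⟩
  · intro l hl
    rw [← MVX.tau'_ne C Φ hl]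
    exact pullback.lift_fst _ _ _
  · rw [← MVX.tau'_self]
    exact pullback.lift_fst _ _ _

end Pool.Agent.MG
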