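import Pool.Agent.MG.StmtsC
import Pool.Agent.MG.EllLem

/-!
# REP: stability of curves with a marked point replaced
-/

open CategoryTheory CategoryTheory.Limits AlgebraicGeometry TensorProduct

namespace Pool.Agent.MG

namespace REP

theorem spMap_id {k : Type} [Field k] : spMap (algebraMap k k) = 𝟙 (Sp k) := by
  exact Spec.map_id _

/-- Arrows to constant families. -/
theorem arrow_const {n : ℕ} {k : Type} [Field k] (C : Fam n k) (B : Type) [CommRing B]
    [Algebra k B] (τ : Fin n → (Sp B ⟶ C.X)) (hτ : ∀ i, τ i ≫ C.π = spMap (algebraMap k B))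
    (B' : Type) [CommRing B'] (s : B →+* B') (y : Fam n B') (g : y.X ⟶ C.X)
    (hg : IsPullback g y.π C.π (spMap s ≫ spMap (algebraMap k B)))
    (hs : ∀ i, y.σ i ≫ g = spMap s ≫ τ i) : Nonempty (Arrow s y (constFam C B τ hτ)) := by
  have hw : g ≫ C.π = (y.π ≫ spMap s) ≫ spMap (algebraMap k B) := by
    rw [hg.w, Category.assoc]
  have hfst : pullback.lift g (y.π ≫ spMap s) hw ≫
      pullback.fst C.π (spMap (algebraMap k B)) = g := pullback.lift_fst _ _ _
  have hsnd : pullback.lift g (y.π ≫ spMap s) hw ≫
      pullback.snd C.π (spMap (algebraMap k B)) = y.π ≫ spMap s :=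
    pullback.lift_snd _ _ _
  refine ⟨{ f := pullback.lift g (y.π ≫ spMap s) hw
            cart := ?_
            sec := ?_ }⟩
  · refine IsPullback.of_right (h₁₂ := pullback.fst C.π (spMap (algebraMap k B)))
      (v₁₃ := C.π) (h₂₂ := spMap (algebraMap k B)) ?_ hsnd (IsPullback.of_hasPullback _ _)
    rw [hfst]
    exact hg
  · intro i
    have hsec : y.σ i ≫ pullback.lift g (y.π ≫ spMap s) hw =
        spMap s ≫ pullback.lift (f := C.π) (g := spMap (algebraMap k B)) (τ i)
          (𝟙 (Sp B)) (by rw [hτ, Category.id_comp]) := by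
      apply pullback.hom_ext
      · rw [Category.assoc, hfst, hs, Category.assoc, pullback.lift_fst]
      · rw [Category.assoc, hsnd, ← Category.assoc, y.sec, Category.id_comp, Category.assoc,
          pullback.lift_snd, Category.comp_id]
    exact hsec

instance epi_spMap {k K : Type} [Field k] [Field K] (s : k →+* K) : Epi (spMap s) := by
  have hff : (CommRingCat.ofHom s).hom.FaithfullyFlat := by
    algebraize [s]
    change Module.FaithfullyFlat k K
    infer_instance
  obtain ⟨h1, h2⟩ := (AlgebraicGeometry.flat_and_surjective_SpecMap_iff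
    (CommRingCat.ofHom s)).mpr hff
  exact Flat.epi_of_flat_of_surjective _

end REP

theorem t_REP (hCSTW : Stmt_CSTW) : Stmt_REP := by
  intro n k _ _ g C hC hsm T ch E i₀ j hj q hq hne
  have hid : spMap (algebraMap k k) = 𝟙 (Sp k) := REP.spMap_id
  have hdis : ∀ i i' : Fin n, i ≠ i' → C.σ i ≠ C.σ i' := by
    have := hC.fib k (RingHom.id k) C ⟨{ f := 𝟙 _, cart := ?_, sec := ?_ }⟩
    · exact this.distinct
    · have h1 : spMap (RingHom.id k) = 𝟙 (Sp k) := Spec.map_id _
      rw [h1]
      exact IsPullback.of_id_fst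
    · intro i
      have h1 : spMap (RingHom.id k) = 𝟙 (Sp k) := Spec.map_id _
      rw [h1, Category.comp_id, Category.id_comp]
  have hdis2 : ∀ i i' : Fin n, i ≠ i' → (C.rep i₀ q hq).σ i ≠ (C.rep i₀ q hq).σ i' := by
    intro i i' hii'
    change Function.update C.σ i₀ q i ≠ Function.update C.σ i₀ q i'
    by_cases h1 : i = i₀
    · subst h1
      rw [Function.update_self, Function.update_of_ne (Ne.symm hii')]
      exact hne i' (Ne.symm hii')
    · rw [Function.update_of_ne h1]
      by_cases h2 : i' = i₀
      · subst h2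
        rw [Function.update_self]
        exact (hne i hii').symm
      · rw [Function.update_of_ne h2]
        exact hdis i i' hii'
  have hτ : ∀ i, (C.rep i₀ q hq).σ i ≫ C.π = spMap (algebraMap k k) := by
    intro i
    rw [hid]
    exact (C.rep i₀ q hq).sec i
  have hst : IsStable g (constFam C k (C.rep i₀ q hq).σ hτ) := by
    refine hCSTW g C hC hsm T ch j (E.hv ch.h0 (ch.pt j)) k (C.rep i₀ q hq).σ hτ ?_ ?_
    · rw [hid, Category.id_comp]
      change Function.update C.σ i₀ q j = C.σ j
      rw [Function.update_of_ne hj]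
    · intro K _ _ s i i' hii' h
      exact hdis2 i i' hii' ((cancel_epi (spMap s)).mp h)
  refine { proper := hC.proper, flat := hC.flat, fp := hC.fp, fib := ?_ }
  intro K _ _ s z ⟨a⟩
  refine hst.fib K s z ?_
  refine REP.arrow_const C k (C.rep i₀ q hq).σ hτ K s z a.f ?_ a.sec
  rw [hid, Category.comp_id]
  exact a.cart

end Pool.Agent.MG
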