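import Pool.Agent.MG.StmtsA

/-!
# Lifting along etale homomorphisms, derivations of etale algebras
-/

open CategoryTheory CategoryTheory.Limits AlgebraicGeometry TensorProduct

namespace Pool.Agent.MG

namespace Lift

/-! ## Etale homomorphisms and surjections with square zero kernel -/

section

variable {R R' G G' : Type} [CommRing R] [CommRing R'] [CommRing G] [CommRing G']

lemma nilp (q : G →+* G') (hk : ∀ v w, q v = 0 → q w = 0 → v * w = 0) :
    IsNilpotent (RingHom.ker q) := by
  refine ⟨2, ?_⟩
  rw [pow_two, Ideal.zero_eq_bot, eq_bot_iff, Ideal.mul_le]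
  intro r hr s hs
  rw [RingHom.mem_ker] at hr hs
  simp [hk r s hr hs]

/-- Lifting of a homomorphism along an etale homomorphism `f` through a surjection `q` with square
zero kernel. -/
theorem exists_lift (f : R →+* R') (hf : f.Etale) (g : R →+* G) (q : G →+* G')
    (hq : Function.Surjective q) (hk : ∀ v w, q v = 0 → q w = 0 → v * w = 0) (u : R' →+* G')
    (h : ∀ r, u (f r) = q (g r)) :
    ∃ v : R' →+* G, (∀ r, v (f r) = g r) ∧ ∀ a, q (v a) = u a := by
  let : Algebra R R' := f.toAlgebra
  let : Algebra R G := g.toAlgebra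
  let : Algebra R G' := (q.comp g).toAlgebra
  have : Algebra.Etale R R' := hf
  let q' : G →ₐ[R] G' := { q with commutes' := fun r => rfl }
  let u' : R' →ₐ[R] G' := { u with commutes' := fun r => h r }
  have hn : IsNilpotent (RingHom.ker (q' : G →+* G')) := nilp q hk
  let v := Algebra.FormallySmooth.liftOfSurjective u' q' hq hn
  refine ⟨(v : R' →+* G), fun r => v.commutes r, fun a => ?_⟩
  exact Algebra.FormallySmooth.liftOfSurjective_apply u' q' hq hn a

/-- Uniqueness of lifts along an etale homomorphism. -/
theorem lift_unique (f : R →+* R') (hf : f.Etale) (q : G →+* G')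
    (hk : ∀ v w, q v = 0 → q w = 0 → v * w = 0) (v v' : R' →+* G)
    (h : ∀ r, v (f r) = v' (f r)) (h' : ∀ a, q (v a) = q (v' a)) : v = v' := by
  let : Algebra R R' := f.toAlgebra
  let : Algebra R G := (v.comp f).toAlgebra
  have : Algebra.Etale R R' := hf
  let w : R' →ₐ[R] G := { v with commutes' := fun r => rfl }
  let w' : R' →ₐ[R] G := { v' with commutes' := fun r => (h r).symm }
  have := Algebra.FormallyUnramified.ext' (R := R) (A := R') q (nilp q hk) w w' h'
  ext a
  exact congrArg (fun z : R' →ₐ[R] G => z a) this

/-- The same, with the values of `v'` in another form. -/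
theorem lift_unique' (f : R →+* R') (hf : f.Etale) (q : G →+* G')
    (hk : ∀ v w, q v = 0 → q w = 0 → v * w = 0) (v v' : R' →+* G)
    (h : ∀ r, v (f r) = v' (f r)) (h' : ∀ a, q (v a) = q (v' a)) (a : R') : v a = v' a := by
  rw [lift_unique f hf q hk v v' h h']

end

/-! ## Etale algebras over `k[x]` -/

section

variable {k : Type} [Field k] {R : Type} [CommRing R] [Algebra k R]

/-- `z` is an etale coordinate on `R`. -/
def EtCo (k : Type) [Field k] {R : Type} [CommRing R] [Algebra k R] (z : R) : Prop :=
  (Polynomial.aeval z : Polynomial k →ₐ[k] R).toRingHom.Etale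

/-- Lifting: a homomorphism from an etale algebra `R` over `k[z]` through a surjection `q` with
square zero kernel; the value at `z` may be prescribed. -/
theorem exists_lift_co {z : R} (hz : EtCo k z) {G G' : Type} [CommRing G] [CommRing G']
    (κ : k →+* G) (q : G →+* G') (hq : Function.Surjective q)
    (hk : ∀ v w, q v = 0 → q w = 0 → v * w = 0) (u : R →+* G')
    (hκ : ∀ c, u (algebraMap k R c) = q (κ c)) (z' : G) (hz' : q z' = u z) :
    ∃ v : R →+* G, v z = z' ∧ (∀ c, v (algebraMap k R c) = κ c) ∧ ∀ a, q (v a) = u a := by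
  have h : ∀ r : Polynomial k, u ((Polynomial.aeval z : Polynomial k →ₐ[k] R).toRingHom r) =
      q ((Polynomial.eval₂RingHom κ z') r) := by
    intro r
    have : u.comp (Polynomial.aeval z : Polynomial k →ₐ[k] R).toRingHom =
        q.comp (Polynomial.eval₂RingHom κ z') := by
      refine Polynomial.ringHom_ext (fun c => ?_) ?_
      · simp [hκ]
      · simp [hz']
    exact congrArg (fun w : Polynomial k →+* G' => w r) this
  obtain ⟨v, hv, hv'⟩ := exists_lift _ hz (Polynomial.eval₂RingHom κ z') q hq hk u h
  refine ⟨v, ?_, fun c => ?_, hv'⟩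
  · simpa using hv Polynomial.X
  · simpa using hv (Polynomial.C c)

/-- Uniqueness of lifts from an etale algebra over `k[z]`. -/
theorem unique_co {z : R} (hz : EtCo k z) {G G' : Type} [CommRing G] [CommRing G']
    (q : G →+* G') (hk : ∀ v w, q v = 0 → q w = 0 → v * w = 0) (v v' : R →+* G)
    (h1 : v z = v' z) (h2 : ∀ c, v (algebraMap k R c) = v' (algebraMap k R c))
    (h3 : ∀ a, q (v a) = q (v' a)) : v = v' := by
  refine lift_unique _ hz q hk v v' (fun r => ?_) h3
  have : v.comp (Polynomial.aeval z : Polynomial k →ₐ[k] R).toRingHom =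
      v'.comp (Polynomial.aeval z : Polynomial k →ₐ[k] R).toRingHom := by
    refine Polynomial.ringHom_ext (fun c => ?_) ?_
    · simp [h2]
    · simp [h1]
  exact congrArg (fun w : Polynomial k →+* G => w r) this

/-- The composition of etale homomorphisms. -/
theorem EtCo.comp {z : R} (hz : EtCo k z) {R' : Type} [CommRing R'] [Algebra k R']
    (f : R →ₐ[k] R') (hf : f.toRingHom.Etale) : EtCo k (f z) := by
  have h : (Polynomial.aeval (f z) : Polynomial k →ₐ[k] R').toRingHom =
      f.toRingHom.comp (Polynomial.aeval z : Polynomial k →ₐ[k] R).toRingHom := by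
    refine Polynomial.ringHom_ext (fun c => ?_) ?_
    · simp
    · simp
  unfold EtCo
  rw [h]
  exact RingHom.Etale.stableUnderComposition _ _ hz hf

/-- A derivation of an etale algebra over `k[z]` which vanishes at `z` is zero. -/
theorem deriv_zero {z : R} (hz : EtCo k z) {M : Type*} [AddCommGroup M] [Module k M] [Module R M]
    [IsScalarTower k R M] (D : Derivation k R M) (h : D z = 0) : D = 0 := by
  let : Algebra (Polynomial k) R := (Polynomial.aeval z : Polynomial k →ₐ[k] R).toRingHom.toAlgebra
  have : Algebra.Etale (Polynomial k) R := hz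
  let : Module (Polynomial k) M := Module.compHom M
    (Polynomial.aeval z : Polynomial k →ₐ[k] R).toRingHom
  have : IsScalarTower (Polynomial k) R M := ⟨fun p r m => by
    change (((Polynomial.aeval z : Polynomial k →ₐ[k] R) p) * r) • m =
      ((Polynomial.aeval z : Polynomial k →ₐ[k] R) p) • r • m
    rw [mul_smul]⟩
  have hp : ∀ p : Polynomial k, D ((Polynomial.aeval z : Polynomial k →ₐ[k] R) p) = 0 := by
    intro p
    induction p using Polynomial.induction_on' with
    | add p q hp hq => rw [map_add, map_add, hp, hq, add_zero]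
    | monomial n c =>
      rw [Polynomial.aeval_monomial, Derivation.leibniz, Derivation.leibniz_pow, h]
      simp
  let D' : Derivation (Polynomial k) R M :=
    { toFun := D
      map_add' := map_add D
      map_smul' := fun p r => by
        change D (((Polynomial.aeval z : Polynomial k →ₐ[k] R) p) * r) =
          ((Polynomial.aeval z : Polynomial k →ₐ[k] R) p) • D r
        rw [Derivation.leibniz, hp, smul_zero, add_zero]
      map_one_eq_zero' := D.map_one_eq_zero
      leibniz' := D.leibniz }
  have hD' : D' = 0 := by
    have h1 := (KaehlerDifferential.linearMapEquivDerivation (Polynomial k) R).surjective D'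
    obtain ⟨l, hl⟩ := h1
    have : l = 0 := LinearMap.ext fun x => by
      rw [Subsingleton.elim x 0, map_zero, map_zero]
    rw [← hl, this, map_zero]
  ext a
  exact congrArg (fun d : Derivation (Polynomial k) R M => d a) hD'

/-- Derivations of an etale algebra over `k[z]` are determined by the value at `z`. -/
theorem deriv_ext {z : R} (hz : EtCo k z) {M : Type*} [AddCommGroup M] [Module k M] [Module R M]
    [IsScalarTower k R M] (D D' : Derivation k R M) (h : D z = D' z) : D = D' := by
  have := deriv_zero hz (D - D') (by rw [Derivation.sub_apply, h, sub_self])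
  exact sub_eq_zero.mp this

/-- The derivation `d/dz` of an etale algebra over `k[z]`. -/
theorem exists_deriv {z : R} (hz : EtCo k z) : ∃ d : Derivation k R R, d z = 1 := by
  have hq : Function.Surjective (TrivSqZeroExt.fstHom R R R).toRingHom :=
    fun a => ⟨TrivSqZeroExt.inl a, rfl⟩
  obtain ⟨v, hv1, hv2, hv3⟩ := exists_lift_co hz (G := TrivSqZeroExt R R) (G' := R)
    ((TrivSqZeroExt.inlHom R R).comp (algebraMap k R)) (TrivSqZeroExt.fstHom R R R).toRingHom hq
    (fun v w hv hw => by
      have hv' : v.fst = 0 := hv
      have hw' : w.fst = 0 := hw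
      ext <;> simp [hv', hw']) (RingHom.id R) (fun c => rfl)
    (TrivSqZeroExt.inl z + TrivSqZeroExt.inr 1) (by
      change (TrivSqZeroExt.inl z + TrivSqZeroExt.inr 1 : TrivSqZeroExt R R).fst = z
      simp)
  have hf : ∀ a, (v a).fst = a := hv3
  refine ⟨{ toFun := fun a => (v a).snd
            map_add' := fun a b => by rw [map_add, TrivSqZeroExt.snd_add]
            map_smul' := fun c a => by
              rw [Algebra.smul_def, map_mul, TrivSqZeroExt.snd_mul, hv2, hf]
              simp [Algebra.smul_def]
            map_one_eq_zero' := by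
              change (v 1).snd = 0
              rw [map_one, TrivSqZeroExt.snd_one]
            leibniz' := fun a b => by
              change (v (a * b)).snd = a • (v b).snd + b • (v a).snd
              rw [map_mul, TrivSqZeroExt.snd_mul, hf, hf]
              simp [mul_comm] }, ?_⟩
  change (v z).snd = 1
  rw [hv1]
  simp

end

/-! ## Two-chart data -/

section

variable {k : Type} [Field k] (T : TC k)

theorem etx : EtCo k T.x := T.etx

theorem ety : EtCo k T.y := T.ety

theorem etjx : EtCo k (T.j1 T.x) := (etx T).comp T.j1 T.et1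

theorem etjy : EtCo k (T.j2 T.y) := (ety T).comp T.j2 T.et2

/-- A derivation of `R₁₂` which vanishes at `x` is zero. -/
theorem deriv12_zero {M : Type*} [AddCommGroup M] [Module k M] [Module T.R12 M]
    [IsScalarTower k T.R12 M] (D : Derivation k T.R12 M) (h : D (T.j1 T.x) = 0) : D = 0 :=
  deriv_zero (etjx T) D h

/-- The derivation `d/dx` of `R₁`. -/
theorem exists_d1 : ∃ d : Derivation k T.R1 T.R1, d T.x = 1 ∧
    ∀ a, T.j1 (d a) = T.dd (T.j1 a) := by
  obtain ⟨d, hd⟩ := exists_deriv (etx T)
  refine ⟨d, hd, ?_⟩
  let : Module T.R1 T.R12 := Module.compHom T.R12 (T.j1 : T.R1 →+* T.R12)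
  have : IsScalarTower k T.R1 T.R12 := ⟨fun c a b => by
    change T.j1 (c • a) * b = c • (T.j1 a * b)
    rw [map_smul, smul_mul_assoc]⟩
  let D1 : Derivation k T.R1 T.R12 :=
    { toFun := fun a => T.j1 (d a)
      map_add' := fun a b => by rw [map_add, map_add]
      map_smul' := fun c a => by
        rw [Derivation.map_smul, map_smul, RingHom.id_apply]
      map_one_eq_zero' := by
        change T.j1 (d 1) = 0
        rw [Derivation.map_one_eq_zero, map_zero]
      leibniz' := fun a b => by
        change T.j1 (d (a * b)) = T.j1 a * T.j1 (d b) + T.j1 b * T.j1 (d a)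
        rw [Derivation.leibniz, map_add, smul_eq_mul, smul_eq_mul, map_mul, map_mul] }
  let D2 : Derivation k T.R1 T.R12 :=
    { toFun := fun a => T.dd (T.j1 a)
      map_add' := fun a b => by rw [map_add, map_add]
      map_smul' := fun c a => by
        rw [map_smul, Derivation.map_smul, RingHom.id_apply]
      map_one_eq_zero' := by
        change T.dd (T.j1 1) = 0
        rw [map_one, Derivation.map_one_eq_zero]
      leibniz' := fun a b => by
        change T.dd (T.j1 (a * b)) = T.j1 a * T.dd (T.j1 b) + T.j1 b * T.dd (T.j1 a)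
        rw [map_mul, Derivation.leibniz, smul_eq_mul, smul_eq_mul] }
  have h : D1 = D2 := by
    refine deriv_ext (etx T) D1 D2 ?_
    change T.j1 (d T.x) = T.dd (T.j1 T.x)
    rw [hd, map_one, T.ddx]
  intro a
  exact congrArg (fun D : Derivation k T.R1 T.R12 => D a) h

/-- The derivation `d/dy` of `R₂`; on `R₁₂` it is `e d/dx`. -/
theorem exists_d2 : ∃ d : Derivation k T.R2 T.R2, d T.y = 1 ∧
    ∀ a, T.j2 (d a) = T.e * T.dd (T.j2 a) := by
  obtain ⟨d, hd⟩ := exists_deriv (ety T)
  refine ⟨d, hd, ?_⟩
  let : Module T.R2 T.R12 := Module.compHom T.R12 (T.j2 : T.R2 →+* T.R12)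
  have : IsScalarTower k T.R2 T.R12 := ⟨fun c a b => by
    change T.j2 (c • a) * b = c • (T.j2 a * b)
    rw [map_smul, smul_mul_assoc]⟩
  let D1 : Derivation k T.R2 T.R12 :=
    { toFun := fun a => T.j2 (d a)
      map_add' := fun a b => by rw [map_add, map_add]
      map_smul' := fun c a => by
        rw [Derivation.map_smul, map_smul, RingHom.id_apply]
      map_one_eq_zero' := by
        change T.j2 (d 1) = 0
        rw [Derivation.map_one_eq_zero, map_zero]
      leibniz' := fun a b => by
        change T.j2 (d (a * b)) = T.j2 a * T.j2 (d b) + T.j2 b * T.j2 (d a)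
        rw [Derivation.leibniz, map_add, smul_eq_mul, smul_eq_mul, map_mul, map_mul] }
  let D2 : Derivation k T.R2 T.R12 :=
    { toFun := fun a => T.e * T.dd (T.j2 a)
      map_add' := fun a b => by rw [map_add, map_add, mul_add]
      map_smul' := fun c a => by
        rw [map_smul, Derivation.map_smul, RingHom.id_apply, mul_smul_comm]
      map_one_eq_zero' := by
        change T.e * T.dd (T.j2 1) = 0
        rw [map_one, Derivation.map_one_eq_zero, mul_zero]
      leibniz' := fun a b => by
        change T.e * T.dd (T.j2 (a * b)) =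
          T.j2 a * (T.e * T.dd (T.j2 b)) + T.j2 b * (T.e * T.dd (T.j2 a))
        rw [map_mul, Derivation.leibniz, smul_eq_mul, smul_eq_mul]
        ring }
  have h : D1 = D2 := by
    refine deriv_ext (ety T) D1 D2 ?_
    change T.j2 (d T.y) = T.e * T.dd (T.j2 T.y)
    rw [hd, map_one, T.ey]
  intro a
  exact congrArg (fun D : Derivation k T.R2 T.R12 => D a) h

end

end Lift

end Pool.Agent.MG
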