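import Pool.Agent.MG.StmtsC
import Pool.Agent.MG.AFF
import Pool.Agent.MG.CST
import Pool.Agent.MG.Lift

/-!
# The charts of a nowhere vanishing vector field (module VFE)
-/

open CategoryTheory CategoryTheory.Limits AlgebraicGeometry TensorProduct

namespace Pool.Agent.MG

namespace VFE

section

variable {k : Type} [Field k]

theorem eps_comp : spMap (eps0 k) ≫ spMap (algebraMap k (Eps k)) = 𝟙 (Sp k) := by
  rw [← CST.spMap_comp]
  have h : (eps0 k).comp (algebraMap k (Eps k)) = RingHom.id k := by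
    ext a
    simp
  rw [h]
  exact Spec.map_id _

variable {X : Scheme.{0}} (π : X ⟶ Sp k)

/-- The scheme as a family without marked points. -/
noncomputable def fam : Fam 0 k := ⟨X, π, fun i => i.elim0, fun i => i.elim0⟩

/-- The zero section of `X[ε]`. -/
noncomputable def z0 : X ⟶ XE π :=
  pullback.lift (𝟙 X) (π ≫ spMap (eps0 k)) (by
    rw [Category.id_comp, Category.assoc, eps_comp, Category.comp_id])

theorem z0_fst : z0 π ≫ pullback.fst _ _ = 𝟙 X := pullback.lift_fst _ _ _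

theorem z0_snd : z0 π ≫ pullback.snd _ _ = π ≫ spMap (eps0 k) := pullback.lift_snd _ _ _

theorem z0_cart : IsPullback (z0 π) π (pullback.snd π (spMap (algebraMap k (Eps k))))
    (spMap (eps0 k)) := by
  refine IsPullback.of_right (h₁₂ := pullback.fst π (spMap (algebraMap k (Eps k))))
    (h₂₂ := spMap (algebraMap k (Eps k))) (v₁₃ := π) ?_ (z0_snd π) (IsPullback.of_hasPullback _ _)
  rw [z0_fst, eps_comp]
  exact IsPullback.of_horiz_isIso ⟨by rw [Category.id_comp, Category.comp_id]⟩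

instance flat : Flat π := inferInstance

/-- `X[ε]` as a thickening. -/
noncomputable def thk : Thk (sqEps k) (fam π) where
  y := ⟨XE π, pullback.snd _ _, fun i => i.elim0, fun i => i.elim0⟩
  flat := by
    change Flat (pullback.snd π (spMap (algebraMap k (Eps k))))
    infer_instance
  r := ⟨z0 π, z0_cart π, fun i => i.elim0⟩

/-- The open subset of `X[ε]`. -/
noncomputable abbrev P (U : X.Opens) : (XE π).Opens :=
  pullback.fst π (spMap (algebraMap k (Eps k))) ⁻¹ᵁ U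

theorem op_of (f : XE π ⟶ X) (hf : z0 π ≫ f = 𝟙 X) (U : X.Opens) :
    (thk π).op U = f ⁻¹ᵁ U := by
  have h1 : (z0 π) ⁻¹ᵁ (f ⁻¹ᵁ U) = U := by
    have h2 : (z0 π) ⁻¹ᵁ (f ⁻¹ᵁ U) = (z0 π ≫ f) ⁻¹ᵁ U := rfl
    rw [h2, hf]
    rfl
  have h3 := (thk π).op_pre (f ⁻¹ᵁ U)
  have h4 : (thk π).r.f ⁻¹ᵁ (f ⁻¹ᵁ U) = U := h1
  rw [h4] at h3
  exact h3

theorem op_P (U : X.Opens) : (thk π).op U = P π U := op_of π _ (z0_fst π) U

theorem z0_P (U : X.Opens) : U ≤ z0 π ⁻¹ᵁ P π U := by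
  have h2 : (z0 π) ⁻¹ᵁ (P π U) = (z0 π ≫ pullback.fst _ _) ⁻¹ᵁ U := rfl
  rw [h2, z0_fst]
  exact le_rfl

/-- The generator. -/
noncomputable def ee (W : (XE π).Opens) : Γ(XE π, W) :=
  coef (pullback.snd π (spMap (algebraMap k (Eps k)))) W (TrivSqZeroExt.inr 1)

/-- Reduction. -/
noncomputable def qq (U : X.Opens) : Γ(XE π, P π U) →+* Γ(X, U) :=
  ((z0 π).appLE (P π U) U (z0_P π U)).hom

/-- Pull back by the projection. -/
noncomputable def fs (U : X.Opens) : Γ(X, U) →+* Γ(XE π, P π U) :=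
  ((pullback.fst π (spMap (algebraMap k (Eps k)))).appLE U _ le_rfl).hom

theorem ker' (U : X.Opens) (hU : IsAffineOpen U) (W : (XE π).Opens) (hW : (thk π).op U = W)
    (h : U ≤ z0 π ⁻¹ᵁ W) (v : Γ(XE π, W)) (hv : ((z0 π).appLE W U h).hom v = 0) :
    ∃ w, v = ee π W * w := by
  subst hW
  obtain ⟨w, hw⟩ := AffLem.ker (thk π) U (t_AFF _ _ hU) v hv
  refine ⟨w (), hw.trans ?_⟩
  exact Fintype.sum_unique _

theorem un' (U : X.Opens) (hU : IsAffineOpen U) (W : (XE π).Opens) (hW : (thk π).op U = W)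
    (h : U ≤ z0 π ⁻¹ᵁ W) (w : Γ(XE π, W)) (hw : ee π W * w = 0) :
    ((z0 π).appLE W U h).hom w = 0 := by
  subst hW
  exact AffLem.un (thk π) U (t_AFF _ _ hU) (fun _ => w)
    ((Fintype.sum_unique _).trans hw) ()

theorem ker (U : X.Opens) (hU : IsAffineOpen U) (v : Γ(XE π, P π U)) (hv : qq π U v = 0) :
    ∃ w, v = ee π _ * w := ker' π U hU _ (op_P π U) _ v hv

theorem un (U : X.Opens) (hU : IsAffineOpen U) (w : Γ(XE π, P π U))
    (hw : ee π _ * w = 0) : qq π U w = 0 := un' π U hU _ (op_P π U) _ w hw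

theorem ee_mul (W : (XE π).Opens) : ee π W * ee π W = 0 := by
  unfold ee
  rw [← map_mul, TrivSqZeroExt.inr_mul_inr, map_zero]

theorem appLE_id (U : X.Opens) (h : U ≤ 𝟙 X ⁻¹ᵁ U) (a : Γ(X, U)) :
    ((𝟙 X : X ⟶ X).appLE U U h).hom a = a := by
  have h1 : (𝟙 X : X ⟶ X).appLE U U h = 𝟙 _ := by
    unfold Scheme.Hom.appLE
    rw [Scheme.Hom.id_app]
    exact (Category.id_comp _).trans (X.presheaf.map_id _)
  rw [h1]
  rfl

theorem qq_of (f : XE π ⟶ X) (hf : z0 π ≫ f = 𝟙 X) (U : X.Opens) (h : P π U ≤ f ⁻¹ᵁ U)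
    (a : Γ(X, U)) : qq π U ((f.appLE U (P π U) h).hom a) = a := by
  have h1 := Scheme.Hom.appLE_comp_appLE (z0 π) f U (P π U) U h (z0_P π U)
  have h2 := ConcreteCategory.congr_hom h1 a
  refine Eq.trans h2 ?_
  have h3 : ∀ (g : X ⟶ X) (hg : g = 𝟙 X) (hU : U ≤ g ⁻¹ᵁ U), (g.appLE U U hU).hom a = a := by
    intro g hg hU
    subst hg
    exact appLE_id U hU a
  exact h3 _ hf _

theorem qq_fs (U : X.Opens) (a : Γ(X, U)) : qq π U (fs π U a) = a :=
  qq_of π _ (z0_fst π) U le_rfl a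

variable {π}

theorem le_θ (Φ : Flow π) (U : X.Opens) : P π U ≤ Φ.θ ⁻¹ᵁ U := by
  rw [← op_P π U, op_of π Φ.θ (Φ.h0 _ (z0_fst π) (z0_snd π)) U]

/-- Pull back by the vector field. -/
noncomputable def ts (Φ : Flow π) (U : X.Opens) : Γ(X, U) →+* Γ(XE π, P π U) :=
  (Φ.θ.appLE U _ (le_θ Φ U)).hom

theorem has_iff (Φ : Flow π) (U : X.Opens) (s w : Γ(X, U)) :
    Φ.Has U s w ↔ ts Φ U s = fs π U s + ee π _ * fs π U w :=
  ⟨fun h => h.2, fun h => ⟨le_θ Φ U, h⟩⟩

theorem qq_ts (Φ : Flow π) (U : X.Opens) (a : Γ(X, U)) : qq π U (ts Φ U a) = a :=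
  qq_of π _ (Φ.h0 _ (z0_fst π) (z0_snd π)) U _ a

theorem exists_w (Φ : Flow π) (U : X.Opens) (hU : IsAffineOpen U) (a : Γ(X, U)) :
    ∃ w, Φ.Has U a w := by
  obtain ⟨v, hv⟩ := ker π U hU (ts Φ U a - fs π U a) (by rw [map_sub, qq_ts, qq_fs, sub_self])
  obtain ⟨v', hv'⟩ := ker π U hU (v - fs π U (qq π U v)) (by rw [map_sub, qq_fs, sub_self])
  refine ⟨qq π U v, (has_iff Φ U a _).2 ?_⟩
  have h1 : ee π (P π U) * v = ee π (P π U) * fs π U (qq π U v) := by
    have h2 : v = fs π U (qq π U v) + ee π (P π U) * v' := by rw [← hv']; ring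
    have h3 : ee π (P π U) * (ee π (P π U) * v') = 0 := by
      rw [← mul_assoc, ee_mul, zero_mul]
    calc ee π (P π U) * v = ee π (P π U) * (fs π U (qq π U v) + ee π (P π U) * v') := by
          rw [← h2]
      _ = _ := by rw [mul_add, h3, add_zero]
  rw [← h1, ← hv]
  ring

theorem uniq (Φ : Flow π) (U : X.Opens) (hU : IsAffineOpen U) {a w w' : Γ(X, U)}
    (h : Φ.Has U a w) (h' : Φ.Has U a w') : w = w' := by
  rw [has_iff] at h h'
  have h1 : ee π (P π U) * fs π U (w - w') = 0 := by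
    have h2 := h.symm.trans h'
    rw [map_sub, mul_sub, sub_eq_zero]
    exact add_left_cancel h2
  have h2 := un π U hU _ h1
  rw [qq_fs] at h2
  exact sub_eq_zero.1 h2

theorem has_add (Φ : Flow π) (U : X.Opens) {a b w v : Γ(X, U)}
    (h : Φ.Has U a w) (h' : Φ.Has U b v) : Φ.Has U (a + b) (w + v) := by
  rw [has_iff] at h h' ⊢
  rw [map_add, h, h', map_add, map_add]
  ring

theorem has_mul (Φ : Flow π) (U : X.Opens) {a b w v : Γ(X, U)}
    (h : Φ.Has U a w) (h' : Φ.Has U b v) : Φ.Has U (a * b) (a * v + b * w) := by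
  rw [has_iff] at h h' ⊢
  rw [map_mul, h, h', map_mul, map_add, map_mul, map_mul]
  have h1 := ee_mul π (P π U)
  have h2 : (fs π U a + ee π (P π U) * fs π U w) * (fs π U b + ee π (P π U) * fs π U v) =
      fs π U a * fs π U b + ee π (P π U) * (fs π U a * fs π U v + fs π U b * fs π U w) +
      (ee π (P π U) * ee π (P π U)) * (fs π U w * fs π U v) := by ring
  rw [h2, h1, zero_mul, add_zero]

theorem has_coef (Φ : Flow π) (U : X.Opens) (c : k) : Φ.Has U (coef π U c) 0 := by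
  rw [has_iff, map_zero, mul_zero, add_zero]
  have h1 : ts Φ U (coef π U c) = _ := coef_comp π Φ.θ U (P π U) (le_θ Φ U) c
  have h2 : fs π U (coef π U c) = _ :=
    coef_comp π (pullback.fst π (spMap (algebraMap k (Eps k)))) U (P π U) le_rfl c
  rw [h1, h2, Φ.hπ, pullback.condition]

theorem has_res (Φ : Flow π) {U V : X.Opens} (hVU : V ≤ U) {a w : Γ(X, U)}
    (h : Φ.Has U a w) : Φ.Has V (rs X hVU a) (rs X hVU w) := by
  have hP : P π V ≤ P π U := fun x hx => hVU hx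
  rw [has_iff] at h ⊢
  have e1 : ∀ b : Γ(X, U), fs π V (rs X hVU b) = rs (XE π) hP (fs π U b) := by
    intro b
    change (X.presheaf.map (homOfLE hVU).op ≫
      (pullback.fst π (spMap (algebraMap k (Eps k)))).appLE V (P π V) le_rfl) b =
      ((pullback.fst π (spMap (algebraMap k (Eps k)))).appLE U (P π U) le_rfl ≫
        (XE π).presheaf.map (homOfLE hP).op) b
    rw [Scheme.Hom.map_appLE, Scheme.Hom.appLE_map]
  have e2 : ∀ b : Γ(X, U), ts Φ V (rs X hVU b) = rs (XE π) hP (ts Φ U b) := by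
    intro b
    change (X.presheaf.map (homOfLE hVU).op ≫ Φ.θ.appLE V (P π V) (le_θ Φ V)) b =
      (Φ.θ.appLE U (P π U) (le_θ Φ U) ≫ (XE π).presheaf.map (homOfLE hP).op) b
    rw [Scheme.Hom.map_appLE, Scheme.Hom.appLE_map]
  have e3 : rs (XE π) hP (ee π (P π U)) = ee π (P π V) := coef_rs _ _ _
  rw [e1, e1, e2, h, map_add, map_mul, e3]

/-- Derivations from functions. -/
theorem exists_der {R A : Type} [CommRing R] [Algebra k R] [CommRing A] (κ : k →+* A)
    (ρ : R ≃+* A) (hρ : ∀ c, ρ (algebraMap k R c) = κ c) (D : A → A)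
    (ha : ∀ a b, D (a + b) = D a + D b) (hm : ∀ a b, D (a * b) = a * D b + b * D a)
    (hc : ∀ c, D (κ c) = 0) : ∃ D' : Derivation k R R, ∀ a, ρ (D' a) = D (ρ a) := by
  refine ⟨{ toFun := fun a => ρ.symm (D (ρ a))
            map_add' := fun a b => by rw [map_add, ha, map_add]
            map_smul' := fun c a => by
              rw [Algebra.smul_def, map_mul, hm, hρ, hc, mul_zero, add_zero, map_mul,
                ← hρ, RingEquiv.symm_apply_apply, RingHom.id_apply, Algebra.smul_def]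
            map_one_eq_zero' := by
              change ρ.symm (D (ρ 1)) = 0
              have h1 := hc 1
              rw [map_one] at h1
              rw [map_one, h1, map_zero]
            leibniz' := fun a b => by
              change ρ.symm (D (ρ (a * b))) = a • ρ.symm (D (ρ b)) + b • ρ.symm (D (ρ a))
              rw [map_mul, hm, map_add, map_mul, map_mul, RingEquiv.symm_apply_apply,
                RingEquiv.symm_apply_apply, smul_eq_mul, smul_eq_mul] }, fun a => ?_⟩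
  change ρ (ρ.symm (D (ρ a))) = _
  exact RingEquiv.apply_symm_apply _ _

/-- The derivation of a vector field on an affine open subset. -/
theorem exists_D (Φ : Flow π) (U : X.Opens) (hU : IsAffineOpen U) {R : Type} [CommRing R]
    [Algebra k R] (ρ : R ≃+* Γ(X, U)) (hρ : ∀ c, ρ (algebraMap k R c) = coef π U c) :
    ∃ D : Derivation k R R, ∀ a, Φ.Has U (ρ a) (ρ (D a)) := by
  choose D hD using exists_w Φ U hU
  obtain ⟨D', hD'⟩ := exists_der (coef π U) ρ hρ D
    (fun a b => uniq Φ U hU (hD _) (has_add Φ U (hD a) (hD b)))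
    (fun a b => uniq Φ U hU (hD _) (has_mul Φ U (hD a) (hD b)))
    (fun c => uniq Φ U hU (hD _) (has_coef Φ U c))
  refine ⟨D', fun a => ?_⟩
  rw [hD']
  exact hD _

theorem etale_res {U : X.Opens} (hU : IsAffineOpen U) (f : Γ(X, U)) :
    (rs X (X.basicOpen_le f)).Etale := by
  have hloc := hU.isLocalization_basicOpen f
  let _ : Algebra Γ(X, U) Γ(X, X.basicOpen f) := (rs X (X.basicOpen_le f)).toAlgebra
  have hloc' : IsLocalization.Away f Γ(X, X.basicOpen f) := hloc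
  exact Algebra.Etale.of_isLocalizationAway f

/-- The value of a nowhere vanishing vector field at a coordinate is a unit. -/
theorem isUnit_of_nv (Φ : Flow π) (hΦ : Φ.NV) (U : X.Opens) (hU : IsAffineOpen U)
    {R : Type} [CommRing R] [Algebra k R] (ρ : R ≃+* Γ(X, U))
    (hρ : ∀ c, ρ (algebraMap k R c) = coef π U c) {x : R} (hx : Lift.EtCo k x)
    {g : Γ(X, U)} (hg : Φ.Has U (ρ x) g) : IsUnit g := by
  have key : ∀ p ∈ U, p ∈ X.basicOpen g := by
    intro p hp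
    obtain ⟨W, s, w, hpW, hw, hs⟩ := hΦ p
    obtain ⟨f, hf, hpf⟩ := hU.exists_basicOpen_le ⟨p, hpW⟩ hp
    have hle : X.basicOpen f ≤ U := X.basicOpen_le f
    have hV : IsAffineOpen (X.basicOpen f) := hU.basicOpen f
    let _ : Algebra k Γ(X, X.basicOpen f) := (coef π (X.basicOpen f)).toAlgebra
    obtain ⟨D, hD⟩ := exists_D Φ (X.basicOpen f) hV (RingEquiv.refl _) (fun c => rfl)
    -- the coordinate on the basic open subset
    let j : R →ₐ[k] Γ(X, X.basicOpen f) :=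
      { (rs X hle).comp (ρ : R →+* Γ(X, U)) with
        commutes' := fun c => by
          change rs X hle (ρ (algebraMap k R c)) = coef π (X.basicOpen f) c
          rw [hρ, coef_rs] }
    have hj : j.toRingHom.Etale := by
      change ((rs X hle).comp (ρ : R →+* Γ(X, U))).Etale
      exact RingHom.Etale.stableUnderComposition _ _
        (RingHom.Etale.of_bijective ρ.bijective) (etale_res hU f)
    have hz := hx.comp j hj
    obtain ⟨d, hd⟩ := Lift.exists_deriv hz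
    have hjx : j x = rs X hle (ρ x) := rfl
    have h1 : D (j x) = rs X hle g := uniq Φ _ hV (hD (j x)) (has_res Φ hle hg)
    have h2 : D = rs X hle g • d := by
      refine Lift.deriv_ext hz D (rs X hle g • d) ?_
      rw [h1, Derivation.smul_apply, hd, smul_eq_mul, mul_one]
    have h3 : D (rs X hf s) = rs X hf w := uniq Φ _ hV (hD _) (has_res Φ hf hs)
    have h4 : rs X hle g * d (rs X hf s) = rs X hf w := by
      rw [← h3, h2, Derivation.smul_apply, smul_eq_mul]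
    have h5 : IsUnit (rs X hle g) := isUnit_of_mul_isUnit_left (h4 ▸ hw.map (rs X hf))
    have h6 : X.basicOpen (rs X hle g) = X.basicOpen f ⊓ X.basicOpen g :=
      X.basicOpen_res g (homOfLE hle).op
    rw [X.basicOpen_of_isUnit h5] at h6
    have h7 : p ∈ X.basicOpen f ⊓ X.basicOpen g := by
      rw [← h6]
      exact hpf
    exact h7.2
  have h1 : U ≤ X.basicOpen g := key
  have h2 : IsUnit (rs X (X.basicOpen_le g) g) := X.toRingedSpace.isUnit_res_basicOpen g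
  have h3 := h2.map (rs X h1)
  have h4 : rs X h1 (rs X (X.basicOpen_le g) g) = g := by
    rw [AFF.rs_rs]
    change (X.presheaf.map (homOfLE (le_refl U)).op) g = g
    have : (homOfLE (le_refl U)).op = 𝟙 (Opposite.op U) := rfl
    rw [this, X.presheaf.map_id]
    rfl
  rw [h4] at h3
  exact h3

end

/-- Functions on a chart. -/
theorem exists_ring {k : Type} [Field k] {X : Scheme.{0}} {π : X ⟶ Sp k} {U : X.Opens}
    {R : Type} [CommRing R] [Algebra k R] (t : k ⊗[k] R →+* Γ(X, U)) (ht : Function.Bijective t)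
    (hc : ∀ b : k, t (b ⊗ₜ 1) = coef π U b) :
    ∃ ρ : R ≃+* Γ(X, U), (∀ a, ρ a = t (1 ⊗ₜ a)) ∧ ∀ c, ρ (algebraMap k R c) = coef π U c := by
  refine ⟨(Algebra.TensorProduct.lid k R).symm.toRingEquiv.trans (RingEquiv.ofBijective t ht),
    fun a => rfl, fun c => ?_⟩
  change t (1 ⊗ₜ algebraMap k R c) = _
  rw [← hc, Algebra.algebraMap_eq_smul_one, ← TensorProduct.smul_tmul, smul_eq_mul, mul_one]

end VFE

theorem t_VFE : Stmt_VFE := by
  intro n k _ T C _ ct ha Φ hΦ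
  obtain ⟨ρ1, h1, h1c⟩ := VFE.exists_ring ct.t1 ct.b1 ct.c1
  obtain ⟨ρ2, h2, h2c⟩ := VFE.exists_ring ct.t2 ct.b2 ct.c2
  obtain ⟨ρ3, h3, h3c⟩ := VFE.exists_ring ct.t12 ct.b12 ct.c12
  obtain ⟨D1, hD1⟩ := VFE.exists_D Φ ct.U1 ha.aff1 ρ1 h1c
  obtain ⟨D2, hD2⟩ := VFE.exists_D Φ ct.U2 ha.aff2 ρ2 h2c
  obtain ⟨D3, hD3⟩ := VFE.exists_D Φ (ct.U1 ⊓ ct.U2) ha.aff12 ρ3 h3c
  have u1 := VFE.isUnit_of_nv Φ hΦ ct.U1 ha.aff1 ρ1 h1c (Lift.etx T) (hD1 T.x)
  have u2 := VFE.isUnit_of_nv Φ hΦ ct.U2 ha.aff2 ρ2 h2c (Lift.ety T) (hD2 T.y)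
  have v1 : IsUnit (D1 T.x) := by simpa using u1.map ρ1.symm
  have v2 : IsUnit (D2 T.y) := by simpa using u2.map ρ2.symm
  obtain ⟨ri, hri⟩ := v1.exists_right_inv
  obtain ⟨si, hsi⟩ := v2.exists_right_inv
  have c1 : ∀ a, D3 (T.j1 a) = T.j1 (D1 a) := by
    intro a
    apply ρ3.injective
    refine VFE.uniq Φ _ ha.aff12 (hD3 (T.j1 a)) ?_
    have h4 := VFE.has_res Φ (inf_le_left : ct.U1 ⊓ ct.U2 ≤ ct.U1) (hD1 a)
    rw [h1, h1, ct.r1, ct.r1, ← h3, ← h3] at h4
    exact h4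
  have c2 : ∀ a, D3 (T.j2 a) = T.j2 (D2 a) := by
    intro a
    apply ρ3.injective
    refine VFE.uniq Φ _ ha.aff12 (hD3 (T.j2 a)) ?_
    have h4 := VFE.has_res Φ (inf_le_right : ct.U1 ⊓ ct.U2 ≤ ct.U2) (hD2 a)
    rw [h2, h2, ct.r2, ct.r2, ← h3, ← h3] at h4
    exact h4
  have e3 : D3 = T.j1 (D1 T.x) • T.dd := by
    refine Lift.deriv_ext (Lift.etjx T) D3 (T.j1 (D1 T.x) • T.dd) ?_
    rw [c1, Derivation.smul_apply, T.ddx, smul_eq_mul, mul_one]
  have e4 : T.j2 (D2 T.y) = T.j1 (D1 T.x) * T.dd (T.j2 T.y) := by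
    rw [← c2, e3, Derivation.smul_apply, smul_eq_mul]
  refine ⟨⟨D1 T.x, ri, D2 T.y, si, hri, hsi, ?_⟩, ?_⟩
  · rw [e4, mul_comm (T.j1 (D1 T.x)), ← mul_assoc, T.ey, one_mul]
  · change Φ.Has ct.U1 (ct.t1 (1 ⊗ₜ T.x)) (ct.t1 (1 ⊗ₜ D1 T.x))
    rw [← h1, ← h1]
    exact hD1 T.x

end Pool.Agent.MG
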