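import Pool.Agent.MG.End1
import Pool.Agent.MG.REP
import Pool.Agent.MG.MVX
import Pool.Agent.MG.MVV
import Pool.Agent.MG.VFE
import Pool.Agent.MG.GQ

/-!
# Curves of genus one: the value of a regular function does not depend on the marked points
-/

open CategoryTheory CategoryTheory.Limits AlgebraicGeometry TensorProduct

namespace Pool.Agent.MG

theorem rep' : Stmt_REP := t_REP cstw

theorem mvx : Stmt_MVX := t_MVX cstw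

namespace E1

theorem is_tau {n : ℕ} {k : Type} [Field k] {T : TC k} {C : Fam n k} (ct : Charted T C)
    (ha : ct.Aff) (φ : T.R1 →ₐ[k] k) : ct.Is1 (tau ha (.one φ)) φ :=
  ⟨CHI.top_le ha.aff1 (CHI.F1 ct φ), fun a => by
    refine (CHI.pt_val ha.aff1 (CHI.F1 ct φ) _ _).trans ?_
    rw [CHI.F1_t]
    simp⟩

theorem is1_unique {n : ℕ} {k : Type} [Field k] {T : TC k} {C : Fam n k} (ct : Charted T C)
    (σ : Sp k ⟶ C.X) (φ φ' : T.R1 →ₐ[k] k) (h : ct.Is1 σ φ) (h' : ct.Is1 σ φ') (a : T.R1) :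
    φ a = φ' a := by
  obtain ⟨h1, h2⟩ := h
  obtain ⟨h1', h2'⟩ := h'
  have := (h2 a).symm.trans (h2' a)
  have h3 := congrArg (Scheme.ΓSpecIso (CommRingCat.of k)).hom.hom this
  rwa [gl_inv, gl_inv] at h3

/-- The curve with other marked points. -/
noncomputable abbrev _root_.Pool.Agent.MG.Fam.wσ {n : ℕ} {k : Type} [Field k] (C : Fam n k)
    (σ' : Fin n → (Sp k ⟶ C.X)) (h : ∀ i, σ' i ≫ C.π = 𝟙 _) : Fam n k :=
  ⟨C.X, C.π, σ', h⟩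

/-- The values of a covector at the deformations which move one marked point. -/
def HasMv {g n : ℕ} {k : Type} [Field k] {C : Fam n k} (Φ : Flow C.π) (l : Cov g C)
    (b : Fin n → k) : Prop :=
  ∀ (i : Fin n) (d : Defo g C), IsMv Φ i d → l.l d = b i

section

variable {g n : ℕ} {k : Type} [Field k] {T : TC k} {C : Fam n k} (ch : Cht C T) [IsAlgClosed k]
  (Q : Cur C g)

/-- The charts of the curve with another marked point. -/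
theorem rep_is (i₀ : Fin n) (φ : T.R1 →ₐ[k] k) (q : Sp k ⟶ C.X) (hq : q ≫ C.π = 𝟙 _)
    (hqφ : q = tau ch.aff (.one φ)) (i : Fin n) :
    (ch.ct.rep i₀ q hq).Is ((C.rep i₀ q hq).σ i) (.one (kpt ch i₀ φ i)) := by
  change ch.ct.Is1 (Function.update C.σ i₀ q i) (kpt ch i₀ φ i)
  unfold kpt
  by_cases h : i = i₀
  · rw [if_pos h, h, Function.update_self, hqφ]
    exact is_tau ch.ct ch.aff φ
  · rw [if_neg h, Function.update_of_ne h]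
    exact ch.is i

theorem tau_pt (i : Fin n) : C.σ i = tau ch.aff (.one (ch.pt i)) :=
  (hyp.tau ch.ct ch.aff).2.2.2 (C.σ i) (.one (ch.pt i)) (C.sec i) (ch.is i)

/-- A point which differs from the marked points. -/
theorem ne_pt (φ : T.R1 →ₐ[k] k) (q : Sp k ⟶ C.X) (hqφ : q = tau ch.aff (.one φ)) (i : Fin n)
    (h : φ T.x ≠ ch.pt i T.x) : q ≠ C.σ i := by
  intro e
  have h1 := is_tau ch.ct ch.aff φ
  rw [← hqφ, e] at h1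
  exact h (is1_unique ch.ct _ _ _ h1 (ch.is i) T.x)

include Q in
theorem exists_mv (i j : Fin n) (hj : j ≠ i) (Φ : Flow C.π) (hΦ : Φ.NV) :
    ∃ d : Defo g C, IsMv Φ i d := by
  obtain ⟨T, ⟨ch⟩⟩ := two g C Q.hC Q.hs (Nat.one_le_iff_ne_zero.2 (by
    rintro rfl
    exact i.elim0))
  obtain ⟨E, -⟩ := t_VFE ch ch.ct ch.aff Φ hΦ
  exact mvx g C Q.hC Q.hs T ch E i j hj Φ

variable [Algebra ℂ k] (F : Reg g n) (E : Ell T)

/-- The arrow from the curve with moved point to the universal family. -/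
theorem rep_arrow {i₀ : Fin n} (j₀ : Fin n) (hj₀ : j₀ ≠ i₀) {ι : Type} (φ : T.R1 →ₐ[k] k)
    (hφ : ∀ i, i ≠ i₀ → φ (zE ch i) ≠ 0) (q : Sp k ⟶ C.X) (hq : q ≫ C.π = 𝟙 _)
    (hqφ : q = tau ch.aff (.one φ)) (v : {i : Fin n // i ≠ i₀} ⊕ ι → k) :
    ∃ a : Arrow (SVlift ch ({i : Fin n // i ≠ i₀} ⊕ ι) (Finset.univ.erase i₀)
      (evk φ v) (evk_unit ch φ v hφ) :
        SV ch ({i : Fin n // i ≠ i₀} ⊕ ι) (Finset.univ.erase i₀) →+* k)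
        (C.rep i₀ q hq) (o1 ch Q E j₀ hj₀ ({i : Fin n // i ≠ i₀} ⊕ ι)).x,
      ChArrow a (ch.ct.rep i₀ q hq) (o1 ch Q E j₀ hj₀ ({i : Fin n // i ≠ i₀} ⊕ ι)).ct := by
  have hbc := cobj_bc ch Q E i₀ j₀ hj₀ (.one (ph ch ({i : Fin n // i ≠ i₀} ⊕ ι)
      (Finset.univ.erase i₀)))
    (dis_one ch hyp i₀ _ fun i hi => ph_unit ch _ _ i
      (Finset.mem_erase.2 ⟨hi, Finset.mem_univ i⟩))
  have hσ : ∀ i, (C.rep i₀ q hq).σ i = spMap (SVlift ch ({i : Fin n // i ≠ i₀} ⊕ ι)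
      (Finset.univ.erase i₀) (evk φ v) (evk_unit ch φ v hφ) :
        SV ch ({i : Fin n // i ≠ i₀} ⊕ ι) (Finset.univ.erase i₀) →+* k) ≫
      tau ch.aff (mv ch i₀ (.one (ph ch ({i : Fin n // i ≠ i₀} ⊕ ι)
        (Finset.univ.erase i₀))) i) := by
    intro i
    rw [← (hyp.tau ch.ct ch.aff).2.1 _ _ (SVlift ch ({i : Fin n // i ≠ i₀} ⊕ ι)
      (Finset.univ.erase i₀) (evk φ v) (evk_unit ch φ v hφ)), ← mv_kpt ch φ v hφ i]
    change Function.update C.σ i₀ q i = _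
    unfold kpt
    by_cases h : i = i₀
    · rw [if_pos h, h, Function.update_self, hqφ]
    · rw [if_neg h, Function.update_of_ne h]
      exact tau_pt ch i
  exact hyp.chk (C := C.rep i₀ q hq) (ch.ct.rep i₀ q hq)
    ⟨ch.aff.aff1, ch.aff.aff2, ch.aff.aff12⟩ _ _
    (fun i => tau ch.aff (mv ch i₀ (.one (ph ch ({i : Fin n // i ≠ i₀} ⊕ ι)
        (Finset.univ.erase i₀))) i))
    (fun i => (hyp.tau ch.ct ch.aff).1 _ _) (o1 ch Q E j₀ hj₀ _).ct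
    ⟨hbc.h1, hbc.h2, hbc.f1, hbc.f2, hbc.f12⟩ hσ

include Q E in
/-- The value at the curves with moved point. -/
theorem fibre [CharZero k] (i₀ j₀ : Fin n) (hj₀ : j₀ ≠ i₀) :
    ∃ p : MvPolynomial {i : Fin n // i ≠ i₀} k, ∀ (φ : T.R1 →ₐ[k] k)
      (_ : ∀ i, i ≠ i₀ → φ (zE ch i) ≠ 0) (q : Sp k ⟶ C.X) (hq : q ≫ C.π = 𝟙 _)
      (hqφ : q = tau ch.aff (.one φ)) (hs : IsStable g (C.rep i₀ q hq))
      (G : CovData (fun i => (.one (kpt ch i₀ φ i) : Pt T k)))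
      (l : Cov g (C.rep i₀ q hq)), IsCov (ch.ct.rep i₀ q hq) (fun i => .one (kpt ch i₀ φ i))
        (rep_is ch i₀ φ q hq hqφ) G l →
      F.F k (C.rep i₀ q hq) hs l = MvPolynomial.aeval (fun i : {i : Fin n // i ≠ i₀} => G.ν i.1) p
    := by
  obtain ⟨ι, D, hc, hu⟩ := t_UNI1 T E ch.inj1 ch.inj2 ch.h0
  have U : Uni (T := T) D i₀ := ⟨fun B _ _ s => (hu B s i₀).1, fun B _ _ s => (hu B s i₀).2⟩
  obtain ⟨p, hp⟩ := f1_poly ch Q E F U j₀ hj₀ hc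
  refine ⟨p, ?_⟩
  intro φ hφ q hq hqφ hs G l hl
  obtain ⟨a, ha⟩ := rep_arrow ch Q E j₀ hj₀ φ hφ q hq hqφ
    (Sum.elim (fun i : {i : Fin n // i ≠ i₀} => G.ν i.1) (fun a => G.μ (D a)))
  rw [valgen ch Q E F U j₀ hj₀ (C.rep i₀ q hq) hs (ch.ct.rep i₀ q hq) φ hφ
    (rep_is ch i₀ φ q hq hqφ) G l hl _ rfl a ha, hp, SVlift_apply, evk_p]
  rfl

include Q in
theorem rep_cur (i₀ : Fin n) (q : Sp k ⟶ C.X) (hq : q ≫ C.π = 𝟙 _)
    (hs : IsStable g (C.rep i₀ q hq)) : Cur (C.rep i₀ q hq) g :=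
  ⟨hs, Q.hs⟩

include Q in
/-- The value in terms of the vector field. -/
theorem fibre2 [CharZero k] (Φ : Flow C.π) (hΦ : Φ.NV) (i₀ j₀ : Fin n) (hj₀ : j₀ ≠ i₀) :
    ∃ P : (Fin n → k) → k, ∀ (φ : T.R1 →ₐ[k] k)
      (_ : ∀ i, i ≠ i₀ → φ (zE ch i) ≠ 0) (q : Sp k ⟶ C.X)
      (_ : q = tau ch.aff (.one φ)) (σ' : Fin n → (Sp k ⟶ C.X)) (h' : ∀ i, σ' i ≫ C.π = 𝟙 _)
      (_ : σ' = Function.update C.σ i₀ q) (hs : IsStable g (C.wσ σ' h'))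
      (l : Cov g (C.wσ σ' h')) (b : Fin n → k), HasMv (C := C.wσ σ' h') Φ l b →
      F.F k (C.wσ σ' h') hs l = P b := by
  obtain ⟨E, hE⟩ := t_VFE ch ch.ct ch.aff Φ hΦ
  obtain ⟨p, hp⟩ := fibre ch Q F E i₀ j₀ hj₀
  refine ⟨fun b => MvPolynomial.aeval (fun i : {i : Fin n // i ≠ i₀} => b i.1 / cc ch E i.1) p,
    ?_⟩
  intro φ hφ q hqφ σ' h' hσ' hs l b hb
  subst hσ'
  have hq : q ≫ C.π = 𝟙 _ := by
    have := h' i₀
    rwa [Function.update_self] at this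
  have haff : (ch.ct.rep i₀ q hq).Aff := ⟨ch.aff.aff1, ch.aff.aff2, ch.aff.aff12⟩
  obtain ⟨G, hG⟩ := hyp.cls (C := C.rep i₀ q hq) g hs (ch.ct.rep i₀ q hq) haff
    (fun i => .one (kpt ch i₀ φ i)) (rep_is ch i₀ φ q hq hqφ) l
  have h1 : ∀ i : {i : Fin n // i ≠ i₀}, G.ν i.1 = b i.1 / cc ch E i.1 := by
    intro i
    obtain ⟨d, hd⟩ := exists_mv (C := C.rep i₀ q hq) (rep_cur Q i₀ q hq hs) i.1 i₀ i.2.symm Φ hΦ
    have h2 := hb i.1 d hd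
    have h3 := t_MVV (C := C.rep i₀ q hq) (ch.ct.rep i₀ q hq) haff (kpt ch i₀ φ)
      (rep_is ch i₀ φ q hq hqφ) G g l hG Φ E.r0 hE i.1 d hd
    have h4 : kpt ch i₀ φ i.1 E.r0 = cc ch E i.1 := by
      unfold kpt
      rw [if_neg i.2]
      rfl
    rw [h2, h4] at h3
    rw [h3, mul_div_cancel_right₀ _ (cc_ne ch E i.1)]
  have h5 := hp φ hφ q hq hqφ hs G l hG
  refine h5.trans ?_
  congr 1
  congr 1
  funext i
  exact h1 i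

include Q in
/-- Every covector has values at the deformations which move one point, with sum zero. -/
theorem hasMv_ex (Φ : Flow C.π) (hΦ : Φ.NV) (i₀ j₀ : Fin n) (hj₀ : j₀ ≠ i₀) (l : Cov g C) :
    ∃ b : Fin n → k, HasMv Φ l b ∧ ∑ i, b i = 0 := by
  obtain ⟨T, ⟨ch⟩⟩ := two g C Q.hC Q.hs (Nat.one_le_iff_ne_zero.2 (by
    rintro rfl
    exact i₀.elim0))
  obtain ⟨E, hE⟩ := t_VFE ch ch.ct ch.aff Φ hΦ
  obtain ⟨G, hG⟩ := hyp.cls g Q.hC ch.ct ch.aff (fun i => .one (ch.pt i)) ch.is l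
  refine ⟨fun i => G.ν i * ch.pt i E.r0, fun i d hd =>
    t_MVV ch.ct ch.aff ch.pt ch.is G g l hG Φ E.r0 hE i d hd, ?_⟩
  have h1 := G.m1 E.r0
  have h2 := G.m2 E.s0
  have h3 : ∀ i : Fin n, (Pt.one (ch.pt i) : Pt T k).l2 E.s0 = 0 := fun i => rfl
  simp only [h3, mul_zero, Finset.sum_const_zero] at h2
  rw [← E.h] at h2
  rw [h2, zero_add] at h1
  exact h1

include Q in
theorem hasMv_sum (Φ : Flow C.π) (hΦ : Φ.NV) (i₀ j₀ : Fin n) (hj₀ : j₀ ≠ i₀) (l : Cov g C)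
    (b : Fin n → k) (hb : HasMv Φ l b) : ∑ i, b i = 0 := by
  obtain ⟨b', hb', h0⟩ := hasMv_ex Q Φ hΦ i₀ j₀ hj₀ l
  rw [← h0]
  refine Finset.sum_congr rfl fun i _ => ?_
  obtain ⟨j, hj⟩ : ∃ j, j ≠ i := by
    by_cases h : i₀ = i
    · exact ⟨j₀, h ▸ hj₀⟩
    · exact ⟨i₀, h⟩
  obtain ⟨d, hd⟩ := exists_mv Q i j hj Φ hΦ
  rw [← hb i d hd, ← hb' i d hd]

include Q in
/-- Existence of covectors with given values. -/
theorem hasMv_cov (Φ : Flow C.π) (hΦ : Φ.NV) (i₀ j₀ : Fin n) (hj₀ : j₀ ≠ i₀) (b : Fin n → k)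
    (h0 : ∑ i, b i = 0) : ∃ l : Cov g C, HasMv Φ l b := by
  obtain ⟨T, ⟨ch⟩⟩ := two g C Q.hC Q.hs (Nat.one_le_iff_ne_zero.2 (by
    rintro rfl
    exact i₀.elim0))
  obtain ⟨E, hE⟩ := t_VFE ch ch.ct ch.aff Φ hΦ
  obtain ⟨ι, D, hc, hu⟩ := t_UNI1 T E ch.inj1 ch.inj2 ch.h0
  obtain ⟨G, hG1, -⟩ := (hu k (fun i : Fin n => (.one (ch.pt i) : Pt T k)) i₀).1
    (fun i => b i.1 / cc ch E i.1) (fun _ => 0)
  obtain ⟨l, hl⟩ := hyp.cov ch.ct (fun i => .one (ch.pt i)) ch.is G g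
  refine ⟨l, ?_⟩
  have hmv : HasMv Φ l (fun i => G.ν i * ch.pt i E.r0) := fun i d hd =>
    t_MVV ch.ct ch.aff ch.pt ch.is G g l hl Φ E.r0 hE i d hd
  have hs := hasMv_sum Q Φ hΦ i₀ j₀ hj₀ l _ hmv
  have h1 : ∀ i, i ≠ i₀ → G.ν i * ch.pt i E.r0 = b i := by
    intro i hi
    rw [hG1 ⟨i, hi⟩]
    change b i / cc ch E i * cc ch E i = b i
    rw [div_mul_cancel₀ _ (cc_ne ch E i)]
  have h2 : G.ν i₀ * ch.pt i₀ E.r0 = b i₀ := by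
    rw [sum_split i₀] at hs h0
    have h3 : ∑ i : {i : Fin n // i ≠ i₀}, G.ν i.1 * ch.pt i.1 E.r0 =
        ∑ i : {i : Fin n // i ≠ i₀}, b i.1 := Finset.sum_congr rfl fun i _ => h1 i.1 i.2
    rw [h3] at hs
    linear_combination hs - h0
  intro i d hd
  rw [hmv i d hd]
  by_cases h : i = i₀
  · rw [h]
    exact h2
  · exact h1 i h

/-- Moving one marked point. -/
theorem move [CharZero k] (C : Fam n k) (Q : Cur C g) (F : Reg g n) (Φ : Flow C.π) (hΦ : Φ.NV)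
    (i₀ j₀ : Fin n)
    (hj₀ : j₀ ≠ i₀) (σ' : Fin n → (Sp k ⟶ C.X)) (h' : ∀ i, σ' i ≫ C.π = 𝟙 _)
    (hσ : ∀ i, i ≠ i₀ → σ' i = C.σ i) (hs : IsStable g (C.wσ σ' h')) (l : Cov g C)
    (l' : Cov g (C.wσ σ' h')) (b : Fin n → k) (hb : HasMv Φ l b)
    (hb' : HasMv (C := C.wσ σ' h') Φ l' b) :
    F.F k C Q.hC l = F.F k (C.wσ σ' h') hs l' := by
  have hn : 1 ≤ n := Nat.one_le_iff_ne_zero.2 (by
    rintro rfl
    exact i₀.elim0)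
  obtain ⟨T, ⟨ch⟩⟩ := two g C Q.hC Q.hs hn
  have Q' : Cur (C.wσ σ' h') g := ⟨hs, Q.hs⟩
  obtain ⟨T', ⟨ch'⟩⟩ := two g (C.wσ σ' h') hs Q.hs hn
  obtain ⟨q, hq, ⟨φ, hφ, hφn⟩, φ', hφ', hφn'⟩ := t_GQ C Q.hC.proper Q.hs
    (CST.stableCurve Q.hC).connected T T' ch (C.wσ σ' h') (𝟙 C.X) inferInstance
    (Category.id_comp _) ch'
  rw [Category.comp_id] at hφ'
  -- the intermediate curve
  let σ₁ : Fin n → (Sp k ⟶ C.X) := Function.update C.σ i₀ q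
  have hσ₁ : σ₁ = Function.update σ' i₀ q := by
    funext i
    by_cases h : i = i₀
    · rw [h]
      simp [σ₁]
    · simp only [σ₁]
      rw [Function.update_of_ne h, Function.update_of_ne h, hσ i h]
  have h₁ : ∀ i, σ₁ i ≫ C.π = 𝟙 _ := (C.rep i₀ q hq).sec
  obtain ⟨E, hE⟩ := t_VFE ch ch.ct ch.aff Φ hΦ
  have hs₁ : IsStable g (C.wσ σ₁ h₁) := rep' g C Q.hC Q.hs T ch E i₀ j₀ hj₀ q hq
    (fun i _ => ne_pt ch φ q hφ i (hφn i))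
  obtain ⟨l₁, hl₁⟩ := hasMv_cov (C := C.wσ σ₁ h₁) (⟨hs₁, Q.hs⟩ : Cur (C.wσ σ₁ h₁) g) Φ hΦ
    i₀ j₀ hj₀ b (hasMv_sum Q Φ hΦ i₀ j₀ hj₀ l b hb)
  obtain ⟨P, hP⟩ := fibre2 ch Q F Φ hΦ i₀ j₀ hj₀
  obtain ⟨P', hP'⟩ := fibre2 (C := C.wσ σ' h') ch' Q' F Φ hΦ i₀ j₀ hj₀
  have hz : ∀ {T : TC k} {C : Fam n k} (ch : Cht C T) (φ : T.R1 →ₐ[k] k) (i : Fin n),
      φ T.x ≠ ch.pt i T.x → φ (zE ch i) ≠ 0 := by
    intro T C ch φ i h h0
    apply h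
    unfold zE at h0
    rw [map_sub, AlgHom.commutes] at h0
    exact sub_eq_zero.1 h0
  have e1 : F.F k C Q.hC l = P b := by
    refine hP (ch.pt i₀) (fun i hi => hz ch _ i (ch.ne i₀ i hi.symm)) (C.σ i₀) (tau_pt ch i₀)
      C.σ C.sec ?_ Q.hC l b hb
    rw [Function.update_eq_self]
  have e2 : F.F k (C.wσ σ₁ h₁) hs₁ l₁ = P b :=
    hP φ (fun i _ => hz ch _ i (hφn i)) q hφ σ₁ h₁ rfl hs₁ l₁ b hl₁
  have e3 : F.F k (C.wσ σ' h') hs l' = P' b := by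
    refine hP' (ch'.pt i₀) (fun i hi => hz ch' _ i (ch'.ne i₀ i hi.symm)) (σ' i₀)
      (tau_pt ch' i₀) σ' h' ?_ hs l' b hb'
    rw [Function.update_eq_self]
  have e4 : F.F k (C.wσ σ₁ h₁) hs₁ l₁ = P' b :=
    hP' φ' (fun i _ => hz ch' _ i (hφn' i)) q hφ' σ₁ h₁ hσ₁ hs₁ l₁ b hl₁
  rw [e1, ← e2, e4, e3]

/-- Replacing one marked point by a given one. -/
theorem stable_rep (C : Fam n k) (Q : Cur C g) (Φ : Flow C.π) (hΦ : Φ.NV) (i₀ j₀ : Fin n)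
    (hj₀ : j₀ ≠ i₀) (q : Sp k ⟶ C.X) (hq : q ≫ C.π = 𝟙 _) (hne : ∀ i, i ≠ i₀ → q ≠ C.σ i) :
    IsStable g (C.wσ (Function.update C.σ i₀ q) (C.rep i₀ q hq).sec) := by
  obtain ⟨T, ⟨ch⟩⟩ := two g C Q.hC Q.hs (Nat.one_le_iff_ne_zero.2 (by
    rintro rfl
    exact i₀.elim0))
  obtain ⟨E, hE⟩ := t_VFE ch ch.ct ch.aff Φ hΦ
  exact rep' g C Q.hC Q.hs T ch E i₀ j₀ hj₀ q hq hne

open Classical in
/-- Moving all marked points. -/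
theorem move_all [CharZero k] (F : Reg g n) (hn : 2 ≤ n) (X : Scheme.{0}) (π : X ⟶ Sp k)
    (hsm : SmoothOfRelativeDimension 1 π) (Φ : Flow π) (hΦ : Φ.NV)
    (σ' : Fin n → (Sp k ⟶ X)) (h' : ∀ i, σ' i ≫ π = 𝟙 _)
    (hs' : IsStable g (⟨X, π, σ', h'⟩ : Fam n k)) (l' : Cov g (⟨X, π, σ', h'⟩ : Fam n k))
    (b : Fin n → k) (hb' : HasMv (C := ⟨X, π, σ', h'⟩) Φ l' b) (N : ℕ) :
    ∀ (σ : Fin n → (Sp k ⟶ X)) (h : ∀ i, σ i ≫ π = 𝟙 _)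
      (_ : (Finset.univ.filter fun i => σ' i ≠ σ i).card = N)
      (hs : IsStable g (⟨X, π, σ, h⟩ : Fam n k)) (l : Cov g (⟨X, π, σ, h⟩ : Fam n k))
      (_ : HasMv (C := ⟨X, π, σ, h⟩) Φ l b),
    F.F k ⟨X, π, σ, h⟩ hs l = F.F k ⟨X, π, σ', h'⟩ hs' l' := by
  have hex : ∀ i : Fin n, ∃ j, j ≠ i := by
    intro i
    by_cases h : i.1 = 0
    · exact ⟨⟨1, by omega⟩, fun e => by simp [← e] at h⟩
    · exact ⟨⟨0, by omega⟩, fun e => h (by rw [← e])⟩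
  induction N using Nat.strong_induction_on with
  | _ N ih =>
  -- one point is moved to its final position
  have caseA : ∀ (σ : Fin n → (Sp k ⟶ X)) (h : ∀ i, σ i ≫ π = 𝟙 _)
      (_ : (Finset.univ.filter fun i => σ' i ≠ σ i).card = N)
      (hs : IsStable g (⟨X, π, σ, h⟩ : Fam n k)) (l : Cov g (⟨X, π, σ, h⟩ : Fam n k))
      (_ : HasMv (C := ⟨X, π, σ, h⟩) Φ l b) (i₀ : Fin n) (_ : σ' i₀ ≠ σ i₀)
      (_ : ∀ i, i ≠ i₀ → σ' i₀ ≠ σ i),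
      F.F k ⟨X, π, σ, h⟩ hs l = F.F k ⟨X, π, σ', h'⟩ hs' l' := by
    intro σ h hN hs l hb i₀ hi₀ hne
    obtain ⟨j₀, hj₀⟩ := hex i₀
    have Q : Cur (⟨X, π, σ, h⟩ : Fam n k) g := ⟨hs, hsm⟩
    have hs₁ := stable_rep (⟨X, π, σ, h⟩ : Fam n k) Q Φ hΦ i₀ j₀ hj₀ (σ' i₀) (h' i₀) hne
    have h₁ : ∀ i, (Function.update σ i₀ (σ' i₀)) i ≫ π = 𝟙 _ :=
      ((⟨X, π, σ, h⟩ : Fam n k).rep i₀ (σ' i₀) (h' i₀)).sec
    have Q₁ : Cur (⟨X, π, Function.update σ i₀ (σ' i₀), h₁⟩ : Fam n k) g := ⟨hs₁, hsm⟩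
    obtain ⟨l₁, hl₁⟩ := hasMv_cov Q₁ Φ hΦ i₀ j₀ hj₀ b
      (hasMv_sum Q Φ hΦ i₀ j₀ hj₀ l b hb)
    have e1 := move (⟨X, π, σ, h⟩ : Fam n k) Q F Φ hΦ i₀ j₀ hj₀
      (Function.update σ i₀ (σ' i₀)) h₁ (fun i hi => Function.update_of_ne hi _ _) hs₁ l l₁ b
      hb hl₁
    refine e1.trans (ih _ ?_ (Function.update σ i₀ (σ' i₀)) h₁ rfl hs₁ l₁ hl₁)
    rw [← hN]
    refine Finset.card_lt_card (Finset.ssubset_iff_of_subset ?_ |>.2 ⟨i₀, ?_, ?_⟩)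
    · intro i hi
      rw [Finset.mem_filter] at hi ⊢
      refine ⟨hi.1, ?_⟩
      by_cases hi0 : i = i₀
      · rw [hi0]
        exact hi₀
      · have := hi.2
        rwa [Function.update_of_ne hi0] at this
    · rw [Finset.mem_filter]
      exact ⟨Finset.mem_univ _, hi₀⟩
    · rw [Finset.mem_filter]
      rintro ⟨-, h2⟩
      rw [Function.update_self] at h2
      exact h2 rfl
  intro σ h hN hs l hb
  have Q : Cur (⟨X, π, σ, h⟩ : Fam n k) g := ⟨hs, hsm⟩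
  by_cases h0 : ∀ i, σ' i = σ i
  · obtain ⟨j, hj⟩ := hex ⟨0, by omega⟩
    exact move (⟨X, π, σ, h⟩ : Fam n k) Q F Φ hΦ ⟨0, by omega⟩ j hj σ' h' (fun i _ => h0 i) hs'
      l l' b hb hb'
  push Not at h0
  obtain ⟨i₀, hi₀⟩ := h0
  by_cases hA : ∀ i, i ≠ i₀ → σ' i₀ ≠ σ i
  · exact caseA σ h hN hs l hb i₀ hi₀ hA
  push Not at hA
  obtain ⟨j, hj, hji⟩ := hA
  -- first move the point `j` away
  have hn1 : 1 ≤ n := by omega
  obtain ⟨T, ⟨ch⟩⟩ := two g (⟨X, π, σ, h⟩ : Fam n k) hs hsm hn1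
  obtain ⟨T', ⟨ch'⟩⟩ := two g (⟨X, π, σ', h'⟩ : Fam n k) hs' hsm hn1
  obtain ⟨q, hq, ⟨φ, hφ, hφn⟩, φ', hφ', hφn'⟩ := t_GQ (⟨X, π, σ, h⟩ : Fam n k) hs.proper hsm
    (CST.stableCurve hs).connected T T' ch (⟨X, π, σ', h'⟩ : Fam n k) (𝟙 X) inferInstance
    (Category.id_comp _) ch'
  rw [Category.comp_id] at hφ'
  have hq1 : ∀ i, q ≠ σ i := fun i => ne_pt ch φ q hφ i (hφn i)
  have hq2 : ∀ i, q ≠ σ' i := fun i => ne_pt ch' φ' q hφ' i (hφn' i)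
  have hs₁ := stable_rep (⟨X, π, σ, h⟩ : Fam n k) Q Φ hΦ j i₀ hj.symm q hq (fun i _ => hq1 i)
  have h₁ : ∀ i, (Function.update σ j q) i ≫ π = 𝟙 _ :=
    ((⟨X, π, σ, h⟩ : Fam n k).rep j q hq).sec
  have Q₁ : Cur (⟨X, π, Function.update σ j q, h₁⟩ : Fam n k) g := ⟨hs₁, hsm⟩
  obtain ⟨l₁, hl₁⟩ := hasMv_cov Q₁ Φ hΦ j i₀ hj.symm b
    (hasMv_sum Q Φ hΦ j i₀ hj.symm l b hb)
  have e1 := move (⟨X, π, σ, h⟩ : Fam n k) Q F Φ hΦ j i₀ hj.symm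
    (Function.update σ j q) h₁ (fun i hi => Function.update_of_ne hi _ _) hs₁ l l₁ b
    hb hl₁
  refine e1.trans (caseA (Function.update σ j q) h₁ ?_ hs₁ l₁ hl₁ i₀ ?_ ?_)
  · rw [← hN]
    congr 1
    ext i
    rw [Finset.mem_filter, Finset.mem_filter]
    refine and_congr_right fun _ => ?_
    by_cases hi : i = j
    · rw [hi, Function.update_self]
      refine iff_of_true (hq2 j).symm ?_
      rw [← hji]
      exact (CST.stableCurve hs').distinct j i₀ hj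
    · rw [Function.update_of_ne hi]
  · rw [Function.update_of_ne hj.symm]
    exact hi₀
  · intro i hi
    by_cases hij : i = j
    · rw [hij, Function.update_self]
      exact (hq2 i₀).symm
    · rw [Function.update_of_ne hij, hji]
      exact (CST.stableCurve hs).distinct j i (Ne.symm hij)

end

end E1

end Pool.Agent.MG
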