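import Mathlib

/-!
# A large algebraically closed field with many derivations
-/

open TensorProduct

namespace Pool.Agent.MG

/-- There is an algebraically closed field with algebraically independent elements `v i` and a
derivation with any prescribed values on them. -/
theorem exists_field (N : ℕ) : ∃ (K : Type) (_ : Field K) (_ : IsAlgClosed K) (_ : Algebra ℂ K)
    (v : Fin N → K), AlgebraicIndependent ℂ v ∧
      ∀ u : Fin N → K, ∃ D : Derivation ℂ K K, ∀ i, D (v i) = u i := by
  let R := MvPolynomial (Fin N) ℂ
  let L := FractionRing R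
  let K := AlgebraicClosure L
  let v : Fin N → K := fun i => algebraMap R K (MvPolynomial.X i)
  have h1 : Algebra.FormallyEtale R L := Algebra.FormallyEtale.of_isLocalization (nonZeroDivisors R)
  have h2 : Algebra.FormallyEtale L K := Algebra.FormallyEtale.of_isSeparable L K
  have h3 : Algebra.FormallyEtale R K := Algebra.FormallyEtale.comp R L K
  have hinj : Function.Injective (algebraMap R K) := by
    rw [IsScalarTower.algebraMap_eq R L K]
    exact (algebraMap L K).injective.comp (IsFractionRing.injective R L)
  refine ⟨K, inferInstance, inferInstance, inferInstance, v, ?_, fun u => ?_⟩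
  · have e : MvPolynomial.aeval v = (IsScalarTower.toAlgHom ℂ R K) := by
      refine MvPolynomial.algHom_ext fun i => ?_
      rw [MvPolynomial.aeval_X]
      rfl
    rw [AlgebraicIndependent, e]
    exact hinj
  · let d0 : Derivation ℂ R K := MvPolynomial.mkDerivation ℂ u
    let e := KaehlerDifferential.tensorKaehlerEquivOfFormallyEtale ℂ R K
    let m : K ⊗[R] Ω[R⁄ℂ] →ₗ[K] K := d0.liftKaehlerDifferential.liftBaseChange K
    let D : Derivation ℂ K K := (m.comp e.symm.toLinearMap).compDer (KaehlerDifferential.D ℂ K)
    refine ⟨D, fun i => ?_⟩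
    have h4 : e.symm (KaehlerDifferential.D ℂ K (algebraMap R K (MvPolynomial.X i))) =
        1 ⊗ₜ KaehlerDifferential.D ℂ R (MvPolynomial.X i) :=
      KaehlerDifferential.tensorKaehlerEquivOfFormallyEtale_symm_D_algebraMap ℂ R K _
    change m (e.symm (KaehlerDifferential.D ℂ K (algebraMap R K (MvPolynomial.X i)))) = u i
    rw [h4]
    change (d0.liftKaehlerDifferential.liftBaseChange K) (1 ⊗ₜ _) = u i
    rw [LinearMap.liftBaseChange_tmul, one_smul, Derivation.liftKaehlerDifferential_comp_D]
    exact MvPolynomial.mkDerivation_X _ _ _

end Pool.Agent.MG
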