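import Pool.Agent.MG.Fin
import Pool.Agent.MG.GENK
import Pool.Agent.MG.WL.Top

/-!
# Genus one: a generic curve, and the rings at it
-/

open CategoryTheory CategoryTheory.Limits AlgebraicGeometry TensorProduct

namespace Pool.Agent.MG.Std

open Pool.Agent.MG.W Pool.Agent.MG.One

section

variable {A B D : Type} [CommRing A] [CommRing B] [CommRing D]

/-- Comparison of regular functions. -/
def Reg.of {g n : ℕ} (F : MG.Reg g n) : Reg g n where
  F A _ _ x hx l := F.F A x ((stable_iff g x).1 hx) (Cov.to l)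
  nat A B _ _ _ _ φ x y hx hy a _ _ h :=
    F.nat A B φ x y ((stable_iff g x).1 hx) ((stable_iff g y).1 hy) a _ _
      (fun d' d f hf => h (Defo.of d') (Defo.of d) f hf)

/-- The base change arrow. -/
noncomputable def warrow {m : ℕ} {φ : A →+* B} {P : WD m A} {P' : WD m B}
    (h : WD.Bc φ P P') : Arrow φ (Wei P') (Wei P) :=
  ⟨wmap φ h, t_WBC φ h.a h.b, fun i => wmap_sec φ h i⟩

theorem wmap_id {m : ℕ} {P : WD m A} {φ : A →+* A} (hφ : φ = RingHom.id A) (h : WD.Bc φ P P) :
    wmap φ h = 𝟙 _ := by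
  subst hφ
  refine WX.ext' ?_ ?_
  · refine (WX.in1_map _ h.a h.b).trans ?_
    have e : bc1 (RingHom.id A) h.a h.b = RingHom.id _ := by
      refine hom1_ext (fun c => ?_) ?_ ?_
      · rw [bc1_b]
        rfl
      · rw [bc1_x]
        rfl
      · rw [bc1_y]
        rfl
    rw [e, WCV.spMap_id, Category.id_comp]
    exact (Category.comp_id _).symm
  · refine (WX.in2_map _ h.a h.b).trans ?_
    have e : bc2 (RingHom.id A) h.a h.b = RingHom.id _ := by
      refine hom2_ext (fun c => ?_) ?_ ?_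
      · rw [bc2_b]
        rfl
      · rw [bc2_z]
        rfl
      · rw [bc2_t]
        rfl
    rw [e, WCV.spMap_id, Category.id_comp]
    exact (Category.comp_id _).symm

theorem wmap_comp {m : ℕ} {φ : A →+* B} {ψ : B →+* D} {P : WD m A} {P' : WD m B}
    {P'' : WD m D} (h : WD.Bc φ P P') (h' : WD.Bc ψ P' P'') (h'' : WD.Bc (ψ.comp φ) P P'') :
    wmap ψ h' ≫ wmap φ h = wmap (ψ.comp φ) h'' :=
  WCV.map_comp φ ψ h.a h.b h'.a h'.b rfl h''.a h''.b

end

section

variable {K : Type} [Field K] [Algebra ℂ K]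

theorem fst_comp_epsDer (D : Derivation ℂ K K) : (eps0 K).comp (epsDer D) = RingHom.id K :=
  RingHom.ext fun a => by simp [epsDer]

/-- A Weierstrass family whose coefficients can be moved arbitrarily by derivations is generic. -/
theorem wei_generic {m : ℕ} (P : WD m K) (hy : ∀ i, P.y i ≠ 0)
    (hD : ∀ (α β : K) (γ : Fin m → K), ∃ D : Derivation ℂ K K, D P.a = α ∧ D P.b = β ∧
      ∀ i, D (P.x i) = γ i) : Generic 1 (Wei P) := by
  intro d
  have hc : CharZero K := charZero_of_injective_algebraMap (algebraMap ℂ K).injective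
  obtain ⟨P', hb, f, hf⟩ := we (sqEps K) P six (Defo.to d).thk
  have hb' : WD.Bc (eps0 K) P' P := hb
  obtain ⟨D, h1, h2, h3⟩ := hD P'.a.snd P'.b.snd (fun i => (P'.x i).snd)
  have h4 : ∀ i, D (P.y i) = (P'.y i).snd := by
    intro i
    have e1 := congrArg TrivSqZeroExt.snd (P'.eq i)
    have e2 := congrArg D (P.eq i)
    have ha : P.a = P'.a.fst := hb'.a
    have hx : P.x i = (P'.x i).fst := hb'.x i
    have hyy : P.y i = (P'.y i).fst := hb'.y i
    rw [pow_two, TrivSqZeroExt.snd_add, TrivSqZeroExt.snd_add, snd_mul', snd_mul',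
      pow_succ, pow_two, snd_mul', snd_mul', fst_mul', ← ha, ← hx, ← hyy] at e1
    rw [pow_two, Derivation.leibniz, map_add, map_add, Derivation.leibniz, Derivation.leibniz_pow,
      h1, h2, h3] at e2
    simp only [smul_eq_mul, nsmul_eq_mul] at e2
    have e3 : (2 * P.y i) * (D (P.y i) - (P'.y i).snd) = 0 := by
      push_cast at e2
      linear_combination e2 - e1
    rcases mul_eq_zero.1 e3 with h | h
    · exact absurd h (mul_ne_zero two_ne_zero (hy i))
    · exact sub_eq_zero.1 h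
  have hbc : WD.Bc (epsDer D) P P' := by
    refine ⟨?_, ?_, fun i => ?_, fun i => ?_⟩
    · refine TrivSqZeroExt.ext ?_ ?_
      · have := hb'.a
        simpa [epsDer] using this.symm
      · simp [epsDer, h1]
    · refine TrivSqZeroExt.ext ?_ ?_
      · have := hb'.b
        simpa [epsDer] using this.symm
      · simp [epsDer, h2]
    · refine TrivSqZeroExt.ext ?_ ?_
      · have := hb'.x i
        simpa [epsDer] using this.symm
      · simp [epsDer, h3]
    · refine TrivSqZeroExt.ext ?_ ?_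
      · have := hb'.y i
        simpa [epsDer] using this.symm
      · simp [epsDer, h4]
  have hid : WD.Bc ((eps0 K).comp (epsDer D)) P P := by
    rw [fst_comp_epsDer]
    exact ⟨rfl, rfl, fun _ => rfl, fun _ => rfl⟩
  let g : Arrow ((RingHom.id (Eps K)).comp (epsDer D)) d.y (Wei P) :=
    PBS.comp f (warrow hbc)
  refine ⟨D, ⟨g.f, g.cart, g.sec⟩, ?_⟩
  have e1 : d.r.f ≫ f.f = wmap (eps0 K) hb' := hf
  change d.r.f ≫ f.f ≫ wmap (epsDer D) hbc = _
  refine Eq.trans (Category.assoc _ _ _).symm ?_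
  refine Eq.trans (congrArg (fun q => q ≫ wmap (epsDer D) hbc) e1) ?_
  exact (wmap_comp hbc hb' hid).trans (wmap_id (fst_comp_epsDer D) hid)

end

/-- Polynomials in algebraically independent elements do not vanish. -/
theorem ai_ne {K : Type} [Field K] [Algebra ℂ K] {N : ℕ} {v : Fin N → K}
    (hv : AlgebraicIndependent ℂ v) (p : MvPolynomial (Fin N) ℂ) (w : Fin N → ℂ)
    (hp : MvPolynomial.eval w p ≠ 0) : MvPolynomial.aeval v p ≠ 0 := by
  intro h
  apply hp
  have h1 : p = 0 :=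
    (injective_iff_map_eq_zero (MvPolynomial.aeval v : MvPolynomial (Fin N) ℂ →ₐ[ℂ] K)).1 hv p h
  rw [h1, map_zero]

/-- A generic Weierstrass family. -/
theorem exists_wei (m : ℕ) : ∃ (K : Type) (_ : Field K) (_ : IsAlgClosed K) (_ : Algebra ℂ K)
    (P : WD m K) (t : K), 4 * P.a ^ 3 + 27 * P.b ^ 2 ≠ 0 ∧ (∀ i, P.y i ≠ 0) ∧
      (∀ i j, i ≠ j → P.x i ≠ P.x j) ∧ AlgebraicIndependent ℂ ![P.a, P.b, t] ∧
      ∀ (α β : K) (γ : Fin m → K), ∃ D : Derivation ℂ K K, D P.a = α ∧ D P.b = β ∧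
        ∀ i, D (P.x i) = γ i := by
  obtain ⟨K, i1, i2, i3, v, hv, hD⟩ := exists_field (m + 3)
  have hc : CharZero K := charZero_of_injective_algebraMap (algebraMap ℂ K).injective
  let ia : Fin (m + 3) := ⟨0, by omega⟩
  let ib : Fin (m + 3) := ⟨1, by omega⟩
  let it : Fin (m + 3) := ⟨2, by omega⟩
  let ix : Fin m → Fin (m + 3) := fun i => ⟨i.1 + 3, by omega⟩
  have hab : ia ≠ ib := by simp [ia, ib]
  have hxa : ∀ i, ix i ≠ ia := fun i => by simp [ix, ia]
  have hxb : ∀ i, ix i ≠ ib := fun i => by simp [ix, ib, Fin.ext_iff]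
  have hxx : ∀ i j, i ≠ j → ix i ≠ ix j := fun i j h => by
    simpa [ix, Fin.ext_iff] using h
  have hy : ∀ i, ∃ y : K, y ^ 2 = v (ix i) ^ 3 + v ia * v (ix i) + v ib := fun i =>
    IsAlgClosed.exists_pow_nat_eq _ (by norm_num)
  choose y hy using hy
  let P : WD m K := ⟨v ia, v ib, fun i => v (ix i), y, hy⟩
  refine ⟨K, i1, i2, i3, P, v it, ?_, fun i => ?_, fun i j hij => ?_, ?_, fun α β γ => ?_⟩
  · have h := ai_ne hv (4 * MvPolynomial.X ia ^ 3 + 27 * MvPolynomial.X ib ^ 2)
      (fun j => if j = ia then 1 else 0) (by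
        simp [hab.symm])
    simpa using h
  · intro h0
    have h1 : v (ix i) ^ 3 + v ia * v (ix i) + v ib = 0 := by
      rw [← hy i]
      change P.y i ^ 2 = 0
      rw [h0]
      ring
    have h := ai_ne hv (MvPolynomial.X (ix i) ^ 3 + MvPolynomial.X ia * MvPolynomial.X (ix i) +
      MvPolynomial.X ib) (fun j => if j = ib then 1 else 0) (by
        simp [hab, hxb])
    apply h
    simpa using h1
  · intro h0
    have h := ai_ne hv (MvPolynomial.X (ix i) - MvPolynomial.X (ix j))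
      (fun l => if l = ix i then 1 else 0) (by
        simp [(hxx i j hij).symm])
    apply h
    have h1 : v (ix i) = v (ix j) := h0
    simp [h1]
  · have h := hv.comp ![ia, ib, it] (by
      intro i j
      fin_cases i <;> fin_cases j <;> simp [ia, ib, it])
    have e : v ∘ ![ia, ib, it] = ![P.a, P.b, v it] := by
      funext i
      fin_cases i <;> rfl
    rwa [e] at h
  · obtain ⟨D, hD⟩ := hD (fun j => if j = ia then α else if j = ib then β else
      if h : 3 ≤ j.1 then γ ⟨j.1 - 3, by omega⟩ else 0)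
    refine ⟨D, ?_, ?_, fun i => ?_⟩
    · rw [hD]
      exact if_pos rfl
    · rw [hD]
      rw [if_neg hab.symm, if_pos rfl]
    · change D (v (ix i)) = _
      rw [hD, if_neg (hxa i), if_neg (hxb i), dif_pos (by simp [ix])]
      congr 1

/-- Genus one, at least two points. -/
theorem rigid_1 (n : ℕ) (hn : 2 ≤ n) : Rigid 1 n := by
  obtain ⟨m, rfl⟩ : ∃ m, n = m + 1 := ⟨n - 1, by omega⟩
  obtain ⟨K, i1, i2, i3, P, t, hd, hy, hx, -, hD⟩ := exists_wei m
  have hc : CharZero K := charZero_of_injective_algebraMap (algebraMap ℂ K).injective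
  have h6 : (6 : K) ≠ 0 := by norm_num
  have hst : MG.IsStable 1 (Wei P) := wst.2 P h6 hd (fun i j hij => Or.inl (hx i j hij))
  have hsm : Smooth (Wei P).π := by
    have h := wei_smooth P hd
    exact SmoothOfRelativeDimension.smooth 1 _
  refine ⟨K, i1, i2, i3, Wei P, (stable_iff 1 _).2 hst, hsm, wei_generic P hy hD, fun F => ?_⟩
  obtain ⟨c, hc⟩ := genus_one (m + 1) hn (Reg.to F)
  exact ⟨c, fun l => hc K (Wei P) hst hsm (Cov.to l)⟩

section

variable {K : Type} [Field K] [Algebra ℂ K] {a b : K}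

theorem cov_inj (ha : a ≠ 0) (h : Ideal.span {a, b} = ⊤) {τ τ' : K}
    (he : cov six a b τ = cov six a b τ') : τ = τ' := by
  have hc : CharZero K := charZero_of_injective_algebraMap (algebraMap ℂ K).injective
  have h1 := cov_is six a b τ (dW six h 0 1) 0 1 Fin.elim0 Fin.elim0 (wcls_dW six h 0 1)
  have h2 := cov_is six a b τ' (dW six h 0 1) 0 1 Fin.elim0 Fin.elim0 (wcls_dW six h 0 1)
  rw [he, h2] at h1
  simp only [WT, Finset.univ_eq_empty, Finset.sum_empty, add_zero, mul_zero, zero_add,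
    mul_one] at h1
  exact (mul_left_cancel₀ (mul_ne_zero two_ne_zero ha) h1).symm

/-- The coefficient of a covector. -/
noncomputable def tau (h : Ideal.span {a, b} = ⊤) (l : Cov 1 (Wei (WZ a b))) : K :=
  (cov_ex six h (Cov.to l)).choose

theorem tau_spec (h : Ideal.span {a, b} = ⊤) (l : Cov 1 (Wei (WZ a b))) :
    Cov.to l = cov six a b (tau h l) :=
  (cov_ex six h (Cov.to l)).choose_spec

/-- Invariant polynomials as functions of the covector. -/
noncomputable def evInv (h : Ideal.span {a, b} = ⊤) :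
    Inv →ₐ[ℂ] (Cov 1 (Wei (WZ a b)) → K) :=
  AlgHom.pi fun l => (MvPolynomial.aeval ![a, b, tau h l]).comp Inv.val

theorem evInv_apply (h : Ideal.span {a, b} = ⊤) (p : Inv) (l : Cov 1 (Wei (WZ a b))) :
    evInv h p l = MvPolynomial.aeval ![a, b, tau h l] p.1 := rfl

theorem evInv_range (hEX : WL.Stmt_EX) (h : Ideal.span {a, b} = ⊤)
    (hx : IsStable 1 (Wei (WZ a b))) : (evInv h).range = Img 1 (Wei (WZ a b)) hx := by
  have hx' := (stable_iff 1 _).1 hx
  refine le_antisymm ?_ ?_
  · rintro φ ⟨p, rfl⟩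
    obtain ⟨F, hF⟩ := hEX p.1 p.2
    refine ⟨Reg.of F, fun l => ?_⟩
    change evInv h p l = F.F K (Wei (WZ a b)) hx' (Cov.to l)
    rw [evInv_apply, tau_spec h l, hF K a b (tau h l) hx' h]
  · rintro φ ⟨F, hF⟩
    refine ⟨⟨poly (Reg.to F), poly_mem _⟩, ?_⟩
    funext l
    rw [hF l]
    change evInv h _ l = (Reg.to F).F K (Wei (WZ a b)) hx' (Cov.to l)
    rw [evInv_apply, tau_spec h l, poly_spec (Reg.to F) a b (tau h l) hx' h]

theorem evInv_inj (h : Ideal.span {a, b} = ⊤) {t : K} (ht : AlgebraicIndependent ℂ ![a, b, t]) :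
    Function.Injective (evInv h) := by
  have ha : a ≠ 0 := by
    have := ai_ne ht (MvPolynomial.X 0) (fun _ => 1) (by simp)
    simpa using this
  rw [injective_iff_map_eq_zero]
  intro p hp
  have h1 := congrFun hp (Cov.of (cov six a b t))
  have h2 : tau h (Cov.of (cov six a b t)) = t := by
    have h3 := tau_spec h (Cov.of (cov six a b t))
    exact (cov_inj ha h h3).symm
  rw [evInv_apply, h2] at h1
  exact Subtype.ext ((injective_iff_map_eq_zero
    (MvPolynomial.aeval ![a, b, t] : MvPolynomial (Fin 3) ℂ →ₐ[ℂ] K)).1 ht p.1 h1)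

end

/-- Genus one, one point. -/
theorem answer_11 (hEX : WL.Stmt_EX) : Answer 1 1 2 := by
  obtain ⟨K, i1, i2, i3, P, t, hd, hy, -, hai, hD⟩ := exists_wei 0
  have hc : CharZero K := charZero_of_injective_algebraMap (algebraMap ℂ K).injective
  have h6 : (6 : K) ≠ 0 := by norm_num
  have ha : P.a ≠ 0 := by
    have := ai_ne hai (MvPolynomial.X 0) (fun _ => 1) (by simp)
    simpa using this
  have hsp : Ideal.span {P.a, P.b} = ⊤ := span_of_unit (Or.inl (IsUnit.mk0 _ ha))
  have hP := WZ_eq P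
  have hd' : 4 * (WZ P.a P.b).a ^ 3 + 27 * (WZ P.a P.b).b ^ 2 ≠ 0 := hd
  have hst : MG.IsStable 1 (Wei (WZ P.a P.b)) := stable_of hsp
  have hsm : Smooth (Wei (WZ P.a P.b)).π := by
    have h := wei_smooth (WZ P.a P.b) hd'
    exact SmoothOfRelativeDimension.smooth 1 _
  have hx := (stable_iff 1 _).2 hst
  refine ⟨K, i1, i2, i3, Wei (WZ P.a P.b), hx, hsm, ?_, ?_⟩
  · exact wei_generic (WZ P.a P.b) (fun i => i.elim0) fun α β γ => by
      obtain ⟨D, h1, h2, -⟩ := hD α β γ
      exact ⟨D, h1, h2, fun i => i.elim0⟩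
  · rw [← evInv_range hEX hsp hx, ← krull_Inv]
    exact (ringKrullDim_eq_of_ringEquiv
      (AlgEquiv.ofInjective (evInv hsp) (evInv_inj hsp hai)).toRingEquiv).symm

end Pool.Agent.MG.Std
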