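import Pool.Agent.MG.Glue2
import Pool.Agent.MG.Local2

/-!
# Cartesian squares over a scheme covered by two open pieces
-/

open CategoryTheory CategoryTheory.Limits AlgebraicGeometry

universe u

namespace Pool.Agent.MG

variable {S S' X Y Z X' Y' Z' : Scheme.{u}}

/-- The preimage of an open piece. -/
theorem piece_isPullback {i : X ⟶ Z} {j : Y ⟶ Z} {i' : X' ⟶ Z'} {j' : Y' ⟶ Z'}
    [IsOpenImmersion i] [IsOpenImmersion i'] {hX : X' ⟶ X} {hY : Y' ⟶ Y} {m : Z' ⟶ Z}
    (hi : i' ≫ m = hX ≫ i) (hj : j' ≫ m = hY ≫ j)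
    (cov' : ∀ z : Z', z ∈ Set.range i' ∨ z ∈ Set.range j')
    (pre : ∀ y : Y', j (hY y) ∈ Set.range i → j' y ∈ Set.range i') :
    IsPullback i' hX m i := by
  refine (IsOpenImmersion.isPullback hX i' i m hi ?_).flip
  ext z
  simp only [TopologicalSpace.Opens.map_coe, Scheme.Hom.coe_opensRange, Set.mem_preimage]
  constructor
  · intro hz
    rcases cov' z with h | ⟨y, rfl⟩
    · exact h
    · apply pre
      rw [← Scheme.Hom.comp_apply, ← hj]
      exact hz
  · rintro ⟨x, rfl⟩
    refine ⟨hX x, ?_⟩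
    rw [← Scheme.Hom.comp_apply, ← hi]
    rfl

/-- A square is cartesian if it is so over two open pieces. -/
theorem cart_two {i : X ⟶ Z} {j : Y ⟶ Z} {i' : X' ⟶ Z'} {j' : Y' ⟶ Z'}
    [IsOpenImmersion i] [IsOpenImmersion j] [IsOpenImmersion i'] [IsOpenImmersion j']
    {hX : X' ⟶ X} {hY : Y' ⟶ Y} {m : Z' ⟶ Z} {p : Z ⟶ S} {p' : Z' ⟶ S'} {b : S' ⟶ S}
    (hi : i' ≫ m = hX ≫ i) (hj : j' ≫ m = hY ≫ j)
    (cov : ∀ z : Z, z ∈ Set.range i ∨ z ∈ Set.range j)
    (cov' : ∀ z : Z', z ∈ Set.range i' ∨ z ∈ Set.range j')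
    (pre : ∀ y : Y', j (hY y) ∈ Set.range i → j' y ∈ Set.range i')
    (pre' : ∀ x : X', i (hX x) ∈ Set.range j → i' x ∈ Set.range j')
    (sX : IsPullback hX (i' ≫ p') (i ≫ p) b) (sY : IsPullback hY (j' ≫ p') (j ≫ p) b)
    (w : m ≫ p = p' ≫ b) : IsPullback m p' p b := by
  have qi : IsPullback i' hX m i := piece_isPullback hi hj cov' pre
  have qj : IsPullback j' hY m j := piece_isPullback hj hi (fun z => (cov' z).symm) pre'
  let h : Z' ⟶ pullback p b := pullback.lift m p' w
  have hf : h ≫ pullback.fst p b = m := pullback.lift_fst _ _ _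
  have hs : h ≫ pullback.snd p b = p' := pullback.lift_snd _ _ _
  let jX : X' ⟶ pullback p b := pullback.lift (hX ≫ i) (i' ≫ p') (by
    rw [Category.assoc]; exact sX.w)
  let jY : Y' ⟶ pullback p b := pullback.lift (hY ≫ j) (j' ≫ p') (by
    rw [Category.assoc]; exact sY.w)
  have hX1 : jX ≫ pullback.fst p b = hX ≫ i := pullback.lift_fst _ _ _
  have hX2 : jX ≫ pullback.snd p b = i' ≫ p' := pullback.lift_snd _ _ _
  have hY1 : jY ≫ pullback.fst p b = hY ≫ j := pullback.lift_fst _ _ _
  have hY2 : jY ≫ pullback.snd p b = j' ≫ p' := pullback.lift_snd _ _ _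
  have tb : IsPullback (pullback.snd p b) (pullback.fst p b) b p :=
    (IsPullback.of_hasPullback p b).flip
  have qX : IsPullback jX hX (pullback.fst p b) i :=
    IsPullback.of_right (by rw [hX2]; exact sX.flip) hX1 tb
  have qY : IsPullback jY hY (pullback.fst p b) j :=
    IsPullback.of_right (by rw [hY2]; exact sY.flip) hY1 tb
  have oX : IsOpenImmersion jX := MorphismProperty.of_isPullback qX.flip inferInstance
  have oY : IsOpenImmersion jY := MorphismProperty.of_isPullback qY.flip inferInstance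
  have e1 : i' ≫ h = jX := by
    apply pullback.hom_ext
    · rw [Category.assoc, hf, hi, hX1]
    · rw [Category.assoc, hs, hX2]
  have e2 : j' ≫ h = jY := by
    apply pullback.hom_ext
    · rw [Category.assoc, hf, hj, hY1]
    · rw [Category.assoc, hs, hY2]
  have rX : IsPullback (𝟙 X') i' jX h :=
    IsPullback.of_right (h₁₂ := hX) (h₂₂ := pullback.fst p b) (v₁₃ := i)
      (by rw [Category.id_comp, hf]; exact qi.flip) (by rw [Category.id_comp, e1]) qX.flip
  have rY : IsPullback (𝟙 Y') j' jY h :=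
    IsPullback.of_right (h₁₂ := hY) (h₂₂ := pullback.fst p b) (v₁₃ := j)
      (by rw [Category.id_comp, hf]; exact qj.flip) (by rw [Category.id_comp, e2]) qY.flip
  have hiso : IsIso h := by
    refine two_target (MorphismProperty.isomorphisms Scheme) h jX jY ?_ rX.flip rY.flip
      (MorphismProperty.isomorphisms.infer_property _) (MorphismProperty.isomorphisms.infer_property _)
    intro t
    rcases cov (pullback.fst p b t) with ⟨x, hx⟩ | ⟨y, hy⟩
    · left
      obtain ⟨o, ho, -⟩ := Scheme.exists_preimage_of_isPullback qX t x hx.symm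
      exact ⟨o, ho⟩
    · right
      obtain ⟨o, ho, -⟩ := Scheme.exists_preimage_of_isPullback qY t y hy.symm
      exact ⟨o, ho⟩
  exact IsPullback.of_iso_pullback ⟨w⟩ (asIso h) (by simp [hf]) (by simp [hs])

end Pool.Agent.MG
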