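import Pool.Agent.MG.GLUR
import Pool.Agent.MG.GlueBC

/-!
# GLU, geometric tools
-/

open CategoryTheory CategoryTheory.Limits AlgebraicGeometry TensorProduct

namespace Pool.Agent.MG.GLU

/-- Functions on an affine piece. -/
noncomputable def gm {A : Type} [CommRing A] {X : Scheme.{0}} (i : Sp A ⟶ X) (W : X.Opens)
    (h : ⊤ ≤ i ⁻¹ᵁ W) : Γ(X, W) →+* A :=
  (Scheme.ΓSpecIso (CommRingCat.of A)).hom.hom.comp (i.appLE W ⊤ h).hom

theorem gm_bij {A : Type} [CommRing A] {X : Scheme.{0}} (i : Sp A ⟶ X) [IsOpenImmersion i]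
    (W : X.Opens) (h : ⊤ ≤ i ⁻¹ᵁ W) (hW : i.opensRange = W) : Function.Bijective (gm i W h) := by
  have h1 : IsIso (i.appLE W ⊤ h) := by
    have hW' : W = i ''ᵁ ⊤ := by
      rw [← hW, Scheme.Hom.image_top_eq_opensRange]
    subst hW'
    rw [← Scheme.Hom.appIso_hom' i ⊤]
    infer_instance
  have h2 : Function.Bijective (i.appLE W ⊤ h).hom := ConcreteCategory.bijective_of_isIso _
  have h3 : Function.Bijective (Scheme.ΓSpecIso (CommRingCat.of A)).hom.hom :=
    ConcreteCategory.bijective_of_isIso _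
  exact h3.comp h2

theorem gm_nat {A A' : Type} [CommRing A] [CommRing A'] {X X' : Scheme.{0}} (f : X' ⟶ X)
    (i : Sp A ⟶ X) (i' : Sp A' ⟶ X') (u : A →+* A') (hc : i' ≫ f = spMap u ≫ i) (W : X.Opens)
    (W' : X'.Opens) (h : ⊤ ≤ i ⁻¹ᵁ W) (h' : ⊤ ≤ i' ⁻¹ᵁ W') (hf : W' ≤ f ⁻¹ᵁ W) (v : Γ(X, W)) :
    gm i' W' h' ((f.appLE W W' hf).hom v) = u (gm i W h v) := by
  have h1 := Scheme.Hom.appLE_comp_appLE i' f W W' ⊤ hf h'
  have h2 := Scheme.Hom.appLE_comp_appLE (spMap u) i W ⊤ ⊤ h le_top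
  have h3 : f.appLE W W' hf ≫ i'.appLE W' ⊤ h' =
      i.appLE W ⊤ h ≫ (spMap u).appLE ⊤ ⊤ le_top := by
    rw [h1, h2]
    simp only [hc]
  have h4 := ConcreteCategory.congr_hom h3 v
  change (Scheme.ΓSpecIso (CommRingCat.of A')).hom.hom
    ((f.appLE W W' hf ≫ i'.appLE W' ⊤ h') v) = _
  rw [h4]
  change _ = u ((Scheme.ΓSpecIso (CommRingCat.of A)).hom.hom ((i.appLE W ⊤ h).hom v))
  rw [← gs_spMap]
  congr 2

theorem gm_comp {A A' : Type} [CommRing A] [CommRing A'] {X : Scheme.{0}}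
    (i : Sp A ⟶ X) (u : A →+* A') (i' : Sp A' ⟶ X) (hc : i' = spMap u ≫ i) (W : X.Opens)
    (h : ⊤ ≤ i ⁻¹ᵁ W) (h' : ⊤ ≤ i' ⁻¹ᵁ W) (v : Γ(X, W)) :
    gm i' W h' v = u (gm i W h v) := by
  have := gm_nat (𝟙 X) i i' u (by rw [Category.comp_id, hc]) W W h h' le_rfl v
  rw [← this]
  congr 1
  have h1 : (𝟙 X : X ⟶ X).appLE W W le_rfl = 𝟙 _ := Scheme.Hom.appLE_eq_app _
  rw [h1]
  rfl

theorem gm_rs {A A' : Type} [CommRing A] [CommRing A'] {X : Scheme.{0}}
    (i : Sp A ⟶ X) (u : A →+* A') (i' : Sp A' ⟶ X) (hc : i' = spMap u ≫ i) {W W' : X.Opens}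
    (hW : W' ≤ W) (h : ⊤ ≤ i ⁻¹ᵁ W) (h' : ⊤ ≤ i' ⁻¹ᵁ W') (v : Γ(X, W)) :
    gm i' W' h' (rs X hW v) = u (gm i W h v) := by
  rw [← gm_comp i u i' hc W h (h'.trans (fun _ hx => hW hx)) v]
  change (Scheme.ΓSpecIso (CommRingCat.of A')).hom.hom
    ((X.presheaf.map (homOfLE hW).op ≫ i'.appLE W' ⊤ h') v) = _
  rw [Scheme.Hom.map_appLE]
  rfl

theorem gm_coef {A R : Type} [CommRing A] [CommRing R] {X : Scheme.{0}}
    (i : Sp R ⟶ X) (π : X ⟶ Sp A) (u : A →+* R) (hc : i ≫ π = spMap u) (W : X.Opens)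
    (h : ⊤ ≤ i ⁻¹ᵁ W) (a : A) : gm i W h (coef π W a) = u a := by
  change (Scheme.ΓSpecIso (CommRingCat.of R)).hom.hom
    ((i.appLE W ⊤ h).hom (coef π W a)) = _
  have h1 := coef_spMap u (𝟙 (Sp R)) ⊤ a
  rw [Category.id_comp] at h1
  rw [coef_comp, hc, h1, coef_id, gl_inv]

theorem eq_fromSpec {A : Type} [CommRing A] {X : Scheme.{0}} (f : Sp A ⟶ X) (U : X.Opens)
    (hU : IsAffineOpen U) (h : ⊤ ≤ f ⁻¹ᵁ U) :
    f = spMap (gm f U h) ≫ hU.fromSpec := by
  have h1 := hU.SpecMap_appLE_fromSpec f (isAffineOpen_top (Sp A)) h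
  have h2 : spMap (gm f U h) = Spec.map (Scheme.ΓSpecIso (CommRingCat.of A)).hom ≫
      Spec.map (f.appLE U ⊤ h) := by
    rw [← Spec.map_comp]
    rfl
  rw [h2, Category.assoc, h1, IsAffineOpen.fromSpec_top, Scheme.isoSpec_Spec_inv,
    ← Category.assoc, ← Spec.map_comp, Iso.inv_hom_id, Spec.map_id, Category.id_comp]

theorem gm_fromSpec {X : Scheme.{0}} (U : X.Opens) (hU : IsAffineOpen U)
    (h : ⊤ ≤ hU.fromSpec ⁻¹ᵁ U) (v : Γ(X, U)) :
    gm (A := Γ(X, U)) hU.fromSpec U h v = v := by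
  have h1 := eq_fromSpec (A := Γ(X, U)) hU.fromSpec U hU h
  have h2 : spMap (gm (A := Γ(X, U)) hU.fromSpec U h) = 𝟙 _ := by
    rw [← cancel_mono hU.fromSpec, Category.id_comp]
    exact h1.symm
  have h3 : CommRingCat.ofHom (gm (A := Γ(X, U)) hU.fromSpec U h) = 𝟙 _ := by
    apply Spec.map_injective
    rw [Spec.map_id]
    exact h2
  exact ConcreteCategory.congr_hom h3 v

/-- Separatedness of an infinitesimal thickening. -/
theorem sep_of_surj {X Y Z : Scheme.{0}} (m : X ⟶ Y) (p : Y ⟶ Z) [IsClosedImmersion m]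
    [Surjective m] [IsSeparated (m ≫ p)] : IsSeparated p := by
  constructor
  refine IsClosedImmersion.of_isPreimmersion _ ?_
  let M := pullback.map (m ≫ p) (m ≫ p) p p m m (𝟙 Z) (Category.comp_id _) (Category.comp_id _)
  have hM : IsClosedImmersion M :=
    MorphismProperty.pullbackMap (P := @IsClosedImmersion) (f := m ≫ p) (g := m ≫ p) (f' := p)
      (g' := p) inferInstance inferInstance rfl rfl
  have hMf : M ≫ pullback.fst p p = pullback.fst (m ≫ p) (m ≫ p) ≫ m := pullback.lift_fst _ _ _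
  have hMs : M ≫ pullback.snd p p = pullback.snd (m ≫ p) (m ≫ p) ≫ m := pullback.lift_snd _ _ _
  have h1 : pullback.diagonal (m ≫ p) ≫ M = m ≫ pullback.diagonal p := by
    apply pullback.hom_ext
    · rw [Category.assoc, hMf, ← Category.assoc, pullback.diagonal_fst, Category.id_comp,
        Category.assoc, pullback.diagonal_fst, Category.comp_id]
    · rw [Category.assoc, hMs, ← Category.assoc, pullback.diagonal_snd, Category.id_comp,
        Category.assoc, pullback.diagonal_snd, Category.comp_id]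
  have h2 : Set.range (pullback.diagonal p) = M '' Set.range (pullback.diagonal (m ≫ p)) := by
    ext y
    constructor
    · rintro ⟨a, rfl⟩
      obtain ⟨b, rfl⟩ := m.surjective a
      refine ⟨pullback.diagonal (m ≫ p) b, ⟨b, rfl⟩, ?_⟩
      rw [← Scheme.Hom.comp_apply, h1, Scheme.Hom.comp_apply]
    · rintro ⟨_, ⟨b, rfl⟩, rfl⟩
      refine ⟨m b, ?_⟩
      rw [← Scheme.Hom.comp_apply, ← h1, Scheme.Hom.comp_apply]
  rw [h2]
  exact M.isClosedEmbedding.isClosedMap _
    (pullback.diagonal (m ≫ p)).isClosedEmbedding.isClosed_range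

/-- A scheme covered by two open pieces is their push out. -/
theorem glue_push {W X Y Z : Scheme.{0}} {f : W ⟶ X} {g : W ⟶ Y} [IsOpenImmersion f]
    [IsOpenImmersion g] {i : X ⟶ Z} {j : Y ⟶ Z} [IsOpenImmersion i] [IsOpenImmersion j]
    (h : f ≫ i = g ≫ j) (cov : ∀ z : Z, z ∈ Set.range i ∨ z ∈ Set.range j)
    (inter : ∀ x y, i x = j y → ∃ w, f w = x ∧ g w = y) : IsPushout f g i j := by
  let p : (pushout f g : Scheme) ⟶ Z := pushout.desc i j h
  have hi : pushout.inl f g ≫ p = i := pushout.inl_desc _ _ _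
  have hj : pushout.inr f g ≫ p = j := pushout.inr_desc _ _ _
  have q1 : IsPullback (pushout.inl f g) (𝟙 X) p i := by
    refine piece_isPullback (hY := 𝟙 Y) (j := j) (j' := pushout.inr f g)
      (by rw [hi, Category.id_comp]) (by rw [hj, Category.id_comp]) (glue2_surj f g) ?_
    rintro y ⟨x, hx⟩
    obtain ⟨w, rfl, rfl⟩ := inter x y hx
    refine ⟨f w, ?_⟩
    rw [← Scheme.Hom.comp_apply, pushout.condition, Scheme.Hom.comp_apply]
  have q2 : IsPullback (pushout.inr f g) (𝟙 Y) p j := by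
    refine piece_isPullback (hY := 𝟙 X) (j := i) (j' := pushout.inl f g)
      (by rw [hj, Category.id_comp]) (by rw [hi, Category.id_comp])
      (fun z => (glue2_surj f g z).symm) ?_
    rintro x ⟨y, hy⟩
    obtain ⟨w, rfl, rfl⟩ := inter x y hy.symm
    refine ⟨g w, ?_⟩
    rw [← Scheme.Hom.comp_apply, ← pushout.condition, Scheme.Hom.comp_apply]
  have hiso : IsIso p := by
    refine two_target (MorphismProperty.isomorphisms Scheme) p i j cov q1 q2
      (MorphismProperty.isomorphisms.infer_property _)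
      (MorphismProperty.isomorphisms.infer_property _)
  exact IsPushout.of_iso_pushout ⟨h⟩ (asIso p).symm (by simp [← hi]) (by simp [← hj])

section Alg

variable {k E : Type} [Field k] [CommRing E] [Algebra k E]

/-- Base change of a homomorphism of algebras. -/
noncomputable def mE {R R' : Type} [CommRing R] [Algebra k R] [CommRing R'] [Algebra k R']
    (j : R →ₐ[k] R') : E ⊗[k] R →+* E ⊗[k] R' :=
  (Algebra.TensorProduct.map (AlgHom.id k E) j : E ⊗[k] R →ₐ[k] E ⊗[k] R')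

theorem mE_tmul {R R' : Type} [CommRing R] [Algebra k R] [CommRing R'] [Algebra k R']
    (j : R →ₐ[k] R') (e : E) (r : R) : mE j (e ⊗ₜ[k] r) = e ⊗ₜ j r := rfl

/-- The structure map. -/
noncomputable def iL (E R : Type) [CommRing E] [Algebra k E] [CommRing R] [Algebra k R] :
    E →+* E ⊗[k] R := Algebra.TensorProduct.includeLeftRingHom

theorem iL_apply {R : Type} [CommRing R] [Algebra k R] (e : E) : iL (k := k) E R e = e ⊗ₜ 1 := rfl

/-- The constant functions. -/
noncomputable def iR (E R : Type) [CommRing E] [Algebra k E] [CommRing R] [Algebra k R] :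
    R →+* E ⊗[k] R := (Algebra.TensorProduct.includeRight : R →ₐ[k] E ⊗[k] R)

theorem iR_apply {R : Type} [CommRing R] [Algebra k R] (r : R) : iR (k := k) E R r = 1 ⊗ₜ r := rfl

theorem push0 (R : Type) [CommRing R] [Algebra k R] :
    IsPushout (CommRingCat.ofHom (algebraMap k E)) (CommRingCat.ofHom (algebraMap k R))
      (CommRingCat.ofHom (iL (k := k) E R)) (CommRingCat.ofHom (iR (k := k) E R)) :=
  CommRingCat.isPushout_tensorProduct k E R

theorem push1 {R R' : Type} [CommRing R] [Algebra k R] [CommRing R'] [Algebra k R']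
    (j : R →ₐ[k] R') :
    IsPushout (CommRingCat.ofHom (j : R →+* R')) (CommRingCat.ofHom (iR (k := k) E R))
      (CommRingCat.ofHom (iR (k := k) E R')) (CommRingCat.ofHom (mE (E := E) j)) := by
  refine IsPushout.of_left (h₁₁ := CommRingCat.ofHom (algebraMap k R))
    (h₂₁ := CommRingCat.ofHom (iL (k := k) E R)) (v₁₁ := CommRingCat.ofHom (algebraMap k E))
    ?_ ?_ (push0 R).flip
  · have e1 : CommRingCat.ofHom (algebraMap k R) ≫ CommRingCat.ofHom (j : R →+* R') =
        CommRingCat.ofHom (algebraMap k R') := by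
      rw [← CommRingCat.ofHom_comp]
      congr 1
      exact j.comp_algebraMap
    have e2 : CommRingCat.ofHom (iL (k := k) E R) ≫ CommRingCat.ofHom (mE (E := E) j) =
        CommRingCat.ofHom (iL (k := k) E R') := by
      rw [← CommRingCat.ofHom_comp]
      congr 1
      ext e
      change mE j (e ⊗ₜ[k] (1 : R)) = e ⊗ₜ 1
      rw [mE_tmul, map_one]
    rw [e1, e2]
    exact (push0 R').flip
  · rw [← CommRingCat.ofHom_comp, ← CommRingCat.ofHom_comp]
    congr 1

theorem open1 {R R' : Type} [CommRing R] [Algebra k R] [CommRing R'] [Algebra k R']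
    (j : R →ₐ[k] R') (hj : IsOpenImmersion (spMap (j : R →+* R'))) :
    IsOpenImmersion (spMap (mE (E := E) j)) :=
  MorphismProperty.of_isPullback (isPullback_SpecMap_of_isPushout _ _ _ _ (push1 (E := E) j)) hj

variable {J : Type} [Fintype J] (S : SqE k E J) (hS : ∀ c, algebraMap k E c = S.i c)

include hS in
theorem push2 (R : Type) [CommRing R] [Algebra k R] :
    IsPushout (CommRingCat.ofHom S.p) (CommRingCat.ofHom (iL (k := k) E R))
      (CommRingCat.ofHom (algebraMap k R))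
      (CommRingCat.ofHom (red S hS R : E ⊗[k] R →+* R)) := by
  refine IsPushout.of_left (h₁₁ := CommRingCat.ofHom (algebraMap k E))
    (h₂₁ := CommRingCat.ofHom (iR (k := k) E R)) (v₁₁ := CommRingCat.ofHom (algebraMap k R))
    ?_ ?_ (push0 R)
  · have e1 : CommRingCat.ofHom (algebraMap k E) ≫ CommRingCat.ofHom S.p = 𝟙 _ := by
      rw [← CommRingCat.ofHom_comp, ← CommRingCat.ofHom_id]
      congr 1
      ext c
      change S.p (algebraMap k E c) = c
      rw [hS, S.pi]
    have e2 : CommRingCat.ofHom (iR (k := k) E R) ≫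
        CommRingCat.ofHom (red S hS R : E ⊗[k] R →+* R) = 𝟙 _ := by
      rw [← CommRingCat.ofHom_comp, ← CommRingCat.ofHom_id]
      congr 1
      ext r
      change red S hS R (1 ⊗ₜ r) = r
      rw [red_tmul, map_one, one_smul]
    rw [e1, e2]
    exact IsPushout.of_horiz_isIso ⟨by simp⟩
  · rw [← CommRingCat.ofHom_comp, ← CommRingCat.ofHom_comp]
    congr 1
    ext e
    change algebraMap k R (S.p e) = red S hS R (e ⊗ₜ 1)
    rw [red_tmul, Algebra.algebraMap_eq_smul_one]

end Alg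

end Pool.Agent.MG.GLU
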