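import Pool.Agent.MG.DefsA

/-!
# Functions on the intersection of two affine opens of a separated scheme
-/

open CategoryTheory CategoryTheory.Limits AlgebraicGeometry

namespace Pool.Agent.MG

theorem pushout_gen {A B C D : CommRingCat.{0}} {f : A ⟶ B} {g : A ⟶ C} {i : B ⟶ D} {j : C ⟶ D}
    (h : IsPushout f g i j) (d : D) :
    d ∈ Subring.closure (Set.range i.hom ∪ Set.range j.hom) := by
  set S := Subring.closure (Set.range i.hom ∪ Set.range j.hom) with hS
  let i' : B ⟶ CommRingCat.of S := CommRingCat.ofHom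
    (i.hom.codRestrict S (fun b => Subring.subset_closure (Or.inl ⟨b, rfl⟩)))
  let j' : C ⟶ CommRingCat.of S := CommRingCat.ofHom
    (j.hom.codRestrict S (fun b => Subring.subset_closure (Or.inr ⟨b, rfl⟩)))
  let s : CommRingCat.of S ⟶ D := CommRingCat.ofHom S.subtype
  have hi : i' ≫ s = i := rfl
  have hj : j' ≫ s = j := rfl
  have hs : Mono s := ConcreteCategory.mono_of_injective _ Subtype.val_injective
  have hc : f ≫ i' = g ≫ j' := by
    rw [← cancel_mono s, Category.assoc, Category.assoc, hi, hj, h.w]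
  have h1 : h.desc i' j' hc ≫ s = 𝟙 D := by
    apply h.hom_ext
    · rw [← Category.assoc, h.inl_desc, hi, Category.comp_id]
    · rw [← Category.assoc, h.inr_desc, hj, Category.comp_id]
  have h2 : s.hom ((h.desc i' j' hc).hom d) = d := by
    have := ConcreteCategory.congr_hom h1 d
    exact this
  rw [← h2]
  exact Subtype.mem _

set_option backward.isDefEq.respectTransparency false in
theorem homOfLE_topIso {X : Scheme.{0}} {U V : X.Opens} (e : U ≤ V) :
    (X.homOfLE e).appTop ≫ U.topIso.hom = V.topIso.hom ≫ X.presheaf.map (homOfLE e).op := by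
  rw [Scheme.homOfLE_appTop, Scheme.Opens.topIso_hom, Scheme.Opens.topIso_hom,
    ← Functor.map_comp, ← Functor.map_comp]
  rfl

theorem sep_gen {A : Type} [CommRing A] {X : Scheme.{0}} (π : X ⟶ Sp A) [IsSeparated π]
    {U V : X.Opens} (hU : IsAffineOpen U) (hV : IsAffineOpen V) (s : Γ(X, U ⊓ V)) :
    s ∈ Subring.closure (Set.range (rs X (inf_le_left : U ⊓ V ≤ U)) ∪
      Set.range (rs X (inf_le_right : U ⊓ V ≤ V))) := by
  have : IsAffine U.toScheme := hU
  have : IsAffine V.toScheme := hV
  let D := pullback (U.ι ≫ π) (V.ι ≫ π)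
  let w : (U ⊓ V).toScheme ⟶ D :=
    (isPullback_opens_inf U V).isoPullback.hom ≫ pullback.mapDesc U.ι V.ι π
  have hw1 : w ≫ pullback.fst (U.ι ≫ π) (V.ι ≫ π) = X.homOfLE inf_le_left := by
    simp only [w, Category.assoc, pullback.mapDesc, pullback.map, pullback.lift_fst,
      Category.comp_id, IsPullback.isoPullback_hom_fst]
  have hw2 : w ≫ pullback.snd (U.ι ≫ π) (V.ι ≫ π) = X.homOfLE inf_le_right := by
    simp only [w, Category.assoc, pullback.mapDesc, pullback.map, pullback.lift_snd,
      Category.comp_id, IsPullback.isoPullback_hom_snd]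
  have hD : IsAffine D := inferInstance
  have hsur := (IsClosedImmersion.isAffine_surjective_of_isAffine w).2
  have hpo := isPushout_appTop_of_isPullback (IsPullback.of_hasPullback (U.ι ≫ π) (V.ι ≫ π))
  obtain ⟨d, hd⟩ := hsur ((U ⊓ V).topIso.inv.hom s)
  have h1 := pushout_gen hpo d
  have key : ∀ d : Γ(D, ⊤), d ∈ Subring.closure
      (Set.range (pullback.fst (U.ι ≫ π) (V.ι ≫ π)).appTop.hom ∪
        Set.range (pullback.snd (U.ι ≫ π) (V.ι ≫ π)).appTop.hom) →
      (U ⊓ V).topIso.hom.hom (w.appTop.hom d) ∈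
        Subring.closure (Set.range (rs X (inf_le_left : U ⊓ V ≤ U)) ∪
          Set.range (rs X (inf_le_right : U ⊓ V ≤ V))) := by
    intro d hd
    let F : Γ(D, ⊤) →+* Γ(X, U ⊓ V) := (U ⊓ V).topIso.hom.hom.comp w.appTop.hom
    have hle : Subring.closure
      (Set.range (pullback.fst (U.ι ≫ π) (V.ι ≫ π)).appTop.hom ∪
        Set.range (pullback.snd (U.ι ≫ π) (V.ι ≫ π)).appTop.hom) ≤
        (Subring.closure (Set.range (rs X (inf_le_left : U ⊓ V ≤ U)) ∪
          Set.range (rs X (inf_le_right : U ⊓ V ≤ V)))).comap F := by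
      rw [Subring.closure_le]
      rintro _ (⟨b, rfl⟩ | ⟨b, rfl⟩)
      · apply Subring.subset_closure
        left
        refine ⟨U.topIso.hom.hom b, ?_⟩
        have e1 : (pullback.fst (U.ι ≫ π) (V.ι ≫ π)).appTop ≫ w.appTop =
          (X.homOfLE inf_le_left).appTop :=
            (Scheme.Hom.comp_appTop w (pullback.fst (U.ι ≫ π) (V.ι ≫ π))).symm.trans (by rw [hw1])
        have e2 := homOfLE_topIso (X := X) (inf_le_left : U ⊓ V ≤ U)
        rw [← e1, Category.assoc] at e2
        exact (ConcreteCategory.congr_hom e2 b).symm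
      · apply Subring.subset_closure
        right
        refine ⟨V.topIso.hom.hom b, ?_⟩
        have e1 : (pullback.snd (U.ι ≫ π) (V.ι ≫ π)).appTop ≫ w.appTop =
          (X.homOfLE inf_le_right).appTop :=
            (Scheme.Hom.comp_appTop w (pullback.snd (U.ι ≫ π) (V.ι ≫ π))).symm.trans (by rw [hw2])
        have e2 := homOfLE_topIso (X := X) (inf_le_right : U ⊓ V ≤ V)
        rw [← e1, Category.assoc] at e2
        exact (ConcreteCategory.congr_hom e2 b).symm
    exact hle hd
  have h2 := key d h1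
  have h3 : (U ⊓ V).topIso.hom.hom (w.appTop.hom d) = s := by
    rw [hd]
    have := ConcreteCategory.congr_hom (U ⊓ V).topIso.inv_hom_id s
    exact this
  rwa [h3] at h2

end Pool.Agent.MG
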