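import Pool.Agent.MG.Geo

/-!
# The market: statements of the blocks of the proof for pointed curves
-/

open CategoryTheory CategoryTheory.Limits AlgebraicGeometry TensorProduct

namespace Pool.Agent.MG

/-! ## Block KS: Kodaira–Spencer classes -/

/-- AFF: flat thickenings of affine opens are affine. -/
def Stmt_AFF : Prop :=
  ∀ {n : ℕ} {B E J : Type} [CommRing B] [CommRing E] [Fintype J] {S : SqE B E J} {x : Fam n B}
    (t : Thk S x) (U : x.X.Opens), IsAffineOpen U → IsAffineOpen (t.op U)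

/-- SQZ: flat thickenings of acyclic opens. -/
def Stmt_SQZ : Prop :=
  ∀ {n : ℕ} {B E J : Type} [CommRing B] [CommRing E] [Fintype J] {S : SqE B E J} {x : Fam n B}
    (t : Thk S x) (U : x.X.Opens), Acyc U → Good t U

/-- AX: every ring datum has a Kodaira–Spencer class. -/
def Stmt_AX : Prop :=
  ∀ {n : ℕ} {k : Type} [Field k] {T : TC k} {B : Type} [CommRing B] [Algebra k B] {E J : Type}
    [CommRing E] [Fintype J] {S : SqE B E J} (D : RData T S) (s : Fin n → Pt T B)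
    (γ : ∀ i, D.Sec (s i)), ∃ h δ, Nonempty (RKS D s γ h δ)

/-- AI: the value of a covector does not depend on the choices. -/
def Stmt_AI : Prop :=
  ∀ {n : ℕ} {k : Type} [Field k] {T : TC k} {B : Type} [CommRing B] [Algebra k B] {E J : Type}
    [CommRing E] [Fintype J] {S : SqE B E J} (D : RData T S) (s : Fin n → Pt T B)
    (γ : ∀ i, D.Sec (s i)) (C : CovData s) (h h' : J → B ⊗[k] T.R12) (δ δ' : J → Fin n → B),
    Nonempty (RKS D s γ h δ) → Nonempty (RKS D s γ h' δ') →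
    ∀ j, ext C.μ (h j) + ∑ i, C.ν i * δ j i = ext C.μ (h' j) + ∑ i, C.ν i * δ' j i

section

variable {n : ℕ} {k : Type} [Field k] {T : TC k} {B : Type} [CommRing B] [Algebra k B]
  {E J : Type} [CommRing E] [Fintype J] {S : SqE B E J}
  {B' : Type} [CommRing B'] [Algebra k B'] {E' J' : Type} [CommRing E'] [Fintype J']
  {S' : SqE B' E' J'} {φ : B →ₐ[k] B'} {m : J → J' → B'}

/-- A morphism of ring data. -/
structure RHom (Φ : SqHom S S' (φ : B →+* B') m) (D : RData T S) (D' : RData T S') where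
  /-- first chart -/
  u1 : D.G1 →+* D'.G1
  /-- second chart -/
  u2 : D.G2 →+* D'.G2
  /-- intersection -/
  u12 : D.G12 →+* D'.G12
  ua1 : ∀ z, u1 (D.a1 z) = D'.a1 (Φ.Φ z)
  ua2 : ∀ z, u2 (D.a2 z) = D'.a2 (Φ.Φ z)
  ua12 : ∀ z, u12 (D.a12 z) = D'.a12 (Φ.Φ z)
  uf1 : ∀ v, u12 (D.f1 v) = D'.f1 (u1 v)
  uf2 : ∀ v, u12 (D.f2 v) = D'.f2 (u2 v)
  uq1 : ∀ v, D'.q1 (u1 v) = Algebra.TensorProduct.map φ (AlgHom.id k T.R1) (D.q1 v)
  uq2 : ∀ v, D'.q2 (u2 v) = Algebra.TensorProduct.map φ (AlgHom.id k T.R2) (D.q2 v)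
  uq12 : ∀ v, D'.q12 (u12 v) = Algebra.TensorProduct.map φ (AlgHom.id k T.R12) (D.q12 v)

/-- A morphism of ring data respects sections. -/
def RHom.Sec {Φ : SqHom S S' (φ : B →+* B') m} {D : RData T S} {D' : RData T S'}
    (u : RHom Φ D D') : (s : Pt T B) → D.Sec s → D'.Sec (s.map φ) → Prop
  | .one _, γ, γ' => ∀ v, RData.Sec1.g γ' (u.u1 v) = Φ.Φ (RData.Sec1.g γ v)
  | .two _, γ, γ' => ∀ v, RData.Sec2.g γ' (u.u2 v) = Φ.Φ (RData.Sec2.g γ v)

/-- Push forward of classes. -/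
noncomputable def pushh (φ : B →ₐ[k] B') (m : J → J' → B') (h : J → B ⊗[k] T.R12) :
    J' → B' ⊗[k] T.R12 :=
  fun l => ∑ j, (m j l) • Algebra.TensorProduct.map φ (AlgHom.id k T.R12) (h j)

/-- Push forward of classes. -/
def pushd (φ : B →ₐ[k] B') (m : J → J' → B') (δ : J → Fin n → B) : J' → Fin n → B' :=
  fun l i => ∑ j, m j l * φ (δ j i)

/-- Base change of covector data. -/
structure CovData.Map (φ : B →ₐ[k] B') {s : Fin n → Pt T B} (C : CovData s)
    {s' : Fin n → Pt T B'} (C' : CovData s') : Prop where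
  hs : ∀ i, s' i = (s i).map φ
  hμ : ∀ r, C'.μ r = φ (C.μ r)
  hν : ∀ i, C'.ν i = φ (C.ν i)

end

/-- AN: classes and morphisms of ring data. -/
def Stmt_AN : Prop :=
  ∀ {n : ℕ} {k : Type} [Field k] {T : TC k} {B : Type} [CommRing B] [Algebra k B]
    {E J : Type} [CommRing E] [Fintype J] {S : SqE B E J}
    {B' : Type} [CommRing B'] [Algebra k B'] {E' J' : Type} [CommRing E'] [Fintype J']
    {S' : SqE B' E' J'} {φ : B →ₐ[k] B'} {m : J → J' → B'} {Φ : SqHom S S' (φ : B →+* B') m}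
    {D : RData T S} {D' : RData T S'} (u : RHom Φ D D') (s : Fin n → Pt T B)
    (γ : ∀ i, D.Sec (s i)) (γ' : ∀ i, D'.Sec ((s i).map φ))
    (_ : ∀ i, u.Sec (s i) (γ i) (γ' i)) (h : J → B ⊗[k] T.R12) (δ : J → Fin n → B),
    Nonempty (RKS D s γ h δ) → Nonempty (RKS D' (fun i => (s i).map φ) γ' (pushh φ m h)
      (pushd φ m δ))

/-- AC: change of the chart of the section `i₀`, given on the intersection by `χ`. -/
def Stmt_AC : Prop :=
  ∀ {n : ℕ} {k : Type} [Field k] {T : TC k} {B : Type} [CommRing B] [Algebra k B] {E J : Type}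
    [CommRing E] [Fintype J] {S : SqE B E J} (D : RData T S) (s s' : Fin n → Pt T B)
    (γ : ∀ i, D.Sec (s i)) (γ' : ∀ i, D.Sec (s' i)) (i₀ : Fin n) (χ : T.R12 →ₐ[k] B)
    (g12 : D.G12 →+* E) (_ : ∀ v, S.p (g12 v) = extA χ (D.q12 v))
    (hs : s i₀ = .one (χ.comp T.j1)) (hs' : s' i₀ = .two (χ.comp T.j2))
    (_ : ∀ v, RData.Sec1.g (hs ▸ γ i₀ : D.Sec (.one (χ.comp T.j1))) v = g12 (D.f1 v))
    (_ : ∀ v, RData.Sec2.g (hs' ▸ γ' i₀ : D.Sec (.two (χ.comp T.j2))) v = g12 (D.f2 v))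
    (_ : ∀ i, i ≠ i₀ → s i = s' i) (_ : ∀ i, i ≠ i₀ → HEq (γ i) (γ' i))
    (C : CovData s) (C' : CovData s')
    (_ : ∀ r, C'.μ r = C.μ r + C.ν i₀ * χ r) (_ : C'.ν i₀ = χ T.e * C.ν i₀)
    (_ : ∀ i, i ≠ i₀ → C'.ν i = C.ν i)
    (h : J → B ⊗[k] T.R12) (δ : J → Fin n → B), Nonempty (RKS D s γ h δ) →
    ∃ δ' : J → Fin n → B, Nonempty (RKS D s' γ' h δ') ∧
      ∀ j, ext C.μ (h j) + ∑ i, C.ν i * δ j i = ext C'.μ (h j) + ∑ i, C'.ν i * δ' j i

/-- KSN: Kodaira–Spencer classes and arrows. -/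
def Stmt_KSN : Prop :=
  ∀ {n : ℕ} {k : Type} [Field k] {T : TC k} {B : Type} [CommRing B] [Algebra k B]
    {E J : Type} [CommRing E] [Fintype J] {S : SqE B E J}
    {B' : Type} [CommRing B'] [Algebra k B'] {E' J' : Type} [CommRing E'] [Fintype J']
    {S' : SqE B' E' J'} {φ : B →ₐ[k] B'} {m : J → J' → B'} (Φ : SqHom S S' (φ : B →+* B') m)
    {x : Fam n B} {x' : Fam n B'} {ct : Charted T x} {ct' : Charted T x'}
    (a : Arrow (φ : B →+* B') x' x) (_ : ChArrow a ct' ct) (t : Thk S x) (t' : Thk S' x')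
    (f : Arrow Φ.Φ t'.y t.y) (_ : t'.r.f ≫ f.f = a.f ≫ t.r.f)
    (s : Fin n → Pt T B) (hs : ∀ i, ct.Is (x.σ i) (s i))
    (hs' : ∀ i, ct'.Is (x'.σ i) ((s i).map φ)) (h : J → B ⊗[k] T.R12) (δ : J → Fin n → B),
    KS ct t s hs h δ → KS ct' t' (fun i => (s i).map φ) hs' (pushh φ m h) (pushd φ m δ)

/-- COV: covector data give a covector. -/
def Stmt_COV : Prop :=
  ∀ {n : ℕ} {k : Type} [Field k] {T : TC k} {B : Type} [CommRing B] [Algebra k B]
    {x : Fam n B} (ct : Charted T x) (s : Fin n → Pt T B) (hs : ∀ i, ct.Is (x.σ i) (s i))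
    (C : CovData s) (g : ℕ), ∃ l : Cov g x, IsCov ct s hs C l

/-- COU: the covector is determined by the data (every deformation has a class). -/
def Stmt_COU : Prop :=
  ∀ {n : ℕ} {k : Type} [Field k] {T : TC k} {B : Type} [CommRing B] [Algebra k B]
    {x : Fam n B} (ct : Charted T x) (s : Fin n → Pt T B) (hs : ∀ i, ct.Is (x.σ i) (s i))
    (C : CovData s) (g : ℕ) (l l' : Cov g x), IsCov ct s hs C l → IsCov ct s hs C l' → l = l'

/-- NAT: base change of covectors. -/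
def Stmt_NAT : Prop :=
  ∀ {n : ℕ} {k : Type} [Field k] {T : TC k} {B : Type} [CommRing B] [Algebra k B]
    {B' : Type} [CommRing B'] [Algebra k B'] {φ : B →ₐ[k] B'}
    {x : Fam n B} {x' : Fam n B'} {ct : Charted T x} {ct' : Charted T x'}
    (a : Arrow (φ : B →+* B') x' x) (_ : ChArrow a ct' ct)
    (s : Fin n → Pt T B) (hs : ∀ i, ct.Is (x.σ i) (s i))
    (s' : Fin n → Pt T B') (hs' : ∀ i, ct'.Is (x'.σ i) (s' i))
    (C : CovData s) (C' : CovData s') (_ : C.Map φ C') (g : ℕ) (l : Cov g x) (l' : Cov g x'),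
    IsCov ct s hs C l → IsCov ct' s' hs' C' l' → Compat a l' l

/-- CHG: change of the chart of the section `i₀`. -/
def Stmt_CHG : Prop :=
  ∀ {n : ℕ} {k : Type} [Field k] {T : TC k} {B : Type} [CommRing B] [Algebra k B]
    {x : Fam n B} (ct : Charted T x) (s s' : Fin n → Pt T B)
    (hs : ∀ i, ct.Is (x.σ i) (s i)) (hs' : ∀ i, ct.Is (x.σ i) (s' i))
    (i₀ : Fin n) (χ : T.R12 →ₐ[k] B)
    (_ : s i₀ = .one (χ.comp T.j1)) (_ : s' i₀ = .two (χ.comp T.j2))
    (_ : ∃ h : ⊤ ≤ x.σ i₀ ⁻¹ᵁ (ct.U1 ⊓ ct.U2), ∀ a : T.R12,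
      ((x.σ i₀).appLE (ct.U1 ⊓ ct.U2) ⊤ h).hom (ct.t12 (1 ⊗ₜ a)) = gl B (χ a))
    (_ : ∀ i, i ≠ i₀ → s i = s' i) (C : CovData s) (C' : CovData s')
    (_ : ∀ r, C'.μ r = C.μ r + C.ν i₀ * χ r) (_ : C'.ν i₀ = χ T.e * C.ν i₀)
    (_ : ∀ i, i ≠ i₀ → C'.ν i = C.ν i) (g : ℕ) (l l' : Cov g x),
    IsCov ct s hs C l → IsCov ct s' hs' C' l' → l = l'

/-! ## Block CLS: all covectors over the field `k` -/

section

variable {n : ℕ} {k : Type} [Field k] {T : TC k} {C : Fam n k}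

/-- The charts are affine. -/
structure Charted.Aff (ct : Charted T C) : Prop where
  aff1 : IsAffineOpen ct.U1
  aff2 : IsAffineOpen ct.U2
  aff12 : IsAffineOpen (ct.U1 ⊓ ct.U2)

end

/-- GLU: over a field, every class is the class of a stable thickening. -/
def Stmt_GLU : Prop :=
  ∀ {n : ℕ} {k : Type} [Field k] {T : TC k} {C : Fam n k} (g : ℕ) (_ : IsStable g C)
    (ct : Charted T C) (_ : ct.Aff) (s : Fin n → Pt T k) (hs : ∀ i, ct.Is (C.σ i) (s i))
    {E J : Type} [CommRing E] [Fintype J] (S : SqE k E J) (h : J → k ⊗[k] T.R12)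
    (δ : J → Fin n → k), ∃ t : Thk S C, IsStable g t.y ∧ KS ct t s hs h δ

/-- KSU: over a field, thickenings with the same class are isomorphic. -/
def Stmt_KSU : Prop :=
  ∀ {n : ℕ} {k : Type} [Field k] {T : TC k} {C : Fam n k}
    (ct : Charted T C) (_ : ct.Aff) (s : Fin n → Pt T k) (hs : ∀ i, ct.Is (C.σ i) (s i))
    {E J : Type} [CommRing E] [Fintype J] (S : SqE k E J) (h : J → k ⊗[k] T.R12)
    (δ : J → Fin n → k) (t t' : Thk S C), KS ct t s hs h δ → KS ct t' s hs h δ →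
    ∃ f : Arrow (RingHom.id E) t.y t'.y, t.r.f ≫ f.f = t'.r.f

/-- PBS: stable families and their thickenings can be pulled back. -/
def Stmt_PBS : Prop :=
  ∀ {n : ℕ} {B E J E' J' : Type} [CommRing B] [CommRing E] [Fintype J] [CommRing E']
    [Fintype J'] {S : SqE B E J} {S' : SqE B E' J'} {m : J → J' → B}
    (Φ : SqHom S S' (RingHom.id B) m) {x : Fam n B} (t : Thk S x) (g : ℕ) (_ : IsStable g t.y),
    ∃ (t' : Thk S' x) (f : Arrow Φ.Φ t'.y t.y), IsStable g t'.y ∧ t'.r.f ≫ f.f = t.r.f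

/-- CLS: over a field, every covector is given by covector data. -/
def Stmt_CLS : Prop :=
  ∀ {n : ℕ} {k : Type} [Field k] {T : TC k} {C : Fam n k} (g : ℕ) (_ : IsStable g C)
    (ct : Charted T C) (_ : ct.Aff) (s : Fin n → Pt T k) (hs : ∀ i, ct.Is (C.σ i) (s i))
    (l : Cov g C), ∃ D : CovData s, IsCov ct s hs D l

/-! ## Block OBJ: constant families -/

section

variable {n : ℕ} {k : Type} [Field k] (C : Fam n k)

/-- The constant family with fibre `C` and arbitrary sections. -/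
noncomputable def constFam (B : Type) [CommRing B] [Algebra k B] (τ : Fin n → (Sp B ⟶ C.X))
    (hτ : ∀ i, τ i ≫ C.π = spMap (algebraMap k B)) : Fam n B where
  X := pullback C.π (spMap (algebraMap k B))
  π := pullback.snd _ _
  σ i := pullback.lift (τ i) (𝟙 _) (by rw [hτ, Category.id_comp])
  sec i := pullback.lift_snd _ _ _

/-- The `B`-valued point of `C` given by a point of one of the (affine) charts. -/
noncomputable def tau {C : Fam n k} {T : TC k} {ct : Charted T C} (ha : ct.Aff) {B : Type}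
    [CommRing B] [Algebra k B] : Pt T B → (Sp B ⟶ C.X)
  | .one φ => spMap ((φ : T.R1 →+* B).comp ((Algebra.TensorProduct.lid k T.R1 :
      k ⊗[k] T.R1 →+* T.R1).comp (ct.eq1.symm : Γ(C.X, ct.U1) →+* k ⊗[k] T.R1))) ≫ ha.aff1.fromSpec
  | .two ψ => spMap ((ψ : T.R2 →+* B).comp ((Algebra.TensorProduct.lid k T.R2 :
      k ⊗[k] T.R2 →+* T.R2).comp (ct.eq2.symm : Γ(C.X, ct.U2) →+* k ⊗[k] T.R2))) ≫ ha.aff2.fromSpec

end

section

variable {n : ℕ} {k : Type} [Field k] {T : TC k} {C : Fam n k}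

/-- The charts `c` of the constant family are the pull backs of the charts `ct` of `C`. -/
structure IsBC (ct : Charted T C) {B : Type} [CommRing B] [Algebra k B]
    {τ : Fin n → (Sp B ⟶ C.X)} {hτ : ∀ i, τ i ≫ C.π = spMap (algebraMap k B)}
    (c : Charted T (constFam C B τ hτ)) : Prop where
  h1 : (pullback.fst C.π (spMap (algebraMap k B))) ⁻¹ᵁ ct.U1 = c.U1
  h2 : (pullback.fst C.π (spMap (algebraMap k B))) ⁻¹ᵁ ct.U2 = c.U2
  f1 : ∀ r : T.R1, ((pullback.fst C.π (spMap (algebraMap k B))).appLE ct.U1 c.U1 h1.ge).hom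
    (ct.t1 (1 ⊗ₜ r)) = c.t1 (1 ⊗ₜ r)
  f2 : ∀ r : T.R2, ((pullback.fst C.π (spMap (algebraMap k B))).appLE ct.U2 c.U2 h2.ge).hom
    (ct.t2 (1 ⊗ₜ r)) = c.t2 (1 ⊗ₜ r)
  f12 : ∀ (h : c.U1 ⊓ c.U2 ≤ (pullback.fst C.π (spMap (algebraMap k B))) ⁻¹ᵁ (ct.U1 ⊓ ct.U2))
    (r : T.R12), ((pullback.fst C.π (spMap (algebraMap k B))).appLE (ct.U1 ⊓ ct.U2)
      (c.U1 ⊓ c.U2) h).hom (ct.t12 (1 ⊗ₜ r)) = c.t12 (1 ⊗ₜ r)

end

/-- CHB: the charts of a constant family. -/
def Stmt_CHB : Prop :=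
  ∀ {n : ℕ} {k : Type} [Field k] {T : TC k} {C : Fam n k} (ct : Charted T C) (_ : ct.Aff)
    (B : Type) [CommRing B] [Algebra k B] (τ : Fin n → (Sp B ⟶ C.X))
    (hτ : ∀ i, τ i ≫ C.π = spMap (algebraMap k B)),
    ∃ c : Charted T (constFam C B τ hτ), IsBC ct c

/-- CHA: arrows between constant families. -/
def Stmt_CHA : Prop :=
  ∀ {n : ℕ} {k : Type} [Field k] {T : TC k} {C : Fam n k} (ct : Charted T C) (_ : ct.Aff)
    (B : Type) [CommRing B] [Algebra k B] (B' : Type) [CommRing B'] [Algebra k B']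
    (ψ : B →ₐ[k] B') (τ : Fin n → (Sp B ⟶ C.X))
    (hτ : ∀ i, τ i ≫ C.π = spMap (algebraMap k B)) (τ' : Fin n → (Sp B' ⟶ C.X))
    (hτ' : ∀ i, τ' i ≫ C.π = spMap (algebraMap k B'))
    (c : Charted T (constFam C B τ hτ)) (c' : Charted T (constFam C B' τ' hτ')),
    IsBC ct c → IsBC ct c' → (∀ i, τ' i = spMap (ψ : B →+* B') ≫ τ i) →
    ∃ a : Arrow (ψ : B →+* B') (constFam C B' τ' hτ') (constFam C B τ hτ), ChArrow a c' c

/-- CHK: the curve itself as a member of a constant family. -/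
def Stmt_CHK : Prop :=
  ∀ {n : ℕ} {k : Type} [Field k] {T : TC k} {C : Fam n k} (ct : Charted T C) (_ : ct.Aff)
    (B : Type) [CommRing B] [Algebra k B] (ψ : B →ₐ[k] k) (τ : Fin n → (Sp B ⟶ C.X))
    (hτ : ∀ i, τ i ≫ C.π = spMap (algebraMap k B))
    (c : Charted T (constFam C B τ hτ)), IsBC ct c →
    (∀ i, C.σ i = spMap (ψ : B →+* k) ≫ τ i) →
    ∃ a : Arrow (ψ : B →+* k) C (constFam C B τ hτ), ChArrow a ct c

/-- CHI: the sections of a constant family. -/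
def Stmt_CHI : Prop :=
  ∀ {n : ℕ} {k : Type} [Field k] {T : TC k} {C : Fam n k} (ct : Charted T C) (ha : ct.Aff)
    (B : Type) [CommRing B] [Algebra k B] (τ : Fin n → (Sp B ⟶ C.X))
    (hτ : ∀ i, τ i ≫ C.π = spMap (algebraMap k B))
    (c : Charted T (constFam C B τ hτ)), IsBC ct c → ∀ (i : Fin n),
    (∀ s : Pt T B, τ i = tau ha s → c.Is ((constFam C B τ hτ).σ i) s) ∧
    (∀ χ : T.R12 →ₐ[k] B, τ i = tau ha (.one (χ.comp T.j1)) →
      ∃ h : ⊤ ≤ (constFam C B τ hτ).σ i ⁻¹ᵁ (c.U1 ⊓ c.U2), ∀ a : T.R12,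
        (((constFam C B τ hτ).σ i).appLE _ ⊤ h).hom (c.t12 (1 ⊗ₜ a)) = gl B (χ a))

/-- TAU: properties of `tau`. -/
def Stmt_TAU : Prop :=
  ∀ {n : ℕ} {k : Type} [Field k] {T : TC k} {C : Fam n k} (ct : Charted T C) (ha : ct.Aff),
    (∀ (B : Type) [CommRing B] [Algebra k B] (s : Pt T B),
      tau ha s ≫ C.π = spMap (algebraMap k B)) ∧
    (∀ (B : Type) [CommRing B] [Algebra k B] (B' : Type) [CommRing B'] [Algebra k B']
      (ψ : B →ₐ[k] B') (s : Pt T B), tau ha (s.map ψ) = spMap (ψ : B →+* B') ≫ tau ha s) ∧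
    (∀ (B : Type) [CommRing B] [Algebra k B] (χ : T.R12 →ₐ[k] B),
      tau ha (.one (χ.comp T.j1)) = tau ha (.two (χ.comp T.j2))) ∧
    (∀ (σ : Sp k ⟶ C.X) (s : Pt T k), σ ≫ C.π = 𝟙 _ → ct.Is σ s → σ = tau ha s)

/-! ## The two-chart structure of a smooth pointed curve -/

/-- The two-chart structure of a smooth pointed curve `C` over `k`: the marked points lie in `V₁`
and not in `V₂`, and `x - x(pᵢ)` generates the ideal of `pᵢ` in `R₁`. -/
structure Cht {n : ℕ} {k : Type} [Field k] (C : Fam n k) (T : TC k) where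
  /-- the charts -/
  ct : Charted T C
  aff : ct.Aff
  /-- the marked points -/
  pt : Fin n → (T.R1 →ₐ[k] k)
  is : ∀ i, ct.Is1 (C.σ i) (pt i)
  off : ∀ i (p : Sp k), C.σ i p ∉ ct.U2
  gen : ∀ i (a : T.R1), pt i a = 0 → ∃ b, a = (T.x - algebraMap k T.R1 (pt i T.x)) * b
  ne : ∀ i j, i ≠ j → pt i T.x ≠ pt j T.x
  dom : IsDomain T.R12
  inj1 : Function.Injective T.j1
  inj2 : Function.Injective T.j2
  h0 : ∀ a b, T.j1 a = T.j2 b → ∃ c : k, a = algebraMap k T.R1 c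
  unit : ∀ i, IsUnit (T.j1 (T.x - algebraMap k T.R1 (pt i T.x)))

/-- TWO: existence of the two-chart structure. -/
def Stmt_TWO : Prop :=
  ∀ {n : ℕ} {k : Type} [Field k] [IsAlgClosed k] (g : ℕ) (C : Fam n k), IsStable g C →
    SmoothOfRelativeDimension 1 C.π → 1 ≤ n → ∃ T : TC k, Nonempty (Cht C T)

/-- NOT: no vector fields and no symmetric tensors in genus at least two. -/
def Stmt_NOT : Prop :=
  ∀ {n : ℕ} {k : Type} [Field k] [IsAlgClosed k] [CharZero k] (g : ℕ) (C : Fam n k),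
    IsStable g C → SmoothOfRelativeDimension 1 C.π → 2 ≤ g → ∀ (T : TC k) (_ : Cht C T) (j : ℕ), 1 ≤ j →
    ∀ (a : T.R1) (b : T.R2), T.j1 a = T.e ^ j * T.j2 b → a = 0

/-- FIS: the fibres of a constant family; stability is invariant under isomorphism. -/
def Stmt_FIS : Prop :=
  (∀ {n : ℕ} {k : Type} [Field k] (C : Fam n k) (B : Type) [CommRing B] [Algebra k B]
    (K : Type) [Field K] [Algebra k K] (ψ : B →ₐ[k] K) (τ : Fin n → (Sp B ⟶ C.X))
    (hτ : ∀ i, τ i ≫ C.π = spMap (algebraMap k B)) (τ' : Fin n → (Sp K ⟶ C.X))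
    (hτ' : ∀ i, τ' i ≫ C.π = spMap (algebraMap k K)) (_ : ∀ i, τ' i = spMap (ψ : B →+* K) ≫ τ i)
    (z : Fam n K), Nonempty (Arrow (ψ : B →+* K) z (constFam C B τ hτ)) →
      ∃ (f : Arrow (RingHom.id K) z (constFam C K τ' hτ')), IsIso f.f) ∧
  (∀ {n : ℕ} {K : Type} [Field K] (g : ℕ) (z z' : Fam n K) (f : Arrow (RingHom.id K) z z'),
    IsIso f.f → StableCurve g z' → StableCurve g z)

/-- CON: constant families over fields are connected. -/
def Stmt_CON : Prop :=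
  ∀ {n : ℕ} {k : Type} [Field k] (C : Fam n k) (T : TC k) (_ : Cht C T) (_ : Nonempty C.X)
    (K : Type) [Field K] [Algebra k K] (τ : Fin n → (Sp K ⟶ C.X))
    (hτ : ∀ i, τ i ≫ C.π = spMap (algebraMap k K)), ConnectedSpace (constFam C K τ hτ).X

/-- NOD: constant families over algebraically closed fields are nodal. -/
def Stmt_NOD : Prop :=
  ∀ {n : ℕ} {k : Type} [Field k] (C : Fam n k) (T : TC k) (_ : Cht C T)
    (K : Type) [Field K] [IsAlgClosed K] [Algebra k K] (τ : Fin n → (Sp K ⟶ C.X))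
    (hτ : ∀ i, τ i ≫ C.π = spMap (algebraMap k K)), Nodal (constFam C K τ hτ).π

/-- GEN: the genus does not change under extension of the field. -/
def Stmt_GEN : Prop :=
  ∀ {n : ℕ} {k : Type} [Field k] (C : Fam n k) (g : ℕ) (_ : IsProper C.π) (_ : HasGenus C.π g)
    (K : Type) [Field K] [Algebra k K] (τ : Fin n → (Sp K ⟶ C.X))
    (hτ : ∀ i, τ i ≫ C.π = spMap (algebraMap k K)), HasGenus (constFam C K τ hτ).π g

/-- RIG: no vector fields. -/
def Stmt_RIG : Prop :=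
  ∀ {n : ℕ} {k : Type} [Field k] (C : Fam n k) (T : TC k) (_ : Cht C T),
    (∀ (a : T.R1) (b : T.R2), T.j1 a = T.e * T.j2 b → a = 0) →
    ∀ (K : Type) [Field K] [Algebra k K] (τ : Fin n → (Sp K ⟶ C.X))
      (hτ : ∀ i, τ i ≫ C.π = spMap (algebraMap k K)) (v : VField (constFam C K τ hτ)) (U),
      v.D U = 0

/-- CST: constant families with disjoint sections are stable. -/
def Stmt_CST : Prop :=
  ∀ {n : ℕ} {k : Type} [Field k] [IsAlgClosed k] (g : ℕ) (C : Fam n k), IsStable g C →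
    SmoothOfRelativeDimension 1 C.π → ∀ (T : TC k) (_ : Cht C T),
    (∀ (a : T.R1) (b : T.R2), T.j1 a = T.e * T.j2 b → a = 0) →
    ∀ (B : Type) [CommRing B] [Algebra k B] (τ : Fin n → (Sp B ⟶ C.X))
      (hτ : ∀ i, τ i ≫ C.π = spMap (algebraMap k B)),
      (∀ (K : Type) [Field K] [IsAlgClosed K] (s : B →+* K) (i j : Fin n), i ≠ j →
        spMap s ≫ τ i ≠ spMap s ≫ τ j) → IsStable g (constFam C B τ hτ)

/-- DIS: disjoint points of the charts. -/
def Stmt_DIS : Prop :=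
  ∀ {n : ℕ} {k : Type} [Field k] {C : Fam n k} {T : TC k} (ch : Cht C T)
    (B : Type) [CommRing B] [Algebra k B] (i : Fin n),
    (∀ φ : T.R1 →ₐ[k] B, IsUnit (φ (T.x - algebraMap k T.R1 (ch.pt i T.x))) →
      ∀ (K : Type) [Field K] [IsAlgClosed K] (s : B →+* K),
        spMap s ≫ tau ch.aff (.one φ) ≠
          spMap s ≫ tau ch.aff (.one ((Algebra.ofId k B).comp (ch.pt i)))) ∧
    (∀ ψ : T.R2 →ₐ[k] B, ∀ (K : Type) [Field K] [IsAlgClosed K] (s : B →+* K),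
        spMap s ≫ tau ch.aff (.two ψ) ≠
          spMap s ≫ tau ch.aff (.one ((Algebra.ofId k B).comp (ch.pt i))))

/-! ## Block BUB: the bubble -/

/-- The points of the family with moving section `i₀` given by `φ`. -/
def mv {n : ℕ} {k : Type} [Field k] {C : Fam n k} {T : TC k} (ch : Cht C T) {B : Type}
    [CommRing B] [Algebra k B] (i₀ : Fin n) (s : Pt T B) : Fin n → Pt T B :=
  fun i => if i = i₀ then s else .one ((Algebra.ofId k B).comp (ch.pt i))

/-- BUB: the family over `B` in which the moving section meets `p_j`. -/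
def Stmt_BUB : Prop :=
  ∀ {n : ℕ} {k : Type} [Field k] [IsAlgClosed k] (g : ℕ) (C : Fam n k), IsStable g C →
    SmoothOfRelativeDimension 1 C.π → ∀ (T : TC k) (ch : Cht C T),
    (∀ (a : T.R1) (b : T.R2), T.j1 a = T.e * T.j2 b → a = 0) →
    ∀ (i₀ j : Fin n), j ≠ i₀ → ∀ (B : Type) [CommRing B] [Algebra k B] (φ : T.R1 →ₐ[k] B),
    (∀ i, i ≠ i₀ → i ≠ j → IsUnit (φ (T.x - algebraMap k T.R1 (ch.pt i T.x)))) →
    ∃ (x : Fam n B) (ct : Charted T x), IsStable g x ∧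
      (∀ i, ct.Is (x.σ i) (mv ch i₀ (.one φ) i)) ∧
      ∀ (B' : Type) [CommRing B'] [Algebra k B'] (ψ : B →ₐ[k] B'),
        IsUnit (ψ (φ (T.x - algebraMap k T.R1 (ch.pt j T.x)))) →
        ∀ (hτ : ∀ i, tau ch.aff ((mv ch i₀ (.one φ) i).map ψ) ≫ C.π =
          spMap (algebraMap k B')) (c : Charted T (constFam C B' _ hτ)), IsBC ch.ct c →
        ∃ a : Arrow (ψ : B →+* B') (constFam C B' _ hτ) x, ChArrow a c ct

end Pool.Agent.MG
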