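import Pool.Agent.MG.TwoPts

open AlgebraicGeometry CategoryTheory TopologicalSpace Opposite IsLocalRing

universe u

namespace Pool.Agent.MG.Two

open Polynomial

variable {X : Scheme.{u}} {k : Type u} [Field k] (π : X ⟶ Spec (.of k))

lemma kmap_finiteType [LocallyOfFiniteType π] {V : X.Opens} (hV : IsAffineOpen V) :
    (kmap π V).FiniteType := by
  have hft := π.finiteType_appLE (isAffineOpen_top _) hV (le_pre_top π V)
  exact hft.comp (RingHom.FiniteType.of_surjective _
    (ConcreteCategory.bijective_of_isIso (Scheme.ΓSpecIso (.of k)).inv).2)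

lemma etale_transfer {k A L : Type u} [Field k] [CommRing A] [Algebra k A] [CommRing L]
    [Algebra A L] (b : A) [IsLocalization.Away b L] (x : A)
    (h : ((algebraMap A L).comp (aeval x : k[X] →ₐ[k] A).toRingHom).Etale)
    (B : Type u) [CommRing B] [Algebra A B] [IsLocalization.Away b B] :
    ((algebraMap A B).comp (aeval x : k[X] →ₐ[k] A).toRingHom).Etale := by
  let e : L ≃ₐ[A] B := IsLocalization.algEquiv (Submonoid.powers b) _ _
  have h1 := RingHom.Etale.respectsIso.1 _ e.toRingEquiv h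
  have h2 : e.toRingEquiv.toRingHom.comp ((algebraMap A L).comp
      (aeval x : k[X] →ₐ[k] A).toRingHom) =
      (algebraMap A B).comp (aeval x : k[X] →ₐ[k] A).toRingHom := by
    ext a
    · exact e.commutes _
    · exact e.commutes _
  rw [← h2]
  exact h1

/-- The affine chart with an étale coordinate inside an affine open set. -/
theorem exists_chart_aux [IsAlgClosed k] [IsIntegral X] [LocallyOfFiniteType π]
    (hpir : ∀ x : X, IsPrincipalIdealRing (X.presheaf.stalk x)) {W : X.Opens}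
    (hW : IsAffineOpen W) {ι : Type*} [Finite ι] [Nonempty ι] (p : ι → X)
    (hp : Function.Injective p) (hgen : ∀ i, p i ≠ genericPoint X) (hpW : ∀ i, p i ∈ W)
    (Z : Set X) (hZ : Z.Finite) (hpZ : ∀ i, p i ∉ Z) (hZgen : genericPoint X ∉ Z) :
    ∃ (V : X.Opens) (x : Γ(X, V)) (c : ι → k), IsAffineOpen V ∧ V ≤ W ∧ (∀ i, p i ∈ V) ∧
      (∀ z ∈ Z, z ∉ V) ∧ Function.Injective c ∧
      (Polynomial.eval₂RingHom (kmap π V) x).Etale ∧
      ∀ i, ∀ r : Γ(X, V), p i ∉ X.basicOpen r ↔ ∃ s, r = (x - kmap π V (c i)) * s := by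
  classical
  have hne : Nonempty W := ⟨⟨p (Classical.arbitrary ι), hpW _⟩⟩
  let _ : Algebra k Γ(X, W) := (kmap π W).toAlgebra
  have hft : Algebra.FiniteType k Γ(X, W) := kmap_finiteType π hW
  have hdd := isDedekindDomain_sections π hpir hW
  let M : ι → Ideal Γ(X, W) := fun i => (hW.primeIdealOf ⟨p i, hpW i⟩).asIdeal
  have hM : ∀ i, (M i).IsMaximal := fun i => isMaximal_primeIdealOf hpir hW _ _ (hgen i)
  have hMinj : Function.Injective M := by
    intro i j hij
    have h1 := primeIdealOf_injective hW (PrimeSpectrum.ext hij)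
    exact hp (congrArg Subtype.val h1)
  have hbot : ∀ i, M i ≠ ⊥ := fun i => primeIdealOf_ne_bot hW _ _ (hgen i)
  have hκ : Finite {z : X // z ∈ Z ∧ z ∈ W} :=
    (hZ.subset (fun z (hz : z ∈ Z ∧ z ∈ W) => hz.1)).to_subtype
  let _ := Fintype.ofFinite {z : X // z ∈ Z ∧ z ∈ W}
  let I : Ideal Γ(X, W) := ∏ z : {z : X // z ∈ Z ∧ z ∈ W},
    (hW.primeIdealOf ⟨z.1, z.2.2⟩).asIdeal
  have hI : ∀ i, ¬ I ≤ M i := by
    intro i hle
    obtain ⟨z, -, hz⟩ := (hM i).isPrime.prod_le.mp hle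
    have hzm : (hW.primeIdealOf ⟨z.1, z.2.2⟩).asIdeal.IsMaximal :=
      isMaximal_primeIdealOf hpir hW _ _ (fun h => hZgen (h ▸ z.2.1))
    have h1 := hzm.eq_of_le (hM i).ne_top hz
    have h2 := primeIdealOf_injective hW (PrimeSpectrum.ext h1)
    have h3 : z.1 = p i := congrArg Subtype.val h2
    exact hpZ i (h3 ▸ z.2.1)
  obtain ⟨x, b, c, hbI, hbM, hc, hxM, hdiv, het⟩ := exists_etale_coord (k := k) M hM hMinj hbot I hI
  have hloc : IsLocalization.Away b Γ(X, X.basicOpen b) := hW.isLocalization_basicOpen b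
  obtain ⟨ρ, hρ⟩ : ∃ ρ : Γ(X, W) →+* Γ(X, X.basicOpen b), ρ = algebraMap _ _ := ⟨_, rfl⟩
  have hρk : ∀ a, ρ (kmap π W a) = kmap π (X.basicOpen b) a := fun a => by
    rw [hρ]; exact kmap_res π (X.basicOpen_le b) a
  refine ⟨X.basicOpen b, ρ x, c, hW.basicOpen b, X.basicOpen_le b, ?_, ?_, hc, ?_, ?_⟩
  · intro i
    by_contra h
    exact hbM i ((mem_primeIdealOf_iff hW (p i) (hpW i) b).mpr h)
  · intro z hz hzb
    have hzW : z ∈ W := X.basicOpen_le b hzb
    have h0 := Finset.inf_le (f := fun z : {z : X // z ∈ Z ∧ z ∈ W} =>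
      (hW.primeIdealOf ⟨z.1, z.2.2⟩).asIdeal) (Finset.mem_univ (⟨z, hz, hzW⟩ :
        {z : X // z ∈ Z ∧ z ∈ W}))
    have h1 : I ≤ (hW.primeIdealOf ⟨z, hzW⟩).asIdeal := Ideal.prod_le_inf.trans h0
    exact (mem_primeIdealOf_iff hW z hzW b).mp (h1 hbI) hzb
  · have h1 := etale_transfer (k := k) b x het Γ(X, X.basicOpen b)
    have h2 : Polynomial.eval₂RingHom (kmap π (X.basicOpen b)) (ρ x) =
        ρ.comp (aeval x : k[X] →ₐ[k] Γ(X, W)).toRingHom := by
      apply Polynomial.ringHom_ext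
      · intro a
        rw [Polynomial.coe_eval₂RingHom, Polynomial.eval₂_C, ← hρk a]
        exact (congrArg ρ (Polynomial.aeval_C x a)).symm
      · rw [Polynomial.coe_eval₂RingHom, Polynomial.eval₂_X]
        exact (congrArg ρ (Polynomial.aeval_X x)).symm
    rw [h2, hρ]
    exact h1
  · intro i r
    have hpb : p i ∈ X.basicOpen b := by
      by_contra h
      exact hbM i ((mem_primeIdealOf_iff hW (p i) (hpW i) b).mpr h)
    have hres : ∀ a : Γ(X, W), X.basicOpen (ρ a) = X.basicOpen b ⊓ X.basicOpen a := fun a => by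
      rw [hρ]; exact X.basicOpen_res a (homOfLE (X.basicOpen_le b)).op
    constructor
    · intro hr
      obtain ⟨⟨a, ⟨_, n, rfl⟩⟩, ha⟩ := IsLocalization.surj (Submonoid.powers b) r
      have ha' : r * ρ (b ^ n) = ρ a := by rw [hρ]; exact ha
      have haM : a ∈ M i := by
        rw [mem_primeIdealOf_iff hW (p i) (hpW i) a]
        intro h
        apply hr
        have h1 : p i ∈ X.basicOpen (ρ a) := by rw [hres]; exact ⟨hpb, h⟩
        rw [← ha', X.basicOpen_mul] at h1
        exact h1.1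
      obtain ⟨s, hs⟩ := hdiv i a haM
      have hbu : IsUnit (ρ b) := by rw [hρ]; exact IsLocalization.Away.algebraMap_isUnit b
      obtain ⟨v, hv⟩ := hbu
      have h2 : ρ b * ρ a = (ρ x - kmap π (X.basicOpen b) (c i)) * ρ s := by
        rw [← map_mul, hs, map_mul, map_sub]
        congr 2
        exact hρk (c i)
      have h3 : r * (ρ b) ^ (n + 1) = (ρ x - kmap π (X.basicOpen b) (c i)) * ρ s := by
        rw [← h2, ← ha', map_pow]; ring
      refine ⟨ρ s * (↑(v⁻¹) : Γ(X, X.basicOpen b)) ^ (n + 1), ?_⟩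
      rw [← mul_assoc, ← h3, ← hv, mul_assoc, ← mul_pow, Units.mul_inv, one_pow, mul_one]
    · rintro ⟨s, rfl⟩ h
      rw [X.basicOpen_mul] at h
      have h1 : p i ∈ X.basicOpen (ρ (x - kmap π W (c i))) := by
        rw [map_sub, hρk]
        exact h.1
      rw [hres] at h1
      exact (mem_primeIdealOf_iff hW (p i) (hpW i) _).mp (hxM i) h1.2

end Pool.Agent.MG.Two
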