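import Pool.Agent.MG.NOT
import Pool.Agent.MG.SEP
import Pool.Agent.MG.DER
import Pool.Agent.MG.TwoChart
import Pool.Agent.MG.StmtsA

/-!
# Charts of a curve as subalgebras of the function field
-/

open CategoryTheory CategoryTheory.Limits AlgebraicGeometry TensorProduct

namespace Pool.Agent.MG

open Two

section

variable {X : Scheme.{0}} [IsIntegral X] {k : Type} [Field k] (π : X ⟶ Sp k)
  [Algebra k X.functionField] (hk : ∀ c, algebraMap k X.functionField c = kfun π c)

omit [Algebra k X.functionField] [IsIntegral X] in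
theorem coef_eq_kmap (U : X.Opens) (c : k) : coef π U c = kmap π U c := by
  rw [coef_eq]
  rfl

/-- The functions on `W` as a subalgebra of the function field. -/
noncomputable def RW (W : X.Opens) [Nonempty W] : Subalgebra k X.functionField :=
  { (X.germToFunctionField W).hom.range with
    algebraMap_mem' := fun c => ⟨kmap π W c, by rw [hk]; exact germ_kmap π W c⟩ }

theorem mem_RW {W : X.Opens} [Nonempty W] {a : X.functionField} :
    a ∈ RW π hk W ↔ ∃ s : Γ(X, W), (X.germToFunctionField W).hom s = a := Iff.rfl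

theorem germ_mem_RW {W : X.Opens} [Nonempty W] (s : Γ(X, W)) :
    (X.germToFunctionField W).hom s ∈ RW π hk W := ⟨s, rfl⟩

theorem chart_RW [LocallyOfFiniteType π]
    (hpir : ∀ x : X, IsPrincipalIdealRing (X.presheaf.stalk x)) {W : X.Opens} [Nonempty W]
    (hW : IsAffineOpen W) : _root_.MG.Chart (RW π hk W) := by
  have hded : IsDedekindDomain Γ(X, W) := isDedekindDomain_sections π hpir hW
  have hfrac : IsFractionRing Γ(X, W) X.functionField :=
    functionField_isFractionRing_of_isAffineOpen X W hW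
  have hic : IsIntegrallyClosed Γ(X, W) := inferInstance
  refine ⟨?_, ?_, ?_⟩
  · let _ : Algebra k Γ(X, W) := (kmap π W).toAlgebra
    have h1 : Algebra.FiniteType k Γ(X, W) := kmap_finiteType π hW
    let φ : Γ(X, W) →ₐ[k] X.functionField :=
      { (X.germToFunctionField W).hom with
        commutes' := fun c => by
          rw [hk]
          exact germ_kmap π W c }
    have h2 : RW π hk W = (⊤ : Subalgebra k Γ(X, W)).map φ := by
      ext a
      rw [mem_RW, Subalgebra.mem_map]
      constructor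
      · rintro ⟨s, hs⟩
        exact ⟨s, Algebra.mem_top, hs⟩
      · rintro ⟨s, _, hs⟩
        exact ⟨s, hs⟩
    rw [h2]
    exact Subalgebra.FG.map _ h1.out
  · intro a ha
    let ψ : Γ(X, W) →+* RW π hk W :=
      (X.germToFunctionField W).hom.codRestrict (RW π hk W) (fun s => germ_mem_RW π hk s)
    have hψ : Function.Surjective ψ := by
      rintro ⟨b, s, hs⟩
      exact ⟨s, Subtype.ext hs⟩
    let _ : Algebra Γ(X, W) (RW π hk W) := ψ.toAlgebra
    have _ : IsScalarTower Γ(X, W) (RW π hk W) X.functionField :=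
      IsScalarTower.of_algebraMap_eq' rfl
    have _ : Algebra.IsIntegral Γ(X, W) (RW π hk W) :=
      ⟨RingHom.isIntegral_of_surjective ψ hψ⟩
    have h1 : IsIntegral Γ(X, W) a := isIntegral_trans a ha
    obtain ⟨b, hb⟩ := IsIntegrallyClosed.isIntegral_iff.mp h1
    exact ⟨b, hb⟩
  · intro a
    obtain ⟨⟨b, s⟩, hb⟩ := IsLocalization.surj (nonZeroDivisors Γ(X, W)) a
    refine ⟨(X.germToFunctionField W).hom s.1, germ_mem_RW π hk _, ?_, ?_⟩
    · intro h
      exact nonZeroDivisors.coe_ne_zero s (X.germToFunctionField_injective W (by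
        rw [map_zero]; exact h))
    · rw [mul_comm]
      exact ⟨b, hb.symm⟩

/-- Functions on the intersection are generated by functions on the charts. -/
theorem inter_mem_sup [IsSeparated π] {U V : X.Opens} [Nonempty U] [Nonempty V]
    [Nonempty (U ⊓ V : X.Opens)] (hU : IsAffineOpen U) (hV : IsAffineOpen V) (s : Γ(X, U ⊓ V)) :
    (X.germToFunctionField (U ⊓ V)).hom s ∈ RW π hk U ⊔ RW π hk V := by
  have h1 := sep_gen π hU hV s
  have h2 : Subring.closure (Set.range (rs X (inf_le_left : U ⊓ V ≤ U)) ∪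
      Set.range (rs X (inf_le_right : U ⊓ V ≤ V))) ≤
      (RW π hk U ⊔ RW π hk V).toSubring.comap (X.germToFunctionField (U ⊓ V)).hom := by
    rw [Subring.closure_le]
    rintro _ (⟨b, rfl⟩ | ⟨b, rfl⟩)
    · have h3 : (X.germToFunctionField (U ⊓ V)).hom (rs X (inf_le_left : U ⊓ V ≤ U) b) =
          (X.germToFunctionField U).hom b := germToFunctionField_res _ b
      change (X.germToFunctionField (U ⊓ V)).hom (rs X (inf_le_left : U ⊓ V ≤ U) b) ∈
        RW π hk U ⊔ RW π hk V
      rw [h3]
      exact (le_sup_left : RW π hk U ≤ RW π hk U ⊔ RW π hk V) (germ_mem_RW π hk b)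
    · have h3 : (X.germToFunctionField (U ⊓ V)).hom (rs X (inf_le_right : U ⊓ V ≤ V) b) =
          (X.germToFunctionField V).hom b := germToFunctionField_res _ b
      change (X.germToFunctionField (U ⊓ V)).hom (rs X (inf_le_right : U ⊓ V ≤ V) b) ∈
        RW π hk U ⊔ RW π hk V
      rw [h3]
      exact (le_sup_right : RW π hk V ≤ RW π hk U ⊔ RW π hk V) (germ_mem_RW π hk b)
  exact h2 h1

/-- Two independent classes. -/
theorem exists_classes [IsSeparated π] {g : ℕ} (hg : 2 ≤ g) (h : HasGenus π g) :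
    ∃ (U V : X.Opens) (_ : Nonempty U) (_ : Nonempty V) (_ : IsAffineOpen U) (_ : IsAffineOpen V)
      (x y : X.functionField), x ∈ RW π hk U ⊔ RW π hk V ∧ y ∈ RW π hk U ⊔ RW π hk V ∧
      ∀ α β : k, α • x + β • y ∈ Subalgebra.toSubmodule (RW π hk U) ⊔
        Subalgebra.toSubmodule (RW π hk V) → α = 0 ∧ β = 0 := by
  obtain ⟨U, V, hU, hV, hUV, L, hL, hLm, hL0⟩ := h
  let i0 : Fin g := ⟨0, by omega⟩
  let i1 : Fin g := ⟨1, by omega⟩
  have hi01 : i0 ≠ i1 := by simp [i0, i1]
  have hne : Nonempty (U ⊓ V : X.Opens) := by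
    by_contra hne
    have hsub : Subsingleton Γ(X, U ⊓ V) := by
      have h1 : U ⊓ V = ⊥ := by
        rw [← le_bot_iff]
        intro z hz
        exact (hne ⟨⟨z, hz⟩⟩).elim
      rw [h1]
      infer_instance
    obtain ⟨s, hs⟩ := hL (Pi.single i0 1)
    have h2 : s = 0 := Subsingleton.elim _ _
    rw [h2, map_zero] at hs
    have h3 := congrFun hs i0
    simp at h3
  have hneU : Nonempty U := by
    obtain ⟨⟨z, hz⟩⟩ := hne
    exact ⟨⟨z, hz.1⟩⟩
  have hneV : Nonempty V := by
    obtain ⟨⟨z, hz⟩⟩ := hne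
    exact ⟨⟨z, hz.2⟩⟩
  obtain ⟨sx, hsx⟩ := hL (Pi.single i0 1)
  obtain ⟨sy, hsy⟩ := hL (Pi.single i1 1)
  refine ⟨U, V, hneU, hneV, hU, hV, (X.germToFunctionField (U ⊓ V)).hom sx,
    (X.germToFunctionField (U ⊓ V)).hom sy, inter_mem_sup π hk hU hV sx,
    inter_mem_sup π hk hU hV sy, ?_⟩
  intro α β hαβ
  obtain ⟨p, ⟨a, ha⟩, q, ⟨b, hb⟩, e⟩ := Submodule.mem_sup.mp hαβ
  have hres1 : (X.germToFunctionField (U ⊓ V)).hom (rs X (inf_le_left : U ⊓ V ≤ U) a) =
      (X.germToFunctionField U).hom a := germToFunctionField_res _ a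
  have hres2 : (X.germToFunctionField (U ⊓ V)).hom (rs X (inf_le_right : U ⊓ V ≤ V) b) =
      (X.germToFunctionField V).hom b := germToFunctionField_res _ b
  have hc : ∀ c : k, (X.germToFunctionField (U ⊓ V)).hom (coef π (U ⊓ V) c) =
      algebraMap k X.functionField c := fun c => by
    rw [coef_eq_kmap, hk]
    exact germ_kmap π (U ⊓ V) c
  have key : coef π (U ⊓ V) α * sx + coef π (U ⊓ V) β * sy =
      rs X inf_le_left a + rs X inf_le_right b := by
    apply X.germToFunctionField_injective (U ⊓ V)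
    change (X.germToFunctionField (U ⊓ V)).hom _ = (X.germToFunctionField (U ⊓ V)).hom _
    rw [map_add, map_add, map_mul, map_mul, hc, hc, hres1, hres2, ← Algebra.smul_def,
      ← Algebra.smul_def, ← e]
    have ha' : (X.germToFunctionField U).hom a = p := ha
    have hb' : (X.germToFunctionField V).hom b = q := hb
    rw [ha', hb']
  have h4 := (hL0 (coef π (U ⊓ V) α * sx + coef π (U ⊓ V) β * sy)).mpr ⟨a, b, key⟩
  rw [map_add, hLm, hLm, hsx, hsy] at h4
  have h5 := congrFun h4 i0
  have h6 := congrFun h4 i1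
  simp [hi01, hi01.symm] at h5 h6
  exact ⟨h5, h6⟩

end

end Pool.Agent.MG
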