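import Pool.Agent.MG.GLUT

/-!
# GLU, the glued thickening
-/

open CategoryTheory CategoryTheory.Limits AlgebraicGeometry TensorProduct

namespace Pool.Agent.MG.GLU

/-! ## Stability of thickenings -/

section Stab

variable {n : ℕ} {B E J : Type} [CommRing B] [CommRing E] [Fintype J] {S : SqE B E J}
  {x : Fam n B} (t : Thk S x)

theorem fib_thk {K : Type} [Field K] (s : E →+* K) (z : Fam n K) (a : Arrow s z t.y) :
    Nonempty (Arrow (s.comp S.i) z x) := by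
  have hs : spMap s = spMap (s.comp S.i) ≫ spMap S.p := by
    rw [← Spec.map_comp, ← CommRingCat.ofHom_comp]
    congr 2
    ext e
    change s e = s (S.i (S.p e))
    obtain ⟨b, hb⟩ := S.ex (e - S.i (S.p e)) (by rw [map_sub, S.pi, sub_self])
    have h0 : ∀ j, s (S.ε j) = 0 := fun j => by
      have := congrArg s (S.mul j j)
      rw [map_mul, map_zero] at this
      exact mul_self_eq_zero.1 this
    have h1 := congrArg s hb
    rw [map_sub, map_sum] at h1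
    have h2 : ∑ j, s (S.ε j * S.i (b j)) = 0 :=
      Finset.sum_eq_zero fun j _ => by rw [map_mul, h0, zero_mul]
    rw [h2] at h1
    exact sub_eq_zero.1 h1
  have hw : a.f ≫ t.y.π = (z.π ≫ spMap (s.comp S.i)) ≫ spMap S.p := by
    rw [a.cart.w, hs, Category.assoc]
  let l := t.r.cart.lift a.f (z.π ≫ spMap (s.comp S.i)) hw
  have hl1 : l ≫ t.r.f = a.f := t.r.cart.lift_fst _ _ _
  have hl2 : l ≫ x.π = z.π ≫ spMap (s.comp S.i) := t.r.cart.lift_snd _ _ _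
  refine ⟨⟨l, ?_, ?_⟩⟩
  · refine IsPullback.of_right (h₁₂ := t.r.f) (v₁₃ := t.y.π) (h₂₂ := spMap S.p) ?_ hl2 t.r.cart
    rw [hl1, ← hs]
    exact a.cart
  · intro i
    apply t.r.cart.hom_ext
    · rw [Category.assoc, hl1, a.sec, hs, Category.assoc, Category.assoc, t.r.sec]
    · rw [Category.assoc, hl2, ← Category.assoc, z.sec, Category.id_comp, Category.assoc, x.sec,
        Category.comp_id]

theorem stable_thk {g : ℕ} (hx : IsStable g x) (fp : LocallyOfFinitePresentation t.y.π) :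
    IsStable g t.y where
  proper := by
    have hc : t.r.f ≫ t.y.π = x.π ≫ spMap S.p := t.r.cart.w
    haveI := hx.proper
    haveI : IsProper (t.r.f ≫ t.y.π) := by
      rw [hc]
      infer_instance
    haveI : IsSeparated (t.r.f ≫ t.y.π) := inferInstance
    haveI : UniversallyClosed (t.r.f ≫ t.y.π) := inferInstance
    haveI h1 := sep_of_surj t.r.f t.y.π
    haveI h2 := UniversallyClosed.of_comp_surjective t.r.f t.y.π
    exact { }
  flat := t.flat
  fp := fp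
  fib K _ _ s z := by
    rintro ⟨a⟩
    exact hx.fib K (s.comp S.i) z (fib_thk t s z a)

end Stab

/-! ## Affine pieces -/

theorem spMap_id_comp {R : Type} [CommRing R] {X : Scheme.{0}} (f : Sp R ⟶ X) :
    spMap (RingHom.id R) ≫ f = f := by
  have : spMap (RingHom.id R) = 𝟙 _ := Spec.map_id _
  rw [this, Category.id_comp]

section W

variable {X : Scheme.{0}} {U : X.Opens} (hU : IsAffineOpen U) {R : Type} [CommRing R]
  (e : Γ(X, U) ≃+* R)

/-- The inclusion of an affine piece with given ring of functions. -/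
noncomputable def ww : Sp R ⟶ X := spMap (e : Γ(X, U) →+* R) ≫ hU.fromSpec

instance ww_iso : IsIso (spMap (e : Γ(X, U) →+* R)) := by
  have : IsIso (CommRingCat.ofHom (e : Γ(X, U) →+* R)) :=
    inferInstanceAs (IsIso e.toCommRingCatIso.hom)
  infer_instance

instance ww_open : IsOpenImmersion (ww hU e) := by
  unfold ww
  infer_instance

theorem ww_range : (ww hU e).opensRange = U := by
  ext z
  constructor
  · rintro ⟨a, rfl⟩
    change ((spMap (e : Γ(X, U) →+* R) ≫ hU.fromSpec) a) ∈ U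
    rw [Scheme.Hom.comp_apply]
    have : hU.fromSpec (spMap (e : Γ(X, U) →+* R) a) ∈ Set.range hU.fromSpec := ⟨_, rfl⟩
    rw [hU.range_fromSpec] at this
    exact this
  · intro hz
    have : z ∈ Set.range hU.fromSpec := by
      rw [hU.range_fromSpec]
      exact hz
    obtain ⟨b, rfl⟩ := this
    obtain ⟨a, rfl⟩ := (spMap (e : Γ(X, U) →+* R)).surjective b
    exact ⟨a, by unfold ww; rw [Scheme.Hom.comp_apply]⟩

theorem ww_le : ⊤ ≤ ww hU e ⁻¹ᵁ U := by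
  intro a _
  have : ww hU e a ∈ (ww hU e).opensRange := ⟨a, rfl⟩
  rw [ww_range] at this
  exact this

theorem ww_gm (h : ⊤ ≤ ww hU e ⁻¹ᵁ U) (v : Γ(X, U)) : gm (ww hU e) U h v = e v := by
  have h0 : ⊤ ≤ hU.fromSpec ⁻¹ᵁ U := hU.fromSpec_preimage_self.ge
  have := gm_comp (A := Γ(X, U)) hU.fromSpec (e : Γ(X, U) →+* R) (ww hU e) rfl U h0 h v
  rw [this, gm_fromSpec]
  rfl

theorem ww_eq {A : Type} [CommRing A] (f : Sp A ⟶ X) (h : ⊤ ≤ f ⁻¹ᵁ U) (u : R →+* A)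
    (hu : ∀ v, gm f U h v = u (e v)) : f = spMap u ≫ ww hU e := by
  have h1 := eq_fromSpec f U hU h
  rw [h1]
  unfold ww
  rw [← Category.assoc, ← Spec.map_comp, ← CommRingCat.ofHom_comp]
  congr 3
  ext v
  exact hu v

end W

section Base

variable {n : ℕ} {k : Type} [Field k] {T : TC k} {C : Fam n k} (ct : Charted T C)

/-- Functions on the first chart. -/
noncomputable def ee1 : Γ(C.X, ct.U1) ≃+* T.R1 :=
  ct.eq1.symm.trans (Algebra.TensorProduct.lid k T.R1).toRingEquiv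

/-- Functions on the second chart. -/
noncomputable def ee2 : Γ(C.X, ct.U2) ≃+* T.R2 :=
  ct.eq2.symm.trans (Algebra.TensorProduct.lid k T.R2).toRingEquiv

/-- Functions on the intersection. -/
noncomputable def ee12 : Γ(C.X, ct.U1 ⊓ ct.U2) ≃+* T.R12 :=
  ct.eq12.symm.trans (Algebra.TensorProduct.lid k T.R12).toRingEquiv

theorem one_lid {R : Type} [CommRing R] [Algebra k R] (v : k ⊗[k] R) :
    v = 1 ⊗ₜ (Algebra.TensorProduct.lid k R v) :=
  ((Algebra.TensorProduct.lid k R).symm_apply_apply v).symm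

theorem ee1_eq (v : Γ(C.X, ct.U1)) : ct.eq1.symm v = 1 ⊗ₜ ee1 ct v := one_lid _

theorem ee2_eq (v : Γ(C.X, ct.U2)) : ct.eq2.symm v = 1 ⊗ₜ ee2 ct v := one_lid _

theorem ee12_eq (v : Γ(C.X, ct.U1 ⊓ ct.U2)) : ct.eq12.symm v = 1 ⊗ₜ ee12 ct v := one_lid _

theorem t1_ee1 (v : Γ(C.X, ct.U1)) : ct.t1 (1 ⊗ₜ ee1 ct v) = v := by
  rw [← ee1_eq]
  exact ct.eq1.apply_symm_apply v

theorem t2_ee2 (v : Γ(C.X, ct.U2)) : ct.t2 (1 ⊗ₜ ee2 ct v) = v := by
  rw [← ee2_eq]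
  exact ct.eq2.apply_symm_apply v

theorem ee1_t1 (a : T.R1) : ee1 ct (ct.t1 (1 ⊗ₜ a)) = a := by
  have : ct.eq1.symm (ct.t1 (1 ⊗ₜ a)) = 1 ⊗ₜ a := ct.eq1.symm_apply_apply _
  change Algebra.TensorProduct.lid k T.R1 (ct.eq1.symm (ct.t1 (1 ⊗ₜ a))) = a
  rw [this]
  simp

theorem ee2_t2 (a : T.R2) : ee2 ct (ct.t2 (1 ⊗ₜ a)) = a := by
  have : ct.eq2.symm (ct.t2 (1 ⊗ₜ a)) = 1 ⊗ₜ a := ct.eq2.symm_apply_apply _
  change Algebra.TensorProduct.lid k T.R2 (ct.eq2.symm (ct.t2 (1 ⊗ₜ a))) = a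
  rw [this]
  simp

theorem ee12_t12 (a : T.R12) : ee12 ct (ct.t12 (1 ⊗ₜ a)) = a := by
  have : ct.eq12.symm (ct.t12 (1 ⊗ₜ a)) = 1 ⊗ₜ a := ct.eq12.symm_apply_apply _
  change Algebra.TensorProduct.lid k T.R12 (ct.eq12.symm (ct.t12 (1 ⊗ₜ a))) = a
  rw [this]
  simp

theorem ee_rs1 (v : Γ(C.X, ct.U1)) : ee12 ct (rs C.X inf_le_left v) = T.j1 (ee1 ct v) := by
  conv_lhs => rw [← t1_ee1 ct v]
  rw [ct.r1, ee12_t12]

theorem ee_rs2 (v : Γ(C.X, ct.U2)) : ee12 ct (rs C.X inf_le_right v) = T.j2 (ee2 ct v) := by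
  conv_lhs => rw [← t2_ee2 ct v]
  rw [ct.r2, ee12_t12]

variable (ha : ct.Aff)

/-- The first chart. -/
noncomputable abbrev w1 : Sp T.R1 ⟶ C.X := ww ha.aff1 (ee1 ct)

/-- The second chart. -/
noncomputable abbrev w2 : Sp T.R2 ⟶ C.X := ww ha.aff2 (ee2 ct)

/-- The intersection. -/
noncomputable abbrev w12 : Sp T.R12 ⟶ C.X := ww ha.aff12 (ee12 ct)

theorem w12_1 : w12 ct ha = spMap (T.j1 : T.R1 →+* T.R12) ≫ w1 ct ha := by
  refine ww_eq ha.aff1 (ee1 ct) _ ((ww_le ha.aff12 (ee12 ct)).trans fun _ hx => hx.1) _ ?_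
  intro v
  have := gm_rs (w12 ct ha) (RingHom.id T.R12) (w12 ct ha) (spMap_id_comp _).symm
    (W := ct.U1) (W' := ct.U1 ⊓ ct.U2) inf_le_left
    ((ww_le ha.aff12 (ee12 ct)).trans fun _ hx => hx.1) (ww_le ha.aff12 (ee12 ct)) v
  rw [ww_gm] at this
  rw [ee_rs1] at this
  exact this.symm

theorem w12_2 : w12 ct ha = spMap (T.j2 : T.R2 →+* T.R12) ≫ w2 ct ha := by
  refine ww_eq ha.aff2 (ee2 ct) _ ((ww_le ha.aff12 (ee12 ct)).trans fun _ hx => hx.2) _ ?_
  intro v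
  have := gm_rs (w12 ct ha) (RingHom.id T.R12) (w12 ct ha) (spMap_id_comp _).symm
    (W := ct.U2) (W' := ct.U1 ⊓ ct.U2) inf_le_right
    ((ww_le ha.aff12 (ee12 ct)).trans fun _ hx => hx.2) (ww_le ha.aff12 (ee12 ct)) v
  rw [ww_gm] at this
  rw [ee_rs2] at this
  exact this.symm

include ha in
theorem j1_open : IsOpenImmersion (spMap (T.j1 : T.R1 →+* T.R12)) := by
  have h : IsOpenImmersion (spMap (T.j1 : T.R1 →+* T.R12) ≫ w1 ct ha) := by
    rw [← w12_1]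
    infer_instance
  exact IsOpenImmersion.of_comp _ (w1 ct ha)

include ha in
theorem j2_open : IsOpenImmersion (spMap (T.j2 : T.R2 →+* T.R12)) := by
  have h : IsOpenImmersion (spMap (T.j2 : T.R2 →+* T.R12) ≫ w2 ct ha) := by
    rw [← w12_2]
    infer_instance
  exact IsOpenImmersion.of_comp _ (w2 ct ha)

theorem w_cov (z : C.X) : z ∈ Set.range (w1 ct ha) ∨ z ∈ Set.range (w2 ct ha) := by
  have h : z ∈ ct.U1 ⊔ ct.U2 := by
    rw [ct.cover]
    trivial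
  rcases h with h | h
  · left
    have h' : z ∈ (w1 ct ha).opensRange := by
      rw [ww_range]
      exact h
    exact h'
  · right
    have h' : z ∈ (w2 ct ha).opensRange := by
      rw [ww_range]
      exact h
    exact h'

theorem w_int (x : Sp T.R1) (y : Sp T.R2) (h : w1 ct ha x = w2 ct ha y) :
    ∃ w, spMap (T.j1 : T.R1 →+* T.R12) w = x ∧ spMap (T.j2 : T.R2 →+* T.R12) w = y := by
  have h1 : w1 ct ha x ∈ ct.U1 := ww_le ha.aff1 (ee1 ct) (show x ∈ ⊤ by trivial)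
  have h2 : w2 ct ha y ∈ ct.U2 := ww_le ha.aff2 (ee2 ct) (show y ∈ ⊤ by trivial)
  have h3 : w1 ct ha x ∈ (w12 ct ha).opensRange := by
    rw [ww_range]
    exact ⟨h1, h ▸ h2⟩
  obtain ⟨w, hw⟩ := h3
  refine ⟨w, ?_, ?_⟩
  · apply (w1 ct ha).isOpenEmbedding.injective
    rw [← Scheme.Hom.comp_apply, ← w12_1, hw]
  · apply (w2 ct ha).isOpenEmbedding.injective
    rw [← Scheme.Hom.comp_apply, ← w12_2, hw, h]

/-- `C` is the push out of its charts. -/
theorem w_push : IsPushout (spMap (T.j1 : T.R1 →+* T.R12)) (spMap (T.j2 : T.R2 →+* T.R12))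
    (w1 ct ha) (w2 ct ha) := by
  haveI := j1_open ct ha
  haveI := j2_open ct ha
  exact glue_push (by rw [← w12_1, ← w12_2]) (w_cov ct ha) (w_int ct ha)

theorem w1_π : w1 ct ha ≫ C.π = spMap (algebraMap k T.R1) := by
  have h1 : ∀ c, gm (w1 ct ha) ct.U1 (ww_le _ _) (coef C.π ct.U1 c) = algebraMap k T.R1 c := by
    intro c
    rw [ww_gm, ← ct.c1]
    have : (c ⊗ₜ[k] (1 : T.R1)) = 1 ⊗ₜ (algebraMap k T.R1 c) := by
      rw [Algebra.algebraMap_eq_smul_one, ← TensorProduct.smul_tmul]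
      simp
    rw [this, ee1_t1]
  have h2 : ∀ c, gm (w1 ct ha) ct.U1 (ww_le _ _) (coef C.π ct.U1 c) =
      (Spec.preimage (w1 ct ha ≫ C.π)).hom c := by
    intro c
    refine gm_coef (w1 ct ha) C.π (Spec.preimage (w1 ct ha ≫ C.π)).hom ?_ ct.U1 _ c
    exact (Spec.map_preimage _).symm
  rw [← Spec.map_preimage (w1 ct ha ≫ C.π)]
  congr 1
  ext c
  exact (h2 c).symm.trans (h1 c)

theorem w2_π : w2 ct ha ≫ C.π = spMap (algebraMap k T.R2) := by
  have h1 : ∀ c, gm (w2 ct ha) ct.U2 (ww_le _ _) (coef C.π ct.U2 c) = algebraMap k T.R2 c := by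
    intro c
    rw [ww_gm, ← ct.c2]
    have : (c ⊗ₜ[k] (1 : T.R2)) = 1 ⊗ₜ (algebraMap k T.R2 c) := by
      rw [Algebra.algebraMap_eq_smul_one, ← TensorProduct.smul_tmul]
      simp
    rw [this, ee2_t2]
  have h2 : ∀ c, gm (w2 ct ha) ct.U2 (ww_le _ _) (coef C.π ct.U2 c) =
      (Spec.preimage (w2 ct ha ≫ C.π)).hom c := by
    intro c
    refine gm_coef (w2 ct ha) C.π (Spec.preimage (w2 ct ha ≫ C.π)).hom ?_ ct.U2 _ c
    exact (Spec.map_preimage _).symm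
  rw [← Spec.map_preimage (w2 ct ha ≫ C.π)]
  congr 1
  ext c
  exact (h2 c).symm.trans (h1 c)

/-- A section in the first chart. -/
theorem sec1 (σ : Sp k ⟶ C.X) (φ : T.R1 →ₐ[k] k) (h : ct.Is1 σ φ) :
    σ = spMap (φ : T.R1 →+* k) ≫ w1 ct ha := by
  obtain ⟨h1, h2⟩ := h
  refine ww_eq ha.aff1 (ee1 ct) σ h1 _ fun v => ?_
  change (Scheme.ΓSpecIso (CommRingCat.of k)).hom.hom ((σ.appLE ct.U1 ⊤ h1).hom v) = _
  conv_lhs => rw [← t1_ee1 ct v]
  rw [h2, gl_inv]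
  rfl

/-- A section in the second chart. -/
theorem sec2 (σ : Sp k ⟶ C.X) (φ : T.R2 →ₐ[k] k) (h : ct.Is2 σ φ) :
    σ = spMap (φ : T.R2 →+* k) ≫ w2 ct ha := by
  obtain ⟨h1, h2⟩ := h
  refine ww_eq ha.aff2 (ee2 ct) σ h1 _ fun v => ?_
  change (Scheme.ΓSpecIso (CommRingCat.of k)).hom.hom ((σ.appLE ct.U2 ⊤ h1).hom v) = _
  conv_lhs => rw [← t2_ee2 ct v]
  rw [h2, gl_inv]
  rfl

end Base

end Pool.Agent.MG.GLU
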