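import Pool.Agent.MG.SmNodA

/-!
# A smooth nodal curve has relative dimension one
-/

open CategoryTheory CategoryTheory.Limits AlgebraicGeometry TensorProduct
open scoped Polynomial

namespace Pool.Agent.MG

namespace SmNod

open NOD KaehlerDifferential

section rank

variable {K A B : Type} [Field K] [CommRing A] [Algebra K A]

theorem relDim_of_equiv [Algebra.IsStandardSmooth K A] [CommRing B] [Nontrivial B] [Algebra K B]
    [Algebra A B] [IsScalarTower K A B] [Algebra.FormallyEtale A B]
    (Φ : Ω[B⁄K] ≃ₗ[B] B) : Algebra.IsStandardSmoothOfRelativeDimension 1 K A := by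
  have hA : Nontrivial A := (algebraMap A B).domain_nontrivial
  have hss : Algebra.IsStandardSmooth K A := inferInstance
  obtain ⟨-, I, b, -⟩ := Algebra.IsStandardSmooth.iff_exists_basis_kaehlerDifferential.mp hss
  let b1 : Module.Basis I B (B ⊗[A] Ω[A⁄K]) := b.baseChange B
  let b2 : Module.Basis I B (Ω[B⁄K]) := b1.map (tensorKaehlerEquivOfFormallyEtale K A B)
  let b3 : Module.Basis I B B := b2.map Φ
  have e : I ≃ Unit := b3.indexEquiv (Module.Basis.singleton Unit B)
  rw [Algebra.IsStandardSmoothOfRelativeDimension.iff_of_isStandardSmooth 1]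
  have h1 := (b.reindex e).mk_eq_rank
  simpa using h1.symm

theorem relDim_of_node [Algebra.IsStandardSmooth K A] [CommRing B] [Nontrivial B] [Algebra K B]
    [Algebra A B] [IsScalarTower K A B] [Algebra.Etale A B]
    (β : NodeRing K →+* B) (hβ : β.Etale)
    (hK : ∀ c, β (algebraMap K (NodeRing K) c) = algebraMap K B c)
    (hn : ¬ IsNilpotent (β (uu K))) : Algebra.IsStandardSmoothOfRelativeDimension 1 K A := by
  let L := Localization.Away (β (uu K))
  have hnt : Nontrivial L := by
    by_contra h
    rw [not_nontrivial_iff_subsingleton] at h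
    apply hn
    have h1 := IsLocalization.subsingleton_iff (R := B) (S := L) (M := Submonoid.powers (β (uu K)))
    rw [h1] at h
    obtain ⟨m, hm⟩ := h
    exact ⟨m, hm⟩
  have h1 : ((algebraMap B L).comp β).Etale :=
    RingHom.Etale.stableUnderComposition _ _ hβ
      (RingHom.etale_algebraMap.2 (Algebra.Etale.of_isLocalizationAway (β (uu K))))
  have hu : IsUnit (((algebraMap B L).comp β) (uu K)) :=
    IsLocalization.Away.algebraMap_isUnit (β (uu K))
  have h2 := etale_of_isUnit K ((algebraMap B L).comp β) h1 hu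
  have h3 : (Polynomial.eval₂RingHom (((algebraMap B L).comp β).comp
      (algebraMap K (NodeRing K))) (((algebraMap B L).comp β) (uu K)) : K[X] →+* L) =
      (Polynomial.aeval (((algebraMap B L).comp β) (uu K)) : K[X] →ₐ[K] L).toRingHom := by
    apply Polynomial.ringHom_ext
    · intro a
      rw [Polynomial.coe_eval₂RingHom, Polynomial.eval₂_C]
      show algebraMap B L (β (algebraMap K (NodeRing K) a)) =
        Polynomial.aeval (((algebraMap B L).comp β) (uu K)) (Polynomial.C a)
      rw [hK, Polynomial.aeval_C, ← IsScalarTower.algebraMap_apply]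
    · rw [Polynomial.coe_eval₂RingHom, Polynomial.eval₂_X]
      exact (Polynomial.aeval_X _).symm
  rw [h3] at h2
  obtain ⟨Φ, -⟩ := Two.exists_kaehler_equiv _ h2
  have h4 : Algebra.FormallyEtale B L := Algebra.FormallyEtale.of_isLocalization
    (Submonoid.powers (β (uu K)))
  have h5 : Algebra.FormallyEtale A L := Algebra.FormallyEtale.comp A B L
  exact relDim_of_equiv Φ

theorem relDim [Algebra.IsStandardSmooth K A] [CommRing B] [Nontrivial B] [Algebra K B]
    [Algebra A B] [IsScalarTower K A B] [Algebra.Etale A B]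
    (β : NodeRing K →+* B) (hβ : β.Etale)
    (hK : ∀ c, β (algebraMap K (NodeRing K) c) = algebraMap K B c) :
    Algebra.IsStandardSmoothOfRelativeDimension 1 K A := by
  have hflat : @Module.Flat (NodeRing K) B _ _ β.toAlgebra.toModule := by
    let _ := β.toAlgebra
    have h1 : Algebra.Etale (NodeRing K) B := hβ
    infer_instance
  have hnil : ¬ IsNilpotent (β (uu K)) ∨ ¬ IsNilpotent (β (vv K)) := by
    let _ := β.toAlgebra
    exact not_nilpotent K (B := B)
  rcases hnil with h | h
  · exact relDim_of_node β hβ hK h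
  · have hsw : (sw K).toRingHom.Etale := by
      apply RingHom.Etale.of_bijective
      exact ⟨Function.LeftInverse.injective (g := sw K) (sw_sw K),
        Function.RightInverse.surjective (g := sw K) (sw_sw K)⟩
    have h1 := RingHom.Etale.stableUnderComposition _ _ hsw hβ
    refine relDim_of_node (β.comp (sw K).toRingHom) h1 ?_ ?_
    · intro c
      show β (sw K (algebraMap K (NodeRing K) c)) = _
      rw [AlgHom.commutes, hK]
    · show ¬ IsNilpotent (β (sw K (uu K)))
      rw [sw_uu]
      exact h

end rank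

/-- A smooth nodal curve is smooth of relative dimension one. -/
theorem smoothOfRelativeDimension_one {K : Type} [Field K] {X : Scheme.{0}} (π : X ⟶ Sp K)
    [Smooth π] (hnod : Nodal π) : SmoothOfRelativeDimension 1 π := by
  refine ⟨fun x => ?_⟩
  obtain ⟨U, hU, V, hV, hx, e, hsm⟩ := Smooth.exists_isStandardSmooth π x
  refine ⟨U, hU, V, hV, hx, e, ?_⟩
  have hUtop : U = ⊤ := by
    ext y
    simp only [SetLike.mem_coe, TopologicalSpace.Opens.coe_top, Set.mem_univ, iff_true]
    have h1 : y = π x := Subsingleton.elim _ _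
    rw [h1]
    exact e hx
  subst hUtop
  obtain ⟨Y, f, h, hf, hh, hcomm, y, hy⟩ := hnod x
  have hyV : y ∈ f ⁻¹ᵁ V := by
    show f y ∈ V
    rw [hy]; exact hx
  obtain ⟨_, ⟨W, hW, rfl⟩, hyW, hWV⟩ :=
    Y.isBasis_affineOpens.exists_subset_of_mem_open hyV (f ⁻¹ᵁ V).isOpen
  have hle : W ≤ f ⁻¹ᵁ V := hWV
  have hWne : Nonempty W := ⟨⟨y, hyW⟩⟩
  have hnt : Nontrivial Γ(Y, W) := inferInstance
  -- the algebra structures
  let _ : Algebra K Γ(X, V) := (coef π V).toAlgebra
  let _ : Algebra Γ(X, V) Γ(Y, W) := (f.appLE V W hle).hom.toAlgebra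
  let _ : Algebra K Γ(Y, W) := (coef (f ≫ π) W).toAlgebra
  have hst : IsScalarTower K Γ(X, V) Γ(Y, W) := .of_algebraMap_eq' (by
    ext c
    exact (coef_comp π f V W hle c).symm)
  have het : Algebra.Etale Γ(X, V) Γ(Y, W) := f.etale_appLE hV hW hle
  have hkm : coef π V = (π.appLE ⊤ V e).hom.comp (Scheme.ΓSpecIso (.of K)).inv.hom := rfl
  have hss : Algebra.IsStandardSmooth K Γ(X, V) := by
    have h1 : (coef π V).IsStandardSmooth := by
      rw [hkm]
      exact RingHom.isStandardSmooth_respectsIso.2
        (π.appLE ⊤ V e).hom (Scheme.ΓSpecIso (.of K)).symm.commRingCatIsoToRingEquiv hsm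
    exact h1
  let β : NodeRing K →+* Γ(Y, W) := coef h W
  have hβ : β.Etale := by
    have h1 : (h.appLE ⊤ W (fun _ _ => trivial)).hom.Etale :=
      h.etale_appLE (isAffineOpen_top _) hW _
    exact RingHom.Etale.respectsIso.2 (h.appLE ⊤ W (fun _ _ => trivial)).hom
      (Scheme.ΓSpecIso (.of (NodeRing K))).symm.commRingCatIsoToRingEquiv h1
  have hβK : ∀ c, β (algebraMap K (NodeRing K) c) = algebraMap K Γ(Y, W) c := by
    intro c
    show coef h W (algebraMap K (NodeRing K) c) = coef (f ≫ π) W c
    rw [hcomm, coef_spMap]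
  have hrd : Algebra.IsStandardSmoothOfRelativeDimension 1 K Γ(X, V) := relDim β hβ hβK
  have h2 : (coef π V).IsStandardSmoothOfRelativeDimension 1 := hrd
  have h3 := (RingHom.isStandardSmoothOfRelativeDimension_respectsIso (n := 1)).2
    (coef π V) (Scheme.ΓSpecIso (.of K)).commRingCatIsoToRingEquiv h2
  have h4 : (coef π V).comp (Scheme.ΓSpecIso (.of K)).commRingCatIsoToRingEquiv.toRingHom =
      (π.appLE ⊤ V e).hom := by
    have h5 : (Scheme.ΓSpecIso (.of K)).hom ≫ (Scheme.ΓSpecIso (.of K)).inv ≫
        π.appLE ⊤ V e = π.appLE ⊤ V e := by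
      rw [Iso.hom_inv_id_assoc]
    exact congrArg CommRingCat.Hom.hom h5
  rw [← h4]
  exact h3

end SmNod

end Pool.Agent.MG
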