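import Pool.Agent.MG.GLU
import Pool.Agent.MG.AFF
import Pool.Agent.MG.Lift

/-!
# KSU: over a field, thickenings with the same class are isomorphic
-/

open CategoryTheory CategoryTheory.Limits AlgebraicGeometry TensorProduct

namespace Pool.Agent.MG.KSU

open Pool.Agent.MG.GLU

section Alg

variable {k E J : Type} [Field k] [CommRing E] [Algebra k E] [Fintype J] (S : SqE k E J)
  (hS : ∀ c, algebraMap k E c = S.i c) {R : Type} [CommRing R] [Algebra k R]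

theorem one_inj {a b : R} (h : (1 : k) ⊗ₜ[k] a = 1 ⊗ₜ b) : a = b := by
  have := congrArg (Algebra.TensorProduct.lid k R) h
  simpa using this

include hS in
/-- The functions on a chart of a thickening are `E ⊗ R`. -/
theorem exists_equiv {G : Type} [CommRing G] (a : E →+* G) (q : G →+* k ⊗[k] R)
    (qa : ∀ z, q (a z) = S.p z ⊗ₜ 1)
    (ker : ∀ v, q v = 0 → ∃ w : J → G, v = ∑ j, a (S.ε j) * w j)
    (un : ∀ w : J → G, ∑ j, a (S.ε j) * w j = 0 → ∀ j, q (w j) = 0)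
    (θ : R →+* G) (hθ : ∀ c : k, θ (algebraMap k R c) = a (S.i c))
    (l : ∀ r, q (θ r) = 1 ⊗ₜ r) :
    ∃ ψ : (E ⊗[k] R) ≃+* G, (∀ e, ψ (e ⊗ₜ 1) = a e) ∧ (∀ r, ψ (1 ⊗ₜ r) = θ r) ∧
      ∀ v, q (ψ v) = 1 ⊗ₜ rd0 S hS R v := by
  let : Algebra k G := (a.comp (algebraMap k E)).toAlgebra
  let a' : E →ₐ[k] G := { a with commutes' := fun _ => rfl }
  have hθ' : ∀ c, θ (algebraMap k R c) = a (algebraMap k E c) := fun c => by rw [hθ, hS]
  let θ' : R →ₐ[k] G := { θ with commutes' := hθ' }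
  let ψ0 : E ⊗[k] R →ₐ[k] G := Algebra.TensorProduct.lift a' θ' (fun _ _ => Commute.all _ _)
  let ψ : E ⊗[k] R →+* G := (ψ0 : E ⊗[k] R →+* G)
  have p0 : ∀ e r, ψ (e ⊗ₜ r) = a e * θ r := fun e r =>
    Algebra.TensorProduct.lift_tmul a' θ' (fun _ _ => Commute.all _ _) e r
  have p1 : ∀ e, ψ (e ⊗ₜ 1) = a e := fun e => by rw [p0, map_one, mul_one]
  have p2 : ∀ r, ψ (1 ⊗ₜ r) = θ r := fun r => by rw [p0, map_one, one_mul]
  have p3 : ∀ v, q (ψ v) = 1 ⊗ₜ rd0 S hS R v := by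
    intro v
    refine tensor_ind (f := q.comp ψ) (g := (Algebra.TensorProduct.includeRight :
      R →ₐ[k] k ⊗[k] R).toRingHom.comp (rd0 S hS R)) ?_ ?_ v
    · intro e
      change q (ψ (e ⊗ₜ 1)) = 1 ⊗ₜ rd0 S hS R (e ⊗ₜ 1)
      rw [p1, qa, rd0_tmul, TensorProduct.tmul_smul, TensorProduct.smul_tmul', smul_eq_mul,
        mul_one]
    · intro r
      change q (ψ (1 ⊗ₜ r)) = 1 ⊗ₜ rd0 S hS R (1 ⊗ₜ r)
      rw [p2, l, rd0_tmul, map_one, one_smul]
  have ee : ∀ i j, a (S.ε i) * a (S.ε j) = 0 := fun i j => by rw [← map_mul, S.mul, map_zero]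
  have hinj : Function.Injective ψ := by
    rw [injective_iff_map_eq_zero]
    intro v hv
    have h1 : rd0 S hS R v = 0 := by
      apply one_inj (k := k)
      rw [← p3, hv, map_zero, TensorProduct.tmul_zero]
    obtain ⟨b, hb⟩ := decomp S hS R v
    have h2 : red S hS R v = 0 := h1
    rw [h2, TensorProduct.tmul_zero, zero_add] at hb
    have h3 : ∑ j, a (S.ε j) * θ (b j) = 0 := by
      rw [hb, map_sum] at hv
      rw [← hv]
      exact Finset.sum_congr rfl fun j _ => (p0 _ _).symm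
    have h4 := un _ h3
    have h5 : ∀ j, b j = 0 := by
      intro j
      apply one_inj (k := k)
      rw [← l, h4, TensorProduct.tmul_zero]
    rw [hb]
    exact Finset.sum_eq_zero fun j _ => by rw [h5, TensorProduct.tmul_zero]
  have hker : ∀ g, ∃ r, ∃ w : J → G, g = θ r + ∑ j, a (S.ε j) * w j := by
    intro g
    have h1 : q (g - θ (Algebra.TensorProduct.lid k R (q g))) = 0 := by
      rw [map_sub, l, ← one_lid, sub_self]
    obtain ⟨w, hw⟩ := ker _ h1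
    exact ⟨_, w, by rw [← hw]; ring⟩
  have hsur : Function.Surjective ψ := by
    intro g
    obtain ⟨r, w, hw⟩ := hker g
    choose b w' hw' using fun j => hker (w j)
    refine ⟨1 ⊗ₜ r + ∑ j, (S.ε j) ⊗ₜ (b j), ?_⟩
    rw [map_add, p2, map_sum, hw]
    congr 1
    refine Finset.sum_congr rfl fun j _ => ?_
    rw [p0, hw' j, mul_add, Finset.mul_sum, Finset.sum_eq_zero, add_zero]
    intro i _
    rw [← mul_assoc, ee, zero_mul]
  exact ⟨RingEquiv.ofBijective ψ ⟨hinj, hsur⟩, p1, p2, p3⟩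

/-- A point of a thickening is determined by its reduction and the value of the coordinate. -/
theorem pt_unique {x : R} (et : (Polynomial.aeval x : Polynomial k →ₐ[k] R).toRingHom.Etale)
    (φ φ' : R →ₐ[k] E) (h : ∀ a, S.p (φ a) = S.p (φ' a)) (hx : φ x = φ' x) : φ = φ' := by
  have := Lift.lift_unique _ et S.p (fun v w hv hw => S.mul_of_p_eq_zero hv hw) (φ : R →+* E)
    (φ' : R →+* E) (fun p => by
      change φ (Polynomial.aeval x p) = φ' (Polynomial.aeval x p)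
      rw [← Polynomial.aeval_algHom_apply, ← Polynomial.aeval_algHom_apply, hx]) h
  ext a
  exact congrArg (fun z : R →+* E => z a) this

/-- A homomorphism `E ⊗ R → E` over `E` is an evaluation. -/
theorem exists_lam (u : E ⊗[k] R →+* E) (hu : ∀ e, u (e ⊗ₜ 1) = e) :
    ∃ φ : R →ₐ[k] E, u = lam φ ∧ ∀ r, φ r = u (1 ⊗ₜ r) := by
  have hc : ∀ c, u (1 ⊗ₜ algebraMap k R c) = algebraMap k E c := by
    intro c
    rw [← hu (algebraMap k E c)]
    congr 1
    rw [Algebra.algebraMap_eq_smul_one, Algebra.algebraMap_eq_smul_one,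
      TensorProduct.tmul_smul, TensorProduct.smul_tmul']
  let φ : R →ₐ[k] E := { u.comp (iR (k := k) E R) with commutes' := hc }
  refine ⟨φ, ?_, fun r => rfl⟩
  refine RingHom.ext fun v => ?_
  refine tensor_ind (f := u) (g := lam φ) ?_ ?_ v
  · intro e
    rw [hu, lam_tmul, map_one, mul_one]
  · intro r
    rw [lam_tmul, one_mul]
    rfl

end Alg

section Piece

theorem ww_π {A R : Type} [CommRing A] [CommRing R] {X : Scheme.{0}} {U : X.Opens}
    (hU : IsAffineOpen U) (e : Γ(X, U) ≃+* R) (π : X ⟶ Sp A) (u : A →+* R)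
    (h : ∀ a, e (coef π U a) = u a) : ww hU e ≫ π = spMap u := by
  have h2 : ∀ c, gm (ww hU e) U (ww_le _ _) (coef π U c) =
      (Spec.preimage (ww hU e ≫ π)).hom c := by
    intro c
    refine gm_coef (ww hU e) π (Spec.preimage (ww hU e ≫ π)).hom ?_ U _ c
    exact (Spec.map_preimage _).symm
  rw [← Spec.map_preimage (ww hU e ≫ π)]
  congr 1
  ext c
  change (Spec.preimage (ww hU e ≫ π)).hom c = u c
  rw [← h2, ww_gm, h]

end Piece

section Fit

variable {n : ℕ} {k : Type} [Field k] {T : TC k} {C : Fam n k} (ct : Charted T C) (ha : ct.Aff)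
  {E J : Type} [CommRing E] [Algebra k E] [Fintype J] {S : SqE k E J}
  (hS : ∀ c, algebraMap k E c = S.i c)

/-- The reduction of a chart of the thickening. -/
theorem red_chart (t : Thk S C) {U : C.X.Opens} (hU : IsAffineOpen U)
    (hU' : IsAffineOpen (t.op U)) {R : Type} [CommRing R] [Algebra k R] (e : Γ(C.X, U) ≃+* R)
    (ψ : (E ⊗[k] R) ≃+* Γ(t.y.X, t.op U)) (h : ∀ v, e (t.q U (ψ v)) = rd0 S hS R v) :
    ww hU e ≫ t.r.f = spMap (rd0 S hS R) ≫ ww hU' ψ.symm := by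
  have hle : ⊤ ≤ (ww hU e ≫ t.r.f) ⁻¹ᵁ (t.op U) := by
    intro a ha
    have h1 : ww hU e a ∈ t.r.f ⁻¹ᵁ (t.op U) := by
      rw [t.pre]
      exact ww_le hU e ha
    change (ww hU e ≫ t.r.f) a ∈ t.op U
    rw [Scheme.Hom.comp_apply]
    exact h1
  refine ww_eq hU' ψ.symm _ hle _ fun v => ?_
  have h1 := gm_nat t.r.f (ww hU e ≫ t.r.f) (ww hU e) (RingHom.id R)
    (spMap_id_comp _).symm (t.op U) U hle (ww_le hU e) (t.pre U).ge v
  rw [ww_gm] at h1
  have h2 : gm (ww hU e ≫ t.r.f) (t.op U) hle v = e (t.q U v) := h1.symm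
  rw [h2]
  have h3 := h (ψ.symm v)
  rw [ψ.apply_symm_apply] at h3
  exact h3

include ha in
theorem fits_of (t : Thk S C) (s : Fin n → Pt T k) (hs : ∀ i, ct.Is (C.σ i) (s i))
    (hh : J → k ⊗[k] T.R12) (δ : J → Fin n → k) (H : KS ct t s hs hh δ) :
    ∃ i1 i2, Fits ct ha hS (fun j => -(Algebra.TensorProduct.lid k T.R12 (hh j))) t i1 i2 ∧
      (∀ i φ, s i = .one φ → ∃ φ' : T.R1 →ₐ[k] E, t.y.σ i = spMap (lam φ') ≫ i1 ∧
        (∀ a, S.p (φ' a) = φ a) ∧ φ' T.x = S.i (φ T.x) + ∑ j, S.ε j * S.i (δ j i)) ∧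
      (∀ i φ, s i = .two φ → ∃ φ' : T.R2 →ₐ[k] E, t.y.σ i = spMap (lam φ') ≫ i2 ∧
        (∀ a, S.p (φ' a) = φ a) ∧ φ' T.y = S.i (φ T.y) + ∑ j, S.ε j * S.i (δ j i)) := by
  obtain ⟨H3, ⟨K⟩⟩ := H
  have A1 := t_AFF t ct.U1 ha.aff1
  have A2 := t_AFF t ct.U2 ha.aff2
  have A12 := t_AFF t (ct.U1 ⊓ ct.U2) ha.aff12
  obtain ⟨ψ1, e1, r1, q1⟩ := exists_equiv S hS (rd ct t H3).a1 (rd ct t H3).q1 (rd ct t H3).qa1
    (rd ct t H3).ker1 (rd ct t H3).un1 K.θ1 (fun c => K.k1 c) K.l1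
  obtain ⟨ψ2, e2, r2, q2⟩ := exists_equiv S hS (rd ct t H3).a2 (rd ct t H3).q2 (rd ct t H3).qa2
    (rd ct t H3).ker2 (rd ct t H3).un2 K.θ2 (fun c => K.k2 c) K.l2
  have k12 : ∀ c : k, K.t1 (algebraMap k T.R12 c) = (rd ct t H3).a12 (S.i c) := by
    intro c
    rw [← T.j1.commutes c, K.e1, K.k1, (rd ct t H3).fa1]
    rfl
  obtain ⟨ψ12, e12, r12, q12⟩ := exists_equiv S hS (rd ct t H3).a12 (rd ct t H3).q12
    (rd ct t H3).qa12 (rd ct t H3).ker12 (rd ct t H3).un12 K.t1 k12 K.lt1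
  let h : J → T.R12 := fun j => -(Algebra.TensorProduct.lid k T.R12 (hh j))
  let D := rd ct t H3
  -- restriction in terms of the charts
  have hf1 : ∀ v, D.f1 (ψ1 v) = ψ12 (mE T.j1 v) := by
    intro v
    refine tensor_ind (f := D.f1.comp (ψ1 : E ⊗[k] T.R1 →+* D.G1))
      (g := (ψ12 : E ⊗[k] T.R12 →+* D.G12).comp (mE T.j1)) ?_ ?_ v
    · intro e
      change D.f1 (ψ1 (e ⊗ₜ 1)) = ψ12 (mE T.j1 (e ⊗ₜ 1))
      rw [e1, mE_tmul, map_one, e12]
      exact D.fa1 e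
    · intro r
      change D.f1 (ψ1 (1 ⊗ₜ r)) = ψ12 (mE T.j1 (1 ⊗ₜ r))
      rw [r1, mE_tmul, r12]
      exact (K.e1 r).symm
  have keps : ∀ (j : J) (v : D.G12), D.q12 v = 0 → D.a12 (S.ε j) * v = 0 := by
    intro j v hv
    obtain ⟨w, rfl⟩ := D.ker12 v hv
    rw [Finset.mul_sum]
    refine Finset.sum_eq_zero fun i _ => ?_
    rw [← mul_assoc, ← map_mul, S.mul, map_zero, zero_mul]
  have ht2 : ∀ a, ψ12 (tE S T.dd h (1 ⊗ₜ a)) = K.t2 a := by
    intro a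
    have h1 : tE S T.dd h (1 ⊗ₜ a) = 1 ⊗ₜ a + ∑ j, (S.ε j) ⊗ₜ[k] (h j * T.dd a) :=
      tw_right S T.dd h a
    obtain ⟨v, hv1, hv2⟩ := K.diff a
    rw [h1, map_add, r12, map_sum]
    have h2 : ∀ j, ψ12 ((S.ε j) ⊗ₜ[k] (h j * T.dd a)) = - (D.a12 (S.ε j) * v j) := by
      intro j
      have h3 : (S.ε j) ⊗ₜ[k] (h j * T.dd a) = (S.ε j ⊗ₜ[k] 1) * (1 ⊗ₜ[k] (h j * T.dd a)) := by
        simp
      have h4 : D.a12 (S.ε j) * (K.t1 (h j * T.dd a) + v j) = 0 := by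
        apply keps
        have h5 : D.q12 (K.t1 (h j * T.dd a)) = 1 ⊗ₜ (h j * T.dd a) := K.lt1 _
        have h6 : D.q12 (v j) = hh j * (1 ⊗ₜ T.dd a) := hv1 j
        rw [map_add, h5, h6]
        conv_lhs => rw [one_lid (hh j)]
        rw [Algebra.TensorProduct.tmul_mul_tmul, mul_one, ← TensorProduct.tmul_add]
        change 1 ⊗ₜ[k] (-(Algebra.TensorProduct.lid k T.R12 (hh j)) * T.dd a + _) = _
        rw [neg_mul, neg_add_cancel, TensorProduct.tmul_zero]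
      rw [h3, map_mul, e12, r12]
      rw [mul_add] at h4
      exact eq_neg_of_add_eq_zero_left h4
    rw [Finset.sum_congr rfl fun j _ => h2 j, hv2, Finset.sum_neg_distrib]
    exact add_neg_cancel_right _ _
  have hf2 : ∀ v, D.f2 (ψ2 v) = ψ12 (tE S T.dd h (mE T.j2 v)) := by
    intro v
    refine tensor_ind (f := D.f2.comp (ψ2 : E ⊗[k] T.R2 →+* D.G2))
      (g := (ψ12 : E ⊗[k] T.R12 →+* D.G12).comp ((tE S T.dd h).comp (mE T.j2))) ?_ ?_ v
    · intro e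
      change D.f2 (ψ2 (e ⊗ₜ 1)) = ψ12 (tE S T.dd h (mE T.j2 (e ⊗ₜ 1)))
      have h1 : tE S T.dd h (e ⊗ₜ 1) = e ⊗ₜ 1 := tw_left S T.dd h e
      rw [e2, mE_tmul, map_one, h1, e12]
      exact D.fa2 e
    · intro r
      change D.f2 (ψ2 (1 ⊗ₜ r)) = ψ12 (tE S T.dd h (mE T.j2 (1 ⊗ₜ r)))
      rw [r2, mE_tmul, ht2]
      exact (K.e2 r).symm
  let Ψ1 : (E ⊗[k] T.R1) ≃+* Γ(t.y.X, t.op ct.U1) := ψ1
  let Ψ2 : (E ⊗[k] T.R2) ≃+* Γ(t.y.X, t.op ct.U2) := ψ2
  let Ψ12 : (E ⊗[k] T.R12) ≃+* Γ(t.y.X, t.op (ct.U1 ⊓ ct.U2)) := ψ12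
  let i1 := ww A1 Ψ1.symm
  let i2 := ww A2 Ψ2.symm
  let i12 := ww A12 Ψ12.symm
  have c1' : i12 = spMap (mE (E := E) T.j1) ≫ i1 := by
    have hl : ⊤ ≤ i12 ⁻¹ᵁ (t.op ct.U1) :=
      (ww_le A12 Ψ12.symm).trans fun _ hx => t.op_mono inf_le_left hx
    refine ww_eq A1 Ψ1.symm i12 hl _ fun v => ?_
    have h1 := gm_rs i12 (RingHom.id (E ⊗[k] T.R12)) i12 (spMap_id_comp _).symm
      (W := t.op ct.U1) (W' := t.op (ct.U1 ⊓ ct.U2)) (t.op_mono inf_le_left) hl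
      (ww_le A12 Ψ12.symm) v
    rw [ww_gm] at h1
    have h2 : gm i12 (t.op ct.U1) hl v = Ψ12.symm (rs t.y.X (t.op_mono inf_le_left) v) := h1.symm
    rw [h2, RingEquiv.symm_apply_eq]
    have h3 := hf1 (Ψ1.symm v)
    have h4 : ψ1 (Ψ1.symm v) = v := Ψ1.apply_symm_apply v
    rw [h4] at h3
    exact h3
  have c2' : i12 = spMap ((tE S T.dd h).comp (mE (E := E) T.j2)) ≫ i2 := by
    have hl : ⊤ ≤ i12 ⁻¹ᵁ (t.op ct.U2) :=
      (ww_le A12 Ψ12.symm).trans fun _ hx => t.op_mono inf_le_right hx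
    refine ww_eq A2 Ψ2.symm i12 hl _ fun v => ?_
    have h1 := gm_rs i12 (RingHom.id (E ⊗[k] T.R12)) i12 (spMap_id_comp _).symm
      (W := t.op ct.U2) (W' := t.op (ct.U1 ⊓ ct.U2)) (t.op_mono inf_le_right) hl
      (ww_le A12 Ψ12.symm) v
    rw [ww_gm] at h1
    have h2 : gm i12 (t.op ct.U2) hl v = Ψ12.symm (rs t.y.X (t.op_mono inf_le_right) v) := h1.symm
    rw [h2, RingEquiv.symm_apply_eq]
    have h3 := hf2 (Ψ2.symm v)
    have h4 : ψ2 (Ψ2.symm v) = v := Ψ2.apply_symm_apply v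
    rw [h4] at h3
    exact h3
  have o12 : IsOpenImmersion i12 := inferInstanceAs (IsOpenImmersion (ww A12 Ψ12.symm))
  have rr12 : i12.opensRange = t.op (ct.U1 ⊓ ct.U2) := ww_range A12 Ψ12.symm
  refine ⟨i1, i2, {
    o1 := inferInstanceAs (IsOpenImmersion (ww A1 Ψ1.symm))
    o2 := inferInstanceAs (IsOpenImmersion (ww A2 Ψ2.symm))
    r1 := ww_range A1 Ψ1.symm
    r2 := ww_range A2 Ψ2.symm
    o12 := by
      rw [← c1']
      exact o12
    r12 := ?_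
    comm := by
      rw [← c1']
      exact c2'
    c1 := ?_
    c2 := ?_
    p1 := ?_
    p2 := ?_ }, ?_, ?_⟩
  · have : ∀ (i : Sp (E ⊗[k] T.R12) ⟶ t.y.X) (_ : i12 = i) [IsOpenImmersion i],
        i.opensRange = t.op (ct.U1 ⊓ ct.U2) := by
      intro i hi _
      subst hi
      exact rr12
    have o12' : IsOpenImmersion (spMap (mE (E := E) T.j1) ≫ i1) := by
      rw [← c1']
      exact o12
    exact this _ c1'
  · refine red_chart hS t ha.aff1 A1 (ee1 ct) Ψ1 fun v => ?_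
    apply one_inj (k := k)
    rw [← ee1_eq]
    exact q1 v
  · refine red_chart hS t ha.aff2 A2 (ee2 ct) Ψ2 fun v => ?_
    apply one_inj (k := k)
    rw [← ee2_eq]
    exact q2 v
  · refine ww_π A1 Ψ1.symm t.y.π _ fun a => ?_
    rw [RingEquiv.symm_apply_eq]
    exact (e1 a).symm
  · refine ww_π A2 Ψ2.symm t.y.π _ fun a => ?_
    rw [RingEquiv.symm_apply_eq]
    exact (e2 a).symm
  · intro i φ hi
    have key : ∀ (sp : Pt T k) (hsp : ct.Is (C.σ i) sp)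
        (_ : (rd ct t H3).Dlt (K.θ1 T.x) (K.θ2 T.y) sp (rsec ct t H3 i sp hsp)
          (fun j => δ j i)) (φ : T.R1 →ₐ[k] k) (_ : sp = .one φ),
        ∃ φ' : T.R1 →ₐ[k] E, t.y.σ i = spMap (lam φ') ≫ i1 ∧
          (∀ a, S.p (φ' a) = φ a) ∧ φ' T.x = S.i (φ T.x) + ∑ j, S.ε j * S.i (δ j i) := by
      intro sp hsp hd φ hφ
      subst hφ
      have hsp' : ct.Is1 (C.σ i) φ := hsp
      obtain ⟨φ', hφ1, hφ2⟩ := exists_lam
        ((t.ev i hsp'.1).comp (Ψ1 : E ⊗[k] T.R1 →+* Γ(t.y.X, t.op ct.U1))) (fun e => by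
          change t.ev i hsp'.1 (ψ1 (e ⊗ₜ 1)) = e
          rw [e1]
          exact t.ev_coef i hsp'.1 e)
      have hφ3 : ∀ r, φ' r = t.ev i hsp'.1 (K.θ1 r) := fun r => by
        rw [hφ2, ← r1]
        rfl
      refine ⟨φ', ?_, ?_, ?_⟩
      · rw [← hφ1]
        refine ww_eq A1 Ψ1.symm (t.y.σ i) (t.sec_le i hsp'.1) _ fun v => ?_
        change t.ev i hsp'.1 v = t.ev i hsp'.1 (Ψ1 (Ψ1.symm v))
        rw [Ψ1.apply_symm_apply]
      · intro a
        rw [hφ3]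
        have h1 := (rsec1 ct t H3 i φ hsp').gq (K.θ1 a)
        refine h1.trans ?_
        rw [K.l1]
        simp [extA]
      · rw [hφ3]
        exact hd
    exact key _ (hs i) (K.dl i) φ hi
  · intro i φ hi
    have key : ∀ (sp : Pt T k) (hsp : ct.Is (C.σ i) sp)
        (_ : (rd ct t H3).Dlt (K.θ1 T.x) (K.θ2 T.y) sp (rsec ct t H3 i sp hsp)
          (fun j => δ j i)) (φ : T.R2 →ₐ[k] k) (_ : sp = .two φ),
        ∃ φ' : T.R2 →ₐ[k] E, t.y.σ i = spMap (lam φ') ≫ i2 ∧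
          (∀ a, S.p (φ' a) = φ a) ∧ φ' T.y = S.i (φ T.y) + ∑ j, S.ε j * S.i (δ j i) := by
      intro sp hsp hd φ hφ
      subst hφ
      have hsp' : ct.Is2 (C.σ i) φ := hsp
      obtain ⟨φ', hφ1, hφ2⟩ := exists_lam
        ((t.ev i hsp'.1).comp (Ψ2 : E ⊗[k] T.R2 →+* Γ(t.y.X, t.op ct.U2))) (fun e => by
          change t.ev i hsp'.1 (ψ2 (e ⊗ₜ 1)) = e
          rw [e2]
          exact t.ev_coef i hsp'.1 e)
      have hφ3 : ∀ r, φ' r = t.ev i hsp'.1 (K.θ2 r) := fun r => by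
        rw [hφ2, ← r2]
        rfl
      refine ⟨φ', ?_, ?_, ?_⟩
      · rw [← hφ1]
        refine ww_eq A2 Ψ2.symm (t.y.σ i) (t.sec_le i hsp'.1) _ fun v => ?_
        change t.ev i hsp'.1 v = t.ev i hsp'.1 (Ψ2 (Ψ2.symm v))
        rw [Ψ2.apply_symm_apply]
      · intro a
        rw [hφ3]
        have h1 := (rsec2 ct t H3 i φ hsp').gq (K.θ2 a)
        refine h1.trans ?_
        rw [K.l2]
        simp [extA]
      · rw [hφ3]
        exact hd
    exact key _ (hs i) (K.dl i) φ hi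

section Push

variable {ct ha hS} {h : J → T.R12} {t t' : Thk S C} {i1 : Sp (E ⊗[k] T.R1) ⟶ t.y.X}
  {i2 : Sp (E ⊗[k] T.R2) ⟶ t.y.X} {i1' : Sp (E ⊗[k] T.R1) ⟶ t'.y.X}
  {i2' : Sp (E ⊗[k] T.R2) ⟶ t'.y.X}

/-- A thickening is the push out of its charts. -/
theorem push (F : Fits ct ha hS h t i1 i2) :
    IsPushout (spMap (mE (E := E) T.j1)) (spMap ((tE S T.dd h).comp (mE (E := E) T.j2))) i1 i2 := by
  have := F.o1
  have := F.o2
  have o1 : IsOpenImmersion (spMap (mE (E := E) T.j1)) := open1 T.j1 (j1_open ct ha)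
  have o2' : IsOpenImmersion (spMap (mE (E := E) T.j2)) := open1 T.j2 (j2_open ct ha)
  have o2 : IsOpenImmersion (spMap ((tE S T.dd h).comp (mE (E := E) T.j2))) := by
    have : spMap ((tE S T.dd h).comp (mE (E := E) T.j2)) =
        spMap (tE S T.dd h) ≫ spMap (mE (E := E) T.j2) := by
      rw [← Spec.map_comp, ← CommRingCat.ofHom_comp]
    rw [this]
    infer_instance
  have o12 := F.o12
  refine glue_push F.comm ?_ ?_
  · intro z
    have hz : z ∈ t.op ct.U1 ⊔ t.op ct.U2 := by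
      rw [← t.op_sup, ct.cover, t.op_top]
      trivial
    rcases hz with hz | hz
    · left
      have h1 : z ∈ i1.opensRange := by
        rw [F.r1]
        exact hz
      exact h1
    · right
      have h1 : z ∈ i2.opensRange := by
        rw [F.r2]
        exact hz
      exact h1
  · intro x y hxy
    have h1 : i1 x ∈ t.op ct.U1 := le_range i1 F.r1 (show x ∈ ⊤ by trivial)
    have h2 : i2 y ∈ t.op ct.U2 := le_range i2 F.r2 (show y ∈ ⊤ by trivial)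
    have h3 : i1 x ∈ (spMap (mE (E := E) T.j1) ≫ i1).opensRange := by
      rw [F.r12, t.op_inf]
      exact ⟨h1, hxy ▸ h2⟩
    obtain ⟨w, hw⟩ := h3
    refine ⟨w, ?_, ?_⟩
    · apply i1.isOpenEmbedding.injective
      rw [← Scheme.Hom.comp_apply]
      exact hw
    · apply i2.isOpenEmbedding.injective
      rw [← Scheme.Hom.comp_apply, ← F.comm, ← hxy]
      exact hw

/-- The isomorphism of two thickenings with the same gluing data. -/
theorem exists_iso (F : Fits ct ha hS h t i1 i2) (F' : Fits ct ha hS h t' i1' i2') :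
    ∃ f : t.y.X ⟶ t'.y.X, IsIso f ∧ i1 ≫ f = i1' ∧ i2 ≫ f = i2' := by
  have P := push F
  have P' := push F'
  let f := P.desc i1' i2' F'.comm
  let g := P'.desc i1 i2 F.comm
  have f1 : i1 ≫ f = i1' := P.inl_desc _ _ _
  have f2 : i2 ≫ f = i2' := P.inr_desc _ _ _
  have g1 : i1' ≫ g = i1 := P'.inl_desc _ _ _
  have g2 : i2' ≫ g = i2 := P'.inr_desc _ _ _
  refine ⟨f, ⟨g, ?_, ?_⟩, f1, f2⟩
  · apply P.hom_ext
    · rw [← Category.assoc, f1, g1, Category.comp_id]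
    · rw [← Category.assoc, f2, g2, Category.comp_id]
  · apply P'.hom_ext
    · rw [← Category.assoc, g1, f1, Category.comp_id]
    · rw [← Category.assoc, g2, f2, Category.comp_id]

end Push

include ha in
theorem main (s : Fin n → Pt T k) (hs : ∀ i, ct.Is (C.σ i) (s i))
    (hS : ∀ c, algebraMap k E c = S.i c)
    (hh : J → k ⊗[k] T.R12) (δ : J → Fin n → k) (t t' : Thk S C) (H : KS ct t s hs hh δ)
    (H' : KS ct t' s hs hh δ) :
    ∃ f : Arrow (RingHom.id E) t.y t'.y, t.r.f ≫ f.f = t'.r.f := by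
  obtain ⟨i1, i2, F, s1, s2⟩ := fits_of ct ha hS t s hs hh δ H
  obtain ⟨i1', i2', F', s1', s2'⟩ := fits_of ct ha hS t' s hs hh δ H'
  obtain ⟨f, hf, f1, f2⟩ := exists_iso F F'
  have P := push F
  have hid : spMap (RingHom.id E) = 𝟙 _ := Spec.map_id _
  have hπ : f ≫ t'.y.π = t.y.π := by
    apply P.hom_ext
    · rw [← Category.assoc, f1, F'.p1, F.p1]
    · rw [← Category.assoc, f2, F'.p2, F.p2]
  have hr : t.r.f ≫ f = t'.r.f := by
    apply (w_push ct ha).hom_ext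
    · rw [← Category.assoc, F.c1, Category.assoc, f1, F'.c1]
    · rw [← Category.assoc, F.c2, Category.assoc, f2, F'.c2]
  refine ⟨⟨f, ?_, ?_⟩, hr⟩
  · have : IsIso (spMap (RingHom.id E)) := by
      rw [hid]
      infer_instance
    exact IsPullback.of_horiz_isIso ⟨by rw [hπ, hid, Category.comp_id]⟩
  · intro i
    rw [hid, Category.id_comp]
    rcases hsi : s i with φ | φ
    · obtain ⟨φ1, a1, b1, c1⟩ := s1 i φ hsi
      obtain ⟨φ2, a2, b2, c2⟩ := s1' i φ hsi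
      have : φ1 = φ2 := pt_unique S T.etx φ1 φ2 (fun a => by rw [b1, b2]) (by rw [c1, c2])
      subst this
      rw [a1, a2, Category.assoc, f1]
    · obtain ⟨φ1, a1, b1, c1⟩ := s2 i φ hsi
      obtain ⟨φ2, a2, b2, c2⟩ := s2' i φ hsi
      have : φ1 = φ2 := pt_unique S T.ety φ1 φ2 (fun a => by rw [b1, b2]) (by rw [c1, c2])
      subst this
      rw [a1, a2, Category.assoc, f2]

end Fit

end Pool.Agent.MG.KSU

namespace Pool.Agent.MG

theorem t_KSU0 : Stmt_KSU := by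
  intro n k _ T C ct ha s hs E J _ _ S h δ t t' H H'
  let _ : Algebra k E := S.i.toAlgebra
  exact KSU.main ct ha s hs (fun _ => rfl) h δ t t' H H'

theorem t_KSU (_ : Stmt_SQZ) : Stmt_KSU := t_KSU0

end Pool.Agent.MG
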