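import Pool.Agent.MG.TwoPhi

open AlgebraicGeometry CategoryTheory TopologicalSpace Opposite IsLocalRing

universe u

namespace Pool.Agent.MG.Two

variable {X : Scheme.{u}} [IsIntegral X] {k : Type u} [Field k] (π : X ⟶ Spec (.of k))

lemma forall_mem_of_closedPoint_mem {X : Scheme.{u}} {R : Type u} [CommRing R] [IsLocalRing R]
    (l : Spec (.of R) ⟶ X) (V : X.Opens) (h : l (closedPoint R) ∈ V) (y : Spec (.of R)) :
    l y ∈ V :=
  ((specializes_closedPoint (R := R) y).map l.continuous).mem_open V.isOpen h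

lemma pb_congr {T : Scheme.{u}} {m m' : T ⟶ X} (h : m = m') (f : X.functionField) (U : T.Opens)
    (h1 : U ≤ m ⁻¹ᵁ (dom f)) (h2 : U ≤ m' ⁻¹ᵁ (dom f)) : pb m f U h1 = pb m' f U h2 := by
  subst h; rfl

lemma pb_comp {T T' : Scheme.{u}} (j : T' ⟶ T) (m : T ⟶ X) (f : X.functionField)
    (h1 : ⊤ ≤ m ⁻¹ᵁ (dom f)) (h2 : ⊤ ≤ (j ≫ m) ⁻¹ᵁ (dom f)) :
    j.appTop (pb m f ⊤ h1) = pb (j ≫ m) f ⊤ h2 := by
  rw [pb, pb, ← Scheme.Hom.appLE_comp_appLE (U := dom f) (V := ⊤) (W := ⊤) (f := j)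
    (g := m) (e₁ := h1) (e₂ := le_pre_top j ⊤)]
  have h3 : j.appLE ⊤ ⊤ (le_pre_top j ⊤) = j.appTop := Scheme.Hom.appLE_eq_app j
  rw [h3]
  rfl

lemma forall_mem_dom (hv : ∀ x : X, ValuationRing (X.presheaf.stalk x)) (f : X.functionField)
    (hf : f ≠ 0) {R : Type u} [CommRing R] [IsLocalRing R] {K : Type u} [Field K] [Algebra R K]
    (hinj : Function.Injective (algebraMap R K))
    (l : Spec (.of R) ⟶ X) (i₁ : Spec (.of K) ⟶ (dom f).toScheme)
    (i₂ : Spec (.of R) ⟶ Spec (.of (Polynomial k)))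
    (h1 : Spec.map (CommRingCat.ofHom (algebraMap R K)) ≫ l = i₁ ≫ (dom f).ι)
    (h2 : i₁ ≫ phi π f = Spec.map (CommRingCat.ofHom (algebraMap R K)) ≫ i₂)
    (y : Spec (.of R)) : l y ∈ dom f := by
  apply forall_mem_of_closedPoint_mem
  rcases mem_dom_or_mem_dom_inv hv f (l (closedPoint R)) with hx | hx
  · exact hx
  set j : Spec (.of K) ⟶ Spec (.of R) := Spec.map (CommRingCat.ofHom (algebraMap R K)) with hj
  have hV2 : (⊤ : (Spec (.of R)).Opens) ≤ l ⁻¹ᵁ (dom f⁻¹) := fun y _ =>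
    forall_mem_of_closedPoint_mem l _ hx y
  have hjV2 : (⊤ : (Spec (.of K)).Opens) ≤ (j ≫ l) ⁻¹ᵁ (dom f⁻¹) := fun y _ => by
    rw [Scheme.Hom.comp_preimage]
    exact hV2 trivial
  have hjV2' : (⊤ : (Spec (.of K)).Opens) ≤ (i₁ ≫ (dom f).ι) ⁻¹ᵁ (dom f⁻¹) := h1 ▸ hjV2
  have hV1' : (⊤ : (Spec (.of K)).Opens) ≤ (i₁ ≫ (dom f).ι) ⁻¹ᵁ (dom f) := by
    rw [Scheme.Hom.comp_preimage, Scheme.Opens.ι_preimage_self]; exact le_pre_top i₁ ⊤
  set b := pb l f⁻¹ ⊤ hV2 with hb
  set a := i₂.appTop ((Scheme.ΓSpecIso (.of (Polynomial k))).inv Polynomial.X) with ha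
  have hja : j.appTop a = pb (i₁ ≫ (dom f).ι) f ⊤ hV1' := by
    rw [← comp_phi_X π f i₁, h2, ha, Scheme.Hom.comp_appTop]
    rfl
  have hjb : j.appTop b = pb (i₁ ≫ (dom f).ι) f⁻¹ ⊤ hjV2' := by
    rw [hb, pb_comp j l f⁻¹ hV2 hjV2]
    exact pb_congr h1 _ _ _ _
  have hab : a * b = 1 := by
    have hinj' : Function.Injective j.appTop := by
      have e1 := Scheme.ΓSpecIso_inv_naturality (CommRingCat.ofHom (algebraMap R K))
      have e2 : j.appTop = (Scheme.ΓSpecIso (.of R)).hom ≫ CommRingCat.ofHom (algebraMap R K) ≫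
          (Scheme.ΓSpecIso (.of K)).inv := by
        rw [e1, Iso.hom_inv_id_assoc]
      rw [e2]
      intro x y hxy
      have h3 : (Scheme.ΓSpecIso (.of K)).inv (algebraMap R K ((Scheme.ΓSpecIso (.of R)).hom x)) =
        (Scheme.ΓSpecIso (.of K)).inv (algebraMap R K ((Scheme.ΓSpecIso (.of R)).hom y)) := hxy
      have h4 := (ConcreteCategory.bijective_of_isIso (Scheme.ΓSpecIso (.of K)).inv).1 h3
      exact (ConcreteCategory.bijective_of_isIso (Scheme.ΓSpecIso (.of R)).hom).1 (hinj h4)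
    apply hinj'
    rw [map_mul, hja, hjb, map_one]
    exact pb_mul_inv _ f hf _ _ _
  have hu : IsUnit b := IsUnit.of_mul_eq_one_right a hab
  have hbo := Scheme.basicOpen_appLE l ⊤ (dom f⁻¹) hV2 (sec f⁻¹)
  have hbo' : (Spec (.of R)).basicOpen b = ⊤ := by
    simpa using Scheme.basicOpen_of_isUnit _ hu
  have hmem : closedPoint R ∈ (Spec (.of R)).basicOpen b := by
    rw [hbo']; trivial
  rw [hb, pb, hbo] at hmem
  have hmem2 : l (closedPoint R) ∈ X.basicOpen (sec f⁻¹) := hmem.2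
  have hmem3 := (Scheme.mem_basicOpen X (sec f⁻¹) _ hx).mp hmem2
  exact mem_dom_of_isUnit f _ hx hmem3

lemma cancel_Spec_map {R K : Type u} [CommRing R] [CommRing K] [Algebra R K]
    (hinj : Function.Injective (algebraMap R K)) {A : CommRingCat.{u}}
    (u v : Spec (.of R) ⟶ Spec A)
    (h : Spec.map (CommRingCat.ofHom (algebraMap R K)) ≫ u =
      Spec.map (CommRingCat.ofHom (algebraMap R K)) ≫ v) : u = v := by
  obtain ⟨u', rfl⟩ := Spec.map_surjective u
  obtain ⟨v', rfl⟩ := Spec.map_surjective v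
  rw [← Spec.map_comp, ← Spec.map_comp] at h
  have h2 := Spec.map_injective h
  congr 1
  ext a
  apply hinj
  have := congrArg (fun g => g.hom a) h2
  exact this

theorem phi_existence (hv : ∀ x : X, ValuationRing (X.presheaf.stalk x)) (f : X.functionField)
    (hf : f ≠ 0) [UniversallyClosed π] : ValuativeCriterion.Existence (phi π f) := by
  have hπ : ValuativeCriterion.Existence π := by
    have : (@UniversallyClosed) π := inferInstance
    rw [UniversallyClosed.eq_valuativeCriterion] at this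
    exact this.1
  intro S
  have hsq : CommSq (S.i₁ ≫ (dom f).ι) (Spec.map (CommRingCat.ofHom (algebraMap S.R S.K))) π
      (S.i₂ ≫ Spec.map (CommRingCat.ofHom (Polynomial.C : k →+* Polynomial k))) := ⟨by
    rw [Category.assoc, ← phi_comp, ← Category.assoc, S.commSq.w, Category.assoc]⟩
  obtain ⟨⟨l, hl1, hl2⟩⟩ := hπ { R := S.R, K := S.K, commSq := hsq, .. }
  have hmem := forall_mem_dom π hv f hf (IsFractionRing.injective S.R S.K) l S.i₁ S.i₂ hl1
    S.commSq.w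
  have hr : Set.range l ⊆ Set.range (dom f).ι := by
    rintro _ ⟨y, rfl⟩
    rw [Scheme.Opens.range_ι]
    exact hmem y
  have hfst : Spec.map (CommRingCat.ofHom (algebraMap S.R S.K)) ≫
      IsOpenImmersion.lift (dom f).ι l hr = S.i₁ := by
    rw [← cancel_mono (dom f).ι, Category.assoc, IsOpenImmersion.lift_fac, hl1]
  refine ⟨⟨IsOpenImmersion.lift (dom f).ι l hr, hfst, ?_⟩⟩
  apply cancel_Spec_map (IsFractionRing.injective S.R S.K)
  rw [← Category.assoc, hfst]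
  exact S.commSq.w

end Pool.Agent.MG.Two
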