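import Mathlib

universe u v

namespace Pool.Agent.MG.Two

open Polynomial

section
variable {k : Type u} {A : Type v} [Field k] [CommRing A] [IsDomain A] [Algebra k[X] A]
  [Algebra k A] [IsScalarTower k k[X] A] [Algebra.FiniteType k A] [Ring.DimensionLEOne A]

lemma eq_bot_of_comap_eq_bot (Q : Ideal A) [hQ : Q.IsPrime]
    (h : Q.comap (algebraMap k[X] A) = ⊥) : Q = ⊥ := by
  by_contra hne
  have hmax : Q.IsMaximal := Ring.DimensionLEOne.maximalOfPrime hne hQ
  let _ : Field (A ⧸ Q) := Ideal.Quotient.field Q
  have : Algebra.FiniteType k (A ⧸ Q) := inferInstance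
  have hfin : Module.Finite k (A ⧸ Q) := finite_of_finite_type_of_isJacobsonRing k (A ⧸ Q)
  set t : A ⧸ Q := Ideal.Quotient.mk Q (algebraMap k[X] A X) with ht
  have halg : IsAlgebraic k t := Algebra.IsAlgebraic.isAlgebraic t
  obtain ⟨p, hp, hpt⟩ := halg
  have h1 : aeval t p = Ideal.Quotient.mk Q (algebraMap k[X] A p) := by
    have h2 : (aeval t : k[X] →ₐ[k] A ⧸ Q) =
        (IsScalarTower.toAlgHom k A (A ⧸ Q)).comp (IsScalarTower.toAlgHom k k[X] A) := by
      apply Polynomial.algHom_ext
      simp [ht]
    rw [h2]; rfl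
  rw [h1, Ideal.Quotient.eq_zero_iff_mem] at hpt
  have : p ∈ Q.comap (algebraMap k[X] A) := hpt
  rw [h] at this
  exact hp this

lemma finite_primes_containing [IsNoetherianRing A] (a : A) (ha : a ≠ 0) :
    {Q : PrimeSpectrum A | a ∈ Q.asIdeal}.Finite := by
  have hfin := Ideal.finite_minimalPrimes_of_isNoetherianRing A (Ideal.span {a})
  refine (hfin.preimage (f := PrimeSpectrum.asIdeal) ?_).subset ?_
  · intro x _ y _ h
    exact PrimeSpectrum.ext h
  · intro Q hQ
    refine ⟨⟨Q.isPrime, by simpa [Ideal.span_le] using hQ⟩, ?_⟩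
    rintro Q' ⟨hQ', haQ'⟩ hle
    have hne : Q' ≠ ⊥ := by
      rintro rfl
      exact ha (by simpa using haQ' (Ideal.mem_span_singleton_self a))
    have := Ring.DimensionLEOne.maximalOfPrime hne hQ'
    exact (this.eq_of_le Q.isPrime.ne_top hle).ge

lemma quasiFinite_of_dimensionLEOne (hinj : Function.Injective (algebraMap k[X] A)) :
    Algebra.QuasiFinite k[X] A := by
  have hft : Algebra.FiniteType k[X] A := Algebra.FiniteType.of_restrictScalars_finiteType k _ _
  have : IsNoetherianRing A := Algebra.FiniteType.isNoetherianRing k A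
  rw [Algebra.QuasiFinite.iff_finite_comap_preimage_singleton]
  intro P
  by_cases hP : P.asIdeal = ⊥
  · refine (Set.finite_singleton (⊥ : PrimeSpectrum A)).subset ?_
    intro Q hQ
    have h1 : PrimeSpectrum.comap (algebraMap k[X] A) Q = P := hQ
    have h2 : Q.asIdeal.comap (algebraMap k[X] A) = ⊥ := by
      rw [← hP, ← h1]; rfl
    have h3 := eq_bot_of_comap_eq_bot (k := k) Q.asIdeal h2
    exact PrimeSpectrum.ext h3
  · obtain ⟨q, hq, hq0⟩ := Submodule.exists_mem_ne_zero_of_ne_bot hP
    refine (finite_primes_containing (algebraMap k[X] A q) ?_).subset ?_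
    · intro h
      exact hq0 (hinj (by rw [h, map_zero]))
    · intro Q hQ
      have h1 : PrimeSpectrum.comap (algebraMap k[X] A) Q = P := hQ
      have h2 : q ∈ Q.asIdeal.comap (algebraMap k[X] A) := by
        rw [← h1] at hq; exact hq
      exact h2

end

/-- A domain all of whose local rings are principal has dimension at most one. -/
lemma dimensionLEOne_of_localization (A : Type u) [CommRing A] [IsDomain A]
    (h : ∀ (p : Ideal A) [p.IsPrime], IsPrincipalIdealRing (Localization.AtPrime p)) :
    Ring.DimensionLEOne A := by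
  refine ⟨fun {P} hP hPp => ?_⟩
  obtain ⟨M, hM, hPM⟩ := P.exists_le_maximal hPp.ne_top
  have hMp : M.IsPrime := hM.isPrime
  have := h M
  have hdisj : Disjoint (M.primeCompl : Set A) (P : Set A) := by
    rw [Set.disjoint_left]
    intro x hx hx'
    exact hx (hPM hx')
  have hPp' : (P.map (algebraMap A (Localization.AtPrime M))).IsPrime :=
    IsLocalization.isPrime_of_isPrime_disjoint M.primeCompl _ P hPp hdisj
  have hcomap : (P.map (algebraMap A (Localization.AtPrime M))).comap
      (algebraMap A (Localization.AtPrime M)) = P :=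
    IsLocalization.under_map_of_isPrime_disjoint M.primeCompl _ hPp hdisj
  have hne : P.map (algebraMap A (Localization.AtPrime M)) ≠ ⊥ := by
    intro h0
    rw [h0] at hcomap
    have hinj : Function.Injective (algebraMap A (Localization.AtPrime M)) :=
      IsLocalization.injective _ M.primeCompl_le_nonZeroDivisors
    apply hP
    rw [← hcomap]
    exact (RingHom.injective_iff_ker_eq_bot _).mp hinj
  have hmax : (P.map (algebraMap A (Localization.AtPrime M))).IsMaximal :=
    IsPrime.to_maximal_ideal hne
  have := IsLocalRing.eq_maximalIdeal hmax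
  have h5 : (IsLocalRing.maximalIdeal (Localization.AtPrime M)).comap
      (algebraMap A (Localization.AtPrime M)) = M :=
    IsLocalization.AtPrime.under_maximalIdeal (Localization.AtPrime M) M
  rw [this, h5] at hcomap
  rwa [← hcomap]

end Pool.Agent.MG.Two
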