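import Pool.Agent.MG.GLUM

/-!
# GLU: over a field, every class is the class of a stable thickening
-/

open CategoryTheory CategoryTheory.Limits AlgebraicGeometry TensorProduct

namespace Pool.Agent.MG.GLU

section Red

variable {k E J : Type} [Field k] [CommRing E] [Algebra k E] [Fintype J] (S : SqE k E J)
  (hS : ∀ c, algebraMap k E c = S.i c) (R : Type) [CommRing R] [Algebra k R]

/-- Reduction as a homomorphism of rings. -/
noncomputable def rd0 : E ⊗[k] R →+* R := (red S hS R : E ⊗[k] R →+* R)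

theorem rd0_tmul (e : E) (r : R) : rd0 S hS R (e ⊗ₜ r) = S.p e • r := red_tmul S hS R e r

theorem rd0_closed : IsClosedImmersion (spMap (rd0 S hS R)) :=
  IsClosedImmersion.spec_of_surjective _ (red_surjective S hS R)

theorem rd0_surj : Function.Surjective (spMap (rd0 S hS R)) := by
  have hr : Function.Surjective (rd0 S hS R) := red_surjective S hS R
  change Function.Surjective (PrimeSpectrum.comap (rd0 S hS R))
  rw [← Set.range_eq_univ, range_comap_of_surjective _ _ hr,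
    PrimeSpectrum.zeroLocus_eq_univ_iff]
  intro a ha
  refine (mem_nilradical).2 ⟨2, ?_⟩
  rw [pow_two]
  exact red_nil S hS R a ha

theorem rd0_mE {R' : Type} [CommRing R'] [Algebra k R'] (j : R →ₐ[k] R') :
    (rd0 S hS R').comp (mE (E := E) j) = (j : R →+* R').comp (rd0 S hS R) := by
  refine RingHom.ext fun v => ?_
  refine tensor_ind (f := (rd0 S hS R').comp (mE (E := E) j))
    (g := (j : R →+* R').comp (rd0 S hS R)) ?_ ?_ v
  · intro e
    change rd0 S hS R' (mE j (e ⊗ₜ 1)) = j (rd0 S hS R (e ⊗ₜ 1))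
    rw [mE_tmul, rd0_tmul, rd0_tmul, map_one, map_smul, map_one]
  · intro r
    change rd0 S hS R' (mE j (1 ⊗ₜ r)) = j (rd0 S hS R (1 ⊗ₜ r))
    rw [mE_tmul, rd0_tmul, rd0_tmul, map_smul]

variable {R} in
/-- The twist as a homomorphism of rings. -/
noncomputable def tE (dd : Derivation k R R) (h : J → R) : E ⊗[k] R →+* E ⊗[k] R :=
  (tw S dd h : E ⊗[k] R →+* E ⊗[k] R)

variable {R}

theorem rd0_tE (dd : Derivation k R R) (h : J → R) :
    (rd0 S hS R).comp (tE S dd h) = rd0 S hS R :=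
  RingHom.ext fun v => red_tw S hS dd h v

theorem tE_iL (dd : Derivation k R R) (h : J → R) :
    (tE S dd h).comp (iL (k := k) E R) = iL (k := k) E R := by
  ext e
  exact tw_left S dd h e

instance tE_iso (dd : Derivation k R R) (h : J → R) : IsIso (spMap (tE S dd h)) := by
  have : IsIso (CommRingCat.ofHom (tE S dd h)) :=
    inferInstanceAs (IsIso (twE S dd h).toRingEquiv.toCommRingCatIso.hom)
  infer_instance

end Red

section Glue

variable {n : ℕ} {k : Type} [Field k] {T : TC k} {C : Fam n k} (ct : Charted T C) (ha : ct.Aff)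
  {E J : Type} [CommRing E] [Algebra k E] [Fintype J] (S : SqE k E J)
  (hS : ∀ c, algebraMap k E c = S.i c) (h : J → T.R12)

/-- The glued thickening. -/
structure Gl where
  /-- the scheme -/
  X : Scheme.{0}
  /-- first chart -/
  i1 : Sp (E ⊗[k] T.R1) ⟶ X
  /-- second chart -/
  i2 : Sp (E ⊗[k] T.R2) ⟶ X
  o1 : IsOpenImmersion i1
  o2 : IsOpenImmersion i2
  /-- projection -/
  π : X ⟶ Sp E
  h1 : i1 ≫ π = spMap (iL (k := k) E T.R1)
  h2 : i2 ≫ π = spMap (iL (k := k) E T.R2)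
  comm : spMap (mE (E := E) T.j1) ≫ i1 = spMap ((tE S T.dd h).comp (mE (E := E) T.j2)) ≫ i2
  cov : ∀ z, z ∈ Set.range i1 ∨ z ∈ Set.range i2
  int : ∀ x y, i1 x = i2 y → ∃ w, spMap (mE (E := E) T.j1) w = x ∧
    spMap ((tE S T.dd h).comp (mE (E := E) T.j2)) w = y

include ct ha in
theorem exists_gl : Nonempty (Gl S h) := by
  have o1 : IsOpenImmersion (spMap (mE (E := E) T.j1)) := open1 T.j1 (j1_open ct ha)
  have o2' : IsOpenImmersion (spMap (mE (E := E) T.j2)) := open1 T.j2 (j2_open ct ha)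
  have o2 : IsOpenImmersion (spMap ((tE S T.dd h).comp (mE (E := E) T.j2))) := by
    have : spMap ((tE S T.dd h).comp (mE (E := E) T.j2)) =
        spMap (tE S T.dd h) ≫ spMap (mE (E := E) T.j2) := by
      rw [← Spec.map_comp, ← CommRingCat.ofHom_comp]
    rw [this]
    infer_instance
  have e1 : (mE (E := E) T.j1).comp (iL (k := k) E T.R1) = iL (k := k) E T.R12 := by
    ext e
    change mE T.j1 (e ⊗ₜ[k] (1 : T.R1)) = e ⊗ₜ 1
    rw [mE_tmul, map_one]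
  have e2 : ((tE S T.dd h).comp (mE (E := E) T.j2)).comp (iL (k := k) E T.R2) =
      iL (k := k) E T.R12 := by
    rw [RingHom.comp_assoc]
    have : (mE (E := E) T.j2).comp (iL (k := k) E T.R2) = iL (k := k) E T.R12 := by
      ext e
      change mE T.j2 (e ⊗ₜ[k] (1 : T.R2)) = e ⊗ₜ 1
      rw [mE_tmul, map_one]
    rw [this, tE_iL]
  have hc : spMap (mE (E := E) T.j1) ≫ spMap (iL (k := k) E T.R1) =
      spMap ((tE S T.dd h).comp (mE (E := E) T.j2)) ≫ spMap (iL (k := k) E T.R2) := by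
    rw [← Spec.map_comp, ← Spec.map_comp, ← CommRingCat.ofHom_comp, ← CommRingCat.ofHom_comp, e1,
      e2]
  exact ⟨{
    X := pushout (spMap (mE (E := E) T.j1)) (spMap ((tE S T.dd h).comp (mE (E := E) T.j2)))
    i1 := pushout.inl _ _
    i2 := pushout.inr _ _
    o1 := inferInstance
    o2 := inferInstance
    π := pushout.desc _ _ hc
    h1 := pushout.inl_desc _ _ _
    h2 := pushout.inr_desc _ _ _
    comm := pushout.condition
    cov := glue2_surj _ _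
    int := glue2_eq _ _ }⟩

variable {S h} (G : Gl (T := T) S h)

theorem mm_comm : spMap (T.j1 : T.R1 →+* T.R12) ≫ (spMap (rd0 S hS T.R1) ≫ G.i1) =
    spMap (T.j2 : T.R2 →+* T.R12) ≫ (spMap (rd0 S hS T.R2) ≫ G.i2) := by
  have e1 : spMap (T.j1 : T.R1 →+* T.R12) ≫ spMap (rd0 S hS T.R1) =
      spMap (rd0 S hS T.R12) ≫ spMap (mE (E := E) T.j1) := by
    rw [← Spec.map_comp, ← Spec.map_comp, ← CommRingCat.ofHom_comp, ← CommRingCat.ofHom_comp,
      rd0_mE]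
  have e2 : spMap (T.j2 : T.R2 →+* T.R12) ≫ spMap (rd0 S hS T.R2) =
      spMap (rd0 S hS T.R12) ≫ spMap ((tE S T.dd h).comp (mE (E := E) T.j2)) := by
    rw [← Spec.map_comp, ← Spec.map_comp, ← CommRingCat.ofHom_comp, ← CommRingCat.ofHom_comp,
      ← RingHom.comp_assoc, rd0_tE, rd0_mE]
  rw [← Category.assoc, e1, ← Category.assoc, e2, Category.assoc, Category.assoc, G.comm]

/-- The closed immersion of `C`. -/
noncomputable def mm : C.X ⟶ G.X :=
  (w_push ct ha).desc (spMap (rd0 S hS T.R1) ≫ G.i1) (spMap (rd0 S hS T.R2) ≫ G.i2)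
    (mm_comm hS G)

theorem w1_mm : w1 ct ha ≫ mm ct ha hS G = spMap (rd0 S hS T.R1) ≫ G.i1 :=
  (w_push ct ha).inl_desc _ _ _

theorem w2_mm : w2 ct ha ≫ mm ct ha hS G = spMap (rd0 S hS T.R2) ≫ G.i2 :=
  (w_push ct ha).inr_desc _ _ _

theorem pre1 (y : Sp T.R2) (hy : G.i2 (spMap (rd0 S hS T.R2) y) ∈ Set.range G.i1) :
    ∃ w, spMap (T.j2 : T.R2 →+* T.R12) w = y := by
  obtain ⟨x, hx⟩ := hy
  obtain ⟨w, -, hw⟩ := G.int x _ hx
  obtain ⟨w0, rfl⟩ := rd0_surj S hS T.R12 w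
  refine ⟨w0, ?_⟩
  have := rd0_closed S hS T.R2
  apply (spMap (rd0 S hS T.R2)).isClosedEmbedding.injective
  rw [← hw, ← Scheme.Hom.comp_apply, ← Scheme.Hom.comp_apply]
  congr 1
  rw [← Spec.map_comp, ← Spec.map_comp, ← CommRingCat.ofHom_comp, ← CommRingCat.ofHom_comp,
    ← RingHom.comp_assoc, rd0_tE, rd0_mE]

theorem pre2 (x : Sp T.R1) (hx : G.i1 (spMap (rd0 S hS T.R1) x) ∈ Set.range G.i2) :
    ∃ w, spMap (T.j1 : T.R1 →+* T.R12) w = x := by
  obtain ⟨y, hy⟩ := hx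
  obtain ⟨w, hw, -⟩ := G.int _ y hy.symm
  obtain ⟨w0, rfl⟩ := rd0_surj S hS T.R12 w
  refine ⟨w0, ?_⟩
  have := rd0_closed S hS T.R1
  apply (spMap (rd0 S hS T.R1)).isClosedEmbedding.injective
  rw [← hw, ← Scheme.Hom.comp_apply, ← Scheme.Hom.comp_apply]
  congr 1
  rw [← Spec.map_comp, ← Spec.map_comp, ← CommRingCat.ofHom_comp, ← CommRingCat.ofHom_comp,
    rd0_mE]

theorem mm_cart : IsPullback (mm ct ha hS G) C.π G.π (spMap S.p) := by
  have := G.o1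
  have := G.o2
  have q1 : IsPullback (spMap (rd0 S hS T.R1)) (spMap (algebraMap k T.R1))
      (spMap (iL (k := k) E T.R1)) (spMap S.p) :=
    (isPullback_SpecMap_of_isPushout _ _ _ _ (push2 S hS T.R1)).flip
  have q2 : IsPullback (spMap (rd0 S hS T.R2)) (spMap (algebraMap k T.R2))
      (spMap (iL (k := k) E T.R2)) (spMap S.p) :=
    (isPullback_SpecMap_of_isPushout _ _ _ _ (push2 S hS T.R2)).flip
  refine cart_two (i := G.i1) (j := G.i2) (i' := w1 ct ha) (j' := w2 ct ha)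
    (hX := spMap (rd0 S hS T.R1)) (hY := spMap (rd0 S hS T.R2)) (w1_mm ct ha hS G)
    (w2_mm ct ha hS G) G.cov (w_cov ct ha) ?_ ?_ ?_ ?_ ?_
  · intro y hy
    obtain ⟨w, rfl⟩ := pre1 hS G y hy
    refine ⟨spMap (T.j1 : T.R1 →+* T.R12) w, ?_⟩
    rw [← Scheme.Hom.comp_apply, ← w12_1, w12_2, Scheme.Hom.comp_apply]
  · intro x hx
    obtain ⟨w, rfl⟩ := pre2 hS G x hx
    refine ⟨spMap (T.j2 : T.R2 →+* T.R12) w, ?_⟩
    rw [← Scheme.Hom.comp_apply, ← w12_2, w12_1, Scheme.Hom.comp_apply]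
  · rw [w1_π, G.h1]
    exact q1
  · rw [w2_π, G.h2]
    exact q2
  · apply (w_push ct ha).hom_ext
    · rw [← Category.assoc, w1_mm, Category.assoc, G.h1, ← Category.assoc, w1_π]
      exact q1.w
    · rw [← Category.assoc, w2_mm, Category.assoc, G.h2, ← Category.assoc, w2_π]
      exact q2.w

include ct ha in
theorem π_loc (P : MorphismProperty Scheme.{0}) [IsZariskiLocalAtSource P]
    [P.IsStableUnderBaseChange] (hP : P C.π) : P G.π := by
  have := G.o1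
  have := G.o2
  have p1 : P (spMap (algebraMap k T.R1)) := by
    rw [← w1_π ct ha]
    exact IsZariskiLocalAtSource.comp hP _
  have p2 : P (spMap (algebraMap k T.R2)) := by
    rw [← w2_π ct ha]
    exact IsZariskiLocalAtSource.comp hP _
  refine two_source P G.i1 G.i2 G.cov G.π ?_ ?_
  · rw [G.h1]
    exact MorphismProperty.of_isPullback
      (isPullback_SpecMap_of_isPushout _ _ _ _ (push0 (E := E) T.R1)).flip p1
  · rw [G.h2]
    exact MorphismProperty.of_isPullback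
      (isPullback_SpecMap_of_isPushout _ _ _ _ (push0 (E := E) T.R2)).flip p2

/-- Evaluation on the thickening. -/
noncomputable def lam {R : Type} [CommRing R] [Algebra k R] (φ : R →ₐ[k] E) : E ⊗[k] R →+* E :=
  (Algebra.TensorProduct.lift (AlgHom.id k E) φ (fun _ _ => Commute.all _ _) : E ⊗[k] R →ₐ[k] E)

theorem lam_tmul {R : Type} [CommRing R] [Algebra k R] (φ : R →ₐ[k] E) (e : E) (r : R) :
    lam φ (e ⊗ₜ r) = e * φ r := by
  unfold lam
  simp

theorem lam_iL {R : Type} [CommRing R] [Algebra k R] (φ : R →ₐ[k] E) :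
    (lam φ).comp (iL (k := k) E R) = RingHom.id E := by
  ext e
  change lam φ (e ⊗ₜ 1) = e
  rw [lam_tmul, map_one, mul_one]

theorem p_lam {R : Type} [CommRing R] [Algebra k R] (φ' : R →ₐ[k] E) (φ : R →ₐ[k] k)
    (hφ : ∀ a, S.p (φ' a) = φ a) : S.p.comp (lam φ') = (φ : R →+* k).comp (rd0 S hS R) := by
  refine RingHom.ext fun v => ?_
  refine tensor_ind (f := S.p.comp (lam φ')) (g := (φ : R →+* k).comp (rd0 S hS R)) ?_ ?_ v
  · intro e
    change S.p (lam φ' (e ⊗ₜ 1)) = φ (rd0 S hS R (e ⊗ₜ 1))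
    rw [lam_tmul, rd0_tmul, map_one, mul_one, map_smul, map_one, smul_eq_mul, mul_one]
  · intro r
    change S.p (lam φ' (1 ⊗ₜ r)) = φ (rd0 S hS R (1 ⊗ₜ r))
    rw [lam_tmul, rd0_tmul, one_mul, hφ, map_one, one_smul]

/-- The sections of the thickening. -/
structure SecL (sp : Pt T k) (d : J → k) (τ : Sp E ⟶ G.X) (σ : Sp k ⟶ C.X) : Prop where
  sec : τ ≫ G.π = 𝟙 _
  res : σ ≫ mm ct ha hS G = spMap S.p ≫ τ
  one : ∀ φ, sp = .one φ → ∃ φ' : T.R1 →ₐ[k] E, τ = spMap (lam φ') ≫ G.i1 ∧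
    φ' T.x = S.i (φ T.x) + ∑ j, S.ε j * S.i (d j)
  two : ∀ φ, sp = .two φ → ∃ φ' : T.R2 →ₐ[k] E, τ = spMap (lam φ') ≫ G.i2 ∧
    φ' T.y = S.i (φ T.y) + ∑ j, S.ε j * S.i (d j)

theorem p_val (c : k) (d : J → k) : S.p (S.i c + ∑ j, S.ε j * S.i (d j)) = c := by
  rw [map_add, map_sum, S.pi, Finset.sum_eq_zero, add_zero]
  intro j _
  rw [map_mul, S.pe, zero_mul]

theorem exists_sec (sp : Pt T k) (d : J → k) (σ : Sp k ⟶ C.X) (hσ : ct.Is σ sp) :
    ∃ τ, SecL ct ha hS G sp d τ σ := by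
  cases sp with
  | one φ =>
    obtain ⟨φ', h1, h2⟩ := lift_pt S hS T.x T.etx φ _ (p_val (S := S) (φ T.x) d)
    refine ⟨spMap (lam φ') ≫ G.i1, ?_, ?_, ?_, ?_⟩
    · rw [Category.assoc, G.h1, ← Spec.map_comp, ← CommRingCat.ofHom_comp, lam_iL]
      exact Spec.map_id _
    · rw [sec1 ct ha σ φ hσ, Category.assoc, w1_mm, ← Category.assoc, ← Category.assoc,
        ← Spec.map_comp, ← Spec.map_comp, ← CommRingCat.ofHom_comp, ← CommRingCat.ofHom_comp,
        p_lam hS φ' φ h1]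
    · intro ψ hψ
      have : φ = ψ := by
        injection hψ
      subst this
      exact ⟨φ', rfl, h2⟩
    · intro ψ hψ
      exact absurd hψ (by simp)
  | two φ =>
    obtain ⟨φ', h1, h2⟩ := lift_pt S hS T.y T.ety φ _ (p_val (S := S) (φ T.y) d)
    refine ⟨spMap (lam φ') ≫ G.i2, ?_, ?_, ?_, ?_⟩
    · rw [Category.assoc, G.h2, ← Spec.map_comp, ← CommRingCat.ofHom_comp, lam_iL]
      exact Spec.map_id _
    · rw [sec2 ct ha σ φ hσ, Category.assoc, w2_mm, ← Category.assoc, ← Category.assoc,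
        ← Spec.map_comp, ← Spec.map_comp, ← CommRingCat.ofHom_comp, ← CommRingCat.ofHom_comp,
        p_lam hS φ' φ h1]
    · intro ψ hψ
      exact absurd hψ (by simp)
    · intro ψ hψ
      have : φ = ψ := by
        injection hψ
      subst this
      exact ⟨φ', rfl, h2⟩

end Glue

section Fit

variable {n : ℕ} {k : Type} [Field k] {T : TC k} {C : Fam n k} (ct : Charted T C) (ha : ct.Aff)
  {E J : Type} [CommRing E] [Algebra k E] [Fintype J] {S : SqE k E J}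
  (hS : ∀ c, algebraMap k E c = S.i c)

theorem le_range {A : Type} [CommRing A] {X : Scheme.{0}} (i : Sp A ⟶ X) [IsOpenImmersion i]
    {W : X.Opens} (hW : i.opensRange = W) : ⊤ ≤ i ⁻¹ᵁ W := by
  intro a _
  have : i a ∈ i.opensRange := ⟨a, rfl⟩
  rw [hW] at this
  exact this

theorem good_of (t : Thk S C) (U : C.X.Opens) {R : Type} [CommRing R] [Algebra k R]
    (i : Sp (E ⊗[k] R) ⟶ t.y.X) [IsOpenImmersion i] (hi : i.opensRange = t.op U)
    (w : Sp R ⟶ C.X) [IsOpenImmersion w] (hw : w.opensRange = U)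
    (c1 : w ≫ t.r.f = spMap (rd0 S hS R) ≫ i) (c2 : i ≫ t.y.π = spMap (iL (k := k) E R)) :
    Good t U := by
  have key : ∀ v, gm w U (le_range w hw) (t.q U v) = rd0 S hS R (gm i (t.op U) (le_range i hi) v) :=
    fun v => gm_nat t.r.f i w (rd0 S hS R) c1 (t.op U) U (le_range i hi) (le_range w hw)
      (t.pre U).ge v
  have bi := gm_bij i (t.op U) (le_range i hi) hi
  have bw := gm_bij w U (le_range w hw) hw
  have hc : ∀ e, gm i (t.op U) (le_range i hi) (coef t.y.π (t.op U) e) = e ⊗ₜ 1 := fun e =>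
    gm_coef i t.y.π (iL (k := k) E R) c2 (t.op U) (le_range i hi) e
  refine ⟨?_, ?_, ?_⟩
  · intro u
    obtain ⟨v, hv⟩ := bi.2 (1 ⊗ₜ gm w U (le_range w hw) u)
    refine ⟨v, bw.1 ?_⟩
    rw [key, hv, rd0_tmul, map_one, one_smul]
  · intro v hv
    have h1 : rd0 S hS R (gm i (t.op U) (le_range i hi) v) = 0 := by
      rw [← key, hv, map_zero]
    obtain ⟨w', hw'⟩ := red_ker S hS R _ h1
    choose u hu using fun j => bi.2 (w' j)
    refine ⟨u, bi.1 ?_⟩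
    rw [hw', map_sum]
    refine Finset.sum_congr rfl fun j _ => ?_
    rw [map_mul, hc, hu]
  · intro u hu j
    have h1 := congrArg (gm i (t.op U) (le_range i hi)) hu
    rw [map_zero, map_sum] at h1
    have h2 : ∑ j, (S.ε j ⊗ₜ[k] (1 : R)) * gm i (t.op U) (le_range i hi) (u j) = 0 := by
      rw [← h1]
      refine Finset.sum_congr rfl fun j _ => ?_
      rw [map_mul, hc]
    have h3 := red_un S hS R _ h2 j
    apply bw.1
    rw [key, map_zero]
    exact h3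

variable (h : J → T.R12) (t : Thk S C) (i1 : Sp (E ⊗[k] T.R1) ⟶ t.y.X)
  (i2 : Sp (E ⊗[k] T.R2) ⟶ t.y.X)

/-- The thickening is glued from two charts. -/
structure Fits : Prop where
  o1 : IsOpenImmersion i1
  o2 : IsOpenImmersion i2
  r1 : i1.opensRange = t.op ct.U1
  r2 : i2.opensRange = t.op ct.U2
  o12 : IsOpenImmersion (spMap (mE (E := E) T.j1) ≫ i1)
  r12 : (spMap (mE (E := E) T.j1) ≫ i1).opensRange = t.op (ct.U1 ⊓ ct.U2)
  comm : spMap (mE (E := E) T.j1) ≫ i1 = spMap ((tE S T.dd h).comp (mE (E := E) T.j2)) ≫ i2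
  c1 : w1 ct ha ≫ t.r.f = spMap (rd0 S hS T.R1) ≫ i1
  c2 : w2 ct ha ≫ t.r.f = spMap (rd0 S hS T.R2) ≫ i2
  p1 : i1 ≫ t.y.π = spMap (iL (k := k) E T.R1)
  p2 : i2 ≫ t.y.π = spMap (iL (k := k) E T.R2)

variable {h t i1 i2} {ct ha hS} (F : Fits ct ha hS h t i1 i2)

include F in
theorem Fits.c12 : w12 ct ha ≫ t.r.f =
    spMap (rd0 S hS T.R12) ≫ spMap (mE (E := E) T.j1) ≫ i1 := by
  rw [w12_1, Category.assoc, F.c1, ← Category.assoc, ← Category.assoc, ← Spec.map_comp,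
    ← Spec.map_comp, ← CommRingCat.ofHom_comp, ← CommRingCat.ofHom_comp, rd0_mE]

include F in
theorem Fits.p12 : (spMap (mE (E := E) T.j1) ≫ i1) ≫ t.y.π = spMap (iL (k := k) E T.R12) := by
  rw [Category.assoc, F.p1, ← Spec.map_comp, ← CommRingCat.ofHom_comp]
  congr 2
  refine RingHom.ext fun e => ?_
  change mE T.j1 (e ⊗ₜ[k] (1 : T.R1)) = e ⊗ₜ 1
  rw [mE_tmul, map_one]

include F in
theorem Fits.good3 : Good3 ct t := by
  have := F.o1
  have := F.o2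
  have := F.o12
  exact ⟨good_of hS t _ i1 F.r1 (w1 ct ha) (ww_range _ _) F.c1 F.p1,
    good_of hS t _ i2 F.r2 (w2 ct ha) (ww_range _ _) F.c2 F.p2,
    good_of hS t _ (spMap (mE (E := E) T.j1) ≫ i1) F.r12 (w12 ct ha) (ww_range _ _) F.c12 F.p12⟩

include F in
theorem ks_of (s : Fin n → Pt T k) (hs : ∀ i, ct.Is (C.σ i) (s i)) (δ : J → Fin n → k)
    (hh : J → k ⊗[k] T.R12) (hhh : ∀ j, h j = -(Algebra.TensorProduct.lid k T.R12 (hh j)))
    (s1 : ∀ i φ, s i = .one φ → ∃ φ' : T.R1 →ₐ[k] E, t.y.σ i = spMap (lam φ') ≫ i1 ∧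
      φ' T.x = S.i (φ T.x) + ∑ j, S.ε j * S.i (δ j i))
    (s2 : ∀ i φ, s i = .two φ → ∃ φ' : T.R2 →ₐ[k] E, t.y.σ i = spMap (lam φ') ≫ i2 ∧
      φ' T.y = S.i (φ T.y) + ∑ j, S.ε j * S.i (δ j i)) : KS ct t s hs hh δ := by
  have := F.o1
  have := F.o2
  have := F.o12
  have H := F.good3
  let i12 := spMap (mE (E := E) T.j1) ≫ i1
  let γ1 : Γ(t.y.X, t.op ct.U1) ≃+* E ⊗[k] T.R1 :=
    RingEquiv.ofBijective (gm i1 _ (le_range i1 F.r1)) (gm_bij i1 _ _ F.r1)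
  let γ2 : Γ(t.y.X, t.op ct.U2) ≃+* E ⊗[k] T.R2 :=
    RingEquiv.ofBijective (gm i2 _ (le_range i2 F.r2)) (gm_bij i2 _ _ F.r2)
  let γ12 : Γ(t.y.X, t.op (ct.U1 ⊓ ct.U2)) ≃+* E ⊗[k] T.R12 :=
    RingEquiv.ofBijective (gm i12 _ (le_range i12 F.r12)) (gm_bij i12 _ _ F.r12)
  have q1 : ∀ v, (rd ct t H).q1 v = 1 ⊗ₜ rd0 S hS T.R1 (γ1 v) := by
    intro v
    change ct.eq1.symm (t.q ct.U1 v) = _
    rw [ee1_eq, ← ww_gm ha.aff1 (ee1 ct) (ww_le _ _)]
    congr 1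
    exact gm_nat t.r.f i1 (w1 ct ha) (rd0 S hS T.R1) F.c1 _ _ _ _ (t.pre ct.U1).ge v
  have q2 : ∀ v, (rd ct t H).q2 v = 1 ⊗ₜ rd0 S hS T.R2 (γ2 v) := by
    intro v
    change ct.eq2.symm (t.q ct.U2 v) = _
    rw [ee2_eq, ← ww_gm ha.aff2 (ee2 ct) (ww_le _ _)]
    congr 1
    exact gm_nat t.r.f i2 (w2 ct ha) (rd0 S hS T.R2) F.c2 _ _ _ _ (t.pre ct.U2).ge v
  have q12 : ∀ v, (rd ct t H).q12 v = 1 ⊗ₜ rd0 S hS T.R12 (γ12 v) := by
    intro v
    change ct.eq12.symm (t.q _ v) = _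
    rw [ee12_eq, ← ww_gm ha.aff12 (ee12 ct) (ww_le _ _)]
    congr 1
    exact gm_nat t.r.f i12 (w12 ct ha) (rd0 S hS T.R12) F.c12 _ _ _ _ (t.pre _).ge v
  have a1 : ∀ e, γ1 ((rd ct t H).a1 e) = e ⊗ₜ 1 := fun e =>
    gm_coef i1 t.y.π (iL (k := k) E T.R1) F.p1 _ _ e
  have a2 : ∀ e, γ2 ((rd ct t H).a2 e) = e ⊗ₜ 1 := fun e =>
    gm_coef i2 t.y.π (iL (k := k) E T.R2) F.p2 _ _ e
  have a12 : ∀ e, γ12 ((rd ct t H).a12 e) = e ⊗ₜ 1 := fun e =>
    gm_coef i12 t.y.π (iL (k := k) E T.R12) F.p12 _ _ e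
  have f1 : ∀ v, γ12 ((rd ct t H).f1 v) = mE T.j1 (γ1 v) := fun v =>
    gm_rs i1 (mE (E := E) T.j1) i12 rfl (t.op_mono inf_le_left) _ _ v
  have f2 : ∀ v, γ12 ((rd ct t H).f2 v) = tE S T.dd h (mE T.j2 (γ2 v)) := fun v =>
    gm_rs i2 ((tE S T.dd h).comp (mE (E := E) T.j2)) i12 F.comm (t.op_mono inf_le_right) _ _ v
  refine ⟨H, ⟨{
    θ1 := (γ1.symm : E ⊗[k] T.R1 →+* Γ(t.y.X, t.op ct.U1)).comp (iR (k := k) E T.R1)
    θ2 := (γ2.symm : E ⊗[k] T.R2 →+* Γ(t.y.X, t.op ct.U2)).comp (iR (k := k) E T.R2)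
    k1 := ?_
    k2 := ?_
    l1 := ?_
    l2 := ?_
    t1 := (γ12.symm : E ⊗[k] T.R12 →+* Γ(t.y.X, t.op (ct.U1 ⊓ ct.U2))).comp (iR (k := k) E T.R12)
    t2 := (γ12.symm : E ⊗[k] T.R12 →+* Γ(t.y.X, t.op (ct.U1 ⊓ ct.U2))).comp ((tE S T.dd h).comp (iR (k := k) E T.R12))
    e1 := ?_
    e2 := ?_
    lt1 := ?_
    lt2 := ?_
    diff := ?_
    dl := ?_ }⟩⟩
  · intro c
    apply γ1.injective
    rw [a1]
    change γ1 (γ1.symm (1 ⊗ₜ algebraMap k T.R1 c)) = _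
    rw [γ1.apply_symm_apply, ← hS, Algebra.algebraMap_eq_smul_one, TensorProduct.tmul_smul,
      TensorProduct.smul_tmul']
    simp [Algebra.algebraMap_eq_smul_one]
  · intro c
    apply γ2.injective
    rw [a2]
    change γ2 (γ2.symm (1 ⊗ₜ algebraMap k T.R2 c)) = _
    rw [γ2.apply_symm_apply, ← hS, Algebra.algebraMap_eq_smul_one, TensorProduct.tmul_smul,
      TensorProduct.smul_tmul']
    simp [Algebra.algebraMap_eq_smul_one]
  · intro a
    rw [q1]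
    change 1 ⊗ₜ rd0 S hS T.R1 (γ1 (γ1.symm (1 ⊗ₜ a))) = _
    rw [γ1.apply_symm_apply, rd0_tmul, map_one, one_smul]
  · intro a
    rw [q2]
    change 1 ⊗ₜ rd0 S hS T.R2 (γ2 (γ2.symm (1 ⊗ₜ a))) = _
    rw [γ2.apply_symm_apply, rd0_tmul, map_one, one_smul]
  · intro a
    apply γ12.injective
    rw [f1]
    change γ12 (γ12.symm (1 ⊗ₜ T.j1 a)) = mE T.j1 (γ1 (γ1.symm (1 ⊗ₜ a)))
    rw [γ12.apply_symm_apply, γ1.apply_symm_apply, mE_tmul]
  · intro a
    apply γ12.injective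
    rw [f2]
    change γ12 (γ12.symm (tE S T.dd h (1 ⊗ₜ T.j2 a))) =
      tE S T.dd h (mE T.j2 (γ2 (γ2.symm (1 ⊗ₜ a))))
    rw [γ12.apply_symm_apply, γ2.apply_symm_apply, mE_tmul]
  · intro a
    rw [q12]
    change 1 ⊗ₜ rd0 S hS T.R12 (γ12 (γ12.symm (1 ⊗ₜ a))) = _
    rw [γ12.apply_symm_apply, rd0_tmul, map_one, one_smul]
  · intro a
    rw [q12]
    change 1 ⊗ₜ rd0 S hS T.R12 (γ12 (γ12.symm (tE S T.dd h (1 ⊗ₜ a)))) = _
    rw [γ12.apply_symm_apply]
    have : rd0 S hS T.R12 (tE S T.dd h (1 ⊗ₜ a)) = rd0 S hS T.R12 (1 ⊗ₜ a) :=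
      DFunLike.congr_fun (rd0_tE S hS T.dd h) _
    rw [this, rd0_tmul, map_one, one_smul]
  · intro a
    refine ⟨fun j => γ12.symm (1 ⊗ₜ (Algebra.TensorProduct.lid k T.R12 (hh j) * T.dd a)), ?_, ?_⟩
    · intro j
      rw [q12, γ12.apply_symm_apply, rd0_tmul, map_one, one_smul]
      conv_rhs => rw [one_lid (hh j)]
      simp
    · have key : (γ12.symm (1 ⊗ₜ a) : Γ(t.y.X, t.op (ct.U1 ⊓ ct.U2))) =
          γ12.symm (tE S T.dd h (1 ⊗ₜ a)) +
            ∑ j, coef t.y.π (t.op (ct.U1 ⊓ ct.U2)) (S.ε j) *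
              γ12.symm (1 ⊗ₜ (Algebra.TensorProduct.lid k T.R12 (hh j) * T.dd a)) := by
        apply γ12.injective
        rw [map_add, map_sum, γ12.apply_symm_apply, γ12.apply_symm_apply]
        have h1 : tE S T.dd h (1 ⊗ₜ a) = 1 ⊗ₜ a + ∑ j, (S.ε j) ⊗ₜ[k] (h j * T.dd a) :=
          tw_right S T.dd h a
        rw [h1, add_assoc, ← Finset.sum_add_distrib, Finset.sum_eq_zero, add_zero]
        intro j _
        have h2 : γ12 (coef t.y.π (t.op (ct.U1 ⊓ ct.U2)) (S.ε j)) = (S.ε j) ⊗ₜ 1 := a12 (S.ε j)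
        rw [map_mul, h2, γ12.apply_symm_apply, Algebra.TensorProduct.tmul_mul_tmul, mul_one,
          one_mul, ← TensorProduct.tmul_add, hhh, neg_mul, neg_add_cancel, TensorProduct.tmul_zero]
      exact key
  · intro i
    have D1 : ∀ (sp : Pt T k) (hsp : ct.Is (C.σ i) sp)
        (_ : ∀ φ, sp = .one φ → ∃ φ' : T.R1 →ₐ[k] E, t.y.σ i = spMap (lam φ') ≫ i1 ∧
          φ' T.x = S.i (φ T.x) + ∑ j, S.ε j * S.i (δ j i))
        (_ : ∀ φ, sp = .two φ → ∃ φ' : T.R2 →ₐ[k] E, t.y.σ i = spMap (lam φ') ≫ i2 ∧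
          φ' T.y = S.i (φ T.y) + ∑ j, S.ε j * S.i (δ j i)),
        (rd ct t H).Dlt (γ1.symm (1 ⊗ₜ T.x)) (γ2.symm (1 ⊗ₜ T.y)) sp (rsec ct t H i sp hsp)
          (fun j => δ j i) := by
      intro sp hsp h1 h2
      cases sp with
      | one φ =>
        obtain ⟨φ', hτ, hx⟩ := h1 φ rfl
        change t.ev i hsp.1 (γ1.symm (1 ⊗ₜ T.x)) = _
        have h3 : t.ev i hsp.1 (γ1.symm (1 ⊗ₜ T.x)) = lam φ' (γ1 (γ1.symm (1 ⊗ₜ T.x))) :=
          gm_comp i1 (lam φ') (t.y.σ i) hτ _ _ _ _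
        rw [h3, γ1.apply_symm_apply, lam_tmul, one_mul, hx]
      | two φ =>
        obtain ⟨φ', hτ, hx⟩ := h2 φ rfl
        change t.ev i hsp.1 (γ2.symm (1 ⊗ₜ T.y)) = _
        have h3 : t.ev i hsp.1 (γ2.symm (1 ⊗ₜ T.y)) = lam φ' (γ2 (γ2.symm (1 ⊗ₜ T.y))) :=
          gm_comp i2 (lam φ') (t.y.σ i) hτ _ _ _ _
        rw [h3, γ2.apply_symm_apply, lam_tmul, one_mul, hx]
    exact D1 (s i) (hs i) (s1 i) (s2 i)

end Fit

theorem main {n : ℕ} {k : Type} [Field k] {T : TC k} {C : Fam n k} (g : ℕ) (hC : IsStable g C)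
    (ct : Charted T C) (ha : ct.Aff) (s : Fin n → Pt T k) (hs : ∀ i, ct.Is (C.σ i) (s i))
    {E J : Type} [CommRing E] [Algebra k E] [Fintype J] (S : SqE k E J)
    (hS : ∀ c, algebraMap k E c = S.i c) (hh : J → k ⊗[k] T.R12)
    (δ : J → Fin n → k) : ∃ t : Thk S C, IsStable g t.y ∧ KS ct t s hs hh δ := by
  let h : J → T.R12 := fun j => -(Algebra.TensorProduct.lid k T.R12 (hh j))
  obtain ⟨G⟩ := exists_gl (E := E) (J := J) ct ha S h
  have := G.o1
  have := G.o2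
  choose τ hτ using fun i => exists_sec ct ha hS G (s i) (fun j => δ j i) (C.σ i) (hs i)
  have hflat : Flat G.π := π_loc ct ha G (@Flat) hC.flat
  have hfp : LocallyOfFinitePresentation G.π :=
    π_loc ct ha G (@LocallyOfFinitePresentation) hC.fp
  let t : Thk S C :=
    { y := ⟨G.X, G.π, τ, fun i => (hτ i).sec⟩
      flat := hflat
      r := ⟨mm ct ha hS G, mm_cart ct ha hS G, fun i => (hτ i).res⟩ }
  have r1 : G.i1.opensRange = t.op ct.U1 := by
    refine t.pre_inj ?_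
    rw [t.pre]
    ext z
    constructor
    · intro hz
      have hz' : mm ct ha hS G z ∈ Set.range G.i1 := hz
      rcases w_cov ct ha z with ⟨a, rfl⟩ | ⟨b, rfl⟩
      · exact ww_le ha.aff1 (ee1 ct) (show a ∈ ⊤ by trivial)
      · rw [← Scheme.Hom.comp_apply, w2_mm, Scheme.Hom.comp_apply] at hz'
        obtain ⟨w, rfl⟩ := pre1 hS G b hz'
        have h1 : w12 ct ha w ∈ ct.U1 ⊓ ct.U2 :=
          ww_le ha.aff12 (ee12 ct) (show w ∈ ⊤ by trivial)
        rw [w12_2, Scheme.Hom.comp_apply] at h1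
        exact h1.1
    · intro hz
      have h1 : z ∈ (w1 ct ha).opensRange := by
        rw [ww_range]
        exact hz
      obtain ⟨a, rfl⟩ := h1
      change mm ct ha hS G (w1 ct ha a) ∈ Set.range G.i1
      rw [← Scheme.Hom.comp_apply, w1_mm, Scheme.Hom.comp_apply]
      exact ⟨_, rfl⟩
  have r2 : G.i2.opensRange = t.op ct.U2 := by
    refine t.pre_inj ?_
    rw [t.pre]
    ext z
    constructor
    · intro hz
      have hz' : mm ct ha hS G z ∈ Set.range G.i2 := hz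
      rcases w_cov ct ha z with ⟨a, rfl⟩ | ⟨b, rfl⟩
      · rw [← Scheme.Hom.comp_apply, w1_mm, Scheme.Hom.comp_apply] at hz'
        obtain ⟨w, rfl⟩ := pre2 hS G a hz'
        have h1 : w12 ct ha w ∈ ct.U1 ⊓ ct.U2 :=
          ww_le ha.aff12 (ee12 ct) (show w ∈ ⊤ by trivial)
        rw [w12_1, Scheme.Hom.comp_apply] at h1
        exact h1.2
      · exact ww_le ha.aff2 (ee2 ct) (show b ∈ ⊤ by trivial)
    · intro hz
      have h1 : z ∈ (w2 ct ha).opensRange := by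
        rw [ww_range]
        exact hz
      obtain ⟨a, rfl⟩ := h1
      change mm ct ha hS G (w2 ct ha a) ∈ Set.range G.i2
      rw [← Scheme.Hom.comp_apply, w2_mm, Scheme.Hom.comp_apply]
      exact ⟨_, rfl⟩
  have o1' : IsOpenImmersion (spMap (mE (E := E) T.j1)) := open1 T.j1 (j1_open ct ha)
  have o12 : IsOpenImmersion (spMap (mE (E := E) T.j1) ≫ G.i1) := inferInstance
  have r12 : (spMap (mE (E := E) T.j1) ≫ G.i1).opensRange = t.op (ct.U1 ⊓ ct.U2) := by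
    rw [t.op_inf, ← r1, ← r2]
    ext z
    constructor
    · rintro ⟨w, rfl⟩
      refine ⟨?_, ?_⟩
      · exact ⟨spMap (mE (E := E) T.j1) w, by rw [Scheme.Hom.comp_apply]⟩
      · refine ⟨spMap ((tE S T.dd h).comp (mE (E := E) T.j2)) w, ?_⟩
        rw [← Scheme.Hom.comp_apply, ← G.comm]
    · rintro ⟨⟨a, rfl⟩, ⟨b, hb⟩⟩
      obtain ⟨w, hw, -⟩ := G.int a b hb.symm
      refine ⟨w, ?_⟩
      rw [Scheme.Hom.comp_apply, hw]
  have F : Fits ct ha hS h t G.i1 G.i2 :=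
    { o1 := G.o1
      o2 := G.o2
      r1 := r1
      r2 := r2
      o12 := o12
      r12 := r12
      comm := G.comm
      c1 := w1_mm ct ha hS G
      c2 := w2_mm ct ha hS G
      p1 := G.h1
      p2 := G.h2 }
  exact ⟨t, stable_thk t hC hfp, ks_of F s hs δ hh (fun _ => rfl) (fun i => (hτ i).one)
    (fun i => (hτ i).two)⟩

end Pool.Agent.MG.GLU

namespace Pool.Agent.MG

theorem t_GLU : Stmt_GLU := by
  intro n k _ T C g hC ct ha s hs E J _ _ S h δ
  letI : Algebra k E := S.i.toAlgebra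
  exact GLU.main g hC ct ha s hs S (fun _ => rfl) h δ

end Pool.Agent.MG
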