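import Pool.Agent.MG.Fin1
import Pool.Agent.MG.WL.ALGF
import Pool.Agent.MG.WL.ASW
import Pool.Agent.MG.WL.CEC
import Pool.Agent.MG.WL.CL.T
import Pool.Agent.MG.WL.DEA
import Pool.Agent.MG.WL.DEC
import Pool.Agent.MG.WL.DEI
import Pool.Agent.MG.WL.DGL
import Pool.Agent.MG.WL.DSC
import Pool.Agent.MG.WL.DSP
import Pool.Agent.MG.WL.EX
import Pool.Agent.MG.WL.EXA
import Pool.Agent.MG.WL.EXT
import Pool.Agent.MG.WL.FG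
import Pool.Agent.MG.WL.FIN.FAL
import Pool.Agent.MG.WL.FIN.FCH
import Pool.Agent.MG.WL.FIN.FCP
import Pool.Agent.MG.WL.FIN.FGF
import Pool.Agent.MG.WL.FIN.FIN
import Pool.Agent.MG.WL.FIN.FLK
import Pool.Agent.MG.WL.FIN.FLW
import Pool.Agent.MG.WL.FIN.FPR
import Pool.Agent.MG.WL.FIN.FQF
import Pool.Agent.MG.WL.FIN.FSP
import Pool.Agent.MG.WL.GAR
import Pool.Agent.MG.WL.GEO
import Pool.Agent.MG.WL.GLD
import Pool.Agent.MG.WL.GNC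
import Pool.Agent.MG.WL.LCB
import Pool.Agent.MG.WL.LCE
import Pool.Agent.MG.WL.LFB
import Pool.Agent.MG.WL.LIFT
import Pool.Agent.MG.WL.LOE
import Pool.Agent.MG.WL.LPI
import Pool.Agent.MG.WL.NCB
import Pool.Agent.MG.WL.NCE
import Pool.Agent.MG.WL.PNE
import Pool.Agent.MG.WL.QFV
import Pool.Agent.MG.WL.REL
import Pool.Agent.MG.WL.RGD
import Pool.Agent.MG.WL.SCC
import Pool.Agent.MG.WL.SPL
import Pool.Agent.MG.WL.STL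
import Pool.Agent.MG.WL.TAU
import Pool.Agent.MG.WL.TRL
import Pool.Agent.MG.WL.TRN
import Pool.Agent.MG.WL.VAL
import Pool.Agent.MG.WL.VAN
import Pool.Agent.MG.WL.VNF

/-!
# Assembly
-/

namespace Pool.Agent.MG.WL.Asm

theorem k_LCB : Pool.Agent.MG.WL.Stmt_LCB := Pool.Agent.MG.WL.t_LCB

theorem k_LCE : Pool.Agent.MG.WL.Stmt_LCE := Pool.Agent.MG.WL.t_LCE k_LCB

theorem k_CL : Pool.Agent.MG.WL.Stmt_CL := Pool.Agent.MG.WL.CL.t_CL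

theorem k_PNE : Pool.Agent.MG.WL.Stmt_PNE := Pool.Agent.MG.WL.t_PNE k_CL

theorem k_SPL : Pool.Agent.MG.WL.Stmt_SPL := Pool.Agent.MG.WL.t_SPL k_LCB

theorem k_GNC : Pool.Agent.MG.WL.Stmt_GNC := Pool.Agent.MG.WL.t_GNC

theorem k_NCE : Pool.Agent.MG.WL.Stmt_NCE := Pool.Agent.MG.WL.t_NCE k_LCB k_PNE k_SPL k_GNC

theorem k_LPI : Pool.Agent.MG.WL.Stmt_LPI := Pool.Agent.MG.WL.t_LPI

theorem k_GEO : Pool.Agent.MG.WL.Stmt_GEO := Pool.Agent.MG.WL.t_GEO k_LPI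

theorem k_ALGF : Pool.Agent.MG.WL.Stmt_ALGF := Pool.Agent.MG.WL.t_ALGF

theorem k_QFV : Pool.Agent.MG.WL.Stmt_QFV := Pool.Agent.MG.WL.t_QFV

theorem k_TRN : Pool.Agent.MG.WL.Stmt_TRN := Pool.Agent.MG.WL.t_TRN k_CL

theorem k_FG : Pool.Agent.MG.WL.Stmt_FG := Pool.Agent.MG.WL.t_FG k_CL k_GEO k_ALGF k_QFV k_TRN

theorem k_NCB : Pool.Agent.MG.WL.Stmt_NCB := Pool.Agent.MG.WL.t_NCB

theorem k_CEC : Pool.Agent.MG.WL.Stmt_CEC := Pool.Agent.MG.WL.t_CEC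

theorem k_VNF : Pool.Agent.MG.WL.Stmt_VNF := Pool.Agent.MG.WL.t_VNF k_CEC

theorem k_VAN : Pool.Agent.MG.WL.Stmt_VAN := Pool.Agent.MG.WL.t_VAN k_CL k_LCB k_NCB k_VNF

theorem k_LFB : Pool.Agent.MG.WL.Stmt_LFB := Pool.Agent.MG.WL.t_LFB k_FG k_VAN

theorem k_DSC : Pool.Agent.MG.WL.Stmt_DSC := Pool.Agent.MG.WL.t_DSC

theorem k_LIFT : Pool.Agent.MG.WL.Stmt_LIFT := Pool.Agent.MG.WL.t_LIFT k_NCE k_LFB k_DSC

theorem k_FLK : Pool.Agent.MG.WL.Stmt_FLK := Pool.Agent.MG.WL.t_FLK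

theorem k_FCP : Pool.Agent.MG.WL.Stmt_FCP := Pool.Agent.MG.WL.t_FCP k_FLK

theorem k_FLW : Pool.Agent.MG.WL.Stmt_FLW := Pool.Agent.MG.WL.t_FLW

theorem k_FGF : Pool.Agent.MG.WL.Stmt_FGF := Pool.Agent.MG.WL.t_FGF k_CL k_LCB k_FCP k_FLW

theorem k_FPR : Pool.Agent.MG.WL.Stmt_FPR := Pool.Agent.MG.WL.t_FPR

theorem k_FQF : Pool.Agent.MG.WL.Stmt_FQF := Pool.Agent.MG.WL.t_FQF

theorem k_FSP : Pool.Agent.MG.WL.Stmt_FSP := Pool.Agent.MG.WL.t_FSP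

theorem k_FAL : Pool.Agent.MG.WL.Stmt_FAL := Pool.Agent.MG.WL.t_FAL

theorem k_FCH : Pool.Agent.MG.WL.Stmt_FCH := Pool.Agent.MG.WL.t_FCH k_FLK

theorem k_FIN : Pool.Agent.MG.WL.Stmt_FIN := Pool.Agent.MG.WL.t_FIN k_FLK k_FGF k_FPR k_FQF k_FSP k_FAL k_FCH

theorem k_WLF : Pool.Agent.MG.WL.Stmt_WLF := Pool.Agent.MG.WL.t_WLF k_LCE k_LCB k_LIFT k_FIN

theorem k_DEA : Pool.Agent.MG.WL.Stmt_DEA := Pool.Agent.MG.WL.t_DEA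

theorem k_DEC : Pool.Agent.MG.WL.Stmt_DEC := Pool.Agent.MG.WL.t_DEC k_DEA

theorem k_DEI : Pool.Agent.MG.WL.Stmt_DEI := Pool.Agent.MG.WL.t_DEI

theorem k_GAR : Pool.Agent.MG.WL.Stmt_GAR := Pool.Agent.MG.WL.t_GAR

theorem k_EXA : Pool.Agent.MG.WL.Stmt_EXA := Pool.Agent.MG.WL.t_EXA

theorem k_LOE : Pool.Agent.MG.WL.Stmt_LOE := Pool.Agent.MG.WL.t_LOE

theorem k_RGD : Pool.Agent.MG.WL.Stmt_RGD := Pool.Agent.MG.WL.t_RGD k_EXA k_LOE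

theorem k_DSP : Pool.Agent.MG.WL.Stmt_DSP := Pool.Agent.MG.WL.t_DSP k_DEI k_GAR k_RGD k_LOE

theorem k_SCC : Pool.Agent.MG.WL.Stmt_SCC := Pool.Agent.MG.WL.t_SCC

theorem k_REL : Pool.Agent.MG.WL.Stmt_REL := Pool.Agent.MG.WL.t_REL k_EXA k_SCC

theorem k_GLD : Pool.Agent.MG.WL.Stmt_GLD := Pool.Agent.MG.WL.t_GLD

theorem k_STL : Pool.Agent.MG.WL.Stmt_STL := Pool.Agent.MG.WL.t_STL

theorem k_DGL : Pool.Agent.MG.WL.Stmt_DGL := Pool.Agent.MG.WL.t_DGL k_REL k_DEI k_GLD k_GAR k_STL k_RGD k_LOE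

theorem k_EXT : Pool.Agent.MG.WL.Stmt_EXT := Pool.Agent.MG.WL.t_EXT k_REL

theorem k_TAU : Pool.Agent.MG.WL.Stmt_TAU := Pool.Agent.MG.WL.t_TAU k_DEA k_DEC k_DSP k_DGL k_EXT

theorem k_TRL : Pool.Agent.MG.WL.Stmt_TRL := Pool.Agent.MG.WL.t_TRL k_DEA k_DEC k_TAU

theorem k_VAL : Pool.Agent.MG.WL.Stmt_VAL := Pool.Agent.MG.WL.t_VAL k_REL k_TAU k_TRL

theorem k_EX : Pool.Agent.MG.WL.Stmt_EX := Pool.Agent.MG.WL.t_EX k_WLF k_DEA k_DEC k_TAU k_TRL k_VAL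

end Pool.Agent.MG.WL.Asm

namespace Pool.Agent.MG.Std

/-- `(g, n) = (1, 1)`. -/
theorem answer_one_one : Answer 1 1 2 := answer_11 WL.Asm.k_EX

end Pool.Agent.MG.Std
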