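import Pool.Agent.MG.StmtsA

/-!
# GLU, ring part
-/

open CategoryTheory CategoryTheory.Limits AlgebraicGeometry TensorProduct

namespace Pool.Agent.MG.GLU

section

variable {k E J : Type} [Field k] [CommRing E] [Algebra k E] [Fintype J] (S : SqE k E J)
  (hS : ∀ c, algebraMap k E c = S.i c)

/-- The projection as a homomorphism of algebras. -/
def pA : E →ₐ[k] k :=
  { S.p with
    commutes' := fun c => by
      change S.p (algebraMap k E c) = c
      rw [hS, S.pi] }

variable (R : Type) [CommRing R] [Algebra k R]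

/-- Reduction modulo the kernel of the extension. -/
noncomputable def red : E ⊗[k] R →ₐ[k] R :=
  (Algebra.TensorProduct.lid k R : k ⊗[k] R →ₐ[k] R).comp
    (Algebra.TensorProduct.map (pA S hS) (AlgHom.id k R))

theorem red_tmul (e : E) (r : R) : red S hS R (e ⊗ₜ r) = S.p e • r := by
  simp [red, pA]

theorem decompE (e : E) : ∃ b : J → k, e = S.i (S.p e) + ∑ j, S.ε j * S.i (b j) := by
  obtain ⟨b, hb⟩ := S.ex (e - S.i (S.p e)) (by rw [map_sub, S.pi, sub_self])
  exact ⟨b, by rw [← hb]; ring⟩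

include hS in
theorem decomp (v : E ⊗[k] R) : ∃ b : J → R,
    v = 1 ⊗ₜ red S hS R v + ∑ j, (S.ε j) ⊗ₜ[k] (b j) := by
  induction v with
  | zero => exact ⟨0, by simp⟩
  | tmul e r =>
    obtain ⟨b, hb⟩ := decompE S e
    refine ⟨fun j => b j • r, ?_⟩
    rw [red_tmul]
    conv_lhs => rw [hb]
    rw [TensorProduct.add_tmul, TensorProduct.sum_tmul]
    congr 1
    · rw [← hS, TensorProduct.tmul_smul, TensorProduct.smul_tmul', Algebra.algebraMap_eq_smul_one]
    · refine Finset.sum_congr rfl fun j _ => ?_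
      rw [← hS, TensorProduct.tmul_smul, TensorProduct.smul_tmul', Algebra.smul_def, mul_comm]
  | add u v hu hv =>
    obtain ⟨b, hb⟩ := hu
    obtain ⟨c, hc⟩ := hv
    refine ⟨b + c, ?_⟩
    conv_lhs => rw [hb, hc]
    simp only [map_add, TensorProduct.tmul_add, Pi.add_apply, Finset.sum_add_distrib]
    abel

include hS in
theorem eps_un (c : J → R) (h : ∑ j, (S.ε j) ⊗ₜ[k] (c j) = 0) (l : J) : c l = 0 := by
  classical
  let f : (J → k) →ₗ[k] E := ∑ j, (LinearMap.proj j).smulRight (S.ε j)
  have hf : ∀ a, f a = ∑ j, S.ε j * S.i (a j) := by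
    intro a
    simp only [f, LinearMap.sum_apply, LinearMap.smulRight_apply, LinearMap.proj_apply]
    refine Finset.sum_congr rfl fun j _ => ?_
    rw [Algebra.smul_def, hS, mul_comm]
  obtain ⟨g, hg⟩ := f.exists_leftInverse_of_injective (by
    rw [LinearMap.ker_eq_bot']
    intro a ha
    rw [hf] at ha
    exact S.un a ha)
  have h1 : ∀ j, g (S.ε j) = Pi.single j 1 := by
    intro j
    have h2 : f (Pi.single j 1) = S.ε j := by
      rw [hf, Finset.sum_eq_single j]
      · simp
      · intro i _ hi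
        simp [Pi.single_apply, hi]
      · simp
    rw [← h2]
    exact LinearMap.congr_fun hg (Pi.single j 1)
  let L : E ⊗[k] R →ₗ[k] R := (TensorProduct.lid k R).toLinearMap ∘ₗ
    TensorProduct.map ((LinearMap.proj l) ∘ₗ g) LinearMap.id
  have h3 : L (∑ j, (S.ε j) ⊗ₜ[k] (c j)) = c l := by
    rw [map_sum, Finset.sum_eq_single l]
    · simp [L, h1]
    · intro j _ hj
      have : (Pi.single j 1 : J → k) l = 0 := by
        simp [Pi.single_apply, hj.symm]
      simp [L, h1, this]
    · simp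
  rw [← h3, h, map_zero]

include hS in
theorem red_surjective : Function.Surjective (red S hS R) := by
  intro r
  exact ⟨1 ⊗ₜ r, by rw [red_tmul]; simp⟩

theorem eps_mul (j : J) (v : E ⊗[k] R) :
    (S.ε j ⊗ₜ[k] (1 : R)) * v = (S.ε j) ⊗ₜ[k] red S hS R v := by
  obtain ⟨b, hb⟩ := decomp S hS R v
  conv_lhs => rw [hb]
  rw [mul_add, Finset.mul_sum, Finset.sum_eq_zero, add_zero]
  · simp
  · intro i _
    rw [Algebra.TensorProduct.tmul_mul_tmul, S.mul, TensorProduct.zero_tmul]

include hS in
theorem red_ker (v : E ⊗[k] R) (hv : red S hS R v = 0) :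
    ∃ w : J → E ⊗[k] R, v = ∑ j, (S.ε j ⊗ₜ[k] (1 : R)) * w j := by
  obtain ⟨b, hb⟩ := decomp S hS R v
  refine ⟨fun j => 1 ⊗ₜ b j, ?_⟩
  rw [hv, TensorProduct.tmul_zero, zero_add] at hb
  rw [hb]
  refine Finset.sum_congr rfl fun j _ => ?_
  simp

include hS in
theorem red_un (w : J → E ⊗[k] R) (hw : ∑ j, (S.ε j ⊗ₜ[k] (1 : R)) * w j = 0) (j : J) :
    red S hS R (w j) = 0 := by
  refine eps_un S hS R (fun j => red S hS R (w j)) ?_ j
  rw [← hw]
  exact Finset.sum_congr rfl fun j _ => (eps_mul S hS R j (w j)).symm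

include hS in
theorem red_nil (v : E ⊗[k] R) (hv : red S hS R v = 0) : v * v = 0 := by
  obtain ⟨w, hw⟩ := red_ker S hS R v hv
  conv_lhs => arg 1; rw [hw]
  rw [Finset.sum_mul]
  refine Finset.sum_eq_zero fun j _ => ?_
  rw [mul_assoc, mul_comm (w j) v, ← mul_assoc, eps_mul S hS, hv]
  simp

end

section

variable {k E J : Type} [Field k] [CommRing E] [Algebra k E] [Fintype J] (S : SqE k E J)
  (hS : ∀ c, algebraMap k E c = S.i c)
  {R : Type} [CommRing R] [Algebra k R] (dd : Derivation k R R) (h : J → R)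

/-- The twist on `R`. -/
noncomputable def tw0 : R →ₐ[k] E ⊗[k] R where
  toFun a := 1 ⊗ₜ a + ∑ j, (S.ε j) ⊗ₜ[k] (h j * dd a)
  map_one' := by simp [Algebra.TensorProduct.one_def]
  map_mul' a b := by
    have h1 : (∑ j, (S.ε j) ⊗ₜ[k] (h j * dd a)) * (∑ j, (S.ε j) ⊗ₜ[k] (h j * dd b)) = 0 := by
      rw [Finset.sum_mul_sum]
      refine Finset.sum_eq_zero fun i _ => Finset.sum_eq_zero fun j _ => ?_
      rw [Algebra.TensorProduct.tmul_mul_tmul, S.mul, TensorProduct.zero_tmul]
    have h2 : (1 ⊗ₜ[k] a + ∑ j, (S.ε j) ⊗ₜ[k] (h j * dd a)) *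
        (1 ⊗ₜ[k] b + ∑ j, (S.ε j) ⊗ₜ[k] (h j * dd b)) =
        1 ⊗ₜ[k] (a * b) + (1 ⊗ₜ[k] a * ∑ j, (S.ε j) ⊗ₜ[k] (h j * dd b) +
          (∑ j, (S.ε j) ⊗ₜ[k] (h j * dd a)) * 1 ⊗ₜ[k] b) := by
      have h3 : (1 : E) ⊗ₜ[k] a * 1 ⊗ₜ[k] b = 1 ⊗ₜ[k] (a * b) := by simp
      rw [← h3]
      linear_combination h1
    rw [h2]
    congr 1
    rw [Finset.mul_sum, Finset.sum_mul, ← Finset.sum_add_distrib]
    refine Finset.sum_congr rfl fun j _ => ?_
    rw [Algebra.TensorProduct.tmul_mul_tmul, Algebra.TensorProduct.tmul_mul_tmul, one_mul, mul_one,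
      ← TensorProduct.tmul_add, Derivation.leibniz]
    congr 1
    simp only [smul_eq_mul]
    ring
  map_zero' := by simp
  map_add' a b := by
    simp only [map_add, mul_add, TensorProduct.tmul_add, Finset.sum_add_distrib]
    abel
  commutes' c := by
    simp only [Derivation.map_algebraMap, mul_zero, TensorProduct.tmul_zero,
      Finset.sum_const_zero, add_zero, Algebra.TensorProduct.algebraMap_apply]
    rw [Algebra.algebraMap_eq_smul_one, Algebra.algebraMap_eq_smul_one, TensorProduct.tmul_smul,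
      TensorProduct.smul_tmul']

theorem tw0_apply (a : R) : tw0 S dd h a = 1 ⊗ₜ a + ∑ j, (S.ε j) ⊗ₜ[k] (h j * dd a) := rfl

/-- The twist. -/
noncomputable def tw : E ⊗[k] R →ₐ[k] E ⊗[k] R :=
  Algebra.TensorProduct.lift Algebra.TensorProduct.includeLeft (tw0 S dd h)
    (fun _ _ => Commute.all _ _)

theorem tw_tmul (e : E) (a : R) : tw S dd h (e ⊗ₜ a) = (e ⊗ₜ 1) * tw0 S dd h a := by
  simp [tw]

theorem tw_left (e : E) : tw S dd h (e ⊗ₜ 1) = e ⊗ₜ 1 := by
  rw [tw_tmul, map_one, mul_one]

theorem tw_right (a : R) : tw S dd h (1 ⊗ₜ a) = 1 ⊗ₜ a + ∑ j, (S.ε j) ⊗ₜ[k] (h j * dd a) := by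
  rw [tw_tmul, ← Algebra.TensorProduct.one_def, one_mul, tw0_apply]

theorem tw_eps (j : J) (a : R) : tw S dd h ((S.ε j) ⊗ₜ a) = (S.ε j) ⊗ₜ a := by
  rw [tw_tmul, tw0_apply, mul_add, Finset.mul_sum, Finset.sum_eq_zero]
  · simp
  · intro i _
    rw [Algebra.TensorProduct.tmul_mul_tmul, S.mul, TensorProduct.zero_tmul]

theorem tw_neg (v : E ⊗[k] R) : tw S dd h (tw S dd (-h) v) = v := by
  have : (tw S dd h).comp (tw S dd (-h)) = AlgHom.id k _ := by
    apply Algebra.TensorProduct.ext
    · ext e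
      simp only [AlgHom.comp_apply, Algebra.TensorProduct.includeLeft_apply, tw_left,
        AlgHom.id_apply, AlgHom.coe_comp, Function.comp_apply]
    · ext a
      simp only [AlgHom.comp_apply, AlgHom.restrictScalars_apply,
        Algebra.TensorProduct.includeRight_apply, tw_right, map_add, map_sum, map_neg, tw_eps,
        AlgHom.id_apply, Pi.neg_apply, neg_mul, TensorProduct.tmul_neg, Finset.sum_neg_distrib,
        add_neg_cancel_right, AlgHom.coe_comp, Function.comp_apply]
  exact DFunLike.congr_fun this v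

/-- The twist as an automorphism. -/
noncomputable def twE : E ⊗[k] R ≃ₐ[k] E ⊗[k] R :=
  AlgEquiv.ofAlgHom (tw S dd h) (tw S dd (-h)) (AlgHom.ext fun v => tw_neg S dd h v)
    (AlgHom.ext fun v => by
      have := tw_neg S dd (-h) v
      rw [neg_neg] at this
      exact this)

theorem red_tw (v : E ⊗[k] R) : red S hS R (tw S dd h v) = red S hS R v := by
  have : (red S hS R).comp (tw S dd h) = red S hS R := by
    apply Algebra.TensorProduct.ext
    · ext e
      simp [tw_left]
    · ext a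
      have hp : ∀ j, S.p (S.ε j) = 0 := S.pe
      simp only [AlgHom.comp_apply, AlgHom.restrictScalars_apply,
        Algebra.TensorProduct.includeRight_apply, tw_right, map_add, map_sum, red_tmul, hp,
        zero_smul, Finset.sum_const_zero, add_zero, AlgHom.coe_comp, Function.comp_apply]
  exact DFunLike.congr_fun this v

end

/-! ## Lifting points -/

section

variable {k E J : Type} [Field k] [CommRing E] [Algebra k E] [Fintype J] (S : SqE k E J)
  (hS : ∀ c, algebraMap k E c = S.i c)
  {R : Type} [CommRing R] [Algebra k R] (x : R)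
  (et : (Polynomial.aeval x : Polynomial k →ₐ[k] R).toRingHom.Etale)

include et hS in
theorem lift_pt (φ : R →ₐ[k] k) (z : E) (hz : S.p z = φ x) :
    ∃ φ' : R →ₐ[k] E, (∀ a, S.p (φ' a) = φ a) ∧ φ' x = z := by
  letI : Algebra (Polynomial k) R := (Polynomial.aeval x : Polynomial k →ₐ[k] R).toRingHom.toAlgebra
  letI : Algebra (Polynomial k) E := (Polynomial.aeval z : Polynomial k →ₐ[k] E).toRingHom.toAlgebra
  letI : Algebra (Polynomial k) k :=
    (Polynomial.aeval (φ x) : Polynomial k →ₐ[k] k).toRingHom.toAlgebra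
  haveI : Algebra.Etale (Polynomial k) R := et
  have hR : ∀ f : Polynomial k, algebraMap (Polynomial k) R f = Polynomial.aeval x f := fun _ => rfl
  have hE : ∀ f : Polynomial k, algebraMap (Polynomial k) E f = Polynomial.aeval z f := fun _ => rfl
  have hk : ∀ f : Polynomial k, algebraMap (Polynomial k) k f = Polynomial.aeval (φ x) f :=
    fun _ => rfl
  let F : R →ₐ[Polynomial k] k :=
    { (φ : R →+* k) with
      commutes' := fun f => by
        change φ (algebraMap (Polynomial k) R f) = algebraMap (Polynomial k) k f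
        rw [hR, hk, Polynomial.aeval_algHom_apply] }
  let G : E →ₐ[Polynomial k] k :=
    { (S.p : E →+* k) with
      commutes' := fun f => by
        change S.p (algebraMap (Polynomial k) E f) = algebraMap (Polynomial k) k f
        rw [hE, hk, ← hz]
        exact (Polynomial.aeval_algHom_apply (pA S hS) z f).symm }
  have hG : Function.Surjective G := S.p_surjective
  have hN : IsNilpotent (RingHom.ker (G : E →+* k)) := by
    refine ⟨2, ?_⟩
    rw [pow_two, Ideal.zero_eq_bot, eq_bot_iff, Ideal.mul_le]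
    intro a ha b hb
    rw [RingHom.mem_ker] at ha hb
    exact S.mul_of_p_eq_zero ha hb
  let L : R →ₐ[Polynomial k] E := Algebra.FormallySmooth.liftOfSurjective F G hG hN
  have hL : ∀ a, S.p (L a) = φ a := fun a =>
    Algebra.FormallySmooth.liftOfSurjective_apply F G hG hN a
  have hL2 : ∀ f : Polynomial k, L (Polynomial.aeval x f) = Polynomial.aeval z f := fun f => by
    rw [← hR, ← hE]
    exact L.commutes f
  refine ⟨{ (L : R →+* E) with commutes' := fun c => ?_ }, hL, ?_⟩
  · change L (algebraMap k R c) = algebraMap k E c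
    have := hL2 (Polynomial.C c)
    simpa using this
  · change L x = z
    have := hL2 Polynomial.X
    simpa using this

end

end Pool.Agent.MG.GLU
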