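import Pool.Agent.MG.Top

/-!
# From geometry to ring data
-/

open CategoryTheory AlgebraicGeometry TensorProduct

namespace Pool.Agent.MG

section Thk

variable {n : ℕ} {B E J : Type} [CommRing B] [CommRing E] [Fintype J] {S : SqE B E J}
  {x : Fam n B} (t : Thk S x)

/-- The reduction of functions over `U` is surjective, with kernel free on the `ε j`. -/
structure Good (U : x.X.Opens) : Prop where
  sur : Function.Surjective (t.q U)
  ker : ∀ v, t.q U v = 0 → ∃ w : J → Γ(t.y.X, t.op U),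
    v = ∑ j, coef t.y.π (t.op U) (S.ε j) * w j
  un : ∀ w : J → Γ(t.y.X, t.op U),
    ∑ j, coef t.y.π (t.op U) (S.ε j) * w j = 0 → ∀ j, t.q U (w j) = 0

end Thk

section

variable {n : ℕ} {k : Type} [Field k] {T : TC k} {B : Type} [CommRing B] [Algebra k B]
  {x : Fam n B} (ct : Charted T x)

/-- Functions on the first chart. -/
noncomputable def Charted.eq1 : B ⊗[k] T.R1 ≃+* Γ(x.X, ct.U1) := RingEquiv.ofBijective ct.t1 ct.b1

/-- Functions on the second chart. -/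
noncomputable def Charted.eq2 : B ⊗[k] T.R2 ≃+* Γ(x.X, ct.U2) := RingEquiv.ofBijective ct.t2 ct.b2

/-- Functions on the intersection. -/
noncomputable def Charted.eq12 : B ⊗[k] T.R12 ≃+* Γ(x.X, ct.U1 ⊓ ct.U2) :=
  RingEquiv.ofBijective ct.t12 ct.b12

theorem tensor_ind {R R' : Type} [CommRing R] [CommRing R'] [Algebra k R]
    {f g : B ⊗[k] R →+* R'} (h1 : ∀ b, f (b ⊗ₜ 1) = g (b ⊗ₜ 1)) (h2 : ∀ r, f (1 ⊗ₜ r) = g (1 ⊗ₜ r))
    (v : B ⊗[k] R) : f v = g v := by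
  induction v with
  | zero => simp
  | tmul b r =>
    have : b ⊗ₜ[k] r = (b ⊗ₜ 1) * (1 ⊗ₜ r) := by simp
    rw [this, map_mul, map_mul, h1, h2]
  | add u v hu hv => rw [map_add, map_add, hu, hv]

theorem Charted.rs1 (v : B ⊗[k] T.R1) : rs x.X inf_le_left (ct.t1 v) =
    ct.t12 (Algebra.TensorProduct.map (AlgHom.id k B) T.j1 v) := by
  refine tensor_ind (f := (rs x.X inf_le_left).comp ct.t1)
    (g := ct.t12.comp (Algebra.TensorProduct.map (AlgHom.id k B) T.j1).toRingHom) ?_ ?_ v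
  · intro b
    have : Algebra.TensorProduct.map (AlgHom.id k B) T.j1 (b ⊗ₜ[k] 1) = b ⊗ₜ 1 := by simp
    change rs x.X inf_le_left (ct.t1 (b ⊗ₜ 1)) =
      ct.t12 (Algebra.TensorProduct.map (AlgHom.id k B) T.j1 (b ⊗ₜ[k] 1))
    rw [this, ct.c1, ct.c12, coef_rs]
  · intro a
    have : Algebra.TensorProduct.map (AlgHom.id k B) T.j1 (1 ⊗ₜ[k] a) = 1 ⊗ₜ T.j1 a := by simp
    change rs x.X inf_le_left (ct.t1 (1 ⊗ₜ a)) =
      ct.t12 (Algebra.TensorProduct.map (AlgHom.id k B) T.j1 (1 ⊗ₜ[k] a))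
    rw [this, ct.r1]

theorem Charted.rs2 (v : B ⊗[k] T.R2) : rs x.X inf_le_right (ct.t2 v) =
    ct.t12 (Algebra.TensorProduct.map (AlgHom.id k B) T.j2 v) := by
  refine tensor_ind (f := (rs x.X inf_le_right).comp ct.t2)
    (g := ct.t12.comp (Algebra.TensorProduct.map (AlgHom.id k B) T.j2).toRingHom) ?_ ?_ v
  · intro b
    have : Algebra.TensorProduct.map (AlgHom.id k B) T.j2 (b ⊗ₜ[k] 1) = b ⊗ₜ 1 := by simp
    change rs x.X inf_le_right (ct.t2 (b ⊗ₜ 1)) =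
      ct.t12 (Algebra.TensorProduct.map (AlgHom.id k B) T.j2 (b ⊗ₜ[k] 1))
    rw [this, ct.c2, ct.c12, coef_rs]
  · intro a
    have : Algebra.TensorProduct.map (AlgHom.id k B) T.j2 (1 ⊗ₜ[k] a) = 1 ⊗ₜ T.j2 a := by simp
    change rs x.X inf_le_right (ct.t2 (1 ⊗ₜ a)) =
      ct.t12 (Algebra.TensorProduct.map (AlgHom.id k B) T.j2 (1 ⊗ₜ[k] a))
    rw [this, ct.r2]

variable {E J : Type} [CommRing E] [Fintype J] {S : SqE B E J} (t : Thk S x)

/-- All three charts are good. -/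
structure Good3 : Prop where
  g1 : Good t ct.U1
  g2 : Good t ct.U2
  g12 : Good t (ct.U1 ⊓ ct.U2)

variable (H : Good3 ct t)

/-- The ring data of a flat thickening. -/
noncomputable def rd : RData T S where
  G1 := Γ(t.y.X, t.op ct.U1)
  G2 := Γ(t.y.X, t.op ct.U2)
  G12 := Γ(t.y.X, t.op (ct.U1 ⊓ ct.U2))
  a1 := coef t.y.π (t.op ct.U1)
  a2 := coef t.y.π (t.op ct.U2)
  a12 := coef t.y.π (t.op (ct.U1 ⊓ ct.U2))
  f1 := rs t.y.X (t.op_mono inf_le_left)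
  f2 := rs t.y.X (t.op_mono inf_le_right)
  fa1 z := coef_rs _ _ z
  fa2 z := coef_rs _ _ z
  q1 := ct.eq1.symm.toRingHom.comp (t.q ct.U1)
  q2 := ct.eq2.symm.toRingHom.comp (t.q ct.U2)
  q12 := ct.eq12.symm.toRingHom.comp (t.q (ct.U1 ⊓ ct.U2))
  qa1 z := by
    change ct.eq1.symm (t.q ct.U1 (coef t.y.π (t.op ct.U1) z)) = _
    rw [t.q_coef, RingEquiv.symm_apply_eq]
    exact (ct.c1 _).symm
  qa2 z := by
    change ct.eq2.symm (t.q ct.U2 (coef t.y.π (t.op ct.U2) z)) = _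
    rw [t.q_coef, RingEquiv.symm_apply_eq]
    exact (ct.c2 _).symm
  qa12 z := by
    change ct.eq12.symm (t.q _ (coef t.y.π (t.op _) z)) = _
    rw [t.q_coef, RingEquiv.symm_apply_eq]
    exact (ct.c12 _).symm
  qf1 v := by
    change ct.eq12.symm (t.q _ (rs t.y.X (t.op_mono inf_le_left) v)) =
      Algebra.TensorProduct.map (AlgHom.id k B) T.j1 (ct.eq1.symm (t.q ct.U1 v))
    rw [t.q_rs inf_le_left, RingEquiv.symm_apply_eq]
    have := ct.rs1 (ct.eq1.symm (t.q ct.U1 v))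
    refine Eq.trans ?_ this
    congr 1
    exact (ct.eq1.apply_symm_apply (t.q ct.U1 v)).symm
  qf2 v := by
    change ct.eq12.symm (t.q _ (rs t.y.X (t.op_mono inf_le_right) v)) =
      Algebra.TensorProduct.map (AlgHom.id k B) T.j2 (ct.eq2.symm (t.q ct.U2 v))
    rw [t.q_rs inf_le_right, RingEquiv.symm_apply_eq]
    have := ct.rs2 (ct.eq2.symm (t.q ct.U2 v))
    refine Eq.trans ?_ this
    congr 1
    exact (ct.eq2.apply_symm_apply (t.q ct.U2 v)).symm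
  sur1 := ct.eq1.symm.surjective.comp H.g1.sur
  sur2 := ct.eq2.symm.surjective.comp H.g2.sur
  sur12 := ct.eq12.symm.surjective.comp H.g12.sur
  ker1 v hv := by
    refine H.g1.ker v ?_
    change ct.eq1.symm (t.q ct.U1 v) = 0 at hv
    exact (map_eq_zero_iff _ ct.eq1.symm.injective).1 hv
  ker2 v hv := by
    refine H.g2.ker v ?_
    change ct.eq2.symm (t.q ct.U2 v) = 0 at hv
    exact (map_eq_zero_iff _ ct.eq2.symm.injective).1 hv
  ker12 v hv := by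
    refine H.g12.ker v ?_
    change ct.eq12.symm (t.q _ v) = 0 at hv
    exact (map_eq_zero_iff _ ct.eq12.symm.injective).1 hv
  un1 w hw j := by
    change ct.eq1.symm (t.q ct.U1 (w j)) = 0
    rw [H.g1.un w hw j, map_zero]
  un2 w hw j := by
    change ct.eq2.symm (t.q ct.U2 (w j)) = 0
    rw [H.g2.un w hw j, map_zero]
  un12 w hw j := by
    change ct.eq12.symm (t.q _ (w j)) = 0
    rw [H.g12.un w hw j, map_zero]

theorem Thk.sec_le (i : Fin n) {U : x.X.Opens} (h : ⊤ ≤ x.σ i ⁻¹ᵁ U) :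
    ⊤ ≤ t.y.σ i ⁻¹ᵁ (t.op U) := by
  intro a _
  obtain ⟨b, rfl⟩ := (spMap S.p).surjective a
  have h1 : x.σ i b ∈ t.r.f ⁻¹ᵁ (t.op U) := by
    rw [t.pre]
    exact h (by trivial)
  have h2 : t.r.f (x.σ i b) = t.y.σ i (spMap S.p b) := by
    have := t.r.sec i
    rw [← Scheme.Hom.comp_apply, this, Scheme.Hom.comp_apply]
  have h3 : t.r.f (x.σ i b) ∈ t.op U := h1
  rw [h2] at h3
  exact h3

/-- Evaluation of functions on the thickening at a section. -/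
noncomputable def Thk.ev (i : Fin n) {U : x.X.Opens} (h : ⊤ ≤ x.σ i ⁻¹ᵁ U) :
    Γ(t.y.X, t.op U) →+* E :=
  (Scheme.ΓSpecIso (CommRingCat.of E)).hom.hom.comp
    ((t.y.σ i).appLE (t.op U) ⊤ (t.sec_le i h)).hom

/-- Evaluation of functions at a section. -/
noncomputable def ev0 (i : Fin n) {U : x.X.Opens} (h : ⊤ ≤ x.σ i ⁻¹ᵁ U) : Γ(x.X, U) →+* B :=
  (Scheme.ΓSpecIso (CommRingCat.of B)).hom.hom.comp ((x.σ i).appLE U ⊤ h).hom

theorem gl_inv {A : Type} [CommRing A] (a : A) :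
    (Scheme.ΓSpecIso (CommRingCat.of A)).hom.hom (gl A a) = a := by
  change ((Scheme.ΓSpecIso (CommRingCat.of A)).inv ≫ (Scheme.ΓSpecIso (CommRingCat.of A)).hom) a = a
  rw [Iso.inv_hom_id]
  rfl

theorem coef_id {A : Type} [CommRing A] (a : A) : coef (𝟙 (Sp A)) ⊤ a = gl A a := by
  rw [coef_eq]
  change ((Scheme.ΓSpecIso (CommRingCat.of A)).inv ≫ (𝟙 (Sp A) : Sp A ⟶ Sp A).appLE ⊤ ⊤ _) a =
    (Scheme.ΓSpecIso (CommRingCat.of A)).inv a
  have : (𝟙 (Sp A) : Sp A ⟶ Sp A).appLE ⊤ ⊤ le_top = 𝟙 _ := Scheme.Hom.appLE_eq_app _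
  rw [this, Category.comp_id]

theorem Thk.ev_coef (i : Fin n) {U : x.X.Opens} (h : ⊤ ≤ x.σ i ⁻¹ᵁ U) (z : E) :
    t.ev i h (coef t.y.π (t.op U) z) = z := by
  change (Scheme.ΓSpecIso (CommRingCat.of E)).hom.hom
    (((t.y.σ i).appLE (t.op U) ⊤ (t.sec_le i h)).hom (coef t.y.π (t.op U) z)) = z
  rw [coef_comp, t.y.sec, coef_id, gl_inv]

theorem gs_spMap {A A' : Type} [CommRing A] [CommRing A'] (φ : A →+* A') (v : Γ(Sp A, ⊤)) :
    (Scheme.ΓSpecIso (CommRingCat.of A')).hom.hom ((spMap φ).appTop.hom v) =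
      φ ((Scheme.ΓSpecIso (CommRingCat.of A)).hom.hom v) :=
  ConcreteCategory.congr_hom (Scheme.ΓSpecIso_naturality (CommRingCat.ofHom φ)) v

theorem Thk.p_ev (i : Fin n) {U : x.X.Opens} (h : ⊤ ≤ x.σ i ⁻¹ᵁ U) (v : Γ(t.y.X, t.op U)) :
    S.p (t.ev i h v) = ev0 i h (t.q U v) := by
  have h1 := Scheme.Hom.appLE_comp_appLE (x.σ i) t.r.f (t.op U) U ⊤ (t.pre U).ge h
  have h2 := Scheme.Hom.appLE_comp_appLE (spMap S.p) (t.y.σ i) (t.op U) ⊤ ⊤ (t.sec_le i h) le_top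
  have h3 : t.r.f.appLE (t.op U) U (t.pre U).ge ≫ (x.σ i).appLE U ⊤ h =
      (t.y.σ i).appLE (t.op U) ⊤ (t.sec_le i h) ≫ (spMap S.p).appLE ⊤ ⊤ le_top := by
    rw [h1, h2]
    simp only [t.r.sec i]
  have h4 := ConcreteCategory.congr_hom h3 v
  change S.p ((Scheme.ΓSpecIso (CommRingCat.of E)).hom.hom
    (((t.y.σ i).appLE (t.op U) ⊤ (t.sec_le i h)).hom v)) = _
  rw [← gs_spMap]
  change _ = (Scheme.ΓSpecIso (CommRingCat.of B)).hom.hom
    ((t.r.f.appLE (t.op U) U (t.pre U).ge ≫ (x.σ i).appLE U ⊤ h) v)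
  rw [h4]
  change _ = (Scheme.ΓSpecIso (CommRingCat.of B)).hom.hom ((spMap S.p).appLE ⊤ ⊤ le_top
    ((t.y.σ i).appLE (t.op U) ⊤ (t.sec_le i h) v))
  congr 2

theorem ev0_coef (i : Fin n) {U : x.X.Opens} (h : ⊤ ≤ x.σ i ⁻¹ᵁ U) (b : B) :
    ev0 i h (coef x.π U b) = b := by
  change (Scheme.ΓSpecIso (CommRingCat.of B)).hom.hom
    (((x.σ i).appLE U ⊤ h).hom (coef x.π U b)) = _
  rw [coef_comp, x.sec, coef_id, gl_inv]

/-- The sections of the ring data, first chart. -/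
noncomputable def rsec1 (i : Fin n) (φ : T.R1 →ₐ[k] B) (hs : ct.Is1 (x.σ i) φ) :
    (rd ct t H).Sec1 φ where
  g := t.ev i hs.1
  ga z := t.ev_coef i hs.1 z
  gq v := by
    refine (t.p_ev i hs.1 v).trans ?_
    have hv : t.q ct.U1 v = ct.t1 ((rd ct t H).q1 v) :=
      (ct.eq1.apply_symm_apply (t.q ct.U1 v)).symm
    rw [hv]
    refine tensor_ind (f := (ev0 i hs.1).comp ct.t1) (g := (extA φ).toRingHom) ?_ ?_ _
    · intro b
      change ev0 i hs.1 (ct.t1 (b ⊗ₜ 1)) = extA φ (b ⊗ₜ 1)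
      rw [ct.c1, ev0_coef]
      simp [extA]
    · intro a
      change (Scheme.ΓSpecIso (CommRingCat.of B)).hom.hom
        (((x.σ i).appLE ct.U1 ⊤ hs.1).hom (ct.t1 (1 ⊗ₜ a))) = extA φ (1 ⊗ₜ a)
      rw [hs.2, gl_inv]
      simp [extA]

/-- The sections of the ring data, second chart. -/
noncomputable def rsec2 (i : Fin n) (ψ : T.R2 →ₐ[k] B) (hs : ct.Is2 (x.σ i) ψ) :
    (rd ct t H).Sec2 ψ where
  g := t.ev i hs.1
  ga z := t.ev_coef i hs.1 z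
  gq v := by
    refine (t.p_ev i hs.1 v).trans ?_
    have hv : t.q ct.U2 v = ct.t2 ((rd ct t H).q2 v) :=
      (ct.eq2.apply_symm_apply (t.q ct.U2 v)).symm
    rw [hv]
    refine tensor_ind (f := (ev0 i hs.1).comp ct.t2) (g := (extA ψ).toRingHom) ?_ ?_ _
    · intro b
      change ev0 i hs.1 (ct.t2 (b ⊗ₜ 1)) = extA ψ (b ⊗ₜ 1)
      rw [ct.c2, ev0_coef]
      simp [extA]
    · intro a
      change (Scheme.ΓSpecIso (CommRingCat.of B)).hom.hom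
        (((x.σ i).appLE ct.U2 ⊤ hs.1).hom (ct.t2 (1 ⊗ₜ a))) = extA ψ (1 ⊗ₜ a)
      rw [hs.2, gl_inv]
      simp [extA]

/-- The sections of the ring data. -/
noncomputable def rsec (i : Fin n) : (s : Pt T B) → ct.Is (x.σ i) s → (rd ct t H).Sec s
  | .one φ, hs => rsec1 ct t H i φ hs
  | .two ψ, hs => rsec2 ct t H i ψ hs

/-- `(h, δ)` is a Kodaira–Spencer class of the thickening `t`. -/
def KS (s : Fin n → Pt T B) (hs : ∀ i, ct.Is (x.σ i) (s i)) (h : J → B ⊗[k] T.R12)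
    (δ : J → Fin n → B) : Prop :=
  ∃ H : Good3 ct t, Nonempty (RKS (rd ct t H) s (fun i => rsec ct t H i (s i) (hs i)) h δ)

/-- `l` is the covector `h, δ ↦ μ(h) + ∑ νᵢ δᵢ`. -/
def IsCov (s : Fin n → Pt T B) (hs : ∀ i, ct.Is (x.σ i) (s i)) (D : CovData s) {g : ℕ}
    (l : Cov g x) : Prop :=
  ∀ (d : Defo g x) (h : B ⊗[k] T.R12) (δ : Fin n → B),
    KS ct d.thk s hs (fun _ => h) (fun _ => δ) → l.l d = ext D.μ h + ∑ i, D.ν i * δ i

/-- An arrow which respects the charts. -/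
structure ChArrow {B' : Type} [CommRing B'] [Algebra k B'] {φ : B →ₐ[k] B'} {y : Fam n B'}
    (a : Arrow (φ : B →+* B') y x) (ct' : Charted T y) (ct : Charted T x) : Prop where
  h1 : a.f ⁻¹ᵁ ct.U1 = ct'.U1
  h2 : a.f ⁻¹ᵁ ct.U2 = ct'.U2
  f1 : ∀ r : T.R1, (a.f.appLE ct.U1 ct'.U1 h1.ge).hom (ct.t1 (1 ⊗ₜ r)) = ct'.t1 (1 ⊗ₜ r)
  f2 : ∀ r : T.R2, (a.f.appLE ct.U2 ct'.U2 h2.ge).hom (ct.t2 (1 ⊗ₜ r)) = ct'.t2 (1 ⊗ₜ r)
  f12 : ∀ (h : ct'.U1 ⊓ ct'.U2 ≤ a.f ⁻¹ᵁ (ct.U1 ⊓ ct.U2)) (r : T.R12),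
    (a.f.appLE (ct.U1 ⊓ ct.U2) (ct'.U1 ⊓ ct'.U2) h).hom (ct.t12 (1 ⊗ₜ r)) = ct'.t12 (1 ⊗ₜ r)

end

end Pool.Agent.MG
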