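import Pool.Agent.MG.StmtsA

/-!
# KSN: Kodaira–Spencer classes and arrows
-/

open CategoryTheory CategoryTheory.Limits AlgebraicGeometry TensorProduct

namespace Pool.Agent.MG

namespace KSN

section

variable {n : ℕ} {B E J : Type} [CommRing B] [CommRing E] [Fintype J] {S : SqE B E J}
  {B' E' J' : Type} [CommRing B'] [CommRing E'] [Fintype J'] {S' : SqE B' E' J'}
  {φ : B →+* B'} {Φ : E →+* E'} {x : Fam n B} {x' : Fam n B'} {a : Arrow φ x' x}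
  {t : Thk S x} {t' : Thk S' x'} {f : Arrow Φ t'.y t.y}

/-- Opens of the thickenings. -/
theorem pre_op (hf : t'.r.f ≫ f.f = a.f ≫ t.r.f) (U : x.X.Opens) :
    f.f ⁻¹ᵁ (t.op U) = t'.op (a.f ⁻¹ᵁ U) := by
  apply t'.pre_inj
  rw [t'.pre]
  have h1 : t'.r.f ⁻¹ᵁ (f.f ⁻¹ᵁ (t.op U)) = (t'.r.f ≫ f.f) ⁻¹ᵁ (t.op U) := rfl
  have h2 : (a.f ≫ t.r.f) ⁻¹ᵁ (t.op U) = a.f ⁻¹ᵁ (t.r.f ⁻¹ᵁ (t.op U)) := rfl
  rw [h1, hf, h2, t.pre]

theorem op_le (hf : t'.r.f ≫ f.f = a.f ≫ t.r.f) {U : x.X.Opens} {U' : x'.X.Opens}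
    (hU : U' ≤ a.f ⁻¹ᵁ U) : t'.op U' ≤ f.f ⁻¹ᵁ (t.op U) := by
  rw [pre_op hf]
  exact t'.op_mono hU

/-- Pull back of functions on the thickenings. -/
noncomputable def uu (hf : t'.r.f ≫ f.f = a.f ≫ t.r.f) {U : x.X.Opens} {U' : x'.X.Opens}
    (hU : U' ≤ a.f ⁻¹ᵁ U) : Γ(t.y.X, t.op U) →+* Γ(t'.y.X, t'.op U') :=
  (f.f.appLE (t.op U) (t'.op U') (op_le hf hU)).hom

theorem uu_coef (hf : t'.r.f ≫ f.f = a.f ≫ t.r.f) {U : x.X.Opens} {U' : x'.X.Opens}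
    (hU : U' ≤ a.f ⁻¹ᵁ U) (z : E) :
    uu hf hU (coef t.y.π (t.op U) z) = coef t'.y.π (t'.op U') (Φ z) :=
  coef_arrow f.cart.w _ _ _ z

theorem uu_rs (hf : t'.r.f ≫ f.f = a.f ≫ t.r.f) {U V : x.X.Opens} {U' V' : x'.X.Opens}
    (hU : U' ≤ a.f ⁻¹ᵁ U) (hV : V' ≤ a.f ⁻¹ᵁ V) (h : U ≤ V) (h' : U' ≤ V')
    (v : Γ(t.y.X, t.op V)) :
    uu hf hU (rs t.y.X (t.op_mono h) v) = rs t'.y.X (t'.op_mono h') (uu hf hV v) := by
  change (t.y.X.presheaf.map (homOfLE (t.op_mono h)).op ≫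
    f.f.appLE (t.op U) (t'.op U') (op_le hf hU)) v = (f.f.appLE (t.op V) (t'.op V')
      (op_le hf hV) ≫ t'.y.X.presheaf.map (homOfLE (t'.op_mono h')).op) v
  rw [Scheme.Hom.map_appLE, Scheme.Hom.appLE_map]

theorem q_uu (hf : t'.r.f ≫ f.f = a.f ≫ t.r.f) {U : x.X.Opens} {U' : x'.X.Opens}
    (hU : U' ≤ a.f ⁻¹ᵁ U) (v : Γ(t.y.X, t.op U)) :
    t'.q U' (uu hf hU v) = (a.f.appLE U U' hU).hom (t.q U v) := by
  have h1 := Scheme.Hom.appLE_comp_appLE t'.r.f f.f (t.op U) (t'.op U') U' (op_le hf hU)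
    (t'.pre U').ge
  have h2 := Scheme.Hom.appLE_comp_appLE a.f t.r.f (t.op U) U U' (t.pre U).ge hU
  have h3 : f.f.appLE (t.op U) (t'.op U') (op_le hf hU) ≫ t'.r.f.appLE (t'.op U') U'
      (t'.pre U').ge = t.r.f.appLE (t.op U) U (t.pre U).ge ≫ a.f.appLE U U' hU := by
    rw [h1, h2]
    simp only [hf]
  exact ConcreteCategory.congr_hom h3 v

theorem ev_uu (hf : t'.r.f ≫ f.f = a.f ≫ t.r.f) {U : x.X.Opens} {U' : x'.X.Opens}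
    (hU : U' ≤ a.f ⁻¹ᵁ U) (i : Fin n) (h : ⊤ ≤ x.σ i ⁻¹ᵁ U) (h' : ⊤ ≤ x'.σ i ⁻¹ᵁ U')
    (v : Γ(t.y.X, t.op U)) : t'.ev i h' (uu hf hU v) = Φ (t.ev i h v) := by
  have h1 := Scheme.Hom.appLE_comp_appLE (t'.y.σ i) f.f (t.op U) (t'.op U') ⊤ (op_le hf hU)
    (t'.sec_le i h')
  have h2 := Scheme.Hom.appLE_comp_appLE (spMap Φ) (t.y.σ i) (t.op U) ⊤ ⊤ (t.sec_le i h) le_top
  have h3 : f.f.appLE (t.op U) (t'.op U') (op_le hf hU) ≫ (t'.y.σ i).appLE (t'.op U') ⊤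
      (t'.sec_le i h') = (t.y.σ i).appLE (t.op U) ⊤ (t.sec_le i h) ≫
        (spMap Φ).appLE ⊤ ⊤ le_top := by
    rw [h1, h2]
    simp only [f.sec i]
  have h4 := ConcreteCategory.congr_hom h3 v
  change (Scheme.ΓSpecIso (CommRingCat.of E')).hom.hom
    ((f.f.appLE (t.op U) (t'.op U') (op_le hf hU) ≫ (t'.y.σ i).appLE (t'.op U') ⊤
      (t'.sec_le i h')) v) = Φ ((Scheme.ΓSpecIso (CommRingCat.of E)).hom.hom
    (((t.y.σ i).appLE (t.op U) ⊤ (t.sec_le i h)).hom v))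
  rw [h4, ← gs_spMap]
  change (Scheme.ΓSpecIso (CommRingCat.of E')).hom.hom ((spMap Φ).appLE ⊤ ⊤ le_top
    ((t.y.σ i).appLE (t.op U) ⊤ (t.sec_le i h) v)) = _
  congr 2

end

section

variable {n : ℕ} {k : Type} [Field k] {T : TC k} {B : Type} [CommRing B] [Algebra k B]
  {B' : Type} [CommRing B'] [Algebra k B'] {φ : B →ₐ[k] B'} {x : Fam n B} {x' : Fam n B'}
  {ct : Charted T x} {ct' : Charted T x'} {a : Arrow (φ : B →+* B') x' x}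

/-- Pull back of functions on a chart. -/
theorem pull {R : Type} [CommRing R] [Algebra k R] {U : x.X.Opens} {U' : x'.X.Opens}
    (hU : U' ≤ a.f ⁻¹ᵁ U) (s : B ⊗[k] R →+* Γ(x.X, U)) (s' : B' ⊗[k] R →+* Γ(x'.X, U'))
    (c : ∀ b : B, s (b ⊗ₜ 1) = coef x.π U b) (c' : ∀ b : B', s' (b ⊗ₜ 1) = coef x'.π U' b)
    (hr : ∀ r : R, (a.f.appLE U U' hU).hom (s (1 ⊗ₜ r)) = s' (1 ⊗ₜ r)) (w : B ⊗[k] R) :
    (a.f.appLE U U' hU).hom (s w) = s' (Algebra.TensorProduct.map φ (AlgHom.id k R) w) := by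
  refine tensor_ind (f := (a.f.appLE U U' hU).hom.comp s)
    (g := s'.comp (Algebra.TensorProduct.map φ (AlgHom.id k R)).toRingHom) ?_ ?_ w
  · intro b
    have h1 : Algebra.TensorProduct.map φ (AlgHom.id k R) (b ⊗ₜ[k] 1) = φ b ⊗ₜ 1 := by simp
    change (a.f.appLE U U' hU).hom (s (b ⊗ₜ 1)) =
      s' (Algebra.TensorProduct.map φ (AlgHom.id k R) (b ⊗ₜ[k] 1))
    rw [h1, c, c']
    exact coef_arrow a.cart.w _ _ _ b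
  · intro r
    have h1 : Algebra.TensorProduct.map φ (AlgHom.id k R) (1 ⊗ₜ[k] r) = 1 ⊗ₜ r := by simp
    change (a.f.appLE U U' hU).hom (s (1 ⊗ₜ r)) =
      s' (Algebra.TensorProduct.map φ (AlgHom.id k R) (1 ⊗ₜ[k] r))
    rw [h1, hr]

theorem le12 (ha : ChArrow a ct' ct) : ct'.U1 ⊓ ct'.U2 ≤ a.f ⁻¹ᵁ (ct.U1 ⊓ ct.U2) := by
  have h1 : a.f ⁻¹ᵁ (ct.U1 ⊓ ct.U2) = a.f ⁻¹ᵁ ct.U1 ⊓ a.f ⁻¹ᵁ ct.U2 := rfl
  rw [h1, ha.h1, ha.h2]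

variable {E J : Type} [CommRing E] [Fintype J] {S : SqE B E J} {E' J' : Type} [CommRing E']
  [Fintype J'] {S' : SqE B' E' J'} {m : J → J' → B'} {Φ : SqHom S S' (φ : B →+* B') m}
  {t : Thk S x} {t' : Thk S' x'} {f : Arrow Φ.Φ t'.y t.y}

theorem q_eq {R : Type} [CommRing R] [Algebra k R] (hf : t'.r.f ≫ f.f = a.f ≫ t.r.f)
    {U : x.X.Opens} {U' : x'.X.Opens} (hU : U' ≤ a.f ⁻¹ᵁ U) (s : B ⊗[k] R ≃+* Γ(x.X, U))
    (s' : B' ⊗[k] R ≃+* Γ(x'.X, U')) (hp : ∀ w : B ⊗[k] R, (a.f.appLE U U' hU).hom (s w) =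
      s' (Algebra.TensorProduct.map φ (AlgHom.id k R) w)) (v : Γ(t.y.X, t.op U)) :
    s'.symm (t'.q U' (uu hf hU v)) =
      Algebra.TensorProduct.map φ (AlgHom.id k R) (s.symm (t.q U v)) := by
  rw [q_uu, RingEquiv.symm_apply_eq, ← hp, RingEquiv.apply_symm_apply]

/-- The morphism of ring data of an arrow. -/
noncomputable def hom (ha : ChArrow a ct' ct) (hf : t'.r.f ≫ f.f = a.f ≫ t.r.f)
    (H : Good3 ct t) (H' : Good3 ct' t') : RHom Φ (rd ct t H) (rd ct' t' H') where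
  u1 := uu hf ha.h1.ge
  u2 := uu hf ha.h2.ge
  u12 := uu hf (le12 ha)
  ua1 z := uu_coef hf ha.h1.ge z
  ua2 z := uu_coef hf ha.h2.ge z
  ua12 z := uu_coef hf (le12 ha) z
  uf1 v := uu_rs hf (le12 ha) ha.h1.ge inf_le_left inf_le_left v
  uf2 v := uu_rs hf (le12 ha) ha.h2.ge inf_le_right inf_le_right v
  uq1 v := q_eq hf ha.h1.ge ct.eq1 ct'.eq1
    (fun w => pull (a := a) ha.h1.ge ct.t1 ct'.t1 ct.c1 ct'.c1 ha.f1 w) v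
  uq2 v := q_eq hf ha.h2.ge ct.eq2 ct'.eq2
    (fun w => pull (a := a) ha.h2.ge ct.t2 ct'.t2 ct.c2 ct'.c2 ha.f2 w) v
  uq12 v := q_eq hf (le12 ha) ct.eq12 ct'.eq12
    (fun w => pull (a := a) (le12 ha) ct.t12 ct'.t12 ct.c12 ct'.c12 (ha.f12 (le12 ha)) w) v

theorem hom_sec (ha : ChArrow a ct' ct) (hf : t'.r.f ≫ f.f = a.f ≫ t.r.f)
    (H : Good3 ct t) (H' : Good3 ct' t') (i : Fin n) (p : Pt T B) (hp : ct.Is (x.σ i) p)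
    (hp' : ct'.Is (x'.σ i) (p.map φ)) :
    (hom ha hf H H').Sec p (rsec ct t H i p hp) (rsec ct' t' H' i (p.map φ) hp') := by
  cases p with
  | one ψ =>
    intro v
    exact ev_uu hf ha.h1.ge i hp.1 hp'.1 v
  | two ψ =>
    intro v
    exact ev_uu hf ha.h2.ge i hp.1 hp'.1 v

end

end KSN

theorem t_KSN (hSQZ : Stmt_SQZ) (hAN : Stmt_AN) : Stmt_KSN := by
  intro n k _ T B _ _ E J _ _ S B' _ _ E' J' _ _ S' φ m Φ x x' ct ct' a ha t t' f hf s hs hs' h δ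
  rintro ⟨H, hH⟩
  have H' : Good3 ct' t' :=
    ⟨hSQZ t' ct'.U1 ct'.ac1, hSQZ t' ct'.U2 ct'.ac2, hSQZ t' (ct'.U1 ⊓ ct'.U2) ct'.ac12⟩
  exact ⟨H', hAN (KSN.hom ha hf H H') s (fun i => rsec ct t H i (s i) (hs i))
    (fun i => rsec ct' t' H' i ((s i).map φ) (hs' i))
    (fun i => KSN.hom_sec ha hf H H' i (s i) (hs i) (hs' i)) h δ hH⟩

end Pool.Agent.MG
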