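import Pool.Agent.MG.SDE

/-!
# `H⁰(C, T^j) = 0` for `j ≥ 1` in terms of arbitrary charts (MP_cc45c1_ag)
-/

namespace MG
open scoped IntermediateField nonZeroDivisors
open Algebra

variable {k K : Type*} [Field k] [Field K] [Algebra k K]

open scoped IntermediateField.algebraAdjoinAdjoin in
/-- Every element of `K` gets a multiple integral over `k[s]` by `s ^ m * c`, `c ≡ 1` modulo `s`. -/
theorem exists_one_sub_mul {s : K} [FiniteDimensional k⟮s⟯ K] (a : K) :
    ∃ b ∈ Algebra.adjoin k {s}, ∃ m : ℕ, (1 - s * b) * s ^ m * a ∈ IC k s := by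
  have halg : IsAlgebraic (Algebra.adjoin k {s}) a := by
    have h1 : IsAlgebraic k⟮s⟯ a := Algebra.IsAlgebraic.isAlgebraic a
    exact (IsFractionRing.isAlgebraic_iff (Algebra.adjoin k {s}) k⟮s⟯ K).mpr h1
  obtain ⟨d, hd0, hd⟩ := halg.exists_integral_multiple
  obtain ⟨P, hP⟩ := evt_surjective k s d
  have hP' : Polynomial.aeval s P = (d : K) := by
    rw [← hP]
    exact Polynomial.aeval_algebraMap_apply K (tt k s) P
  have hP0 : P ≠ 0 := by
    rintro rfl
    rw [map_zero] at hP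
    exact hd0 hP.symm
  obtain ⟨Q, hQ, hQ0⟩ := Polynomial.exists_eq_pow_rootMultiplicity_mul_and_not_dvd P hP0 0
  set m := Polynomial.rootMultiplicity 0 P
  rw [Polynomial.C_0, sub_zero] at hQ hQ0
  have hq : Q.coeff 0 ≠ 0 := by
    intro h
    exact hQ0 (Polynomial.X_dvd_iff.mpr h)
  have hQe : Polynomial.aeval s Q = algebraMap k K (Q.coeff 0) +
      s * Polynomial.aeval s Q.divX := by
    conv_lhs => rw [← Polynomial.divX_mul_X_add Q]
    rw [map_add, map_mul, Polynomial.aeval_X, Polynomial.aeval_C]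
    ring
  refine ⟨algebraMap k K (-(Q.coeff 0)⁻¹) * Polynomial.aeval s Q.divX, ?_, m, ?_⟩
  · apply Subalgebra.mul_mem _ (Subalgebra.algebraMap_mem _ _)
    rw [Algebra.adjoin_singleton_eq_range_aeval]
    exact ⟨_, rfl⟩
  · have e : (1 - s * (algebraMap k K (-(Q.coeff 0)⁻¹) * Polynomial.aeval s Q.divX)) * s ^ m * a =
        algebraMap k K ((Q.coeff 0)⁻¹) * ((d : K) * a) := by
      have h1 : (d : K) = s ^ m * Polynomial.aeval s Q := by
        rw [← hP', hQ, map_mul, map_pow, Polynomial.aeval_X]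
      have h2 : algebraMap k K ((Q.coeff 0)⁻¹) * algebraMap k K (Q.coeff 0) = 1 := by
        rw [← map_mul, inv_mul_cancel₀ hq, map_one]
      rw [h1, hQe, map_neg]
      linear_combination (- s ^ m * a) * h2
    rw [e]
    apply (IC k s).mul_mem ((IC k s).algebraMap_mem _)
    rw [mem_IC]
    have : d • a = (d : K) * a := rfl
    rw [← this]
    exact hd

theorem loc_mono {R : Subalgebra k K} {s : K} (hs : s ∈ R) {a : K} (ha : a ∈ R) :
    a ∈ Loc R s hs := ⟨0, by rwa [pow_zero, one_mul]⟩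

/-- `H¹` of the affine curve `Spec R''` vanishes: `R''[1/s] = R1[1/t] + R''`. -/
theorem exists_decomp {t : K} (ht : t ≠ 0) [FiniteDimensional k⟮t⁻¹⟯ K] [IsAlgClosed k]
    {R : Subalgebra k K} (hR : IC k t⁻¹ ≤ R) {a : K} {N : ℕ} (ha : t⁻¹ ^ N * a ∈ R) :
    ∃ a' ∈ Loc (IC k t) t self_mem_IC, ∃ r ∈ R, a = a' + r := by
  obtain ⟨b, hb, m, hm⟩ := exists_one_sub_mul (k := k) (s := t⁻¹) a
  have hc := twoCharts_IC (k := k) ht
  have hbS : t⁻¹ * b ∈ IC k t⁻¹ := (IC k t⁻¹).mul_mem self_mem_IC (adjoin_le_IC hb)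
  refine ⟨(1 - (t⁻¹ * b) ^ N) * a, ?_, (t⁻¹ * b) ^ N * a, ?_, by ring⟩
  · have h1 : (1 - (t⁻¹ * b) ^ N) * a = (∑ i ∈ Finset.range N, (t⁻¹ * b) ^ i) *
        (t ^ m * ((1 - t⁻¹ * b) * t⁻¹ ^ m * a)) := by
      have h2 : t ^ m * t⁻¹ ^ m = 1 := by rw [← mul_pow, mul_inv_cancel₀ ht, one_pow]
      have h3 := geom_sum_mul_neg (t⁻¹ * b) N
      rw [← h3]
      calc (∑ i ∈ Finset.range N, (t⁻¹ * b) ^ i) * (1 - t⁻¹ * b) * a
          = (∑ i ∈ Finset.range N, (t⁻¹ * b) ^ i) * ((t ^ m * t⁻¹ ^ m) * ((1 - t⁻¹ * b) * a)) := by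
            rw [h2]; ring
        _ = _ := by ring
    rw [h1]
    apply Subalgebra.mul_mem
    · apply Subalgebra.sum_mem
      intro i _
      exact Subalgebra.pow_mem _ (hc.le2 hbS) i
    · exact Subalgebra.mul_mem _ (Subalgebra.pow_mem _ (loc_mono _ self_mem_IC) m) (hc.le2 hm)
  · have h1 : (t⁻¹ * b) ^ N * a = b ^ N * (t⁻¹ ^ N * a) := by rw [mul_pow]; ring
    rw [h1]
    exact R.mul_mem (R.pow_mem (hR (adjoin_le_IC hb)) N) ha

/-- Two independent classes in `H¹(O)` for one cover give two for the cover `t`, `t⁻¹`. -/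
theorem transfer_classes {t : K} (ht : t ≠ 0) [FiniteDimensional k⟮t⁻¹⟯ K] [IsAlgClosed k]
    {V : Subalgebra k K} (hV : Chart V)
    {x y : K} (hx : x ∈ IC k t ⊔ V) (hy : y ∈ IC k t ⊔ V)
    (hxy : ∀ α β : k, α • x + β • y ∈
      Subalgebra.toSubmodule (IC k t) ⊔ Subalgebra.toSubmodule V → α = 0 ∧ β = 0) :
    ∃ x' ∈ Loc (IC k t) t self_mem_IC, ∃ y' ∈ Loc (IC k t) t self_mem_IC,
      ∀ α β : k, α • x' + β • y' ∈
        Subalgebra.toSubmodule (IC k t) ⊔ Subalgebra.toSubmodule (IC k t⁻¹) → α = 0 ∧ β = 0 := by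
  set R := V ⊔ IC k t⁻¹ with hR
  have hVR : V ≤ R := le_sup_left
  have hSR : IC k t⁻¹ ≤ R := le_sup_right
  have hs : t⁻¹ ∈ R := hSR self_mem_IC
  have hle : IC k t ⊔ V ≤ Loc R t⁻¹ hs := by
    apply sup_le
    · intro a ha
      obtain ⟨N, hN⟩ := exists_pow_integral_inv ht (mem_IC.mp ha)
      exact ⟨N, hSR hN⟩
    · intro a ha
      exact loc_mono hs (hVR ha)
  obtain ⟨N, hN⟩ := hle hx
  obtain ⟨M, hM⟩ := hle hy
  obtain ⟨x', hx', r, hr, ex⟩ := exists_decomp ht hSR hN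
  obtain ⟨y', hy', r', hr', ey⟩ := exists_decomp ht hSR hM
  refine ⟨x', hx', y', hy', ?_⟩
  intro α β h
  obtain ⟨p, hp, q, hq, e⟩ := Submodule.mem_sup.mp h
  apply hxy
  set w := q + (α • r + β • r') with hw
  have hwR : w ∈ R := R.add_mem (hSR hq) (R.add_mem (R.smul_mem hr α) (R.smul_mem hr' β))
  have hsum : α • x + β • y = p + w := by
    rw [ex, ey, smul_add, smul_add, hw]
    linear_combination -e
  have hin : α • x + β • y ∈ IC k t ⊔ V :=
    Subalgebra.add_mem _ (Subalgebra.smul_mem _ hx α) (Subalgebra.smul_mem _ hy β)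
  have hwV : w ∈ V := by
    apply hV.mem_of_valuations
    intro O hO
    have hk : ∀ c : k, algebraMap k K c ∈ O := fun c => hO _ (V.algebraMap_mem c)
    have hle' : ∀ S T : Subalgebra k K, (∀ r ∈ S, r ∈ O) → (∀ r ∈ T, r ∈ O) →
        ∀ r ∈ S ⊔ T, r ∈ O := by
      intro S T hS hT
      have : S ⊔ T ≤ ({ O.toSubring with
          algebraMap_mem' := hk } : Subalgebra k K) := sup_le hS hT
      exact fun r hr => this hr
    rcases O.mem_or_inv_mem t with h1 | h1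
    · have h2 : ∀ r ∈ IC k t, r ∈ O := fun r hr => IC_mem_valuation hr O hk h1
      have h3 : w = (α • x + β • y) - p := by rw [hsum]; ring
      rw [h3]
      exact sub_mem (hle' _ _ h2 hO _ hin) (h2 p hp)
    · have h2 : ∀ r ∈ IC k t⁻¹, r ∈ O := fun r hr => IC_mem_valuation hr O hk h1
      exact hle' _ _ hO h2 _ hwR
  rw [hsum]
  exact Submodule.add_mem_sup hp hwV

/-- Two independent regular differentials on a curve with `h¹(O) ≥ 2`. -/
theorem exists_differentials [CharZero k] [IsAlgClosed k] (hd : Algebra.trdeg k K = 1)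
    {U V : Subalgebra k K} (hU : Chart U) (hV : Chart V)
    {x y : K} (hx : x ∈ U ⊔ V) (hy : y ∈ U ⊔ V)
    (hxy : ∀ α β : k, α • x + β • y ∈
      Subalgebra.toSubmodule U ⊔ Subalgebra.toSubmodule V → α = 0 ∧ β = 0) :
    ∃ t u u' : K, Transcendental k t ∧ FiniteDimensional k⟮t⟯ K ∧
      (∀ α β : k, α • u + β • u' = 0 → α = 0 ∧ β = 0) ∧
      ∀ R : Subalgebra k K, Chart R → Reg1 t u R ∧ Reg1 t u' R := by
  obtain ⟨t, htU, htr, hi, hf⟩ := hU.exists_t hd
  have hUt := hU.eq_IC htU hi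
  subst hUt
  have ht : t ≠ 0 := by
    rintro rfl
    exact htr isAlgebraic_zero
  have hf' : FiniteDimensional k⟮t⁻¹⟯ K := by rw [adjoin_inv]; exact hf
  obtain ⟨x', hx', y', hy', hxy'⟩ := transfer_classes ht hV hx hy hxy
  obtain ⟨u, u', hu, ⟨p1, p2⟩, ⟨q1, q2⟩⟩ := (twoCharts_IC ht).exists_two ht hx' hy' hxy'
  refine ⟨t, u, u', htr, hf, hu, fun R hR => ?_⟩
  have hp : ∀ O : ValuationSubring K, (∀ c : k, algebraMap k K c ∈ O) →
      (∀ r ∈ IC k t, r ∈ O) ∨ (∀ r ∈ IC k t⁻¹, r ∈ O) := by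
    intro O hk
    rcases O.mem_or_inv_mem t with h1 | h1
    · exact Or.inl (fun r hr => IC_mem_valuation hr O hk h1)
    · exact Or.inr (fun r hr => IC_mem_valuation hr O hk h1)
  exact ⟨reg1_all hd chart_IC chart_IC hp p1 p2 hR, reg1_all hd chart_IC chart_IC hp q1 q2 hR⟩

/-- A derivation of `K` which kills `t` is zero. -/
theorem derivation_eq_zero [CharZero k] {t : K} [FiniteDimensional k⟮t⟯ K]
    (D : Derivation k K K) (hD : D t = 0) : D = 0 := by
  have h1 : ∀ c ∈ k⟮t⟯, D c = 0 := by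
    intro c hc
    refine IntermediateField.adjoin_induction (F := k) (s := {t}) (p := fun x _ => D x = 0)
      ?_ ?_ ?_ ?_ ?_ hc
    · rintro x rfl
      exact hD
    · intro x
      exact D.map_algebraMap x
    · intro x y _ _ hx hy
      rw [map_add, hx, hy, add_zero]
    · intro x _ hx
      rw [D.leibniz_inv, hx, smul_zero]
    · intro x y _ _ hx hy
      rw [D.leibniz, hx, hy, smul_zero, smul_zero, add_zero]
  have : CharZero k⟮t⟯ := charZero_of_injective_algebraMap (algebraMap k k⟮t⟯).injective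
  have hs : Algebra.IsSeparable k⟮t⟯ K := inferInstance
  have hu : Algebra.FormallyUnramified k⟮t⟯ K :=
    (Algebra.FormallyUnramified.iff_isSeparable k⟮t⟯ K).mpr hs
  let E : Derivation k⟮t⟯ K K :=
    { toFun := D
      map_add' := map_add D
      map_smul' := fun c x => by
        rw [Algebra.smul_def, D.leibniz, RingHom.id_apply, Algebra.smul_def]
        rw [show D (algebraMap k⟮t⟯ K c) = 0 from h1 _ c.2, smul_zero, add_zero]
        rfl
      map_one_eq_zero' := D.map_one_eq_zero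
      leibniz' := D.leibniz }
  have hE : E = 0 := by
    have hsub : Subsingleton (KaehlerDifferential k⟮t⟯ K) := inferInstance
    have := Derivation.liftKaehlerDifferential_comp E
    rw [← this]
    ext x
    rw [Derivation.coe_comp]
    simp [Subsingleton.elim (KaehlerDifferential.D k⟮t⟯ K x) 0]
  ext x
  have := congrArg (fun F : Derivation k⟮t⟯ K K => F x) hE
  exact this

/-- **`H⁰(C, T^j) = 0` for `j ≥ 1`, `h¹(O_C) ≥ 2`**, in terms of arbitrary charts. -/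
theorem not_charts [CharZero k] [IsAlgClosed k] (hd : Algebra.trdeg k K = 1)
    {U V : Subalgebra k K} (hU : Chart U) (hV : Chart V)
    {x y : K} (hx : x ∈ U ⊔ V) (hy : y ∈ U ⊔ V)
    (hxy : ∀ α β : k, α • x + β • y ∈
      Subalgebra.toSubmodule U ⊔ Subalgebra.toSubmodule V → α = 0 ∧ β = 0)
    {R1 R2 : Subalgebra k K} (h1 : Chart R1) (h2 : Chart R2)
    (hi : ∀ a, a ∈ R1 → a ∈ R2 → a ∈ Set.range (algebraMap k K))
    (dd : Derivation k K K) (hdd : dd ≠ 0) (e : K) (D1 : ∀ a ∈ R1, dd a ∈ R1)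
    (D2 : ∀ a ∈ R2, e * dd a ∈ R2) {j : ℕ} (hj : j ≠ 0) {z w : K} (hz : z ∈ R1) (hw : w ∈ R2)
    (hzw : z = e ^ j * w) : z = 0 := by
  obtain ⟨t, u, u', htr, hf, huu, hreg⟩ := exists_differentials hd hU hV hx hy hxy
  obtain ⟨p1, q1⟩ := hreg R1 h1
  obtain ⟨p2, q2⟩ := hreg R2 h2
  have hdt : dd t ≠ 0 := fun h => hdd (derivation_eq_zero dd h)
  obtain ⟨i, rfl⟩ : ∃ i, j = i + 1 := ⟨j - 1, by omega⟩
  have a1 : u * dd t ∈ R1 := p1 dd D1
  have a2 : u' * dd t ∈ R1 := q1 dd D1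
  have D2' : ∀ a ∈ R2, (e • dd) a ∈ R2 := fun a ha => by
    rw [Derivation.smul_apply, smul_eq_mul]; exact D2 a ha
  have b1 : u * (e * dd t) ∈ R2 := by
    have := p2 (e • dd) D2'
    rwa [Derivation.smul_apply, smul_eq_mul] at this
  have b2 : u' * (e * dd t) ∈ R2 := by
    have := q2 (e • dd) D2'
    rwa [Derivation.smul_apply, smul_eq_mul] at this
  obtain ⟨c, hc⟩ := hi ((u * dd t) ^ (i + 1) * z) (R1.mul_mem (R1.pow_mem a1 _) hz) (by
    have h3 : (u * dd t) ^ (i + 1) * z = (u * (e * dd t)) ^ (i + 1) * w := by rw [hzw]; ring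
    rw [h3]
    exact R2.mul_mem (R2.pow_mem b1 _) hw)
  obtain ⟨c', hc'⟩ := hi ((u * dd t) ^ i * (u' * dd t) * z)
    (R1.mul_mem (R1.mul_mem (R1.pow_mem a1 _) a2) hz) (by
    have h3 : (u * dd t) ^ i * (u' * dd t) * z = (u * (e * dd t)) ^ i * (u' * (e * dd t)) * w := by
      rw [hzw]; ring
    rw [h3]
    exact R2.mul_mem (R2.mul_mem (R2.pow_mem b1 _) b2) hw)
  by_contra hz0
  have hu0 : u ≠ 0 := by
    rintro rfl
    exact one_ne_zero (huu 1 0 (by simp)).1
  have e1 : (u * dd t) ^ i * dd t * z * (c' • u + (-c) • u') = 0 := by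
    rw [Algebra.smul_def, Algebra.smul_def, map_neg, hc, hc']
    ring
  have e2 : (u * dd t) ^ i * dd t * z ≠ 0 :=
    mul_ne_zero (mul_ne_zero (pow_ne_zero _ (mul_ne_zero hu0 hdt)) hdt) hz0
  have e3 := huu c' (-c) ((mul_eq_zero.mp e1).resolve_left e2)
  have e4 : c = 0 := by simpa using e3.2
  rw [e4, map_zero] at hc
  exact mul_ne_zero (pow_ne_zero _ (mul_ne_zero hu0 hdt)) hz0 hc.symm

end MG
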