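import Pool.Agent.MG.TwoSec

open AlgebraicGeometry CategoryTheory TopologicalSpace Opposite IsLocalRing

universe u

namespace Pool.Agent.MG.Two

open Polynomial

variable {X : Scheme.{u}} {k : Type u} [Field k] (π : X ⟶ Spec (.of k))

lemma genericPoint_mem [IsIntegral X] (V : X.Opens) (h : Nonempty V) : genericPoint X ∈ V :=
  ((genericPoint_spec X).mem_open_set_iff V.isOpen).mpr (by simpa using h)

/-- A chart with an étale coordinate is not the whole curve. -/
lemma exists_notMem_of_coord [IsAlgClosed k] [IsProper π] [IsIntegral X] (V : X.Opens)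
    (x : Γ(X, V)) (hx : (Polynomial.eval₂RingHom (kmap π V) x).Etale) (hne : Nonempty V) :
    ∃ q : X, q ∉ V := by
  by_contra hcon
  push Not at hcon
  have hV : V = ⊤ := by
    ext q
    simp [hcon q]
  subst hV
  obtain ⟨c, hc⟩ := exists_const π x
  have hinj := etale_injective _ hx
  have h1 : (Polynomial.X - Polynomial.C c : k[X]) = 0 := by
    apply hinj
    rw [map_zero, map_sub]
    simp only [Polynomial.coe_eval₂RingHom, Polynomial.eval₂_X, Polynomial.eval₂_C]
    rw [hc, sub_self]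
  exact Polynomial.X_sub_C_ne_zero c h1

theorem exists_two_charts [IsAlgClosed k] [IsProper π] [SmoothOfRelativeDimension 1 π]
    [IsIntegral X] {ι : Type*} [Finite ι] [Nonempty ι] (p : ι → X)
    (hp : Function.Injective p) (hgen : ∀ i, p i ≠ genericPoint X) :
    ∃ (V1 V2 : X.Opens) (x : Γ(X, V1)) (y : Γ(X, V2)) (c : ι → k),
      IsAffineOpen V1 ∧ IsAffineOpen V2 ∧ V1 ⊔ V2 = ⊤ ∧ (∀ i, p i ∈ V1) ∧ (∀ i, p i ∉ V2) ∧
      Function.Injective c ∧ (Polynomial.eval₂RingHom (kmap π V1) x).Etale ∧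
      (Polynomial.eval₂RingHom (kmap π V2) y).Etale ∧
      (∀ i, ∀ r : Γ(X, V1), p i ∉ X.basicOpen r ↔ ∃ s, r = (x - kmap π V1 (c i)) * s) ∧
      Nonempty V2 := by
  have hpir := pir_stalk π
  have hv := valuationRing_stalk hpir
  have hT := exists_transc π
  have hinf : Infinite k := IsAlgClosed.instInfinite
  have hcs : CompactSpace X := QuasiCompact.compactSpace_of_compactSpace π
  obtain ⟨f, hf, hfp⟩ := exists_transc_regular π hv hT (Set.range p) (Set.finite_range p)
  have hW := isAffineOpen_dom π hpir hf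
  obtain ⟨V1, x, c, hV1, -, hpV1, -, hc, hx, hgen1⟩ := exists_chart_aux π hpir hW p hp hgen
    (fun i => hfp _ ⟨i, rfl⟩) ∅ Set.finite_empty (fun i => Set.notMem_empty _)
    (Set.notMem_empty _)
  have hV1ne : Nonempty V1 := ⟨⟨p (Classical.arbitrary ι), hpV1 _⟩⟩
  have hfin : ((V1 : Set X)ᶜ).Finite := finite_compl π hpir V1
  obtain ⟨q0, hq0⟩ := exists_notMem_of_coord π V1 x hx hV1ne
  obtain ⟨f', hf', hfp'⟩ := exists_transc_regular π hv hT ((V1 : Set X)ᶜ) hfin
  have hW' := isAffineOpen_dom π hpir hf'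
  have hι : Finite {q : X // q ∉ V1} := hfin.to_subtype
  have hne : Nonempty {q : X // q ∉ V1} := ⟨⟨q0, hq0⟩⟩
  obtain ⟨V2, y, c', hV2, -, hqV2, hZ, -, hy, -⟩ := exists_chart_aux π hpir hW'
    (fun q : {q : X // q ∉ V1} => q.1) Subtype.val_injective
    (fun q h => q.2 (h ▸ genericPoint_mem V1 hV1ne)) (fun q => hfp' q.1 q.2) (Set.range p)
    (Set.finite_range p) (fun q ⟨i, hi⟩ => q.2 (by rw [← hi]; exact hpV1 i))
    (fun ⟨i, hi⟩ => hgen i hi)
  refine ⟨V1, V2, x, y, c, hV1, hV2, ?_, hpV1, fun i => hZ _ ⟨i, rfl⟩, hc, hx, hy, hgen1,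
    ⟨⟨q0, hqV2 ⟨q0, hq0⟩⟩⟩⟩
  rw [eq_top_iff]
  intro q _
  by_cases hq : q ∈ V1
  · exact Or.inl hq
  · exact Or.inr (hqV2 ⟨q, hq⟩)

/-- The coordinate minus its value is invertible away from the point. -/
lemma isUnit_sub [IsIntegral X] (hpir : ∀ x : X, IsPrincipalIdealRing (X.presheaf.stalk x))
    {V : X.Opens} (hV : IsAffineOpen V) (z : Γ(X, V)) (p : X) (hp : p ∈ V)
    (hgen : p ≠ genericPoint X) (hz : ∀ r : Γ(X, V), p ∉ X.basicOpen r ↔ ∃ s, r = z * s)
    (U : X.Opens) (hU : U ≤ V) (hpU : p ∉ U) :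
    IsUnit (X.presheaf.map (homOfLE hU).op z) := by
  have h1 : X.basicOpen z ⊓ U = U := by
    apply le_antisymm inf_le_right
    intro q hq
    refine ⟨?_, hq⟩
    by_contra hqz
    have hqV : q ∈ V := hU hq
    have hMp : (hV.primeIdealOf ⟨p, hp⟩).asIdeal.IsMaximal := isMaximal_primeIdealOf hpir hV p hp hgen
    have hle : (hV.primeIdealOf ⟨p, hp⟩).asIdeal ≤ (hV.primeIdealOf ⟨q, hqV⟩).asIdeal := by
      intro r hr
      rw [mem_primeIdealOf_iff] at hr
      obtain ⟨s, rfl⟩ := (hz r).mp hr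
      rw [mem_primeIdealOf_iff, X.basicOpen_mul]
      exact fun h => hqz h.1
    have h2 := hMp.eq_of_le (hV.primeIdealOf ⟨q, hqV⟩).isPrime.ne_top hle
    have h3 := primeIdealOf_injective hV (PrimeSpectrum.ext h2)
    have h4 : p = q := congrArg Subtype.val h3
    exact hpU (h4 ▸ hq)
  have h2 : U ≤ X.basicOpen z := by
    rw [← h1]; exact inf_le_left
  have h3 := X.toRingedSpace.isUnit_res_basicOpen z
  have h4 : X.presheaf.map (homOfLE hU).op z = X.presheaf.map (homOfLE h2).op
      (X.presheaf.map (homOfLE (X.basicOpen_le z)).op z) := by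
    rw [← ConcreteCategory.comp_apply, ← X.presheaf.map_comp]
    rfl
  rw [h4]
  exact h3.map (X.presheaf.map (homOfLE h2).op).hom

/-- Functions which agree on the intersection are constant. -/
lemma const_of_agree [IsAlgClosed k] [IsProper π] [IsIntegral X] {V1 V2 : X.Opens}
    (h12 : V1 ⊔ V2 = ⊤) (a : Γ(X, V1)) (b : Γ(X, V2))
    (h : X.presheaf.map (homOfLE (inf_le_left : V1 ⊓ V2 ≤ V1)).op a =
      X.presheaf.map (homOfLE (inf_le_right : V1 ⊓ V2 ≤ V2)).op b) :
    ∃ c : k, a = kmap π V1 c := by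
  have hgl := X.sheaf.existsUnique_gluing' (fun i : Bool => if i then V1 else V2) ⊤
    (fun i => homOfLE le_top) (by
      rw [← h12]
      apply sup_le
      · exact le_iSup (fun i : Bool => if i then V1 else V2) true
      · exact le_iSup (fun i : Bool => if i then V1 else V2) false)
    (fun i => match i with
      | true => a
      | false => b) (by
      intro i j
      rcases i with _ | _ <;> rcases j with _ | _
      · rfl
      · have h' := congrArg (X.presheaf.map (homOfLE (le_inf inf_le_right inf_le_left :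
          V2 ⊓ V1 ≤ V1 ⊓ V2)).op) h
        rw [← ConcreteCategory.comp_apply, ← ConcreteCategory.comp_apply, ← X.presheaf.map_comp,
          ← X.presheaf.map_comp] at h'
        exact h'.symm
      · exact h
      · rfl)
  obtain ⟨s, hs, -⟩ := hgl
  obtain ⟨c, hc⟩ := exists_const π s
  refine ⟨c, ?_⟩
  have h1 := hs true
  refine Eq.trans h1.symm ?_
  rw [hc]
  exact kmap_res π le_top c

end Pool.Agent.MG.Two
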