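import Pool.Agent.MG.StmtsA
import Pool.Agent.MG.TwoTwo

/-!
# The two-chart structure of a smooth pointed curve
-/

open CategoryTheory CategoryTheory.Limits AlgebraicGeometry TensorProduct

namespace Pool.Agent.MG

namespace Two

open Polynomial

section

variable {X : Scheme.{0}} {k : Type} [Field k] (π : X ⟶ Sp k)

/-- Restriction maps between affine opens are étale. -/
lemma etale_rs {U V : X.Opens} (h : U ≤ V) (hU : IsAffineOpen U) (hV : IsAffineOpen V) :
    (rs X h).Etale := by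
  have h1 := HasRingHomProperty.appLE (@Etale) (𝟙 X) inferInstance ⟨V, hV⟩ ⟨U, hU⟩ h
  have h2 : (𝟙 X : X ⟶ X).appLE V U h = X.presheaf.map (homOfLE h).op := by
    simp only [Scheme.Hom.appLE, Scheme.Hom.id_app]
    exact Category.id_comp _
  have h4 : (CommRingCat.Hom.hom ((𝟙 X : X ⟶ X).appLE V U h)).Etale := h1
  rw [h2] at h4
  exact h4

variable {V1 V2 : X.Opens} (x : Γ(X, V1)) (y : Γ(X, V2))

/-- The ring data of two charts. -/
theorem exists_TC (hV1 : IsAffineOpen V1) (hV2 : IsAffineOpen V2)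
    (hV12 : IsAffineOpen (V1 ⊓ V2))
    (hx : (Polynomial.eval₂RingHom (coef π V1) x).Etale)
    (hy : (Polynomial.eval₂RingHom (coef π V2) y).Etale) :
    ∃ (T : TC k) (e1 : T.R1 ≃+* Γ(X, V1)) (e2 : T.R2 ≃+* Γ(X, V2))
      (e12 : T.R12 ≃+* Γ(X, V1 ⊓ V2)),
      (∀ c : k, e1 (algebraMap k T.R1 c) = coef π V1 c) ∧
      (∀ c : k, e2 (algebraMap k T.R2 c) = coef π V2 c) ∧
      (∀ c : k, e12 (algebraMap k T.R12 c) = coef π (V1 ⊓ V2) c) ∧
      (∀ a, rs X inf_le_left (e1 a) = e12 (T.j1 a)) ∧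
      (∀ a, rs X inf_le_right (e2 a) = e12 (T.j2 a)) ∧ e1 T.x = x ∧ e2 T.y = y := by
  let _ : Algebra k Γ(X, V1) := (coef π V1).toAlgebra
  let _ : Algebra k Γ(X, V2) := (coef π V2).toAlgebra
  let _ : Algebra k Γ(X, V1 ⊓ V2) := (coef π (V1 ⊓ V2)).toAlgebra
  let j1 : Γ(X, V1) →ₐ[k] Γ(X, V1 ⊓ V2) :=
    { rs X inf_le_left with commutes' := fun c => coef_rs π inf_le_left c }
  let j2 : Γ(X, V2) →ₐ[k] Γ(X, V1 ⊓ V2) :=
    { rs X inf_le_right with commutes' := fun c => coef_rs π inf_le_right c }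
  have hj1 : j1.toRingHom.Etale := etale_rs inf_le_left hV12 hV1
  have hj2 : j2.toRingHom.Etale := etale_rs inf_le_right hV12 hV2
  have hx1 : (aeval x : k[X] →ₐ[k] Γ(X, V1)).toRingHom.Etale := hx
  have hy1 : (aeval y : k[X] →ₐ[k] Γ(X, V2)).toRingHom.Etale := hy
  have hx2 : (aeval (j1 x) : k[X] →ₐ[k] Γ(X, V1 ⊓ V2)).toRingHom.Etale := by
    have h1 := RingHom.Etale.stableUnderComposition _ _ hx1 hj1
    have h2 : j1.toRingHom.comp (aeval x : k[X] →ₐ[k] Γ(X, V1)).toRingHom =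
        (aeval (j1 x) : k[X] →ₐ[k] Γ(X, V1 ⊓ V2)).toRingHom := by
      have h3 : j1.comp (aeval x : k[X] →ₐ[k] Γ(X, V1)) = aeval (j1 x) := by
        apply Polynomial.algHom_ext; simp
      rw [← h3]; rfl
    rwa [h2] at h1
  have hy2 : (aeval (j2 y) : k[X] →ₐ[k] Γ(X, V1 ⊓ V2)).toRingHom.Etale := by
    have h1 := RingHom.Etale.stableUnderComposition _ _ hy1 hj2
    have h2 : j2.toRingHom.comp (aeval y : k[X] →ₐ[k] Γ(X, V2)).toRingHom =
        (aeval (j2 y) : k[X] →ₐ[k] Γ(X, V1 ⊓ V2)).toRingHom := by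
      have h3 : j2.comp (aeval y : k[X] →ₐ[k] Γ(X, V2)) = aeval (j2 y) := by
        apply Polynomial.algHom_ext; simp
      rw [← h3]; rfl
    rwa [h2] at h1
  obtain ⟨dd, e, hdd, he⟩ := exists_derivation (j1 x) (j2 y) hx2 hy2
  refine ⟨{ R1 := Γ(X, V1), R2 := Γ(X, V2), R12 := Γ(X, V1 ⊓ V2), j1 := j1, j2 := j2, x := x,
            y := y, etx := hx1, ety := hy1, et1 := hj1, et2 := hj2, dd := dd, ddx := hdd, e := e,
            ey := he }, RingEquiv.refl _, RingEquiv.refl _, RingEquiv.refl _, fun _ => rfl,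
            fun _ => rfl, fun _ => rfl, fun _ => rfl, fun _ => rfl, rfl, rfl⟩

/-- Affine opens are acyclic. -/
lemma acyc_of_affine (U : X.Opens) (hU : IsAffineOpen U) : Acyc U := by
  refine ⟨U, U, hU, hU, by rwa [inf_idem], sup_idem _, fun s => ?_⟩
  refine ⟨rs X (le_inf le_rfl le_rfl : U ≤ U ⊓ U) s, 0, ?_⟩
  have h1 : rs X (inf_le_left : U ⊓ U ≤ U) (rs X (le_inf le_rfl le_rfl : U ≤ U ⊓ U) s) = s := by
    change (X.presheaf.map (homOfLE (le_inf le_rfl le_rfl : U ≤ U ⊓ U)).op ≫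
      X.presheaf.map (homOfLE (inf_le_left : U ⊓ U ≤ U)).op) s = s
    rw [← X.presheaf.map_comp]
    exact ConcreteCategory.congr_hom (X.presheaf.map_id _) s
  rw [h1, map_zero, add_zero]

end

end Two

open Two in
theorem two : Stmt_TWO := by
  intro n k _ _ g C hC hs hn
  have hprop : IsProper C.π := hC.proper
  have hid : spMap (RingHom.id k) = 𝟙 (Sp k) := by simp
  have hst : StableCurve g C := hC.fib k (RingHom.id k) C ⟨{
    f := 𝟙 C.X
    cart := by
      rw [hid]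
      exact IsPullback.of_id_fst
    sec := fun i => by rw [hid, Category.comp_id, Category.id_comp] }⟩
  have hcon : ConnectedSpace C.X := hst.connected
  have hint : IsIntegral C.X := isIntegral_of_smooth C.π
  have hpir := pir_stalk C.π
  obtain ⟨f, hf⟩ := exists_transc C.π
  let q : Sp k := (⊥ : PrimeSpectrum k)
  have : Nonempty (Fin n) := ⟨⟨0, hn⟩⟩
  let p : Fin n → C.X := fun i => C.σ i q
  have hp : Function.Injective p := by
    intro i j hij
    by_contra hne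
    exact hst.distinct i j hne (section_ext C.π _ _ (C.sec i) (C.sec j) q hij)
  have hgen : ∀ i, p i ≠ genericPoint C.X := fun i =>
    section_ne_genericPoint C.π hf (C.σ i) (C.sec i) q
  obtain ⟨V1, V2, x, y, c, hV1, hV2, hcov, hp1, hp2, hc, hx, hy, hz, hV2ne⟩ :=
    exists_two_charts C.π p hp hgen
  have hV1ne : Nonempty V1 := ⟨⟨p ⟨0, hn⟩, hp1 _⟩⟩
  have hV12 : IsAffineOpen (V1 ⊓ V2) := isAffineOpen_inf C.π hV1 hV2
  have hV12ne : Nonempty (V1 ⊓ V2 : C.X.Opens) := nonempty_inf hV1ne hV2ne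
  obtain ⟨T, e1, e2, e12, hc1, hc2, hc12, hj1, hj2, hTx, hTy⟩ :=
    exists_TC C.π x y hV1 hV2 hV12 hx hy
  have hle : ∀ i, ⊤ ≤ C.σ i ⁻¹ᵁ V1 := fun i => top_le_of_mem (C.σ i) V1 q (hp1 i)
  have hevx : ∀ i, evs (C.σ i) V1 (hle i) x = c i := by
    intro i
    have h1 : evs (C.σ i) V1 (hle i) (x - kmap C.π V1 (c i)) = 0 := by
      rw [evs_eq_zero_iff _ _ _ _ q]
      exact (hz i _).mpr ⟨1, (mul_one _).symm⟩
    rwa [map_sub, evs_kmap C.π _ (C.sec i), sub_eq_zero] at h1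
  let pt : ∀ i, T.R1 →ₐ[k] k := fun i =>
    { (evs (C.σ i) V1 (hle i)).comp (e1 : T.R1 →+* Γ(C.X, V1)) with
      commutes' := fun a => by
        change evs (C.σ i) V1 (hle i) (e1 (algebraMap k T.R1 a)) = a
        rw [hc1]
        exact evs_kmap C.π _ (C.sec i) V1 (hle i) a }
  have hpt : ∀ i a, pt i a = evs (C.σ i) V1 (hle i) (e1 a) := fun i a => rfl
  have hptx : ∀ i, pt i T.x = c i := by
    intro i
    rw [hpt, hTx, hevx]
  have hxe : ∀ i, e1 (T.x - algebraMap k T.R1 (pt i T.x)) = x - kmap C.π V1 (c i) := by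
    intro i
    rw [map_sub, hTx, hc1, hptx]
    rfl
  let ct : Charted T C :=
    { U1 := V1
      U2 := V2
      cover := hcov
      ac1 := acyc_of_affine V1 hV1
      ac2 := acyc_of_affine V2 hV2
      ac12 := acyc_of_affine _ hV12
      t1 := (e1 : T.R1 →+* Γ(C.X, V1)).comp (Algebra.TensorProduct.lid k T.R1 :
        k ⊗[k] T.R1 →+* T.R1)
      t2 := (e2 : T.R2 →+* Γ(C.X, V2)).comp (Algebra.TensorProduct.lid k T.R2 :
        k ⊗[k] T.R2 →+* T.R2)
      t12 := (e12 : T.R12 →+* Γ(C.X, V1 ⊓ V2)).comp (Algebra.TensorProduct.lid k T.R12 :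
        k ⊗[k] T.R12 →+* T.R12)
      b1 := e1.bijective.comp (Algebra.TensorProduct.lid k T.R1).bijective
      b2 := e2.bijective.comp (Algebra.TensorProduct.lid k T.R2).bijective
      b12 := e12.bijective.comp (Algebra.TensorProduct.lid k T.R12).bijective
      c1 := fun b => by
        change e1 (Algebra.TensorProduct.lid k T.R1 (b ⊗ₜ 1)) = _
        rw [Algebra.TensorProduct.lid_tmul, ← Algebra.algebraMap_eq_smul_one, hc1]
      c2 := fun b => by
        change e2 (Algebra.TensorProduct.lid k T.R2 (b ⊗ₜ 1)) = _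
        rw [Algebra.TensorProduct.lid_tmul, ← Algebra.algebraMap_eq_smul_one, hc2]
      c12 := fun b => by
        change e12 (Algebra.TensorProduct.lid k T.R12 (b ⊗ₜ 1)) = _
        rw [Algebra.TensorProduct.lid_tmul, ← Algebra.algebraMap_eq_smul_one, hc12]
      r1 := fun a => by
        change rs C.X inf_le_left (e1 (Algebra.TensorProduct.lid k T.R1 (1 ⊗ₜ a))) =
          e12 (Algebra.TensorProduct.lid k T.R12 (1 ⊗ₜ T.j1 a))
        rw [Algebra.TensorProduct.lid_tmul, Algebra.TensorProduct.lid_tmul, one_smul, one_smul,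
          hj1]
      r2 := fun a => by
        change rs C.X inf_le_right (e2 (Algebra.TensorProduct.lid k T.R2 (1 ⊗ₜ a))) =
          e12 (Algebra.TensorProduct.lid k T.R12 (1 ⊗ₜ T.j2 a))
        rw [Algebra.TensorProduct.lid_tmul, Algebra.TensorProduct.lid_tmul, one_smul, one_smul,
          hj2] }
  have hqall : ∀ q' : Sp k, q' = q := fun q' => Subsingleton.elim _ _
  refine ⟨T, ⟨{
    ct := ct
    aff := ⟨hV1, hV2, hV12⟩
    pt := pt
    is := fun i => ⟨hle i, fun a => ?_⟩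
    off := fun i q' => ?_
    gen := fun i a ha => ?_
    ne := fun i j hij h => ?_
    dom := ?_
    inj1 := fun a b hab => ?_
    inj2 := fun a b hab => ?_
    h0 := fun a b hab => ?_
    unit := fun i => ?_ }⟩⟩
  · change (C.σ i).appLE V1 ⊤ (hle i) (e1 (Algebra.TensorProduct.lid k T.R1 (1 ⊗ₜ a))) = gl k (pt i a)
    rw [Algebra.TensorProduct.lid_tmul, one_smul, hpt]
    exact (ConcreteCategory.congr_hom (Scheme.ΓSpecIso (CommRingCat.of k)).hom_inv_id
      ((C.σ i).appLE V1 ⊤ (hle i) (e1 a))).symm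
  · rw [hqall q']
    exact hp2 i
  · rw [hpt, evs_eq_zero_iff _ _ _ _ q] at ha
    obtain ⟨s, hs'⟩ := (hz i _).mp ha
    refine ⟨e1.symm s, ?_⟩
    apply e1.injective
    rw [map_mul, hxe, e1.apply_symm_apply, hs']
  · rw [hptx, hptx] at h
    exact hij (hc h)
  · exact e12.toMulEquiv.isDomain _
  · apply e1.injective
    apply map_injective_of_isIntegral C.X (homOfLE (inf_le_left : V1 ⊓ V2 ≤ V1))
    have h1 := hj1 a
    have h2 := hj1 b
    rw [hab, ← h2] at h1
    exact h1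
  · apply e2.injective
    apply map_injective_of_isIntegral C.X (homOfLE (inf_le_right : V1 ⊓ V2 ≤ V2))
    have h1 := hj2 a
    have h2 := hj2 b
    rw [hab, ← h2] at h1
    exact h1
  · have h1 : rs C.X inf_le_left (e1 a) = rs C.X inf_le_right (e2 b) := by
      rw [hj1, hj2, hab]
    obtain ⟨d, hd⟩ := const_of_agree C.π hcov (e1 a) (e2 b) h1
    refine ⟨d, ?_⟩
    apply e1.injective
    rw [hd, hc1]
    rfl
  · have h1 := isUnit_sub hpir hV1 (x - kmap C.π V1 (c i)) (p i) (hp1 i) (hgen i) (hz i)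
      (V1 ⊓ V2) inf_le_left (fun h => hp2 i h.2)
    have h2 : e12 (T.j1 (T.x - algebraMap k T.R1 (pt i T.x))) =
        rs C.X inf_le_left (x - kmap C.π V1 (c i)) := by
      rw [← hj1, hxe]
    have h3 : IsUnit (e12 (T.j1 (T.x - algebraMap k T.R1 (pt i T.x)))) := by
      rw [h2]; exact h1
    exact (MulEquiv.isUnit_map e12.toMulEquiv).mp h3

end Pool.Agent.MG
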