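import Pool.Agent.MG.Std
import Pool.Agent.MG.Defs

/-!
# Comparison of the definitions of the statement and of the proofs
-/

open CategoryTheory AlgebraicGeometry

namespace Pool.Agent.MG.Std

section Curves

variable {n : ℕ} {k : Type} [Field k]

theorem genus_iff {X : Scheme.{0}} (π : X ⟶ Sp k) (g : ℕ) :
    HasGenus π g ↔ MG.HasGenus π g := by
  constructor
  · rintro ⟨U, V, hU, hV, hUV, L, hs, ha, hc, hk⟩
    have h0 : L 0 = 0 := by
      have := ha 0 0
      rw [add_zero] at this
      exact left_eq_add.1 this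
    exact ⟨U, V, hU, hV, hUV, ⟨⟨L, h0⟩, ha⟩, hs, hc, hk⟩
  · rintro ⟨U, V, hU, hV, hUV, L, hs, hc, hk⟩
    exact ⟨U, V, hU, hV, hUV, L, hs, fun s t => map_add L s t, hc, hk⟩

/-- Comparison of vector fields. -/
def VField.to {z : Fam n k} (v : VField z) : MG.VField z where
  D U := ⟨⟨v.D U, by
    have := (v.der U).add 0 0
    rw [add_zero] at this
    exact left_eq_add.1 this⟩, (v.der U).add⟩
  mul U := (v.der U).mul
  const U := (v.der U).const
  res := v.res
  sec := v.sec

/-- Comparison of vector fields. -/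
def VField.of {z : Fam n k} (v : MG.VField z) : VField z where
  D U := v.D U
  der U := ⟨fun a b => map_add (v.D U) a b, v.mul U, v.const U⟩
  res := v.res
  sec := v.sec

theorem curve_iff (g : ℕ) (z : Fam n k) : StableCurve g z ↔ MG.StableCurve g z := by
  constructor
  · intro h
    exact ⟨h.connected, h.nodal, (genus_iff _ _).1 h.genus, h.distinct, h.smooth, fun v U =>
      AddMonoidHom.ext fun a => h.rigid (VField.of v) U a⟩
  · intro h
    exact ⟨h.connected, h.nodal, (genus_iff _ _).2 h.genus, h.distinct, h.smooth, fun v U a =>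
      DFunLike.congr_fun (h.rigid (VField.to v) U) a⟩

end Curves

section Families

variable {n : ℕ} {A B : Type} [CommRing A] [CommRing B]

theorem stable_iff (g : ℕ) (x : Fam n A) : IsStable g x ↔ MG.IsStable g x := by
  constructor
  · intro h
    exact ⟨h.proper, h.flat, h.fp, fun k _ _ s z hz => (curve_iff g z).1 (h.fib k s z hz)⟩
  · intro h
    exact ⟨h.proper, h.flat, h.fp, fun k _ _ s z hz => (curve_iff g z).2 (h.fib k s z hz)⟩

/-- Comparison of deformations. -/
def Defo.to {g : ℕ} {x : Fam n A} (d : Defo g x) : MG.Defo g x := ⟨d.y, (stable_iff g _).1 d.stable, d.r⟩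

/-- Comparison of deformations. -/
def Defo.of {g : ℕ} {x : Fam n A} (d : MG.Defo g x) : Defo g x := ⟨d.y, (stable_iff g _).2 d.stable, d.r⟩

/-- Comparison of covectors. -/
def Cov.to {g : ℕ} {x : Fam n A} (l : Cov g x) : MG.Cov g x where
  l d := l.l (Defo.of d)
  iso d d' f h := l.iso (Defo.of d) (Defo.of d') f h
  scale a d d' f h := l.scale a (Defo.of d) (Defo.of d') f h
  add z hz r d₁ d₂ d f₁ f₂ f h₁ h₂ h := l.add z ((stable_iff g z).2 hz) r (Defo.of d₁)
    (Defo.of d₂) (Defo.of d) f₁ f₂ f h₁ h₂ h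

/-- Comparison of covectors. -/
def Cov.of {g : ℕ} {x : Fam n A} (l : MG.Cov g x) : Cov g x where
  l d := l.l (Defo.to d)
  iso d d' f h := l.iso (Defo.to d) (Defo.to d') f h
  scale a d d' f h := l.scale a (Defo.to d) (Defo.to d') f h
  add z hz r d₁ d₂ d f₁ f₂ f h₁ h₂ h := l.add z ((stable_iff g z).1 hz) r (Defo.to d₁)
    (Defo.to d₂) (Defo.to d) f₁ f₂ f h₁ h₂ h

theorem Cov.of_to {g : ℕ} {x : Fam n A} (l : Cov g x) : Cov.of (Cov.to l) = l := rfl

theorem Cov.of_zero {g : ℕ} {x : Fam n A} : Cov.of (0 : MG.Cov g x) = 0 := rfl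

theorem compat {g : ℕ} {φ : A →+* B} {y : Fam n B} {x : Fam n A} (a : Arrow φ y x)
    (l' : MG.Cov g y) (l : MG.Cov g x) (h : MG.Compat a l' l) :
    Compat a (Cov.of l') (Cov.of l) :=
  fun d' d f hf => h (Defo.to d') (Defo.to d) f hf

end Families

/-- Comparison of regular functions. -/
def Reg.to {g n : ℕ} (F : Reg g n) : MG.Reg g n where
  F A _ _ x hx l := F.F A x ((stable_iff g x).2 hx) (Cov.of l)
  nat A B _ _ _ _ φ x y hx hy a l l' h :=
    F.nat A B φ x y ((stable_iff g x).2 hx) ((stable_iff g y).2 hy) a _ _ (compat a l' l h)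

theorem Reg.to_F {g n : ℕ} (F : Reg g n) (A : Type) [CommRing A] [Algebra ℂ A] (x : Fam n A)
    (hx : IsStable g x) (l : Cov g x) :
    F.F A x hx l = (Reg.to F).F A x ((stable_iff g x).1 hx) (Cov.to l) := rfl

end Pool.Agent.MG.Std
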