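import Pool.Agent.MG.Pre
import Pool.Agent.MG.StdIff

/-!
# The theorem for pointed curves of genus at least two
-/

open CategoryTheory AlgebraicGeometry

namespace Pool.Agent.MG

theorem pointed_smooth (g n : ℕ) (hg : 2 ≤ g) (hn : 1 ≤ n) (k : Type) [Field k] [IsAlgClosed k]
    [Algebra ℂ k] (F : Reg g n) (C : Fam n k) (hC : IsStable g C) (hs : Smooth C.π)
    (l : Cov g C) : F.F k C hC l = F.F k C hC 0 := by
  have hst : StableCurve g C := CST.stableCurve hC
  have hs1 : SmoothOfRelativeDimension 1 C.π :=
    SmNod.smoothOfRelativeDimension_one C.π hst.nodal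
  exact pointed hyp two stmt_NOT g n hg hn k F C hC hs1 l

end Pool.Agent.MG
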