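import Pool.Agent.MG.TwoAff

open AlgebraicGeometry CategoryTheory TopologicalSpace Opposite IsLocalRing

universe u

namespace Pool.Agent.MG.Two

open Polynomial

variable {X : Scheme.{u}} [IsIntegral X] {k : Type u} [Field k] (π : X ⟶ Spec (.of k))

lemma transc_iff (f : X.functionField) :
    Transc π f ↔ @Transcendental k X.functionField _ _ (kfun π).toAlgebra f := by
  let _ := (kfun π).toAlgebra
  rw [transcendental_iff_injective]
  rfl

lemma transc_inv_sub {f : X.functionField} (hf : Transc π f) (c : k) :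
    Transc π (f - kfun π c)⁻¹ := by
  rw [transc_iff] at hf ⊢
  let _ := (kfun π).toAlgebra
  intro h
  apply hf
  have h1 : IsAlgebraic k (f - kfun π c) := by
    have := h.inv
    rwa [inv_inv] at this
  have h2 : IsAlgebraic k (kfun π c) := isAlgebraic_algebraMap (A := X.functionField) c
  have h3 := h1.add h2
  rwa [sub_add_cancel] at h3

lemma kfun_eq (x : X) (c : k) : kfun π c =
    algebraMap (X.presheaf.stalk x) X.functionField (X.presheaf.germ ⊤ x trivial (kmap π ⊤ c)) := by
  have : Nonempty (⊤ : X.Opens) := ⟨⟨x, trivial⟩⟩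
  rw [Scheme.algebraMap_germ_eq_germToFunctionField (X := X) (U := ⊤) (x := x) trivial]
  exact (germ_kmap π ⊤ c).symm

lemma bad_subsingleton (hv : ∀ x : X, ValuationRing (X.presheaf.stalk x))
    (f : X.functionField) (x : X) :
    {c : k | x ∉ dom (f - kfun π c)⁻¹}.Subsingleton := by
  have key : ∀ c : k, x ∉ dom (f - kfun π c)⁻¹ →
      ∃ a : X.presheaf.stalk x, a ∈ nonunits (X.presheaf.stalk x) ∧
        algebraMap (X.presheaf.stalk x) X.functionField a = f - kfun π c := by
    intro c hc
    rcases mem_dom_or_mem_dom_inv hv (f - kfun π c)⁻¹ x with h | h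
    · exact absurd h hc
    · rw [inv_inv] at h
      obtain ⟨a, ha⟩ := (mem_dom_iff _ x).mp h
      refine ⟨a, ?_, ha⟩
      intro hu
      apply hc
      obtain ⟨u, hu⟩ := hu
      refine (mem_dom_iff _ x).mpr ⟨(↑(u⁻¹) : X.presheaf.stalk x), ?_⟩
      rw [← ha, ← hu]
      refine eq_inv_of_mul_eq_one_left ?_
      rw [← map_mul, Units.inv_mul, map_one]
  intro c hc c' hc'
  by_contra hne
  obtain ⟨a, ha, ha'⟩ := key c hc
  obtain ⟨b, hb, hb'⟩ := key c' hc'
  have h1 : algebraMap (X.presheaf.stalk x) X.functionField (b - a) =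
      algebraMap (X.presheaf.stalk x) X.functionField
        (X.presheaf.germ ⊤ x trivial (kmap π ⊤ (c - c'))) := by
    rw [map_sub, ha', hb', ← kfun_eq, map_sub]
    ring
  have h2 := IsFractionRing.injective (X.presheaf.stalk x) X.functionField h1
  have h3 : IsUnit (b - a) := by
    rw [h2]
    exact ((sub_ne_zero.mpr hne).isUnit.map (kmap π ⊤)).map (X.presheaf.germ ⊤ x trivial).hom
  have h4 : b - a ∈ nonunits (X.presheaf.stalk x) := by
    rw [← mem_maximalIdeal] at ha hb ⊢
    exact sub_mem hb ha
  exact h4 h3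

/-- There is a transcendental function which is regular at finitely many given points. -/
lemma exists_transc_regular [Infinite k] (hv : ∀ x : X, ValuationRing (X.presheaf.stalk x))
    (hT : ∃ f : X.functionField, Transc π f) (S : Set X) (hS : S.Finite) :
    ∃ f : X.functionField, Transc π f ∧ ∀ x ∈ S, x ∈ dom f := by
  obtain ⟨f, hf⟩ := hT
  have hfin : (⋃ x ∈ S, {c : k | x ∉ dom (f - kfun π c)⁻¹}).Finite :=
    hS.biUnion fun x _ => (bad_subsingleton π hv f x).finite
  obtain ⟨c, hc⟩ := hfin.infinite_compl.nonempty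
  refine ⟨(f - kfun π c)⁻¹, transc_inv_sub π hf c, ?_⟩
  intro x hx
  by_contra hcon
  exact hc (Set.mem_biUnion hx hcon)

end Pool.Agent.MG.Two
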