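import Pool.Agent.MG.StmtsA

/-!
# PBS: stable families and their thickenings can be pulled back
-/

open CategoryTheory CategoryTheory.Limits AlgebraicGeometry TensorProduct

namespace Pool.Agent.MG

namespace PBS

theorem spMap_comp {A B C : Type} [CommRing A] [CommRing B] [CommRing C] (φ : A →+* B)
    (ψ : B →+* C) : spMap (ψ.comp φ) = spMap ψ ≫ spMap φ := by
  unfold spMap
  rw [← Spec.map_comp]
  rfl

/-- Composition of arrows. -/
noncomputable def comp {n : ℕ} {A B C : Type} [CommRing A] [CommRing B] [CommRing C]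
    {φ : A →+* B} {ψ : B →+* C} {z : Fam n C} {y : Fam n B} {x : Fam n A} (a : Arrow ψ z y)
    (b : Arrow φ y x) : Arrow (ψ.comp φ) z x where
  f := a.f ≫ b.f
  cart := by
    rw [spMap_comp]
    exact a.cart.paste_horiz b.cart
  sec i := by
    rw [spMap_comp, reassoc_of% a.sec i, b.sec i, Category.assoc]

section

variable {n : ℕ} {A B : Type} [CommRing A] [CommRing B] (φ : A →+* B) (x : Fam n A)

/-- The base change of a family. -/
noncomputable def bc : Fam n B where
  X := pullback x.π (spMap φ)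
  π := pullback.snd _ _
  σ i := pullback.lift (spMap φ ≫ x.σ i) (𝟙 _) (by
    rw [Category.assoc, x.sec, Category.comp_id, Category.id_comp])
  sec i := pullback.lift_snd _ _ _

/-- The arrow of a base change. -/
noncomputable def bcArrow : Arrow φ (bc φ x) x where
  f := pullback.fst _ _
  cart := IsPullback.of_hasPullback x.π (spMap φ)
  sec _ := pullback.lift_fst _ _ _

theorem bc_stable {g : ℕ} (h : IsStable g x) : IsStable g (bc φ x) where
  proper := by
    have := h.proper
    change IsProper (pullback.snd x.π (spMap φ))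
    infer_instance
  flat := by
    have := h.flat
    change Flat (pullback.snd x.π (spMap φ))
    infer_instance
  fp := by
    have := h.fp
    change LocallyOfFinitePresentation (pullback.snd x.π (spMap φ))
    infer_instance
  fib k _ _ s z := by
    rintro ⟨a⟩
    exact h.fib k (s.comp φ) z ⟨comp a (bcArrow φ x)⟩

end

theorem p_comp {B E J E' J' : Type} [CommRing B] [CommRing E] [Fintype J] [CommRing E']
    [Fintype J'] {S : SqE B E J} {S' : SqE B E' J'} {m : J → J' → B}
    (Φ : SqHom S S' (RingHom.id B) m) : S'.p.comp Φ.Φ = S.p := by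
  ext z
  have h0 : S.p (z - S.i (S.p z)) = 0 := by rw [map_sub, S.pi, sub_self]
  obtain ⟨b, hb⟩ := S.ex _ h0
  have hz : z = S.i (S.p z) + ∑ j, S.ε j * S.i (b j) := by rw [← hb]; abel
  change S'.p (Φ.Φ z) = S.p z
  have h1 : S'.p (Φ.Φ (S.i (S.p z) + ∑ j, S.ε j * S.i (b j))) = S.p z := by
    rw [map_add, map_add, Φ.hi, S'.pi, RingHom.id_apply, map_sum, map_sum, Finset.sum_eq_zero,
      add_zero]
    intro j _
    rw [map_mul, map_mul, Φ.he, map_sum, Finset.sum_eq_zero, zero_mul]
    intro l _
    rw [map_mul, S'.pe, zero_mul]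
  rw [← hz] at h1
  exact h1

end PBS

open PBS in
theorem t_PBS : Stmt_PBS := by
  intro n B E J E' J' _ _ _ _ _ S S' m Φ x t g hg
  have hp : spMap S.p = spMap S'.p ≫ spMap Φ.Φ := by rw [← spMap_comp, p_comp]
  have hw : t.r.f ≫ t.y.π = (x.π ≫ spMap S'.p) ≫ spMap Φ.Φ := by
    rw [t.r.cart.w, hp, Category.assoc]
  have hst := bc_stable Φ.Φ t.y hg
  let r : Arrow S'.p x (bc Φ.Φ t.y) :=
    { f := pullback.lift t.r.f (x.π ≫ spMap S'.p) hw
      cart := by
        refine IsPullback.of_right (h₁₂ := pullback.fst t.y.π (spMap Φ.Φ)) (v₁₃ := t.y.π)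
          (h₂₂ := spMap Φ.Φ) ?_ (pullback.lift_snd _ _ _) (bcArrow Φ.Φ t.y).cart
        rw [pullback.lift_fst, ← hp]
        exact t.r.cart
      sec := fun i => by
        apply pullback.hom_ext
        · change (x.σ i ≫ pullback.lift t.r.f (x.π ≫ spMap S'.p) hw) ≫ pullback.fst _ _ =
            (spMap S'.p ≫ pullback.lift (spMap Φ.Φ ≫ t.y.σ i) (𝟙 _) _) ≫ pullback.fst _ _
          rw [Category.assoc, Category.assoc, pullback.lift_fst, pullback.lift_fst, t.r.sec i, hp,
            Category.assoc]
        · change (x.σ i ≫ pullback.lift t.r.f (x.π ≫ spMap S'.p) hw) ≫ pullback.snd _ _ =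
            (spMap S'.p ≫ pullback.lift (spMap Φ.Φ ≫ t.y.σ i) (𝟙 _) _) ≫ pullback.snd _ _
          rw [Category.assoc, Category.assoc, pullback.lift_snd, pullback.lift_snd,
            reassoc_of% x.sec i, Category.comp_id] }
  exact ⟨⟨bc Φ.Φ t.y, hst.flat, r⟩, bcArrow Φ.Φ t.y, hst, pullback.lift_fst _ _ _⟩

end Pool.Agent.MG
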