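import Pool.Agent.MG.StmtsB

/-!
# Proof of LOC
-/

open CategoryTheory CategoryTheory.Limits AlgebraicGeometry TensorProduct

namespace Pool.Agent.MG

theorem stmt_LOC : Stmt_LOC := by
  intro k _ n C T ch ι s N f h
  set z : Fin n → T.R1 := fun i => T.x - algebraMap k T.R1 (ch.pt i T.x) with hz
  have hcop : ∀ i j, i ≠ j → IsCoprime (z i) (z j) := by
    intro i j hij
    have h1 : ch.pt j T.x - ch.pt i T.x ≠ 0 := by
      intro h0
      exact ch.ne i j hij (sub_eq_zero.mp h0).symm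
    have h2 : z i - z j = algebraMap k T.R1 (ch.pt j T.x - ch.pt i T.x) := by
      simp only [hz, map_sub]
      ring
    refine ⟨algebraMap k T.R1 (ch.pt j T.x - ch.pt i T.x)⁻¹,
      -algebraMap k T.R1 (ch.pt j T.x - ch.pt i T.x)⁻¹, ?_⟩
    have h3 : algebraMap k T.R1 (ch.pt j T.x - ch.pt i T.x)⁻¹ * z i +
        -algebraMap k T.R1 (ch.pt j T.x - ch.pt i T.x)⁻¹ * z j =
        algebraMap k T.R1 (ch.pt j T.x - ch.pt i T.x)⁻¹ * (z i - z j) := by ring
    rw [h3, h2, ← map_mul, inv_mul_cancel₀ h1, map_one]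
  have hdvd : ∀ j ∈ s, (MvPolynomial.C (z j ^ N) : MvPolynomial (Fin n ⊕ ι) T.R1) ∣ f := by
    intro j hj
    obtain ⟨M, q, hq⟩ := h j hj
    have h1 : IsCoprime (z j ^ N) ((∏ i ∈ s.erase j, z i) ^ M) := by
      apply IsCoprime.pow
      apply IsCoprime.prod_right
      intro i hi
      exact hcop j i (Finset.ne_of_mem_erase hi).symm
    have h2 : IsCoprime (MvPolynomial.C (z j ^ N) : MvPolynomial (Fin n ⊕ ι) T.R1)
        (MvPolynomial.C ((∏ i ∈ s.erase j, z i) ^ M)) := h1.map MvPolynomial.C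
    exact h2.dvd_of_dvd_mul_left ⟨q, hq⟩
  have h3 : (∏ i ∈ s, (MvPolynomial.C (z i ^ N) : MvPolynomial (Fin n ⊕ ι) T.R1)) ∣ f := by
    apply Finset.prod_dvd_of_coprime
    · intro i _ j _ hij
      exact ((hcop i j hij).pow).map MvPolynomial.C
    · exact hdvd
  obtain ⟨q, hq⟩ := h3
  refine ⟨q, ?_⟩
  rw [hq, ← map_prod, Finset.prod_pow]

end Pool.Agent.MG
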