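import Pool.Agent.MG.NOTS
import Pool.Agent.MG.TwoSmC

/-!
# NOT, in final form
-/

open CategoryTheory CategoryTheory.Limits AlgebraicGeometry TensorProduct

namespace Pool.Agent.MG

open Two

/-- Block NOT. -/
theorem stmt_NOT : Stmt_NOT :=
  stmt_NOT_of (fun C hp hs hc => by
    have := hp
    have := hs
    have := hc
    exact ⟨isIntegral_of_smooth C.π, fun x => pir_stalk C.π x⟩)

end Pool.Agent.MG
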