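import Pool.Agent.MG.SCH

/-!
# Proof of NOT
-/

open CategoryTheory CategoryTheory.Limits AlgebraicGeometry TensorProduct

namespace Pool.Agent.MG

open Two

theorem isFractionRing_of_injective {A K : Type} [CommRing A] [IsDomain A] [Field K] [Algebra A K]
    (hinj : Function.Injective (algebraMap A K))
    (h : ∀ z : K, ∃ a b : A, algebraMap A K b ≠ 0 ∧ algebraMap A K b * z = algebraMap A K a) :
    IsFractionRing A K := by
  refine ⟨?_, ?_, ?_⟩
  · rintro ⟨b, hb⟩
    exact isUnit_iff_ne_zero.mpr (by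
      intro h
      exact nonZeroDivisors.ne_zero hb (hinj (by rw [h, map_zero])))
  · intro z
    obtain ⟨a, b, hb, hz⟩ := h z
    refine ⟨⟨a, ⟨b, mem_nonZeroDivisors_of_ne_zero ?_⟩⟩, ?_⟩
    · rintro rfl
      exact hb (map_zero _)
    · rw [mul_comm]
      exact hz
  · intro x y h
    exact ⟨1, by rw [hinj h]⟩

section

variable {n : ℕ} {k : Type} [Field k] {C : Fam n k} {T : TC k} (ch : Cht C T)

include ch in
theorem Cht.nonempty12 : Nonempty (ch.ct.U1 ⊓ ch.ct.U2 : C.X.Opens) := by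
  by_contra hne
  have hsub : Subsingleton Γ(C.X, ch.ct.U1 ⊓ ch.ct.U2) := by
    have h1 : ch.ct.U1 ⊓ ch.ct.U2 = ⊥ := by
      rw [← le_bot_iff]
      intro z hz
      exact (hne ⟨⟨z, hz⟩⟩).elim
    rw [h1]
    infer_instance
  have hd := ch.dom
  have h2 : (1 : k ⊗[k] T.R12) = 0 := ch.ct.b12.1 (Subsingleton.elim _ _)
  have h3 := congrArg (Algebra.TensorProduct.lid k T.R12) h2
  rw [map_one, map_zero] at h3
  exact one_ne_zero h3

variable [IsIntegral C.X] [Algebra k C.X.functionField]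
  (hk : ∀ c, algebraMap k C.X.functionField c = kfun C.π c)
  [Nonempty (ch.ct.U1 ⊓ ch.ct.U2 : C.X.Opens)] [Nonempty ch.ct.U1] [Nonempty ch.ct.U2]

/-- `R₁₂ → K`. -/
noncomputable def Cht.phi12 : T.R12 →ₐ[k] C.X.functionField :=
  { ((C.X.germToFunctionField (ch.ct.U1 ⊓ ch.ct.U2)).hom.comp ch.ct.t12).comp
      (Algebra.TensorProduct.includeRight : T.R12 →ₐ[k] k ⊗[k] T.R12).toRingHom with
    commutes' := fun c => by
      change (C.X.germToFunctionField (ch.ct.U1 ⊓ ch.ct.U2)).hom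
        (ch.ct.t12 (1 ⊗ₜ algebraMap k T.R12 c)) = _
      have h1 : (1 : k) ⊗ₜ[k] algebraMap k T.R12 c = c ⊗ₜ 1 := by
        rw [Algebra.algebraMap_eq_smul_one, ← TensorProduct.smul_tmul, smul_eq_mul, mul_one]
      rw [h1, ch.ct.c12, hk, coef_eq_kmap]
      exact germ_kmap C.π _ c }

theorem Cht.phi12_apply (a : T.R12) : ch.phi12 hk a =
    (C.X.germToFunctionField (ch.ct.U1 ⊓ ch.ct.U2)).hom (ch.ct.t12 (1 ⊗ₜ a)) := rfl

theorem Cht.phi12_injective : Function.Injective (ch.phi12 hk) := by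
  intro a b h
  rw [ch.phi12_apply, ch.phi12_apply] at h
  have h1 := ch.ct.b12.1 (C.X.germToFunctionField_injective _ h)
  have h3 := congrArg (Algebra.TensorProduct.lid k T.R12) h1
  simpa using h3

theorem Cht.phi12_j1 (a : T.R1) : ch.phi12 hk (T.j1 a) =
    (C.X.germToFunctionField ch.ct.U1).hom (ch.ct.t1 (1 ⊗ₜ a)) := by
  rw [ch.phi12_apply, ← ch.ct.r1]
  exact germToFunctionField_res _ _

theorem Cht.phi12_j2 (a : T.R2) : ch.phi12 hk (T.j2 a) =
    (C.X.germToFunctionField ch.ct.U2).hom (ch.ct.t2 (1 ⊗ₜ a)) := by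
  rw [ch.phi12_apply, ← ch.ct.r2]
  exact germToFunctionField_res _ _

theorem exists_one_tmul {R : Type} [CommRing R] [Algebra k R] (v : k ⊗[k] R) :
    ∃ a : R, v = 1 ⊗ₜ a :=
  ⟨Algebra.TensorProduct.lid k R v, by
    apply (Algebra.TensorProduct.lid k R).injective
    simp⟩

theorem Cht.mem_RW1 {z : C.X.functionField} : z ∈ RW C.π hk ch.ct.U1 ↔
    ∃ a : T.R1, ch.phi12 hk (T.j1 a) = z := by
  rw [mem_RW]
  constructor
  · rintro ⟨s, hs⟩
    obtain ⟨v, rfl⟩ := ch.ct.b1.2 s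
    obtain ⟨a, rfl⟩ := exists_one_tmul v
    exact ⟨a, by rw [ch.phi12_j1]; exact hs⟩
  · rintro ⟨a, ha⟩
    exact ⟨ch.ct.t1 (1 ⊗ₜ a), by rw [← ha, ch.phi12_j1]⟩

theorem Cht.mem_RW2 {z : C.X.functionField} : z ∈ RW C.π hk ch.ct.U2 ↔
    ∃ a : T.R2, ch.phi12 hk (T.j2 a) = z := by
  rw [mem_RW]
  constructor
  · rintro ⟨s, hs⟩
    obtain ⟨v, rfl⟩ := ch.ct.b2.2 s
    obtain ⟨a, rfl⟩ := exists_one_tmul v
    exact ⟨a, by rw [ch.phi12_j2]; exact hs⟩
  · rintro ⟨a, ha⟩
    exact ⟨ch.ct.t2 (1 ⊗ₜ a), by rw [← ha, ch.phi12_j2]⟩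

end

theorem not_aux {n : ℕ} {k : Type} [Field k] [IsAlgClosed k] [CharZero k] (g : ℕ) (C : Fam n k)
    [IsIntegral C.X] [IsSeparated C.π] [LocallyOfFiniteType C.π] (hgen : HasGenus C.π g)
    (hpir : ∀ x : C.X, IsPrincipalIdealRing (C.X.presheaf.stalk x))
    (hg : 2 ≤ g) (T : TC k) (ch : Cht C T) (j : ℕ) (hj : 1 ≤ j) (a : T.R1) (b : T.R2)
    (hab : T.j1 a = T.e ^ j * T.j2 b) : a = 0 := by
  let _ : Algebra k C.X.functionField := (kfun C.π).toAlgebra
  have hk : ∀ c, algebraMap k C.X.functionField c = kfun C.π c := fun _ => rfl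
  have hne := ch.nonempty12
  have hne1 : Nonempty ch.ct.U1 := by
    obtain ⟨⟨z, hz⟩⟩ := hne
    exact ⟨⟨z, hz.1⟩⟩
  have hne2 : Nonempty ch.ct.U2 := by
    obtain ⟨⟨z, hz⟩⟩ := hne
    exact ⟨⟨z, hz.2⟩⟩
  have hdom := ch.dom
  have hdom1 : IsDomain T.R1 := Function.Injective.isDomain (T.j1 : T.R1 →+* T.R12) ch.inj1
  obtain ⟨U, V, hU, hV, hUa, hVa, x, y, hx, hy, hxy⟩ := exists_classes C.π hk hg hgen
  -- the charts
  have hc1 : _root_.MG.Chart (RW C.π hk ch.ct.U1) := chart_RW C.π hk hpir ch.aff.aff1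
  have hc2 : _root_.MG.Chart (RW C.π hk ch.ct.U2) := chart_RW C.π hk hpir ch.aff.aff2
  have hcU : _root_.MG.Chart (RW C.π hk U) := chart_RW C.π hk hpir hUa
  have hcV : _root_.MG.Chart (RW C.π hk V) := chart_RW C.π hk hpir hVa
  -- transcendence degree
  have hd : Algebra.trdeg k C.X.functionField = 1 := by
    let _ : Algebra T.R1 C.X.functionField := ((ch.phi12 hk).comp T.j1).toRingHom.toAlgebra
    have _ : IsScalarTower k T.R1 C.X.functionField := IsScalarTower.of_algebraMap_eq' (by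
      ext c
      exact (((ch.phi12 hk).comp T.j1).commutes c).symm)
    have _ : IsFractionRing T.R1 C.X.functionField := by
      apply isFractionRing_of_injective
      · exact (ch.phi12_injective hk).comp ch.inj1
      · intro z
        obtain ⟨b, hb, hb0, hbz⟩ := hc1.frac z
        obtain ⟨b', rfl⟩ := (ch.mem_RW1 hk).mp hb
        obtain ⟨a', ha'⟩ := (ch.mem_RW1 hk).mp hbz
        exact ⟨a', b', hb0, ha'.symm⟩
    exact _root_.MG.trdeg_of_etale T.x T.etx C.X.functionField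
  -- the derivation of the function field
  obtain ⟨dd, hdd⟩ : ∃ dd : Derivation k C.X.functionField C.X.functionField,
      ∀ r : T.R12, dd (ch.phi12 hk r) = ch.phi12 hk (T.dd r) := by
    let _ : Algebra T.R12 C.X.functionField := (ch.phi12 hk).toRingHom.toAlgebra
    have _ : IsScalarTower k T.R12 C.X.functionField := IsScalarTower.of_algebraMap_eq' (by
      ext c
      exact ((ch.phi12 hk).commutes c).symm)
    have _ : IsFractionRing T.R12 C.X.functionField := by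
      apply isFractionRing_of_injective
      · exact ch.phi12_injective hk
      · intro z
        obtain ⟨b, hb, hb0, hbz⟩ := hc1.frac z
        obtain ⟨b', rfl⟩ := (ch.mem_RW1 hk).mp hb
        obtain ⟨a', ha'⟩ := (ch.mem_RW1 hk).mp hbz
        exact ⟨T.j1 a', T.j1 b', hb0, ha'.symm⟩
    have _ : Algebra.FormallyEtale T.R12 C.X.functionField :=
      Algebra.FormallyEtale.of_isLocalization (nonZeroDivisors T.R12)
    obtain ⟨D, hD⟩ := _root_.MG.exists_derivation_of_formallyEtale (R := k) (S := T.R12)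
      (T := C.X.functionField) (M := C.X.functionField)
      ((Algebra.linearMap T.R12 C.X.functionField).compDer T.dd)
    exact ⟨D, hD⟩
  have hder : ∀ (R : Type) [CommRing R] [Algebra k R] (t : R)
      (_ : (Polynomial.aeval t : Polynomial k →ₐ[k] R).toRingHom.Etale)
      (φ : R →ₐ[k] C.X.functionField)
      (D : Derivation k C.X.functionField C.X.functionField) (_ : D (φ t) = 1) (r : R),
      ∃ r', D (φ r) = φ r' := by
    intro R _ _ t het φ D hD r
    let _ : Algebra R C.X.functionField := φ.toRingHom.toAlgebra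
    have _ : IsScalarTower k R C.X.functionField := IsScalarTower.of_algebraMap_eq' (by
      ext c
      exact (φ.commutes c).symm)
    obtain ⟨D1, hD1⟩ := _root_.MG.exists_ddx t het R 1
    have h1 := _root_.MG.ddx_unique t het (D.compAlgebraMap R)
      ((Algebra.linearMap R C.X.functionField).compDer D1) (by
        change D (φ t) = φ (D1 t)
        rw [hD, hD1, map_one])
    exact ⟨D1 r, congrArg (fun F : Derivation k R C.X.functionField => F r) h1⟩
  have hD1 : ∀ z ∈ RW C.π hk ch.ct.U1, dd z ∈ RW C.π hk ch.ct.U1 := by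
    intro z hz
    obtain ⟨r, rfl⟩ := (ch.mem_RW1 hk).mp hz
    obtain ⟨r', hr'⟩ := hder T.R1 T.x T.etx ((ch.phi12 hk).comp T.j1) dd (by
      change dd (ch.phi12 hk (T.j1 T.x)) = 1
      rw [hdd, T.ddx, map_one]) r
    exact (ch.mem_RW1 hk).mpr ⟨r', hr'.symm⟩
  have hD2 : ∀ z ∈ RW C.π hk ch.ct.U2, ch.phi12 hk T.e * dd z ∈ RW C.π hk ch.ct.U2 := by
    intro z hz
    obtain ⟨r, rfl⟩ := (ch.mem_RW2 hk).mp hz
    obtain ⟨r', hr'⟩ := hder T.R2 T.y T.ety ((ch.phi12 hk).comp T.j2) (ch.phi12 hk T.e • dd) (by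
      change ch.phi12 hk T.e * dd (ch.phi12 hk (T.j2 T.y)) = 1
      rw [hdd, ← map_mul, T.ey, map_one]) r
    exact (ch.mem_RW2 hk).mpr ⟨r', hr'.symm⟩
  have hinter : ∀ z, z ∈ RW C.π hk ch.ct.U1 → z ∈ RW C.π hk ch.ct.U2 →
      z ∈ Set.range (algebraMap k C.X.functionField) := by
    intro z h1 h2
    obtain ⟨r, rfl⟩ := (ch.mem_RW1 hk).mp h1
    obtain ⟨s, hs⟩ := (ch.mem_RW2 hk).mp h2
    obtain ⟨c, hc⟩ := ch.h0 r s ((ch.phi12_injective hk) hs.symm)
    refine ⟨c, ?_⟩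
    rw [hc]
    exact (((ch.phi12 hk).comp T.j1).commutes c).symm
  have hdd0 : dd ≠ 0 := by
    intro h
    have h1 : dd (ch.phi12 hk (T.j1 T.x)) = 1 := by rw [hdd, T.ddx, map_one]
    rw [h] at h1
    exact zero_ne_one h1
  have hfin := _root_.MG.not_charts hd hcU hcV hx hy hxy hc1 hc2 hinter dd hdd0
    (ch.phi12 hk T.e) hD1 hD2 (Nat.one_le_iff_ne_zero.mp hj)
    ((ch.mem_RW1 hk).mpr ⟨a, rfl⟩) ((ch.mem_RW2 hk).mpr ⟨b, rfl⟩) (by
      rw [hab, map_mul, map_pow])
  apply ch.inj1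
  apply ch.phi12_injective hk
  rw [hfin, map_zero, map_zero]

/-- The identity arrow. -/
noncomputable def idArrow {n : ℕ} {A : Type} [CommRing A] (x : Fam n A) :
    Arrow (RingHom.id A) x x where
  f := 𝟙 _
  cart := by
    have h : spMap (RingHom.id A) = 𝟙 _ := by
      change Spec.map (𝟙 _) = 𝟙 _
      exact Spec.map_id _
    rw [h]
    exact IsPullback.id_horiz x.π
  sec i := by
    have h : spMap (RingHom.id A) = 𝟙 _ := by
      change Spec.map (𝟙 _) = 𝟙 _
      exact Spec.map_id _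
    rw [h, Category.comp_id, Category.id_comp]

theorem stmt_NOT_of
    (H : ∀ {n : ℕ} {k : Type} [Field k] [IsAlgClosed k] (C : Fam n k), IsProper C.π →
      SmoothOfRelativeDimension 1 C.π → ConnectedSpace C.X →
      IsIntegral C.X ∧ ∀ x : C.X, IsPrincipalIdealRing (C.X.presheaf.stalk x)) : Stmt_NOT := by
  intro n k _ _ _ g C hst hsm hg T ch j hj a b hab
  have hpr := hst.proper
  have hsc : StableCurve g C := hst.fib k (RingHom.id k) C ⟨idArrow C⟩
  obtain ⟨hint, hpir⟩ := H C hpr hsm hsc.connected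
  exact not_aux g C hsc.genus hpir hg T ch j hj a b hab

end Pool.Agent.MG
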