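import Pool.Agent.MG.End
import Pool.Agent.MG.AFF
import Pool.Agent.MG.SQZ
import Pool.Agent.MG.AX
import Pool.Agent.MG.AI
import Pool.Agent.MG.AN
import Pool.Agent.MG.AC
import Pool.Agent.MG.KSN
import Pool.Agent.MG.COV
import Pool.Agent.MG.CHG
import Pool.Agent.MG.GLU
import Pool.Agent.MG.PBS
import Pool.Agent.MG.CLS
import Pool.Agent.MG.CHB
import Pool.Agent.MG.CHAK
import Pool.Agent.MG.CHI
import Pool.Agent.MG.DIS
import Pool.Agent.MG.FIS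
import Pool.Agent.MG.CONN
import Pool.Agent.MG.NOD
import Pool.Agent.MG.GEN
import Pool.Agent.MG.RIG
import Pool.Agent.MG.CST
import Pool.Agent.MG.KSU
import Pool.Agent.MG.TWO
import Pool.Agent.MG.NOTF
import Pool.Agent.MG.UNIS
import Pool.Agent.MG.ALGS
import Pool.Agent.MG.LOC
import Pool.Agent.MG.SmNod
import Pool.Agent.MG.BUB
import Pool.Agent.MG.RIGW

/-!
# The blocks of the proof together
-/

namespace Pool.Agent.MG

theorem hyp_of (hbub : Stmt_BUB) : Hyp where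
  cov := (t_COV (t_SQZ t_AFF) t_AX t_AI (t_KSN (t_SQZ t_AFF) t_AN)).1
  cou := (t_COV (t_SQZ t_AFF) t_AX t_AI (t_KSN (t_SQZ t_AFF) t_AN)).2.1
  nat := (t_COV (t_SQZ t_AFF) t_AX t_AI (t_KSN (t_SQZ t_AFF) t_AN)).2.2
  chg := t_CHG (t_SQZ t_AFF) t_AX t_AC t_AI
  cls := t_CLS' t_GLU t_KSU0 t_PBS (t_KSN (t_SQZ t_AFF) t_AN)
  chb := t_CHB
  cha := t_CHA.1
  chk := t_CHA.2
  chi := t_CHI.1
  tau := t_CHI.2
  dis := t_DIS
  cst := t_CST t_FIS (t_CON t_CHB) (t_NOD t_CHB) t_GEN (t_RIG t_CHB)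
  bub := hbub
  uni := stmt_UNI
  alg := stmt_ALG
  loc := stmt_LOC

theorem rigw : Stmt_RIGW := t_RIGW t_CHB t_CHI.1 t_CHI.2 t_ALGW

theorem hyp : Hyp := hyp_of (bub_of rigw)

end Pool.Agent.MG
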