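import Mathlib

/-!
# Trace duality on a curve (MP_cc45c1_ag)

`k` algebraically closed of characteristic zero, `K` a finite extension of `k(t)`; `R1`, `R2` the
integral closures of `k[t]`, `k[t⁻¹]`.
-/

namespace MG

open Algebra

attribute [local instance] FractionRing.liftAlgebra FractionRing.isScalarTower_liftAlgebra
  Ideal.Quotient.field

section Different

variable {A B : Type*} [CommRing A] [CommRing B] [Algebra A B]
  [IsDedekindDomain A] [IsDedekindDomain B] [Module.IsTorsionFree A B] [Module.Finite A B]
  [Algebra.IsSeparable (FractionRing A) (FractionRing B)]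

/-- Tame ramification: if `P * Q = pB` with `P`, `Q` coprime, then `P` does not divide the
different. -/
theorem not_dvd_different {p : Ideal A} [p.IsMaximal] [CharZero (A ⧸ p)] (P Q : Ideal B)
    (hPQ : IsCoprime P Q) (hP : P * Q = Ideal.map (algebraMap A B) p) (hne : P ≠ ⊤) :
    ¬ P ∣ differentIdeal A B := by
  let : Algebra (A ⧸ p) (B ⧸ Q) := Ideal.Quotient.algebraQuotientOfLEComap (by
      rw [← Ideal.map_le_iff_le_comap, ← hP]
      exact Ideal.mul_le_right)
  let : Algebra (A ⧸ p) (B ⧸ P) := Ideal.Quotient.algebraQuotientOfLEComap (by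
      rw [← Ideal.map_le_iff_le_comap, ← hP]
      exact Ideal.mul_le_left)
  have : IsScalarTower A (A ⧸ p) (B ⧸ Q) := .of_algebraMap_eq' rfl
  have : IsScalarTower A (A ⧸ p) (B ⧸ P) := .of_algebraMap_eq' rfl
  have : Module.Finite (A ⧸ p) (B ⧸ Q) :=
    Module.Finite.of_restrictScalars_finite A (A ⧸ p) (B ⧸ Q)
  have : Module.Finite (A ⧸ p) (B ⧸ P) :=
    Module.Finite.of_restrictScalars_finite A (A ⧸ p) (B ⧸ P)
  let e : (B ⧸ p.map (algebraMap A B)) ≃ₐ[A ⧸ p] ((B ⧸ P) × B ⧸ Q) :=
    { __ := (Ideal.quotEquivOfEq hP.symm).trans (Ideal.quotientMulEquivQuotientProd P Q hPQ),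
      commutes' := Quotient.ind fun _ ↦ rfl }
  have : Nontrivial (B ⧸ P) := Ideal.Quotient.nontrivial_iff.mpr hne
  obtain ⟨y, hy⟩ := Ideal.Quotient.mk_surjective (e.symm (1, 0))
  refine not_dvd_differentIdeal_of_intTrace_not_mem A P Q hP y ?_ ?_
  · have := congr((e $hy).2)
    simp at this
    simpa [e, Ideal.Quotient.eq_zero_iff_mem] using this
  · rw [← Ideal.Quotient.eq_zero_iff_mem, ← Algebra.trace_quotient_eq_of_isDedekindDomain,
      hy, Algebra.trace_eq_of_algEquiv, Algebra.trace_prod_apply]
    have h1 : Algebra.trace (A ⧸ p) (B ⧸ P) 1 = (Module.finrank (A ⧸ p) (B ⧸ P) : A ⧸ p) := by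
      rw [← map_one (algebraMap (A ⧸ p) (B ⧸ P)), Algebra.trace_algebraMap]
      simp
    have h2 : Module.finrank (A ⧸ p) (B ⧸ P) ≠ 0 := (Module.finrank_pos).ne'
    simp only [map_zero, add_zero]
    rw [h1]
    exact_mod_cast h2

omit [Algebra.IsSeparable (FractionRing A) (FractionRing B)] [IsDedekindDomain A]
  [IsDedekindDomain B] [Module.IsTorsionFree A B] [Module.Finite A B] [Algebra A B] [CommRing A] in
/-- A derivation lowers the `I`-adic order by at most one. -/
theorem derivation_pow_mem {k : Type*} [CommRing k] [Algebra k B] (D : Derivation k B B)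
    (I : Ideal B) (n : ℕ) : ∀ y ∈ I ^ (n + 1), D y ∈ I ^ n := by
  induction n with
  | zero => intro y _; simp
  | succ n ih =>
    intro y hy
    rw [pow_succ] at hy
    refine Submodule.mul_induction_on hy ?_ ?_
    · intro a ha b hb
      rw [D.leibniz]
      refine add_mem ?_ ?_
      · exact Ideal.mul_mem_right _ _ ha
      · rw [smul_eq_mul, mul_comm, pow_succ]
        exact Ideal.mul_mem_mul (ih a ha) hb
    · intro a b ha hb
      rw [map_add]
      exact add_mem ha hb

/-- The different contains the derivatives of the coordinate. -/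
theorem derivation_mem_different {k : Type*} [Field k] [CharZero k] [Algebra k A] [Algebra k B]
    [IsScalarTower k A B] (x : A)
    (hx : ∀ p : Ideal A, p.IsMaximal → ∃ c : k, p = Ideal.span {x - algebraMap k A c})
    (D : Derivation k B B) : D (algebraMap A B x) ∈ differentIdeal A B := by
  rw [← Ideal.dvd_span_singleton, UniqueFactorizationMonoid.dvd_iff_emultiplicity_le
    (by simpa using differentIdeal_ne_bot)]
  intro P hP
  rw [emultiplicity_le_emultiplicity_iff]
  intro n hn
  have hPb : P ≠ ⊥ := by simpa using hP.ne_zero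
  have hPp : P.IsPrime := Ideal.isPrime_of_prime hP
  have hPm : P.IsMaximal := hPp.isMaximal hPb
  have hpm : (P.comap (algebraMap A B)).IsMaximal :=
    Ideal.isMaximal_comap_of_isIntegral_of_isMaximal P
  obtain ⟨c, hc⟩ := hx _ hpm
  have hpb : P.comap (algebraMap A B) ≠ ⊥ := mt Ideal.eq_bot_of_comap_eq_bot hPb
  have hpb' := (Ideal.map_eq_bot_iff_of_injective
    (FaithfulSMul.algebraMap_injective A B)).not.mpr hpb
  obtain ⟨e, Q, h1, h2⟩ : ∃ (e : ℕ) (Q : Ideal B), P ⊔ Q = ⊤ ∧
      Ideal.map (algebraMap A B) (P.comap (algebraMap A B)) = P ^ e * Q := by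
    obtain ⟨Q, h1, h2⟩ := Ideal.eq_prime_pow_mul_coprime hpb' P
    exact ⟨_, Q, h1, h2⟩
  have h3 : IsCoprime (P ^ e) Q := (Ideal.isCoprime_iff_sup_eq.mpr h1).pow_left
  have he0 : e ≠ 0 := by
    intro h0
    rw [h0, pow_zero, one_mul] at h2
    have h4 : Ideal.map (algebraMap A B) (P.comap (algebraMap A B)) ≤ P := Ideal.map_comap_le
    rw [h2] at h4
    apply hPm.ne_top
    rw [_root_.eq_top_iff, ← h1]
    exact sup_le le_rfl h4
  have hpe : P ^ e ≠ ⊤ := by
    intro h
    apply hPm.ne_top
    rw [_root_.eq_top_iff, ← h]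
    exact Ideal.pow_le_self he0
  have : CharZero (A ⧸ P.comap (algebraMap A B)) :=
    have : Nontrivial (A ⧸ P.comap (algebraMap A B)) := Ideal.Quotient.nontrivial_iff.mpr hpm.ne_top
    charZero_of_injective_algebraMap (R := k)
      (algebraMap k (A ⧸ P.comap (algebraMap A B))).injective
  have h5 : ¬ P ^ e ∣ differentIdeal A B := not_dvd_different (P ^ e) Q h3 h2.symm hpe
  have h6 : n < e := by
    by_contra h
    exact h5 ((pow_dvd_pow P (not_lt.mp h)).trans hn)
  rw [Ideal.dvd_span_singleton]
  have h7 : D (algebraMap A B x) = D (algebraMap A B (x - algebraMap k A c)) := by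
    rw [map_sub, map_sub, ← IsScalarTower.algebraMap_apply, D.map_algebraMap, sub_zero]
  have h8 : algebraMap A B (x - algebraMap k A c) ∈ P ^ (e - 1 + 1) := by
    rw [Nat.sub_add_cancel (Nat.one_le_iff_ne_zero.mpr he0)]
    have h9 : algebraMap A B (x - algebraMap k A c) ∈
        Ideal.map (algebraMap A B) (P.comap (algebraMap A B)) := by
      apply Ideal.mem_map_of_mem
      rw [hc]
      exact Ideal.mem_span_singleton_self _
    rw [h2] at h9
    have h12 : P ^ e * Q ≤ P ^ e := Ideal.mul_le_left
    exact h12 h9
  have h10 := derivation_pow_mem D P (e - 1) _ h8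
  rw [h7]
  have h11 : n ≤ e - 1 := by omega
  exact Ideal.pow_le_pow_right h11 h10

end Different

open scoped IntermediateField

section Coord

variable (k : Type*) {K : Type*} [Field k] [Field K] [Algebra k K] (t : K)

/-- The coordinate in `k[t]`. -/
noncomputable def tt : Algebra.adjoin k {t} := ⟨t, Algebra.self_mem_adjoin_singleton k t⟩

/-- `k[X] → k[t]`. -/
noncomputable def evt : Polynomial k →ₐ[k] Algebra.adjoin k {t} := Polynomial.aeval (tt k t)

theorem evt_surjective : Function.Surjective (evt k t) := by
  intro ⟨x, hx⟩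
  rw [Algebra.adjoin_singleton_eq_range_aeval] at hx
  obtain ⟨p, rfl⟩ := hx
  refine ⟨p, Subtype.ext ?_⟩
  have h := Polynomial.aeval_algebraMap_apply K (tt k t) p
  rw [evt]
  exact h.symm

theorem adjoin_pid : IsPrincipalIdealRing (Algebra.adjoin k {t}) :=
  IsPrincipalIdealRing.of_surjective (evt k t : Polynomial k →+* Algebra.adjoin k {t}) (evt_surjective k t)

theorem adjoin_maximal [IsAlgClosed k] (p : Ideal (Algebra.adjoin k {t})) (hp : p.IsMaximal) :
    ∃ c : k, p = Ideal.span {tt k t - algebraMap k _ c} := by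
  have hq : (p.comap (evt k t)).IsMaximal := Ideal.comap_isMaximal_of_surjective _ (evt_surjective k t)
  obtain ⟨f, hf⟩ := (IsPrincipalIdealRing.principal (p.comap (evt k t))).principal
  have hf0 : f ≠ 0 := by
    rintro rfl
    have h1 : p.comap (evt k t) = ⊥ := by rw [hf]; simp
    rw [h1] at hq
    exact Polynomial.not_isField k (Ring.isField_iff_maximal_bot.mpr hq)
  have hirr : Irreducible f := by
    have h2 : (Ideal.span {f}).IsPrime := by
      have := hq.isPrime
      rw [hf] at this
      exact this
    exact ((Ideal.span_singleton_prime hf0).mp h2).irreducible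
  obtain ⟨c, hc⟩ := IsAlgClosed.exists_root f (by
    rw [IsAlgClosed.degree_eq_one_of_irreducible k hirr]; exact one_ne_zero)
  have h3 : Polynomial.X - Polynomial.C c ∣ f := Polynomial.dvd_iff_isRoot.mpr hc
  have h4 : Associated (Polynomial.X - Polynomial.C c) f :=
    (Polynomial.irreducible_X_sub_C c).associated_of_dvd hirr h3
  refine ⟨c, ?_⟩
  have h5 : p = Ideal.map (evt k t : Polynomial k →+* Algebra.adjoin k {t}) (p.comap (evt k t)) :=
    (Ideal.map_comap_of_surjective _ (evt_surjective k t) p).symm
  rw [h5, hf, ← Ideal.span, ← Ideal.span_singleton_eq_span_singleton.mpr h4, Ideal.map_span]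
  simp [evt]


/-- The trace with values in `K`. -/
noncomputable def trK {k K : Type*} [Field k] [Field K] [Algebra k K] (F : IntermediateField k K)
    (x : K) : K := algebraMap F K (Algebra.trace F K x)

open scoped nonZeroDivisors in
omit [Field K] [Algebra k K] in
/-- Trace duality and derivations, abstract form. -/
theorem exists_mul_derivation [CharZero k] {A F B L : Type*} [CommRing A] [Field F] [CommRing B]
    [Field L] [Algebra A B] [Algebra A F] [Algebra A L] [Algebra B L] [Algebra F L]
    [IsScalarTower A F L] [IsScalarTower A B L] [Algebra k A] [Algebra k B] [IsScalarTower k A B]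
    [IsDedekindDomain A] [IsDedekindDomain B] [Module.Finite A B] [Module.IsTorsionFree A B]
    [IsFractionRing A F] [IsFractionRing B L] [IsIntegralClosure B A L]
    [FiniteDimensional F L] [Algebra.IsSeparable F L]
    (x : A) (hx : ∀ p : Ideal A, p.IsMaximal → ∃ c : k, p = Ideal.span {x - algebraMap k A c})
    (u : L) (hu : ∀ b : B, ∃ c : A, algebraMap A F c = Algebra.trace F L (u * algebraMap B L b))
    (DB : Derivation k B B) :
    ∃ b : B, algebraMap B L b = u * algebraMap B L (DB (algebraMap A B x)) := by
  have : Algebra.IsSeparable (FractionRing A) (FractionRing B) := by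
    have : IsLocalization (Algebra.algebraMapSubmonoid B A⁰) (FractionRing B) :=
      IsIntegralClosure.isLocalization _ (FractionRing A) _ _
    have : FiniteDimensional (FractionRing A) (FractionRing B) :=
      .of_isLocalization A B A⁰
    have : CharZero A :=
      charZero_of_injective_algebraMap (algebraMap k A).injective
    have : CharZero (FractionRing A) :=
      charZero_of_injective_algebraMap (IsFractionRing.injective A (FractionRing A))
    infer_instance
  have h1 := derivation_mem_different (A := A) (B := B) (k := k) x hx DB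
  have h2 : algebraMap B L (DB (algebraMap A B x)) ∈
      (1 / Submodule.traceDual A F 1 : Submodule B L) := by
    rw [← coeSubmodule_differentIdeal]
    exact ⟨_, h1, rfl⟩
  have h3 : u ∈ Submodule.traceDual A F (1 : Submodule B L) := by
    rw [Submodule.mem_traceDual]
    rintro a ⟨b, rfl⟩
    obtain ⟨c, hc⟩ := hu b
    refine ⟨c, ?_⟩
    rw [hc]
    simp [Algebra.traceForm_apply, Algebra.smul_def]
  obtain ⟨b, hb⟩ := Submodule.mem_div_iff_forall_mul_mem.mp h2 u h3
  refine ⟨b, ?_⟩
  rw [mul_comm, ← hb]
  simp [Algebra.smul_def]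

open scoped IntermediateField.algebraAdjoinAdjoin nonZeroDivisors in
/-- Trace duality and derivations. -/
theorem mul_derivation_mem [CharZero k] [IsAlgClosed k] [FiniteDimensional k⟮t⟯ K] (u : K)
    (hu : ∀ a, IsIntegral (Algebra.adjoin k {t}) a → trK k⟮t⟯ (u * a) ∈ Algebra.adjoin k {t})
    (D : Derivation k K K)
    (hD : ∀ a, IsIntegral (Algebra.adjoin k {t}) a → IsIntegral (Algebra.adjoin k {t}) (D a)) :
    IsIntegral (Algebra.adjoin k {t}) (u * D t) := by
  have : IsPrincipalIdealRing (Algebra.adjoin k {t}) := adjoin_pid k t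
  have : IsIntegrallyClosed (Algebra.adjoin k {t}) := inferInstance
  have : IsDedekindDomain (Algebra.adjoin k {t}) := inferInstance
  have : CharZero k⟮t⟯ := charZero_of_injective_algebraMap (algebraMap k k⟮t⟯).injective
  have : Algebra.IsSeparable k⟮t⟯ K := inferInstance
  have : IsDedekindDomain (integralClosure (Algebra.adjoin k {t}) K) :=
    integralClosure.isDedekindDomain (Algebra.adjoin k {t}) k⟮t⟯ K
  have : Module.Finite (Algebra.adjoin k {t}) (integralClosure (Algebra.adjoin k {t}) K) :=
    IsIntegralClosure.finite (Algebra.adjoin k {t}) k⟮t⟯ K _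
  have : IsFractionRing (integralClosure (Algebra.adjoin k {t}) K) K :=
    integralClosure.isFractionRing_of_finite_extension k⟮t⟯ K
  let DB : Derivation k (integralClosure (Algebra.adjoin k {t}) K)
      (integralClosure (Algebra.adjoin k {t}) K) :=
    { toFun := fun b => ⟨D b, hD b b.2⟩
      map_add' := fun a b => Subtype.ext (by simp)
      map_smul' := fun c b => Subtype.ext (by simp)
      map_one_eq_zero' := Subtype.ext (by simp)
      leibniz' := fun a b => Subtype.ext (by simp) }
  obtain ⟨b, hb⟩ := exists_mul_derivation (k := k) (A := Algebra.adjoin k {t}) (F := k⟮t⟯)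
    (B := integralClosure (Algebra.adjoin k {t}) K) (L := K) (tt k t)
    (fun p hp => adjoin_maximal k t p hp) u
    (fun b => ⟨⟨_, hu b b.2⟩, (algebraMap k⟮t⟯ K).injective rfl⟩) DB
  have h5 : (b : K) = u * D t := hb
  rw [← h5]
  exact b.2

open scoped nonZeroDivisors in
omit [Field k] [Field K] [Algebra k K] in
/-- Every `A`-linear functional on `B` is the trace form with an element of `L`. -/
theorem exists_trace_eq {A F B L : Type*} [CommRing A] [Field F] [CommRing B]
    [Field L] [Algebra A B] [Algebra A F] [Algebra A L] [Algebra B L] [Algebra F L]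
    [IsScalarTower A F L] [IsScalarTower A B L] [IsDomain A] [IsPrincipalIdealRing A]
    [IsDomain B] [Module.Finite A B] [Module.IsTorsionFree A B]
    [IsFractionRing A F] [IsIntegralClosure B A L]
    [FiniteDimensional F L] [Algebra.IsSeparable F L] (lam : B →ₗ[A] F) :
    ∃ u : L, ∀ b : B, Algebra.trace F L (u * algebraMap B L b) = lam b := by
  have : IsLocalization (Algebra.algebraMapSubmonoid B A⁰) L :=
    IsIntegralClosure.isLocalization A F L B
  let b := Module.Free.chooseBasis A B
  let bK := b.localizationLocalization F A⁰ L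
  let lamF : L →ₗ[F] F := bK.constr F (fun i => lam (b i))
  have h1 : (lamF.restrictScalars A) ∘ₗ (IsScalarTower.toAlgHom A B L).toLinearMap = lam := by
    apply b.ext
    intro i
    have h2 : algebraMap B L (b i) = bK i :=
      (Module.Basis.localizationLocalization_apply F A⁰ L b i).symm
    simp only [LinearMap.comp_apply, LinearMap.restrictScalars_apply, AlgHom.toLinearMap_apply,
      IsScalarTower.coe_toAlgHom', lamF]
    rw [h2, Module.Basis.constr_basis]
  refine ⟨((Algebra.traceForm F L).toDual (traceForm_nondegenerate F L)).symm lamF, fun c => ?_⟩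
  rw [← h1, ← Algebra.traceForm_apply, ← LinearMap.BilinForm.toDual_def
    (traceForm_nondegenerate F L), LinearEquiv.apply_symm_apply]
  rfl

end Coord
end MG
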