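import Pool.Agent.MG.SD

/-!
# Serre duality for the structure sheaf of a curve, and `H⁰(T^j) = 0` (MP_cc45c1_ag)
-/

namespace MG
open scoped IntermediateField
open Algebra

variable {k K : Type*} [Field k] [Field K] [Algebra k K]

/-- The affine coordinate rings `R1`, `R2` (integral closures of `k[t]`, `k[t⁻¹]`) of a curve with
`R1 ∩ R2 = k` and the ring `R12` of the intersection. -/
structure TwoCharts (t : K) (R1 R2 R12 : Subalgebra k K) : Prop where
  int1 : ∀ a, a ∈ R1 ↔ IsIntegral (Algebra.adjoin k {t}) a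
  int2 : ∀ a, a ∈ R2 ↔ IsIntegral (Algebra.adjoin k {t⁻¹}) a
  le1 : R1 ≤ R12
  le2 : R2 ≤ R12
  den1 : ∀ a ∈ R12, ∃ N : ℕ, t ^ N * a ∈ R1
  den2 : ∀ a ∈ R12, ∃ N : ℕ, t⁻¹ ^ N * a ∈ R2
  inter : ∀ a, a ∈ R1 → a ∈ R2 → a ∈ Set.range (algebraMap k K)

section Lam

variable {t : K} {R1 R2 R12 : Subalgebra k K}

theorem TwoCharts.t_mem (h : TwoCharts t R1 R2 R12) : t ∈ R1 := by
  rw [h.int1]
  exact isIntegral_algebraMap (R := Algebra.adjoin k {t}) (A := K)
    (x := ⟨t, Algebra.self_mem_adjoin_singleton k t⟩)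

theorem TwoCharts.inv_mem (h : TwoCharts t R1 R2 R12) : t⁻¹ ∈ R2 := by
  rw [h.int2]
  exact isIntegral_algebraMap (R := Algebra.adjoin k {t⁻¹}) (A := K)
    (x := ⟨t⁻¹, Algebra.self_mem_adjoin_singleton k t⁻¹⟩)

/-- The coefficients of the functional. -/
noncomputable def cf (t : K) (L : K →ₗ[k] k) (a : K) (n : ℕ) : k := L (a * t⁻¹ ^ (n + 1))

/-- The functional with values in `k(t)`. -/
noncomputable def lam (t : K) (L : K →ₗ[k] k) (a : K) : k⟮t⟯ :=
  ∑ᶠ n : ℕ, algebraMap k k⟮t⟯ (cf t L a n) * IntermediateField.AdjoinSimple.gen k t ^ n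

theorem lam_eq (L : K →ₗ[k] k) (a : K) (N : ℕ) (hN : ∀ n, N ≤ n → cf t L a n = 0) :
    lam t L a = ∑ n ∈ Finset.range N,
      algebraMap k k⟮t⟯ (cf t L a n) * IntermediateField.AdjoinSimple.gen k t ^ n := by
  apply finsum_eq_sum_of_support_subset
  intro n hn
  simp only [Finset.coe_range, Set.mem_Iio]
  by_contra h
  exact hn (by simp [hN n (not_lt.mp h)])

theorem TwoCharts.cf_zero (h : TwoCharts t R1 R2 R12) (L : K →ₗ[k] k) (h2 : ∀ a ∈ R2, L a = 0)
    (a : K) (ha : a ∈ R12) : ∃ N, ∀ n, N ≤ n → cf t L a n = 0 := by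
  obtain ⟨N, hN⟩ := h.den2 a ha
  refine ⟨N, fun n hn => h2 _ ?_⟩
  have h3 : a * t⁻¹ ^ (n + 1) = t⁻¹ ^ (n + 1 - N) * (t⁻¹ ^ N * a) := by
    rw [← mul_assoc, ← pow_add, mul_comm]
    congr 2
    omega
  rw [h3]
  exact R2.mul_mem (R2.pow_mem h.inv_mem _) hN

theorem TwoCharts.lam_add (h : TwoCharts t R1 R2 R12) (L : K →ₗ[k] k) (h2 : ∀ a ∈ R2, L a = 0)
    {a b : K} (ha : a ∈ R12) (hb : b ∈ R12) : lam t L (a + b) = lam t L a + lam t L b := by
  obtain ⟨N, hN⟩ := h.cf_zero L h2 a ha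
  obtain ⟨M, hM⟩ := h.cf_zero L h2 b hb
  have h3 : ∀ n, cf t L (a + b) n = cf t L a n + cf t L b n := fun n => by
    simp [cf, add_mul]
  rw [lam_eq L a (max N M) (fun n hn => hN n ((le_max_left _ _).trans hn)),
    lam_eq L b (max N M) (fun n hn => hM n ((le_max_right _ _).trans hn)),
    lam_eq L (a + b) (max N M) (fun n hn => by
      rw [h3, hN n ((le_max_left _ _).trans hn), hM n ((le_max_right _ _).trans hn), add_zero]),
    ← Finset.sum_add_distrib]
  apply Finset.sum_congr rfl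
  intro n _
  rw [h3, map_add, add_mul]

theorem TwoCharts.lam_smul (h : TwoCharts t R1 R2 R12) (L : K →ₗ[k] k) (h2 : ∀ a ∈ R2, L a = 0)
    {a : K} (ha : a ∈ R12) (c : k) :
    lam t L (algebraMap k K c * a) = algebraMap k k⟮t⟯ c * lam t L a := by
  obtain ⟨N, hN⟩ := h.cf_zero L h2 a ha
  have h3 : ∀ n, cf t L (algebraMap k K c * a) n = c * cf t L a n := fun n => by
    rw [cf, mul_assoc, ← Algebra.smul_def, map_smul, smul_eq_mul, cf]
  rw [lam_eq L a N hN, lam_eq L _ N (fun n hn => by rw [h3, hN n hn, mul_zero]), Finset.mul_sum]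
  apply Finset.sum_congr rfl
  intro n _
  rw [h3, map_mul, mul_assoc]

theorem TwoCharts.lam_t (h : TwoCharts t R1 R2 R12) (ht : t ≠ 0) (L : K →ₗ[k] k)
    (h1 : ∀ a ∈ R1, L a = 0) (h2 : ∀ a ∈ R2, L a = 0) {a : K} (ha : a ∈ R1) :
    lam t L (t * a) = IntermediateField.AdjoinSimple.gen k t * lam t L a := by
  obtain ⟨N, hN⟩ := h.cf_zero L h2 a (h.le1 ha)
  have h3 : ∀ n, cf t L (t * a) (n + 1) = cf t L a n := fun n => by
    rw [cf, cf, pow_succ (t⁻¹) (n + 1)]
    congr 1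
    field_simp
  have h4 : cf t L (t * a) 0 = 0 := by
    rw [cf]
    apply h1
    have h5 : t * a * t⁻¹ ^ (0 + 1) = a := by
      rw [zero_add, pow_one, mul_comm t a, mul_assoc, mul_inv_cancel₀ ht, mul_one]
    rw [h5]
    exact ha
  rw [lam_eq L a N hN, lam_eq L (t * a) (N + 1) (fun n hn => by
    obtain ⟨m, rfl⟩ : ∃ m, n = m + 1 := ⟨n - 1, by omega⟩
    rw [h3, hN m (by omega)]), Finset.sum_range_succ', h4, Finset.mul_sum]
  simp only [map_zero, zero_mul, add_zero]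
  apply Finset.sum_congr rfl
  intro n _
  rw [h3, pow_succ]
  ring

open scoped IntermediateField.algebraAdjoinAdjoin in
theorem TwoCharts.lam_adjoin (h : TwoCharts t R1 R2 R12) (ht : t ≠ 0) (L : K →ₗ[k] k)
    (h1 : ∀ a ∈ R1, L a = 0) (h2 : ∀ a ∈ R2, L a = 0) (c : Algebra.adjoin k {t}) :
    ∀ a ∈ R1, lam t L (c * a) = algebraMap (Algebra.adjoin k {t}) k⟮t⟯ c * lam t L a := by
  have hA : Algebra.adjoin k {t} ≤ R1 := Algebra.adjoin_le (by simpa using h.t_mem)
  obtain ⟨c, hc⟩ := c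
  refine Algebra.adjoin_induction
    (p := fun x hx => ∀ a ∈ R1, lam t L (x * a) =
      algebraMap (Algebra.adjoin k {t}) k⟮t⟯ ⟨x, hx⟩ * lam t L a) ?_ ?_ ?_ ?_ hc
  · rintro x rfl a ha
    exact h.lam_t ht L h1 h2 ha
  · intro x a ha
    rw [h.lam_smul L h2 (h.le1 ha)]
    congr 1
  · intro x y hx hy ihx ihy a ha
    rw [add_mul, h.lam_add L h2 (h.le1 (R1.mul_mem (hA hx) ha)) (h.le1 (R1.mul_mem (hA hy) ha)),
      ihx a ha, ihy a ha, ← add_mul, ← map_add]
    rfl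
  · intro x y hx hy ihx ihy a ha
    rw [mul_assoc, ihx _ (R1.mul_mem (hA hy) ha), ihy a ha, ← mul_assoc, ← map_mul]
    rfl

open scoped IntermediateField.algebraAdjoinAdjoin in
/-- The element representing the functional. -/
theorem TwoCharts.exists_u (h : TwoCharts t R1 R2 R12) (ht : t ≠ 0) [CharZero k]
    [FiniteDimensional k⟮t⟯ K] (L : K →ₗ[k] k)
    (h1 : ∀ a ∈ R1, L a = 0) (h2 : ∀ a ∈ R2, L a = 0) :
    ∃ u : K, ∀ a ∈ R1, Algebra.trace k⟮t⟯ K (u * a) = lam t L a := by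
  have : IsPrincipalIdealRing (Algebra.adjoin k {t}) := adjoin_pid k t
  have : IsIntegrallyClosed (Algebra.adjoin k {t}) := inferInstance
  have : CharZero k⟮t⟯ := charZero_of_injective_algebraMap (algebraMap k k⟮t⟯).injective
  have : Algebra.IsSeparable k⟮t⟯ K := inferInstance
  have : Module.Finite (Algebra.adjoin k {t}) (integralClosure (Algebra.adjoin k {t}) K) :=
    IsIntegralClosure.finite (Algebra.adjoin k {t}) k⟮t⟯ K _
  have hR : ∀ b : integralClosure (Algebra.adjoin k {t}) K, (b : K) ∈ R1 := fun b =>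
    (h.int1 b).mpr b.2
  let lamB : integralClosure (Algebra.adjoin k {t}) K →ₗ[Algebra.adjoin k {t}] k⟮t⟯ :=
    { toFun := fun b => lam t L b
      map_add' := fun a b => h.lam_add L h2 (h.le1 (hR a)) (h.le1 (hR b))
      map_smul' := fun c b => by
        have h3 := h.lam_adjoin ht L h1 h2 c b (hR b)
        have h4 : c • lam t L (b : K) =
          algebraMap (Algebra.adjoin k {t}) k⟮t⟯ c * lam t L (b : K) := Algebra.smul_def _ _
        rw [RingHom.id_apply, h4, ← h3]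
        rfl }
  obtain ⟨u, hu⟩ := exists_trace_eq (A := Algebra.adjoin k {t}) (F := k⟮t⟯)
    (B := integralClosure (Algebra.adjoin k {t}) K) (L := K) lamB
  exact ⟨u, fun a ha => hu ⟨a, (h.int1 a).mp ha⟩⟩

theorem trK_smul {F : IntermediateField k K} (c : F) (x : K) :
    trK F ((c : K) * x) = c * trK F x := by
  rw [trK, trK]
  have h : (c : K) * x = c • x := (Algebra.smul_def c x).symm
  rw [h, map_smul, smul_eq_mul, map_mul]
  rfl

theorem TwoCharts.trK_one (h : TwoCharts t R1 R2 R12) (L : K →ₗ[k] k)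
    (h2 : ∀ a ∈ R2, L a = 0) {u : K}
    (hu : ∀ a ∈ R1, Algebra.trace k⟮t⟯ K (u * a) = lam t L a) (a : K) (ha : a ∈ R1) :
    trK k⟮t⟯ (u * a) ∈ Algebra.adjoin k {t} := by
  obtain ⟨N, hN⟩ := h.cf_zero L h2 a (h.le1 ha)
  rw [trK, hu a ha, lam_eq L a N hN, map_sum]
  apply Subalgebra.sum_mem
  intro n _
  rw [map_mul, map_pow]
  apply Subalgebra.mul_mem
  · rw [← IsScalarTower.algebraMap_apply]
    exact Subalgebra.algebraMap_mem _ _
  · exact Subalgebra.pow_mem _ (Algebra.self_mem_adjoin_singleton k t) _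

theorem TwoCharts.trK_two (h : TwoCharts t R1 R2 R12) (ht : t ≠ 0) (L : K →ₗ[k] k)
    (h2 : ∀ a ∈ R2, L a = 0) {u : K}
    (hu : ∀ a ∈ R1, Algebra.trace k⟮t⟯ K (u * a) = lam t L a) (a : K) (ha : a ∈ R2) :
    trK k⟮t⟯ ((u * t ^ 2) * a) ∈ Algebra.adjoin k {t⁻¹} := by
  obtain ⟨N, hN⟩ := h.den1 a (h.le2 ha)
  have hN1 : t ^ (N + 1) * a ∈ R1 := by
    rw [pow_succ', mul_assoc]
    exact R1.mul_mem h.t_mem hN
  have hc : ∀ n, N ≤ n → cf t L (t ^ (N + 1) * a) n = 0 := by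
    intro n hn
    rw [cf]
    apply h2
    have h3 : t ^ (N + 1) * a * t⁻¹ ^ (n + 1) = t⁻¹ ^ (n - N) * a := by
      obtain ⟨m, rfl⟩ : ∃ m, n = N + m := ⟨n - N, by omega⟩
      have h4 : t⁻¹ ^ (N + m + 1) = t⁻¹ ^ (N + 1) * t⁻¹ ^ m := by
        rw [← pow_add]; congr 1; omega
      have h5 : t ^ (N + 1) * t⁻¹ ^ (N + 1) = 1 := by
        rw [← mul_pow, mul_inv_cancel₀ ht, one_pow]
      rw [h4, show N + m - N = m by omega]
      calc t ^ (N + 1) * a * (t⁻¹ ^ (N + 1) * t⁻¹ ^ m)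
          = (t ^ (N + 1) * t⁻¹ ^ (N + 1)) * (t⁻¹ ^ m * a) := by ring
        _ = _ := by rw [h5, one_mul]
    rw [h3]
    exact R2.mul_mem (R2.pow_mem h.inv_mem _) ha
  let g : k⟮t⟯ := IntermediateField.AdjoinSimple.gen k t
  have hg : (g : K) = t := rfl
  have e1 : (u * t ^ 2) * a = ((g⁻¹ ^ (N + 1) * g ^ 2 : k⟮t⟯) : K) * (u * (t ^ (N + 1) * a)) := by
    have h5 : t⁻¹ ^ (N + 1) * t ^ (N + 1) = 1 := by
      rw [← mul_pow, inv_mul_cancel₀ ht, one_pow]
    push_cast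
    rw [hg]
    calc (u * t ^ 2) * a = (t⁻¹ ^ (N + 1) * t ^ (N + 1)) * ((u * t ^ 2) * a) := by
          rw [h5, one_mul]
      _ = _ := by ring
  rw [e1, trK_smul, trK, hu _ hN1, lam_eq L _ N hc, map_sum, Finset.mul_sum]
  apply Subalgebra.sum_mem
  intro n hn
  rw [Finset.mem_range] at hn
  rw [map_mul, map_pow, ← IsScalarTower.algebraMap_apply, mul_left_comm]
  apply Subalgebra.mul_mem
  · exact Subalgebra.algebraMap_mem _ _
  · have e2 : ((g⁻¹ ^ (N + 1) * g ^ 2 : k⟮t⟯) : K) *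
        algebraMap k⟮t⟯ K (IntermediateField.AdjoinSimple.gen k t) ^ n = t⁻¹ ^ (N - 1 - n) := by
      push_cast
      rw [hg, IntermediateField.AdjoinSimple.algebraMap_gen]
      obtain ⟨m, rfl⟩ : ∃ m, N = m + 1 + n := ⟨N - 1 - n, by omega⟩
      rw [show m + 1 + n - 1 - n = m by omega, show m + 1 + n + 1 = m + (n + 2) by ring, pow_add]
      have h5 : t⁻¹ ^ (n + 2) * t ^ (n + 2) = 1 := by
        rw [← mul_pow, inv_mul_cancel₀ ht, one_pow]
      calc t⁻¹ ^ m * t⁻¹ ^ (n + 2) * t ^ 2 * t ^ n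
          = t⁻¹ ^ m * (t⁻¹ ^ (n + 2) * t ^ (n + 2)) := by ring
        _ = _ := by rw [h5, mul_one]
    rw [e2]
    exact Subalgebra.pow_mem _ (Algebra.self_mem_adjoin_singleton k t⁻¹) _

theorem adjoin_inv : k⟮t⁻¹⟯ = k⟮t⟯ := by
  apply le_antisymm
  · rw [IntermediateField.adjoin_simple_le_iff]
    exact k⟮t⟯.inv_mem (IntermediateField.mem_adjoin_simple_self k t)
  · rw [IntermediateField.adjoin_simple_le_iff]
    have h := k⟮t⁻¹⟯.inv_mem (IntermediateField.mem_adjoin_simple_self k t⁻¹)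
    rwa [inv_inv] at h

/-- The differential `u dt` is regular on both charts. -/
theorem TwoCharts.regular (h : TwoCharts t R1 R2 R12) (ht : t ≠ 0) [CharZero k] [IsAlgClosed k]
    [FiniteDimensional k⟮t⟯ K] (L : K →ₗ[k] k) (h2 : ∀ a ∈ R2, L a = 0) {u : K}
    (hu : ∀ a ∈ R1, Algebra.trace k⟮t⟯ K (u * a) = lam t L a) :
    (∀ D : Derivation k K K, (∀ a ∈ R1, D a ∈ R1) → u * D t ∈ R1) ∧
    (∀ D : Derivation k K K, (∀ a ∈ R2, D a ∈ R2) → u * D t ∈ R2) := by
  constructor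
  · intro D hD
    rw [h.int1]
    apply mul_derivation_mem k t u
    · intro a ha
      exact h.trK_one L h2 hu a ((h.int1 a).mpr ha)
    · intro a ha
      exact (h.int1 _).mp (hD a ((h.int1 a).mpr ha))
  · intro D hD
    have hf : FiniteDimensional k⟮t⁻¹⟯ K := by rw [adjoin_inv]; infer_instance
    have h3 : u * D t = - ((u * t ^ 2) * D t⁻¹) := by
      have h4 : D t⁻¹ = - (t⁻¹ ^ 2 * D t) := by
        have h5 : D (t * t⁻¹) = 0 := by rw [mul_inv_cancel₀ ht, D.map_one_eq_zero]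
        rw [D.leibniz, smul_eq_mul, smul_eq_mul] at h5
        have h6 : D t⁻¹ = t⁻¹ * (t * D t⁻¹) := by
          rw [← mul_assoc, inv_mul_cancel₀ ht, one_mul]
        rw [h6, eq_neg_of_add_eq_zero_left h5]
        ring
      rw [h4]
      field_simp
    rw [h3]
    apply R2.neg_mem
    rw [h.int2]
    apply mul_derivation_mem k t⁻¹ (u * t ^ 2)
    · intro a ha
      rw [adjoin_inv]
      exact h.trK_two ht L h2 hu a ((h.int2 a).mpr ha)
    · intro a ha
      exact (h.int2 _).mp (hD a ((h.int2 a).mpr ha))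

theorem sum_gen_zero (htr : Transcendental k t) (c : ℕ → k) (N : ℕ)
    (h : ∑ n ∈ Finset.range N, algebraMap k k⟮t⟯ (c n) *
      IntermediateField.AdjoinSimple.gen k t ^ n = 0) : ∀ n < N, c n = 0 := by
  have h1 : Polynomial.aeval t (∑ n ∈ Finset.range N, Polynomial.C (c n) * Polynomial.X ^ n)
      = 0 := by
    have h2 := congrArg (algebraMap k⟮t⟯ K) h
    rw [map_sum, map_zero] at h2
    rw [map_sum, ← h2]
    apply Finset.sum_congr rfl
    intro n _
    rw [map_mul, map_mul, map_pow, map_pow, Polynomial.aeval_X, Polynomial.aeval_C,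
      ← IsScalarTower.algebraMap_apply, IntermediateField.AdjoinSimple.algebraMap_gen]
  have h3 := (transcendental_iff.mp htr) _ h1
  intro n hn
  have h4 := congrArg (fun p => Polynomial.coeff p n) h3
  simp only [Polynomial.finsetSum_coeff, Polynomial.coeff_C_mul_X_pow, Polynomial.coeff_zero] at h4
  rw [Finset.sum_ite_eq] at h4
  simpa [hn] using h4

/-- `H⁰(Ω)` has dimension at least two if `H¹(O)` has. -/
theorem TwoCharts.exists_two (h : TwoCharts t R1 R2 R12) (ht : t ≠ 0) [CharZero k]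
    [IsAlgClosed k] [FiniteDimensional k⟮t⟯ K] {x y : K} (hx : x ∈ R12) (hy : y ∈ R12)
    (hxy : ∀ α β : k, α • x + β • y ∈ Subalgebra.toSubmodule R1 ⊔ Subalgebra.toSubmodule R2 →
      α = 0 ∧ β = 0) :
    ∃ u u' : K, (∀ α β : k, α • u + β • u' = 0 → α = 0 ∧ β = 0) ∧
      ((∀ D : Derivation k K K, (∀ a ∈ R1, D a ∈ R1) → u * D t ∈ R1) ∧
      (∀ D : Derivation k K K, (∀ a ∈ R2, D a ∈ R2) → u * D t ∈ R2)) ∧
      ((∀ D : Derivation k K K, (∀ a ∈ R1, D a ∈ R1) → u' * D t ∈ R1) ∧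
      (∀ D : Derivation k K K, (∀ a ∈ R2, D a ∈ R2) → u' * D t ∈ R2)) := by
  have htr : Transcendental k t := by
    intro halg
    obtain ⟨c, hc⟩ : t ∈ (algebraMap k K).range :=
      minpoly.mem_range_of_degree_eq_one k t
        (IsAlgClosed.degree_eq_one_of_irreducible k (minpoly.irreducible halg.isIntegral))
    obtain ⟨N, hN⟩ := h.den1 x hx
    have hc0 : c ≠ 0 := by
      rintro rfl
      exact ht (by rw [← hc, map_zero])
    have h1 : x ∈ R1 := by
      have h2 : x = algebraMap k K (c⁻¹ ^ N) * (t ^ N * x) := by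
        rw [← hc, ← mul_assoc, ← map_pow, ← map_mul, ← mul_pow, inv_mul_cancel₀ hc0, one_pow,
          map_one, one_mul]
      rw [h2]
      exact R1.mul_mem (R1.algebraMap_mem _) hN
    have h2 := hxy 1 0 (by
      rw [one_smul, zero_smul, add_zero]
      exact Submodule.mem_sup_left h1)
    exact one_ne_zero h2.1
  set W := Subalgebra.toSubmodule R1 ⊔ Subalgebra.toSubmodule R2 with hW
  have hx1 : x ∉ W ⊔ Submodule.span k {y} := by
    intro h1
    obtain ⟨w, hw, z, hz, e⟩ := Submodule.mem_sup.mp h1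
    obtain ⟨b, rfl⟩ := Submodule.mem_span_singleton.mp hz
    have h2 := hxy 1 (-b) (by
      rw [one_smul, neg_smul, ← e, add_neg_cancel_right]
      exact hw)
    exact one_ne_zero h2.1
  have hy1 : y ∉ W ⊔ Submodule.span k {x} := by
    intro h1
    obtain ⟨w, hw, z, hz, e⟩ := Submodule.mem_sup.mp h1
    obtain ⟨b, rfl⟩ := Submodule.mem_span_singleton.mp hz
    have h2 := hxy (-b) 1 (by
      rw [one_smul, neg_smul, ← e, add_comm (-(b • x)), add_neg_cancel_right]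
      exact hw)
    exact one_ne_zero h2.2
  obtain ⟨L, hLx, hL⟩ := Submodule.exists_le_ker_of_notMem hx1
  obtain ⟨L', hLy, hL'⟩ := Submodule.exists_le_ker_of_notMem hy1
  have a1 : ∀ a ∈ R1, L a = 0 := fun a ha => hL (Submodule.mem_sup_left (Submodule.mem_sup_left ha))
  have a2 : ∀ a ∈ R2, L a = 0 := fun a ha => hL (Submodule.mem_sup_left (Submodule.mem_sup_right ha))
  have a3 : L y = 0 := hL (Submodule.mem_sup_right (Submodule.mem_span_singleton_self y))
  have b1 : ∀ a ∈ R1, L' a = 0 := fun a ha =>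
    hL' (Submodule.mem_sup_left (Submodule.mem_sup_left ha))
  have b2 : ∀ a ∈ R2, L' a = 0 := fun a ha =>
    hL' (Submodule.mem_sup_left (Submodule.mem_sup_right ha))
  have b3 : L' x = 0 := hL' (Submodule.mem_sup_right (Submodule.mem_span_singleton_self x))
  obtain ⟨u, hu⟩ := h.exists_u ht L a1 a2
  obtain ⟨u', hu'⟩ := h.exists_u ht L' b1 b2
  refine ⟨u, u', ?_, h.regular ht L a2 hu, h.regular ht L' b2 hu'⟩
  intro α β hαβ
  have key : ∀ z ∈ R12, α * L z + β * L' z = 0 := by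
    intro z hz
    obtain ⟨N, hN⟩ := h.den1 z hz
    have hz1 : t ^ (N + 1) * z ∈ R1 := by
      rw [pow_succ', mul_assoc]
      exact R1.mul_mem h.t_mem hN
    obtain ⟨M, hM⟩ := h.cf_zero L a2 _ (h.le1 hz1)
    obtain ⟨M', hM'⟩ := h.cf_zero L' b2 _ (h.le1 hz1)
    have e1 : algebraMap k k⟮t⟯ α * lam t L (t ^ (N + 1) * z) +
        algebraMap k k⟮t⟯ β * lam t L' (t ^ (N + 1) * z) = 0 := by
      rw [← hu _ hz1, ← hu' _ hz1, ← Algebra.smul_def, ← Algebra.smul_def,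
        ← LinearMap.map_smul_of_tower, ← LinearMap.map_smul_of_tower, ← map_add,
        ← smul_mul_assoc, ← smul_mul_assoc, ← add_mul, hαβ, zero_mul, map_zero]
    set P := max (N + 1) (max M M') with hP
    have c1 : N + 1 ≤ P := le_max_left _ _
    have c2 : M ≤ P := (le_max_left _ _).trans (le_max_right _ _)
    have c3 : M' ≤ P := (le_max_right _ _).trans (le_max_right _ _)
    rw [lam_eq L _ P (fun n hn => hM n (c2.trans hn)),
      lam_eq L' _ P (fun n hn => hM' n (c3.trans hn)), Finset.mul_sum, Finset.mul_sum,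
      ← Finset.sum_add_distrib] at e1
    have e2 := sum_gen_zero htr
      (fun n => α * cf t L (t ^ (N + 1) * z) n + β * cf t L' (t ^ (N + 1) * z) n) P (by
        rw [← e1]
        apply Finset.sum_congr rfl
        intro n _
        rw [map_add, map_mul, map_mul]
        ring) N (by omega)
    have e3 : t ^ (N + 1) * z * t⁻¹ ^ (N + 1) = z := by
      rw [mul_comm, ← mul_assoc, ← mul_pow, inv_mul_cancel₀ ht, one_pow, one_mul]
    simp only [cf, e3] at e2
    exact e2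
  constructor
  · have := key x hx
    rw [b3, mul_zero, add_zero] at this
    exact (mul_eq_zero.mp this).resolve_right hLx
  · have := key y hy
    rw [a3, mul_zero, zero_add] at this
    exact (mul_eq_zero.mp this).resolve_right hLy

/-- Vector fields on the chart `R`, in terms of the coordinate `t`. -/
noncomputable def TD (R : Subalgebra k K) (t : K) : Submodule R K where
  carrier := {x | ∃ D : Derivation k K K, (∀ a ∈ R, D a ∈ R) ∧ D t = x}
  add_mem' := by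
    rintro _ _ ⟨D, hD, rfl⟩ ⟨E, hE, rfl⟩
    exact ⟨D + E, fun a ha => R.add_mem (hD a ha) (hE a ha), rfl⟩
  zero_mem' := ⟨0, fun a _ => R.zero_mem, rfl⟩
  smul_mem' := by
    rintro c _ ⟨D, hD, rfl⟩
    exact ⟨(c : K) • D, fun a ha => R.mul_mem c.2 (hD a ha), rfl⟩

theorem pow_mul_mem (R : Subalgebra k K) {u : K} (hu : ∀ D : Derivation k K K,
    (∀ a ∈ R, D a ∈ R) → u * D t ∈ R) (j : ℕ) : ∀ z ∈ (TD R t) ^ j, u ^ j * z ∈ R := by
  induction j with
  | zero =>
    intro z hz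
    rw [pow_zero, Submodule.mem_one] at hz
    obtain ⟨r, rfl⟩ := hz
    rw [pow_zero, one_mul]
    exact r.2
  | succ j ih =>
    intro z hz
    rw [pow_succ] at hz
    refine Submodule.mul_induction_on hz ?_ ?_
    · rintro a ha b ⟨D, hD, rfl⟩
      have e : u ^ (j + 1) * (a * D t) = (u ^ j * a) * (u * D t) := by ring
      rw [e]
      exact R.mul_mem (ih a ha) (hu D hD)
    · intro a b ha hb
      rw [mul_add]
      exact R.add_mem ha hb

theorem pow_mul_mem' (R : Subalgebra k K) {u u' : K} (hu : ∀ D : Derivation k K K,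
    (∀ a ∈ R, D a ∈ R) → u * D t ∈ R) (hu' : ∀ D : Derivation k K K,
    (∀ a ∈ R, D a ∈ R) → u' * D t ∈ R) (j : ℕ) :
    ∀ z ∈ (TD R t) ^ (j + 1), u ^ j * u' * z ∈ R := by
  intro z hz
  rw [pow_succ] at hz
  refine Submodule.mul_induction_on hz ?_ ?_
  · rintro a ha b ⟨D, hD, rfl⟩
    have e : u ^ j * u' * (a * D t) = (u ^ j * a) * (u' * D t) := by ring
    rw [e]
    exact R.mul_mem (pow_mul_mem R hu j a ha) (hu' D hD)
  · intro a b ha hb
    rw [mul_add]
    exact R.add_mem ha hb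

/-- `H⁰(T^j) = 0` for `j ≥ 1` on a curve with `h¹(O) ≥ 2`. -/
theorem TwoCharts.vector_fields (h : TwoCharts t R1 R2 R12) (ht : t ≠ 0) [CharZero k]
    [IsAlgClosed k] [FiniteDimensional k⟮t⟯ K] {x y : K} (hx : x ∈ R12) (hy : y ∈ R12)
    (hxy : ∀ α β : k, α • x + β • y ∈ Subalgebra.toSubmodule R1 ⊔ Subalgebra.toSubmodule R2 →
      α = 0 ∧ β = 0) (j : ℕ) (hj : j ≠ 0) (z : K) (h1 : z ∈ (TD R1 t) ^ j)
    (h2 : z ∈ (TD R2 t) ^ j) : z = 0 := by
  obtain ⟨u, u', hi, ⟨p1, p2⟩, ⟨q1, q2⟩⟩ := h.exists_two ht hx hy hxy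
  obtain ⟨i, rfl⟩ : ∃ i, j = i + 1 := ⟨j - 1, by omega⟩
  obtain ⟨c, hc⟩ := h.inter _ (pow_mul_mem R1 p1 (i + 1) z h1) (pow_mul_mem R2 p2 (i + 1) z h2)
  obtain ⟨c', hc'⟩ := h.inter _ (pow_mul_mem' R1 p1 q1 i z h1) (pow_mul_mem' R2 p2 q2 i z h2)
  by_contra hz
  have hu0 : u ≠ 0 := by
    rintro rfl
    exact one_ne_zero (hi 1 0 (by simp)).1
  have e1 : u ^ i * z * (c' • u + (-c) • u') = 0 := by
    rw [Algebra.smul_def, Algebra.smul_def, map_neg, hc, hc']
    ring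
  have e2 : u ^ i * z ≠ 0 := mul_ne_zero (pow_ne_zero _ hu0) hz
  have e3 := hi c' (-c) ((mul_eq_zero.mp e1).resolve_left e2)
  have e4 : c = 0 := by simpa using e3.2
  rw [e4, map_zero] at hc
  exact mul_ne_zero (pow_ne_zero _ hu0) hz hc.symm

end Lam

end MG
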