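import Pool.Agent.MG.SDB

/-!
# Regular differentials on all charts, for every affine cover (MP_cc45c1_ag)
-/

namespace MG
open scoped IntermediateField
open Algebra

variable {k K : Type*} [Field k] [Field K] [Algebra k K]

section Integral

variable {t : K}

theorem exists_pow_mem_adjoin_inv (ht : t ≠ 0) {c : K} (hc : c ∈ Algebra.adjoin k {t}) :
    ∃ N : ℕ, ∀ M, N ≤ M → t⁻¹ ^ M * c ∈ Algebra.adjoin k {t⁻¹} := by
  have hs : t⁻¹ ∈ Algebra.adjoin k {t⁻¹} := Algebra.self_mem_adjoin_singleton k t⁻¹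
  refine Algebra.adjoin_induction (p := fun x _ => ∃ N : ℕ, ∀ M, N ≤ M →
    t⁻¹ ^ M * x ∈ Algebra.adjoin k {t⁻¹}) ?_ ?_ ?_ ?_ hc
  · rintro x rfl
    refine ⟨1, fun M hM => ?_⟩
    obtain ⟨m, rfl⟩ : ∃ m, M = m + 1 := ⟨M - 1, by omega⟩
    rw [pow_succ, mul_assoc, inv_mul_cancel₀ ht, mul_one]
    exact Subalgebra.pow_mem _ hs m
  · intro r
    exact ⟨0, fun M _ => Subalgebra.mul_mem _ (Subalgebra.pow_mem _ hs M)
      (Subalgebra.algebraMap_mem _ r)⟩
  · rintro x y _ _ ⟨N, hN⟩ ⟨N', hN'⟩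
    refine ⟨max N N', fun M hM => ?_⟩
    rw [mul_add]
    exact Subalgebra.add_mem _ (hN M ((le_max_left _ _).trans hM))
      (hN' M ((le_max_right _ _).trans hM))
  · rintro x y _ _ ⟨N, hN⟩ ⟨N', hN'⟩
    refine ⟨N + N', fun M hM => ?_⟩
    obtain ⟨m, rfl⟩ : ∃ m, M = N + (N' + m) := ⟨M - N - N', by omega⟩
    have e : t⁻¹ ^ (N + (N' + m)) * (x * y) = (t⁻¹ ^ N * x) * (t⁻¹ ^ (N' + m) * y) := by
      rw [pow_add]; ring
    rw [e]
    exact Subalgebra.mul_mem _ (hN N le_rfl) (hN' (N' + m) (by omega))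

open Polynomial in
/-- An element which is integral over `k[t]` becomes integral over `k[t⁻¹]` after multiplication
with a power of `t⁻¹`. -/
theorem exists_pow_integral_inv (ht : t ≠ 0) {a : K} (ha : IsIntegral (Algebra.adjoin k {t}) a) :
    ∃ N : ℕ, IsIntegral (Algebra.adjoin k {t⁻¹}) (t⁻¹ ^ N * a) := by
  obtain ⟨p, hp, hpa⟩ := ha
  set q : K[X] := p.map (algebraMap (Algebra.adjoin k {t}) K) with hq
  have hqm : q.Monic := hp.map _
  have hc : ∀ i, ∃ N : ℕ, ∀ M, N ≤ M → t⁻¹ ^ M * q.coeff i ∈ Algebra.adjoin k {t⁻¹} := by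
    intro i
    apply exists_pow_mem_adjoin_inv ht
    rw [hq, coeff_map]
    exact (p.coeff i).2
  choose N hN using hc
  set P := (Finset.range (q.natDegree + 1)).sup N with hP
  have hP' : ∀ i ≤ q.natDegree, N i ≤ P := fun i hi =>
    Finset.le_sup (f := N) (Finset.mem_range.mpr (by omega))
  set r : K[X] := scaleRoots q (t⁻¹ ^ P) with hr
  have hrm : r.Monic := (monic_scaleRoots_iff _).mpr hqm
  have hrl : r ∈ lifts (algebraMap (Algebra.adjoin k {t⁻¹}) K) := by
    rw [lifts_iff_coeff_lifts]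
    intro i
    have : r.coeff i ∈ Algebra.adjoin k {t⁻¹} := by
      rw [hr, coeff_scaleRoots]
      rcases lt_trichotomy i q.natDegree with hi | hi | hi
      · rw [mul_comm, ← pow_mul]
        apply hN
        calc N i ≤ P := hP' i hi.le
          _ ≤ P * (q.natDegree - i) := Nat.le_mul_of_pos_right _ (by omega)
      · rw [hi, hqm.coeff_natDegree, Nat.sub_self, pow_zero, mul_one]
        exact Subalgebra.one_mem _
      · rw [coeff_eq_zero_of_natDegree_lt hi, zero_mul]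
        exact Subalgebra.zero_mem _
    exact ⟨⟨_, this⟩, rfl⟩
  obtain ⟨w, hw1, _, hw3⟩ := lifts_and_natDegree_eq_and_monic hrl hrm
  refine ⟨P, w, hw3, ?_⟩
  rw [← eval_map, hw1, hr, scaleRoots_eval_mul, hq, eval_map, hpa, mul_zero]

end Integral

end MG
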