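import Pool.Agent.MG.SDC
namespace MG
open scoped IntermediateField
open Algebra

variable {k K : Type*} [Field k] [Field K] [Algebra k K]

/-- Affine charts of a curve with function field `K`: finitely generated, integrally closed in
`K`, with field of fractions `K`. -/
structure Chart (R : Subalgebra k K) : Prop where
  fg : R.FG
  icl : ∀ a : K, IsIntegral R a → a ∈ R
  frac : ∀ a : K, ∃ b ∈ R, b ≠ 0 ∧ b * a ∈ R

/-- Noether normalisation. -/
theorem Chart.exists_t {R : Subalgebra k K} (h : Chart R) (hd : Algebra.trdeg k K = 1) :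
    ∃ t ∈ R, Transcendental k t ∧ (∀ a ∈ R, IsIntegral (Algebra.adjoin k {t}) a) ∧
      FiniteDimensional k⟮t⟯ K := by
  have : Algebra.FiniteType k R := (Subalgebra.fg_iff_finiteType R).mp h.fg
  obtain ⟨s, g, hinj, hint⟩ := exists_integral_inj_algHom_of_fg k R
  let y : Fin s → K := fun i => (g (MvPolynomial.X i) : K)
  have hy : MvPolynomial.aeval y = R.val.comp g := by
    apply MvPolynomial.algHom_ext
    intro i
    simp [y]
  have hind : AlgebraicIndependent k y := by
    rw [algebraicIndependent_iff_injective_aeval, hy]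
    exact (Subtype.val_injective).comp hinj
  have hrange : ∀ p, ((g p : R) : K) ∈ Algebra.adjoin k (Set.range y) := by
    intro p
    have : (g p : K) = MvPolynomial.aeval y p := by rw [hy]; rfl
    rw [this, Algebra.adjoin_range_eq_range_aeval]
    exact ⟨p, rfl⟩
  have hI : ∀ a ∈ R, IsIntegral (Algebra.adjoin k (Set.range y)) a := by
    intro a ha
    obtain ⟨p, hp, hpa⟩ := hint ⟨a, ha⟩
    let ψ : MvPolynomial (Fin s) k →+* Algebra.adjoin k (Set.range y) :=
      RingHom.codRestrict ((R.val.comp g : MvPolynomial (Fin s) k →ₐ[k] K) :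
        MvPolynomial (Fin s) k →+* K) (Algebra.adjoin k (Set.range y)) hrange
    refine ⟨p.map ψ, hp.map ψ, ?_⟩
    rw [Polynomial.eval₂_map]
    have h2 : (algebraMap (Algebra.adjoin k (Set.range y)) K).comp ψ =
        (R.val : R →+* K).comp (g : MvPolynomial (Fin s) k →+* R) := by
      ext <;> rfl
    have h3 := congrArg (R.val : R →+* K) hpa
    rw [Polynomial.hom_eval₂, map_zero] at h3
    rw [h2]
    exact h3
  have halg : Algebra.IsAlgebraic (Algebra.adjoin k (Set.range y)) K := by
    constructor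
    intro a
    obtain ⟨b, hb, hb0, hba⟩ := h.frac a
    have h1 : IsAlgebraic (Algebra.adjoin k (Set.range y)) b := (hI b hb).isAlgebraic
    have h2 : IsAlgebraic (Algebra.adjoin k (Set.range y)) (b * a) := (hI _ hba).isAlgebraic
    have h3 : a = b⁻¹ * (b * a) := by rw [← mul_assoc, inv_mul_cancel₀ hb0, one_mul]
    rw [h3]
    exact h1.inv.mul h2
  have hs : Cardinal.mk (Fin s) = 1 := by
    have h1 := (hind.isTranscendenceBasis_iff_isAlgebraic.mpr halg).lift_cardinalMk_eq_trdeg
    rw [hd] at h1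
    simpa using h1
  have hs1 : s = 1 := by simpa using hs
  subst hs1
  have hr : Set.range y = {y 0} := by
    rw [Set.range_unique]
    rfl
  rw [hr] at hI halg
  refine ⟨y 0, (g (MvPolynomial.X 0)).2, ?_, hI, ?_⟩
  · exact hind.transcendental 0
  · obtain ⟨S, hS⟩ := h.fg
    have hle : ∀ a ∈ R, a ∈ IntermediateField.adjoin k⟮y 0⟯ (S : Set K) := by
      intro a ha
      rw [← hS] at ha
      refine Algebra.adjoin_induction (p := fun x _ =>
        x ∈ IntermediateField.adjoin k⟮y 0⟯ (S : Set K)) ?_ ?_ ?_ ?_ ha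
      · intro x hx
        exact IntermediateField.subset_adjoin _ _ hx
      · intro c
        rw [IsScalarTower.algebraMap_apply k k⟮y 0⟯ K]
        exact IntermediateField.algebraMap_mem _ _
      · intro x z _ _ hx hz
        exact add_mem hx hz
      · intro x z _ _ hx hz
        exact mul_mem hx hz
    have htop : IntermediateField.adjoin k⟮y 0⟯ (S : Set K) = ⊤ := by
      rw [_root_.eq_top_iff]
      intro a _
      obtain ⟨b, hb, hb0, hba⟩ := h.frac a
      have h3 : a = b⁻¹ * (b * a) := by rw [← mul_assoc, inv_mul_cancel₀ hb0, one_mul]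
      rw [h3]
      exact mul_mem (inv_mem (hle b hb)) (hle _ hba)
    have hfin : FiniteDimensional k⟮y 0⟯ (IntermediateField.adjoin k⟮y 0⟯ (S : Set K)) := by
      apply IntermediateField.finiteDimensional_adjoin
      intro x hx
      have hxR : x ∈ R := by
        rw [← hS]
        exact Algebra.subset_adjoin hx
      obtain ⟨p, hp, hpx⟩ := hI x hxR
      refine ⟨p.map (Subalgebra.inclusion
        (IntermediateField.algebra_adjoin_le_adjoin k {y 0})).toRingHom, hp.map _, ?_⟩
      rw [Polynomial.eval₂_map]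
      exact hpx
    rw [htop] at hfin
    exact Module.Finite.equiv (IntermediateField.topEquiv (F := k⟮y 0⟯) (E := K)).toLinearEquiv

section Valuations

/-- Integral elements lie in every valuation ring containing the base. -/
theorem mem_of_integral {R : Subalgebra k K} (O : ValuationSubring K) (hR : ∀ r ∈ R, r ∈ O)
    {a : K} (ha : IsIntegral R a) : a ∈ O := by
  obtain ⟨p, hp, hpa⟩ := ha
  have h1 : IsIntegral O a := by
    let ψ : R →+* O := RingHom.codRestrict (R.val : R →+* K) O (fun r => hR r r.2)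
    refine ⟨p.map ψ, hp.map ψ, ?_⟩
    rw [Polynomial.eval₂_map]
    exact hpa
  obtain ⟨y, hy⟩ := (IsIntegrallyClosed.isIntegral_iff (R := O) (K := K)).mp h1
  rw [← hy]
  exact y.2

theorem Chart.mem_of_valuations {R : Subalgebra k K} (h : Chart R) {a : K}
    (ha : ∀ O : ValuationSubring K, (∀ r ∈ R, r ∈ O) → a ∈ O) : a ∈ R := by
  by_contra hn
  have : IsIntegrallyClosedIn R.toSubring K := by
    rw [Subring.isIntegrallyClosedIn_iff]
    intro x hx
    exact h.icl x hx
  obtain ⟨V, hV, hVa⟩ := Subring.exists_le_valuationSubring_of_isIntegrallyClosedIn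
    (R := R.toSubring) (x := a) hn
  exact hVa (ha V (fun r hr => hV hr))

theorem mem_range_of_valuations [IsAlgClosed k] {a : K}
    (ha : ∀ O : ValuationSubring K, (∀ c : k, algebraMap k K c ∈ O) → a ∈ O) :
    a ∈ Set.range (algebraMap k K) := by
  by_contra hn
  have : IsIntegrallyClosedIn (⊥ : Subalgebra k K).toSubring K := by
    rw [Subring.isIntegrallyClosedIn_iff]
    intro x hx
    have h1 : IsIntegral k x := by
      have : IsIntegral (⊥ : Subalgebra k K) x := hx
      have hk : Algebra.IsIntegral k (⊥ : Subalgebra k K) :=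
        ⟨fun y => by
          obtain ⟨c, hc⟩ := Algebra.mem_bot.mp y.2
          have : y = algebraMap k (⊥ : Subalgebra k K) c := Subtype.ext hc.symm
          rw [this]
          exact isIntegral_algebraMap⟩
      exact isIntegral_trans x this
    exact Algebra.mem_bot.mpr (minpoly.mem_range_of_degree_eq_one k x
        (IsAlgClosed.degree_eq_one_of_irreducible k (minpoly.irreducible h1)))
  obtain ⟨V, hV, hVa⟩ := Subring.exists_le_valuationSubring_of_isIntegrallyClosedIn
    (R := (⊥ : Subalgebra k K).toSubring) (x := a) (fun h => hn (Algebra.mem_bot.mp h))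
  exact hVa (ha V (fun c => hV (Algebra.mem_bot.mpr ⟨c, rfl⟩)))

end Valuations

/-- The integral closure of `k[t]` in `K`. -/
noncomputable def IC (k : Type*) {K : Type*} [Field k] [Field K] [Algebra k K] (t : K) :
    Subalgebra k K :=
  (integralClosure (Algebra.adjoin k {t}) K).restrictScalars k

theorem mem_IC {t a : K} : a ∈ IC k t ↔ IsIntegral (Algebra.adjoin k {t}) a := Iff.rfl

theorem adjoin_le_IC {t : K} : Algebra.adjoin k {t} ≤ IC k t := fun x hx =>
  isIntegral_algebraMap (R := Algebra.adjoin k {t}) (A := K) (x := ⟨x, hx⟩)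

theorem self_mem_IC {t : K} : t ∈ IC k t := adjoin_le_IC (Algebra.self_mem_adjoin_singleton k t)

theorem IC_mem_valuation {t a : K} (ha : a ∈ IC k t) (O : ValuationSubring K)
    (hk : ∀ c : k, algebraMap k K c ∈ O) (ht : t ∈ O) : a ∈ O := by
  apply mem_of_integral O _ (mem_IC.mp ha)
  intro r hr
  refine Algebra.adjoin_induction (p := fun x _ => x ∈ O) ?_ ?_ ?_ ?_ hr
  · rintro x rfl
    exact ht
  · exact hk
  · intro x y _ _ hx hy
    exact O.add_mem _ _ hx hy
  · intro x y _ _ hx hy
    exact O.mul_mem _ _ hx hy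

/-- The functions with a denominator `t ^ N`. -/
noncomputable def Loc (R : Subalgebra k K) (t : K) (ht : t ∈ R) : Subalgebra k K where
  carrier := {a | ∃ N : ℕ, t ^ N * a ∈ R}
  mul_mem' := by
    rintro a b ⟨N, hN⟩ ⟨M, hM⟩
    refine ⟨N + M, ?_⟩
    have e : t ^ (N + M) * (a * b) = (t ^ N * a) * (t ^ M * b) := by rw [pow_add]; ring
    rw [e]
    exact R.mul_mem hN hM
  add_mem' := by
    rintro a b ⟨N, hN⟩ ⟨M, hM⟩
    refine ⟨N + M, ?_⟩
    have e : t ^ (N + M) * (a + b) = t ^ M * (t ^ N * a) + t ^ N * (t ^ M * b) := by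
      rw [pow_add]; ring
    rw [e]
    exact R.add_mem (R.mul_mem (R.pow_mem ht M) hN) (R.mul_mem (R.pow_mem ht N) hM)
  algebraMap_mem' := fun r => ⟨0, by rw [pow_zero, one_mul]; exact R.algebraMap_mem r⟩

theorem mem_Loc {R : Subalgebra k K} {t : K} {ht : t ∈ R} {a : K} :
    a ∈ Loc R t ht ↔ ∃ N : ℕ, t ^ N * a ∈ R := Iff.rfl

theorem twoCharts_IC [IsAlgClosed k] {t : K} (ht : t ≠ 0) :
    TwoCharts t (IC k t) (IC k t⁻¹) (Loc (IC k t) t self_mem_IC) where
  int1 a := Iff.rfl
  int2 a := Iff.rfl
  le1 a ha := ⟨0, by rwa [pow_zero, one_mul]⟩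
  le2 a ha := by
    obtain ⟨N, hN⟩ := exists_pow_integral_inv (inv_ne_zero ht) (mem_IC.mp ha)
    rw [inv_inv] at hN
    exact ⟨N, hN⟩
  den1 a ha := ha
  den2 a ha := by
    obtain ⟨N, hN⟩ := ha
    obtain ⟨M, hM⟩ := exists_pow_integral_inv ht (mem_IC.mp hN)
    refine ⟨M, ?_⟩
    have e : t⁻¹ ^ M * a = t⁻¹ ^ N * (t⁻¹ ^ M * (t ^ N * a)) := by
      have : t⁻¹ ^ N * t ^ N = 1 := by rw [← mul_pow, inv_mul_cancel₀ ht, one_pow]
      calc t⁻¹ ^ M * a = (t⁻¹ ^ N * t ^ N) * (t⁻¹ ^ M * a) := by rw [this, one_mul]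
        _ = _ := by ring
    rw [e]
    exact (IC k t⁻¹).mul_mem ((IC k t⁻¹).pow_mem self_mem_IC N) hM
  inter a h1 h2 := by
    apply mem_range_of_valuations
    intro O hO
    rcases O.mem_or_inv_mem t with h | h
    · exact IC_mem_valuation h1 O hO h
    · exact IC_mem_valuation h2 O hO h

end MG
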