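import Pool.Agent.MG.SDD
namespace MG
open scoped IntermediateField nonZeroDivisors
open Algebra

variable {k K : Type*} [Field k] [Field K] [Algebra k K]

open scoped IntermediateField.algebraAdjoinAdjoin in
theorem chart_IC [CharZero k] {t : K} [FiniteDimensional k⟮t⟯ K] : Chart (IC k t) := by
  have : IsPrincipalIdealRing (Algebra.adjoin k {t}) := adjoin_pid k t
  have : IsIntegrallyClosed (Algebra.adjoin k {t}) := inferInstance
  have : CharZero k⟮t⟯ := charZero_of_injective_algebraMap (algebraMap k k⟮t⟯).injective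
  have : Algebra.IsSeparable k⟮t⟯ K := inferInstance
  have hf : Module.Finite (Algebra.adjoin k {t}) (integralClosure (Algebra.adjoin k {t}) K) :=
    IsIntegralClosure.finite (Algebra.adjoin k {t}) k⟮t⟯ K _
  have hfr : IsFractionRing (integralClosure (Algebra.adjoin k {t}) K) K :=
    integralClosure.isFractionRing_of_finite_extension k⟮t⟯ K
  refine ⟨?_, ?_, ?_⟩
  · rw [Subalgebra.fg_iff_finiteType]
    have h1 : Algebra.FiniteType k (Algebra.adjoin k {t}) :=
      (Subalgebra.fg_iff_finiteType _).mp ⟨{t}, by simp⟩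
    have h2 : Algebra.FiniteType (Algebra.adjoin k {t})
      (integralClosure (Algebra.adjoin k {t}) K) := inferInstance
    have h3 : Algebra.FiniteType k (integralClosure (Algebra.adjoin k {t}) K) :=
      Algebra.FiniteType.trans h1 h2
    exact h3
  · intro a ha
    rw [mem_IC]
    have h1 : IsIntegral (integralClosure (Algebra.adjoin k {t}) K) a := ha
    exact isIntegral_trans a h1
  · intro a
    obtain ⟨⟨b, s⟩, hb⟩ := IsLocalization.surj
      (integralClosure (Algebra.adjoin k {t}) K)⁰ a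
    refine ⟨s.1.1, s.1.2, ?_, ?_⟩
    · intro h
      exact nonZeroDivisors.coe_ne_zero s (Subtype.ext h)
    · have : (s.1.1 : K) * a = b.1 := by rw [mul_comm]; exact hb
      rw [this]
      exact b.2

theorem Chart.eq_IC {R : Subalgebra k K} (h : Chart R) {t : K} (ht : t ∈ R)
    (hi : ∀ a ∈ R, IsIntegral (Algebra.adjoin k {t}) a) : R = IC k t := by
  have hle : Algebra.adjoin k {t} ≤ R := Algebra.adjoin_le (by simpa using ht)
  apply le_antisymm
  · intro a ha
    exact hi a ha
  · intro a ha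
    apply h.icl
    obtain ⟨p, hp, hpa⟩ := mem_IC.mp ha
    exact ⟨p.map (Subalgebra.inclusion hle).toRingHom, hp.map _, by
      rw [Polynomial.eval₂_map]; exact hpa⟩

open scoped IntermediateField.algebraAdjoinAdjoin in
/-- Valuation rings are localisations of charts. -/
theorem exists_unit_mul_mem_IC [CharZero k] {t : K} [FiniteDimensional k⟮t⟯ K]
    (O : ValuationSubring K) (hO : ∀ r ∈ IC k t, r ∈ O) {a : K} (ha : a ∈ O) :
    ∃ g ∈ IC k t, g ≠ 0 ∧ g⁻¹ ∈ O ∧ g * a ∈ IC k t := by
  have : IsPrincipalIdealRing (Algebra.adjoin k {t}) := adjoin_pid k t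
  have : IsIntegrallyClosed (Algebra.adjoin k {t}) := inferInstance
  have : IsDedekindDomain (Algebra.adjoin k {t}) := inferInstance
  have : CharZero k⟮t⟯ := charZero_of_injective_algebraMap (algebraMap k k⟮t⟯).injective
  have : Algebra.IsSeparable k⟮t⟯ K := inferInstance
  have : IsDedekindDomain (integralClosure (Algebra.adjoin k {t}) K) :=
    integralClosure.isDedekindDomain (Algebra.adjoin k {t}) k⟮t⟯ K
  have : IsFractionRing (integralClosure (Algebra.adjoin k {t}) K) K :=
    integralClosure.isFractionRing_of_finite_extension k⟮t⟯ K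
  by_contra hcon
  push Not at hcon
  set B := integralClosure (Algebra.adjoin k {t}) K with hB
  let J : FractionalIdeal B⁰ K := 1 + FractionalIdeal.spanSingleton B⁰ a
  have hJ0 : J ≠ 0 := by
    intro h
    have h1 : (1 : K) ∈ J := by
      rw [FractionalIdeal.mem_add]
      exact ⟨1, FractionalIdeal.one_mem_one _, 0, FractionalIdeal.zero_mem _, add_zero 1⟩
    rw [h, FractionalIdeal.mem_zero_iff] at h1
    exact one_ne_zero h1
  have h1 : (1 : K) ∈ J * J⁻¹ := by
    rw [mul_inv_cancel₀ hJ0]
    exact FractionalIdeal.one_mem_one _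
  have hJO : ∀ m ∈ J, m ∈ O := by
    intro m hm
    obtain ⟨i, hi, j, hj, rfl⟩ := (FractionalIdeal.mem_add _ _ _).mp hm
    obtain ⟨b, rfl⟩ := (FractionalIdeal.mem_one_iff _).mp hi
    obtain ⟨c, rfl⟩ := (FractionalIdeal.mem_spanSingleton _).mp hj
    refine O.add_mem _ _ (hO _ b.2) ?_
    rw [Algebra.smul_def]
    exact O.mul_mem _ _ (hO _ c.2) ha
  have hJi : ∀ g ∈ J⁻¹, O.valuation g < 1 := by
    intro g hg
    rw [FractionalIdeal.mem_inv_iff hJ0] at hg
    have g1 : g ∈ IC k t := by
      have := hg 1 (by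
        rw [FractionalIdeal.mem_add]
        exact ⟨1, FractionalIdeal.one_mem_one _, 0, FractionalIdeal.zero_mem _, add_zero 1⟩)
      rw [mul_one] at this
      obtain ⟨b, hb⟩ := (FractionalIdeal.mem_one_iff _).mp this
      rw [← hb]
      exact b.2
    have g2 : g * a ∈ IC k t := by
      have := hg a (by
        rw [FractionalIdeal.mem_add]
        exact ⟨0, FractionalIdeal.zero_mem _, a, FractionalIdeal.mem_spanSingleton_self _ _,
          zero_add a⟩)
      obtain ⟨b, hb⟩ := (FractionalIdeal.mem_one_iff _).mp this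
      rw [← hb]
      exact b.2
    rw [← ValuationSubring.mem_nonunits_iff, ValuationSubring.mem_nonunits_iff_or]
    by_cases hg0 : g = 0
    · exact Or.inl hg0
    · right
      intro h2
      exact hcon g g1 hg0 h2 g2
  have key : O.valuation (1 : K) < 1 := by
    refine FractionalIdeal.mul_induction_on (C := fun x => O.valuation x < 1) h1 ?_ ?_
    · intro i hi j hj
      rw [map_mul]
      exact lt_of_le_of_lt (mul_le_of_le_one_left' ((O.valuation_le_one_iff i).mpr (hJO i hi)))
        (hJi j hj)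
    · intro x y hx hy
      exact Valuation.map_add_lt _ hx hy
  rw [map_one] at key
  exact lt_irrefl _ key

/-- Valuation rings are localisations of charts. -/
theorem Chart.exists_unit [CharZero k] {R : Subalgebra k K} (h : Chart R)
    (hd : Algebra.trdeg k K = 1) (O : ValuationSubring K) (hO : ∀ r ∈ R, r ∈ O) {a : K}
    (ha : a ∈ O) : ∃ g ∈ R, g ≠ 0 ∧ g⁻¹ ∈ O ∧ g * a ∈ R := by
  obtain ⟨t, htR, _, hi, hf⟩ := h.exists_t hd
  have hR := h.eq_IC htR hi
  subst hR
  exact exists_unit_mul_mem_IC O hO ha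

/-- A derivation of a chart is a derivation of the valuation rings above. -/
theorem Chart.derivation_valuation [CharZero k] {R : Subalgebra k K} (h : Chart R)
    (hd : Algebra.trdeg k K = 1) (O : ValuationSubring K) (hO : ∀ r ∈ R, r ∈ O)
    (D : Derivation k K K) (hD : ∀ a ∈ R, D a ∈ R) {a : K} (ha : a ∈ O) : D a ∈ O := by
  obtain ⟨g, hg, hg0, hgi, hga⟩ := h.exists_unit hd O hO ha
  have h1 : D (g * a) = g * D a + a * D g := by rw [D.leibniz, smul_eq_mul, smul_eq_mul]
  have h2 : D a = g⁻¹ * (D (g * a) - a * D g) := by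
    rw [h1, add_sub_cancel_right, ← mul_assoc, inv_mul_cancel₀ hg0, one_mul]
  rw [h2]
  exact O.mul_mem _ _ hgi (sub_mem (hO _ (hD _ hga)) (O.mul_mem _ _ ha (hO _ (hD _ hg))))

/-- A derivation of the valuation ring becomes a derivation of the chart after multiplication with
a unit. -/
theorem Chart.exists_unit_derivation [CharZero k] {R : Subalgebra k K} (h : Chart R)
    (hd : Algebra.trdeg k K = 1) (O : ValuationSubring K) (hO : ∀ r ∈ R, r ∈ O)
    (D : Derivation k K K) (hD : ∀ a ∈ O, D a ∈ O) :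
    ∃ g ∈ R, g ≠ 0 ∧ g⁻¹ ∈ O ∧ ∀ a ∈ R, g * D a ∈ R := by
  classical
  obtain ⟨S, hS⟩ := h.fg
  have h1 : ∀ T : Finset K, (∀ s ∈ T, s ∈ R) → ∃ g ∈ R, g ≠ 0 ∧ g⁻¹ ∈ O ∧ ∀ s ∈ T, g * D s ∈ R := by
    intro T
    induction T using Finset.induction_on with
    | empty =>
      intro _
      exact ⟨1, R.one_mem, one_ne_zero, by rw [inv_one]; exact O.one_mem, by simp⟩
    | insert x T hx ih =>
      intro hT
      obtain ⟨g, hg, hg0, hgi, hgT⟩ := ih (fun s hs => hT s (Finset.mem_insert_of_mem hs))
      obtain ⟨g', hg', hg0', hgi', hgx⟩ := h.exists_unit hd O hO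
        (hD x (hO x (hT x (Finset.mem_insert_self x T))))
      refine ⟨g * g', R.mul_mem hg hg', mul_ne_zero hg0 hg0', ?_, ?_⟩
      · rw [mul_inv]
        exact O.mul_mem _ _ hgi hgi'
      · intro s hs
        rcases Finset.mem_insert.mp hs with rfl | hs
        · rw [mul_assoc]
          exact R.mul_mem hg hgx
        · rw [mul_comm g, mul_assoc]
          exact R.mul_mem hg' (hgT s hs)
  obtain ⟨g, hg, hg0, hgi, hgS⟩ := h1 S (fun s hs => by
    rw [← hS]; exact Algebra.subset_adjoin hs)
  refine ⟨g, hg, hg0, hgi, ?_⟩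
  intro a ha
  rw [← hS] at ha
  have key : a ∈ R ∧ g * D a ∈ R := by
    refine Algebra.adjoin_induction (p := fun x _ => x ∈ R ∧ g * D x ∈ R) ?_ ?_ ?_ ?_ ha
    · intro x hx
      exact ⟨by rw [← hS]; exact Algebra.subset_adjoin hx, hgS x hx⟩
    · intro c
      refine ⟨R.algebraMap_mem c, ?_⟩
      rw [D.map_algebraMap, mul_zero]
      exact R.zero_mem
    · rintro x y _ _ ⟨hx, hx'⟩ ⟨hy, hy'⟩
      refine ⟨R.add_mem hx hy, ?_⟩
      rw [map_add, mul_add]
      exact R.add_mem hx' hy'
    · rintro x y _ _ ⟨hx, hx'⟩ ⟨hy, hy'⟩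
      refine ⟨R.mul_mem hx hy, ?_⟩
      have e : g * D (x * y) = x * (g * D y) + y * (g * D x) := by
        rw [D.leibniz, smul_eq_mul, smul_eq_mul]; ring
      rw [e]
      exact R.add_mem (R.mul_mem hx hy') (R.mul_mem hy hx')
  exact key.2

/-- `u dt` is regular on the chart `R`. -/
def Reg1 (t u : K) (R : Subalgebra k K) : Prop :=
  ∀ D : Derivation k K K, (∀ a ∈ R, D a ∈ R) → u * D t ∈ R

/-- A differential which is regular on two charts covering the valuation rings is regular on
every chart. -/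
theorem reg1_all [CharZero k] (hd : Algebra.trdeg k K = 1) {R1 R2 : Subalgebra k K}
    (h1 : Chart R1) (h2 : Chart R2)
    (hp : ∀ O : ValuationSubring K, (∀ c : k, algebraMap k K c ∈ O) →
      (∀ r ∈ R1, r ∈ O) ∨ (∀ r ∈ R2, r ∈ O))
    {t u : K} (hr1 : Reg1 t u R1) (hr2 : Reg1 t u R2) {R : Subalgebra k K} (h : Chart R) :
    Reg1 t u R := by
  intro D hD
  apply h.mem_of_valuations
  intro O hO
  have hk : ∀ c : k, algebraMap k K c ∈ O := fun c => hO _ (R.algebraMap_mem c)
  have hDO : ∀ a ∈ O, D a ∈ O := fun a ha => h.derivation_valuation hd O hO D hD ha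
  have main : ∀ S : Subalgebra k K, Chart S → Reg1 t u S → (∀ r ∈ S, r ∈ O) → u * D t ∈ O := by
    intro S hS hrS hSO
    obtain ⟨g, hg, hg0, hgi, hgS⟩ := hS.exists_unit_derivation hd O hSO D hDO
    have h3 := hrS (g • D) (fun a ha => by
      rw [Derivation.smul_apply, smul_eq_mul]; exact hgS a ha)
    rw [Derivation.smul_apply, smul_eq_mul] at h3
    have h4 : u * D t = g⁻¹ * (u * (g * D t)) := by
      field_simp
    rw [h4]
    exact O.mul_mem _ _ hgi (hSO _ h3)
  rcases hp O hk with h5 | h5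
  · exact main R1 h1 hr1 h5
  · exact main R2 h2 hr2 h5

end MG
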