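import Pool.Agent.MG.TwoSmC
import Pool.Agent.MG.TwoChart

open AlgebraicGeometry CategoryTheory TopologicalSpace Opposite IsLocalRing

universe u

namespace Pool.Agent.MG.Two

open Polynomial KaehlerDifferential TensorProduct

section alg
variable {k R : Type u} [Field k] [CommRing R] [Algebra k R]

/-- Differentials of a ring which is étale over `k[x]`. -/
theorem exists_kaehler_equiv (x : R) (h : (aeval x : k[X] →ₐ[k] R).toRingHom.Etale) :
    ∃ Φ : Ω[R⁄k] ≃ₗ[R] R, Φ (D k R x) = 1 := by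
  let _ : Algebra k[X] R := (aeval x : k[X] →ₐ[k] R).toRingHom.toAlgebra
  have hst : IsScalarTower k k[X] R := IsScalarTower.of_algebraMap_eq' (by
    ext a
    change algebraMap k R a = aeval x (C a)
    simp)
  have hX : algebraMap k[X] R X = x := by
    change aeval x X = x
    simp
  have h1 : Algebra.Etale k[X] R := h
  have h2 : Algebra.FormallyEtale k[X] R := inferInstance
  let Ψ := (tensorKaehlerEquivOfFormallyEtale k k[X] R).symm ≪≫ₗ
    (AlgebraTensorModule.congr (LinearEquiv.refl R R) (polynomialEquiv k)) ≪≫ₗ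
    (AlgebraTensorModule.rid k[X] R R)
  refine ⟨Ψ, ?_⟩
  have h3 := tensorKaehlerEquivOfFormallyEtale_symm_D_algebraMap k k[X] R X
  rw [hX] at h3
  simp only [Ψ, LinearEquiv.trans_apply, h3, AlgebraTensorModule.congr_tmul,
    LinearEquiv.refl_apply, polynomialEquiv_D, derivative_X, AlgebraTensorModule.rid_tmul,
    one_smul]

/-- The derivation `d/dx` and the function `dx/dy`. -/
theorem exists_derivation (x y : R) (hx : (aeval x : k[X] →ₐ[k] R).toRingHom.Etale)
    (hy : (aeval y : k[X] →ₐ[k] R).toRingHom.Etale) :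
    ∃ (dd : Derivation k R R) (e : R), dd x = 1 ∧ e * dd y = 1 := by
  obtain ⟨Φ, hΦ⟩ := exists_kaehler_equiv x hx
  obtain ⟨Ψ, hΨ⟩ := exists_kaehler_equiv y hy
  refine ⟨Φ.toLinearMap.compDer (D k R), Ψ (D k R x), hΦ, ?_⟩
  have h1 : D k R x = (Ψ (D k R x)) • D k R y := by
    apply Ψ.injective
    rw [map_smul, hΨ, smul_eq_mul, mul_one]
  have h2 : Φ (D k R x) = Ψ (D k R x) • Φ (D k R y) := by
    conv_lhs => rw [h1]
    rw [map_smul]
  rw [hΦ] at h2
  exact h2.symm

end alg

variable {X : Scheme.{u}} {k : Type u} [Field k] (π : X ⟶ Spec (.of k))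

theorem exists_const [IsAlgClosed k] [IsIntegral X] [IsProper π] (s : Γ(X, ⊤)) :
    ∃ c : k, s = kmap π ⊤ c := by
  have h1 := finite_appTop_of_universallyClosed k π
  have h2 : (kmap π ⊤).Finite := by
    have h3 : (kmap π ⊤) = π.appTop.hom.comp (Scheme.ΓSpecIso (.of k)).inv.hom := by
      have h4 : π.appLE ⊤ ⊤ (le_pre_top π ⊤) = π.appTop := Scheme.Hom.appLE_eq_app π
      rw [kmap, h4]; rfl
    rw [h3]
    exact h1.comp (RingHom.Finite.of_surjective _
      (ConcreteCategory.bijective_of_isIso (Scheme.ΓSpecIso (.of k)).inv).2)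
  let _ : Algebra k Γ(X, ⊤) := (kmap π ⊤).toAlgebra
  have h3 : Module.Finite k Γ(X, ⊤) := h2
  have h4 : Algebra.IsIntegral k Γ(X, ⊤) := inferInstance
  obtain ⟨c, hc⟩ := (IsAlgClosed.algebraMap_bijective_of_isIntegral (k := k)
    (K := Γ(X, ⊤))).2 s
  exact ⟨c, hc.symm⟩

lemma isAffineOpen_inf [IsSeparated π] {U V : X.Opens} (hU : IsAffineOpen U)
    (hV : IsAffineOpen V) : IsAffineOpen (U ⊓ V) := by
  have h1 : X.IsSeparated := by
    constructor
    rw [← Limits.terminal.comp_from π]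
    infer_instance
  exact hU.inf hV

end Pool.Agent.MG.Two
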