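import Pool.Agent.MG.NOD
import Pool.Agent.MG.TwoH0

/-!
# A smooth nodal curve has relative dimension one: algebra
-/

open CategoryTheory CategoryTheory.Limits AlgebraicGeometry TensorProduct
open scoped Polynomial

namespace Pool.Agent.MG

namespace SmNod

open NOD

section node

variable (K : Type) [Field K]

theorem exists_vv_mul (z : NodeRing K) : ∃ w, z = mu K 0 (nu K 0 z) + vv K * w := by
  obtain ⟨p, rfl⟩ := Ideal.Quotient.mk_surjective z
  induction p using MvPolynomial.induction_on with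
  | C c =>
    have h : (Ideal.Quotient.mk (Ideal.span {(MvPolynomial.X 0 * MvPolynomial.X 1 :
        MvPolynomial (Fin 2) K)})) (MvPolynomial.C c) = algebraMap K (NodeRing K) c := rfl
    exact ⟨0, by rw [h, AlgHom.commutes, AlgHom.commutes, mul_zero, add_zero]⟩
  | add p q hp hq =>
    obtain ⟨w, hw⟩ := hp
    obtain ⟨w', hw'⟩ := hq
    refine ⟨w + w', ?_⟩
    rw [map_add, map_add, map_add, mul_add]
    rw [hw, hw']
    simp only [map_add, map_mul, nu_mu, nu_vv, zero_mul, add_zero]
    ring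
  | mul_X p i hp =>
    obtain ⟨w, hw⟩ := hp
    fin_cases i
    · refine ⟨w * uu K, ?_⟩
      have h1 : (Ideal.Quotient.mk (Ideal.span {(MvPolynomial.X 0 * MvPolynomial.X 1 :
        MvPolynomial (Fin 2) K)})) (p * MvPolynomial.X 0) =
        (Ideal.Quotient.mk _ p) * uu K := rfl
      rw [Fin.zero_eta, h1, map_mul, map_mul, mu_nu_uu]
      conv_lhs => rw [hw]
      ring
    · refine ⟨Ideal.Quotient.mk _ p, ?_⟩
      have h1 : (Ideal.Quotient.mk (Ideal.span {(MvPolynomial.X 0 * MvPolynomial.X 1 :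
        MvPolynomial (Fin 2) K)})) (p * MvPolynomial.X 1) =
        (Ideal.Quotient.mk _ p) * vv K := rfl
      rw [Fin.mk_one, h1, map_mul, map_mul, nu_vv, map_zero, mul_zero, zero_add, mul_comm]

theorem dvd_of_nu_eq_zero (z : NodeRing K) (h : nu K 0 z = 0) : ∃ w, z = vv K * w := by
  obtain ⟨w, hw⟩ := exists_vv_mul K z
  refine ⟨w, ?_⟩
  rw [h, map_zero, zero_add] at hw
  exact hw

/-- Exchange of the branches. -/
noncomputable def sw : NodeRing K →ₐ[K] NodeRing K :=
  Ideal.Quotient.liftₐ _ (MvPolynomial.aeval ![vv K, uu K]) (by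
    intro p hp
    have h : Ideal.span {(MvPolynomial.X 0 * MvPolynomial.X 1 : MvPolynomial (Fin 2) K)} ≤
        RingHom.ker (MvPolynomial.aeval ![vv K, uu K] :
          MvPolynomial (Fin 2) K →ₐ[K] NodeRing K) := by
      rw [Ideal.span_le, Set.singleton_subset_iff]
      show (MvPolynomial.aeval ![vv K, uu K] :
          MvPolynomial (Fin 2) K →ₐ[K] NodeRing K) (MvPolynomial.X 0 * MvPolynomial.X 1) = 0
      rw [map_mul, MvPolynomial.aeval_X, MvPolynomial.aeval_X]
      show vv K * uu K = 0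
      rw [mul_comm, uu_vv]
    exact h hp)

theorem sw_mk (p : MvPolynomial (Fin 2) K) :
    sw K (Ideal.Quotient.mk _ p) = MvPolynomial.aeval ![vv K, uu K] p := rfl

theorem sw_uu : sw K (uu K) = vv K := by
  unfold uu
  rw [sw_mk, MvPolynomial.aeval_X]
  rfl

theorem sw_vv : sw K (vv K) = uu K := by
  unfold vv
  rw [sw_mk, MvPolynomial.aeval_X]
  rfl

theorem sw_sw (z : NodeRing K) : sw K (sw K z) = z := by
  obtain ⟨p, rfl⟩ := Ideal.Quotient.mk_surjective z
  induction p using MvPolynomial.induction_on with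
  | C c =>
    have h : (Ideal.Quotient.mk (Ideal.span {(MvPolynomial.X 0 * MvPolynomial.X 1 :
        MvPolynomial (Fin 2) K)})) (MvPolynomial.C c) = algebraMap K (NodeRing K) c := rfl
    rw [h, AlgHom.commutes, AlgHom.commutes]
  | add p q hp hq => rw [map_add, map_add, map_add, hp, hq]
  | mul_X p i hp =>
    rw [map_mul, map_mul, map_mul, hp]
    fin_cases i
    · show _ * sw K (sw K (uu K)) = _ * uu K
      rw [sw_uu, sw_vv]
    · show _ * sw K (sw K (vv K)) = _ * vv K
      rw [sw_vv, sw_uu]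

/-- `u + v` is a nonzerodivisor. -/
theorem regular (z : NodeRing K) (h : (uu K + vv K) * z = 0) : z = 0 := by
  have h1 : nu K 0 z = 0 := by
    have h2 := congrArg (nu K 0) h
    rw [map_mul, map_add, nu_uu, nu_vv, map_zero, add_zero] at h2
    refine (mul_eq_zero.mp h2).resolve_left ?_
    rw [add_zero]
    exact Polynomial.X_ne_zero
  obtain ⟨w, rfl⟩ := dvd_of_nu_eq_zero K z h1
  have h3 : nu K 0 (sw K w) = 0 := by
    have h2 := congrArg (fun t => nu K 0 (sw K t)) h
    simp only [map_mul, map_add, sw_uu, sw_vv, nu_uu, nu_vv, map_zero, zero_add] at h2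
    have hne : ¬ (Polynomial.X + 0 : K[X]) = 0 := by
      rw [add_zero]
      exact Polynomial.X_ne_zero
    have h4 := (mul_eq_zero.mp h2).resolve_left hne
    exact (mul_eq_zero.mp h4).resolve_left hne
  obtain ⟨w', hw'⟩ := dvd_of_nu_eq_zero K _ h3
  have h5 : w = uu K * sw K w' := by
    rw [← sw_sw K w, hw', map_mul, sw_vv]
  rw [h5, ← mul_assoc, mul_comm (vv K), uu_vv, zero_mul]

/-- In a nontrivial flat algebra `u` and `v` are not both nilpotent. -/
theorem not_nilpotent {B : Type} [CommRing B] [Nontrivial B] [Algebra (NodeRing K) B]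
    [Module.Flat (NodeRing K) B] : ¬ IsNilpotent (algebraMap (NodeRing K) B (uu K)) ∨
      ¬ IsNilpotent (algebraMap (NodeRing K) B (vv K)) := by
  by_contra hcon
  push Not at hcon
  have h1 : IsNilpotent (algebraMap (NodeRing K) B (uu K + vv K)) := by
    rw [map_add]
    exact (Commute.all _ _).isNilpotent_add hcon.1 hcon.2
  obtain ⟨m, hm⟩ := h1
  have hreg : uu K + vv K ∈ nonZeroDivisors (NodeRing K) := by
    rw [mem_nonZeroDivisors_iff_right]
    intro z hz
    exact regular K z (by rw [mul_comm]; exact hz)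
  have hreg' : (uu K + vv K) ^ m ∈ nonZeroDivisors (NodeRing K) := pow_mem hreg m
  have h2 := Module.Flat.isSMulRegular_of_nonZeroDivisors (M := B) hreg'
  have h3 : (uu K + vv K) ^ m • (1 : B) = (uu K + vv K) ^ m • (0 : B) := by
    rw [smul_zero, Algebra.smul_def, mul_one, map_pow, hm]
  exact one_ne_zero (h2 h3)

theorem loc_node : @IsLocalization.Away (NodeRing K) _ (uu K) (Lo K 0) _
    ((algebraMap K[X] (Lo K 0)).comp (nu K 0).toRingHom).toAlgebra := by
  let i1 : Algebra (NodeRing K) (Lo K 0) :=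
    ((algebraMap K[X] (Lo K 0)).comp (nu K 0).toRingHom).toAlgebra
  have hs : (Polynomial.X + Polynomial.C 0 : K[X]) ≠ 0 := (Polynomial.monic_X_add_C 0).ne_zero
  have hal : ∀ z : NodeRing K, algebraMap (NodeRing K) (Lo K 0) z =
      algebraMap K[X] (Lo K 0) (nu K 0 z) := fun _ => rfl
  refine (isLocalization_iff _ _).2 ⟨?_, ?_, ?_⟩
  · rintro ⟨_, m, rfl⟩
    show IsUnit (algebraMap (NodeRing K) (Lo K 0) (uu K ^ m))
    rw [hal, map_pow, map_pow, nu_uu]
    exact (IsLocalization.Away.algebraMap_isUnit (S := Lo K 0)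
      (Polynomial.X + Polynomial.C 0 : K[X])).pow m
  · intro z
    obtain ⟨m, P, hP⟩ := IsLocalization.Away.surj (Polynomial.X + Polynomial.C 0 : K[X]) z
    refine ⟨(mu K 0 P, ⟨uu K ^ m, m, rfl⟩), ?_⟩
    show z * algebraMap (NodeRing K) (Lo K 0) (uu K ^ m) =
      algebraMap (NodeRing K) (Lo K 0) (mu K 0 P)
    rw [hal, hal, nu_mu, map_pow, map_pow, nu_uu, hP]
  · intro z z' h
    rw [hal, hal] at h
    have hinj : Function.Injective (algebraMap K[X] (Lo K 0)) :=
      IsLocalization.injective (Lo K 0) (powers_le_nonZeroDivisors_of_noZeroDivisors hs)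
    have h1 := hinj h
    refine ⟨⟨uu K, 1, pow_one _⟩, ?_⟩
    show uu K * z = uu K * z'
    rw [uu_mul K 0 z, uu_mul K 0 z', h1]

/-- Étale algebras over the node ring in which `u` is invertible. -/
theorem etale_of_isUnit {B : Type} [CommRing B] (β : NodeRing K →+* B) (hβ : β.Etale)
    (hu : IsUnit (β (uu K))) :
    (Polynomial.eval₂RingHom (β.comp (algebraMap K (NodeRing K))) (β (uu K)) :
      K[X] →+* B).Etale := by
  let i1 : Algebra (NodeRing K) (Lo K 0) :=
    ((algebraMap K[X] (Lo K 0)).comp (nu K 0).toRingHom).toAlgebra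
  have hloc : IsLocalization.Away (uu K) (Lo K 0) := loc_node K
  let β' : Lo K 0 →+* B := IsLocalization.Away.lift (uu K) hu
  have hβ' : ∀ z, β' (algebraMap (NodeRing K) (Lo K 0) z) = β z := fun z =>
    IsLocalization.Away.lift_eq (uu K) hu z
  have hcomp : β'.comp (algebraMap (NodeRing K) (Lo K 0)) = β := RingHom.ext hβ'
  have h1 : Etale (spMap (algebraMap (NodeRing K) (Lo K 0))) := etale_spMap (et_node K 0)
  have h2 : Etale (spMap β' ≫ spMap (algebraMap (NodeRing K) (Lo K 0))) := by
    have h3 : spMap β' ≫ spMap (algebraMap (NodeRing K) (Lo K 0)) = spMap β := by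
      rw [← Spec.map_comp]
      congr 1
      rw [← hcomp]
      rfl
    rw [h3]
    exact etale_spMap hβ
  have h4 : Etale (spMap β') := Etale.of_comp _ (spMap (algebraMap (NodeRing K) (Lo K 0)))
  have h5 : β'.Etale := (HasRingHomProperty.Spec_iff (P := @Etale)).1 h4
  have h6 : (algebraMap K[X] (Lo K 0)).Etale :=
    RingHom.etale_algebraMap.2 (Algebra.Etale.of_isLocalizationAway
      (Polynomial.X + Polynomial.C 0 : K[X]))
  have h7 := RingHom.Etale.stableUnderComposition _ _ h6 h5
  have h8 : β'.comp (algebraMap K[X] (Lo K 0)) =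
      Polynomial.eval₂RingHom (β.comp (algebraMap K (NodeRing K))) (β (uu K)) := by
    have h9 : ∀ P : K[X], β' (algebraMap K[X] (Lo K 0) P) = β (mu K 0 P) := by
      intro P
      rw [← hβ' (mu K 0 P)]
      show _ = β' (algebraMap K[X] (Lo K 0) (nu K 0 (mu K 0 P)))
      rw [nu_mu]
    apply Polynomial.ringHom_ext
    · intro a
      rw [RingHom.comp_apply, h9, Polynomial.coe_eval₂RingHom, Polynomial.eval₂_C]
      unfold mu
      rw [Polynomial.aeval_C]
      rfl
    · rw [RingHom.comp_apply, h9, Polynomial.coe_eval₂RingHom, Polynomial.eval₂_X]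
      unfold mu
      rw [Polynomial.aeval_X, map_zero, sub_zero]
  rw [← h8]
  exact h7

end node

end SmNod

end Pool.Agent.MG
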