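import Pool.Agent.MG.StmtsA

/-!
# Statements of the algebraic end of the proof
-/

open CategoryTheory CategoryTheory.Limits AlgebraicGeometry TensorProduct

namespace Pool.Agent.MG

/-- `D` is a basis of a complement of `R₁ + e R₂` in `R₁₂`. -/
structure Cpl {k : Type} [Field k] (T : TC k) {ι : Type} (D : ι → T.R12) : Prop where
  gen : ∀ r : T.R12, ∃ (a : T.R1) (b : T.R2) (c : ι →₀ k),
    r = T.j1 a + T.e * T.j2 b + c.sum fun i t => t • D i
  ind : ∀ (a : T.R1) (b : T.R2) (c : ι →₀ k),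
    T.j1 a + T.e * T.j2 b + (c.sum fun i t => t • D i) = 0 →
      T.j1 a = 0 ∧ T.e * T.j2 b = 0 ∧ c = 0

/-- UNI: universal covector data. -/
def Stmt_UNI : Prop :=
  ∀ {k : Type} [Field k] (T : TC k), Function.Injective T.j1 → Function.Injective T.j2 →
    (∀ (a : T.R1) (b : T.R2), T.j1 a = T.e * T.j2 b → a = 0) →
    ∃ (ι : Type) (D : ι → T.R12), Cpl T D ∧
      ∀ {n : ℕ} (B : Type) [CommRing B] [Algebra k B] (s : Fin n → Pt T B),
        (∀ (ν : Fin n → B) (w : ι → B), ∃ C : CovData s, C.ν = ν ∧ ∀ a, C.μ (D a) = w a) ∧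
        (∀ C C' : CovData s, C.ν = C'.ν → (∀ a, C.μ (D a) = C'.μ (D a)) → C = C')

/-- The substitution `ν i₀ ↦ e ν i₀`, `w a ↦ w a + D a ν i₀` (change of the chart of the moving
section). -/
noncomputable def chgV {n : ℕ} {k : Type} [Field k] (T : TC k) {ι : Type} (D : ι → T.R12)
    (i₀ : Fin n) : Fin n ⊕ ι → MvPolynomial (Fin n ⊕ ι) T.R12
  | .inl i => if i = i₀ then MvPolynomial.C T.e * MvPolynomial.X (.inl i) else
      MvPolynomial.X (.inl i)
  | .inr a => MvPolynomial.X (.inr a) + MvPolynomial.C (D a) * MvPolynomial.X (.inl i₀)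

/-- ALG: functions which extend over both charts of the moving section do not depend on it. -/
def Stmt_ALG : Prop :=
  ∀ {k : Type} [Field k] [CharZero k] (T : TC k), IsDomain T.R12 →
    Function.Injective T.j1 → Function.Injective T.j2 →
    (∀ a b, T.j1 a = T.j2 b → ∃ c : k, a = algebraMap k T.R1 c) →
    (∀ (j : ℕ), 1 ≤ j → ∀ (a : T.R1) (b : T.R2), T.j1 a = T.e ^ j * T.j2 b → a = 0) →
    ∀ {ι : Type} (D : ι → T.R12), Cpl T D → ∀ {n : ℕ} (i₀ : Fin n)
      (f : MvPolynomial (Fin n ⊕ ι) T.R1) (g : MvPolynomial (Fin n ⊕ ι) T.R2),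
      MvPolynomial.map (T.j1 : T.R1 →+* T.R12) f =
        MvPolynomial.aeval (chgV T D i₀) (MvPolynomial.map (T.j2 : T.R2 →+* T.R12) g) →
      ∃ p : MvPolynomial {i : Fin n // i ≠ i₀} k,
        f = MvPolynomial.rename (fun i => Sum.inl i.1)
          (MvPolynomial.map (algebraMap k T.R1) p)

/-- LOC: an element of `R₁[1/∏ z_i]` which has no pole at each `p_j` is in `R₁`, with polynomial
coefficients: `f/∏_{i ∈ s} z_i^N` equal to `f_j / ∏_{i ∈ s, i ≠ j} z_i^N` for every `j ∈ s`. -/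
def Stmt_LOC : Prop :=
  ∀ {k : Type} [Field k] {n : ℕ} {C : Fam n k} (T : TC k) (ch : Cht C T) (ι : Type)
    (s : Finset (Fin n)) (N : ℕ) (f : MvPolynomial (Fin n ⊕ ι) T.R1)
    (_ : ∀ j ∈ s, ∃ (M : ℕ) (q : MvPolynomial (Fin n ⊕ ι) T.R1),
      (MvPolynomial.C ((∏ i ∈ s.erase j, (T.x - algebraMap k T.R1 (ch.pt i T.x))) ^ M)) * f =
        MvPolynomial.C ((T.x - algebraMap k T.R1 (ch.pt j T.x)) ^ N) * q),
    ∃ q : MvPolynomial (Fin n ⊕ ι) T.R1,
      f = MvPolynomial.C ((∏ i ∈ s, (T.x - algebraMap k T.R1 (ch.pt i T.x))) ^ N) * q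

end Pool.Agent.MG
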