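import Pool.Agent.MG.DefsA

/-!
# The topology of a thickening
-/

open CategoryTheory AlgebraicGeometry TensorProduct

namespace Pool.Agent.MG

section SqE

variable {B E J : Type} [CommRing B] [CommRing E] [Fintype J] (S : SqE B E J)

theorem SqE.p_surjective : Function.Surjective S.p := fun b => ⟨S.i b, S.pi b⟩

theorem SqE.mul_of_p_eq_zero {a b : E} (ha : S.p a = 0) (hb : S.p b = 0) : a * b = 0 := by
  obtain ⟨u, rfl⟩ := S.ex a ha
  obtain ⟨v, rfl⟩ := S.ex b hb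
  rw [Finset.sum_mul_sum]
  refine Finset.sum_eq_zero fun i _ => Finset.sum_eq_zero fun j _ => ?_
  calc S.ε i * S.i (u i) * (S.ε j * S.i (v j)) = (S.ε i * S.ε j) * (S.i (u i) * S.i (v j)) := by
        ring
    _ = 0 := by rw [S.mul, zero_mul]

theorem SqE.isNilpotent_of_p_eq_zero {a : E} (ha : S.p a = 0) : IsNilpotent a :=
  ⟨2, by rw [pow_two]; exact S.mul_of_p_eq_zero ha ha⟩

instance SqE.closed : IsClosedImmersion (spMap S.p) :=
  IsClosedImmersion.spec_of_surjective _ S.p_surjective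

instance SqE.surj : Surjective (spMap S.p) := by
  constructor
  change Function.Surjective (PrimeSpectrum.comap S.p)
  rw [← Set.range_eq_univ, range_comap_of_surjective _ _ S.p_surjective,
    PrimeSpectrum.zeroLocus_eq_univ_iff]
  intro a ha
  exact (mem_nilradical).2 (S.isNilpotent_of_p_eq_zero ha)

end SqE

section Thk

variable {n : ℕ} {B E J : Type} [CommRing B] [CommRing E] [Fintype J] {S : SqE B E J}
  {x : Fam n B} (t : Thk S x)

instance Thk.closed : IsClosedImmersion t.r.f :=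
  MorphismProperty.of_isPullback t.r.cart.flip inferInstance

instance Thk.surj : Surjective t.r.f :=
  MorphismProperty.of_isPullback t.r.cart.flip inferInstance

theorem Thk.injective : Function.Injective t.r.f :=
  t.r.f.isClosedEmbedding.injective

theorem Thk.pre (U : x.X.Opens) : t.r.f ⁻¹ᵁ (t.op U) = U := by
  apply le_antisymm
  · intro a ha
    obtain ⟨W, hW, haW⟩ : ∃ W ∈ {W : t.y.X.Opens | t.r.f ⁻¹ᵁ W ≤ U}, t.r.f a ∈ W := by
      have ha' : t.r.f a ∈ t.op U := ha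
      unfold Thk.op at ha'
      simpa using ha'
    exact hW haW
  · intro a ha
    obtain ⟨V, hV, hVU⟩ := t.r.f.isClosedEmbedding.isInducing.isOpen_iff.1 U.isOpen
    have h1 : t.r.f ⁻¹ᵁ ⟨V, hV⟩ ≤ U := by
      intro b hb
      have : b ∈ t.r.f ⁻¹' V := hb
      rw [hVU] at this
      exact this
    have h2 : t.r.f a ∈ V := by
      have : a ∈ t.r.f ⁻¹' V := by
        rw [hVU]
        exact ha
      exact this
    have h3 : (⟨V, hV⟩ : t.y.X.Opens) ≤ t.op U := le_sSup h1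
    exact h3 h2

theorem Thk.le_op_iff (W : t.y.X.Opens) (U : x.X.Opens) : W ≤ t.op U ↔ t.r.f ⁻¹ᵁ W ≤ U := by
  constructor
  · intro h a ha
    have : a ∈ t.r.f ⁻¹ᵁ (t.op U) := h ha
    rwa [t.pre U] at this
  · intro h
    exact le_sSup h

theorem Thk.op_pre (W : t.y.X.Opens) : t.op (t.r.f ⁻¹ᵁ W) = W := by
  apply le_antisymm
  · intro a ha
    obtain ⟨b, rfl⟩ := t.r.f.surjective a
    have : b ∈ t.r.f ⁻¹ᵁ (t.op (t.r.f ⁻¹ᵁ W)) := ha
    rw [t.pre] at this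
    exact this
  · rw [t.le_op_iff]

theorem Thk.pre_inj {W W' : t.y.X.Opens} (h : t.r.f ⁻¹ᵁ W = t.r.f ⁻¹ᵁ W') : W = W' := by
  rw [← t.op_pre W, h, t.op_pre]

theorem Thk.op_mono {U U' : x.X.Opens} (h : U ≤ U') : t.op U ≤ t.op U' := by
  rw [t.le_op_iff, t.pre]
  exact h

theorem Thk.op_top : t.op ⊤ = ⊤ := t.pre_inj (by rw [t.pre]; rfl)

theorem Thk.op_inf (U U' : x.X.Opens) : t.op (U ⊓ U') = t.op U ⊓ t.op U' := by
  apply t.pre_inj
  rw [t.pre]
  change _ = t.r.f ⁻¹ᵁ (t.op U) ⊓ t.r.f ⁻¹ᵁ (t.op U')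
  rw [t.pre, t.pre]

theorem Thk.op_sup (U U' : x.X.Opens) : t.op (U ⊔ U') = t.op U ⊔ t.op U' := by
  apply t.pre_inj
  rw [t.pre]
  change _ = t.r.f ⁻¹ᵁ (t.op U) ⊔ t.r.f ⁻¹ᵁ (t.op U')
  rw [t.pre, t.pre]

/-- Reduction of functions. -/
noncomputable def Thk.q (U : x.X.Opens) : Γ(t.y.X, t.op U) →+* Γ(x.X, U) :=
  (t.r.f.appLE (t.op U) U (t.pre U).ge).hom

theorem Thk.q_rs {U U' : x.X.Opens} (h : U ≤ U') (v : Γ(t.y.X, t.op U')) :
    t.q U (rs t.y.X (t.op_mono h) v) = rs x.X h (t.q U' v) := by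
  change (t.y.X.presheaf.map (homOfLE (t.op_mono h)).op ≫ t.r.f.appLE (t.op U) U
    (t.pre U).ge) v = (t.r.f.appLE (t.op U') U' (t.pre U').ge ≫
      x.X.presheaf.map (homOfLE h).op) v
  rw [Scheme.Hom.map_appLE, Scheme.Hom.appLE_map]

theorem coef_rs {A : Type} [CommRing A] {X : Scheme.{0}} (π : X ⟶ Sp A) {U V : X.Opens}
    (h : U ≤ V) (a : A) : rs X h (coef π V a) = coef π U a := by
  unfold coef
  change (((Scheme.ΓSpecIso (CommRingCat.of A)).inv ≫ π.appTop ≫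
    X.presheaf.map (homOfLE le_top).op) ≫ X.presheaf.map (homOfLE h).op) a =
      ((Scheme.ΓSpecIso (CommRingCat.of A)).inv ≫ π.appTop ≫
    X.presheaf.map (homOfLE le_top).op) a
  simp only [Category.assoc, ← Functor.map_comp, ← op_comp]
  rfl

theorem coef_eq {A : Type} [CommRing A] {X : Scheme.{0}} (π : X ⟶ Sp A) (U : X.Opens) :
    coef π U = ((Scheme.ΓSpecIso (CommRingCat.of A)).inv ≫
      π.appLE ⊤ U (show U ≤ π ⁻¹ᵁ ⊤ from le_top)).hom := rfl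

theorem coef_comp {A : Type} [CommRing A] {X X' : Scheme.{0}} (π : X ⟶ Sp A) (f : X' ⟶ X)
    (W : X.Opens) (U : X'.Opens) (hU : U ≤ f ⁻¹ᵁ W) (a : A) :
    (f.appLE W U hU).hom (coef π W a) = coef (f ≫ π) U a := by
  rw [coef_eq, coef_eq]
  have := Scheme.Hom.appLE_comp_appLE f π ⊤ W U (show W ≤ π ⁻¹ᵁ ⊤ from le_top) hU
  have h2 : ((Scheme.ΓSpecIso (CommRingCat.of A)).inv ≫
      π.appLE ⊤ W (show W ≤ π ⁻¹ᵁ ⊤ from le_top)) ≫ f.appLE W U hU =
      (Scheme.ΓSpecIso (CommRingCat.of A)).inv ≫ (f ≫ π).appLE ⊤ U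
        (show U ≤ (f ≫ π) ⁻¹ᵁ ⊤ from le_top) := by
    rw [Category.assoc, this]
  exact ConcreteCategory.congr_hom h2 a

theorem coef_spMap {A A' : Type} [CommRing A] [CommRing A'] (φ : A →+* A') {X' : Scheme.{0}}
    (π' : X' ⟶ Sp A') (U : X'.Opens) (a : A) :
    coef (π' ≫ spMap φ) U a = coef π' U (φ a) := by
  have h1 : (Scheme.ΓSpecIso (CommRingCat.of A)).inv ≫ (spMap φ).appTop =
      CommRingCat.ofHom φ ≫ (Scheme.ΓSpecIso (CommRingCat.of A')).inv :=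
    (Scheme.ΓSpecIso_inv_naturality (CommRingCat.ofHom φ)).symm
  rw [coef_eq, coef_eq]
  have h2 : (Scheme.ΓSpecIso (CommRingCat.of A)).inv ≫ (π' ≫ spMap φ).appLE ⊤ U
        (show U ≤ (π' ≫ spMap φ) ⁻¹ᵁ ⊤ from le_top) =
      CommRingCat.ofHom φ ≫ (Scheme.ΓSpecIso (CommRingCat.of A')).inv ≫ π'.appLE ⊤ U
        (show U ≤ π' ⁻¹ᵁ ⊤ from le_top) := by
    have h3 := Scheme.Hom.appLE_comp_appLE π' (spMap φ) ⊤ ⊤ U
      (show ⊤ ≤ (spMap φ) ⁻¹ᵁ ⊤ from le_top) (show U ≤ π' ⁻¹ᵁ ⊤ from le_top)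
    rw [← h3, ← reassoc_of% h1]
    rfl
  exact ConcreteCategory.congr_hom h2 a

/-- The structure map and an arrow. -/
theorem coef_arrow {A A' : Type} [CommRing A] [CommRing A'] {φ : A →+* A'} {X X' : Scheme.{0}}
    {π : X ⟶ Sp A} {π' : X' ⟶ Sp A'} {f : X' ⟶ X} (h : f ≫ π = π' ≫ spMap φ) (W : X.Opens)
    (U : X'.Opens) (hU : U ≤ f ⁻¹ᵁ W) (a : A) :
    (f.appLE W U hU).hom (coef π W a) = coef π' U (φ a) := by
  rw [coef_comp, h, coef_spMap]

theorem Thk.q_coef (U : x.X.Opens) (a : E) :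
    t.q U (coef t.y.π (t.op U) a) = coef x.π U (S.p a) :=
  coef_arrow t.r.cart.w _ _ _ a

end Thk

end Pool.Agent.MG
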