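import Pool.Agent.MG.TwoQF

open AlgebraicGeometry CategoryTheory TopologicalSpace Opposite IsLocalRing

universe u

namespace Pool.Agent.MG.Two

open Polynomial

variable {X : Scheme.{u}} [IsIntegral X] {k : Type u} [Field k] (π : X ⟶ Spec (.of k))

lemma valuationRing_stalk (hpir : ∀ x : X, IsPrincipalIdealRing (X.presheaf.stalk x)) (x : X) :
    ValuationRing (X.presheaf.stalk x) := by
  have := hpir x
  exact ValuationRing.iff_local_bezout_domain.mpr ⟨inferInstance, inferInstance⟩

/-- The map from the ground field to the function field. -/
noncomputable def kfun : k →+* X.functionField :=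
  (X.presheaf.germ ⊤ (genericPoint X) trivial).hom.comp (kmap π ⊤)

lemma germ_kmap (U : X.Opens) [Nonempty U] (a : k) :
    X.germToFunctionField U (kmap π U a) = kfun π a := by
  rw [← kmap_res π (le_top : U ≤ ⊤) a]
  exact X.presheaf.germ_res_apply (homOfLE le_top) (genericPoint X) _ _

/-- `f` is transcendental over the ground field. -/
def Transc (f : X.functionField) : Prop :=
  Function.Injective (Polynomial.eval₂RingHom (kfun π) f)

lemma germ_polyMap (f : X.functionField) (p : k[X]) :
    X.germToFunctionField (dom f) (polyMap π f p) = Polynomial.eval₂RingHom (kfun π) f p := by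
  have h : ((X.germToFunctionField (dom f)).hom.comp (polyMap π f)) =
      Polynomial.eval₂RingHom (kfun π) f := by
    apply Polynomial.ringHom_ext
    · intro a
      simp only [RingHom.comp_apply, polyMap, Polynomial.coe_eval₂RingHom, Polynomial.eval₂_C]
      exact germ_kmap π (dom f) a
    · simp only [RingHom.comp_apply, polyMap, Polynomial.coe_eval₂RingHom, Polynomial.eval₂_X]
      exact germ_sec f
  exact congrArg (fun g => g p) h

lemma polyMap_injective {f : X.functionField} (hf : Transc π f) :
    Function.Injective (polyMap π f) := by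
  intro a b hab
  apply hf
  rw [← germ_polyMap, ← germ_polyMap, hab]

lemma Transc.ne_zero {f : X.functionField} (hf : Transc π f) : f ≠ 0 := by
  rintro rfl
  have : (Polynomial.X : k[X]) = 0 := hf (by
    simp only [Polynomial.coe_eval₂RingHom, Polynomial.eval₂_X, Polynomial.eval₂_zero])
  exact Polynomial.X_ne_zero this

theorem isFinite_phi [IsProper π]
    (hpir : ∀ x : X, IsPrincipalIdealRing (X.presheaf.stalk x)) {f : X.functionField}
    (hf : Transc π f) : IsFinite (phi π f) := by
  have hln : IsLocallyNoetherian X := LocallyOfFiniteType.isLocallyNoetherian π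
  have hcomp := phi_comp π f
  have h1 : LocallyOfFiniteType (phi π f ≫ Spec.map (CommRingCat.ofHom (C : k →+* k[X]))) := by
    rw [hcomp]; infer_instance
  have h2 : QuasiCompact (phi π f ≫ Spec.map (CommRingCat.ofHom (C : k →+* k[X]))) := by
    rw [hcomp]; infer_instance
  have h3 : IsSeparated (phi π f ≫ Spec.map (CommRingCat.ofHom (C : k →+* k[X]))) := by
    rw [hcomp]; infer_instance
  have h4 : LocallyOfFiniteType (phi π f) := locallyOfFiniteType_of_comp _
    (Spec.map (CommRingCat.ofHom (C : k →+* k[X])))
  have h5 : QuasiCompact (phi π f) := QuasiCompact.of_comp _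
    (Spec.map (CommRingCat.ofHom (C : k →+* k[X])))
  have h6 : IsSeparated (phi π f) := IsSeparated.of_comp _
    (Spec.map (CommRingCat.ofHom (C : k →+* k[X])))
  have h7 : UniversallyClosed (phi π f) := UniversallyClosed.of_valuativeCriterion _
    (phi_existence π (valuationRing_stalk hpir) f (hf.ne_zero π))
  have h8 : IsProper (phi π f) := { }
  have h9 : LocallyQuasiFinite (phi π f) := by
    refine locallyQuasiFinite_of_injective ((dom f).ι ≫ π) ?_ (phi π f) hcomp ?_
    · intro x
      have := hpir x.1
      exact IsPrincipalIdealRing.of_surjective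
        ((dom f).stalkIso x).commRingCatIsoToRingEquiv.symm.toRingHom
        ((dom f).stalkIso x).commRingCatIsoToRingEquiv.symm.surjective
    · rw [phi_appTop]
      intro a b hab
      have e1 := (ConcreteCategory.bijective_of_isIso (dom f).topIso.inv).1 hab
      have e2 := polyMap_injective π hf e1
      exact (ConcreteCategory.bijective_of_isIso (Scheme.ΓSpecIso (.of k[X])).hom).1 e2
  exact IsFinite.of_isProper_of_locallyQuasiFinite _

theorem isAffineOpen_dom [IsProper π]
    (hpir : ∀ x : X, IsPrincipalIdealRing (X.presheaf.stalk x)) {f : X.functionField}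
    (hf : Transc π f) : IsAffineOpen (dom f) := by
  have := isFinite_phi π hpir hf
  exact isAffine_of_isAffineHom (phi π f)

end Pool.Agent.MG.Two
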