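import Mathlib

open AlgebraicGeometry CategoryTheory TopologicalSpace Opposite

universe u

namespace Pool.Agent.MG.Two

variable (X : Scheme.{u}) [IsIntegral X]

/-- The points at which a rational function is regular. -/
def domSet (f : X.functionField) : Set X :=
  {x | f ∈ (algebraMap (X.presheaf.stalk x) X.functionField).range}

variable {X}

lemma mem_domSet_iff (f : X.functionField) (x : X) :
    x ∈ domSet X f ↔ ∃ (U : X.Opens) (_ : x ∈ U) (_ : Nonempty U) (s : Γ(X, U)),
      X.germToFunctionField U s = f := by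
  constructor
  · rintro ⟨g, hg⟩
    obtain ⟨U, hU, s, hs⟩ := X.presheaf.exists_germ_eq g
    have : Nonempty U := ⟨⟨x, hU⟩⟩
    refine ⟨U, hU, inferInstance, s, ?_⟩
    rw [← Scheme.algebraMap_germ_eq_germToFunctionField (X := X) hU s, hs, hg]
  · rintro ⟨U, hU, hne, s, hs⟩
    have := hne
    refine ⟨X.presheaf.germ U x hU s, ?_⟩
    rw [Scheme.algebraMap_germ_eq_germToFunctionField (X := X) hU s, hs]

lemma isOpen_domSet (f : X.functionField) : IsOpen (domSet X f) := by
  rw [isOpen_iff_forall_mem_open]
  intro x hx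
  obtain ⟨U, hU, hne, s, hs⟩ := (mem_domSet_iff f x).mp hx
  refine ⟨U, ?_, U.isOpen, hU⟩
  intro y hy
  exact (mem_domSet_iff f y).mpr ⟨U, hy, hne, s, hs⟩

/-- The domain of a rational function. -/
def dom (f : X.functionField) : X.Opens := ⟨domSet X f, isOpen_domSet f⟩

lemma mem_dom_iff (f : X.functionField) (x : X) :
    x ∈ dom f ↔ f ∈ (algebraMap (X.presheaf.stalk x) X.functionField).range := Iff.rfl

lemma mem_dom_iff' (f : X.functionField) (x : X) :
    x ∈ dom f ↔ ∃ (U : X.Opens) (_ : x ∈ U) (_ : Nonempty U) (s : Γ(X, U)),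
      X.germToFunctionField U s = f := mem_domSet_iff f x

lemma genericPoint_mem_dom (f : X.functionField) : genericPoint X ∈ dom f := by
  obtain ⟨U, hU, s, hs⟩ := X.presheaf.exists_germ_eq (x := genericPoint X) f
  have : Nonempty U := ⟨⟨_, hU⟩⟩
  exact (mem_dom_iff' f _).mpr ⟨U, hU, inferInstance, s, hs⟩

instance (f : X.functionField) : Nonempty (dom f) := ⟨⟨_, genericPoint_mem_dom f⟩⟩

lemma nonempty_inf {U V : X.Opens} (hU : Nonempty U) (hV : Nonempty V) :
    Nonempty (U ⊓ V : X.Opens) := by
  have hU' := ((genericPoint_spec X).mem_open_set_iff U.isOpen).mpr (by simpa using hU)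
  have hV' := ((genericPoint_spec X).mem_open_set_iff V.isOpen).mpr (by simpa using hV)
  exact ⟨⟨_, ⟨hU', hV'⟩⟩⟩

lemma germToFunctionField_res {U V : X.Opens} (h : U ≤ V) [Nonempty U] [Nonempty V]
    (s : Γ(X, V)) : X.germToFunctionField U (X.presheaf.map (homOfLE h).op s) =
      X.germToFunctionField V s :=
  X.presheaf.germ_res_apply (homOfLE h) (genericPoint X) _ s

lemma exists_section (f : X.functionField) :
    ∃ s : Γ(X, dom f), X.germToFunctionField (dom f) s = f := by
  have h := fun x : dom f => (mem_dom_iff' f x.1).mp x.2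
  choose U hxU hne s hs using h
  have hgl := X.sheaf.existsUnique_gluing' U (dom f)
    (fun x => homOfLE (fun y hy => (mem_dom_iff' f y).mpr ⟨U x, hy, hne x, s x, hs x⟩))
    (fun y hy => by
      simp only [Opens.mem_iSup]
      exact ⟨⟨y, hy⟩, hxU ⟨y, hy⟩⟩) s
    (fun x y => by
      have := hne x
      have := hne y
      have := nonempty_inf (hne x) (hne y)
      apply X.germToFunctionField_injective (U x ⊓ U y)
      change X.germToFunctionField (U x ⊓ U y)
          (X.presheaf.map (homOfLE (inf_le_left : U x ⊓ U y ≤ U x)).op (s x)) =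
        X.germToFunctionField (U x ⊓ U y)
          (X.presheaf.map (homOfLE (inf_le_right : U x ⊓ U y ≤ U y)).op (s y))
      rw [germToFunctionField_res, germToFunctionField_res, hs, hs])
  obtain ⟨t, ht, -⟩ := hgl
  refine ⟨t, ?_⟩
  set x : dom f := ⟨_, genericPoint_mem_dom f⟩
  have := hne x
  have h1 := ht x
  refine Eq.trans ?_ (hs x)
  refine Eq.trans ?_ (congrArg (X.germToFunctionField (U x)) h1)
  exact (germToFunctionField_res (U := U x) (V := dom f) _ t).symm

/-- The rational function as a section over its domain. -/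
noncomputable def sec (f : X.functionField) : Γ(X, dom f) := (exists_section f).choose

@[simp] lemma germ_sec (f : X.functionField) : X.germToFunctionField (dom f) (sec f) = f :=
  (exists_section f).choose_spec

end Pool.Agent.MG.Two
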