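import Pool.Agent.MG.TwoDom

open AlgebraicGeometry CategoryTheory TopologicalSpace Opposite

universe u

namespace Pool.Agent.MG.Two

variable {X : Scheme.{u}} [IsIntegral X]

/-- Valuation ring stalks: a rational function or its inverse is regular. -/
lemma mem_dom_or_mem_dom_inv (hv : ∀ x : X, ValuationRing (X.presheaf.stalk x))
    (f : X.functionField) (x : X) : x ∈ dom f ∨ x ∈ dom f⁻¹ := by
  have := hv x
  have h := (ValuationRing.iff_isInteger_or_isInteger (X.presheaf.stalk x)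
    X.functionField).mp (hv x) f
  rcases h with h | h
  · exact Or.inl ((mem_dom_iff f x).mpr h)
  · exact Or.inr ((mem_dom_iff f⁻¹ x).mpr h)

/-- A morphism landing in the domain pulls back the rational function. -/
noncomputable def pb {T : Scheme.{u}} (m : T ⟶ X) (f : X.functionField) (U : T.Opens)
    (h : U ≤ m ⁻¹ᵁ (dom f)) : Γ(T, U) := m.appLE (dom f) U h (sec f)

lemma sec_mul_inv (f : X.functionField) (hf : f ≠ 0) (U : X.Opens) (h1 : U ≤ dom f)
    (h2 : U ≤ dom f⁻¹) [Nonempty U] :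
    X.presheaf.map (homOfLE h1).op (sec f) * X.presheaf.map (homOfLE h2).op (sec f⁻¹) = 1 := by
  apply X.germToFunctionField_injective U
  rw [map_mul, germToFunctionField_res, germToFunctionField_res, germ_sec, germ_sec, map_one]
  exact mul_inv_cancel₀ hf

lemma pb_mul_inv {T : Scheme.{u}} (m : T ⟶ X) (f : X.functionField) (hf : f ≠ 0) (U : T.Opens)
    (h1 : U ≤ m ⁻¹ᵁ (dom f)) (h2 : U ≤ m ⁻¹ᵁ (dom f⁻¹)) :
    pb m f U h1 * pb m f⁻¹ U h2 = 1 := by
  have hne : Nonempty (dom f ⊓ dom f⁻¹ : X.Opens) := nonempty_inf inferInstance inferInstance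
  have h12 : U ≤ m ⁻¹ᵁ (dom f ⊓ dom f⁻¹) := le_inf h1 h2
  have e1 : pb m f U h1 = m.appLE (dom f ⊓ dom f⁻¹) U h12
      (X.presheaf.map (homOfLE (inf_le_left : dom f ⊓ dom f⁻¹ ≤ dom f)).op (sec f)) := by
    rw [pb, ← ConcreteCategory.comp_apply, Scheme.Hom.map_appLE]
  have e2 : pb m f⁻¹ U h2 = m.appLE (dom f ⊓ dom f⁻¹) U h12
      (X.presheaf.map (homOfLE (inf_le_right : dom f ⊓ dom f⁻¹ ≤ dom f⁻¹)).op (sec f⁻¹)) := by
    rw [pb, ← ConcreteCategory.comp_apply, Scheme.Hom.map_appLE]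
  rw [e1, e2, ← map_mul, sec_mul_inv f hf, map_one]

lemma mem_dom_of_isUnit (f : X.functionField) (x : X) (hx : x ∈ dom f⁻¹)
    (hu : IsUnit (X.presheaf.germ (dom f⁻¹) x hx (sec f⁻¹))) : x ∈ dom f := by
  obtain ⟨g, hg⟩ := hu
  refine (mem_dom_iff f x).mpr ⟨(↑(g⁻¹) : X.presheaf.stalk x), ?_⟩
  have h1 : algebraMap (X.presheaf.stalk x) X.functionField (g : X.presheaf.stalk x) = f⁻¹ := by
    rw [hg, Scheme.algebraMap_germ_eq_germToFunctionField (X := X) hx, germ_sec]
  have h2 : algebraMap (X.presheaf.stalk x) X.functionField (↑(g⁻¹) : X.presheaf.stalk x) *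
      f⁻¹ = 1 := by
    rw [← h1, ← map_mul, Units.inv_mul, map_one]
  have hf : f ≠ 0 := fun h => by
    rw [h, inv_zero, mul_zero] at h2
    exact zero_ne_one h2
  exact (mul_inv_eq_one₀ hf).mp h2

end Pool.Agent.MG.Two
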