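import Pool.Agent.MG.TwoMor

open AlgebraicGeometry CategoryTheory TopologicalSpace Opposite

universe u

namespace Pool.Agent.MG.Two

section kmap

variable {X : Scheme.{u}} {k : Type u} [Field k] (π : X ⟶ Spec (.of k))

lemma le_pre_top {X Y : Scheme.{u}} (f : X ⟶ Y) (U : X.Opens) : U ≤ f ⁻¹ᵁ ⊤ := fun _ _ => trivial

/-- The structure map of the sections. -/
noncomputable def kmap (U : X.Opens) : k →+* Γ(X, U) :=
  ((Scheme.ΓSpecIso (.of k)).inv ≫ π.appLE ⊤ U (le_pre_top π U)).hom

lemma kmap_res {U V : X.Opens} (h : U ≤ V) (a : k) :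
    X.presheaf.map (homOfLE h).op (kmap π V a) = kmap π U a := by
  simp only [kmap, CommRingCat.hom_comp, RingHom.comp_apply]
  rw [← ConcreteCategory.comp_apply, Scheme.Hom.appLE_map]

end kmap

variable {X : Scheme.{u}} [IsIntegral X] {k : Type u} [Field k] (π : X ⟶ Spec (.of k))

/-- The polynomial ring mapping to the sections over the domain of `f`. -/
noncomputable def polyMap (f : X.functionField) : Polynomial k →+* Γ(X, dom f) :=
  Polynomial.eval₂RingHom (kmap π (dom f)) (sec f)

/-- The morphism from the domain of `f` to the affine line. -/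
noncomputable def phi (f : X.functionField) :
    (dom f).toScheme ⟶ Spec (.of (Polynomial k)) :=
  (dom f).toSpecΓ ≫ Spec.map (CommRingCat.ofHom (polyMap π f))

lemma phi_comp (f : X.functionField) :
    phi π f ≫ Spec.map (CommRingCat.ofHom (Polynomial.C : k →+* Polynomial k)) =
      (dom f).ι ≫ π := by
  have h1 : CommRingCat.ofHom (Polynomial.C : k →+* Polynomial k) ≫
      CommRingCat.ofHom (polyMap π f) =
      (Scheme.ΓSpecIso (.of k)).inv ≫ π.appTop ≫ X.presheaf.map (homOfLE le_top).op := by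
    ext a
    simp only [polyMap, CommRingCat.hom_comp, CommRingCat.hom_ofHom, RingHom.comp_apply,
      Polynomial.coe_eval₂RingHom, Polynomial.eval₂_C, kmap, Scheme.Hom.appLE]
    rfl
  rw [phi, Category.assoc, ← Spec.map_comp, h1, Spec.map_comp, Spec.map_comp,
    Category.assoc, Scheme.Opens.toSpecΓ_SpecMap_presheaf_map_top_assoc,
    ← Scheme.toSpecΓ_naturality_assoc, ← SpecMap_ΓSpecIso_hom, ← Spec.map_comp]
  simp

lemma phi_appTop (f : X.functionField) :
    (phi π f).appTop = (Scheme.ΓSpecIso (.of (Polynomial k))).hom ≫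
      CommRingCat.ofHom (polyMap π f) ≫ (dom f).topIso.inv := by
  rw [phi, Scheme.Hom.comp_appTop, Scheme.Opens.toSpecΓ_appTop, Scheme.ΓSpecIso_naturality_assoc]

lemma comp_phi_X {T : Scheme.{u}} (f : X.functionField) (m : T ⟶ (dom f).toScheme) :
    (m ≫ phi π f).appTop ((Scheme.ΓSpecIso (.of (Polynomial k))).inv Polynomial.X) =
      pb (m ≫ (dom f).ι) f ⊤ (by
        rw [Scheme.Hom.comp_preimage, Scheme.Opens.ι_preimage_self]; exact le_pre_top m ⊤) := by
  rw [Scheme.Hom.comp_appTop, phi_appTop, pb]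
  have e1 : (⊤ : (dom f).toScheme.Opens) ≤ (dom f).ι ⁻¹ᵁ (dom f) := by
    rw [Scheme.Opens.ι_preimage_self]
  have h2 := Scheme.Hom.appLE_comp_appLE (U := dom f) (V := ⊤) (W := ⊤) (f := m)
    (g := (dom f).ι) (e₁ := e1) (e₂ := le_pre_top m ⊤)
  have h3 : m.appLE ⊤ ⊤ (le_pre_top m ⊤) = m.appTop := Scheme.Hom.appLE_eq_app m
  have h4 : (dom f).ι.appLE (dom f) ⊤ e1 = (dom f).topIso.inv := by
    rw [Scheme.Opens.ι_appLE, Scheme.Opens.topIso_inv]; rfl
  rw [← h2, h3, h4]
  have h5 : (Scheme.ΓSpecIso (.of (Polynomial k))).hom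
      ((Scheme.ΓSpecIso (.of (Polynomial k))).inv Polynomial.X) = Polynomial.X := by
    simp
  have h6 : polyMap π f Polynomial.X = sec f := by
    simp [polyMap]
  change m.appTop ((dom f).topIso.inv (polyMap π f ((Scheme.ΓSpecIso (.of (Polynomial k))).hom
      ((Scheme.ΓSpecIso (.of (Polynomial k))).inv Polynomial.X)))) = 
    m.appTop ((dom f).topIso.inv (sec f))
  rw [h5, h6]

end Pool.Agent.MG.Two
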