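import Pool.Agent.MG.TwoProper
import Pool.Agent.MG.TwoAlg

open AlgebraicGeometry CategoryTheory TopologicalSpace Opposite IsLocalRing

universe u

namespace Pool.Agent.MG.Two

open Polynomial

lemma pir_localization {Y : Scheme.{u}}
    (hpir : ∀ x : Y, IsPrincipalIdealRing (Y.presheaf.stalk x)) {V : Y.Opens}
    (hV : IsAffineOpen V) (P : Ideal Γ(Y, V)) [hP : P.IsPrime] :
    IsPrincipalIdealRing (Localization.AtPrime P) := by
  have hx : hV.fromSpec ⟨P, hP⟩ ∈ V := (hV.isoSpec.inv _).2
  let := TopCat.Presheaf.algebra_section_stalk Y.presheaf ⟨hV.fromSpec ⟨P, hP⟩, hx⟩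
  have hloc : IsLocalization.AtPrime (Y.presheaf.stalk (hV.fromSpec ⟨P, hP⟩)) P :=
    hV.isLocalization_stalk' ⟨P, hP⟩ hx
  let e := IsLocalization.algEquiv P.primeCompl (Y.presheaf.stalk (hV.fromSpec ⟨P, hP⟩))
    (Localization.AtPrime P)
  have := hpir (hV.fromSpec ⟨P, hP⟩)
  exact IsPrincipalIdealRing.of_surjective e.toRingEquiv.toRingHom e.surjective

lemma dimensionLEOne_of_isAffineOpen {Y : Scheme.{u}} [IsIntegral Y]
    (hpir : ∀ x : Y, IsPrincipalIdealRing (Y.presheaf.stalk x)) {V : Y.Opens}
    (hV : IsAffineOpen V) [Nonempty V] : Ring.DimensionLEOne Γ(Y, V) :=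
  dimensionLEOne_of_localization _ fun P _ => pir_localization hpir hV P

variable {Y : Scheme.{u}} [IsIntegral Y] {k : Type u} [Field k]

theorem locallyQuasiFinite_of_injective (p : Y ⟶ Spec (.of k)) [LocallyOfFiniteType p]
    (hpir : ∀ x : Y, IsPrincipalIdealRing (Y.presheaf.stalk x))
    (g : Y ⟶ Spec (.of k[X])) (hg : g ≫ Spec.map (CommRingCat.ofHom (C : k →+* k[X])) = p)
    (hinj : Function.Injective g.appTop) : LocallyQuasiFinite g := by
  rw [HasRingHomProperty.iff_of_iSup_eq_top (P := @LocallyQuasiFinite)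
    (fun V : Y.affineOpens => V) (iSup_affineOpens_eq_top Y)]
  intro V
  by_cases hne : Nonempty V.1
  swap
  · have hbot : V.1 = ⊥ := by
      ext x
      simp only [Opens.coe_bot, Set.mem_empty_iff_false, iff_false]
      intro hx
      exact hne ⟨⟨x, hx⟩⟩
    have hs : Subsingleton Γ(Y, V.1) := by
      rw [hbot]; infer_instance
    apply RingHom.QuasiFinite.of_finite
    exact RingHom.Finite.of_surjective _ (fun y => ⟨0, Subsingleton.elim _ _⟩)
  · have hV := V.2
    have hd : Ring.DimensionLEOne Γ(Y, V.1) := dimensionLEOne_of_isAffineOpen hpir hV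
    have hψinj : Function.Injective (g.appLE ⊤ V.1 (le_pre_top g V.1)) := by
      have h1 : g.appLE ⊤ V.1 (le_pre_top g V.1) =
          g.appTop ≫ Y.presheaf.map (homOfLE le_top).op := rfl
      rw [h1]
      intro a b hab
      apply hinj
      apply map_injective_of_isIntegral Y (homOfLE le_top : V.1 ⟶ ⊤)
      exact hab
    let ψ : k[X] →+* Γ(Y, V.1) :=
      (g.appLE ⊤ V.1 (le_pre_top g V.1)).hom.comp (Scheme.ΓSpecIso (.of k[X])).inv.hom
    have hψ : ψ.QuasiFinite := by
      have hft := p.finiteType_appLE (isAffineOpen_top _) hV (le_pre_top p V.1)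
      have hft2 : (ψ.comp C).FiniteType := by
        have h2 : ψ.comp C = (p.appLE ⊤ V.1 (le_pre_top p V.1)).hom.comp
            (Scheme.ΓSpecIso (.of k)).inv.hom := by
          have h3 : CommRingCat.ofHom (C : k →+* k[X]) ≫ (Scheme.ΓSpecIso (.of k[X])).inv ≫
              g.appLE ⊤ V.1 (le_pre_top g V.1) =
              (Scheme.ΓSpecIso (.of k)).inv ≫ p.appLE ⊤ V.1 (le_pre_top p V.1) := by
            subst hg
            rw [← Category.assoc, Scheme.ΓSpecIso_inv_naturality, Category.assoc,
              ← Scheme.Hom.appLE_comp_appLE (U := ⊤) (V := ⊤) (W := V.1) (f := g)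
                (g := Spec.map (CommRingCat.ofHom (C : k →+* k[X])))
                (e₁ := le_pre_top _ _) (e₂ := le_pre_top g V.1)]
            rfl
          exact congrArg CommRingCat.Hom.hom h3
        rw [h2]
        exact hft.comp (RingHom.FiniteType.of_surjective _
          (ConcreteCategory.bijective_of_isIso (Scheme.ΓSpecIso (.of k)).inv).2)
      algebraize [ψ, ψ.comp C]
      have hinj' : Function.Injective (algebraMap k[X] Γ(Y, V.1)) := by
        intro a b hab
        exact (ConcreteCategory.bijective_of_isIso (Scheme.ΓSpecIso (.of k[X])).inv).1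
          (hψinj hab)
      exact quasiFinite_of_dimensionLEOne (k := k) hinj'
    exact RingHom.QuasiFinite.of_comp hψ

end Pool.Agent.MG.Two
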