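import Pool.Agent.MG.TwoH0

open AlgebraicGeometry CategoryTheory TopologicalSpace Opposite IsLocalRing

universe u

namespace Pool.Agent.MG.Two

open Polynomial

variable {X : Scheme.{u}} {k : Type u} [Field k] (π : X ⟶ Spec (.of k))

/-- Evaluation of functions at a rational point. -/
noncomputable def evs (σ : Spec (.of k) ⟶ X) (U : X.Opens) (h : ⊤ ≤ σ ⁻¹ᵁ U) : Γ(X, U) →+* k :=
  (Scheme.ΓSpecIso (.of k)).hom.hom.comp (σ.appLE U ⊤ h).hom

lemma evs_kmap (σ : Spec (.of k) ⟶ X) (hσ : σ ≫ π = 𝟙 _) (U : X.Opens) (h : ⊤ ≤ σ ⁻¹ᵁ U)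
    (a : k) : evs σ U h (kmap π U a) = a := by
  have h1 : π.appLE ⊤ U (le_pre_top π U) ≫ σ.appLE U ⊤ h = 𝟙 _ := by
    rw [Scheme.Hom.appLE_comp_appLE]
    have h2 : (𝟙 (Spec (.of k)) : Spec (.of k) ⟶ Spec (.of k)).appLE ⊤ ⊤ le_top = 𝟙 _ :=
      Scheme.Hom.appLE_eq_app _
    simp only [hσ]
    exact h2
  have h3 : (Scheme.ΓSpecIso (.of k)).inv ≫ π.appLE ⊤ U (le_pre_top π U) ≫ σ.appLE U ⊤ h ≫
      (Scheme.ΓSpecIso (.of k)).hom = 𝟙 _ := by
    rw [reassoc_of% h1, Iso.inv_hom_id]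
  exact ConcreteCategory.congr_hom h3 a

lemma evs_eq_zero_iff (σ : Spec (.of k) ⟶ X) (U : X.Opens) (h : ⊤ ≤ σ ⁻¹ᵁ U) (r : Γ(X, U))
    (q : Spec (.of k)) : evs σ U h r = 0 ↔ σ q ∉ X.basicOpen r := by
  have h1 := Scheme.basicOpen_appLE σ ⊤ U h r
  have h2 := basicOpen_eq_of_affine' (σ.appLE U ⊤ h r)
  rw [h1] at h2
  have h3 : σ q ∈ X.basicOpen r ↔ q ∈ (⊤ ⊓ σ ⁻¹ᵁ X.basicOpen r : (Spec (.of k)).Opens) :=
    ⟨fun h => ⟨trivial, h⟩, fun h => h.2⟩
  have h4 : ∀ (q : PrimeSpectrum k) (a : k), a ∈ q.asIdeal ↔ a = 0 := by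
    intro q a
    constructor
    · intro ha
      by_contra hne
      exact q.isPrime.ne_top (q.asIdeal.eq_top_of_isUnit_mem ha (isUnit_iff_ne_zero.mpr hne))
    · rintro rfl
      exact zero_mem _
  rw [h3, h2]
  have h5 : ∀ a : k, a = 0 ↔ ¬ (a ∉ (show PrimeSpectrum k from q).asIdeal) := fun a =>
    (h4 q a).symm.trans not_not.symm
  exact h5 _

lemma top_le_of_mem (σ : Spec (.of k) ⟶ X) (U : X.Opens) (q : Spec (.of k)) (hq : σ q ∈ U) :
    ⊤ ≤ σ ⁻¹ᵁ U := by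
  intro q' _
  have : q' = q := Subsingleton.elim _ _
  rw [this]
  exact hq

lemma section_ext (σ τ : Spec (.of k) ⟶ X) (hσ : σ ≫ π = 𝟙 _) (hτ : τ ≫ π = 𝟙 _)
    (q : Spec (.of k)) (h : σ q = τ q) : σ = τ := by
  obtain ⟨_, ⟨V, hV, rfl⟩, hxV, -⟩ :=
    X.isBasis_affineOpens.exists_subset_of_mem_open (Set.mem_univ (σ q)) isOpen_univ
  have h1 : ⊤ ≤ σ ⁻¹ᵁ V := top_le_of_mem σ V q hxV
  have h2 : ⊤ ≤ τ ⁻¹ᵁ V := top_le_of_mem τ V q (h ▸ hxV)
  have h3 : ∀ r : Γ(X, V), evs σ V h1 r = evs τ V h2 r := by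
    intro r
    have h4 : evs σ V h1 (r - kmap π V (evs σ V h1 r)) = 0 := by
      rw [map_sub, evs_kmap π σ hσ, sub_self]
    rw [evs_eq_zero_iff σ V h1 _ q, h, ← evs_eq_zero_iff τ V h2 _ q, map_sub,
      evs_kmap π τ hτ, sub_eq_zero] at h4
    exact h4.symm
  have h5 : σ.appLE V ⊤ h1 = τ.appLE V ⊤ h2 := by
    ext r
    exact (ConcreteCategory.bijective_of_isIso (Scheme.ΓSpecIso (.of k)).hom).1 (h3 r)
  have h6 := hV.SpecMap_appLE_fromSpec σ (isAffineOpen_top _) h1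
  have h7 := hV.SpecMap_appLE_fromSpec τ (isAffineOpen_top _) h2
  rw [h5, h7] at h6
  rw [← cancel_epi (isAffineOpen_top (Spec (.of k))).fromSpec]
  exact h6.symm

lemma mem_basicOpen_genericPoint [IsIntegral X] (U : X.Opens) [hU : Nonempty U] (r : Γ(X, U))
    (hr : r ≠ 0) : genericPoint X ∈ X.basicOpen r := by
  have hg : genericPoint X ∈ U := ((genericPoint_spec X).mem_open_set_iff U.isOpen).mpr
      (by simpa using hU)
  rw [Scheme.mem_basicOpen X r _ hg]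
  have h1 : X.germToFunctionField U r ≠ 0 := by
    intro h
    apply hr
    apply X.germToFunctionField_injective U
    rw [h, map_zero]
  exact isUnit_iff_ne_zero.mpr h1

lemma section_ne_genericPoint [IsIntegral X] {f : X.functionField} (hf : Transc π f)
    (σ : Spec (.of k) ⟶ X) (hσ : σ ≫ π = 𝟙 _) (q : Spec (.of k)) : σ q ≠ genericPoint X := by
  intro h
  have h1 : ⊤ ≤ σ ⁻¹ᵁ dom f := top_le_of_mem σ _ q (h ▸ genericPoint_mem_dom f)
  set c := evs σ _ h1 (sec f) with hc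
  have h2 : evs σ _ h1 (sec f - kmap π _ c) = 0 := by
    rw [map_sub, evs_kmap π σ hσ, sub_self]
  rw [evs_eq_zero_iff σ _ h1 _ q, h] at h2
  have h3 : sec f - kmap π _ c = 0 := by
    by_contra hne
    exact h2 (mem_basicOpen_genericPoint _ _ hne)
  have h4 : (Polynomial.X - Polynomial.C c : k[X]) = 0 := by
    apply hf
    rw [map_zero]
    have h5 := congrArg (X.germToFunctionField (dom f)) h3
    rw [map_sub, map_zero, germ_sec, germ_kmap] at h5
    simpa using h5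
  exact Polynomial.X_sub_C_ne_zero c h4

lemma etale_injective {R : Type u} [CommRing R] [Nontrivial R] (ψ : k[X] →+* R) (h : ψ.Etale) :
    Function.Injective ψ := by
  let _ : Algebra k[X] R := ψ.toAlgebra
  have h2 : Algebra.Etale k[X] R := h
  have h3 : Module.Flat k[X] R := inferInstance
  have h4 : Module.IsTorsionFree k[X] R := inferInstance
  rw [injective_iff_map_eq_zero]
  intro p hp
  have h5 : p • (1 : R) = 0 := by
    rw [Algebra.smul_def, mul_one]; exact hp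
  exact (smul_eq_zero.mp h5).resolve_right one_ne_zero

end Pool.Agent.MG.Two
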