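import Mathlib

universe u

namespace Pool.Agent.MG.Two

open Polynomial KaehlerDifferential TensorProduct

section
variable {k A : Type u} [Field k] [CommRing A] [Algebra k A]

lemma etale_of_basis [Algebra.FinitePresentation k A] [Subsingleton (Algebra.H1Cotangent k A)]
    (t : A) (b : Module.Basis Unit A (Ω[A⁄k])) (hb : b () = D k A t) :
    (aeval t : k[X] →ₐ[k] A).toRingHom.Etale := by
  let _ : Algebra k[X] A := (aeval t : k[X] →ₐ[k] A).toRingHom.toAlgebra
  have hst : IsScalarTower k k[X] A := IsScalarTower.of_algebraMap_eq' (by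
    ext a
    change algebraMap k A a = aeval t (C a)
    simp)
  have hX : algebraMap k[X] A X = t := by
    change aeval t X = t
    simp
  have hfp : Algebra.FinitePresentation k[X] A :=
    Algebra.FinitePresentation.of_restrict_scalars_finitePresentation k k[X] A
  -- every element of `A ⊗ Ω` is `a ⊗ dX`
  have hform : ∀ z : A ⊗[k[X]] Ω[k[X]⁄k], ∃ a : A, z = a ⊗ₜ D k k[X] X := by
    intro z
    induction z with
    | zero => exact ⟨0, by rw [TensorProduct.zero_tmul]⟩
    | tmul a w =>
      have hw : w = ((polynomialEquiv k) w) • D k k[X] X := by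
        rw [← polynomialEquiv_symm, LinearEquiv.symm_apply_apply]
      refine ⟨((polynomialEquiv k) w) • a, ?_⟩
      rw [TensorProduct.smul_tmul, ← hw]
    | add x y hx hy =>
      obtain ⟨a, rfl⟩ := hx
      obtain ⟨b, rfl⟩ := hy
      exact ⟨a + b, by rw [TensorProduct.add_tmul]⟩
  have hmap : ∀ a : A, mapBaseChange k k[X] A (a ⊗ₜ D k k[X] X) = a • b () := by
    intro a
    rw [mapBaseChange_tmul, map_D, hX, hb]
  have hinj : Function.Injective (mapBaseChange k k[X] A) := by
    rw [injective_iff_map_eq_zero]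
    intro z hz
    obtain ⟨a, rfl⟩ := hform z
    rw [hmap] at hz
    have h1 : b.repr (a • b ()) () = 0 := by rw [hz]; simp
    have h2 : a = 0 := by simpa using h1
    rw [h2, TensorProduct.zero_tmul]
  have hsurj : Function.Surjective (mapBaseChange k k[X] A) := by
    intro w
    refine ⟨(b.repr w ()) ⊗ₜ D k k[X] X, ?_⟩
    rw [hmap]
    conv_rhs => rw [← b.sum_repr w]
    simp
  have h1 : Subsingleton (Ω[A⁄k[X]]) := by
    refine subsingleton_of_forall_eq 0 fun z => ?_
    obtain ⟨w, rfl⟩ := KaehlerDifferential.map_surjective k k[X] A z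
    obtain ⟨v, rfl⟩ := hsurj w
    exact (exact_mapBaseChange_map k k[X] A _).mpr ⟨v, rfl⟩
  have h2 : Subsingleton (Algebra.H1Cotangent k[X] A) := by
    refine subsingleton_of_forall_eq 0 fun z => ?_
    have h3 : Algebra.H1Cotangent.δ k k[X] A z = 0 := by
      apply hinj
      rw [map_zero]
      exact (Algebra.H1Cotangent.exact_δ_mapBaseChange k k[X] A _).mpr ⟨z, rfl⟩
    obtain ⟨w, hw⟩ := (Algebra.H1Cotangent.exact_map_δ k k[X] A z).mp h3
    rw [← hw, Subsingleton.elim w 0, map_zero]
  have h3 : Algebra.FormallyEtale k[X] A := (Algebra.formallyEtale_iff ..).mpr ⟨h1, h2⟩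
  have h4 : Algebra.Etale k[X] A := { }
  exact RingHom.etale_algebraMap.mpr h4

theorem exists_etale_polynomial [Nontrivial A]
    [Algebra.IsStandardSmoothOfRelativeDimension 1 k A] :
    ∃ t : A, (aeval t : k[X] →ₐ[k] A).toRingHom.Etale := by
  have hss : Algebra.IsStandardSmooth k A :=
    Algebra.IsStandardSmoothOfRelativeDimension.isStandardSmooth 1
  have hrk := Algebra.IsStandardSmoothOfRelativeDimension.rank_kaehlerDifferential
    (R := k) (S := A) 1
  obtain ⟨hsub, I, b, hb⟩ := Algebra.IsStandardSmooth.iff_exists_basis_kaehlerDifferential.mp hss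
  have hI : Nonempty (I ≃ Unit) := by
    have h1 := b.mk_eq_rank
    rw [hrk] at h1
    have h2 : Cardinal.mk I = 1 := by
      simpa using h1
    obtain ⟨h3, h4⟩ := Cardinal.eq_one_iff_unique.mp h2
    obtain ⟨i⟩ := h4
    exact ⟨⟨fun _ => (), fun _ => i, fun j => Subsingleton.elim _ _, fun _ => rfl⟩⟩
  obtain ⟨e⟩ := hI
  obtain ⟨t, ht⟩ := hb ⟨e.symm (), rfl⟩
  exact ⟨t, etale_of_basis t (b.reindex e) (by simp [ht])⟩

end

end Pool.Agent.MG.Two
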