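import Pool.Agent.MG.TwoSmA

universe u

namespace Pool.Agent.MG.Two

open Polynomial IsLocalRing

section
variable {R : Type u} [CommRing R] [IsNoetherianRing R] [IsLocalRing R]

lemma exists_eq_unit_mul_pow (g : R) (hg : maximalIdeal R = Ideal.span {g}) (a : R) (ha : a ≠ 0) :
    ∃ (n : ℕ) (v : Rˣ), a = v * g ^ n := by
  have hkrull : ⨅ n : ℕ, (maximalIdeal R) ^ n = ⊥ :=
    Ideal.iInf_pow_eq_bot_of_isLocalRing _ (maximalIdeal.isMaximal R).ne_top
  have h1 : ∃ n, a ∉ (maximalIdeal R) ^ n := by
    by_contra hcon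
    push Not at hcon
    have : a ∈ ⨅ n : ℕ, (maximalIdeal R) ^ n := by
      rw [Ideal.mem_iInf]; exact hcon
    rw [hkrull] at this
    exact ha this
  classical
  obtain ⟨hn, hmin⟩ := Nat.find_spec h1, fun m hm => Nat.find_min h1 (m := m) hm
  set n := Nat.find h1 with hndef
  have hn0 : n ≠ 0 := by
    intro h0
    rw [h0] at hn
    simp at hn
  obtain ⟨m, hm⟩ := Nat.exists_eq_succ_of_ne_zero hn0
  have ham : a ∈ (maximalIdeal R) ^ m := by
    by_contra h
    exact Nat.find_min h1 (m := m) (by rw [← hndef, hm]; exact Nat.lt_succ_self m) h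
  rw [hg, Ideal.span_singleton_pow, Ideal.mem_span_singleton'] at ham
  obtain ⟨v, hv⟩ := ham
  have hvu : IsUnit v := by
    by_contra h
    have h2 : v ∈ maximalIdeal R := (mem_maximalIdeal v).mpr h
    apply hn
    rw [hm, pow_succ', ← hv]
    apply Ideal.mul_mem_mul h2
    rw [hg, Ideal.span_singleton_pow]
    exact Ideal.mem_span_singleton_self _
  obtain ⟨w, rfl⟩ := hvu
  exact ⟨m, w, hv.symm⟩

lemma isDomain_of_maximalIdeal (g : R) (hg : maximalIdeal R = Ideal.span {g})
    (hreg : ∀ a, g * a = 0 → a = 0) : IsDomain R := by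
  have hpow : ∀ n, g ^ n ≠ 0 := by
    intro n
    induction n with
    | zero => simp
    | succ n ih =>
      intro h
      rw [pow_succ'] at h
      exact ih (hreg _ h)
  have : NoZeroDivisors R := by
    refine ⟨fun {a b} hab => ?_⟩
    by_contra hcon
    push Not at hcon
    obtain ⟨n, v, hv⟩ := exists_eq_unit_mul_pow g hg a hcon.1
    obtain ⟨m, w, hw⟩ := exists_eq_unit_mul_pow g hg b hcon.2
    have h1 : ((v * w : Rˣ) : R) * g ^ (n + m) = 0 := by
      rw [← hab, hv, hw, Units.val_mul, pow_add]; ring
    exact hpow _ ((Units.mul_right_eq_zero _).mp h1)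
  exact NoZeroDivisors.to_isDomain R

lemma isPrincipalIdealRing_of_maximalIdeal [IsDomain R] (g : R)
    (hg : maximalIdeal R = Ideal.span {g}) : IsPrincipalIdealRing R := by
  have h1 : (maximalIdeal R).IsPrincipal := ⟨⟨g, hg⟩⟩
  exact ((tfae_of_isNoetherianRing_of_isLocalRing_of_isDomain R).out 0 4).mpr h1

end

section
variable {k A : Type u} [Field k] [CommRing A]

theorem localization_of_etale [Algebra k[X] A] [Algebra.Etale k[X] A] (q : Ideal A) [q.IsPrime] :
    IsDomain (Localization.AtPrime q) ∧ IsPrincipalIdealRing (Localization.AtPrime q) := by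
  have hnA : IsNoetherianRing A := Algebra.FiniteType.isNoetherianRing k[X] A
  set p : Ideal k[X] := q.under k[X] with hp
  have hpp : p.IsPrime := inferInstance
  let := Localization.AtPrime.algebraOfLiesOver p q
  have hur : Algebra.IsUnramifiedAt k[X] q := inferInstance
  obtain ⟨-, hmax⟩ := (Algebra.isUnramifiedAt_iff_map_eq k[X] p q).mp hur
  have hpr : p.IsPrincipal := IsPrincipalIdealRing.principal p
  obtain ⟨g, hg⟩ := hpr
  set G : Localization.AtPrime q := algebraMap k[X] (Localization.AtPrime q) g with hG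
  have hmG : maximalIdeal (Localization.AtPrime q) = Ideal.span {G} := by
    rw [← hmax, hg, hG]
    rw [Ideal.submodule_span_eq, Ideal.map_span, Set.image_singleton]
  have hflat : Module.Flat k[X] (Localization.AtPrime q) := by
    have h1 : Module.Flat k[X] A := inferInstance
    exact Module.Flat.trans k[X] A (Localization.AtPrime q)
  by_cases hg0 : g = 0
  · have hG0 : G = 0 := by rw [hG, hg0, map_zero]
    have hbot : maximalIdeal (Localization.AtPrime q) = ⊥ := by
      rw [hmG, hG0]; simp
    have hfield : IsField (Localization.AtPrime q) := isField_iff_maximalIdeal_eq.mpr hbot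
    have hdom : IsDomain (Localization.AtPrime q) := hfield.isDomain
    exact ⟨hdom, isPrincipalIdealRing_of_maximalIdeal G hmG⟩
  · have hreg : ∀ a, G * a = 0 → a = 0 := by
      intro a ha
      have h1 : g • a = 0 := by rw [Algebra.smul_def]; exact ha
      have h2 : Module.IsTorsionFree k[X] (Localization.AtPrime q) := inferInstance
      exact (smul_eq_zero.mp h1).resolve_left hg0
    have hdom := isDomain_of_maximalIdeal G hmG hreg
    exact ⟨hdom, isPrincipalIdealRing_of_maximalIdeal G hmG⟩

end

end Pool.Agent.MG.Two
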